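import Mathlib

/-! Bundle of small proof modules (one section per former module). -/

section

/-!
# Definitions for the lower bound `R x ≥ sqrt (log x) / (log log x) ^ C`

Module A: abstract zero sums.  Module W: character sums.  Module B: pseudorandomness for most `k`.
Module C: existence of the set of primes.  Module D: Carmichael numbers.
-/

namespace Pool.Agent.Work.MP_e0aece_nt.Sq

open Finset

/-! ### Subsets -/

section Fib

variable {ι : Type} [Fintype ι] [DecidableEq ι]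

/-- The sets `A` with `A ∩ B = I`. -/
def fib (B I : Finset ι) : Finset (Finset ι) := Finset.univ.filter fun A => A ∩ B = I

end Fib

/-! ### Module A: characters of a product of finite abelian groups -/

section A

variable {ι : Type} [Fintype ι] [DecidableEq ι] {H : ι → Type} [∀ i, AddCommGroup (H i)]
  [∀ i, Fintype (H i)]

/-- The value at `g A` of the product of the characters `ψ i`. -/
noncomputable def ev (g : Finset ι → ∀ i, H i) (ψ : ∀ i, AddChar (H i) ℂ) (A : Finset ι) : ℂ :=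
  ∏ i, ψ i (g A i)

/-- Pseudorandomness: for `I ⊆ B`, `|B| ≤ m`, the families of `lam`-th powers of characters that
are nontrivial somewhere on `B \ I` have mean at most `2 ^ (-m)` on `fib B I`. -/
def PR (g : Finset ι → ∀ i, H i) (lam m : ℕ) : Prop :=
  ∀ B I : Finset ι, I ⊆ B → B.card ≤ m → ∀ φ : ∀ i, AddChar (H i) ℂ,
    (∃ i ∈ B \ I, φ i ^ lam ≠ 1) →
    ‖∑ A ∈ fib B I, ev g (fun i => φ i ^ lam) A‖ * 2 ^ m * 2 ^ B.card ≤ 2 ^ Fintype.card ι

/-- `F = 1 +` a combination, with sum of absolute values of the coefficients at most `2 ^ D - 1`, of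
families of `lam`-th powers of characters, each nontrivial somewhere on `B \ I`. -/
def Expan (g : Finset ι → ∀ i, H i) (lam : ℕ) (B I : Finset ι) (F : Finset ι → ℝ) (D : ℕ) : Prop :=
  ∃ (n : ℕ) (c : Fin n → ℂ) (φ : Fin n → ∀ i, AddChar (H i) ℂ),
    (∀ t, ∃ i ∈ B \ I, φ t i ^ lam ≠ 1) ∧ (∑ t, ‖c t‖) ≤ 2 ^ D - 1 ∧
    ∀ A, (F A : ℂ) = 1 + ∑ t, c t * ev g (fun i => φ t i ^ lam) A

/-- The families `χ` with `χ ^ lam = 1` that are constant on the support of `w`. -/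
def torsConst (g : Finset ι → ∀ i, H i) (lam : ℕ) (w : Finset ι → ℝ) :
    Set (∀ i, AddChar (H i) ℂ) :=
  {χ | (∀ i, χ i ^ lam = 1) ∧ ∀ A A', w A ≠ 0 → w A' ≠ 0 → ev g χ A = ev g χ A'}

/-- A state of the increment process. -/
def St (g : Finset ι → ∀ i, H i) (lam y J : ℕ) (C : Finset (Finset ι)) (B I : Finset ι)
    (w : Finset ι → ℝ) (j : ℕ) : Prop :=
  I ⊆ B ∧
  (∃ (F : Finset ι → ℝ) (D : ℕ), D ≤ B.card ∧ Expan g lam B I F D ∧ (∀ A, F A ≤ 2 ^ D) ∧
    ∀ A, 0 ≤ w A ∧ w A ≤ F A) ∧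
  (∀ A, w A ≠ 0 → A ∈ C ∧ A ∩ B = I) ∧
  (2 : ℝ) ^ Fintype.card ι * (6 / 5) ^ B.card * (1 - y / (2 * J)) ^ j ≤
    (∑ A, w A) * 2 ^ B.card * 2 ^ y ∧
  2 ^ j ≤ Nat.card (torsConst g lam w)

end A

/-! ### Characters modulo primes -/

section Chars

/-- The unit given by a residue class (the class `0` is sent to `1`). -/
noncomputable def ures {q : ℕ} [Fact q.Prime] (x : ZMod q) : (ZMod q)ˣ :=
  if h : x = 0 then 1 else Units.mk0 x h

/-- The value of `ψ` at `a * k + 1` (with the value `1` if `a * k + 1 = 0`). -/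
noncomputable def evk {q : ℕ} [Fact q.Prime] (ψ : MulChar (ZMod q) ℂ) (a : ZMod q)
    (k : (ZMod q)ˣ) : ℂ :=
  ψ (ures (a * (k : ZMod q) + 1) : ZMod q)

/-- The nontrivial `lam`-th powers of characters modulo `q`. -/
noncomputable def Pw (q lam : ℕ) : Finset (MulChar (ZMod q) ℂ) := by
  classical
  exact if h : q ≠ 0 then
    haveI : NeZero q := ⟨h⟩
    haveI : Fintype (MulChar (ZMod q) ℂ) := Fintype.ofFinite _
    (Finset.univ.image fun φ : MulChar (ZMod q) ℂ => φ ^ lam).erase 1 else ∅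

end Chars

/-! ### Module B -/

section B

variable {ι : Type} [Fintype ι] [DecidableEq ι] (p : ι → ℕ) [∀ i, Fact (p i).Prime]

/-- The product of the primes `p i`, `i ∈ A`. -/
def dd (p : ι → ℕ) (A : Finset ι) : ℕ := ∏ i ∈ A, p i

/-- The sum over `A ∈ fib B I` of the product of the `ψ i (d_A * k i + 1)`. -/
noncomputable def SumF (B I : Finset ι) (ψ : ∀ i, MulChar (ZMod (p i)) ℂ)
    (k : ∀ i, (ZMod (p i))ˣ) : ℂ :=
  ∑ A ∈ fib B I, ∏ i, evk (ψ i) (dd p A : ZMod (p i)) (k i)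

/-- Pseudorandomness for the residue vector `k`. -/
def PRv (lam m : ℕ) (k : ∀ i, (ZMod (p i))ˣ) : Prop :=
  ∀ B I : Finset ι, I ⊆ B → B.card ≤ m → ∀ φ : ∀ i, MulChar (ZMod (p i)) ℂ,
    (∃ i ∈ B \ I, φ i ^ lam ≠ 1) →
    ‖SumF p B I (fun i => φ i ^ lam) k‖ * 2 ^ m * 2 ^ B.card ≤ 2 ^ Fintype.card ι

/-- The gap property: for every nonempty `S` with at most `h` elements and all nontrivial characters
`χ i` modulo `p i`, `i ∈ S`, the real part of the sum over all `j` of `∏_{i ∈ S} χ i (p j)` is at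
most half the number of primes. -/
def Gap (h : ℕ) : Prop :=
  ∀ S : Finset ι, S.Nonempty → S.card ≤ h → ∀ χ : ∀ i, MulChar (ZMod (p i)) ℂ,
    (∀ i ∈ S, χ i ≠ 1) →
    (∑ j, ∏ i ∈ S, χ i ((p j : ℕ) : ZMod (p i))).re ≤ Fintype.card ι / 2

/-- The unnormalised correlation function at one prime. -/
noncomputable def Yq (q : ℕ) [Fact q.Prime] (lam r : ℕ) (x x' : Fin r → ZMod q) : ℂ :=
  ∑ ψ ∈ Pw q lam, ∑ k : (ZMod q)ˣ, ∏ j, (evk ψ (x j) k * (starRingEnd ℂ) (evk ψ (x' j) k))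

/-- Weights on residue classes: `1/2` at zero, the rest uniform on the units. -/
noncomputable def om0 (q : ℕ) (x : ZMod q) : ℝ := if x = 0 then 1 / 2 else 1 / (2 * ((q : ℝ) - 1))

/-- Weights on residue classes: uniform on the units. -/
noncomputable def om1 (q : ℕ) (x : ZMod q) : ℝ := if x = 0 then 0 else 1 / ((q : ℝ) - 1)

/-- The weight used at the coordinate `i` for the fibre over `B`. -/
noncomputable def omB (p : ι → ℕ) (B : Finset ι) (i : ι) (x : ZMod (p i)) : ℝ :=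
  if i ∈ B then om1 (p i) x else om0 (p i) x

/-- The families with `ψ i` a nontrivial `lam`-th power for `i ∈ S` and `ψ i = 1` elsewhere. -/
noncomputable def PF (lam : ℕ) (S : Finset ι) : Finset (∀ i, MulChar (ZMod (p i)) ℂ) :=
  Fintype.piFinset fun i => if i ∈ S then Pw (p i) lam else {1}

/-- The hypotheses on the primes in Module B. -/
def Primes (M lam : ℕ) (p : Fin M → ℕ) : Prop :=
  Function.Injective p ∧ ∀ i, (p i).Prime ∧ M ^ 20 < p i ∧ p i ≤ 4 * M ^ 20 ∧ lam ∣ p i - 1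

/-- The size of the small supports. -/
noncomputable def h0 (M : ℕ) : ℕ := ⌊(M : ℝ) / (3000 * Real.log M)⌋₊

end B

/-! ### Module C -/

section C

/-- A finite family of completely multiplicative functions with small sums over intervals. -/
def QO {κ : Type} (𝒳 : Finset κ) (χ : κ → ℕ → ℂ) (F : ℝ) : Prop :=
  1 ≤ F ∧ (𝒳.card : ℝ) ≤ F ^ 2 ∧
  (∀ x ∈ 𝒳, χ x 1 = 1 ∧ (∀ m n, χ x (m * n) = χ x m * χ x n) ∧ (∀ n, ‖χ x n‖ ≤ 1) ∧
    ∀ a b : ℕ, ‖∑ n ∈ Ioc a b, χ x n‖ ≤ F) ∧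
  ∀ x ∈ 𝒳, ∀ x' ∈ 𝒳, x ≠ x' → ∀ a b : ℕ,
    ‖∑ n ∈ Ioc a b, χ x n * (starRingEnd ℂ) (χ x' n)‖ ≤ F ^ 2

variable {κ : Type} [Fintype κ] [DecidableEq κ] (q : κ → ℕ)

open Classical in
/-- The product character of a family, as a function on the natural numbers; trivial components
are ignored. -/
noncomputable def cval (ξ : ∀ i, MulChar (ZMod (q i)) ℂ) (n : ℕ) : ℂ :=
  ∏ i, if ξ i = 1 then 1 else ξ i (n : ZMod (q i))

open Classical in
/-- The support of a family of characters. -/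
noncomputable def csupp (ξ : ∀ i, MulChar (ZMod (q i)) ℂ) : Finset κ :=
  Finset.univ.filter fun i => ξ i ≠ 1

/-- The sum of `Λ(n) χ(n)` over `n ≤ X`. -/
noncomputable def psiX (χ : ℕ → ℂ) (X : ℕ) : ℂ :=
  ∑ n ∈ Ioc 0 X, (ArithmeticFunction.vonMangoldt n : ℂ) * χ n

/-- Enough primes in the progressions `1` modulo `d_A`. -/
def PrimesAP {ι : Type} [Fintype ι] (p : ι → ℕ) (X : ℕ) : Prop :=
  ∀ A : Finset ι, (X : ℝ) / (2 * (dd p A : ℝ) * Real.log X) ≤
    (((Ioc 0 (X / dd p A)).filter fun k => (dd p A * k + 1).Prime).card : ℝ)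

/-- The range of primes. -/
def XM (M : ℕ) : ℕ := M ^ (3000 * M)

end C

end Pool.Agent.Work.MP_e0aece_nt.Sq

end

section

/-!
# Statements of Module A (abstract zero sums)
-/

namespace Pool.Agent.Work.MP_e0aece_nt.Sq

open Finset

/-- A1 (zero sums from a spectral gap). -/
def ClaimA1 : Prop :=
  ∀ (G Ω : Type) [AddCommGroup G] [Fintype G] [Fintype Ω] [DecidableEq Ω] (gg : Ω → G)
    (w : Ω → ℝ) (mx δ : ℝ) (lam s : ℕ) (Γ : Finset (AddChar G ℂ)),
    (∀ a, 0 ≤ w a) → (∀ a, w a ≤ mx) → 0 < ∑ a, w a → 0 ≤ δ → δ ≤ 1 → lam ∣ s → 2 ≤ s →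
    (1 : AddChar G ℂ) ∈ Γ →
    (∀ χ ∈ Γ, ∃ ζ : ℂ, ζ ^ lam = 1 ∧ ∀ a, w a ≠ 0 → χ (gg a) = ζ) →
    (∀ χ ∉ Γ, ‖∑ a, (w a : ℂ) * χ (gg a)‖ ≤ (1 - δ) * ∑ a, w a) →
    (1 - δ) ^ (s - 2) * (4 * (Fintype.card G : ℝ)) ≤ 1 →
    (s : ℝ) ^ 2 * mx ≤ ∑ a, w a →
    ∃ T : Finset Ω, T.card = s ∧ (∀ a ∈ T, w a ≠ 0) ∧ ∑ a ∈ T, gg a = 0

/-- A2 (upper bound for the total weight of a state). -/
def ClaimA2 : Prop :=
  ∀ (ι : Type) [Fintype ι] [DecidableEq ι] (H : ι → Type) [∀ i, AddCommGroup (H i)]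
    [∀ i, Fintype (H i)] (g : Finset ι → ∀ i, H i) (lam m D : ℕ) (B I : Finset ι)
    (F : Finset ι → ℝ), PR g lam m → I ⊆ B → B.card ≤ m → D ≤ m → Expan g lam B I F D →
    (∑ A ∈ fib B I, F A) * 2 ^ B.card ≤ 2 * 2 ^ Fintype.card ι

/-- A3 (closure of the expansions under multiplication by `1 + Re (conj θ ψ)`, freezing `q ∉ A`). -/
def ClaimA3 : Prop :=
  ∀ (ι : Type) [Fintype ι] [DecidableEq ι] (H : ι → Type) [∀ i, AddCommGroup (H i)]
    [∀ i, Fintype (H i)] (g : Finset ι → ∀ i, H i) (lam D : ℕ) (B I : Finset ι)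
    (F : Finset ι → ℝ) (φ : ∀ i, AddChar (H i) ℂ) (θ : ℂ) (q : ι), I ⊆ B →
    Expan g lam B I F D → q ∉ B → φ q ^ lam ≠ 1 → (∀ i ∈ B, φ i ^ lam = 1) → ‖θ‖ = 1 →
    Expan g lam (insert q B) I
      (fun A => F A * (1 + ((starRingEnd ℂ) θ * ev g (fun i => φ i ^ lam) A).re)) (D + 1)

/-- A4 (the step for a large `lam`-th power character). -/
def ClaimA4 : Prop :=
  ∀ (ι : Type) [Fintype ι] [DecidableEq ι] (H : ι → Type) [∀ i, AddCommGroup (H i)]
    [∀ i, Fintype (H i)] (g : Finset ι → ∀ i, H i) (lam y J : ℕ) (C : Finset (Finset ι))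
    (B I : Finset ι) (w : Finset ι → ℝ) (j : ℕ) (φ : ∀ i, AddChar (H i) ℂ),
    1 ≤ y → 50 * y ≤ J → St g lam y J C B I w j → j ≤ J →
    (∀ i ∈ B, φ i ^ lam = 1) → (∃ i, φ i ^ lam ≠ 1) →
    (24 / 25 : ℝ) * ∑ A, w A < ‖∑ A, (w A : ℂ) * ev g (fun i => φ i ^ lam) A‖ →
    ∃ (B' I' : Finset ι) (w' : Finset ι → ℝ), B'.card = B.card + 1 ∧ St g lam y J C B' I' w' j

/-- A5 (the step for a torsion character that is almost constant on the support). -/
def ClaimA5 : Prop :=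
  ∀ (ι : Type) [Fintype ι] [DecidableEq ι] (H : ι → Type) [∀ i, AddCommGroup (H i)]
    [∀ i, Fintype (H i)] (g : Finset ι → ∀ i, H i) (lam y J : ℕ) (C : Finset (Finset ι))
    (B I : Finset ι) (w : Finset ι → ℝ) (j : ℕ) (χ : ∀ i, AddChar (H i) ℂ) (ζ : ℂ),
    1 ≤ y → 50 * y ≤ J → St g lam y J C B I w j →
    (∀ i, χ i ^ lam = 1) → χ ∉ torsConst g lam w →
    (1 - (y : ℝ) / (2 * J)) * ∑ A, w A ≤ ∑ A ∈ Finset.univ.filter (fun A => ev g χ A = ζ), w A →
    ∃ w' : Finset ι → ℝ, St g lam y J C B I w' (j + 1)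

/-- A6 (existence of a maximal state). -/
def ClaimA6 : Prop :=
  ∀ (ι : Type) [Fintype ι] [DecidableEq ι] (H : ι → Type) [∀ i, AddCommGroup (H i)]
    [∀ i, Fintype (H i)] (g : Finset ι → ∀ i, H i) (lam y J m : ℕ) (C : Finset (Finset ι)),
    1 ≤ lam → 1 ≤ y → 50 * y ≤ J → 8 * y + 4 ≤ m → PR g lam m →
    ((∏ i, Fintype.card (H i) : ℕ) : ℝ) ≤ 2 ^ J →
    2 ^ Fintype.card ι ≤ C.card * 2 ^ y →
    ∃ (B I : Finset ι) (w : Finset ι → ℝ) (j : ℕ), B.card + 1 ≤ m ∧ j ≤ J ∧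
      St g lam y J C B I w j ∧ 0 < ∑ A, w A ∧
      (∀ φ : ∀ i, AddChar (H i) ℂ, (∀ i ∈ B, φ i ^ lam = 1) → (∃ i, φ i ^ lam ≠ 1) →
        ‖∑ A, (w A : ℂ) * ev g (fun i => φ i ^ lam) A‖ ≤ (24 / 25 : ℝ) * ∑ A, w A) ∧
      (∀ (χ : ∀ i, AddChar (H i) ℂ) (ζ : ℂ), (∀ i, χ i ^ lam = 1) → χ ∉ torsConst g lam w →
        ∑ A ∈ Finset.univ.filter (fun A => ev g χ A = ζ), w A
          ≤ (1 - (y : ℝ) / (2 * J)) * ∑ A, w A)

/-- A7 (gap from the `lam`-th power). -/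
def ClaimA7 : Prop :=
  ∀ (Ω : Type) [Fintype Ω] (w : Ω → ℝ) (f : Ω → ℂ) (lam : ℕ), (∀ a, 0 ≤ w a) →
    (∀ a, ‖f a‖ = 1) →
    ∑ a, w a - ‖∑ a, (w a : ℂ) * f a ^ lam‖ ≤
      (lam : ℝ) ^ 2 * (∑ a, w a - ‖∑ a, (w a : ℂ) * f a‖)

/-- A8 (gap for a function with values in the roots of unity). -/
def ClaimA8 : Prop :=
  ∀ (Ω : Type) [Fintype Ω] [DecidableEq Ω] (w : Ω → ℝ) (f : Ω → ℂ) (lam : ℕ) (κ : ℝ),
    1 ≤ lam → (∀ a, 0 ≤ w a) → (∀ a, w a ≠ 0 → f a ^ lam = 1) → 0 ≤ κ → κ ≤ 1 / 4 →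
    (∀ ζ : ℂ, ∑ a ∈ Finset.univ.filter (fun a => f a = ζ), w a ≤ (1 - κ) * ∑ a, w a) →
    ‖∑ a, (w a : ℂ) * f a‖ ≤ (1 - 4 * κ / (lam : ℝ) ^ 2) * ∑ a, w a

/-- Module A: the abstract zero sum theorem. -/
def ClaimA : Prop :=
  ∀ (ι : Type) [Fintype ι] [DecidableEq ι] (H : ι → Type) [∀ i, AddCommGroup (H i)]
    [∀ i, Fintype (H i)] (g : Finset ι → ∀ i, H i) (lam y J m s : ℕ) (C : Finset (Finset ι)),
    1 ≤ lam → 1 ≤ y → 50 * y ≤ J → 8 * y + 4 ≤ m → PR g lam m →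
    ((∏ i, Fintype.card (H i) : ℕ) : ℝ) ≤ 2 ^ J →
    2 ^ Fintype.card ι ≤ C.card * 2 ^ y →
    lam ∣ s → 2 ≤ s →
    (1 - 2 * (y : ℝ) / (J * (lam : ℝ) ^ 2)) ^ (s - 2) * (4 * 2 ^ J) ≤ 1 →
    s ^ 2 * 2 ^ (2 * m + 2 * y) ≤ 2 ^ Fintype.card ι →
    ∃ (B I : Finset ι) (T : Finset (Finset ι)), I ⊆ B ∧ B.card ≤ m ∧ T ⊆ C ∧ T.card = s ∧
      (∀ A ∈ T, A ∩ B = I) ∧ ∀ i, i ∉ B → ∑ A ∈ T, g A i = 0

end Pool.Agent.Work.MP_e0aece_nt.Sq

end

section

/-!
# Statements of Module C (existence of the set of primes)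
-/

namespace Pool.Agent.Work.MP_e0aece_nt.Sq

open Finset

/-- C1: the large sieve by duality. -/
def ClaimC1 : Prop :=
  ∀ (κ : Type) (𝒳 : Finset κ) (χ : κ → ℕ → ℂ) (F : ℝ) (a : ℕ → ℂ) (M N : ℕ), QO 𝒳 χ F →
    ∑ x ∈ 𝒳, ‖∑ n ∈ Ioc M (M + N), a n * χ x n‖ ^ 2 ≤
      (N + 𝒳.card * F ^ 2) * ∑ n ∈ Ioc M (M + N), ‖a n‖ ^ 2

/-- C2: Vaughan's identity for the sum over `n ≤ X` (with both parameters equal to `U`). -/
def ClaimC2 : Prop :=
  ∀ (χ : ℕ → ℂ) (X U : ℕ), χ 1 = 1 → (∀ m n, χ (m * n) = χ m * χ n) → 1 ≤ U → U ≤ X →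
    psiX χ X =
      ∑ n ∈ Ioc 0 U, (ArithmeticFunction.vonMangoldt n : ℂ) * χ n
      + ∑ d ∈ Ioc 0 U, ((ArithmeticFunction.moebius d : ℤ) : ℂ) * χ d * ∑ m ∈ Ioc 0 (X / d), (Real.log m : ℂ) * χ m
      - ∑ d ∈ Ioc 0 U, ∑ e ∈ Ioc 0 U, ((ArithmeticFunction.moebius d : ℤ) : ℂ) * (ArithmeticFunction.vonMangoldt e : ℂ) * χ (d * e) *
          ∑ m ∈ Ioc 0 (X / (d * e)), χ m
      + ∑ m ∈ Ioc U (X / U), (ArithmeticFunction.vonMangoldt m : ℂ) * χ m *
          ∑ n ∈ Ioc U (X / m), ((∑ d ∈ n.divisors.filter (fun d => U < d), (ArithmeticFunction.moebius d : ℤ) : ℤ) : ℂ) * χ n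

/-- C3: type I sum with the logarithm. -/
def ClaimC3 : Prop :=
  ∀ (χ : ℕ → ℂ) (F : ℝ) (Y : ℕ), 0 ≤ F → (∀ a b : ℕ, ‖∑ n ∈ Ioc a b, χ n‖ ≤ F) →
    ‖∑ m ∈ Ioc 0 Y, (Real.log m : ℂ) * χ m‖ ≤ 2 * F * Real.log Y

/-- C4: the mean square of the divisor function. -/
def ClaimC4 : Prop :=
  ∀ N : ℕ, 1 ≤ N → ∑ n ∈ Ioc 0 N, ((n.divisors.card : ℝ)) ^ 2 ≤ N * (1 + Real.log N) ^ 3

/-- C5: the divisor bound. -/
def ClaimC5 : Prop :=
  ∀ ε : ℝ, 0 < ε → ∃ C : ℝ, 1 ≤ C ∧ ∀ n : ℕ, 1 ≤ n → (n.divisors.card : ℝ) ≤ C * (n : ℝ) ^ ε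

/-- C6: the type II sum. -/
def ClaimC6 : Prop :=
  ∃ C : ℝ, ∃ X0 : ℕ, ∀ (κ : Type) (𝒳 : Finset κ) (χ : κ → ℕ → ℂ) (F : ℝ) (X T : ℕ),
    QO 𝒳 χ F → X0 ≤ X → F ^ 60 ≤ X → T ^ 6 ≤ X → X < (T + 1) ^ 6 →
    ∑ x ∈ 𝒳, ‖∑ m ∈ Ioc (T ^ 2) (X / T ^ 2), (ArithmeticFunction.vonMangoldt m : ℂ) * χ x m *
        ∑ n ∈ Ioc (T ^ 2) (X / m),
          ((∑ d ∈ n.divisors.filter (fun d => T ^ 2 < d), (ArithmeticFunction.moebius d : ℤ) : ℤ) : ℂ) * χ x n‖ ≤
      C * X * (Real.log X) ^ 5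

/-- C7: the mean value theorem for prime character sums. -/
def ClaimC7 : Prop :=
  ∃ C : ℝ, 0 < C ∧ ∃ X0 : ℕ, ∀ (κ : Type) (𝒳 : Finset κ) (χ : κ → ℕ → ℂ) (F : ℝ) (X : ℕ),
    QO 𝒳 χ F → X0 ≤ X → F ^ 60 ≤ X →
    ∑ x ∈ 𝒳, ‖psiX (χ x) X‖ ≤ C * X * (Real.log X) ^ 6

/-- C8: sums of product characters over intervals. -/
def ClaimC8 : Prop :=
  ∀ (κ : Type) [Fintype κ] [DecidableEq κ] (q : κ → ℕ) (T : Finset κ)
    (η : ∀ i, MulChar (ZMod (q i)) ℂ), Function.Injective q → (∀ i, (q i).Prime) →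
    (∃ i ∈ T, η i ≠ 1) → ∀ a b : ℕ,
    ‖∑ n ∈ Ioc a b, ∏ i ∈ T, η i (n : ZMod (q i))‖ ≤ ∏ i ∈ T, (q i : ℝ)

/-- C9: the families of characters with support of size `h` are quasi-orthogonal. -/
def ClaimC9 : Prop :=
  ∀ (κ : Type) [Fintype κ] [DecidableEq κ] (q : κ → ℕ) (z h : ℕ)
    (𝒳 : Finset (∀ i, MulChar (ZMod (q i)) ℂ)), Function.Injective q → (∀ i, (q i).Prime) →
    (∀ i, q i ≤ z) → 1 ≤ h → 1 ≤ z → (∀ ξ ∈ 𝒳, (csupp q ξ).card = h) →
    QO 𝒳 (fun ξ => cval q ξ) ((z : ℝ) ^ h)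

/-- C10: the number of families with a given support, and with support of size at most `h`. -/
def ClaimC10 : Prop :=
  ∀ (κ : Type) [Fintype κ] [DecidableEq κ] (q : κ → ℕ) (z h : ℕ),
    (∀ i, (q i).Prime) → (∀ i, q i ≤ z) → 1 ≤ h → 1 ≤ z → Fintype.card κ ≤ z →
    (Nat.card {ξ : ∀ i, MulChar (ZMod (q i)) ℂ // (csupp q ξ).card ≤ h} : ℝ) ≤
      2 * ((z : ℝ) ^ 2) ^ h

/-- C11: the number of exceptional families. -/
def ClaimC11 : Prop :=
  ∀ (κ : Type) [Fintype κ] [DecidableEq κ] (q : κ → ℕ) (z h : ℕ), Function.Injective q →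
    (∀ i, (q i).Prime) → (∀ i, q i ≤ z) → 1 ≤ h → 1 ≤ Fintype.card κ →
    (Nat.card {ξ : ∀ i, MulChar (ZMod (q i)) ℂ // (csupp q ξ).card = h ∧
      (Fintype.card κ : ℝ) / 10 < ‖∑ j, cval q ξ (q j)‖} : ℝ) ≤
      2 * (4 * h).factorial * 10 ^ (8 * h) * ((z : ℝ) / Fintype.card κ) ^ (4 * h)

/-- C12: a pool of primes in a progression. -/
def ClaimC12 : Prop :=
  ∃ M0 : ℕ, ∀ M, M0 ≤ M → ∀ L : ℕ, (Real.log M) ^ 8 ≤ L → L ^ 4 ≤ M →
    ∃ lam : ℕ, lam.Prime ∧ L < lam ∧ lam ≤ 4 * L ∧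
      M ^ 19 ≤ ((Ioc (M ^ 20) (4 * M ^ 20)).filter fun q => q.Prime ∧ lam ∣ q - 1).card

/-- C13: for a nonexceptional family the number of transversals violating the gap. -/
def ClaimC13 : Prop :=
  ∀ (M N : ℕ) (f : Fin M → Fin N → ℝ), 1 ≤ M → 1 ≤ N → (∀ i j, |f i j| ≤ 1) →
    ∑ i, ∑ j, f i j ≤ (M : ℝ) * N / 10 →
    ((Finset.univ.filter fun σ : Fin M → Fin N => (M : ℝ) / 2 < ∑ i, f i (σ i)).card : ℝ) ≤
      (N : ℝ) ^ M * Real.exp (-((M : ℝ) / 25))

/-- C14: the number of transversals containing a given set. -/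
def ClaimC14 : Prop :=
  ∀ (M N : ℕ) (S : Finset (Fin M × Fin N)), 1 ≤ N →
    (((Finset.univ.filter fun σ : Fin M → Fin N => ∀ x ∈ S, σ x.1 = x.2).card : ℝ)) * N ^ S.card ≤
      (N : ℝ) ^ M

/-- C15: a good transversal of the pool. -/
def ClaimC15 : Prop :=
  ∃ M0 : ℕ, ∀ M, M0 ≤ M → ∀ (N : ℕ) (q : Fin M × Fin N → ℕ), M ^ 18 ≤ N → N ≤ M ^ 20 →
    Function.Injective q →
    (∀ x, (q x).Prime ∧ M ^ 20 < q x ∧ q x ≤ 4 * M ^ 20) →
    ∃ σ : Fin M → Fin N,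
      (∀ ξ : ∀ x, MulChar (ZMod (q x)) ℂ, (csupp q ξ).Nonempty → (csupp q ξ).card ≤ h0 M →
        (∀ x ∈ csupp q ξ, σ x.1 = x.2) →
        (∑ i, cval q ξ (q (i, σ i))).re ≤ (M : ℝ) / 2) ∧
      ∀ 𝒳 : Finset (∀ x, MulChar (ZMod (q x)) ℂ),
        (∀ ξ ∈ 𝒳, (csupp q ξ).Nonempty ∧ ∀ x ∈ csupp q ξ, σ x.1 = x.2) →
        ∑ ξ ∈ 𝒳, ‖psiX (cval q ξ) (XM M)‖ ≤ (XM M : ℝ) / 100

/-- C16: primes in progressions from the bound for the prime character sums. -/
def ClaimC16 : Prop :=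
  ∃ M0 : ℕ, ∀ M, M0 ≤ M → ∀ (p : Fin M → ℕ), Function.Injective p →
    (∀ i, (p i).Prime ∧ M ^ 20 < p i ∧ p i ≤ 4 * M ^ 20) →
    (∀ 𝒳 : Finset (∀ i, MulChar (ZMod (p i)) ℂ), (∀ ξ ∈ 𝒳, (csupp p ξ).Nonempty) →
      ∑ ξ ∈ 𝒳, ‖psiX (cval p ξ) (XM M)‖ ≤ (XM M : ℝ) / 100) →
    PrimesAP p (XM M)

/-- Module C: existence of the primes. -/
def ClaimC : Prop :=
  ∃ M0 : ℕ, ∀ M, M0 ≤ M → ∀ L : ℕ, (Real.log M) ^ 8 ≤ L → L ^ 4 ≤ M →
    ∃ (lam : ℕ) (p : Fin M → ℕ), lam.Prime ∧ L < lam ∧ lam ≤ 4 * L ∧ Primes M lam p ∧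
      (∀ _ : ∀ i, Fact (p i).Prime, Gap p (h0 M)) ∧ PrimesAP p (XM M)

end Pool.Agent.Work.MP_e0aece_nt.Sq

end

section

/-!
# Statements of Module W (Weil's bound for products of characters of linear polynomials)

`cc a χ n` is the sum over monic polynomials `g` of degree `n` of `∏ χ_j (g (a_j))`;
`SS a χ n` is the sum over `x` in the field with `q ^ n` elements of `∏ χ_j (N (a_j - x))`.
-/

namespace Pool.Agent.Work.MP_e0aece_nt.Sq

open Finset Polynomial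

section W

variable {q : ℕ} [Fact q.Prime]

/-- The monic polynomial `X ^ n + ∑ c_i X ^ i`. -/
noncomputable def mon {n : ℕ} (c : Fin n → ZMod q) : (ZMod q)[X] :=
  X ^ n + ∑ i : Fin n, C (c i) * X ^ (i : ℕ)

/-- The multiplicative function `g ↦ ∏ χ_j (g (a_j))`. -/
noncomputable def Psi {m : ℕ} (a : Fin m → ZMod q) (χ : Fin m → MulChar (ZMod q) ℂ)
    (g : (ZMod q)[X]) : ℂ := ∏ j, χ j (g.eval (a j))

/-- Sum over the monic polynomials of degree `n`. -/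
noncomputable def cc {m : ℕ} (a : Fin m → ZMod q) (χ : Fin m → MulChar (ZMod q) ℂ) (n : ℕ) : ℂ :=
  ∑ c : Fin n → ZMod q, Psi a χ (mon c)

/-- Sum over the elements of the field with `q ^ n` elements. -/
noncomputable def SS {m : ℕ} (a : Fin m → ZMod q) (χ : Fin m → MulChar (ZMod q) ℂ) (n : ℕ) : ℂ :=
  haveI : Fintype (GaloisField q n) := Fintype.ofFinite _
  ∑ x : GaloisField q n, ∏ j, χ j (Algebra.norm (ZMod q) (algebraMap (ZMod q) _ (a j) - x))

/-- The polynomial `(minpoly x) ^ (n / deg x)` for `x` in the field with `q ^ n` elements. -/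
noncomputable def gx (n : ℕ) (x : GaloisField q n) : (ZMod q)[X] :=
  minpoly (ZMod q) x ^ (n / (minpoly (ZMod q) x).natDegree)

end W

/-- W1: the coefficients of degree at least `m` vanish. -/
def ClaimW1 : Prop :=
  ∀ (q : ℕ) [Fact q.Prime] (m : ℕ) (a : Fin m → ZMod q) (χ : Fin m → MulChar (ZMod q) ℂ),
    Function.Injective a → (∀ j, χ j ≠ 1) → 1 ≤ m → ∀ n, m ≤ n → cc a χ n = 0

/-- W2: for a monic polynomial `g` of degree `n`, the number of pairs `(k, x)`, `1 ≤ k ≤ n`,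
`x` in the field with `q ^ k` elements, with `gx k x ∣ g` is `n`. -/
def ClaimW2 : Prop :=
  ∀ (q : ℕ) [Fact q.Prime] (n : ℕ) (g : (ZMod q)[X]), g.Monic → g.natDegree = n →
    ∑ k ∈ Icc 1 n, Nat.card {x : GaloisField q k // gx k x ∣ g} = n

/-- W3: the norm of `a - x` is the value of `gx` at `a`; `gx` is monic of degree `n`. -/
def ClaimW3 : Prop :=
  ∀ (q : ℕ) [Fact q.Prime] (n : ℕ), 1 ≤ n → ∀ (x : GaloisField q n),
    (gx n x).Monic ∧ (gx n x).natDegree = n ∧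
    ∀ a : ZMod q, Algebra.norm (ZMod q) (algebraMap (ZMod q) (GaloisField q n) a - x) =
      (gx n x).eval a

/-- W4: the Newton type identities. -/
def ClaimW4 : Prop :=
  ∀ (q : ℕ) [Fact q.Prime] (m : ℕ) (a : Fin m → ZMod q) (χ : Fin m → MulChar (ZMod q) ℂ) (n : ℕ),
    (n : ℂ) * cc a χ n = ∑ k ∈ Icc 1 n, SS a χ k * cc a χ (n - k)

/-- W5: from the identities and a bound for infinitely many `S` to a bound for `S 1`. -/
def ClaimW5 : Prop :=
  ∀ (m : ℕ) (c S : ℕ → ℂ) (R C : ℝ) (n0 : ℕ), 1 ≤ m → 0 < R → c 0 = 1 → (∀ n, m ≤ n → c n = 0) →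
    (∀ n : ℕ, (n : ℂ) * c n = ∑ k ∈ Icc 1 n, S k * c (n - k)) →
    (∀ n, n0 ≤ n → ‖S (2 * n)‖ ≤ C * R ^ (2 * n)) → ‖S 1‖ ≤ ((m : ℝ) - 1) * R

/-- The matrix of multiplication by `∑ k_i Y ^ i` modulo `f Y ^ d = c0`, times `f`. -/
noncomputable def mulMat {K : Type} [Field K] {d : ℕ} (f : K[X]) (c0 : K) (k : Fin d → K[X]) :
    Matrix (Fin d) (Fin d) K[X] :=
  fun a b => if h : b ≤ a then f * k (⟨(a : ℕ) - b, by omega⟩) else
    C c0 * k (⟨d + a - b, by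
      have h1 := a.2
      have h2 := b.2
      have h3 : (a : ℕ) < b := by
        have := not_le.mp h
        exact this
      omega⟩)

/-- W6 (Kummer theory): the matrix is nonsingular. -/
def ClaimW6 : Prop :=
  ∀ (K : Type) [Field K] (d : ℕ) (f : K[X]) (c0 : K) (k : Fin d → K[X]) (z : K),
    1 ≤ d → IsPrimitiveRoot z d → f ≠ 0 → c0 ≠ 0 →
    (∀ l : ℕ, l.Prime → l ∣ d → ∃ a : K, ¬ l ∣ f.rootMultiplicity a) → k ≠ 0 →
    (mulMat f c0 k).det ≠ 0

/-- W7 (linear independence): `R` is a power of the characteristic with `f ^ R = f (X ^ R)`. -/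
def ClaimW7 : Prop :=
  ∀ (K : Type) [Field K] (d J U E R : ℕ) (f : K[X]) (z : K) (u : Fin d → Fin J → K[X]),
    1 ≤ d → IsPrimitiveRoot z d → f.eval 0 ≠ 0 → f ^ R = f.comp (X ^ R) → R = d * E + 1 →
    U + f.natDegree ≤ E → (∀ i j, (u i j).degree < U) →
    (∀ l : ℕ, l.Prime → l ∣ d → ∃ a : K, ¬ l ∣ f.rootMultiplicity a) →
    (∑ i : Fin d, ∑ j : Fin J, u i j * f ^ ((i : ℕ) * E) * X ^ (R * (j : ℕ)) = 0) →
    ∀ i j, u i j = 0

/-- W8 (pigeonhole construction of the auxiliary polynomial). -/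
def ClaimW8 : Prop :=
  ∀ (K : Type) [Field K] [Fintype K] (p n d J U E R : ℕ) (f : K[X]) (b : K) [CharP K p],
    p.Prime → R = p ^ n → R = d * E + 1 →
    R * U + f.natDegree * R + J < d * J * U →
    ∃ u : Fin d → Fin J → K[X], (∀ i j, (u i j).degree < U) ∧ (∃ i j, u i j ≠ 0) ∧
      ∑ i : Fin d, ∑ j : Fin J, C (b ^ (i : ℕ)) * (u i j) ^ R * f ^ ((d - (i : ℕ)) * E) *
        X ^ (j : ℕ) = 0

/-- W9 (Stepanov's bound): `K` has `R ^ 2` elements. -/
def ClaimW9 : Prop :=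
  ∀ (K : Type) [Field K] [Fintype K] (p n d E R : ℕ) (f : K[X]) (z b : K) [CharP K p],
    p.Prime → R = p ^ n → Fintype.card K = R ^ 2 → 2 ≤ d → R = d * E + 1 →
    IsPrimitiveRoot z d → f.eval 0 ≠ 0 → f ^ R = f.comp (X ^ R) →
    (∀ l : ℕ, l.Prime → l ∣ d → ∃ a : K, ¬ l ∣ f.rootMultiplicity a) →
    (f.natDegree + 2) * (d * f.natDegree + 2) ≤ R →
    d * Nat.card {x : K // f.eval x ≠ 0 ∧ f.eval x ^ (E * (R + 1)) = b} ≤
      R ^ 2 + d * (2 * f.natDegree + 3) * R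

/-- W10: the bound for the character sums over the fields of even degree. -/
def ClaimW10 : Prop :=
  ∀ (q : ℕ) [Fact q.Prime] (m : ℕ) (a : Fin m → ZMod q) (χ : Fin m → MulChar (ZMod q) ℂ),
    1 ≤ m → Function.Injective a → (∀ j, a j ≠ 0) → (∀ j, χ j ≠ 1) →
    ∃ (C : ℝ) (n0 : ℕ), ∀ n, n0 ≤ n → ‖SS a χ (2 * n)‖ ≤ C * (q : ℝ) ^ n

/-- Weil's bound. -/
def ClaimWeil : Prop :=
  ∀ (q : ℕ) [Fact q.Prime] (m : ℕ) (a : Fin m → ZMod q) (χ : Fin m → MulChar (ZMod q) ℂ),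
    1 ≤ m → Function.Injective a → (∀ j, χ j ≠ 1) →
    ‖∑ x : ZMod q, ∏ j, χ j (x - a j)‖ ≤ (m : ℝ) * Real.sqrt q

end Pool.Agent.Work.MP_e0aece_nt.Sq

end

section

/-!
# A2: upper bound for the total weight of a state
-/

namespace Pool.Agent.Work.MP_e0aece_nt.Sq

open Finset

namespace ItemA2

variable {ι : Type} [Fintype ι] [DecidableEq ι]

theorem mem_fib {B I A : Finset ι} : A ∈ fib B I ↔ A ∩ B = I := by
  simp [fib]

theorem card_fib {B I : Finset ι} (h : I ⊆ B) :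
    (fib B I).card * 2 ^ B.card = 2 ^ Fintype.card ι := by
  have h1 : (fib B I).card = (Bᶜ.powerset).card := by
    symm
    apply Finset.card_bij (fun S _ => I ∪ S)
    · intro S hS
      rw [mem_fib]
      rw [mem_powerset] at hS
      ext i
      simp only [mem_inter, mem_union]
      constructor
      · rintro ⟨h1 | h1, h2⟩
        · exact h1
        · exact absurd h2 (mem_compl.1 (hS h1))
      · intro hi
        exact ⟨Or.inl hi, h hi⟩
    · intro S hS S' hS' hSS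
      rw [mem_powerset] at hS hS'
      have key : ∀ T T' : Finset ι, T ⊆ Bᶜ → I ∪ T = I ∪ T' → T ⊆ T' := by
        intro T T' hT hTT i hi
        have h2 : i ∈ I ∪ T' := by
          rw [← hTT]
          exact mem_union_right _ hi
        rcases mem_union.1 h2 with h3 | h3
        · exact absurd (h h3) (mem_compl.1 (hT hi))
        · exact h3
      exact Subset.antisymm (key S S' hS hSS) (key S' S hS' hSS.symm)
    · intro A hA
      rw [mem_fib] at hA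
      refine ⟨A \ B, ?_, ?_⟩
      · rw [mem_powerset]
        intro i hi
        exact mem_compl.2 (mem_sdiff.1 hi).2
      · change I ∪ A \ B = A
        rw [← hA]
        ext i
        simp only [mem_union, mem_inter, mem_sdiff]
        tauto
  rw [h1, card_powerset, card_compl, ← pow_add]
  congr 1
  have := card_le_univ B
  omega

end ItemA2

open ItemA2 in
theorem claimA2 : ClaimA2 := by
  intro ι _ _ H _ _ g lam m D B I F hPR hIB hBm hDm hExp
  obtain ⟨n, c, φ, hφ, hc, hF⟩ := hExp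
  set E : Fin n → ℂ := fun t => ∑ A ∈ fib B I, ev g (fun i => φ t i ^ lam) A with hE
  have hEb : ∀ t, ‖E t‖ * 2 ^ m * 2 ^ B.card ≤ 2 ^ Fintype.card ι := fun t =>
    hPR B I hIB hBm (φ t) (hφ t)
  have hcard : ((fib B I).card : ℝ) * 2 ^ B.card = 2 ^ Fintype.card ι := by
    exact_mod_cast card_fib hIB
  have hsum : ((∑ A ∈ fib B I, F A : ℝ) : ℂ) = ((fib B I).card : ℂ) + ∑ t, c t * E t := by
    push_cast
    simp only [hF, sum_add_distrib, sum_const, nsmul_eq_mul, mul_one]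
    congr 1
    rw [sum_comm]
    simp only [hE, mul_sum]
  have hre : (∑ A ∈ fib B I, F A) ≤ (fib B I).card + ∑ t, ‖c t‖ * ‖E t‖ := by
    have h1 : (∑ A ∈ fib B I, F A) ≤ ‖((∑ A ∈ fib B I, F A : ℝ) : ℂ)‖ := by
      rw [Complex.norm_real]
      exact le_abs_self _
    refine h1.trans ?_
    rw [hsum]
    refine (norm_add_le _ _).trans ?_
    gcongr
    · simp
    · refine (norm_sum_le _ _).trans ?_
      gcongr
      rw [norm_mul]
  have hpow : (2 : ℝ) ^ D ≤ 2 ^ m := pow_le_pow_right₀ (by norm_num) hDm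
  have h2m : (0 : ℝ) < 2 ^ m := by positivity
  have h2B : (0 : ℝ) < 2 ^ B.card := by positivity
  have h2n : (0 : ℝ) < 2 ^ Fintype.card ι := by positivity
  have hE2 : ∀ t, ‖E t‖ * 2 ^ B.card ≤ 2 ^ Fintype.card ι / 2 ^ m := by
    intro t
    rw [le_div_iff₀ h2m]
    calc ‖E t‖ * 2 ^ B.card * 2 ^ m = ‖E t‖ * 2 ^ m * 2 ^ B.card := by ring
      _ ≤ _ := hEb t
  calc (∑ A ∈ fib B I, F A) * 2 ^ B.card
      ≤ ((fib B I).card + ∑ t, ‖c t‖ * ‖E t‖) * 2 ^ B.card := by gcongr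
    _ = 2 ^ Fintype.card ι + ∑ t, ‖c t‖ * (‖E t‖ * 2 ^ B.card) := by
        rw [add_mul, hcard, sum_mul]
        congr 1
        exact sum_congr rfl fun t _ => by ring
    _ ≤ 2 ^ Fintype.card ι + ∑ t, ‖c t‖ * (2 ^ Fintype.card ι / 2 ^ m) := by
        gcongr with t _
        exact hE2 t
    _ = 2 ^ Fintype.card ι + (∑ t, ‖c t‖) * (2 ^ Fintype.card ι / 2 ^ m) := by rw [sum_mul]
    _ ≤ 2 ^ Fintype.card ι + 2 ^ m * (2 ^ Fintype.card ι / 2 ^ m) := by
        gcongr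
        linarith
    _ = 2 * 2 ^ Fintype.card ι := by
        rw [mul_div_cancel₀ _ h2m.ne']
        ring

end Pool.Agent.Work.MP_e0aece_nt.Sq

end

section

/-!
# A5: the step for a torsion character
-/

namespace Pool.Agent.Work.MP_e0aece_nt.Sq

open Finset

namespace ItemA5

section

variable {ι : Type} [Fintype ι] [DecidableEq ι] {H : ι → Type} [∀ i, AddCommGroup (H i)]
  [∀ i, Fintype (H i)]

theorem ev_mul (g : Finset ι → ∀ i, H i) (ψ χ : ∀ i, AddChar (H i) ℂ) (A : Finset ι) :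
    ev g (ψ * χ) A = ev g ψ A * ev g χ A := by
  simp only [ev, Pi.mul_apply, AddChar.mul_apply, prod_mul_distrib]

theorem ev_one (g : Finset ι → ∀ i, H i) (A : Finset ι) :
    ev g (1 : ∀ i, AddChar (H i) ℂ) A = 1 := by
  simp only [ev, Pi.one_apply, AddChar.one_apply, prod_const_one]

theorem ev_inv (g : Finset ι → ∀ i, H i) (ψ : ∀ i, AddChar (H i) ℂ) (A : Finset ι) :
    ev g ψ⁻¹ A = (starRingEnd ℂ) (ev g ψ A) := by
  simp only [ev, map_prod, Pi.inv_apply]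
  exact prod_congr rfl fun i _ => by rw [AddChar.inv_apply, AddChar.map_neg_eq_conj]

/-- `torsConst` is a subgroup. -/
def sub (g : Finset ι → ∀ i, H i) (lam : ℕ) (w : Finset ι → ℝ) :
    Subgroup (∀ i, AddChar (H i) ℂ) where
  carrier := torsConst g lam w
  mul_mem' := by
    rintro a b ⟨ha1, ha2⟩ ⟨hb1, hb2⟩
    refine ⟨fun i => ?_, fun A A' hA hA' => ?_⟩
    · rw [Pi.mul_apply, mul_pow, ha1, hb1, one_mul]
    · rw [ev_mul, ev_mul, ha2 A A' hA hA', hb2 A A' hA hA']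
  one_mem' := ⟨fun i => by rw [Pi.one_apply, one_pow], fun A A' _ _ => by rw [ev_one, ev_one]⟩
  inv_mem' := by
    rintro a ⟨ha1, ha2⟩
    refine ⟨fun i => ?_, fun A A' hA hA' => ?_⟩
    · rw [Pi.inv_apply, inv_pow, ha1, inv_one]
    · rw [ev_inv, ev_inv, ha2 A A' hA hA']

theorem mem_sub {g : Finset ι → ∀ i, H i} {lam : ℕ} {w : Finset ι → ℝ}
    {χ : ∀ i, AddChar (H i) ℂ} : χ ∈ sub g lam w ↔ χ ∈ torsConst g lam w := Iff.rfl

end

theorem two_mul_card {G : Type} [Group G] [Finite G] {S S' : Subgroup G} (h : S ≤ S') {x : G}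
    (hx : x ∈ S') (hx' : x ∉ S) : 2 * Nat.card S ≤ Nat.card S' := by
  obtain ⟨k, hk⟩ := Subgroup.card_dvd_of_le h
  have h1 : k ≠ 0 := by
    rintro rfl
    have : 0 < Nat.card S' := Nat.card_pos
    omega
  have h2 : k ≠ 1 := by
    rintro rfl
    rw [mul_one] at hk
    have := Subgroup.eq_of_le_of_card_ge h hk.le
    rw [this] at hx'
    exact hx' hx
  rw [hk, mul_comm]
  have : 2 ≤ k := by omega
  gcongr

end ItemA5

open ItemA5 in
theorem claimA5 : ClaimA5 := by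
  classical
  intro ι _ _ H _ _ g lam y J C B I w j χ ζ hy hyJ hSt hχ hχn hsum
  obtain ⟨hIB, ⟨F, D, hD, hExp, hF, hw⟩, hsupp, hineq, htors⟩ := hSt
  set w' : Finset ι → ℝ := fun A => if ev g χ A = ζ then w A else 0 with hw'
  have hww : ∀ A, w' A ≠ 0 → w A ≠ 0 ∧ ev g χ A = ζ := by
    intro A hA
    by_cases h : ev g χ A = ζ
    · refine ⟨fun h0 => hA ?_, h⟩
      simp [hw', h0]
    · simp [hw', h] at hA
  have hsum' : ∑ A, w' A = ∑ A ∈ univ.filter (fun A => ev g χ A = ζ), w A := by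
    rw [sum_filter]
  have hJ : (0 : ℝ) < J := by
    have : 0 < J := by omega
    exact_mod_cast this
  have hκ : 0 ≤ 1 - (y : ℝ) / (2 * J) := by
    rw [sub_nonneg, div_le_one (by positivity)]
    have : (50 : ℝ) * y ≤ J := by exact_mod_cast hyJ
    have hy0 : (0 : ℝ) ≤ y := by positivity
    linarith
  refine ⟨w', hIB, ⟨F, D, hD, hExp, hF, ?_⟩, ?_, ?_, ?_⟩
  · intro A
    by_cases h : ev g χ A = ζ
    · simp only [hw', h, if_true]
      exact hw A
    · simp only [hw', h, if_false]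
      exact ⟨le_rfl, (hw A).1.trans (hw A).2⟩
  · intro A hA
    exact hsupp A (hww A hA).1
  · calc (2 : ℝ) ^ Fintype.card ι * (6 / 5) ^ B.card * (1 - y / (2 * J)) ^ (j + 1)
        = (1 - (y : ℝ) / (2 * J)) *
          ((2 : ℝ) ^ Fintype.card ι * (6 / 5) ^ B.card * (1 - y / (2 * J)) ^ j) := by
          rw [pow_succ]; ring
      _ ≤ (1 - (y : ℝ) / (2 * J)) * ((∑ A, w A) * 2 ^ B.card * 2 ^ y) := by gcongr
      _ = ((1 - (y : ℝ) / (2 * J)) * ∑ A, w A) * 2 ^ B.card * 2 ^ y := by ring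
      _ ≤ (∑ A, w' A) * 2 ^ B.card * 2 ^ y := by
          rw [hsum']
          gcongr
  · have h1 : sub g lam w ≤ sub g lam w' := by
      rintro ξ ⟨h1, h2⟩
      exact ⟨h1, fun A A' hA hA' => h2 A A' (hww A hA).1 (hww A' hA').1⟩
    have h2 : χ ∈ sub g lam w' :=
      ⟨hχ, fun A A' hA hA' => by rw [(hww A hA).2, (hww A' hA').2]⟩
    have h3 := two_mul_card h1 h2 (fun h => hχn h)
    rw [pow_succ, mul_comm]
    exact le_trans (Nat.mul_le_mul_left 2 htors) h3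

end Pool.Agent.Work.MP_e0aece_nt.Sq

end

section

/-! Item C1: the large sieve by duality. -/

namespace Pool.Agent.Work.MP_e0aece_nt.Sq

open Finset

namespace ItemC1

variable {κ : Type}

/-- The Gram sums. -/
theorem gram_le (𝒳 : Finset κ) (χ : κ → ℕ → ℂ) (F : ℝ) (M N : ℕ) (h : QO 𝒳 χ F)
    (c : κ → ℂ) :
    ∑ n ∈ Ioc M (M + N), ‖∑ x ∈ 𝒳, (starRingEnd ℂ) (c x) * χ x n‖ ^ 2 ≤
      (N + 𝒳.card * F ^ 2) * ∑ x ∈ 𝒳, ‖c x‖ ^ 2 := by
  classical
  obtain ⟨hF, _, h1, h2⟩ := h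
  set S : κ → κ → ℂ := fun x x' => ∑ n ∈ Ioc M (M + N), χ x n * (starRingEnd ℂ) (χ x' n) with hS
  have e1 : ((∑ n ∈ Ioc M (M + N), ‖∑ x ∈ 𝒳, (starRingEnd ℂ) (c x) * χ x n‖ ^ 2 : ℝ) : ℂ) =
      ∑ x ∈ 𝒳, ∑ x' ∈ 𝒳, (starRingEnd ℂ) (c x) * c x' * S x x' := by
    push_cast
    have : ∀ n ∈ Ioc M (M + N),
        ((‖∑ x ∈ 𝒳, (starRingEnd ℂ) (c x) * χ x n‖ : ℂ)) ^ 2 =
        ∑ x ∈ 𝒳, ∑ x' ∈ 𝒳, (starRingEnd ℂ) (c x) * c x' *
          (χ x n * (starRingEnd ℂ) (χ x' n)) := by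
      intro n _
      rw [← Complex.mul_conj', map_sum, Finset.sum_mul_sum]
      refine Finset.sum_congr rfl fun x _ => Finset.sum_congr rfl fun x' _ => ?_
      rw [map_mul, Complex.conj_conj]
      ring
    rw [Finset.sum_congr rfl this, Finset.sum_comm]
    refine Finset.sum_congr rfl fun x _ => ?_
    rw [Finset.sum_comm]
    refine Finset.sum_congr rfl fun x' _ => ?_
    rw [hS, Finset.mul_sum]
  have e2 : ∑ n ∈ Ioc M (M + N), ‖∑ x ∈ 𝒳, (starRingEnd ℂ) (c x) * χ x n‖ ^ 2 ≤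
      ∑ x ∈ 𝒳, ∑ x' ∈ 𝒳, ‖c x‖ * ‖c x'‖ * ‖S x x'‖ := by
    have h0 : 0 ≤ ∑ n ∈ Ioc M (M + N), ‖∑ x ∈ 𝒳, (starRingEnd ℂ) (c x) * χ x n‖ ^ 2 :=
      Finset.sum_nonneg fun n _ => by positivity
    calc ∑ n ∈ Ioc M (M + N), ‖∑ x ∈ 𝒳, (starRingEnd ℂ) (c x) * χ x n‖ ^ 2
        = ‖((∑ n ∈ Ioc M (M + N), ‖∑ x ∈ 𝒳, (starRingEnd ℂ) (c x) * χ x n‖ ^ 2 : ℝ) : ℂ)‖ := by
          rw [Complex.norm_real, Real.norm_eq_abs, abs_of_nonneg h0]
      _ = ‖∑ x ∈ 𝒳, ∑ x' ∈ 𝒳, (starRingEnd ℂ) (c x) * c x' * S x x'‖ := by rw [e1]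
      _ ≤ ∑ x ∈ 𝒳, ‖∑ x' ∈ 𝒳, (starRingEnd ℂ) (c x) * c x' * S x x'‖ := norm_sum_le _ _
      _ ≤ ∑ x ∈ 𝒳, ∑ x' ∈ 𝒳, ‖c x‖ * ‖c x'‖ * ‖S x x'‖ := by
          refine Finset.sum_le_sum fun x _ => (norm_sum_le _ _).trans ?_
          refine Finset.sum_le_sum fun x' _ => ?_
          rw [norm_mul, norm_mul, RCLike.norm_conj]
  have e3 : ∀ x ∈ 𝒳, ∀ x' ∈ 𝒳, ‖S x x'‖ ≤ (if x = x' then (N : ℝ) else 0) + F ^ 2 := by
    intro x hx x' hx'
    by_cases hxx : x = x'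
    · subst hxx
      rw [if_pos rfl]
      have : ‖S x x‖ ≤ N := by
        calc ‖S x x‖ ≤ ∑ n ∈ Ioc M (M + N), ‖χ x n * (starRingEnd ℂ) (χ x n)‖ := norm_sum_le _ _
          _ ≤ ∑ n ∈ Ioc M (M + N), (1 : ℝ) := by
              refine Finset.sum_le_sum fun n _ => ?_
              rw [norm_mul, RCLike.norm_conj]
              have := (h1 x hx).2.2.1 n
              nlinarith [norm_nonneg (χ x n)]
          _ = N := by simp
      nlinarith [sq_nonneg F]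
    · rw [if_neg hxx, zero_add]
      exact h2 x hx x' hx' hxx M (M + N)
  have e4 : ∑ x ∈ 𝒳, ∑ x' ∈ 𝒳, ‖c x‖ * ‖c x'‖ * ‖S x x'‖ ≤
      ∑ x ∈ 𝒳, ∑ x' ∈ 𝒳, ‖c x‖ * ‖c x'‖ * ((if x = x' then (N : ℝ) else 0) + F ^ 2) := by
    refine Finset.sum_le_sum fun x hx => Finset.sum_le_sum fun x' hx' => ?_
    exact mul_le_mul_of_nonneg_left (e3 x hx x' hx') (by positivity)
  have e5 : ∑ x ∈ 𝒳, ∑ x' ∈ 𝒳, ‖c x‖ * ‖c x'‖ * ((if x = x' then (N : ℝ) else 0) + F ^ 2) =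
      N * ∑ x ∈ 𝒳, ‖c x‖ ^ 2 + F ^ 2 * (∑ x ∈ 𝒳, ‖c x‖) ^ 2 := by
    have : ∀ x ∈ 𝒳, ∑ x' ∈ 𝒳, ‖c x‖ * ‖c x'‖ * ((if x = x' then (N : ℝ) else 0) + F ^ 2) =
        N * ‖c x‖ ^ 2 + F ^ 2 * (‖c x‖ * ∑ x' ∈ 𝒳, ‖c x'‖) := by
      intro x hx
      have h3 : ∀ x' ∈ 𝒳, ‖c x‖ * ‖c x'‖ * ((if x = x' then (N : ℝ) else 0) + F ^ 2) =
          (if x = x' then N * (‖c x‖ * ‖c x'‖) else 0) + F ^ 2 * (‖c x‖ * ‖c x'‖) := by
        intro x' _
        split_ifs <;> ring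
      rw [Finset.sum_congr rfl h3, Finset.sum_add_distrib, Finset.sum_ite_eq, if_pos hx,
        ← Finset.mul_sum, ← Finset.mul_sum]
      ring
    rw [Finset.sum_congr rfl this, Finset.sum_add_distrib, ← Finset.mul_sum, ← Finset.mul_sum,
      ← Finset.sum_mul]
    ring
  have e6 : (∑ x ∈ 𝒳, ‖c x‖) ^ 2 ≤ 𝒳.card * ∑ x ∈ 𝒳, ‖c x‖ ^ 2 := sq_sum_le_card_mul_sum_sq
  calc _ ≤ _ := e2
    _ ≤ _ := e4
    _ = _ := e5
    _ ≤ N * ∑ x ∈ 𝒳, ‖c x‖ ^ 2 + F ^ 2 * (𝒳.card * ∑ x ∈ 𝒳, ‖c x‖ ^ 2) := by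
        have := mul_le_mul_of_nonneg_left e6 (sq_nonneg F)
        linarith
    _ = _ := by ring

end ItemC1

theorem claimC1 : ClaimC1 := by
  intro κ 𝒳 χ F a M N h
  set c : κ → ℂ := fun x => ∑ n ∈ Ioc M (M + N), a n * χ x n with hc
  set g : ℕ → ℂ := fun n => ∑ x ∈ 𝒳, (starRingEnd ℂ) (c x) * χ x n with hg
  have h0 : 0 ≤ ∑ x ∈ 𝒳, ‖c x‖ ^ 2 := Finset.sum_nonneg fun x _ => by positivity
  have hA : 0 ≤ ∑ n ∈ Ioc M (M + N), ‖a n‖ ^ 2 := Finset.sum_nonneg fun x _ => by positivity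
  have e1 : ((∑ x ∈ 𝒳, ‖c x‖ ^ 2 : ℝ) : ℂ) = ∑ n ∈ Ioc M (M + N), a n * g n := by
    push_cast
    have : ∀ x ∈ 𝒳, ((‖c x‖ : ℂ)) ^ 2 =
        ∑ n ∈ Ioc M (M + N), a n * ((starRingEnd ℂ) (c x) * χ x n) := by
      intro x _
      rw [← Complex.conj_mul']
      conv_lhs => rw [hc]
      simp only
      rw [Finset.mul_sum]
      refine Finset.sum_congr rfl fun n _ => ?_
      ring
    rw [Finset.sum_congr rfl this, Finset.sum_comm]
    refine Finset.sum_congr rfl fun n _ => ?_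
    rw [hg, Finset.mul_sum]
  have e2 : ∑ x ∈ 𝒳, ‖c x‖ ^ 2 ≤ ∑ n ∈ Ioc M (M + N), ‖a n‖ * ‖g n‖ := by
    calc ∑ x ∈ 𝒳, ‖c x‖ ^ 2 = ‖((∑ x ∈ 𝒳, ‖c x‖ ^ 2 : ℝ) : ℂ)‖ := by
          rw [Complex.norm_real, Real.norm_eq_abs, abs_of_nonneg h0]
      _ = ‖∑ n ∈ Ioc M (M + N), a n * g n‖ := by rw [e1]
      _ ≤ ∑ n ∈ Ioc M (M + N), ‖a n * g n‖ := norm_sum_le _ _
      _ = _ := Finset.sum_congr rfl fun n _ => norm_mul _ _
  have e3 : (∑ n ∈ Ioc M (M + N), ‖a n‖ * ‖g n‖) ^ 2 ≤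
      (∑ n ∈ Ioc M (M + N), ‖a n‖ ^ 2) * ∑ n ∈ Ioc M (M + N), ‖g n‖ ^ 2 :=
    Finset.sum_mul_sq_le_sq_mul_sq _ _ _
  have e4 : ∑ n ∈ Ioc M (M + N), ‖g n‖ ^ 2 ≤ (N + 𝒳.card * F ^ 2) * ∑ x ∈ 𝒳, ‖c x‖ ^ 2 :=
    ItemC1.gram_le 𝒳 χ F M N h c
  show ∑ x ∈ 𝒳, ‖c x‖ ^ 2 ≤ (N + 𝒳.card * F ^ 2) * ∑ n ∈ Ioc M (M + N), ‖a n‖ ^ 2
  rcases h0.eq_or_lt with hT | hT
  · rw [← hT]
    positivity
  · have e5 : (∑ x ∈ 𝒳, ‖c x‖ ^ 2) ^ 2 ≤
        (∑ n ∈ Ioc M (M + N), ‖a n‖ ^ 2) *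
          ((N + 𝒳.card * F ^ 2) * ∑ x ∈ 𝒳, ‖c x‖ ^ 2) := by
      calc (∑ x ∈ 𝒳, ‖c x‖ ^ 2) ^ 2 ≤ (∑ n ∈ Ioc M (M + N), ‖a n‖ * ‖g n‖) ^ 2 :=
            pow_le_pow_left₀ h0 e2 2
        _ ≤ _ := e3
        _ ≤ _ := mul_le_mul_of_nonneg_left e4 hA
    have e6 : (∑ x ∈ 𝒳, ‖c x‖ ^ 2) * (∑ x ∈ 𝒳, ‖c x‖ ^ 2) ≤
        ((N + 𝒳.card * F ^ 2) * ∑ n ∈ Ioc M (M + N), ‖a n‖ ^ 2) * ∑ x ∈ 𝒳, ‖c x‖ ^ 2 := by
      calc _ = (∑ x ∈ 𝒳, ‖c x‖ ^ 2) ^ 2 := by ring
        _ ≤ _ := e5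
        _ = _ := by ring
    exact le_of_mul_le_mul_right e6 hT

end Pool.Agent.Work.MP_e0aece_nt.Sq

end

section

/-! C10: the number of families with support of size at most `h`. -/

namespace Pool.Agent.Work.MP_e0aece_nt.Sq

open Finset

namespace ItemC10

variable {κ : Type} [Fintype κ] {q : κ → ℕ}

/-- Encoding of a family by the list of its nontrivial components. -/
noncomputable def enc (h : ℕ) (ξ : ∀ i, MulChar (ZMod (q i)) ℂ) :
    Fin h → Option (Σ i, MulChar (ZMod (q i)) ℂ) :=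
  fun t => ((csupp q ξ).toList[(t : ℕ)]?).map fun i => ⟨i, ξ i⟩

theorem enc_aux (h : ℕ) (ξ ξ' : ∀ i, MulChar (ZMod (q i)) ℂ) (hξ : (csupp q ξ).card ≤ h)
    (he : enc h ξ = enc h ξ') (i : κ) (hi : i ∈ csupp q ξ) : ξ i = ξ' i := by
  rw [← Finset.mem_toList, List.mem_iff_getElem?] at hi
  obtain ⟨n, hn⟩ := hi
  have hlt : n < h := by
    obtain ⟨hlt, -⟩ := List.getElem?_eq_some_iff.1 hn
    rw [Finset.length_toList] at hlt
    omega
  have h1 := congrFun he ⟨n, hlt⟩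
  simp only [enc, hn, Option.map_some] at h1
  obtain ⟨i', -, h2⟩ := Option.map_eq_some_iff.1 h1.symm
  obtain ⟨rfl, h3⟩ := Sigma.mk.inj_iff.1 h2
  exact (eq_of_heq h3).symm

theorem enc_inj (h : ℕ) (ξ ξ' : ∀ i, MulChar (ZMod (q i)) ℂ) (hξ : (csupp q ξ).card ≤ h)
    (hξ' : (csupp q ξ').card ≤ h) (he : enc h ξ = enc h ξ') : ξ = ξ' := by
  funext i
  by_cases h1 : i ∈ csupp q ξ
  · exact enc_aux h ξ ξ' hξ he i h1
  by_cases h2 : i ∈ csupp q ξ'
  · exact (enc_aux h ξ' ξ hξ' he.symm i h2).symm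
  simp only [csupp, Finset.mem_filter, Finset.mem_univ, true_and, ne_eq, not_not] at h1 h2
  rw [h1, h2]

end ItemC10

open ItemC10 in
theorem claimC10 : ClaimC10 := by
  classical
  intro κ _ _ q z h hq hqz hh hz hκ
  have : ∀ i, Fact (q i).Prime := fun i => ⟨hq i⟩
  have : ∀ i, Finite (MulChar (ZMod (q i)) ℂ) := fun i => inferInstance
  have hinj : Function.Injective (fun ξ : {ξ : ∀ i, MulChar (ZMod (q i)) ℂ //
      (csupp q ξ).card ≤ h} => enc h ξ.1) := by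
    intro ξ ξ' he
    exact Subtype.ext (enc_inj h ξ.1 ξ'.1 ξ.2 ξ'.2 he)
  have : ∀ i, Fintype (MulChar (ZMod (q i)) ℂ) := fun i => Fintype.ofFinite _
  have h1 := Nat.card_le_card_of_injective _ hinj
  have hcard : Nat.card (Option (Σ i, MulChar (ZMod (q i)) ℂ)) ≤ z ^ 2 := by
    rw [Nat.card_eq_fintype_card, Fintype.card_option, Fintype.card_sigma]
    have h2 : ∀ i, Fintype.card (MulChar (ZMod (q i)) ℂ) ≤ z - 1 := by
      intro i
      have : NeZero (q i) := ⟨(hq i).ne_zero⟩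
      have h3 := DirichletCharacter.card_eq_totient_of_hasEnoughRootsOfUnity ℂ (q i)
      rw [Nat.card_eq_fintype_card, Nat.totient_prime (hq i)] at h3
      have h4 : Fintype.card (MulChar (ZMod (q i)) ℂ) = q i - 1 := by
        rw [← h3]
      have := hqz i
      omega
    have h3 : ∑ i, Fintype.card (MulChar (ZMod (q i)) ℂ) ≤ z * (z - 1) := by
      refine (Finset.sum_le_sum fun i _ => h2 i).trans ?_
      rw [Finset.sum_const, Finset.card_univ, smul_eq_mul]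
      exact Nat.mul_le_mul_right _ hκ
    obtain ⟨y, rfl⟩ : ∃ y, z = y + 1 := ⟨z - 1, by omega⟩
    simp only [Nat.add_sub_cancel] at h3
    nlinarith
  rw [Nat.card_fun, Nat.card_eq_fintype_card (α := Fin h), Fintype.card_fin] at h1
  have h2 := h1.trans (Nat.pow_le_pow_left hcard h)
  have h3 : (Nat.card {ξ : ∀ i, MulChar (ZMod (q i)) ℂ // (csupp q ξ).card ≤ h} : ℝ) ≤
      ((z : ℝ) ^ 2) ^ h := by exact_mod_cast h2
  have h4 : (0 : ℝ) ≤ ((z : ℝ) ^ 2) ^ h := by positivity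
  linarith

end Pool.Agent.Work.MP_e0aece_nt.Sq

end

section

/-! Item C11: the number of exceptional families. -/

namespace Pool.Agent.Work.MP_e0aece_nt.Sq

open Finset

namespace ItemC11

/-- The number of ways to write `n` as an ordered product of `m` of the primes `q i`. -/
theorem count_le {κ : Type} [Fintype κ] [DecidableEq κ] (q : κ → ℕ)
    (hinj : Function.Injective q) (hp : ∀ i, (q i).Prime) (m n : ℕ) :
    (Finset.univ.filter (fun t : Fin m → κ => ∏ i, q (t i) = n)).card ≤ m.factorial := by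
  classical
  have hperm : ∀ t : Fin m → κ, ∏ i, q (t i) = n →
      (List.ofFn (fun i => q (t i))).Perm n.primeFactorsList := by
    intro t ht
    refine Nat.primeFactorsList_unique ?_ ?_
    · rw [List.prod_ofFn]
      exact ht
    · intro p hpm
      rw [List.mem_ofFn] at hpm
      obtain ⟨i, rfl⟩ := hpm
      exact hp (t i)
  rcases (Finset.univ.filter (fun t : Fin m → κ => ∏ i, q (t i) = n)).eq_empty_or_nonempty with
    he | ⟨t0, ht0⟩
  · rw [he, Finset.card_empty]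
    exact Nat.zero_le _
  · have ht0' := (Finset.mem_filter.1 ht0).2
    have hlen : n.primeFactorsList.length = m := by
      rw [← (hperm t0 ht0').length_eq, List.length_ofFn]
    calc (Finset.univ.filter (fun t : Fin m → κ => ∏ i, q (t i) = n)).card
        ≤ (n.primeFactorsList.permutations.toFinset).card := by
          refine Finset.card_le_card_of_injOn (fun t => List.ofFn (fun i => q (t i))) ?_ ?_
          · intro t ht
            have ht' := (Finset.mem_filter.1 (Finset.mem_coe.1 ht)).2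
            rw [Finset.mem_coe, List.mem_toFinset, List.mem_permutations]
            exact hperm t ht'
          · intro t _ t' _ htt
            have h := List.ofFn_injective htt
            funext i
            exact hinj (congrFun h i)
      _ ≤ n.primeFactorsList.permutations.length := List.toFinset_card_le _
      _ = m.factorial := by rw [List.length_permutations, hlen]

/-- Completely multiplicative functions and products. -/
theorem mul_prod (χ : ℕ → ℂ) (h1 : χ 1 = 1) (hm : ∀ m n, χ (m * n) = χ m * χ n) {ι : Type}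
    (s : Finset ι) (f : ι → ℕ) : ∏ i ∈ s, χ (f i) = χ (∏ i ∈ s, f i) := by
  classical
  induction s using Finset.induction_on with
  | empty => simp [h1]
  | insert a s ha ih => rw [Finset.prod_insert ha, Finset.prod_insert ha, hm, ih]

end ItemC11

open ItemC11 in
theorem claimC11 (hC1 : ClaimC1) (hC9 : ClaimC9) : ClaimC11 := by
  classical
  intro κ _ _ q z h hinj hp hz hh hκ
  have : ∀ i, NeZero (q i) := fun i => ⟨(hp i).ne_zero⟩
  have hκ0 : 0 < Fintype.card κ := hκ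
  obtain ⟨i0⟩ := Fintype.card_pos_iff.1 hκ0
  have hz1 : 1 ≤ z := (hp i0).one_lt.le.trans (hz i0)
  have hfin : Finite (∀ i, MulChar (ZMod (q i)) ℂ) := inferInstance
  let _ : Fintype (∀ i, MulChar (ZMod (q i)) ℂ) := Fintype.ofFinite _
  set N : ℝ := (Fintype.card κ : ℝ) with hN
  have hN0 : 0 < N := by
    rw [hN]
    exact_mod_cast hκ0
  set 𝒳 : Finset (∀ i, MulChar (ZMod (q i)) ℂ) :=
    Finset.univ.filter fun ξ => (csupp q ξ).card = h ∧ N / 10 < ‖∑ j, cval q ξ (q j)‖ with h𝒳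
  have hcard : Nat.card {ξ : ∀ i, MulChar (ZMod (q i)) ℂ // (csupp q ξ).card = h ∧
      N / 10 < ‖∑ j, cval q ξ (q j)‖} = 𝒳.card := by
    rw [Nat.card_eq_fintype_card, Fintype.card_subtype]
  rw [hcard]
  have hQO := hC9 κ q z h 𝒳 hinj hp hz hh hz1 (fun ξ hξ => (Finset.mem_filter.1 hξ).2.1)
  set m : ℕ := 4 * h with hm
  set a : ℕ → ℂ := fun n =>
    ((Finset.univ.filter (fun t : Fin m → κ => ∏ i, q (t i) = n)).card : ℂ) with ha
  have hmem : ∀ t : Fin m → κ, t ∈ (Finset.univ : Finset (Fin m → κ)) →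
      ∏ i, q (t i) ∈ Ioc 0 (0 + z ^ m) := by
    intro t _
    rw [Finset.mem_Ioc, zero_add]
    refine ⟨Finset.prod_pos fun i _ => (hp (t i)).pos, ?_⟩
    calc ∏ i, q (t i) ≤ ∏ _i : Fin m, z := Finset.prod_le_prod' fun i _ => hz (t i)
      _ = z ^ m := by rw [Finset.prod_const, Finset.card_univ, Fintype.card_fin]
  -- the power of the sum
  have hpow : ∀ ξ ∈ 𝒳, (∑ j, cval q ξ (q j)) ^ m = ∑ n ∈ Ioc 0 (0 + z ^ m), a n * cval q ξ n := by
    intro ξ hξ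
    obtain ⟨g1, g2, -, -⟩ := hQO.2.2.1 ξ hξ
    rw [Fintype.sum_pow, ← Finset.sum_fiberwise_of_maps_to hmem]
    refine Finset.sum_congr rfl fun n _ => ?_
    rw [ha]
    simp only
    rw [← nsmul_eq_mul, ← Finset.sum_const]
    refine Finset.sum_congr rfl fun t ht => ?_
    rw [mul_prod (cval q ξ) g1 g2, (Finset.mem_filter.1 ht).2]
  -- the coefficients
  have hsumsq : ∑ n ∈ Ioc 0 (0 + z ^ m), ‖a n‖ ^ 2 ≤ (m.factorial : ℝ) * N ^ m := by
    have hcardt : ((Fintype.card κ) ^ m : ℕ) = ∑ n ∈ Ioc 0 (0 + z ^ m),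
        (Finset.univ.filter (fun t : Fin m → κ => ∏ i, q (t i) = n)).card := by
      rw [← Finset.card_eq_sum_card_fiberwise (fun t ht => by
        exact Finset.mem_coe.2 (hmem t (Finset.mem_coe.1 ht)))]
      rw [Finset.card_univ, Fintype.card_fun, Fintype.card_fin]
    have hcardt' : N ^ m = ∑ n ∈ Ioc 0 (0 + z ^ m),
        ((Finset.univ.filter (fun t : Fin m → κ => ∏ i, q (t i) = n)).card : ℝ) := by
      rw [hN]
      exact_mod_cast hcardt
    rw [hcardt', Finset.mul_sum]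
    refine Finset.sum_le_sum fun n _ => ?_
    rw [ha]
    simp only
    rw [Complex.norm_natCast, sq]
    refine mul_le_mul_of_nonneg_right ?_ (Nat.cast_nonneg _)
    exact_mod_cast count_le q hinj hp m n
  -- the large sieve
  have hsieve := hC1 (∀ i, MulChar (ZMod (q i)) ℂ) 𝒳 (fun ξ => cval q ξ) ((z : ℝ) ^ h) a 0 (z ^ m)
    hQO
  have hleft : (𝒳.card : ℝ) * (N / 10) ^ (2 * m) ≤
      ∑ ξ ∈ 𝒳, ‖∑ n ∈ Ioc 0 (0 + z ^ m), a n * cval q ξ n‖ ^ 2 := by
    rw [← nsmul_eq_mul, ← Finset.sum_const]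
    refine Finset.sum_le_sum fun ξ hξ => ?_
    rw [← hpow ξ hξ, norm_pow, ← pow_mul, mul_comm m 2]
    exact pow_le_pow_left₀ (by positivity) (Finset.mem_filter.1 hξ).2.2.le _
  have hright : (((z ^ m : ℕ) : ℝ) + 𝒳.card * ((z : ℝ) ^ h) ^ 2) ≤ 2 * (z : ℝ) ^ m := by
    have h1 : (𝒳.card : ℝ) * ((z : ℝ) ^ h) ^ 2 ≤ (z : ℝ) ^ m := by
      calc (𝒳.card : ℝ) * ((z : ℝ) ^ h) ^ 2 ≤ ((z : ℝ) ^ h) ^ 2 * ((z : ℝ) ^ h) ^ 2 :=
            mul_le_mul_of_nonneg_right hQO.2.1 (by positivity)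
        _ = (z : ℝ) ^ m := by
            rw [← pow_mul, ← pow_add, hm]
            congr 1
            ring
    push_cast
    linarith
  have hmain : (𝒳.card : ℝ) * (N / 10) ^ (2 * m) ≤
      2 * (z : ℝ) ^ m * ((m.factorial : ℝ) * N ^ m) := by
    refine hleft.trans (hsieve.trans ?_)
    exact mul_le_mul hright hsumsq (Finset.sum_nonneg fun n _ => by positivity) (by positivity)
  have hpos : 0 < (N / 10) ^ (2 * m) := by positivity
  rw [← le_div_iff₀ hpos] at hmain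
  refine hmain.trans (le_of_eq ?_)
  have e8 : 8 * h = 2 * m := by rw [hm]; ring
  rw [e8, div_pow, div_pow, two_mul m, pow_add N, pow_add (10 : ℝ)]
  field_simp

end Pool.Agent.Work.MP_e0aece_nt.Sq

end

section

/-! C13: exponential moment bound for transversals. -/

namespace Pool.Agent.Work.MP_e0aece_nt.Sq

open Finset

theorem claimC13 : ClaimC13 := by
  classical
  intro M N f hM hN hf hsum
  have hN' : (0 : ℝ) < N := by exact_mod_cast hN
  set t : ℝ := 1 / 5 with ht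
  -- the exponential moment
  have hmom : ∑ σ : Fin M → Fin N, Real.exp (t * ∑ i, f i (σ i)) =
      ∏ i, ∑ j, Real.exp (t * f i j) := by
    rw [Finset.prod_univ_sum, Fintype.piFinset_univ]
    refine Finset.sum_congr rfl fun σ _ => ?_
    rw [Finset.mul_sum, Real.exp_sum]
  have hrow : ∀ i, ∑ j, Real.exp (t * f i j) ≤
      N * Real.exp (t * (∑ j, f i j) / N + t ^ 2) := by
    intro i
    have h1 : ∀ j, Real.exp (t * f i j) ≤ 1 + t * f i j + t ^ 2 := by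
      intro j
      have habs : |t * f i j| ≤ 1 := by
        rw [abs_mul, abs_of_pos (by rw [ht]; norm_num : (0 : ℝ) < t)]
        have := hf i j
        have : t * |f i j| ≤ t * 1 := mul_le_mul_of_nonneg_left this (by rw [ht]; norm_num)
        rw [ht] at this ⊢; linarith
      have h2 := (abs_le.1 (Real.abs_exp_sub_one_sub_id_le habs)).2
      have h3 : (t * f i j) ^ 2 ≤ t ^ 2 := by
        rw [mul_pow]
        have : (f i j) ^ 2 ≤ 1 := by
          rw [← sq_abs]; exact pow_le_one₀ (abs_nonneg _) (hf i j)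
        nlinarith [sq_nonneg t]
      linarith
    calc ∑ j, Real.exp (t * f i j) ≤ ∑ j, (1 + t * f i j + t ^ 2) :=
          Finset.sum_le_sum fun j _ => h1 j
      _ = N * ((t * (∑ j, f i j) / N + t ^ 2) + 1) := by
          rw [Finset.sum_add_distrib, Finset.sum_add_distrib, ← Finset.mul_sum]
          simp only [Finset.sum_const, Finset.card_univ, Fintype.card_fin, nsmul_eq_mul]
          field_simp
          ring
      _ ≤ N * Real.exp (t * (∑ j, f i j) / N + t ^ 2) :=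
          mul_le_mul_of_nonneg_left (Real.add_one_le_exp _) hN'.le
  have hprod : ∏ i, ∑ j, Real.exp (t * f i j) ≤ (N : ℝ) ^ M * Real.exp ((M : ℝ) * (3 / 50)) := by
    calc ∏ i, ∑ j, Real.exp (t * f i j)
        ≤ ∏ i, (N * Real.exp (t * (∑ j, f i j) / N + t ^ 2)) :=
          Finset.prod_le_prod (fun i _ => Finset.sum_nonneg fun j _ => (Real.exp_pos _).le)
            fun i _ => hrow i
      _ = (N : ℝ) ^ M * Real.exp (∑ i, (t * (∑ j, f i j) / N + t ^ 2)) := by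
          rw [Finset.prod_mul_distrib, Finset.prod_const, Finset.card_univ, Fintype.card_fin,
            Real.exp_sum]
      _ ≤ (N : ℝ) ^ M * Real.exp ((M : ℝ) * (3 / 50)) := by
          refine mul_le_mul_of_nonneg_left (Real.exp_le_exp.2 ?_) (by positivity)
          rw [Finset.sum_add_distrib, Finset.sum_const, Finset.card_univ, Fintype.card_fin,
            nsmul_eq_mul, ← Finset.sum_div, ← Finset.mul_sum]
          have h1 : t * (∑ i, ∑ j, f i j) / N ≤ M * (1 / 50) := by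
            rw [div_le_iff₀ hN', ht]
            linarith
          have h2 : (M : ℝ) * t ^ 2 = M * (1 / 25) := by rw [ht]; ring
          rw [h2]
          linarith
  have hmark : ((Finset.univ.filter fun σ : Fin M → Fin N =>
      (M : ℝ) / 2 < ∑ i, f i (σ i)).card : ℝ) * Real.exp ((M : ℝ) / 10) ≤
      ∑ σ : Fin M → Fin N, Real.exp (t * ∑ i, f i (σ i)) := by
    rw [← nsmul_eq_mul, ← Finset.sum_const]
    refine (Finset.sum_le_sum fun σ hσ => ?_).trans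
      (Finset.sum_le_sum_of_subset_of_nonneg (Finset.filter_subset _ _)
        fun σ _ _ => (Real.exp_pos _).le)
    have := (Finset.mem_filter.1 hσ).2
    refine Real.exp_le_exp.2 ?_
    rw [ht]; linarith
  rw [hmom] at hmark
  have hfin := hmark.trans hprod
  have hsplit : Real.exp ((M : ℝ) * (3 / 50)) = Real.exp (-((M : ℝ) / 25)) *
      Real.exp ((M : ℝ) / 10) := by
    rw [← Real.exp_add]; congr 1; ring
  rw [hsplit, ← mul_assoc] at hfin
  exact le_of_mul_le_mul_right hfin (Real.exp_pos _)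

end Pool.Agent.Work.MP_e0aece_nt.Sq

end

section

/-! C14: the number of transversals containing a given set. -/

namespace Pool.Agent.Work.MP_e0aece_nt.Sq

open Finset

theorem claimC14 : ClaimC14 := by
  classical
  intro M N S hN
  by_cases hinj : ∀ x ∈ S, ∀ y ∈ S, x.1 = y.1 → x = y
  · set A : Finset (Fin M → Fin N) :=
      Finset.univ.filter fun σ : Fin M → Fin N => ∀ x ∈ S, σ x.1 = x.2 with hA
    have hcard : (A ×ˢ (Finset.univ : Finset (S → Fin N))).card ≤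
        (Finset.univ : Finset (Fin M → Fin N)).card := by
      refine Finset.card_le_card_of_injOn
        (fun w i => if h : ∃ x : S, x.1.1 = i then w.2 h.choose else w.1 i)
        (fun _ _ => by simp) ?_
      rintro ⟨σ, τ⟩ hσ ⟨σ', τ'⟩ hσ' heq
      simp only [Finset.coe_product, Set.mem_prod, Finset.mem_coe, hA, Finset.mem_filter,
        Finset.mem_univ, true_and, Finset.coe_univ, Set.mem_univ, and_true] at hσ hσ'
      have hτ : τ = τ' := by
        funext x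
        have h1 := congrFun heq x.1.1
        have hx : ∃ y : S, y.1.1 = x.1.1 := ⟨x, rfl⟩
        simp only [dif_pos hx] at h1
        have h2 : hx.choose = x :=
          Subtype.ext (hinj _ hx.choose.2 _ x.2 hx.choose_spec)
        rw [h2] at h1
        exact h1
      have hσσ : σ = σ' := by
        funext i
        by_cases hi : ∃ x : S, x.1.1 = i
        · obtain ⟨x, rfl⟩ := hi
          rw [hσ x.1 x.2, hσ' x.1 x.2]
        · have h1 := congrFun heq i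
          simp only [dif_neg hi] at h1
          exact h1
      rw [hτ, hσσ]
    rw [Finset.card_product, Finset.card_univ, Finset.card_univ, Fintype.card_fun,
      Fintype.card_fun, Fintype.card_fin, Fintype.card_fin, Fintype.card_coe] at hcard
    exact_mod_cast hcard
  · push Not at hinj
    obtain ⟨x, hx, y, hy, hxy, hne⟩ := hinj
    have hemp : (Finset.univ.filter fun σ : Fin M → Fin N => ∀ x ∈ S, σ x.1 = x.2) = ∅ := by
      rw [Finset.filter_eq_empty_iff]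
      intro σ _ h
      apply hne
      refine Prod.ext hxy ?_
      rw [← h x hx, ← h y hy, hxy]
    rw [hemp]
    simp only [Finset.card_empty, Nat.cast_zero, zero_mul]
    positivity

end Pool.Agent.Work.MP_e0aece_nt.Sq

end

section

/-!
# C15: a good transversal of the pool (first moment method)
-/

namespace Pool.Agent.Work.MP_e0aece_nt.Sq

open Finset

namespace ItemC15

open Classical in
theorem exists_good {S X : Type} [Fintype S] (P Q : S → X → Prop) (E1 E2 E3 : Finset X)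
    (f : X → ℝ) (Y : ℝ) (hY : 0 < Y) (hf : ∀ x, 0 ≤ f x) (hS : 0 < Fintype.card S)
    (h1 : 10 * ∑ x ∈ E1, ((univ.filter fun s => P s x).card : ℝ) ≤ Fintype.card S)
    (h2 : 10 * ∑ x ∈ E2, ((univ.filter fun s => Q s x).card : ℝ) ≤ Fintype.card S)
    (h3 : 10 * ∑ x ∈ E3, f x * ((univ.filter fun s => P s x).card : ℝ) ≤ Fintype.card S * Y) :
    ∃ s, (∀ x ∈ E1, ¬ P s x) ∧ (∀ x ∈ E2, ¬ Q s x) ∧ ∑ x ∈ E3.filter (P s), f x ≤ Y := by
  by_contra hcon
  push Not at hcon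
  have key : ∀ s, (1 : ℝ) ≤ ∑ x ∈ E1, (if P s x then (1 : ℝ) else 0)
      + ∑ x ∈ E2, (if Q s x then (1 : ℝ) else 0)
      + (∑ x ∈ E3, (if P s x then f x else 0)) / Y := by
    intro s
    have n1 : 0 ≤ ∑ x ∈ E1, (if P s x then (1 : ℝ) else 0) :=
      Finset.sum_nonneg fun x _ => by split_ifs <;> norm_num
    have n2 : 0 ≤ ∑ x ∈ E2, (if Q s x then (1 : ℝ) else 0) :=
      Finset.sum_nonneg fun x _ => by split_ifs <;> norm_num
    have n3 : 0 ≤ (∑ x ∈ E3, (if P s x then f x else 0)) / Y := by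
      refine div_nonneg (Finset.sum_nonneg fun x _ => ?_) hY.le
      split_ifs
      · exact hf x
      · exact le_rfl
    by_cases hE1 : ∀ x ∈ E1, ¬ P s x
    · by_cases hE2 : ∀ x ∈ E2, ¬ Q s x
      · have h4 := hcon s hE1 hE2
        rw [Finset.sum_filter] at h4
        have : 1 ≤ (∑ x ∈ E3, (if P s x then f x else 0)) / Y := by
          rw [le_div_iff₀ hY, one_mul]
          exact h4.le
        linarith
      · push Not at hE2
        obtain ⟨x, hx, hQ⟩ := hE2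
        have : 1 ≤ ∑ x ∈ E2, (if Q s x then (1 : ℝ) else 0) := by
          have := Finset.single_le_sum (f := fun x => if Q s x then (1 : ℝ) else 0)
            (fun y _ => by split_ifs <;> norm_num) hx
          simpa [hQ] using this
        linarith
    · push Not at hE1
      obtain ⟨x, hx, hP⟩ := hE1
      have : 1 ≤ ∑ x ∈ E1, (if P s x then (1 : ℝ) else 0) := by
        have := Finset.single_le_sum (f := fun x => if P s x then (1 : ℝ) else 0)
          (fun y _ => by split_ifs <;> norm_num) hx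
        simpa [hP] using this
      linarith
  have tot := Finset.sum_le_sum fun (s : S) (_ : s ∈ (univ : Finset S)) => key s
  simp only [Finset.sum_const, Finset.card_univ, nsmul_eq_mul, mul_one,
    Finset.sum_add_distrib] at tot
  rw [← Finset.sum_div] at tot
  have e1 : ∑ s : S, ∑ x ∈ E1, (if P s x then (1 : ℝ) else 0)
      = ∑ x ∈ E1, ((univ.filter fun s => P s x).card : ℝ) := by
    rw [Finset.sum_comm]
    refine Finset.sum_congr rfl fun x _ => ?_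
    rw [Finset.sum_boole]
  have e2 : ∑ s : S, ∑ x ∈ E2, (if Q s x then (1 : ℝ) else 0)
      = ∑ x ∈ E2, ((univ.filter fun s => Q s x).card : ℝ) := by
    rw [Finset.sum_comm]
    refine Finset.sum_congr rfl fun x _ => ?_
    rw [Finset.sum_boole]
  have e3 : ∑ s : S, ∑ x ∈ E3, (if P s x then f x else 0)
      = ∑ x ∈ E3, f x * ((univ.filter fun s => P s x).card : ℝ) := by
    rw [Finset.sum_comm]
    refine Finset.sum_congr rfl fun x _ => ?_
    rw [← Finset.sum_filter, Finset.sum_const, nsmul_eq_mul, mul_comm]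
  rw [e1, e2, e3] at tot
  have h3' : (∑ x ∈ E3, f x * ((univ.filter fun s => P s x).card : ℝ)) / Y
      ≤ Fintype.card S / 10 := by
    rw [div_le_iff₀ hY]
    linarith
  have hpos : (0 : ℝ) < Fintype.card S := by exact_mod_cast hS
  linarith

open Classical in
theorem sum_supp {X : Type} (E : Finset X) (c : X → ℕ) (a W : X → ℝ) (H : ℕ) (N T : ℝ)
    (hN : 0 < N) (hc : ∀ x ∈ E, c x ∈ Icc 1 H) (ha : ∀ x, 0 ≤ a x)
    (hW : ∀ x ∈ E, W x * N ^ c x ≤ T) (A : ℕ → ℝ) (hT : 0 ≤ T)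
    (hA : ∀ h ∈ Icc 1 H, ∑ x ∈ E.filter (fun x => c x = h), a x ≤ A h) :
    ∑ x ∈ E, a x * W x ≤ ∑ h ∈ Icc 1 H, A h * (T / N ^ h) := by
  rw [← Finset.sum_fiberwise_of_maps_to hc]
  refine Finset.sum_le_sum fun h hh => ?_
  calc ∑ x ∈ E.filter (fun x => c x = h), a x * W x
      ≤ ∑ x ∈ E.filter (fun x => c x = h), a x * (T / N ^ h) := by
        refine Finset.sum_le_sum fun x hx => ?_
        rw [Finset.mem_filter] at hx
        refine mul_le_mul_of_nonneg_left ?_ (ha x)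
        rw [le_div_iff₀ (pow_pos hN h)]
        have := hW x hx.1
        rwa [hx.2] at this
    _ = (∑ x ∈ E.filter (fun x => c x = h), a x) * (T / N ^ h) := by
        rw [Finset.sum_mul]
    _ ≤ A h * (T / N ^ h) := by
        refine mul_le_mul_of_nonneg_right (hA h hh) (by positivity)

theorem norm_cval_le {κ : Type} [Fintype κ] (q : κ → ℕ) (ξ : ∀ i, MulChar (ZMod (q i)) ℂ)
    (n : ℕ) : ‖cval q ξ n‖ ≤ 1 := by
  unfold cval
  rw [norm_prod]
  refine Finset.prod_le_one (fun i _ => norm_nonneg _) fun i _ => ?_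
  split_ifs
  · simp
  · exact DirichletCharacter.norm_le_one (ξ i) _

/-! ### numerics -/

theorem num1 (M N h : ℕ) (hM : 100 ≤ M) (hN : M ^ 18 ≤ N) (h1 : 1 ≤ h) (hh : h ≤ M) :
    2 * ((4 * h).factorial : ℝ) * 10 ^ (8 * h) *
      (((4 * M ^ 20 : ℕ) : ℝ) / ((M * N : ℕ) : ℝ)) ^ (4 * h) * (1 / (N : ℝ) ^ h)
      ≤ 1 / (10 * M) := by
  have hM0 : (0 : ℝ) < M := by
    have : 0 < M := by omega
    exact_mod_cast this
  have hM1 : (100 : ℝ) ≤ M := by exact_mod_cast hM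
  have hNr : (M : ℝ) ^ 18 ≤ N := by exact_mod_cast hN
  have hN0 : (0 : ℝ) < N := lt_of_lt_of_le (by positivity) hNr
  have f1 : ((4 * h).factorial : ℝ) ≤ (4 * (M : ℝ)) ^ (4 * h) := by
    have a1 : (4 * h).factorial ≤ (4 * h) ^ (4 * h) := Nat.factorial_le_pow _
    have a2 : (4 * h) ^ (4 * h) ≤ (4 * M) ^ (4 * h) := Nat.pow_le_pow_left (by omega) _
    exact_mod_cast a1.trans a2
  have f2 : ((4 * M ^ 20 : ℕ) : ℝ) / ((M * N : ℕ) : ℝ) ≤ 4 * M := by
    push_cast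
    rw [div_le_iff₀ (by positivity)]
    have : (M : ℝ) * M ^ 18 ≤ M * N := by gcongr
    nlinarith [pow_pos hM0 19]
  have f2' : (0 : ℝ) ≤ ((4 * M ^ 20 : ℕ) : ℝ) / ((M * N : ℕ) : ℝ) := by positivity
  have f3 : 2 * ((4 * h).factorial : ℝ) * 10 ^ (8 * h) *
      (((4 * M ^ 20 : ℕ) : ℝ) / ((M * N : ℕ) : ℝ)) ^ (4 * h) * (1 / (N : ℝ) ^ h)
      ≤ 2 * (4 * (M : ℝ)) ^ (4 * h) * 10 ^ (8 * h) * (4 * (M : ℝ)) ^ (4 * h) *
        (1 / (N : ℝ) ^ h) := by
    gcongr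
  refine f3.trans ?_
  have f4 : 2 * (4 * (M : ℝ)) ^ (4 * h) * 10 ^ (8 * h) * (4 * (M : ℝ)) ^ (4 * h) *
        (1 / (N : ℝ) ^ h) = 2 * ((4 * (M : ℝ)) ^ 8 * 10 ^ 8 / N) ^ h := by
    have gen : ∀ b c : ℝ, 2 * b ^ (4 * h) * 10 ^ (8 * h) * b ^ (4 * h) *
        (1 / c ^ h) = 2 * (b ^ 8 * 10 ^ 8 / c) ^ h := by
      intro b c
      rw [div_pow, mul_pow, ← pow_mul, ← pow_mul]
      have : b ^ (8 * h) = b ^ (4 * h) * b ^ (4 * h) := by
        rw [← pow_add]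
        congr 1
        omega
      rw [this]
      ring
    exact gen _ _
  rw [f4]
  have f5 : (4 * (M : ℝ)) ^ 8 * 10 ^ 8 / N ≤ 1 / (20 * M) := by
    rw [div_le_div_iff₀ hN0 (by positivity)]
    have g1 : (10 : ℝ) ^ 18 ≤ (M : ℝ) ^ 9 := by
      calc (10 : ℝ) ^ 18 = (100 : ℝ) ^ 9 := by norm_num
        _ ≤ (M : ℝ) ^ 9 := by gcongr
    have g2 : (4 * (M : ℝ)) ^ 8 * 10 ^ 8 * (20 * M) = (4 ^ 8 * 10 ^ 8 * 20) * M ^ 9 := by ring
    rw [g2, one_mul]
    refine le_trans ?_ hNr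
    have g3 : (M : ℝ) ^ 18 = M ^ 9 * M ^ 9 := by ring
    rw [g3]
    refine mul_le_mul_of_nonneg_right ?_ (by positivity)
    refine le_trans ?_ g1
    norm_num
  have f6 : (0 : ℝ) ≤ (4 * (M : ℝ)) ^ 8 * 10 ^ 8 / N := by positivity
  have f7 : (4 * (M : ℝ)) ^ 8 * 10 ^ 8 / N ≤ 1 := by
    refine f5.trans ?_
    rw [div_le_one (by positivity)]
    linarith
  have f8 : ((4 * (M : ℝ)) ^ 8 * 10 ^ 8 / N) ^ h ≤ (4 * (M : ℝ)) ^ 8 * 10 ^ 8 / N :=
    pow_le_of_le_one f6 f7 (by omega)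
  calc 2 * ((4 * (M : ℝ)) ^ 8 * 10 ^ 8 / N) ^ h ≤ 2 * (1 / (20 * M)) := by
        have := f8.trans f5
        linarith
    _ = 1 / (10 * M) := by
        field_simp
        norm_num

theorem log_facts (M : ℕ) (hM : 36000000 ≤ M) :
    0 < Real.log M ∧ 1 ≤ h0 M ∧ h0 M ≤ M ∧ (h0 M : ℝ) * Real.log M ≤ M / 3000 := by
  have hM1 : (36000000 : ℝ) ≤ M := by exact_mod_cast hM
  have hM0 : (0 : ℝ) < M := by linarith
  have hlog : 0 < Real.log M := Real.log_pos (by linarith)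
  have hs : Real.sqrt M * Real.sqrt M = M := Real.mul_self_sqrt hM0.le
  have hs0 : 6000 ≤ Real.sqrt M := by
    rw [show (6000 : ℝ) = Real.sqrt 36000000 by
      rw [show (36000000 : ℝ) = 6000 ^ 2 by norm_num, Real.sqrt_sq (by norm_num)]]
    exact Real.sqrt_le_sqrt hM1
  have hlog2 : 3000 * Real.log M ≤ M := by
    have h1 : Real.log M = 2 * Real.log (Real.sqrt M) := by
      conv_lhs => rw [← hs]
      rw [Real.log_mul (by positivity) (by positivity)]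
      ring
    have h2 : Real.log (Real.sqrt M) ≤ Real.sqrt M - 1 :=
      Real.log_le_sub_one_of_pos (by positivity)
    nlinarith
  have h1log : 1 ≤ Real.log M := by
    have : Real.exp 1 ≤ M := by
      have := Real.exp_one_lt_d9
      linarith
    rw [Real.le_log_iff_exp_le hM0]
    exact this
  refine ⟨hlog, ?_, ?_, ?_⟩
  · unfold h0
    rw [Nat.one_le_floor_iff, le_div_iff₀ (by positivity)]
    linarith
  · unfold h0
    refine Nat.floor_le_of_le ?_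
    rw [div_le_iff₀ (by positivity)]
    nlinarith
  · have h3 : (h0 M : ℝ) ≤ (M : ℝ) / (3000 * Real.log M) := Nat.floor_le (by positivity)
    calc (h0 M : ℝ) * Real.log M ≤ (M : ℝ) / (3000 * Real.log M) * Real.log M := by gcongr
      _ = M / 3000 := by
        field_simp

theorem num2 (M : ℕ) (hM : 36000000 ≤ M) :
    10 * (2 * (((4 * M ^ 20 : ℕ) : ℝ) ^ 2) ^ h0 M * Real.exp (-((M : ℝ) / 25))) ≤ 1 := by
  obtain ⟨hlog, h1, _, h3⟩ := log_facts M hM
  have hM1 : (36000000 : ℝ) ≤ M := by exact_mod_cast hM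
  have hM0 : (0 : ℝ) < M := by linarith
  have e1 : ((4 * M ^ 20 : ℕ) : ℝ) ^ 2 ≤ (M : ℝ) ^ 44 := by
    push_cast
    have : (4 * (M : ℝ) ^ 20) ^ 2 = 16 * M ^ 40 := by ring
    rw [this]
    have : (M : ℝ) ^ 44 = M ^ 4 * M ^ 40 := by ring
    rw [this]
    refine mul_le_mul_of_nonneg_right ?_ (by positivity)
    calc (16 : ℝ) ≤ 2 ^ 4 := by norm_num
      _ ≤ M ^ 4 := by gcongr; linarith
  have e2 : (((4 * M ^ 20 : ℕ) : ℝ) ^ 2) ^ h0 M ≤ Real.exp (44 * M / 3000) := by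
    calc (((4 * M ^ 20 : ℕ) : ℝ) ^ 2) ^ h0 M ≤ ((M : ℝ) ^ 44) ^ h0 M := by gcongr
      _ = Real.exp (44 * ((h0 M : ℝ) * Real.log M)) := by
        rw [← pow_mul, show (44 : ℝ) * ((h0 M : ℝ) * Real.log M)
          = ((44 * h0 M : ℕ) : ℝ) * Real.log M by push_cast; ring, Real.exp_nat_mul,
          Real.exp_log hM0]
      _ ≤ Real.exp (44 * M / 3000) := by
        apply Real.exp_le_exp.2
        linarith
  calc 10 * (2 * (((4 * M ^ 20 : ℕ) : ℝ) ^ 2) ^ h0 M * Real.exp (-((M : ℝ) / 25)))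
      ≤ 10 * (2 * Real.exp (44 * M / 3000) * Real.exp (-((M : ℝ) / 25))) := by gcongr
    _ = 20 * Real.exp (-(76 * M / 3000)) := by
        rw [mul_assoc 2, ← Real.exp_add]
        ring_nf
    _ ≤ 1 := by
        rw [Real.exp_neg, ← div_eq_mul_inv, div_le_one (Real.exp_pos _)]
        have := Real.add_one_le_exp (76 * (M : ℝ) / 3000)
        linarith

theorem num3 (M N h : ℕ) (C : ℝ) (hM : 1 ≤ M) (hC : 0 < C) (hMC : 1000 * C * 3000 ^ 6 ≤ M)
    (hN : M ^ 18 ≤ N) (h1 : 1 ≤ h) :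
    (M : ℝ) * (C * (XM M : ℝ) * (Real.log (XM M)) ^ 6 * (1 / (N : ℝ) ^ h)) ≤
      (XM M : ℝ) / 1000 := by
  have hM1 : (1 : ℝ) ≤ M := by exact_mod_cast hM
  have hM0 : (0 : ℝ) < M := by linarith
  have hNr : (M : ℝ) ^ 18 ≤ N := by exact_mod_cast hN
  have hN0 : (0 : ℝ) < N := lt_of_lt_of_le (by positivity) hNr
  have hN1 : (1 : ℝ) ≤ N := le_trans (one_le_pow₀ hM1) hNr
  have hX : (0 : ℝ) ≤ (XM M : ℝ) := Nat.cast_nonneg _
  have hlogM : 0 ≤ Real.log M := Real.log_nonneg hM1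
  have hlogM2 : Real.log M ≤ M := (Real.log_le_sub_one_of_pos hM0).trans (by linarith)
  have hlogX : Real.log (XM M) = 3000 * M * Real.log M := by
    unfold XM
    push_cast
    rw [Real.log_pow]
    push_cast
    ring
  have hlogX0 : 0 ≤ Real.log (XM M) := by rw [hlogX]; positivity
  have hlogX2 : Real.log (XM M) ≤ 3000 * M ^ 2 := by
    rw [hlogX]
    nlinarith
  have e1 : (Real.log (XM M)) ^ 6 ≤ 3000 ^ 6 * (M : ℝ) ^ 12 := by
    calc (Real.log (XM M)) ^ 6 ≤ (3000 * (M : ℝ) ^ 2) ^ 6 := by gcongr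
      _ = 3000 ^ 6 * (M : ℝ) ^ 12 := by ring
  have e2 : 1 / (N : ℝ) ^ h ≤ 1 / (M : ℝ) ^ 18 := by
    apply one_div_le_one_div_of_le (by positivity)
    exact hNr.trans (le_self_pow₀ hN1 (by omega))
  calc (M : ℝ) * (C * (XM M : ℝ) * (Real.log (XM M)) ^ 6 * (1 / (N : ℝ) ^ h))
      ≤ (M : ℝ) * (C * (XM M : ℝ) * (3000 ^ 6 * M ^ 12) * (1 / (M : ℝ) ^ 18)) := by
        gcongr
    _ = (XM M : ℝ) * (C * 3000 ^ 6 / M ^ 5) := by
        field_simp
    _ ≤ (XM M : ℝ) * (1 / 1000) := by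
        refine mul_le_mul_of_nonneg_left ?_ hX
        rw [div_le_div_iff₀ (by positivity) (by norm_num)]
        have : (M : ℝ) ≤ M ^ 5 := le_self_pow₀ hM1 (by norm_num)
        linarith
    _ = (XM M : ℝ) / 1000 := by ring

theorem num4 (M h : ℕ) (hM : 2 ≤ M) (hh : h ≤ M) :
    ((((4 * M ^ 20 : ℕ) : ℝ)) ^ h) ^ 60 ≤ (XM M : ℝ) := by
  have h1 : ((4 * M ^ 20) ^ h) ^ 60 ≤ XM M := by
    unfold XM
    have a1 : 4 * M ^ 20 ≤ M ^ 22 := by
      have : M ^ 22 = M ^ 2 * M ^ 20 := by ring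
      rw [this]
      refine Nat.mul_le_mul_right _ ?_
      nlinarith
    calc ((4 * M ^ 20) ^ h) ^ 60 ≤ ((M ^ 22) ^ h) ^ 60 := by gcongr
      _ = M ^ (1320 * h) := by
        rw [← pow_mul, ← pow_mul]
        congr 1
        ring
      _ ≤ M ^ (3000 * M) := by
        apply Nat.pow_le_pow_right (by omega)
        nlinarith
  exact_mod_cast h1


/-! ### the three counting statements -/

section Count

variable {M N : ℕ} (q : Fin M × Fin N → ℕ)

/-- families of characters -/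
abbrev Fam (q : Fin M × Fin N → ℕ) : Type := ∀ x, MulChar (ZMod (q x)) ℂ

/-- `ξ` lies on the transversal `σ` -/
def Pon (σ : Fin M → Fin N) (ξ : Fam q) : Prop := ∀ x ∈ csupp q ξ, σ x.1 = x.2

/-- `ξ` violates the gap on `σ` -/
def Qv (σ : Fin M → Fin N) (ξ : Fam q) : Prop :=
  (M : ℝ) / 2 < ∑ i, (cval q ξ (q (i, σ i))).re

/-- exceptional families -/
def Exc (ξ : Fam q) : Prop := ((M * N : ℕ) : ℝ) / 10 < ‖∑ j, cval q ξ (q j)‖

open Classical in
/-- the number of transversals through `ξ` -/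
noncomputable def Wt (ξ : Fam q) : ℝ := ((univ.filter fun σ => Pon q σ ξ).card : ℝ)

open Classical in
/-- the number of transversals on which `ξ` violates the gap -/
noncomputable def Wq (ξ : Fam q) : ℝ := ((univ.filter fun σ => Qv q σ ξ).card : ℝ)

theorem hW (hC14 : ClaimC14) (hN : 1 ≤ N) (ξ : Fam q) :
    Wt q ξ * (N : ℝ) ^ (csupp q ξ).card ≤ (N : ℝ) ^ M := by
  classical
  have := hC14 M N (csupp q ξ) hN
  unfold Wt Pon
  convert this

open Classical in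
theorem key1 [Fintype (Fam q)] (hC11 : ClaimC11) (hC14 : ClaimC14) (hM : 36000000 ≤ M)
    (hN1 : M ^ 18 ≤ N) (hq : Function.Injective q) (hprime : ∀ x, (q x).Prime)
    (hle : ∀ x, q x ≤ 4 * M ^ 20) (E1 : Finset (Fam q))
    (hE : ∀ ξ ∈ E1, (csupp q ξ).card ∈ Icc 1 (h0 M) ∧ Exc q ξ) :
    10 * ∑ ξ ∈ E1, Wt q ξ ≤ (N : ℝ) ^ M := by
  obtain ⟨hlog, hh1, hh2, hh3⟩ := log_facts M hM
  have hNpos : 1 ≤ N := le_trans (Nat.one_le_pow _ _ (by omega)) hN1
  have hMr : (0 : ℝ) < M := by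
    have : 0 < M := by omega
    exact_mod_cast this
  have hNr : (0 : ℝ) < N := by exact_mod_cast hNpos
  have hT0 : (0 : ℝ) < (N : ℝ) ^ M := by positivity
  have hcard : Fintype.card (Fin M × Fin N) = M * N := by simp
  have h1 := sum_supp E1 (fun ξ => (csupp q ξ).card) (fun _ => 1)
    (fun ξ => Wt q ξ) (h0 M) N ((N : ℝ) ^ M) hNr
    (fun ξ hξ => (hE ξ hξ).1) (fun _ => zero_le_one) (fun ξ _ => hW q hC14 hNpos ξ)
    (fun h => 2 * ((4 * h).factorial : ℝ) * 10 ^ (8 * h) *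
      (((4 * M ^ 20 : ℕ) : ℝ) / ((M * N : ℕ) : ℝ)) ^ (4 * h)) hT0.le ?_
  · simp only [one_mul] at h1
    have h2 : ∑ h ∈ Icc 1 (h0 M), 2 * ((4 * h).factorial : ℝ) * 10 ^ (8 * h) *
      (((4 * M ^ 20 : ℕ) : ℝ) / ((M * N : ℕ) : ℝ)) ^ (4 * h) * ((N : ℝ) ^ M / (N : ℝ) ^ h)
      ≤ ∑ h ∈ Icc 1 (h0 M), (N : ℝ) ^ M * (1 / (10 * M)) := by
      refine Finset.sum_le_sum fun h hh => ?_
      rw [Finset.mem_Icc] at hh
      have h3 := num1 M N h (by omega) hN1 hh.1 (hh.2.trans hh2)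
      calc 2 * ((4 * h).factorial : ℝ) * 10 ^ (8 * h) *
          (((4 * M ^ 20 : ℕ) : ℝ) / ((M * N : ℕ) : ℝ)) ^ (4 * h) * ((N : ℝ) ^ M / (N : ℝ) ^ h)
          = (N : ℝ) ^ M * (2 * ((4 * h).factorial : ℝ) * 10 ^ (8 * h) *
          (((4 * M ^ 20 : ℕ) : ℝ) / ((M * N : ℕ) : ℝ)) ^ (4 * h) * (1 / (N : ℝ) ^ h)) := by ring
        _ ≤ (N : ℝ) ^ M * (1 / (10 * M)) := mul_le_mul_of_nonneg_left h3 hT0.le
    rw [Finset.sum_const, Nat.card_Icc, nsmul_eq_mul] at h2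
    have h5 : ((h0 M + 1 - 1 : ℕ) : ℝ) ≤ M := by
      exact_mod_cast (by omega : h0 M + 1 - 1 ≤ M)
    have h4 : ((h0 M + 1 - 1 : ℕ) : ℝ) * ((N : ℝ) ^ M * (1 / (10 * M))) ≤ (N : ℝ) ^ M / 10 := by
      calc ((h0 M + 1 - 1 : ℕ) : ℝ) * ((N : ℝ) ^ M * (1 / (10 * M)))
          ≤ M * ((N : ℝ) ^ M * (1 / (10 * M))) := by gcongr
        _ = (N : ℝ) ^ M / 10 := by field_simp
    linarith
  · intro h hh
    rw [Finset.mem_Icc] at hh
    rw [Finset.sum_const, nsmul_eq_mul, mul_one]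
    have h6 := hC11 (Fin M × Fin N) q (4 * M ^ 20) h hq hprime hle hh.1 (by
      rw [hcard]; exact Nat.one_le_iff_ne_zero.2 (Nat.mul_ne_zero (by omega) (by omega)))
    rw [hcard] at h6
    refine le_trans ?_ h6
    have h7 := Nat.subtype_card (p := fun ξ : Fam q => (csupp q ξ).card = h ∧
        ((M * N : ℕ) : ℝ) / 10 < ‖∑ j, cval q ξ (q j)‖)
      (univ.filter fun ξ : Fam q => (csupp q ξ).card = h ∧
        ((M * N : ℕ) : ℝ) / 10 < ‖∑ j, cval q ξ (q j)‖) (by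
        intro ξ
        rw [Finset.mem_filter]
        exact ⟨fun h => h.2, fun h => ⟨Finset.mem_univ _, h⟩⟩)
    rw [h7]
    have h8 : (E1.filter fun ξ => (csupp q ξ).card = h).card ≤
      (univ.filter fun ξ : Fam q => (csupp q ξ).card = h ∧
        ((M * N : ℕ) : ℝ) / 10 < ‖∑ j, cval q ξ (q j)‖).card := by
      refine Finset.card_le_card ?_
      intro ξ hξ
      rw [Finset.mem_filter] at hξ ⊢
      exact ⟨Finset.mem_univ _, hξ.2, (hE ξ hξ.1).2⟩
    exact Nat.cast_le.2 h8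

open Classical in
theorem key2 [Fintype (Fam q)] (hC10 : ClaimC10) (hC13 : ClaimC13) (hM : 36000000 ≤ M)
    (hNpos : 1 ≤ N) (hprime : ∀ x, (q x).Prime)
    (hle : ∀ x, q x ≤ 4 * M ^ 20) (hcardz : M * N ≤ 4 * M ^ 20) (E2 : Finset (Fam q))
    (hE : ∀ ξ ∈ E2, (csupp q ξ).card ≤ h0 M ∧ ¬ Exc q ξ) :
    10 * ∑ ξ ∈ E2, Wq q ξ ≤ (N : ℝ) ^ M := by
  obtain ⟨hlog, hh1, hh2, hh3⟩ := log_facts M hM
  have hMr : (0 : ℝ) < M := by
    have : 0 < M := by omega
    exact_mod_cast this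
  have hNr : (0 : ℝ) < N := by exact_mod_cast hNpos
  have hT0 : (0 : ℝ) < (N : ℝ) ^ M := by positivity
  have hcard : Fintype.card (Fin M × Fin N) = M * N := by simp
  have hz1 : 1 ≤ 4 * M ^ 20 := by
    have : 0 < M ^ 20 := Nat.pow_pos (by omega)
    omega
  have h1 : ∀ ξ ∈ E2, Wq q ξ ≤ (N : ℝ) ^ M * Real.exp (-((M : ℝ) / 25)) := by
    intro ξ hξ
    have h2 := hC13 M N (fun i j => (cval q ξ (q (i, j))).re) (by omega) hNpos
      (fun i j => (Complex.abs_re_le_norm _).trans (norm_cval_le q ξ _)) ?_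
    · unfold Wq Qv
      convert h2 using 3
    · have h3 := (hE ξ hξ).2
      unfold Exc at h3
      rw [not_lt] at h3
      push_cast at h3
      have h4 : ∑ i : Fin M, ∑ j : Fin N, (cval q ξ (q (i, j))).re
          = (∑ x : Fin M × Fin N, cval q ξ (q x)).re := by
        rw [Complex.re_sum, Fintype.sum_prod_type]
      rw [h4]
      exact (Complex.re_le_norm _).trans h3
  have h2 : (E2.card : ℝ) ≤ 2 * (((4 * M ^ 20 : ℕ) : ℝ) ^ 2) ^ h0 M := by
    have h6 := hC10 (Fin M × Fin N) q (4 * M ^ 20) (h0 M) hprime hle hh1 hz1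
      (by rw [hcard]; exact hcardz)
    refine le_trans ?_ h6
    have h7 := Nat.subtype_card (p := fun ξ : Fam q => (csupp q ξ).card ≤ h0 M)
      (univ.filter fun ξ : Fam q => (csupp q ξ).card ≤ h0 M) (by
        intro ξ
        rw [Finset.mem_filter]
        exact ⟨fun h => h.2, fun h => ⟨Finset.mem_univ _, h⟩⟩)
    rw [h7]
    have h8 : E2.card ≤ (univ.filter fun ξ : Fam q => (csupp q ξ).card ≤ h0 M).card := by
      refine Finset.card_le_card ?_
      intro ξ hξ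
      rw [Finset.mem_filter]
      exact ⟨Finset.mem_univ _, (hE ξ hξ).1⟩
    exact Nat.cast_le.2 h8
  have h3 := num2 M hM
  calc 10 * ∑ ξ ∈ E2, Wq q ξ
      ≤ 10 * ∑ ξ ∈ E2, (N : ℝ) ^ M * Real.exp (-((M : ℝ) / 25)) := by
        have := Finset.sum_le_sum h1
        linarith
    _ = 10 * (E2.card * ((N : ℝ) ^ M * Real.exp (-((M : ℝ) / 25)))) := by
        rw [Finset.sum_const, nsmul_eq_mul]
    _ ≤ 10 * ((2 * (((4 * M ^ 20 : ℕ) : ℝ) ^ 2) ^ h0 M) *
          ((N : ℝ) ^ M * Real.exp (-((M : ℝ) / 25)))) := by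
        gcongr
    _ = (N : ℝ) ^ M * (10 * (2 * (((4 * M ^ 20 : ℕ) : ℝ) ^ 2) ^ h0 M *
          Real.exp (-((M : ℝ) / 25)))) := by
        ring
    _ ≤ (N : ℝ) ^ M * 1 := mul_le_mul_of_nonneg_left h3 hT0.le
    _ = (N : ℝ) ^ M := mul_one _

open Classical in
theorem key3 (C : ℝ) (X0 : ℕ) (hC : 0 < C)
    (hC7 : ∀ (κ : Type) (𝒳 : Finset κ) (χ : κ → ℕ → ℂ) (F : ℝ) (X : ℕ),
    QO 𝒳 χ F → X0 ≤ X → F ^ 60 ≤ X →
    ∑ x ∈ 𝒳, ‖psiX (χ x) X‖ ≤ C * X * (Real.log X) ^ 6)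
    (hC9 : ClaimC9) (hC14 : ClaimC14) (hM : 36000000 ≤ M) (hMX : X0 ≤ M)
    (hMC : 1000 * C * 3000 ^ 6 ≤ M)
    (hN1 : M ^ 18 ≤ N) (hq : Function.Injective q) (hprime : ∀ x, (q x).Prime)
    (hle : ∀ x, q x ≤ 4 * M ^ 20) (E3 : Finset (Fam q))
    (hE : ∀ ξ ∈ E3, (csupp q ξ).card ∈ Icc 1 M) :
    10 * ∑ ξ ∈ E3, ‖psiX (cval q ξ) (XM M)‖ * Wt q ξ ≤ (N : ℝ) ^ M * ((XM M : ℝ) / 100) := by
  have hNpos : 1 ≤ N := le_trans (Nat.one_le_pow _ _ (by omega)) hN1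
  have hMr : (0 : ℝ) < M := by
    have : 0 < M := by omega
    exact_mod_cast this
  have hNr : (0 : ℝ) < N := by exact_mod_cast hNpos
  have hT0 : (0 : ℝ) < (N : ℝ) ^ M := by positivity
  have hz1 : 1 ≤ 4 * M ^ 20 := by
    have : 0 < M ^ 20 := Nat.pow_pos (by omega)
    omega
  have h1 := sum_supp E3 (fun ξ => (csupp q ξ).card) (fun ξ => ‖psiX (cval q ξ) (XM M)‖)
    (fun ξ => Wt q ξ) M N ((N : ℝ) ^ M) hNr
    (fun ξ hξ => hE ξ hξ) (fun _ => norm_nonneg _) (fun ξ _ => hW q hC14 hNpos ξ)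
    (fun _ => C * (XM M : ℝ) * (Real.log (XM M)) ^ 6) hT0.le ?_
  · have h2 : ∑ h ∈ Icc 1 M, C * (XM M : ℝ) * (Real.log (XM M)) ^ 6 *
        ((N : ℝ) ^ M / (N : ℝ) ^ h)
        ≤ ∑ h ∈ Icc 1 M, (N : ℝ) ^ M * ((XM M : ℝ) / 1000 / M) := by
      refine Finset.sum_le_sum fun h hh => ?_
      rw [Finset.mem_Icc] at hh
      have h3 := num3 M N h C (by omega) hC hMC hN1 hh.1
      have h4 : C * (XM M : ℝ) * (Real.log (XM M)) ^ 6 * (1 / (N : ℝ) ^ h)
          ≤ (XM M : ℝ) / 1000 / M := by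
        rw [le_div_iff₀ hMr]
        linarith
      calc C * (XM M : ℝ) * (Real.log (XM M)) ^ 6 * ((N : ℝ) ^ M / (N : ℝ) ^ h)
          = (N : ℝ) ^ M * (C * (XM M : ℝ) * (Real.log (XM M)) ^ 6 * (1 / (N : ℝ) ^ h)) := by
            ring
        _ ≤ (N : ℝ) ^ M * ((XM M : ℝ) / 1000 / M) := mul_le_mul_of_nonneg_left h4 hT0.le
    rw [Finset.sum_const, Nat.card_Icc, nsmul_eq_mul] at h2
    have h5 : ((M + 1 - 1 : ℕ) : ℝ) * ((N : ℝ) ^ M * ((XM M : ℝ) / 1000 / M))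
        = (N : ℝ) ^ M * ((XM M : ℝ) / 1000) := by
      rw [Nat.add_sub_cancel]
      field_simp
    rw [h5] at h2
    linarith
  · intro h hh
    rw [Finset.mem_Icc] at hh
    refine hC7 _ (E3.filter fun ξ => (csupp q ξ).card = h) (fun ξ => cval q ξ)
      (((4 * M ^ 20 : ℕ) : ℝ) ^ h) (XM M) ?_ ?_ ?_
    · exact hC9 (Fin M × Fin N) q (4 * M ^ 20) h _ hq hprime hle hh.1 hz1
        (fun ξ hξ => (Finset.mem_filter.1 hξ).2)
    · refine hMX.trans ?_
      unfold XM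
      exact Nat.le_self_pow (by omega) M
    · exact num4 M h (by omega) hh.2

end Count

end ItemC15

open ItemC15 in
theorem claimC15 (hC7 : ClaimC7) (hC9 : ClaimC9) (hC10 : ClaimC10) (hC11 : ClaimC11)
    (hC13 : ClaimC13) (hC14 : ClaimC14) : ClaimC15 := by
  classical
  obtain ⟨C, hC, X0, hC7⟩ := hC7
  refine ⟨max (max 36000000 X0) (⌈1000 * C * 3000 ^ 6⌉₊), ?_⟩
  intro M hM0 N q hN1 hN2 hq hqp
  have hM : 36000000 ≤ M := (le_max_left _ _).trans ((le_max_left _ _).trans hM0)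
  have hMX : X0 ≤ M := (le_max_right _ _).trans ((le_max_left _ _).trans hM0)
  have hMC : 1000 * C * 3000 ^ 6 ≤ M :=
    (Nat.le_ceil _).trans (Nat.cast_le.2 ((le_max_right _ _).trans hM0))
  have hNpos : 1 ≤ N := le_trans (Nat.one_le_pow _ _ (by omega)) hN1
  have hprime : ∀ x, (q x).Prime := fun x => (hqp x).1
  have hle : ∀ x, q x ≤ 4 * M ^ 20 := fun x => (hqp x).2.2
  have hcardz : M * N ≤ 4 * M ^ 20 := by
    have h1 : (univ : Finset (Fin M × Fin N)).card ≤ (Ioc (M ^ 20) (4 * M ^ 20)).card := by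
      refine Finset.card_le_card_of_injOn q ?_ (hq.injOn)
      intro x _
      simp only [Finset.coe_Ioc, Set.mem_Ioc]
      exact (hqp x).2
    rw [Nat.card_Ioc, Finset.card_univ, Fintype.card_prod, Fintype.card_fin,
      Fintype.card_fin] at h1
    exact h1.trans (Nat.sub_le _ _)
  have hne : ∀ x, NeZero (q x) := fun x => ⟨(hprime x).ne_zero⟩
  have hft : ∀ x, Fintype (MulChar (ZMod (q x)) ℂ) := fun x => Fintype.ofFinite _
  have hft2 : Fintype (Fam q) := inferInstance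
  let E1 : Finset (Fam q) :=
    univ.filter fun ξ => (csupp q ξ).card ∈ Icc 1 (h0 M) ∧ Exc q ξ
  let E2 : Finset (Fam q) :=
    univ.filter fun ξ => (csupp q ξ).card ∈ Icc 1 (h0 M) ∧ ¬ Exc q ξ
  let E3 : Finset (Fam q) :=
    univ.filter fun ξ => (csupp q ξ).card ∈ Icc 1 M
  have hXpos : 0 < XM M := by
    unfold XM
    exact Nat.pow_pos (by omega)
  have hXr : (0 : ℝ) < (XM M : ℝ) := Nat.cast_pos.2 hXpos
  have hT : (Fintype.card (Fin M → Fin N) : ℝ) = (N : ℝ) ^ M := by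
    rw [Fintype.card_fun, Fintype.card_fin, Fintype.card_fin, Nat.cast_pow]
  have k1 := key1 q hC11 hC14 hM hN1 hq hprime hle E1
    (fun ξ hξ => (Finset.mem_filter.1 hξ).2)
  have k2 := key2 q hC10 hC13 hM hNpos hprime hle hcardz E2
    (fun ξ hξ => ⟨(Finset.mem_Icc.1 (Finset.mem_filter.1 hξ).2.1).2,
      (Finset.mem_filter.1 hξ).2.2⟩)
  have k3 := key3 q C X0 hC hC7 hC9 hC14 hM hMX hMC hN1 hq hprime hle E3
    (fun ξ hξ => (Finset.mem_filter.1 hξ).2)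
  rw [← hT] at k1 k2 k3
  obtain ⟨σ, g1, g2, g3⟩ := exists_good (Pon q) (Qv q) E1 E2 E3
    (fun ξ => ‖psiX (cval q ξ) (XM M)‖) ((XM M : ℝ) / 100) (by linarith)
    (fun _ => norm_nonneg _) (by
      rw [Fintype.card_fun, Fintype.card_fin, Fintype.card_fin]
      exact Nat.pow_pos (by omega)) k1 k2 k3
  refine ⟨σ, ?_, ?_⟩
  · intro ξ hne' hcd hon
    have hmem : (csupp q ξ).card ∈ Icc 1 (h0 M) :=
      Finset.mem_Icc.2 ⟨Finset.card_pos.2 hne', hcd⟩
    by_cases hex : Exc q ξ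
    · exact absurd hon (g1 ξ (Finset.mem_filter.2 ⟨Finset.mem_univ _, hmem, hex⟩))
    · have := g2 ξ (Finset.mem_filter.2 ⟨Finset.mem_univ _, hmem, hex⟩)
      unfold Qv at this
      rw [not_lt] at this
      rw [Complex.re_sum]
      exact this
  · intro 𝒳 h𝒳
    refine le_trans ?_ g3
    refine Finset.sum_le_sum_of_subset_of_nonneg ?_ (fun _ _ _ => norm_nonneg _)
    intro ξ hξ
    obtain ⟨hne', hon⟩ := h𝒳 ξ hξ
    have h1 : csupp q ξ ⊆ (univ : Finset (Fin M)).image fun i => (i, σ i) := by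
      intro x hx
      rw [Finset.mem_image]
      exact ⟨x.1, Finset.mem_univ _, Prod.ext rfl (hon x hx)⟩
    have h2 : (csupp q ξ).card ≤ M := by
      calc (csupp q ξ).card ≤ ((univ : Finset (Fin M)).image fun i => (i, σ i)).card :=
            Finset.card_le_card h1
        _ ≤ (univ : Finset (Fin M)).card := Finset.card_image_le
        _ = M := by rw [Finset.card_univ, Fintype.card_fin]
    exact Finset.mem_filter.2 ⟨Finset.mem_filter.2 ⟨Finset.mem_univ _,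
      Finset.mem_Icc.2 ⟨Finset.card_pos.2 hne', h2⟩⟩, hon⟩

end Pool.Agent.Work.MP_e0aece_nt.Sq

end

section

/-!
# Item C16: primes in progressions from the bound for the prime character sums
-/

namespace Pool.Agent.Work.MP_e0aece_nt.Sq

open Finset

namespace ItemC16

theorem sum_vm_dvd_le {p : ℕ} (hp : p.Prime) (X : ℕ) :
    ∑ n ∈ (Ioc 0 X).filter (fun n => p ∣ n), ArithmeticFunction.vonMangoldt n ≤ Real.log X := by
  rcases Nat.eq_zero_or_pos X with rfl | hX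
  · simp
  have h1 : ∑ n ∈ (Ioc 0 X).filter (fun n => p ∣ n), ArithmeticFunction.vonMangoldt n
      ≤ ∑ n ∈ (p ^ Nat.log p X).divisors, ArithmeticFunction.vonMangoldt n := by
    rw [← Finset.sum_filter_ne_zero]
    apply Finset.sum_le_sum_of_subset_of_nonneg
    · intro n hn
      simp only [mem_filter, mem_Ioc] at hn
      obtain ⟨⟨⟨h0, hX⟩, hd⟩, hne⟩ := hn
      rw [ArithmeticFunction.vonMangoldt_ne_zero_iff, isPrimePow_nat_iff] at hne
      obtain ⟨r, k, hr, hk, rfl⟩ := hne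
      have hpr : p = r := (Nat.prime_dvd_prime_iff_eq hp hr).1 (hp.dvd_of_dvd_pow hd)
      subst hpr
      rw [Nat.mem_divisors]
      exact ⟨pow_dvd_pow _ (Nat.le_log_of_pow_le hp.one_lt hX), (pow_pos hp.pos _).ne'⟩
    · intro n _ _
      exact ArithmeticFunction.vonMangoldt_nonneg
  rw [ArithmeticFunction.vonMangoldt_sum] at h1
  refine h1.trans (Real.log_le_log ?_ ?_)
  · exact_mod_cast pow_pos hp.pos _
  · exact_mod_cast Nat.pow_log_le_self p hX.ne'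

/-- The sum over a progression is at most the contribution of the primes plus `ψ - θ`. -/
theorem sum_vm_le (X : ℕ) (hX : 1 ≤ X) (P : ℕ → Prop) [DecidablePred P] :
    ∑ n ∈ (Ioc 0 X).filter P, ArithmeticFunction.vonMangoldt n ≤
      (((Ioc 0 X).filter fun n => P n ∧ n.Prime).card : ℝ) * Real.log X +
        2 * Real.sqrt X * Real.log X := by
  have hX' : (1 : ℝ) ≤ X := by exact_mod_cast hX
  rw [← Finset.sum_filter_add_sum_filter_not _ (fun n => n.Prime)]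
  apply add_le_add
  · rw [Finset.filter_filter, ← nsmul_eq_mul]
    apply Finset.sum_le_card_nsmul
    intro n hn
    simp only [mem_filter, mem_Ioc] at hn
    rw [ArithmeticFunction.vonMangoldt_apply_prime hn.2.2]
    apply Real.log_le_log
    · exact_mod_cast hn.1.1
    · exact_mod_cast hn.1.2
  · refine le_trans ?_ (Chebyshev.psi_sub_theta_le hX')
    rw [Chebyshev.psi_sub_theta_eq_sum_not_prime, Nat.floor_natCast]
    apply Finset.sum_le_sum_of_subset_of_nonneg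
    · intro n hn
      simp only [mem_filter] at hn ⊢
      exact ⟨hn.1.1, hn.2⟩
    · intro n _ _
      exact ArithmeticFunction.vonMangoldt_nonneg

/-- The local factor. -/
noncomputable def sloc (q n : ℕ) : ℝ :=
  (if (n : ZMod q) = 1 then ((q : ℝ) - 1) else 0) + (if (n : ZMod q) = 0 then 1 else 0)

open Classical in
theorem sum_loc (q : ℕ) [hq : Fact q.Prime] (n : ℕ) :
    ∑ χ : DirichletCharacter ℂ q, (if χ = 1 then (1 : ℂ) else χ (n : ZMod q)) =
      (sloc q n : ℂ) := by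
  have h1 : ∑ χ : DirichletCharacter ℂ q, (if χ = 1 then (1 : ℂ) else χ (n : ZMod q)) =
      ∑ χ : DirichletCharacter ℂ q, χ (n : ZMod q) +
        (1 - (1 : DirichletCharacter ℂ q) (n : ZMod q)) := by
    rw [← Finset.add_sum_erase univ (fun χ : DirichletCharacter ℂ q =>
        (if χ = 1 then (1 : ℂ) else χ (n : ZMod q))) (mem_univ 1),
      ← Finset.add_sum_erase univ (fun χ : DirichletCharacter ℂ q => χ (n : ZMod q)) (mem_univ 1)]
    have h2 : ∑ x ∈ univ.erase (1 : DirichletCharacter ℂ q),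
        (if x = 1 then (1 : ℂ) else x (n : ZMod q)) =
        ∑ x ∈ univ.erase (1 : DirichletCharacter ℂ q), x (n : ZMod q) := by
      apply Finset.sum_congr rfl
      intro χ hχ
      rw [if_neg (Finset.ne_of_mem_erase hχ)]
    simp only [if_true]
    rw [h2]
    ring
  rw [h1, DirichletCharacter.sum_characters_eq, Nat.totient_prime hq.out]
  unfold sloc
  have h3 : ((q - 1 : ℕ) : ℂ) = (q : ℂ) - 1 := by
    rw [Nat.cast_sub hq.out.one_lt.le]; simp
  have h4 : (1 - (1 : DirichletCharacter ℂ q) (n : ZMod q)) =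
      if (n : ZMod q) = 0 then (1 : ℂ) else 0 := by
    by_cases h : (n : ZMod q) = 0
    · rw [if_pos h, h, MulChar.map_zero]; simp
    · rw [if_neg h, MulChar.one_apply (Ne.isUnit h)]; simp
  rw [h3, h4]
  push_cast
  split_ifs <;> simp

theorem sloc_nonneg (q : ℕ) [hq : Fact q.Prime] (n : ℕ) : 0 ≤ sloc q n := by
  unfold sloc
  have : (1 : ℝ) ≤ q := by exact_mod_cast hq.out.one_lt.le
  split_ifs <;> linarith

theorem sloc_le (q : ℕ) [hq : Fact q.Prime] (n : ℕ) : sloc q n ≤ (q : ℝ) - 1 := by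
  unfold sloc
  have h2 : (2 : ℝ) ≤ q := by exact_mod_cast hq.out.two_le
  split_ifs with h h' h'
  · rw [h] at h'
    exact absurd h' one_ne_zero
  · linarith
  · linarith
  · linarith

section Fam

variable {κ : Type} [Fintype κ] [DecidableEq κ] (p : κ → ℕ) [hp : ∀ i, Fact (p i).Prime]

/-- The families of characters supported in `A`. -/
noncomputable def fam (A : Finset κ) : Finset (∀ i, MulChar (ZMod (p i)) ℂ) :=
  Fintype.piFinset fun i => if i ∈ A then (univ : Finset (DirichletCharacter ℂ (p i))) else {1}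

open Classical in
theorem sum_fam (A : Finset κ) (n : ℕ) :
    ∑ ξ ∈ fam p A, cval p ξ n = ((∏ i ∈ A, sloc (p i) n : ℝ) : ℂ) := by
  unfold fam cval
  have h := Finset.prod_univ_sum (fun i => if i ∈ A then
    (univ : Finset (DirichletCharacter ℂ (p i))) else {1})
    (fun i χ => if χ = 1 then (1 : ℂ) else χ (n : ZMod (p i)))
  refine Eq.trans ?_ (h.symm.trans ?_)
  · apply Finset.sum_congr rfl
    intro ξ _
    apply Finset.prod_congr rfl
    intro i _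
    congr
  push_cast
  rw [← Finset.prod_subset (subset_univ A)]
  · apply Finset.prod_congr rfl
    intro i hi
    rw [if_pos hi]
    convert sum_loc (p i) n
  · intro i _ hi
    rw [if_neg hi]
    simp

theorem sum_psiX (A : Finset κ) (X : ℕ) :
    ∑ ξ ∈ fam p A, psiX (cval p ξ) X =
      ((∑ n ∈ Ioc 0 X, ArithmeticFunction.vonMangoldt n * ∏ i ∈ A, sloc (p i) n : ℝ) : ℂ) := by
  unfold psiX
  rw [Finset.sum_comm]
  push_cast
  apply Finset.sum_congr rfl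
  intro n _
  rw [← Finset.mul_sum, sum_fam]
  push_cast
  rfl

/-- The pointwise bound of the product of the local factors. -/
theorem prod_le (hinj : Function.Injective p) (A : Finset κ) (n : ℕ) (hn : 1 ≤ n) :
    ∏ i ∈ A, sloc (p i) n ≤ (if dd p A ∣ n - 1 then ∏ i ∈ A, ((p i : ℝ) - 1) else 0) +
      ∑ i ∈ A, if p i ∣ n then (∏ j ∈ A, ((p j : ℝ) - 1)) / ((p i : ℝ) - 1) else 0 := by
  have hpos : ∀ i, (0 : ℝ) < (p i : ℝ) - 1 := fun i => by
    have : (1 : ℝ) < p i := by exact_mod_cast (hp i).out.one_lt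
    linarith
  have hφ : 0 ≤ ∏ i ∈ A, ((p i : ℝ) - 1) := Finset.prod_nonneg fun i _ => (hpos i).le
  have hsum : 0 ≤ ∑ i ∈ A, if p i ∣ n then (∏ j ∈ A, ((p j : ℝ) - 1)) / ((p i : ℝ) - 1) else 0 := by
    apply Finset.sum_nonneg
    intro i _
    split_ifs
    · exact div_nonneg hφ (hpos i).le
    · exact le_rfl
  by_cases hall : ∀ i ∈ A, (n : ZMod (p i)) = 1
  · have hd : dd p A ∣ n - 1 := by
      unfold dd
      rw [← Finset.prod_image (f := fun x => x) (g := p) (fun x _ y _ h => hinj h)]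
      apply Finset.prod_primes_dvd
      · intro q hq
        obtain ⟨i, _, rfl⟩ := mem_image.1 hq
        exact (hp i).out.prime
      · intro q hq
        obtain ⟨i, hi, rfl⟩ := mem_image.1 hq
        have h1 := hall i hi
        rw [← ZMod.natCast_eq_zero_iff, Nat.cast_sub hn, h1]
        simp
    rw [if_pos hd]
    have : ∏ i ∈ A, sloc (p i) n ≤ ∏ i ∈ A, ((p i : ℝ) - 1) :=
      Finset.prod_le_prod (fun i _ => sloc_nonneg _ _) (fun i _ => sloc_le _ _)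
    linarith
  · push Not at hall
    obtain ⟨i, hi, hne⟩ := hall
    have h0 : 0 ≤ (if dd p A ∣ n - 1 then ∏ i ∈ A, ((p i : ℝ) - 1) else 0) := by
      split_ifs
      · exact hφ
      · exact le_rfl
    by_cases hdiv : p i ∣ n
    · have h2 : sloc (p i) n = 1 := by
        unfold sloc
        rw [if_neg hne, if_pos ((ZMod.natCast_eq_zero_iff _ _).2 hdiv)]
        simp
      have h3 : ∏ j ∈ A, sloc (p j) n ≤ (∏ j ∈ A, ((p j : ℝ) - 1)) / ((p i : ℝ) - 1) := by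
        rw [← Finset.mul_prod_erase A _ hi, h2, one_mul,
          ← Finset.mul_prod_erase A (fun j => ((p j : ℝ) - 1)) hi, mul_comm,
          mul_div_assoc, div_self (hpos i).ne', mul_one]
        exact Finset.prod_le_prod (fun i _ => sloc_nonneg _ _) (fun i _ => sloc_le _ _)
      have h4 : (if p i ∣ n then (∏ j ∈ A, ((p j : ℝ) - 1)) / ((p i : ℝ) - 1) else 0) ≤
          ∑ i ∈ A, if p i ∣ n then (∏ j ∈ A, ((p j : ℝ) - 1)) / ((p i : ℝ) - 1) else 0 := by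
        apply Finset.single_le_sum (f := fun i =>
          if p i ∣ n then (∏ j ∈ A, ((p j : ℝ) - 1)) / ((p i : ℝ) - 1) else 0) _ hi
        intro j _
        split_ifs
        · exact div_nonneg hφ (hpos j).le
        · exact le_rfl
      rw [if_pos hdiv] at h4
      linarith
    · have h2 : sloc (p i) n = 0 := by
        unfold sloc
        rw [if_neg hne, if_neg (fun h => hdiv ((ZMod.natCast_eq_zero_iff _ _).1 h))]
        simp
      rw [Finset.prod_eq_zero hi h2]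
      linarith

/-- Lower bound for the weighted sum. -/
theorem sum_ge (A : Finset κ) (X : ℕ)
    (hX : ∀ 𝒳 : Finset (∀ i, MulChar (ZMod (p i)) ℂ), (∀ ξ ∈ 𝒳, (csupp p ξ).Nonempty) →
      ∑ ξ ∈ 𝒳, ‖psiX (cval p ξ) X‖ ≤ (X : ℝ) / 100) :
    Chebyshev.psi X - (X : ℝ) / 100 ≤
      ∑ n ∈ Ioc 0 X, ArithmeticFunction.vonMangoldt n * ∏ i ∈ A, sloc (p i) n := by
  classical
  have h1 := sum_psiX p A X
  set S := ∑ n ∈ Ioc 0 X, ArithmeticFunction.vonMangoldt n * ∏ i ∈ A, sloc (p i) n with hS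
  have hmem : (1 : ∀ i, MulChar (ZMod (p i)) ℂ) ∈ fam p A := by
    unfold fam
    rw [Fintype.mem_piFinset]
    intro i
    split_ifs
    · exact mem_univ _
    · simp
  rw [← Finset.add_sum_erase _ _ hmem] at h1
  have h2 : psiX (cval p 1) X = ((Chebyshev.psi X : ℝ) : ℂ) := by
    unfold psiX Chebyshev.psi
    rw [Nat.floor_natCast]
    push_cast
    apply Finset.sum_congr rfl
    intro n _
    unfold cval
    simp
  have h3 : ‖∑ ξ ∈ (fam p A).erase 1, psiX (cval p ξ) X‖ ≤ (X : ℝ) / 100 := by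
    refine (norm_sum_le _ _).trans (hX _ ?_)
    intro ξ hξ
    have hne := Finset.ne_of_mem_erase hξ
    by_contra hcon
    rw [Finset.not_nonempty_iff_eq_empty] at hcon
    apply hne
    funext i
    by_contra hi
    have : i ∈ csupp p ξ := by
      unfold csupp
      simp only [mem_filter, mem_univ, true_and]
      exact hi
    rw [hcon] at this
    simp at this
  have h4 : ∑ ξ ∈ (fam p A).erase 1, psiX (cval p ξ) X =
      ((S - Chebyshev.psi X : ℝ) : ℂ) := by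
    push_cast
    rw [← h1, h2]
    ring
  rw [h4, Complex.norm_real] at h3
  have h5 := (abs_le.1 h3).1
  linarith

/-- Upper bound for the weighted sum. -/
theorem sum_le (hinj : Function.Injective p) (A : Finset κ) (X : ℕ) (hX : 1 ≤ X)
    (hcard : ∀ i, (Fintype.card κ : ℝ) ≤ (p i : ℝ) - 1) :
    ∑ n ∈ Ioc 0 X, ArithmeticFunction.vonMangoldt n * ∏ i ∈ A, sloc (p i) n ≤
      (∏ i ∈ A, ((p i : ℝ) - 1)) *
        (∑ n ∈ (Ioc 0 X).filter (fun n => dd p A ∣ n - 1), ArithmeticFunction.vonMangoldt n +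
          Real.log X) := by
  have hpos : ∀ i, (0 : ℝ) < (p i : ℝ) - 1 := fun i => by
    have : (1 : ℝ) < p i := by exact_mod_cast (hp i).out.one_lt
    linarith
  set φ := ∏ i ∈ A, ((p i : ℝ) - 1) with hφdef
  have hφ : 0 ≤ φ := Finset.prod_nonneg fun i _ => (hpos i).le
  have hlog : 0 ≤ Real.log X := Real.log_nonneg (by exact_mod_cast hX)
  have h1 : ∑ n ∈ Ioc 0 X, ArithmeticFunction.vonMangoldt n * ∏ i ∈ A, sloc (p i) n ≤
      ∑ n ∈ Ioc 0 X, ArithmeticFunction.vonMangoldt n * ((if dd p A ∣ n - 1 then φ else 0) +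
        ∑ i ∈ A, if p i ∣ n then φ / ((p i : ℝ) - 1) else 0) := by
    apply Finset.sum_le_sum
    intro n hn
    exact mul_le_mul_of_nonneg_left (prod_le p hinj A n (mem_Ioc.1 hn).1)
      ArithmeticFunction.vonMangoldt_nonneg
  have h2 : ∑ n ∈ Ioc 0 X, ArithmeticFunction.vonMangoldt n * ((if dd p A ∣ n - 1 then φ else 0) +
        ∑ i ∈ A, if p i ∣ n then φ / ((p i : ℝ) - 1) else 0) =
      φ * ∑ n ∈ (Ioc 0 X).filter (fun n => dd p A ∣ n - 1), ArithmeticFunction.vonMangoldt n +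
      ∑ i ∈ A, φ / ((p i : ℝ) - 1) *
        ∑ n ∈ (Ioc 0 X).filter (fun n => p i ∣ n), ArithmeticFunction.vonMangoldt n := by
    simp only [mul_add, Finset.sum_add_distrib, Finset.mul_sum]
    rw [Finset.sum_comm (s := Ioc 0 X) (t := A)]
    congr 1
    · rw [Finset.sum_filter]
      apply Finset.sum_congr rfl
      intro n _
      split_ifs <;> ring
    · apply Finset.sum_congr rfl
      intro i _
      rw [Finset.sum_filter]
      apply Finset.sum_congr rfl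
      intro n _
      split_ifs <;> ring
  have h3 : ∑ i ∈ A, φ / ((p i : ℝ) - 1) *
        ∑ n ∈ (Ioc 0 X).filter (fun n => p i ∣ n), ArithmeticFunction.vonMangoldt n ≤
      φ * Real.log X := by
    rcases isEmpty_or_nonempty κ with hemp | hne
    · rw [Finset.sum_eq_zero (fun i _ => (hemp.false i).elim)]
      exact mul_nonneg hφ hlog
    have hc : (0 : ℝ) < Fintype.card κ := by exact_mod_cast Fintype.card_pos
    have h4 : ∀ i ∈ A, φ / ((p i : ℝ) - 1) *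
        ∑ n ∈ (Ioc 0 X).filter (fun n => p i ∣ n), ArithmeticFunction.vonMangoldt n ≤
        φ / (Fintype.card κ) * Real.log X := by
      intro i _
      apply mul_le_mul
      · exact div_le_div_of_nonneg_left hφ hc (hcard i)
      · exact sum_vm_dvd_le (hp i).out X
      · exact Finset.sum_nonneg fun _ _ => ArithmeticFunction.vonMangoldt_nonneg
      · positivity
    refine (Finset.sum_le_sum h4).trans ?_
    rw [Finset.sum_const, nsmul_eq_mul]
    have h5 : (A.card : ℝ) ≤ Fintype.card κ := by exact_mod_cast Finset.card_le_univ A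
    calc (A.card : ℝ) * (φ / (Fintype.card κ) * Real.log X)
        ≤ (Fintype.card κ : ℝ) * (φ / (Fintype.card κ) * Real.log X) :=
          mul_le_mul_of_nonneg_right h5 (by positivity)
      _ = φ * Real.log X := by field_simp
  rw [mul_add]
  linarith

end Fam

/-- The injection from the primes to the multipliers. -/
theorem card_le (X d : ℕ) (hd : 1 ≤ d) :
    ((Ioc 0 X).filter fun n => d ∣ n - 1 ∧ n.Prime).card ≤
      ((Ioc 0 (X / d)).filter fun k => (d * k + 1).Prime).card := by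
  apply Finset.card_le_card_of_injOn (fun n => (n - 1) / d)
  · intro n hn
    simp only [coe_filter, mem_Ioc, Set.mem_ofPred_eq] at hn ⊢
    obtain ⟨⟨h0, h1⟩, ⟨k, hk⟩, h3⟩ := hn
    have h4 := h3.two_le
    have h5 : n = d * k + 1 := by omega
    have h6 : (n - 1) / d = k := by
      rw [hk]; exact Nat.mul_div_cancel_left k hd
    rw [h6]
    refine ⟨⟨?_, ?_⟩, ?_⟩
    · rcases Nat.eq_zero_or_pos k with rfl | h
      · omega
      · exact h
    · rw [Nat.le_div_iff_mul_le hd]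
      rw [mul_comm]
      omega
    · rw [← h5]; exact h3
  · intro n hn m hm h
    simp only [coe_filter, mem_Ioc, Set.mem_ofPred_eq] at hn hm h
    obtain ⟨⟨h0, h1⟩, ⟨k, hk⟩, h3⟩ := hn
    obtain ⟨⟨h0', h1'⟩, ⟨k', hk'⟩, h3'⟩ := hm
    rw [hk, hk', Nat.mul_div_cancel_left k hd, Nat.mul_div_cancel_left k' hd] at h
    subst h
    omega

/-- The numerical inequality. -/
theorem numeric (M : ℕ) (hM : 2000 ≤ M) (d : ℝ) (hd0 : 1 ≤ d) (hd : d ≤ (M : ℝ) ^ (21 * M))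
    (N ps : ℝ) (hps : ((XM M : ℝ) - 1) * Real.log 2 - Real.log ((XM M : ℝ) + 2) ≤ ps)
    (h : ps - (XM M : ℝ) / 100 ≤ d * (N * Real.log (XM M) +
      2 * Real.sqrt (XM M) * Real.log (XM M) + Real.log (XM M))) :
    (XM M : ℝ) / (2 * d * Real.log (XM M)) ≤ N := by
  have hM1 : (2000 : ℝ) ≤ M := by exact_mod_cast hM
  have hM0 : (0 : ℝ) < M := by linarith
  set Y : ℝ := (M : ℝ) ^ (1500 * M) with hY
  have hXY : (XM M : ℝ) = Y ^ 2 := by
    unfold XM
    rw [hY, ← pow_mul]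
    push_cast
    congr 1
    ring
  have hlogX : Real.log (XM M : ℝ) = 3000 * M * Real.log M := by
    unfold XM
    push_cast
    rw [Real.log_pow]
    push_cast
    ring
  have hlogM : Real.log M ≤ M := (Real.log_le_sub_one_of_pos hM0).trans (by linarith)
  have hlogM1 : 1 ≤ Real.log M := by
    rw [Real.le_log_iff_exp_le hM0]
    have := Real.exp_one_lt_d9
    linarith
  have hlogX1 : 1 ≤ Real.log (XM M : ℝ) := by
    rw [hlogX]; nlinarith
  have hlogX2 : Real.log (XM M : ℝ) ≤ 3000 * (M : ℝ) ^ 2 := by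
    rw [hlogX]; nlinarith
  have hsqrt : Real.sqrt (XM M) = Y := by
    rw [hXY]; exact Real.sqrt_sq (by positivity)
  -- the size of Y
  have hYbig : 50000 * ((M : ℝ) ^ (21 * M) * (M : ℝ) ^ 2) ≤ Y := by
    have h1 : (1500 * M) = 21 * M + 2 + (1479 * M - 2) := by omega
    rw [hY, h1, pow_add, pow_add]
    have h2 : (50000 : ℝ) ≤ (M : ℝ) ^ (1479 * M - 2) := by
      have h3 : (M : ℝ) ^ 2 ≤ (M : ℝ) ^ (1479 * M - 2) :=
        pow_le_pow_right₀ (by linarith) (by omega)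
      nlinarith
    have h4 : 0 ≤ (M : ℝ) ^ (21 * M) * (M : ℝ) ^ 2 := by positivity
    nlinarith
  have hY1 : 50000 * (d * (M : ℝ) ^ 2) ≤ Y := by
    refine le_trans ?_ hYbig
    have : d * (M : ℝ) ^ 2 ≤ (M : ℝ) ^ (21 * M) * (M : ℝ) ^ 2 :=
      mul_le_mul_of_nonneg_right hd (by positivity)
    linarith
  have hYM : (50000 : ℝ) * M ≤ Y := by
    refine le_trans ?_ hY1
    nlinarith
  have hY0 : (0 : ℝ) < Y := by linarith
  have hYl : (50000 : ℝ) ≤ Y := by nlinarith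
  -- lower bound for psi
  have hlog3 : Real.log ((XM M : ℝ) + 2) ≤ 3 * Y := by
    have h1 : (XM M : ℝ) + 2 ≤ Y ^ 3 := by
      rw [hXY]; nlinarith [sq_nonneg Y]
    have h2 : Real.log ((XM M : ℝ) + 2) ≤ Real.log (Y ^ 3) :=
      Real.log_le_log (by rw [hXY]; positivity) h1
    rw [Real.log_pow] at h2
    have h3 : Real.log Y ≤ Y := (Real.log_le_sub_one_of_pos hY0).trans (by linarith)
    push_cast at h2
    linarith
  have hl2 := Real.log_two_gt_d9
  have hps2 : 0.69 * Y ^ 2 ≤ ps := by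
    refine le_trans ?_ hps
    rw [hXY] at hlog3 ⊢
    have h1 : (1 : ℝ) ≤ Y ^ 2 := by nlinarith
    have h2 : (Y ^ 2 - 1) * 0.6931471803 ≤ (Y ^ 2 - 1) * Real.log 2 :=
      mul_le_mul_of_nonneg_left hl2.le (by linarith)
    nlinarith
  rw [hsqrt] at h
  set Lx := Real.log (XM M : ℝ) with hLx
  rw [hXY] at h ⊢
  have hdl : 0 < 2 * d * Lx := by positivity
  rw [div_le_iff₀ hdl]
  -- small terms
  have h5 : d * Lx ≤ 3000 * (d * (M : ℝ) ^ 2) := by nlinarith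
  have h6 : d * Lx * 50000 ≤ 3000 * Y := by nlinarith
  have h7 : d * (2 * Y * Lx + Lx) ≤ 0.18 * Y ^ 2 := by
    have : d * (2 * Y * Lx + Lx) = (d * Lx) * (2 * Y + 1) := by ring
    rw [this]
    have h8 : 0 ≤ d * Lx := by positivity
    nlinarith
  nlinarith

end ItemC16

theorem claimC16 : ClaimC16 := by
  refine ⟨2000, ?_⟩
  intro M hM p hinj hp hX A
  have hpf : ∀ i, Fact (p i).Prime := fun i => ⟨(hp i).1⟩
  have hM1 : (2000 : ℝ) ≤ M := by exact_mod_cast hM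
  have hXpos : 1 ≤ XM M := Nat.one_le_pow _ _ (by omega)
  have hpos : ∀ i, (1 : ℝ) ≤ (p i : ℝ) - 1 := fun i => by
    have : (2 : ℝ) ≤ p i := by exact_mod_cast (hp i).1.two_le
    linarith
  have hcard : ∀ i, (Fintype.card (Fin M) : ℝ) ≤ (p i : ℝ) - 1 := by
    intro i
    rw [Fintype.card_fin]
    have h1 : (M : ℝ) ^ 20 + 1 ≤ p i := by exact_mod_cast (hp i).2.1
    have h2 : (M : ℝ) ≤ (M : ℝ) ^ 20 := le_self_pow₀ (by linarith) (by norm_num)
    linarith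
  have hlow := ItemC16.sum_ge p A (XM M) hX
  have hup := ItemC16.sum_le p hinj A (XM M) hXpos hcard
  have hT := ItemC16.sum_vm_le (XM M) hXpos (fun n => dd p A ∣ n - 1)
  have hpsi := Chebyshev.psi_ge' (x := (XM M : ℝ)) (by positivity)
  have hd1 : 1 ≤ dd p A := Finset.prod_pos fun i _ => (hp i).1.pos
  have hφd : ∏ i ∈ A, ((p i : ℝ) - 1) ≤ (dd p A : ℝ) := by
    unfold dd
    push_cast
    apply Finset.prod_le_prod
    · intro i _
      linarith [hpos i]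
    · intro i _
      linarith
  have hdM : (dd p A : ℝ) ≤ (M : ℝ) ^ (21 * M) := by
    have h1 : ∀ i ∈ A, p i ≤ M ^ 21 := by
      intro i _
      refine (hp i).2.2.trans ?_
      rw [pow_succ M 20, mul_comm 4]
      exact Nat.mul_le_mul_left _ (by omega)
    have h2 : dd p A ≤ (M ^ 21) ^ A.card := Finset.prod_le_pow_card _ _ _ h1
    have h3 : A.card ≤ M := by
      have := Finset.card_le_univ A
      rwa [Fintype.card_fin] at this
    have h4 : (M ^ 21) ^ A.card ≤ M ^ (21 * M) := by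
      rw [← pow_mul]
      exact Nat.pow_le_pow_right (by omega) (Nat.mul_le_mul_left _ h3)
    exact_mod_cast h2.trans h4
  have hlog : 0 ≤ Real.log (XM M : ℝ) := Real.log_nonneg (by exact_mod_cast hXpos)
  have hcl := ItemC16.card_le (XM M) (dd p A) hd1
  have hN := ItemC16.numeric M hM (dd p A : ℝ) (by exact_mod_cast hd1) hdM
    (((Ioc 0 (XM M)).filter fun n => dd p A ∣ n - 1 ∧ n.Prime).card : ℝ)
    (Chebyshev.psi (XM M)) hpsi ?_
  · refine hN.trans ?_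
    exact_mod_cast hcl
  · refine (hlow.trans hup).trans ?_
    apply mul_le_mul hφd
    · linarith
    · have : 0 ≤ ∑ n ∈ (Ioc 0 (XM M)).filter (fun n => dd p A ∣ n - 1),
          ArithmeticFunction.vonMangoldt n :=
        Finset.sum_nonneg fun _ _ => ArithmeticFunction.vonMangoldt_nonneg
      linarith
    · positivity

end Pool.Agent.Work.MP_e0aece_nt.Sq

end

section

/-!
# C2: Vaughan's identity for the sum over n up to X
-/

namespace Pool.Agent.Work.MP_e0aece_nt.Sq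

open Finset

namespace ItemC2

open ArithmeticFunction

/-- The von Mangoldt function with complex values. -/
noncomputable def Lc : ArithmeticFunction ℂ :=
  ⟨fun n => (ArithmeticFunction.vonMangoldt n : ℂ), by simp⟩

/-- The logarithm with complex values. -/
noncomputable def logc : ArithmeticFunction ℂ := ⟨fun n => (Real.log n : ℂ), by simp⟩

/-- The constant function `1`. -/
noncomputable def zc : ArithmeticFunction ℂ := (ArithmeticFunction.zeta : ArithmeticFunction ℂ)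

/-- The Moebius function with complex values. -/
noncomputable def mc : ArithmeticFunction ℂ := (ArithmeticFunction.moebius : ArithmeticFunction ℂ)

/-- The restriction to `n ≤ U`. -/
noncomputable def lo (U : ℕ) (f : ArithmeticFunction ℂ) : ArithmeticFunction ℂ :=
  ⟨fun n => if n ≤ U then f n else 0, by simp⟩

/-- The restriction to `U < n`. -/
noncomputable def hi (U : ℕ) (f : ArithmeticFunction ℂ) : ArithmeticFunction ℂ :=
  ⟨fun n => if U < n then f n else 0, by simp⟩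

/-- The twist by `χ`. -/
noncomputable def tw (χ : ℕ → ℂ) (f : ArithmeticFunction ℂ) : ArithmeticFunction ℂ :=
  ⟨fun n => f n * χ n, by simp⟩

theorem Lc_apply (n : ℕ) : Lc n = (ArithmeticFunction.vonMangoldt n : ℂ) := rfl

theorem logc_apply (n : ℕ) : logc n = (Real.log n : ℂ) := rfl

theorem mc_apply (n : ℕ) : mc n = ((ArithmeticFunction.moebius n : ℤ) : ℂ) := rfl

theorem zc_apply {n : ℕ} (h : n ≠ 0) : zc n = 1 := by
  rw [zc, natCoe_apply, ArithmeticFunction.zeta_apply, if_neg h, Nat.cast_one]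

theorem lo_apply (U : ℕ) (f : ArithmeticFunction ℂ) (n : ℕ) :
    lo U f n = if n ≤ U then f n else 0 := rfl

theorem hi_apply (U : ℕ) (f : ArithmeticFunction ℂ) (n : ℕ) :
    hi U f n = if U < n then f n else 0 := rfl

theorem tw_apply (χ : ℕ → ℂ) (f : ArithmeticFunction ℂ) (n : ℕ) :
    tw χ f n = f n * χ n := rfl

theorem lo_add_hi (U : ℕ) (f : ArithmeticFunction ℂ) : lo U f + hi U f = f := by
  ext n
  rw [ArithmeticFunction.add_apply, lo_apply, hi_apply]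
  by_cases h : n ≤ U
  · rw [if_pos h, if_neg (not_lt.2 h), add_zero]
  · rw [if_neg h, if_pos (not_le.1 h), zero_add]

theorem tw_mul {χ : ℕ → ℂ} (hχ : ∀ m n, χ (m * n) = χ m * χ n) (f g : ArithmeticFunction ℂ) :
    tw χ (f * g) = tw χ f * tw χ g := by
  ext n
  rw [tw_apply, ArithmeticFunction.mul_apply, ArithmeticFunction.mul_apply, Finset.sum_mul]
  refine Finset.sum_congr rfl fun x hx => ?_
  rw [tw_apply, tw_apply, ← (Nat.mem_divisorsAntidiagonal.1 hx).1, hχ]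
  ring

theorem Lc_mul_zeta : Lc * zc = logc := by
  ext n
  rw [zc, coe_mul_zeta_apply]
  have h := @ArithmeticFunction.vonMangoldt_sum n
  have h2 : ∑ i ∈ n.divisors, Lc i =
      ((∑ i ∈ n.divisors, ArithmeticFunction.vonMangoldt i : ℝ) : ℂ) := by
    push_cast
    rfl
  rw [h2, h]
  rfl

theorem vaughan (U : ℕ) : Lc + lo U mc * (lo U Lc * zc) = lo U Lc + lo U mc * logc
    + hi U Lc * (zc * hi U mc) := by
  have h1 := lo_add_hi U Lc
  have h2 := lo_add_hi U mc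
  have h3 : mc * zc = 1 := coe_moebius_mul_coe_zeta
  have h4 := Lc_mul_zeta
  rw [← h2] at h3
  rw [← h1] at h4
  linear_combination (-(hi U Lc)) * h3 + (lo U mc) * h4 - h1

theorem sum_lo {X U : ℕ} (hU : U ≤ X) (f : ArithmeticFunction ℂ) (F : ℕ → ℂ) :
    ∑ n ∈ Ioc 0 X, lo U f n * F n = ∑ n ∈ Ioc 0 U, f n * F n := by
  rw [← Finset.sum_subset (Finset.Ioc_subset_Ioc_right hU)]
  · refine Finset.sum_congr rfl fun n hn => ?_
    rw [lo_apply, if_pos (Finset.mem_Ioc.1 hn).2]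
  · intro n hn hn'
    rw [Finset.mem_Ioc] at hn hn'
    rw [lo_apply, if_neg (fun h => hn' ⟨hn.1, h⟩), zero_mul]

theorem sum_tw (χ : ℕ → ℂ) (hχ : ∀ m n, χ (m * n) = χ m * χ n) (f g : ArithmeticFunction ℂ)
    (X : ℕ) : ∑ n ∈ Ioc 0 X, tw χ (f * g) n =
      ∑ n ∈ Ioc 0 X, f n * (χ n * ∑ m ∈ Ioc 0 (X / n), tw χ g m) := by
  rw [tw_mul hχ, sum_Ioc_mul_eq_sum_sum]
  refine Finset.sum_congr rfl fun n _ => ?_
  rw [tw_apply]
  ring

theorem part3 (χ : ℕ → ℂ) (X U : ℕ) (hχ : ∀ m n, χ (m * n) = χ m * χ n) (hU : U ≤ X) :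
    ∑ n ∈ Ioc 0 X, tw χ (lo U mc * (lo U Lc * zc)) n =
      ∑ d ∈ Ioc 0 U, ∑ e ∈ Ioc 0 U, ((ArithmeticFunction.moebius d : ℤ) : ℂ) *
        (ArithmeticFunction.vonMangoldt e : ℂ) * χ (d * e) * ∑ m ∈ Ioc 0 (X / (d * e)), χ m := by
  rw [sum_tw χ hχ, sum_lo hU]
  refine Finset.sum_congr rfl fun d hd => ?_
  rw [sum_tw χ hχ, mc_apply, Finset.mul_sum, Finset.mul_sum]
  have hz : ∀ e ∈ Ioc 0 U, e ∉ Ioc 0 (X / d) → ∀ c : ℂ,
      c * ∑ m ∈ Ioc 0 (X / (d * e)), χ m = 0 := by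
    intro e he he' c
    have hlt : X / d < e := by
      by_contra h
      exact he' (Finset.mem_Ioc.2 ⟨(Finset.mem_Ioc.1 he).1, not_lt.1 h⟩)
    rw [← Nat.div_div_eq_div_mul, Nat.div_eq_of_lt hlt]
    simp
  have key : ∀ e : ℕ, 0 < e → ∑ m ∈ Ioc 0 (X / d / e), tw χ zc m =
      ∑ m ∈ Ioc 0 (X / (d * e)), χ m := by
    intro e _
    rw [Nat.div_div_eq_div_mul]
    refine Finset.sum_congr rfl fun m hm => ?_
    rw [tw_apply, zc_apply (by have := (Finset.mem_Ioc.1 hm).1; omega), one_mul]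
  -- both sides as sums over the intersection
  rw [← Finset.sum_subset (Finset.inter_subset_left : Ioc 0 (X / d) ∩ Ioc 0 U ⊆ Ioc 0 (X / d)),
    ← Finset.sum_subset (Finset.inter_subset_right : Ioc 0 (X / d) ∩ Ioc 0 U ⊆ Ioc 0 U)]
  · refine Finset.sum_congr rfl fun e he => ?_
    rw [Finset.mem_inter] at he
    rw [lo_apply, if_pos (Finset.mem_Ioc.1 he.2).2, Lc_apply,
      key e (Finset.mem_Ioc.1 he.2).1, hχ]
    ring
  · intro e he he'
    rw [Finset.mem_inter, not_and'] at he'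
    exact hz e he (he' he) _
  · intro e he he'
    rw [Finset.mem_inter, not_and] at he'
    have hlt : ¬ e ≤ U := fun h => he' he (Finset.mem_Ioc.2 ⟨(Finset.mem_Ioc.1 he).1, h⟩)
    rw [lo_apply, if_neg hlt]
    ring

theorem zm_apply (U n : ℕ) : (zc * hi U mc) n =
    ((∑ d ∈ n.divisors.filter (fun d => U < d), (ArithmeticFunction.moebius d : ℤ) : ℤ) : ℂ) := by
  rw [zc, coe_zeta_mul_apply, Finset.sum_filter]
  push_cast
  refine Finset.sum_congr rfl fun d _ => ?_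
  rw [hi_apply]
  split_ifs
  · rfl
  · rfl

theorem zm_zero {U n : ℕ} (hn : n ≤ U) : (zc * hi U mc) n = 0 := by
  rw [zm_apply]
  have : n.divisors.filter (fun d => U < d) = ∅ := by
    rw [Finset.filter_eq_empty_iff]
    intro d hd
    have := Nat.divisor_le hd
    omega
  rw [this]
  simp

theorem part4 (χ : ℕ → ℂ) (X U : ℕ) (hχ : ∀ m n, χ (m * n) = χ m * χ n) (hU1 : 1 ≤ U)
    (hU : U ≤ X) :
    ∑ n ∈ Ioc 0 X, tw χ (hi U Lc * (zc * hi U mc)) n =
      ∑ m ∈ Ioc U (X / U), (ArithmeticFunction.vonMangoldt m : ℂ) * χ m *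
          ∑ n ∈ Ioc U (X / m), ((∑ d ∈ n.divisors.filter (fun d => U < d),
            (ArithmeticFunction.moebius d : ℤ) : ℤ) : ℂ) * χ n := by
  rw [sum_tw χ hχ]
  have hsub : Ioc U (X / U) ⊆ Ioc 0 X :=
    Finset.Ioc_subset_Ioc (Nat.zero_le _) (Nat.div_le_self _ _)
  rw [← Finset.sum_subset hsub]
  · refine Finset.sum_congr rfl fun m hm => ?_
    rw [hi_apply, if_pos (Finset.mem_Ioc.1 hm).1, Lc_apply, mul_assoc]
    congr 2
    have hsub2 : Ioc U (X / m) ⊆ Ioc 0 (X / m) :=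
      Finset.Ioc_subset_Ioc_left (Nat.zero_le _)
    rw [← Finset.sum_subset hsub2]
    · refine Finset.sum_congr rfl fun n _ => ?_
      rw [tw_apply, zm_apply]
    · intro n hn hn'
      rw [Finset.mem_Ioc] at hn hn'
      rw [tw_apply, zm_zero (by omega), zero_mul]
  · intro m hm hm'
    rw [Finset.mem_Ioc] at hm hm'
    by_cases hUm : U < m
    · have h1 : X / U < m := by
        by_contra h
        exact hm' ⟨hUm, not_lt.1 h⟩
      have h2 : X < m * U := (Nat.div_lt_iff_lt_mul hU1).1 h1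
      have h3 : X / m < U := (Nat.div_lt_iff_lt_mul hm.1).2 (by rw [mul_comm]; exact h2)
      have h4 : ∑ n ∈ Ioc 0 (X / m), tw χ (zc * hi U mc) n = 0 := by
        refine Finset.sum_eq_zero fun n hn => ?_
        rw [Finset.mem_Ioc] at hn
        rw [tw_apply, zm_zero (by omega), zero_mul]
      rw [h4, mul_zero, mul_zero]
    · rw [hi_apply, if_neg hUm, zero_mul]

end ItemC2

open ItemC2 in
theorem claimC2 : ClaimC2 := by
  intro χ X U _ hχ hU1 hU
  have h0 : psiX χ X = ∑ n ∈ Ioc 0 X, tw χ Lc n := rfl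
  rw [h0]
  have h1 : ∀ n, tw χ Lc n = lo U Lc n * χ n + tw χ (lo U mc * logc) n
      - tw χ (lo U mc * (lo U Lc * zc)) n + tw χ (hi U Lc * (zc * hi U mc)) n := by
    intro n
    have h : (Lc + lo U mc * (lo U Lc * zc)) n = (lo U Lc + lo U mc * logc +
        hi U Lc * (zc * hi U mc)) n :=
      congrArg (fun f : ArithmeticFunction ℂ => f n) (vaughan U)
    rw [ArithmeticFunction.add_apply, ArithmeticFunction.add_apply,
      ArithmeticFunction.add_apply] at h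
    simp only [tw_apply]
    linear_combination (χ n) * h
  simp only [h1]
  rw [Finset.sum_add_distrib, Finset.sum_sub_distrib, Finset.sum_add_distrib, sum_lo hU,
    part3 χ X U hχ hU, part4 χ X U hχ hU1 hU, sum_tw χ hχ, sum_lo hU]
  congr 3
  refine Finset.sum_congr rfl fun d _ => ?_
  rw [mc_apply, mul_assoc]
  rfl

end Pool.Agent.Work.MP_e0aece_nt.Sq

end

section

/-! C3: partial summation with the logarithm. -/

namespace Pool.Agent.Work.MP_e0aece_nt.Sq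

open Finset

theorem claimC3 : ClaimC3 := by
  intro χ F Y hF hχ
  rcases Nat.eq_zero_or_pos Y with hY | hY
  · subst hY; simp
  have hlogY : 0 ≤ Real.log Y := Real.log_natCast_nonneg Y
  have hS : ∀ m, ‖∑ n ∈ Ioc 0 m, χ n‖ ≤ F := fun m => hχ 0 m
  have key : ∀ Y : ℕ, 1 ≤ Y →
      ‖(Real.log Y : ℂ) * (∑ n ∈ Ioc 0 Y, χ n) - ∑ m ∈ Ioc 0 Y, (Real.log m : ℂ) * χ m‖ ≤
        F * Real.log Y := by
    intro Y hY
    induction Y, hY using Nat.le_induction with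
    | base => simp
    | succ Y hY ih =>
      rw [Finset.sum_Ioc_succ_top (Nat.zero_le Y), Finset.sum_Ioc_succ_top (Nat.zero_le Y)]
      have hmono : Real.log Y ≤ Real.log ((Y + 1 : ℕ) : ℝ) :=
        Real.log_le_log (by exact_mod_cast hY) (by push_cast; linarith)
      have heq : (Real.log ((Y + 1 : ℕ) : ℝ) : ℂ) * ((∑ n ∈ Ioc 0 Y, χ n) + χ (Y + 1)) -
          ((∑ m ∈ Ioc 0 Y, (Real.log m : ℂ) * χ m) + (Real.log ((Y + 1 : ℕ) : ℝ) : ℂ) * χ (Y + 1))
          = ((Real.log Y : ℂ) * (∑ n ∈ Ioc 0 Y, χ n) - ∑ m ∈ Ioc 0 Y, (Real.log m : ℂ) * χ m) +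
            ((Real.log ((Y + 1 : ℕ) : ℝ) - Real.log Y : ℝ) : ℂ) * ∑ n ∈ Ioc 0 Y, χ n := by
        push_cast; ring
      rw [heq]
      refine (norm_add_le _ _).trans ?_
      rw [norm_mul, Complex.norm_real, Real.norm_of_nonneg (by linarith)]
      have h2 : (Real.log ((Y + 1 : ℕ) : ℝ) - Real.log Y) * ‖∑ n ∈ Ioc 0 Y, χ n‖ ≤
          (Real.log ((Y + 1 : ℕ) : ℝ) - Real.log Y) * F :=
        mul_le_mul_of_nonneg_left (hS Y) (by linarith)
      linarith
  have h1 := key Y hY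
  have h2 : ‖(Real.log Y : ℂ) * (∑ n ∈ Ioc 0 Y, χ n)‖ ≤ F * Real.log Y := by
    rw [norm_mul, Complex.norm_real, Real.norm_of_nonneg hlogY, mul_comm]
    exact mul_le_mul_of_nonneg_right (hS Y) hlogY
  have h3 : ‖∑ m ∈ Ioc 0 Y, (Real.log m : ℂ) * χ m‖ ≤
      ‖(Real.log Y : ℂ) * (∑ n ∈ Ioc 0 Y, χ n)‖ +
      ‖(Real.log Y : ℂ) * (∑ n ∈ Ioc 0 Y, χ n) - ∑ m ∈ Ioc 0 Y, (Real.log m : ℂ) * χ m‖ := by
    have := norm_sub_le ((Real.log Y : ℂ) * (∑ n ∈ Ioc 0 Y, χ n))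
      ((Real.log Y : ℂ) * (∑ n ∈ Ioc 0 Y, χ n) - ∑ m ∈ Ioc 0 Y, (Real.log m : ℂ) * χ m)
    rwa [sub_sub_cancel] at this
  linarith

end Pool.Agent.Work.MP_e0aece_nt.Sq

end

section

/-!
# Item C4
-/

namespace Pool.Agent.Work.MP_e0aece_nt.Sq

open Finset

namespace ItemC4

theorem gcd_mul_div_mul_div (a b : ℕ) (ha : 0 < a) :
    Nat.gcd a b * (a / Nat.gcd a b) * (b / Nat.gcd a b) = Nat.lcm a b := by
  have hg : 0 < Nat.gcd a b := Nat.gcd_pos_of_pos_left b ha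
  rw [Nat.mul_div_cancel' (Nat.gcd_dvd_left a b), Nat.lcm, Nat.mul_div_assoc _ (Nat.gcd_dvd_right a b)]

theorem count (N : ℕ) :
    ∑ n ∈ Ioc 0 N, (n.divisors.card) ^ 2 ≤
      ∑ g ∈ Ioc 0 N, ∑ a ∈ Ioc 0 N, ∑ b ∈ Ioc 0 N, N / (g * a * b) := by
  set S1 : Finset (Σ _ : ℕ, ℕ × ℕ) := (Ioc 0 N).sigma (fun n => n.divisors ×ˢ n.divisors) with hS1
  set S2 : Finset (Σ _ : ℕ × ℕ × ℕ, ℕ) :=
    ((Ioc 0 N) ×ˢ (Ioc 0 N) ×ˢ (Ioc 0 N)).sigma (fun t => Ioc 0 (N / (t.1 * t.2.1 * t.2.2)))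
    with hS2
  have h1 : ∑ n ∈ Ioc 0 N, (n.divisors.card) ^ 2 = S1.card := by
    rw [hS1, Finset.card_sigma]
    apply Finset.sum_congr rfl
    intro n _
    rw [Finset.card_product, sq]
  have h2 : ∑ g ∈ Ioc 0 N, ∑ a ∈ Ioc 0 N, ∑ b ∈ Ioc 0 N, N / (g * a * b) = S2.card := by
    rw [hS2, Finset.card_sigma, Finset.sum_product]
    apply Finset.sum_congr rfl
    intro g _
    rw [Finset.sum_product]
    apply Finset.sum_congr rfl
    intro a _
    apply Finset.sum_congr rfl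
    intro b _
    rw [Nat.card_Ioc, Nat.sub_zero]
  rw [h1, h2]
  apply Finset.card_le_card_of_injOn (fun x => ⟨(Nat.gcd x.2.1 x.2.2, x.2.1 / Nat.gcd x.2.1 x.2.2,
    x.2.2 / Nat.gcd x.2.1 x.2.2), x.1 / Nat.lcm x.2.1 x.2.2⟩)
  · rintro ⟨n, a, b⟩ hx
    rw [hS1, Finset.mem_coe, Finset.mem_sigma, Finset.mem_product] at hx
    obtain ⟨hn, ha, hb⟩ := hx
    simp only at hn ha hb
    rw [Finset.mem_Ioc] at hn
    have ha' := Nat.dvd_of_mem_divisors ha
    have hb' := Nat.dvd_of_mem_divisors hb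
    have ha0 : 0 < a := Nat.pos_of_dvd_of_pos ha' hn.1
    have hb0 : 0 < b := Nat.pos_of_dvd_of_pos hb' hn.1
    have haN : a ≤ N := (Nat.le_of_dvd hn.1 ha').trans hn.2
    have hbN : b ≤ N := (Nat.le_of_dvd hn.1 hb').trans hn.2
    have hg : 0 < Nat.gcd a b := Nat.gcd_pos_of_pos_left b ha0
    have hga : Nat.gcd a b ≤ a := Nat.le_of_dvd ha0 (Nat.gcd_dvd_left a b)
    have hgb : Nat.gcd a b ≤ b := Nat.le_of_dvd hb0 (Nat.gcd_dvd_right a b)
    have hl : Nat.lcm a b ∣ n := Nat.lcm_dvd ha' hb'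
    have hl0 : 0 < Nat.lcm a b := Nat.lcm_pos ha0 hb0
    rw [hS2, Finset.mem_coe, Finset.mem_sigma, Finset.mem_product, Finset.mem_product]
    simp only [Finset.mem_Ioc]
    refine ⟨⟨⟨hg, hga.trans haN⟩, ⟨Nat.div_pos hga hg, (Nat.div_le_self _ _).trans haN⟩,
      ⟨Nat.div_pos hgb hg, (Nat.div_le_self _ _).trans hbN⟩⟩,
      Nat.div_pos (Nat.le_of_dvd hn.1 hl) hl0, ?_⟩
    rw [gcd_mul_div_mul_div a b ha0]
    exact Nat.div_le_div_right hn.2
  · rintro ⟨n, a, b⟩ hx ⟨n', a', b'⟩ hx' h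
    rw [hS1, Finset.mem_coe, Finset.mem_sigma, Finset.mem_product] at hx hx'
    obtain ⟨hn, ha, hb⟩ := hx
    obtain ⟨hn', ha2, hb2⟩ := hx'
    simp only at hn ha hb hn' ha2 hb2
    have haa := Nat.dvd_of_mem_divisors ha
    have hbb := Nat.dvd_of_mem_divisors hb
    have haa' := Nat.dvd_of_mem_divisors ha2
    have hbb' := Nat.dvd_of_mem_divisors hb2
    simp only [Sigma.mk.injEq, Prod.mk.injEq, heq_eq_eq] at h
    obtain ⟨⟨h1, h2, h3⟩, h4⟩ := h
    have ea : a = a' := by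
      rw [← Nat.mul_div_cancel' (Nat.gcd_dvd_left a b), h2, h1,
        Nat.mul_div_cancel' (Nat.gcd_dvd_left a' b')]
    have eb : b = b' := by
      rw [← Nat.mul_div_cancel' (Nat.gcd_dvd_right a b), h3, h1,
        Nat.mul_div_cancel' (Nat.gcd_dvd_right a' b')]
    subst ea
    subst eb
    have en : n = n' := by
      rw [← Nat.mul_div_cancel' (Nat.lcm_dvd haa hbb), h4,
        Nat.mul_div_cancel' (Nat.lcm_dvd haa' hbb')]
    subst en
    rfl

theorem sum_inv (N : ℕ) : ∑ g ∈ Ioc 0 N, (1 : ℝ) / g = (harmonic N : ℝ) := by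
  rw [harmonic_eq_sum_Icc]
  push_cast
  rw [show Ioc 0 N = Icc 1 N from rfl]
  apply Finset.sum_congr rfl
  intro i _
  rw [one_div]

end ItemC4

open ItemC4 in
theorem claimC4 : ClaimC4 := by
  intro N hN
  have h1 : (∑ n ∈ Ioc 0 N, ((n.divisors.card : ℝ)) ^ 2) ≤
      ∑ g ∈ Ioc 0 N, ∑ a ∈ Ioc 0 N, ∑ b ∈ Ioc 0 N, ((N / (g * a * b) : ℕ) : ℝ) := by
    exact_mod_cast count N
  refine h1.trans ?_
  have h2 : ∑ g ∈ Ioc 0 N, ∑ a ∈ Ioc 0 N, ∑ b ∈ Ioc 0 N, ((N / (g * a * b) : ℕ) : ℝ) ≤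
      ∑ g ∈ Ioc 0 N, ∑ a ∈ Ioc 0 N, ∑ b ∈ Ioc 0 N, (N : ℝ) * ((1 / g) * ((1 / a) * (1 / b))) := by
    apply Finset.sum_le_sum
    intro g _
    apply Finset.sum_le_sum
    intro a _
    apply Finset.sum_le_sum
    intro b _
    refine Nat.cast_div_le.trans (le_of_eq ?_)
    push_cast
    rw [one_div, one_div, one_div, div_eq_mul_inv, mul_inv, mul_inv]
    ring
  refine h2.trans ?_
  have h3 : ∑ g ∈ Ioc 0 N, ∑ a ∈ Ioc 0 N, ∑ b ∈ Ioc 0 N,
      (N : ℝ) * ((1 / g) * ((1 / a) * (1 / b))) = N * (harmonic N : ℝ) ^ 3 := by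
    rw [← sum_inv]
    simp only [← Finset.mul_sum, ← Finset.sum_mul]
    ring
  rw [h3]
  have h4 := harmonic_le_one_add_log N
  have h5 : (0 : ℝ) ≤ (harmonic N : ℝ) := by
    rw [← sum_inv]
    apply Finset.sum_nonneg
    intro i _
    positivity
  gcongr

end Pool.Agent.Work.MP_e0aece_nt.Sq

end
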