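import Pool.Agent.Work.MP_e0aece_nt.Bd.B02

/-! Bundle of small proof modules (one section per former module). -/

section

/-!
# Item WF: Weil's bound, assembly
-/

namespace Pool.Agent.Work.MP_e0aece_nt.Sq

open Finset Polynomial

namespace ItemWF

lemma norm_mulChar_le {q : ℕ} [Fact q.Prime] (ψ : MulChar (ZMod q) ℂ) (x : ZMod q) :
    ‖ψ x‖ ≤ 1 := by
  by_cases h : x = 0
  · rw [h, MulChar.map_zero]
    simp
  · have h1 : (ψ x) ^ (q - 1) = 1 := by
      rw [← map_pow, ZMod.pow_card_sub_one_eq_one h, map_one]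
    have hq : q - 1 ≠ 0 := by
      have := (Fact.out : q.Prime).two_le
      omega
    rw [Complex.norm_eq_one_of_pow_eq_one h1 hq]

lemma cc_zero {q : ℕ} [Fact q.Prime] {m : ℕ} (a : Fin m → ZMod q)
    (χ : Fin m → MulChar (ZMod q) ℂ) : cc a χ 0 = 1 := by
  unfold cc Psi mon
  simp

lemma cc_one {q : ℕ} [Fact q.Prime] {m : ℕ} (a : Fin m → ZMod q)
    (χ : Fin m → MulChar (ZMod q) ℂ) : cc a χ 1 = ∑ x : ZMod q, ∏ j, χ j (a j + x) := by
  unfold cc Psi mon
  rw [← Equiv.sum_comp (Equiv.funUnique (Fin 1) (ZMod q)).symm]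
  refine Finset.sum_congr rfl fun x _ => ?_
  simp [Equiv.funUnique]

/-- The main case. -/
lemma main {q : ℕ} [Fact q.Prime] (hW1 : ClaimW1) (hW4 : ClaimW4) (hW5 : ClaimW5)
    (hW10 : ClaimW10) {m : ℕ} (a : Fin m → ZMod q) (χ : Fin m → MulChar (ZMod q) ℂ) (hm : 1 ≤ m)
    (ha : Function.Injective a) (hχ : ∀ j, χ j ≠ 1) (ha0 : ∀ j, a j ≠ 0) :
    ‖∑ x : ZMod q, ∏ j, χ j (a j + x)‖ ≤ ((m : ℝ) - 1) * Real.sqrt q := by
  obtain ⟨C, n0, hC⟩ := hW10 q m a χ hm ha ha0 hχ
  have hq : (0 : ℝ) < q := by exact_mod_cast (Fact.out : q.Prime).pos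
  have h1 := hW5 m (cc a χ) (SS a χ) (Real.sqrt q) C n0 hm (Real.sqrt_pos.mpr hq) (cc_zero a χ)
    (hW1 q m a χ ha hχ hm) (hW4 q m a χ) (by
      intro n hn
      rw [pow_mul, Real.sq_sqrt hq.le]
      exact hC n hn)
  have h2 := hW4 q m a χ 1
  simp only [Nat.cast_one, one_mul, Finset.Icc_self, Finset.sum_singleton, Nat.sub_self] at h2
  rw [cc_zero, mul_one] at h2
  rw [← h2, cc_one] at h1
  exact h1

end ItemWF

open ItemWF in
theorem claimWeil (hW1 : ClaimW1) (hW4 : ClaimW4) (hW5 : ClaimW5) (hW10 : ClaimW10) :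
    ClaimWeil := by
  intro q _ m a χ hm ha hχ
  classical
  have hqR : (1 : ℝ) ≤ q := by exact_mod_cast (Fact.out : q.Prime).one_le
  by_cases hqm : q ≤ m
  · have h1 : ‖∑ x : ZMod q, ∏ j, χ j (x - a j)‖ ≤ q := by
      refine le_trans (norm_sum_le _ _) ?_
      calc ∑ x : ZMod q, ‖∏ j, χ j (x - a j)‖ ≤ ∑ _x : ZMod q, (1 : ℝ) := by
            refine Finset.sum_le_sum fun x _ => ?_
            rw [norm_prod]
            exact Finset.prod_le_one (fun _ _ => norm_nonneg _) fun j _ => norm_mulChar_le _ _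
        _ = q := by simp [ZMod.card]
    have h2 : (1 : ℝ) ≤ Real.sqrt q := Real.one_le_sqrt.mpr hqR
    have h3 : (q : ℝ) ≤ m := by exact_mod_cast hqm
    calc ‖∑ x : ZMod q, ∏ j, χ j (x - a j)‖ ≤ q := h1
      _ ≤ m * 1 := by linarith
      _ ≤ m * Real.sqrt q := mul_le_mul_of_nonneg_left h2 (by positivity)
  · push Not at hqm
    obtain ⟨t, ht⟩ : ∃ t : ZMod q, ∀ j, a j + t ≠ 0 := by
      by_contra hcon
      push Not at hcon
      choose f hf using hcon
      have hinj : Function.Injective f := by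
        intro s t hst
        have h1 := hf s
        have h2 := hf t
        rw [hst] at h1
        exact add_left_cancel (h1.trans h2.symm)
      have h3 := Fintype.card_le_of_injective f hinj
      rw [ZMod.card, Fintype.card_fin] at h3
      omega
    have hmain := main hW1 hW4 hW5 hW10 (fun j => a j + t) χ hm
      (fun i j hij => ha (add_right_cancel hij)) hχ ht
    have h1 : ∑ x : ZMod q, ∏ j, χ j (x - a j) =
        (∏ j, χ j (-1)) * ∑ x : ZMod q, ∏ j, χ j (a j + t + x) := by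
      rw [Finset.mul_sum, ← Equiv.sum_comp ((Equiv.addRight t).trans (Equiv.neg (ZMod q)))]
      refine Finset.sum_congr rfl fun x _ => ?_
      rw [← Finset.prod_mul_distrib]
      refine Finset.prod_congr rfl fun j _ => ?_
      rw [← map_mul]
      congr 1
      simp only [Equiv.trans_apply, Equiv.coe_addRight, Equiv.neg_apply]
      ring
    rw [h1, norm_mul]
    have h2 : ‖∏ j, χ j (-1)‖ ≤ 1 := by
      rw [norm_prod]
      exact Finset.prod_le_one (fun _ _ => norm_nonneg _) fun j _ => norm_mulChar_le _ _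
    calc ‖∏ j, χ j (-1)‖ * ‖∑ x : ZMod q, ∏ j, χ j (a j + t + x)‖
        ≤ 1 * (((m : ℝ) - 1) * Real.sqrt q) :=
          mul_le_mul h2 hmain (norm_nonneg _) zero_le_one
      _ ≤ m * Real.sqrt q := by
          have := Real.sqrt_nonneg (q : ℝ)
          nlinarith

end Pool.Agent.Work.MP_e0aece_nt.Sq

end

section

/-!
# Statements of Module B (pseudorandomness for most residue vectors `k`)
-/

namespace Pool.Agent.Work.MP_e0aece_nt.Sq

open Finset

/-- B0: a nontrivial character has mean zero along `x ↦ u x + 1` on the units. -/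
def ClaimB0 : Prop :=
  ∀ (q : ℕ) [Fact q.Prime] (χ : MulChar (ZMod q) ℂ) (u : (ZMod q)ˣ), χ ≠ 1 →
    ∑ c : (ZMod q)ˣ, evk χ ((u : ZMod q) * (c : ZMod q)) 1 = 0

/-- B1: product formula and bound for a character sum over the subsets of `V`. -/
def ClaimB1 : Prop :=
  ∀ (ι : Type) [Fintype ι] [DecidableEq ι] (p : ι → ℕ) [∀ i, Fact (p i).Prime] (h : ℕ)
    (V S : Finset ι) (χ : ∀ i, MulChar (ZMod (p i)) ℂ),
    Gap p h → Disjoint V S → S.Nonempty → S.card ≤ h → (∀ i ∈ S, χ i ≠ 1) →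
    10 * (Fintype.card ι - V.card) ≤ Fintype.card ι →
    ‖∑ A ∈ V.powerset, ∏ i ∈ S, χ i ((dd p A : ℕ) : ZMod (p i))‖ ≤
      2 ^ V.card * Real.exp (-(3 * (Fintype.card ι : ℝ) / 40))

/-- B2: equidistribution of `d_A`, `A ⊆ V`, modulo the primes of `S`. -/
def ClaimB2 : Prop :=
  ∀ (ι : Type) [Fintype ι] [DecidableEq ι] (p : ι → ℕ) [∀ i, Fact (p i).Prime] (h : ℕ)
    (V S : Finset ι) (c : ∀ i, (ZMod (p i))ˣ),
    Function.Injective p → Gap p h → Disjoint V S → S.card ≤ h →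
    10 * (Fintype.card ι - V.card) ≤ Fintype.card ι →
    |(((V.powerset.filter fun A => ∀ i ∈ S, ((dd p A : ℕ) : ZMod (p i)) = (c i : ZMod (p i))).card
        : ℝ)) * ∏ i ∈ S, ((p i : ℝ) - 1) - 2 ^ V.card| ≤
      2 ^ V.card * ((∏ i ∈ S, (p i : ℝ)) * Real.exp (-(3 * (Fintype.card ι : ℝ) / 40)))

/-- B3: small supports. -/
def ClaimB3 : Prop :=
  ∀ (ι : Type) [Fintype ι] [DecidableEq ι] (p : ι → ℕ) [∀ i, Fact (p i).Prime] (h : ℕ)
    (B I S : Finset ι) (χ : ∀ i, MulChar (ZMod (p i)) ℂ) (k : ∀ i, (ZMod (p i))ˣ),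
    Function.Injective p → Gap p h → I ⊆ B → Disjoint S I → (∀ i, i ∉ I → (i ∈ S ↔ χ i ≠ 1)) →
    (S ∩ B).Nonempty → S.card ≤ h → 10 * (S.card + B.card) ≤ Fintype.card ι →
    ‖SumF p B I χ k‖ * 2 ^ B.card ≤ 2 ^ Fintype.card ι *
      ((∏ i ∈ S, (p i : ℝ)) * Real.exp (-(3 * (Fintype.card ι : ℝ) / 40)))

/-- B4: comparison of the law of `(d_A mod p_i)` with the product of the weights. -/
def ClaimB4 : Prop :=
  ∀ (ι : Type) [Fintype ι] [DecidableEq ι] (p : ι → ℕ) [∀ i, Fact (p i).Prime] (h : ℕ)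
    (B I S : Finset ι) (x : ∀ i, ZMod (p i)),
    Function.Injective p → Gap p h → I ⊆ B → Disjoint S I → S.card ≤ h →
    10 * (S.card + B.card) ≤ Fintype.card ι →
    (((fib B I).filter fun A => ∀ i ∈ S, ((dd p A : ℕ) : ZMod (p i)) = x i).card : ℝ) ≤
      (1 + (∏ i ∈ S, (p i : ℝ)) * Real.exp (-(3 * (Fintype.card ι : ℝ) / 40))) *
        (fib B I).card * ∏ i ∈ S, omB p B i (x i)

/-- B5: the spectral gap from Weil's bound, for arguments `k j` that may coincide. -/
def ClaimB5 : Prop :=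
  ∀ (q : ℕ) [Fact q.Prime] (n : ℕ) (k : Fin n → (ZMod q)ˣ) (ψ : Fin n → MulChar (ZMod q) ℂ),
    1 ≤ n → 100 * n ^ 2 ≤ q →
    (∃ j0, ∏ j ∈ Finset.univ.filter (fun j => k j = k j0), ψ j ≠ 1) →
    ‖∑ x : (ZMod q)ˣ, ∏ j, evk (ψ j) (x : ZMod q) (k j)‖ ≤ ((q : ℝ) - 1) / 5

/-- B6: the moment of the correlation function at one prime. -/
def ClaimB6 : Prop :=
  ∀ (q : ℕ) [Fact q.Prime] (lam r s : ℕ) (t : Bool), 1 ≤ s → 1 ≤ lam → lam ∣ q - 1 →
    100 * (2 * s) ^ 2 ≤ q →
    ∑ x : Fin r → ZMod q, ∑ x' : Fin r → ZMod q,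
      (∏ j, (if t then om1 q (x j) else om0 q (x j))) *
      (∏ j, (if t then om1 q (x' j) else om0 q (x' j))) *
      (‖Yq q lam r x x'‖ / ((q : ℝ) - 1)) ^ (2 * s) ≤
    (2 * s : ℝ) ^ (2 * s) / (lam : ℝ) ^ s +
      (((q : ℝ) - 1) / lam) ^ (2 * s) * (3 / 5 : ℝ) ^ (2 * r)

/-- B7: the moment identity. -/
def ClaimB7 : Prop :=
  ∀ (ι : Type) [Fintype ι] [DecidableEq ι] (p : ι → ℕ) [∀ i, Fact (p i).Prime] (lam r : ℕ)
    (B I S : Finset ι),
    ((∑ ψ ∈ PF p lam S, ∑ k : (∀ i, (ZMod (p i))ˣ), ‖SumF p B I ψ k‖ ^ (2 * r) : ℝ) : ℂ) =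
      ∑ a ∈ Fintype.piFinset (fun _ : Fin r => fib B I),
        ∑ a' ∈ Fintype.piFinset (fun _ : Fin r => fib B I),
          (∏ i ∈ S, Yq (p i) lam r (fun j => ((dd p (a j) : ℕ) : ZMod (p i)))
            (fun j => ((dd p (a' j) : ℕ) : ZMod (p i)))) *
          ∏ i ∈ Sᶜ, ((p i : ℂ) - 1)

/-- B8: the block bound; `κ ^ (2 s)` bounds the moments at each prime. -/
def ClaimB8 : Prop :=
  ∀ (ι : Type) [Fintype ι] [DecidableEq ι] (p : ι → ℕ) [∀ i, Fact (p i).Prime]
    (lam r s h : ℕ) (B I S : Finset ι) (κ ε : ℝ),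
    Function.Injective p → Gap p h → I ⊆ B → Disjoint S I → 1 ≤ s → S.card ≤ 2 * s * h →
    10 * (h + B.card) ≤ Fintype.card ι → 0 < κ →
    (∀ T : Finset ι, T.card ≤ h →
      (∏ i ∈ T, (p i : ℝ)) * Real.exp (-(3 * (Fintype.card ι : ℝ) / 40)) ≤ ε) →
    (1 + ε) ^ (2 * r) ≤ 2 →
    (∀ i ∈ S, ∑ x : Fin r → ZMod (p i), ∑ x' : Fin r → ZMod (p i),
      (∏ j, omB p B i (x j)) * (∏ j, omB p B i (x' j)) *
      (‖Yq (p i) lam r x x'‖ / ((p i : ℝ) - 1)) ^ (2 * s) ≤ κ ^ (2 * s)) →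
    ∑ a ∈ Fintype.piFinset (fun _ : Fin r => fib B I),
      ∑ a' ∈ Fintype.piFinset (fun _ : Fin r => fib B I),
        ∏ i ∈ S, (‖Yq (p i) lam r (fun j => ((dd p (a j) : ℕ) : ZMod (p i)))
            (fun j => ((dd p (a' j) : ℕ) : ZMod (p i)))‖ / ((p i : ℝ) - 1)) ≤
      2 * κ ^ S.card * ((fib B I).card : ℝ) ^ (2 * r)

/-- B9: for fixed `B`, `I`, `S` the number of bad residue vectors. -/
def ClaimB9 : Prop :=
  ∀ (ι : Type) [Fintype ι] [DecidableEq ι] (p : ι → ℕ) [∀ i, Fact (p i).Prime]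
    (lam r m : ℕ) (B I S : Finset ι) (κ : ℝ), I ⊆ B → 0 < κ →
    (∑ a ∈ Fintype.piFinset (fun _ : Fin r => fib B I),
      ∑ a' ∈ Fintype.piFinset (fun _ : Fin r => fib B I),
        ∏ i ∈ S, (‖Yq (p i) lam r (fun j => ((dd p (a j) : ℕ) : ZMod (p i)))
            (fun j => ((dd p (a' j) : ℕ) : ZMod (p i)))‖ / ((p i : ℝ) - 1)) ≤
      2 * κ ^ S.card * ((fib B I).card : ℝ) ^ (2 * r)) →
    (Nat.card {k : ∀ i, (ZMod (p i))ˣ // ∃ ψ ∈ PF p lam S,
      (2 : ℝ) ^ Fintype.card ι < ‖SumF p B I ψ k‖ * 2 ^ m * 2 ^ B.card} : ℝ) ≤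
      2 * κ ^ S.card * 2 ^ (2 * r * m) * ∏ i, ((p i : ℝ) - 1)

/-- B10: union bound over `B`, `I`, `S` (pure counting). -/
def ClaimB10 : Prop :=
  ∀ (M m h : ℕ) (κ : ℝ), 0 < κ → 1 ≤ h → Real.exp 1 * M * κ / h ≤ 1 / 2 →
    ∑ B : Finset (Fin M), ∑ I ∈ B.powerset, ∑ S : Finset (Fin M),
      (if B.card ≤ m ∧ h < S.card then κ ^ S.card else 0) ≤
      (2 * M + 1 : ℝ) ^ m * (2 * (Real.exp 1 * M * κ / h) ^ h)

/-- B11: the numerical choice of the parameters `s`, `r`, `κ`. -/
def ClaimB11 : Prop :=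
  ∃ M0 : ℕ, ∀ M, M0 ≤ M → ∀ lam m : ℕ, (Real.log M) ^ 9 ≤ lam → lam ≤ M →
    (m : ℝ) * (Real.log M) ^ 4 ≤ M →
    1 ≤ h0 M ∧ 10 * (h0 M + m) ≤ M ∧
    (4 * (M : ℝ) ^ 20) ^ h0 M * Real.exp (-(3 * (M : ℝ) / 40)) ≤ Real.exp (-((M : ℝ) / 20)) ∧
    Real.exp (-((M : ℝ) / 20)) * 2 ^ m ≤ 1 ∧
    ∃ (s r : ℕ) (κ : ℝ), 1 ≤ s ∧ 0 < κ ∧ M ≤ 2 * s * h0 M ∧ 100 * (2 * s) ^ 2 ≤ M ^ 20 ∧
      (1 + Real.exp (-((M : ℝ) / 20))) ^ (2 * r) ≤ 2 ∧
      (∀ q : ℝ, M ^ 20 ≤ q → q ≤ 4 * M ^ 20 →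
        (2 * s : ℝ) ^ (2 * s) / (lam : ℝ) ^ s + ((q - 1) / lam) ^ (2 * s) * (3 / 5 : ℝ) ^ (2 * r) ≤
          κ ^ (2 * s)) ∧
      Real.exp 1 * M * κ / h0 M ≤ 1 / 2 ∧
      (2 * M + 1 : ℝ) ^ m * (2 * (Real.exp 1 * M * κ / h0 M) ^ h0 M) * (2 * 2 ^ (2 * r * m)) *
        (M : ℝ) ^ 10 ≤ 1

/-- Module B: for most residue vectors `k` the pseudorandomness property holds. -/
def ClaimB : Prop :=
  ∃ M0 : ℕ, ∀ M, M0 ≤ M → ∀ (lam m : ℕ) (p : Fin M → ℕ) [∀ i, Fact (p i).Prime],
    (Real.log M) ^ 9 ≤ lam → lam ≤ M → (m : ℝ) * (Real.log M) ^ 4 ≤ M → Primes M lam p →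
    Gap p (h0 M) →
    (Nat.card {k : ∀ i, (ZMod (p i))ˣ // ¬ PRv p lam m k} : ℝ) * (M : ℝ) ^ 10 ≤
      ∏ i, ((p i : ℝ) - 1)

/-- Module B, counted over the natural numbers. -/
def ClaimBcount : Prop :=
  ∃ M0 : ℕ, ∀ M, M0 ≤ M → ∀ (lam m : ℕ) (p : Fin M → ℕ) [∀ i, Fact (p i).Prime],
    (Real.log M) ^ 9 ≤ lam → lam ≤ M → (m : ℝ) * (Real.log M) ^ 4 ≤ M → Primes M lam p →
    Gap p (h0 M) → ∀ K : ℕ, ∏ i, p i ≤ K →
    (Nat.card {k : ℕ // k ∈ Ioc 0 K ∧ ∃ u : ∀ i, (ZMod (p i))ˣ,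
      (∀ i, (u i : ZMod (p i)) = (k : ZMod (p i))) ∧ ¬ PRv p lam m u} : ℝ) * (M : ℝ) ^ 10 ≤
      2 * K

end Pool.Agent.Work.MP_e0aece_nt.Sq

end

section

/-!
# A6: existence of a maximal state
-/

namespace Pool.Agent.Work.MP_e0aece_nt.Sq

open Finset

namespace ItemA6

/-- The numerical inequality `(1 - y / (2 J)) ^ J ≥ 2 ^ (-y)`. -/
theorem one_sub_pow {y J : ℕ} (hy : 1 ≤ y) (hyJ : 50 * y ≤ J) :
    1 ≤ (1 - (y : ℝ) / (2 * J)) ^ J * 2 ^ y := by
  have hy1 : (1 : ℝ) ≤ y := by exact_mod_cast hy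
  have hyJ' : (50 : ℝ) * y ≤ J := by exact_mod_cast hyJ
  have hJ : (0 : ℝ) < J := by linarith
  set κ : ℝ := (y : ℝ) / (2 * J) with hκ
  have hκ1 : κ ≤ 1 / 100 := by
    rw [hκ, div_le_div_iff₀ (by positivity) (by norm_num)]
    linarith
  have hx : 0 < 1 - κ := by linarith
  have hlog : 1 - (1 - κ)⁻¹ ≤ Real.log (1 - κ) := Real.one_sub_inv_le_log_of_pos hx
  have hJκ : (J : ℝ) * κ = y / 2 := by
    rw [hκ]
    field_simp
  have h1 : -(y : ℝ) * Real.log 2 ≤ J * Real.log (1 - κ) := by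
    have h2 : (J : ℝ) * (1 - (1 - κ)⁻¹) = -(y / 2) * (1 - κ)⁻¹ := by
      have : (1 : ℝ) - (1 - κ)⁻¹ = -κ * (1 - κ)⁻¹ := by
        field_simp
        ring
      rw [this, ← hJκ]
      ring
    have h3 : (1 - κ)⁻¹ ≤ 100 / 99 := by
      rw [inv_le_comm₀ hx (by norm_num)]
      norm_num
      linarith
    have h4 := Real.log_two_gt_d9
    calc -(y : ℝ) * Real.log 2 ≤ -(y / 2) * (100 / 99) := by nlinarith
      _ ≤ -(y / 2) * (1 - κ)⁻¹ := by nlinarith
      _ = (J : ℝ) * (1 - (1 - κ)⁻¹) := h2.symm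
      _ ≤ _ := by gcongr
  have h2 : (1 - κ) ^ J = Real.exp (J * Real.log (1 - κ)) := by
    rw [Real.exp_nat_mul, Real.exp_log hx]
  have h3 : (2 : ℝ) ^ y = Real.exp (y * Real.log 2) := by
    rw [Real.exp_nat_mul, Real.exp_log (by norm_num)]
  rw [h2, h3, ← Real.exp_add]
  apply Real.one_le_exp
  linarith

theorem kappa_bounds {y J : ℕ} (hy : 1 ≤ y) (hyJ : 50 * y ≤ J) :
    0 < 1 - (y : ℝ) / (2 * J) ∧ 1 - (y : ℝ) / (2 * J) ≤ 1 := by
  have hy1 : (1 : ℝ) ≤ y := by exact_mod_cast hy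
  have hyJ' : (50 : ℝ) * y ≤ J := by exact_mod_cast hyJ
  have hJ : (0 : ℝ) < J := by linarith
  constructor
  · rw [sub_pos, div_lt_one (by positivity)]
    linarith
  · have : 0 ≤ (y : ℝ) / (2 * J) := by positivity
    linarith

section

variable {ι : Type} [Fintype ι] [DecidableEq ι] {H : ι → Type} [∀ i, AddCommGroup (H i)]
  [∀ i, Fintype (H i)]

theorem card_tors_le (g : Finset ι → ∀ i, H i) (lam J : ℕ) (w : Finset ι → ℝ) (j : ℕ)
    (hH : ((∏ i, Fintype.card (H i) : ℕ) : ℝ) ≤ 2 ^ J)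
    (h : 2 ^ j ≤ Nat.card (torsConst g lam w)) : j ≤ J := by
  classical
  have h1 : Nat.card (torsConst g lam w) ≤ Nat.card (∀ i, AddChar (H i) ℂ) :=
    Nat.card_le_card_of_injective (Subtype.val) Subtype.val_injective
  have h2 : Nat.card (∀ i, AddChar (H i) ℂ) = ∏ i, Fintype.card (H i) := by
    rw [Nat.card_eq_fintype_card, Fintype.card_pi]
    exact prod_congr rfl fun i _ => AddChar.card_eq
  have h3 : (2 : ℝ) ^ j ≤ 2 ^ J := by
    refine le_trans ?_ hH
    rw [h2] at h1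
    exact_mod_cast h.trans h1
  exact (pow_le_pow_iff_right₀ (by norm_num : (1 : ℝ) < 2)).1 h3

theorem card_le (hA2 : ClaimA2) {g : Finset ι → ∀ i, H i} {lam y J m : ℕ}
    {C : Finset (Finset ι)} {B I : Finset ι} {w : Finset ι → ℝ} {j : ℕ} (hy : 1 ≤ y)
    (hyJ : 50 * y ≤ J) (hPR : PR g lam m)
    (hSt : St g lam y J C B I w j) (hB : B.card ≤ m) (hj : j ≤ J) :
    B.card ≤ 8 * y + 3 := by
  obtain ⟨hIB, ⟨F, D, hD, hExp, hF, hw⟩, hsupp, hineq, htors⟩ := hSt
  obtain ⟨hκ0, hκ1⟩ := kappa_bounds hy hyJ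
  have h1 := hA2 ι H g lam m D B I F hPR hIB hB (hD.trans hB) hExp
  have h2 : ∑ A, w A ≤ ∑ A ∈ fib B I, F A := by
    have h3 : ∑ A, w A = ∑ A ∈ fib B I, w A := by
      symm
      apply sum_subset (subset_univ _)
      intro A _ hA
      by_contra hne
      exact hA (ItemA2.mem_fib.2 (hsupp A hne).2)
    rw [h3]
    exact sum_le_sum fun A _ => (hw A).2
  have h2n : (0 : ℝ) < 2 ^ Fintype.card ι := by positivity
  have h2y : (0 : ℝ) < 2 ^ y := by positivity
  have hpow : (1 - (y : ℝ) / (2 * J)) ^ J ≤ (1 - (y : ℝ) / (2 * J)) ^ j :=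
    pow_le_pow_of_le_one hκ0.le hκ1 hj
  have h4 : (2 : ℝ) ^ Fintype.card ι * ((6 / 5) ^ B.card * (1 - y / (2 * J)) ^ j) ≤
      2 ^ Fintype.card ι * (2 * 2 ^ y) := by
    calc (2 : ℝ) ^ Fintype.card ι * ((6 / 5) ^ B.card * (1 - y / (2 * J)) ^ j)
        = (2 : ℝ) ^ Fintype.card ι * (6 / 5) ^ B.card * (1 - y / (2 * J)) ^ j := by ring
      _ ≤ (∑ A, w A) * 2 ^ B.card * 2 ^ y := hineq
      _ ≤ (∑ A ∈ fib B I, F A) * 2 ^ B.card * 2 ^ y := by gcongr
      _ ≤ (2 * 2 ^ Fintype.card ι) * 2 ^ y := by gcongr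
      _ = _ := by ring
  have h5 : (6 / 5 : ℝ) ^ B.card * (1 - y / (2 * J)) ^ j ≤ 2 * 2 ^ y :=
    le_of_mul_le_mul_left h4 h2n
  have h6 : (6 / 5 : ℝ) ^ B.card ≤ 2 * 2 ^ y * 2 ^ y := by
    have h7 := one_sub_pow hy hyJ
    calc (6 / 5 : ℝ) ^ B.card = (6 / 5 : ℝ) ^ B.card * 1 := by ring
      _ ≤ (6 / 5 : ℝ) ^ B.card * ((1 - (y : ℝ) / (2 * J)) ^ J * 2 ^ y) := by gcongr
      _ ≤ (6 / 5 : ℝ) ^ B.card * ((1 - (y : ℝ) / (2 * J)) ^ j * 2 ^ y) := by gcongr
      _ = ((6 / 5 : ℝ) ^ B.card * (1 - (y : ℝ) / (2 * J)) ^ j) * 2 ^ y := by ring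
      _ ≤ _ := by gcongr
  by_contra hcon
  have hcon' : 8 * y + 4 ≤ B.card := by omega
  have h8 : (6 / 5 : ℝ) ^ (8 * y + 4) ≤ (6 / 5 : ℝ) ^ B.card :=
    pow_le_pow_right₀ (by norm_num) hcon'
  have h9 : (6 / 5 : ℝ) ^ (8 * y + 4) = ((6 / 5 : ℝ) ^ 8) ^ y * (6 / 5) ^ 4 := by
    rw [pow_add, pow_mul]
  have h10 : (4 : ℝ) ^ y ≤ ((6 / 5 : ℝ) ^ 8) ^ y := by
    gcongr
    norm_num
  have h11 : (2 : ℝ) * 2 ^ y * 2 ^ y = 4 ^ y * 2 := by
    have : (4 : ℝ) ^ y = 2 ^ y * 2 ^ y := by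
      rw [← mul_pow]
      norm_num
    rw [this]
    ring
  have h12 : (4 : ℝ) ^ y * 2 < ((6 / 5 : ℝ) ^ 8) ^ y * (6 / 5) ^ 4 := by
    have h13 : (0 : ℝ) < 4 ^ y := by positivity
    have h14 : (2 : ℝ) < (6 / 5) ^ 4 := by norm_num
    calc (4 : ℝ) ^ y * 2 < 4 ^ y * (6 / 5) ^ 4 := by gcongr
      _ ≤ _ := by gcongr
  rw [h11] at h6
  rw [h9] at h8
  exact absurd (h12.trans_le (h8.trans h6)) (lt_irrefl _)

theorem initial (g : Finset ι → ∀ i, H i) (lam y J : ℕ) (C : Finset (Finset ι))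
    (hC : 2 ^ Fintype.card ι ≤ C.card * 2 ^ y) :
    St g lam y J C ∅ ∅ (fun A => if A ∈ C then 1 else 0) 0 := by
  refine ⟨Subset.refl _, ⟨fun _ => 1, 0, le_rfl, ⟨0, Fin.elim0, fun t => t.elim0,
    fun t => t.elim0, by simp, by simp⟩, by simp, ?_⟩, ?_, ?_, ?_⟩
  · intro A
    by_cases h : A ∈ C <;> simp [h]
  · intro A hA
    refine ⟨?_, by simp⟩
    by_contra h
    simp [h] at hA
  · simp only [card_empty, pow_zero, mul_one, sum_ite_mem, univ_inter, sum_const, nsmul_eq_mul]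
    exact_mod_cast hC
  · rw [pow_zero]
    have : Nonempty (torsConst g lam (fun A => if A ∈ C then (1 : ℝ) else 0)) := by
      refine ⟨⟨1, fun i => by simp, fun A A' _ _ => ?_⟩⟩
      simp [ev]
    exact Nat.card_pos

end

end ItemA6

open ItemA6 in
theorem claimA6 (hA2 : ClaimA2) (hA4 : ClaimA4) (hA5 : ClaimA5) : ClaimA6 := by
  classical
  intro ι _ _ H _ _ g lam y J m C hlam hy hyJ hm hPR hH hC
  set K : Set ℕ := {k | ∃ (B I : Finset ι) (w : Finset ι → ℝ) (j : ℕ), B.card ≤ m ∧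
    St g lam y J C B I w j ∧ B.card + j = k} with hK
  have hne : K.Nonempty := ⟨0, ∅, ∅, _, 0, by simp, initial g lam y J C hC, by simp⟩
  have hbd : BddAbove K := by
    refine ⟨m + J, ?_⟩
    rintro k ⟨B, I, w, j, hB, hSt, rfl⟩
    have := card_tors_le g lam J w j hH hSt.2.2.2.2
    omega
  obtain ⟨B, I, w, j, hB, hSt, hk⟩ := Nat.sSup_mem hne hbd
  have hmax : ∀ (B' I' : Finset ι) (w' : Finset ι → ℝ) (j' : ℕ), B'.card ≤ m →
      St g lam y J C B' I' w' j' → B'.card + j' ≤ B.card + j := by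
    intro B' I' w' j' hB' hSt'
    rw [hk]
    exact le_csSup hbd ⟨B', I', w', j', hB', hSt', rfl⟩
  have hj : j ≤ J := card_tors_le g lam J w j hH hSt.2.2.2.2
  have hBy := card_le hA2 hy hyJ hPR hSt hB hj
  have hB1 : B.card + 1 ≤ m := by omega
  refine ⟨B, I, w, j, hB1, hj, hSt, ?_, ?_, ?_⟩
  · obtain ⟨hκ0, _⟩ := kappa_bounds hy hyJ
    have h1 := hSt.2.2.2.1
    have h2 : 0 < (2 : ℝ) ^ Fintype.card ι * (6 / 5) ^ B.card * (1 - y / (2 * J)) ^ j := by
      positivity
    have h3 : 0 < (∑ A, w A) * (2 ^ B.card * 2 ^ y) := by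
      rw [← mul_assoc]
      exact h2.trans_le h1
    exact pos_of_mul_pos_left h3 (by positivity)
  · intro φ h1 h2
    by_contra h3
    obtain ⟨B', I', w', hB', hSt'⟩ := hA4 ι H g lam y J C B I w j φ hy hyJ hSt hj h1 h2
      (not_le.1 h3)
    have := hmax B' I' w' j (by omega) hSt'
    omega
  · intro χ ζ h1 h2
    by_contra h3
    obtain ⟨w', hSt'⟩ := hA5 ι H g lam y J C B I w j χ ζ hy hyJ hSt h1 h2 (not_le.1 h3).le
    have := hmax B I w' (j + 1) hB hSt'
    omega

end Pool.Agent.Work.MP_e0aece_nt.Sq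

end

section

/-!
Item B0: a nontrivial character has mean zero along `x ↦ u x + 1` on the units.
-/

namespace Pool.Agent.Work.MP_e0aece_nt.Sq

open Finset

namespace ItemB0

/-- Sums over the units as sums over the nonzero elements. -/
theorem sum_units {q : ℕ} [Fact q.Prime] (f : ZMod q → ℂ) :
    ∑ c : (ZMod q)ˣ, f (c : ZMod q) = ∑ t ∈ Finset.univ.erase (0 : ZMod q), f t := by
  refine Finset.sum_bij (fun c _ => (c : ZMod q)) ?_ ?_ ?_ ?_
  · intro c _
    simp
  · intro a _ b _ h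
    exact Units.ext h
  · intro t ht
    have ht0 : t ≠ 0 := (Finset.mem_erase.mp ht).1
    exact ⟨Units.mk0 t ht0, Finset.mem_univ _, rfl⟩
  · intro c _
    rfl

theorem ures_of_ne {q : ℕ} [Fact q.Prime] {x : ZMod q} (hx : x ≠ 0) :
    ((ures x : (ZMod q)ˣ) : ZMod q) = x := by
  unfold ures
  simp [hx]

theorem ures_zero {q : ℕ} [Fact q.Prime] : ((ures (0 : ZMod q) : (ZMod q)ˣ) : ZMod q) = 1 := by
  unfold ures
  simp

end ItemB0

open ItemB0

theorem claimB0 : ClaimB0 := by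
  intro q _ χ u hχ
  have h1 : ∑ c : (ZMod q)ˣ, evk χ ((u : ZMod q) * (c : ZMod q)) 1
      = ∑ c : (ZMod q)ˣ, evk χ (c : ZMod q) 1 := by
    refine Fintype.sum_equiv (Equiv.mulLeft u) _ _ ?_
    intro c
    simp [Equiv.mulLeft]
  rw [h1, sum_units (fun t => evk χ t 1)]
  have h2 : ∑ t ∈ Finset.univ.erase (0 : ZMod q), evk χ t 1
      = (∑ t : ZMod q, evk χ t 1) - evk χ 0 1 := by
    rw [Finset.sum_erase_eq_sub (Finset.mem_univ _)]
  rw [h2]
  have h3 : ∑ t : ZMod q, evk χ t 1 = ∑ t : ZMod q, χ (ures t : ZMod q) := by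
    refine Fintype.sum_equiv (Equiv.addRight (1 : ZMod q)) _ _ ?_
    intro t
    simp [evk]
  have h4 : ∑ t : ZMod q, χ (ures t : ZMod q) = 1 := by
    have h5 : ∑ t : ZMod q, χ (ures t : ZMod q)
        = ∑ t ∈ Finset.univ.erase (0 : ZMod q), χ (ures t : ZMod q) + χ (ures (0 : ZMod q) : ZMod q) := by
      rw [Finset.sum_erase_add _ _ (Finset.mem_univ _)]
    rw [h5, ures_zero, map_one]
    have h6 : ∑ t ∈ Finset.univ.erase (0 : ZMod q), χ (ures t : ZMod q)
        = ∑ t ∈ Finset.univ.erase (0 : ZMod q), χ t := by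
      refine Finset.sum_congr rfl fun t ht => ?_
      rw [ures_of_ne (Finset.mem_erase.mp ht).1]
    rw [h6]
    have h7 : ∑ t ∈ Finset.univ.erase (0 : ZMod q), χ t = ∑ t : ZMod q, χ t := by
      rw [Finset.sum_erase]
      exact MulChar.map_zero χ
    rw [h7, MulChar.sum_eq_zero_of_ne_one hχ, zero_add]
  rw [h3, h4]
  have h8 : evk χ (0 : ZMod q) 1 = 1 := by
    unfold evk
    rw [zero_mul, zero_add, ures_of_ne one_ne_zero, map_one]
  rw [h8, sub_self]

end Pool.Agent.Work.MP_e0aece_nt.Sq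

end

section

/-!
# B1: character sums over the subsets of `V`
-/

set_option autoImplicit false

namespace Pool.Agent.Work.MP_e0aece_nt.Sq

open Finset

namespace ItemB1

theorem norm_one_add (z : ℂ) (hz : ‖z‖ ≤ 1) : ‖1 + z‖ ≤ 2 * Real.exp (-(1 - z.re) / 4) := by
  have h1 : ‖1 + z‖ ^ 2 ≤ 2 + 2 * z.re := by
    have h2 : ‖1 + z‖ ^ 2 = 1 + 2 * z.re + ‖z‖ ^ 2 := by
      rw [← Complex.normSq_eq_norm_sq, ← Complex.normSq_eq_norm_sq, Complex.normSq_apply,
        Complex.normSq_apply]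
      simp only [Complex.add_re, Complex.one_re, Complex.add_im, Complex.one_im]
      ring
    rw [h2]
    nlinarith [norm_nonneg z]
  have h3 : (1 + z.re) / 2 ≤ Real.exp ((1 + z.re) / 2 - 1) := by
    have := Real.add_one_le_exp ((1 + z.re) / 2 - 1)
    linarith
  have h4 : (2 * Real.exp (-(1 - z.re) / 4)) ^ 2 = 4 * Real.exp ((1 + z.re) / 2 - 1) := by
    rw [mul_pow, ← Real.exp_nat_mul]
    norm_num
    ring
  rw [← pow_le_pow_iff_left₀ (norm_nonneg _) (by positivity) two_ne_zero, h4]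
  linarith

end ItemB1

open ItemB1 in
theorem claimB1 : ClaimB1 := by
  intro ι _ _ p _ h V S χ hgap _ hS hSh hχ hV
  set ξ : ι → ℂ := fun v => ∏ i ∈ S, χ i ((p v : ℕ) : ZMod (p i)) with hξ
  have hprod : ∑ A ∈ V.powerset, ∏ i ∈ S, χ i ((dd p A : ℕ) : ZMod (p i)) =
      ∏ v ∈ V, (1 + ξ v) := by
    rw [Finset.prod_one_add]
    refine Finset.sum_congr rfl fun A _ => ?_
    simp only [hξ]
    rw [Finset.prod_comm]
    refine Finset.prod_congr rfl fun i _ => ?_
    unfold dd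
    rw [Nat.cast_prod, map_prod]
  have hnorm : ∀ v, ‖ξ v‖ ≤ 1 := by
    intro v
    simp only [hξ]
    rw [norm_prod]
    exact Finset.prod_le_one (fun i _ => norm_nonneg _)
      (fun i _ => DirichletCharacter.norm_le_one (χ i) _)
  rw [hprod, norm_prod]
  have h1 : ∏ v ∈ V, ‖1 + ξ v‖ ≤ ∏ v ∈ V, (2 * Real.exp (-(1 - (ξ v).re) / 4)) :=
    Finset.prod_le_prod (fun v _ => norm_nonneg _) (fun v _ => norm_one_add _ (hnorm v))
  refine h1.trans ?_
  rw [Finset.prod_mul_distrib, Finset.prod_const, ← Real.exp_sum]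
  refine mul_le_mul_of_nonneg_left (Real.exp_le_exp.2 ?_) (by positivity)
  -- the sum of the real parts
  have h2 := hgap S hS hSh χ hχ
  have h3 : (∑ j, ∏ i ∈ S, χ i ((p j : ℕ) : ZMod (p i))).re = ∑ v ∈ V, (ξ v).re +
      ∑ v ∈ Vᶜ, (ξ v).re := by
    rw [Complex.re_sum, Finset.sum_add_sum_compl]
  have h4 : -((Vᶜ.card : ℝ)) ≤ ∑ v ∈ Vᶜ, (ξ v).re := by
    have h5 : ∑ v ∈ Vᶜ, (-1 : ℝ) ≤ ∑ v ∈ Vᶜ, (ξ v).re := by
      refine Finset.sum_le_sum fun v _ => ?_
      have := (abs_le.1 ((Complex.abs_re_le_norm (ξ v)).trans (hnorm v))).1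
      exact this
    simpa using h5
  have h6 : (Vᶜ.card : ℝ) = Fintype.card ι - V.card := by
    rw [Finset.card_compl, Nat.cast_sub (Finset.card_le_univ V)]
  have h7 : (Fintype.card ι : ℝ) * 9 ≤ 10 * V.card := by
    have h8 : Fintype.card ι * 9 ≤ 10 * V.card := by
      have := Finset.card_le_univ V
      omega
    exact_mod_cast h8
  have h9 : ∑ v ∈ V, -(1 - (ξ v).re) / 4 = -((V.card : ℝ) - ∑ v ∈ V, (ξ v).re) / 4 := by
    rw [← Finset.sum_div, Finset.sum_neg_distrib, Finset.sum_sub_distrib]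
    simp
  rw [h9]
  rw [h3] at h2
  linarith

end Pool.Agent.Work.MP_e0aece_nt.Sq

end

section

/-!
# Item B10: union bound over `B`, `I`, `S`
-/

namespace Pool.Agent.Work.MP_e0aece_nt.Sq

open Finset

namespace ItemB10

theorem sum_card (M : ℕ) (f : ℕ → ℝ) :
    ∑ B : Finset (Fin M), f B.card = ∑ b ∈ range (M + 1), (M.choose b : ℝ) * f b := by
  have h := Finset.sum_powerset_apply_card f (x := (Finset.univ : Finset (Fin M)))
  rw [Finset.powerset_univ, Finset.card_univ, Fintype.card_fin] at h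
  rw [h]
  exact Finset.sum_congr rfl fun b _ => by rw [nsmul_eq_mul]

theorem choose_le_pow (M b : ℕ) : (M.choose b : ℝ) ≤ (M : ℝ) ^ b / (b.factorial : ℝ) :=
  Nat.choose_le_pow_div b M

theorem first (M m : ℕ) :
    ∑ B : Finset (Fin M), (if B.card ≤ m then (2 : ℝ) ^ B.card else 0) ≤
      (2 * M + 1 : ℝ) ^ m := by
  have h1 := sum_card M fun b => if b ≤ m then (2 : ℝ) ^ b else 0
  rw [h1]
  calc ∑ b ∈ range (M + 1), (M.choose b : ℝ) * (if b ≤ m then (2 : ℝ) ^ b else 0)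
      = ∑ b ∈ (range (M + 1)).filter (· ≤ m), (M.choose b : ℝ) * (2 : ℝ) ^ b := by
        rw [Finset.sum_filter]
        refine Finset.sum_congr rfl fun b _ => ?_
        split_ifs
        · rfl
        · rw [mul_zero]
    _ ≤ ∑ b ∈ (range (M + 1)).filter (· ≤ m), (2 * M : ℝ) ^ b * 1 ^ (m - b) * (m.choose b : ℝ) := by
        refine Finset.sum_le_sum fun b hb => ?_
        rw [mem_filter] at hb
        have h2 : (M.choose b : ℝ) ≤ (M : ℝ) ^ b := by
          refine (choose_le_pow M b).trans (div_le_self (by positivity) ?_)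
          exact_mod_cast Nat.factorial_pos b
        have h3 : (1 : ℝ) ≤ (m.choose b : ℝ) := by exact_mod_cast Nat.choose_pos hb.2
        have h4 : (2 * M : ℝ) ^ b * 1 ^ (m - b) * (m.choose b : ℝ) =
            ((M : ℝ) ^ b * 2 ^ b) * (m.choose b : ℝ) := by
          rw [one_pow, mul_one, mul_pow]
          ring
        rw [h4]
        have h5 : (M.choose b : ℝ) * (2 : ℝ) ^ b ≤ (M : ℝ) ^ b * 2 ^ b :=
          mul_le_mul_of_nonneg_right h2 (by positivity)
        have h6 : 0 ≤ (M : ℝ) ^ b * 2 ^ b := by positivity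
        nlinarith
    _ ≤ ∑ b ∈ range (m + 1), (2 * M : ℝ) ^ b * 1 ^ (m - b) * (m.choose b : ℝ) := by
        refine Finset.sum_le_sum_of_subset_of_nonneg ?_ fun b _ _ => by positivity
        intro b hb
        rw [mem_filter] at hb
        rw [mem_range]
        omega
    _ = (2 * M + 1 : ℝ) ^ m := (add_pow _ _ _).symm

theorem second (M h : ℕ) (κ : ℝ) (hκ : 0 < κ) (hh : 1 ≤ h)
    (hr : Real.exp 1 * M * κ / h ≤ 1 / 2) :
    ∑ S : Finset (Fin M), (if h < S.card then κ ^ S.card else 0) ≤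
      2 * (Real.exp 1 * M * κ / h) ^ h := by
  have h0 : (0 : ℝ) < h := by exact_mod_cast hh
  obtain ⟨ρ, hρ⟩ : ∃ ρ, ρ = Real.exp 1 * M * κ / h := ⟨_, rfl⟩
  have hρ0 : 0 ≤ ρ := by rw [hρ]; positivity
  have hρ1 : ρ ≤ 1 / 2 := by rw [hρ]; exact hr
  rw [← hρ]
  have h1 := sum_card M fun b => if h < b then κ ^ b else 0
  rw [h1]
  calc ∑ b ∈ range (M + 1), (M.choose b : ℝ) * (if h < b then κ ^ b else 0)
      = ∑ b ∈ (range (M + 1)).filter (h < ·), (M.choose b : ℝ) * κ ^ b := by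
        rw [Finset.sum_filter]
        refine Finset.sum_congr rfl fun b _ => ?_
        split_ifs
        · rfl
        · rw [mul_zero]
    _ ≤ ∑ b ∈ (range (M + 1)).filter (h < ·), ρ ^ b := by
        refine Finset.sum_le_sum fun b hb => ?_
        rw [mem_filter] at hb
        have hb0 : (0 : ℝ) < b := by exact_mod_cast (by omega : 0 < b)
        have hhb : (h : ℝ) ≤ b := by exact_mod_cast hb.2.le
        have h2 := Real.pow_div_factorial_le_exp (b : ℝ) hb0.le b
        have hf : (0 : ℝ) < (b.factorial : ℝ) := by exact_mod_cast Nat.factorial_pos b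
        have h3 : 1 / (b.factorial : ℝ) ≤ Real.exp b / (b : ℝ) ^ b := by
          rw [div_le_div_iff₀ hf (by positivity)]
          rw [div_le_iff₀ hf] at h2
          linarith
        have h4 : Real.exp b = Real.exp 1 ^ b := by
          rw [← Real.exp_nat_mul, mul_one]
        calc (M.choose b : ℝ) * κ ^ b ≤ ((M : ℝ) ^ b / (b.factorial : ℝ)) * κ ^ b :=
              mul_le_mul_of_nonneg_right (choose_le_pow M b) (by positivity)
          _ = ((M : ℝ) ^ b * κ ^ b) * (1 / (b.factorial : ℝ)) := by ring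
          _ ≤ ((M : ℝ) ^ b * κ ^ b) * (Real.exp b / (b : ℝ) ^ b) :=
              mul_le_mul_of_nonneg_left h3 (by positivity)
          _ = (Real.exp 1 * M * κ / b) ^ b := by
              rw [h4, div_pow, mul_pow, mul_pow]
              ring
          _ ≤ (Real.exp 1 * M * κ / h) ^ b := by
              refine pow_le_pow_left₀ (by positivity) ?_ b
              exact div_le_div_of_nonneg_left (by positivity) h0 hhb
          _ = ρ ^ b := by rw [hρ]
    _ = ∑ b ∈ Ico (h + 1) (M + 1), ρ ^ b := by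
        congr 1
        ext b
        rw [mem_filter, mem_range, mem_Ico]
        omega
    _ ≤ ρ ^ (h + 1) / (1 - ρ) := geom_sum_Ico_le_of_lt_one hρ0 (by linarith)
    _ ≤ 2 * ρ ^ h := by
        rw [div_le_iff₀ (by linarith), pow_succ]
        have : 0 ≤ ρ ^ h := by positivity
        nlinarith

end ItemB10

open ItemB10 in
theorem claimB10 : ClaimB10 := by
  intro M m h κ hκ hh hr
  have e : ∑ B : Finset (Fin M), ∑ I ∈ B.powerset, ∑ S : Finset (Fin M),
      (if B.card ≤ m ∧ h < S.card then κ ^ S.card else 0) =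
      (∑ B : Finset (Fin M), (if B.card ≤ m then (2 : ℝ) ^ B.card else 0)) *
        ∑ S : Finset (Fin M), (if h < S.card then κ ^ S.card else 0) := by
    rw [Finset.sum_mul]
    refine Finset.sum_congr rfl fun B _ => ?_
    rw [Finset.sum_const, Finset.card_powerset, nsmul_eq_mul, Nat.cast_pow, Nat.cast_ofNat]
    split_ifs with hB
    · congr 1
      refine Finset.sum_congr rfl fun S _ => ?_
      by_cases hS : h < S.card
      · rw [if_pos ⟨hB, hS⟩, if_pos hS]
      · rw [if_neg (fun hc => hS hc.2), if_neg hS]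
    · rw [zero_mul]
      have : ∑ S : Finset (Fin M), (if B.card ≤ m ∧ h < S.card then κ ^ S.card else 0) = 0 :=
        Finset.sum_eq_zero fun S _ => if_neg fun hc => hB hc.1
      rw [this, mul_zero]
  rw [e]
  have h1 := first M m
  have h2 := second M h κ hκ hh hr
  refine mul_le_mul h1 h2 ?_ (by positivity)
  exact Finset.sum_nonneg fun S _ => by split_ifs <;> positivity

end Pool.Agent.Work.MP_e0aece_nt.Sq

end

section

/-!
Item B11: the numerical choice of the parameters `s`, `r`, `κ`.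
-/

namespace Pool.Agent.Work.MP_e0aece_nt.Sq.ItemB11

open Finset

/-- For large `M` the logarithm is large and its powers are small compared with `M`. -/
theorem big (K : ℝ) (d : ℕ) : ∃ M0 : ℕ, ∀ M : ℕ, M0 ≤ M →
    K ≤ Real.log M ∧ (Real.log M) ^ d ≤ M := by
  have h1 := Real.tendsto_log_atTop.eventually_ge_atTop K
  have h2 : ∀ᶠ x : ℝ in Filter.atTop, (Real.log x) ^ d ≤ x := by
    have h3 := (Real.isLittleO_pow_log_id_atTop (n := d)).bound (show (0 : ℝ) < 1 by norm_num)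
    filter_upwards [h3, Filter.eventually_ge_atTop (1 : ℝ)] with x hx hx1
    simp only [id, one_mul, Real.norm_eq_abs] at hx
    calc (Real.log x) ^ d ≤ |(Real.log x) ^ d| := le_abs_self _
      _ ≤ |x| := hx
      _ = x := abs_of_nonneg (by linarith)
  have h4 := (tendsto_natCast_atTop_atTop (R := ℝ)).eventually (h1.and h2)
  obtain ⟨M0, hM0⟩ := Filter.eventually_atTop.mp h4
  exact ⟨M0, hM0⟩

theorem exp_one_le : Real.exp 1 ≤ 25 / 9 := by
  have := Real.exp_one_lt_d9
  linarith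

theorem two_le_exp : (2 : ℝ) ≤ Real.exp 1 := by
  have := Real.exp_one_gt_d9
  linarith

theorem exp_half_le : Real.exp (1 / 2) ≤ 2 := by
  have h4 : Real.exp (1 / 2) * Real.exp (1 / 2) = Real.exp 1 := by
    rw [← Real.exp_add]
    norm_num
  have h5 := exp_one_le
  by_contra hcon
  push Not at hcon
  nlinarith

end Pool.Agent.Work.MP_e0aece_nt.Sq.ItemB11

namespace Pool.Agent.Work.MP_e0aece_nt.Sq

open Finset ItemB11

theorem claimB11 : ClaimB11 := by
  obtain ⟨M0, hM0⟩ := big (10 ^ 10) 3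
  refine ⟨M0, fun M hM lam m hlam hlamM hm => ?_⟩
  obtain ⟨hl, hl3⟩ := hM0 M hM
  obtain ⟨l, hldef⟩ : ∃ l, l = Real.log M := ⟨_, rfl⟩
  rw [← hldef] at hl hl3 hlam hm
  have hl0 : 0 < l := by linarith
  have hMpos : (0 : ℝ) < M := by
    have : 0 < l ^ 3 := by positivity
    linarith
  have hMexp : (M : ℝ) = Real.exp l := by rw [hldef, Real.exp_log hMpos]
  obtain ⟨x, hx⟩ : ∃ x : ℝ, x = M := ⟨_, rfl⟩
  rw [← hx] at hMpos hMexp hl3 hm
  have hl2 : 10 ^ 10 * l ^ 2 ≤ x := by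
    have h1 : 10 ^ 10 * l ^ 2 ≤ l * l ^ 2 := mul_le_mul_of_nonneg_right hl (by positivity)
    have h2 : l * l ^ 2 = l ^ 3 := by ring
    linarith
  have hll : 10 ^ 10 * l ≤ l ^ 2 := by
    have := mul_le_mul_of_nonneg_right hl hl0.le
    linarith
  have hl20 : 10 ^ 20 ≤ l ^ 2 := by linarith
  have hl1 : 10 ^ 20 * l ≤ x := by linarith
  have hx1 : 10 ^ 30 ≤ x := by linarith
  -- h0
  obtain ⟨h, hh⟩ : ∃ h, h = h0 M := ⟨_, rfl⟩
  rw [← hh]
  have hh' : h = ⌊x / (3000 * l)⌋₊ := by rw [hh, h0, hx, hldef]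
  have hhu : (h : ℝ) * (3000 * l) ≤ x := by
    have h1 : (h : ℝ) ≤ x / (3000 * l) := by
      rw [hh']
      exact Nat.floor_le (by positivity)
    rwa [le_div_iff₀ (by positivity)] at h1
  have hhl : x ≤ (h : ℝ) * (3001 * l) := by
    have h1 : x / (3000 * l) < (h : ℝ) + 1 := by
      rw [hh']
      exact Nat.lt_floor_add_one _
    rw [div_lt_iff₀ (by positivity)] at h1
    linarith
  have hh1 : 1 ≤ h := by
    by_contra hcon
    have : h = 0 := by omega
    rw [this] at hhl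
    simp at hhl
    linarith
  have hh1' : (1 : ℝ) ≤ h := by exact_mod_cast hh1
  -- m
  have hm0 : (0 : ℝ) ≤ m := by positivity
  have hl4 : (10 : ℝ) ^ 40 ≤ l ^ 4 := by
    have := pow_le_pow_left₀ (by positivity) hl 4
    calc (10 : ℝ) ^ 40 = (10 ^ 10) ^ 4 := by norm_num
      _ ≤ l ^ 4 := this
  have hmx : (m : ℝ) * 10 ^ 40 ≤ x := by
    have := mul_le_mul_of_nonneg_left hl4 hm0
    linarith
  have hhx : (h : ℝ) * (3 * 10 ^ 13) ≤ x := by
    have := mul_le_mul_of_nonneg_left hl (show (0 : ℝ) ≤ h by positivity)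
    linarith
  -- exponential form of 4 x^20
  have hx20 : (4 : ℝ) * x ^ 20 ≤ Real.exp (21 * l) := by
    have h1 : (4 : ℝ) ≤ Real.exp l := by
      have := Real.add_one_le_exp l
      linarith
    have h2 : Real.exp (21 * l) = Real.exp l * Real.exp l ^ 20 := by
      rw [← pow_succ', ← Real.exp_nat_mul]
      norm_num
    rw [h2, hMexp]
    exact mul_le_mul_of_nonneg_right h1 (by positivity)
  refine ⟨hh1, ?_, ?_, ?_, ?_⟩
  · have : (10 * (h + m) : ℝ) ≤ x := by linarith
    rw [hx] at this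
    exact_mod_cast this
  · rw [← hx]
    have h1 : (4 * x ^ 20) ^ h ≤ Real.exp (x / 40) := by
      calc (4 * x ^ 20) ^ h ≤ (Real.exp (21 * l)) ^ h := pow_le_pow_left₀ (by positivity) hx20 h
        _ = Real.exp (h * (21 * l)) := by rw [← Real.exp_nat_mul]
        _ ≤ Real.exp (x / 40) := by
            apply Real.exp_le_exp.mpr
            linarith
    calc (4 * x ^ 20) ^ h * Real.exp (-(3 * x / 40)) ≤
          Real.exp (x / 40) * Real.exp (-(3 * x / 40)) :=
          mul_le_mul_of_nonneg_right h1 (Real.exp_pos _).le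
      _ = Real.exp (-(x / 20)) := by
          rw [← Real.exp_add]
          congr 1
          ring
  · rw [← hx]
    have h1 : (2 : ℝ) ^ m ≤ Real.exp m := by
      calc (2 : ℝ) ^ m ≤ (Real.exp 1) ^ m := pow_le_pow_left₀ (by norm_num) two_le_exp m
        _ = Real.exp m := by rw [← Real.exp_nat_mul, mul_one]
    calc Real.exp (-(x / 20)) * 2 ^ m ≤ Real.exp (-(x / 20)) * Real.exp m :=
          mul_le_mul_of_nonneg_left h1 (Real.exp_pos _).le
      _ = Real.exp (-(x / 20) + m) := by rw [Real.exp_add]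
      _ ≤ Real.exp 0 := by
          apply Real.exp_le_exp.mpr
          linarith
      _ = 1 := Real.exp_zero
  -- the parameters
  obtain ⟨s, hs⟩ : ∃ s : ℕ, s = ⌈x / (2 * h)⌉₊ := ⟨_, rfl⟩
  have hs1 : x / (2 * h) ≤ s := by rw [hs]; exact Nat.le_ceil _
  have hs2 : (s : ℝ) < x / (2 * h) + 1 := by
    rw [hs]
    exact Nat.ceil_lt_add_one (by positivity)
  have hs1' : x ≤ s * (2 * h) := by rwa [div_le_iff₀ (by positivity)] at hs1
  have hspos : 1 ≤ s := by
    by_contra hcon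
    have h2 : s = 0 := by omega
    rw [h2] at hs1'
    simp at hs1'
    linarith
  have hspos' : (1 : ℝ) ≤ s := by exact_mod_cast hspos
  have hsl : (s : ℝ) ≤ 1501 * l := by
    have h1 : x / (2 * h) ≤ 3001 * l / 2 := by
      rw [div_le_iff₀ (by positivity)]
      linarith
    linarith
  obtain ⟨r, hr⟩ : ∃ r : ℕ, r = ⌈50 * s * l⌉₊ := ⟨_, rfl⟩
  have hr1 : 50 * s * l ≤ r := by rw [hr]; exact Nat.le_ceil _
  have hr2 : (r : ℝ) < 50 * s * l + 1 := by
    rw [hr]
    exact Nat.ceil_lt_add_one (by positivity)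
  have hr3 : (r : ℝ) ≤ 10 ^ 5 * l ^ 2 := by
    have : (s : ℝ) * l ≤ 1501 * l * l := mul_le_mul_of_nonneg_right hsl hl0.le
    linarith
  -- lam
  have hl9 : l ^ 8 ≤ l ^ 9 := pow_le_pow_right₀ (by linarith) (by norm_num)
  have hlam8 : l ^ 8 ≤ lam := hl9.trans hlam
  have hlampos : (0 : ℝ) < lam := lt_of_lt_of_le (by positivity) hlam8
  have hlam1 : (1 : ℝ) ≤ lam := by
    have : (1 : ℝ) ≤ l ^ 8 := one_le_pow₀ (by linarith)
    linarith
  have hsq : l ^ 4 ≤ Real.sqrt lam := by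
    apply Real.le_sqrt_of_sq_le
    calc (l ^ 4) ^ 2 = l ^ 8 := by ring
      _ ≤ (lam : ℝ) := hlam8
  have hsqpos : 0 < Real.sqrt lam := Real.sqrt_pos.mpr hlampos
  have hlamx : (lam : ℝ) ≤ x := by rw [hx]; exact_mod_cast hlamM
  obtain ⟨κ, hκ⟩ : ∃ κ : ℝ, κ = 4 * s / Real.sqrt lam := ⟨_, rfl⟩
  have hκpos : 0 < κ := by rw [hκ]; positivity
  have hκ2 : κ ^ (2 * s) = (4 * s) ^ (2 * s) / (lam : ℝ) ^ s := by
    rw [hκ, div_pow, pow_mul (Real.sqrt lam), Real.sq_sqrt hlampos.le]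
  have hz : Real.exp 1 * x * κ / h ≤ Real.exp (-1) := by
    have h1 : κ ≤ 4 * (1501 * l) / l ^ 4 := by
      rw [hκ]
      apply div_le_div₀ (by positivity) (by linarith) (by positivity) hsq
    have h2 : x / h ≤ 3001 * l := by
      rw [div_le_iff₀ (by positivity)]
      linarith
    have h3 : Real.exp 1 * x * κ / h = Real.exp 1 * (x / h) * κ := by ring
    have h4 : Real.exp 1 * (x / h) * κ ≤ (25 / 9) * (3001 * l) * (4 * (1501 * l) / l ^ 4) := by
      apply mul_le_mul _ h1 hκpos.le (by positivity)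
      exact mul_le_mul exp_one_le h2 (by positivity) (by norm_num)
    have h5 : (25 / 9) * (3001 * l) * (4 * (1501 * l) / l ^ 4) =
        (25 / 9 * 3001 * 4 * 1501) / l ^ 2 := by
      field_simp
    have h6 : (25 / 9 * 3001 * 4 * 1501) / l ^ 2 ≤ (1 : ℝ) / 10 := by
      rw [div_le_iff₀ (by positivity)]
      linarith
    have h7 : (1 : ℝ) / 10 ≤ Real.exp (-1) := by
      rw [Real.exp_neg, ← one_div]
      apply one_div_le_one_div_of_le (Real.exp_pos 1)
      linarith [exp_one_le]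
    linarith
  have hz0 : 0 ≤ Real.exp 1 * x * κ / h := by positivity
  refine ⟨s, r, κ, hspos, hκpos, ?_, ?_, ?_, ?_, ?_, ?_⟩
  · have : x ≤ ((2 * s * h : ℕ) : ℝ) := by push_cast; linarith
    rw [hx] at this
    exact_mod_cast this
  · have h1 : (s : ℝ) ≤ x := by linarith
    have h2 : ((100 * (2 * s) ^ 2 : ℕ) : ℝ) ≤ ((M ^ 20 : ℕ) : ℝ) := by
      push_cast
      rw [← hx]
      have h3 : x ^ 3 ≤ x ^ 20 := pow_le_pow_right₀ (by linarith) (by norm_num)
      have h4 : (s : ℝ) ^ 2 ≤ x ^ 2 := pow_le_pow_left₀ (by positivity) h1 2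
      have h5 : 400 * x ^ 2 ≤ x * x ^ 2 := mul_le_mul_of_nonneg_right (by linarith) (by positivity)
      linarith
    exact_mod_cast h2
  · rw [← hx]
    have h1 : 1 + Real.exp (-(x / 20)) ≤ Real.exp (Real.exp (-(x / 20))) := by
      have := Real.add_one_le_exp (Real.exp (-(x / 20)))
      linarith
    have h2 : Real.exp (-(x / 20)) ≤ 20 / x := by
      rw [Real.exp_neg, inv_le_comm₀ (Real.exp_pos _) (by positivity), inv_div]
      have := Real.add_one_le_exp (x / 20)
      linarith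
    have h3 : ((2 * r : ℕ) : ℝ) * Real.exp (-(x / 20)) ≤ 1 / 2 := by
      push_cast
      calc 2 * (r : ℝ) * Real.exp (-(x / 20)) ≤ 2 * (10 ^ 5 * l ^ 2) * (20 / x) := by
            apply mul_le_mul (by linarith) h2 (Real.exp_pos _).le (by positivity)
        _ = (4 * 10 ^ 6 * l ^ 2) / x := by ring
        _ ≤ 1 / 2 := by
            rw [div_le_iff₀ hMpos]
            linarith
    calc (1 + Real.exp (-(x / 20))) ^ (2 * r) ≤ (Real.exp (Real.exp (-(x / 20)))) ^ (2 * r) :=
          pow_le_pow_left₀ (by positivity) h1 _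
      _ = Real.exp (((2 * r : ℕ) : ℝ) * Real.exp (-(x / 20))) := by rw [← Real.exp_nat_mul]
      _ ≤ Real.exp (1 / 2) := Real.exp_le_exp.mpr h3
      _ ≤ 2 := exp_half_le
  · intro q hq1 hq2
    rw [← hx] at hq1 hq2
    rw [hκ2]
    have hs4 : (4 * s : ℝ) ^ (2 * s) = 2 ^ (2 * s) * (2 * s) ^ (2 * s) := by
      rw [← mul_pow]
      congr 1
      ring
    have h2s : (2 : ℝ) ≤ 2 ^ (2 * s) := by
      calc (2 : ℝ) = 2 ^ 1 := by norm_num
        _ ≤ 2 ^ (2 * s) := pow_le_pow_right₀ (by norm_num) (by omega)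
    have h2s' : (1 : ℝ) ≤ (2 * s : ℝ) ^ (2 * s) := one_le_pow₀ (by linarith)
    have h2s2 := mul_le_mul_of_nonneg_right h2s (show (0 : ℝ) ≤ (2 * s : ℝ) ^ (2 * s) by positivity)
    have hA : (2 * s : ℝ) ^ (2 * s) / (lam : ℝ) ^ s ≤ (1 / 2) * ((4 * s : ℝ) ^ (2 * s) / (lam : ℝ) ^ s) := by
      rw [← mul_div_assoc]
      apply div_le_div_of_nonneg_right _ (by positivity)
      rw [hs4]
      linarith
    have hB : ((q - 1) / lam) ^ (2 * s) * (3 / 5 : ℝ) ^ (2 * r) ≤
        (1 / 2) * ((4 * s : ℝ) ^ (2 * s) / (lam : ℝ) ^ s) := by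
      have hq0 : 0 ≤ q - 1 := by
        have : (1 : ℝ) ≤ x ^ 20 := one_le_pow₀ (by linarith)
        linarith
      have h1 : ((q - 1) / lam) ^ (2 * s) ≤ (Real.exp (21 * l)) ^ (2 * s) := by
        apply pow_le_pow_left₀ (by positivity)
        calc (q - 1) / lam ≤ q - 1 := div_le_self hq0 hlam1
          _ ≤ 4 * x ^ 20 := by linarith
          _ ≤ Real.exp (21 * l) := hx20
      have h2 : (3 / 5 : ℝ) ^ (2 * r) ≤ Real.exp (-r) := by
        rw [pow_mul]
        calc ((3 / 5 : ℝ) ^ 2) ^ r ≤ (Real.exp (-1)) ^ r := by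
              apply pow_le_pow_left₀ (by positivity)
              rw [Real.exp_neg]
              rw [le_inv_comm₀ (by positivity) (Real.exp_pos 1)]
              have := exp_one_le
              norm_num
              linarith
          _ = Real.exp (-r) := by
              rw [← Real.exp_nat_mul]
              congr 1
              ring
      have h3 : ((q - 1) / lam) ^ (2 * s) * (3 / 5 : ℝ) ^ (2 * r) ≤ Real.exp (-(s * l)) := by
        calc ((q - 1) / lam) ^ (2 * s) * (3 / 5 : ℝ) ^ (2 * r) ≤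
              (Real.exp (21 * l)) ^ (2 * s) * Real.exp (-r) :=
              mul_le_mul h1 h2 (by positivity) (by positivity)
          _ = Real.exp (((2 * s : ℕ) : ℝ) * (21 * l) + -r) := by
              rw [← Real.exp_nat_mul, ← Real.exp_add]
          _ ≤ Real.exp (-(s * l)) := by
              apply Real.exp_le_exp.mpr
              push_cast
              have : 0 ≤ (s : ℝ) * l := by positivity
              linarith
      have h4 : Real.exp (-(s * l)) ≤ 1 / (lam : ℝ) ^ s := by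
        rw [Real.exp_neg, ← one_div]
        apply one_div_le_one_div_of_le (by positivity)
        calc (lam : ℝ) ^ s ≤ x ^ s := pow_le_pow_left₀ hlampos.le hlamx s
          _ = Real.exp (s * l) := by rw [hMexp, ← Real.exp_nat_mul]
      have h5 : 1 / (lam : ℝ) ^ s ≤ (1 / 2) * ((4 * s : ℝ) ^ (2 * s) / (lam : ℝ) ^ s) := by
        rw [← mul_div_assoc]
        apply div_le_div_of_nonneg_right _ (by positivity)
        rw [hs4]
        linarith
      linarith
    linarith
  · rw [← hx]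
    have h1 : Real.exp (-1) ≤ 1 / 2 := by
      rw [Real.exp_neg, ← one_div]
      exact one_div_le_one_div_of_le (by norm_num) two_le_exp
    linarith
  · rw [← hx]
    have h1 : (2 * x + 1) ^ m ≤ Real.exp (2 * l * m) := by
      calc (2 * x + 1) ^ m ≤ (Real.exp (2 * l)) ^ m := by
            apply pow_le_pow_left₀ (by positivity)
            have : Real.exp (2 * l) = x * x := by
              rw [hMexp, ← Real.exp_add]
              congr 1
              ring
            rw [this]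
            have h10 := mul_le_mul_of_nonneg_right hx1 hMpos.le
            linarith
        _ = Real.exp (2 * l * m) := by
            rw [← Real.exp_nat_mul]
            congr 1
            ring
    have h2 : (Real.exp 1 * x * κ / h) ^ h ≤ Real.exp (-h) := by
      calc (Real.exp 1 * x * κ / h) ^ h ≤ (Real.exp (-1)) ^ h := pow_le_pow_left₀ hz0 hz h
        _ = Real.exp (-h) := by
            rw [← Real.exp_nat_mul]
            congr 1
            ring
    have h3 : (2 : ℝ) ^ (2 * r * m) ≤ Real.exp (2 * r * m) := by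
      calc (2 : ℝ) ^ (2 * r * m) ≤ (Real.exp 1) ^ (2 * r * m) :=
            pow_le_pow_left₀ (by norm_num) two_le_exp _
        _ = Real.exp (2 * r * m) := by
            rw [← Real.exp_nat_mul]
            push_cast
            congr 1
            ring
    have h4 : x ^ 10 = Real.exp (10 * l) := by
      rw [hMexp, ← Real.exp_nat_mul]
      norm_num
    have h5 : (4 : ℝ) ≤ Real.exp l := by
      have := Real.add_one_le_exp l
      linarith
    have h6 : (2 * x + 1) ^ m * (2 * (Real.exp 1 * x * κ / h) ^ h) * (2 * 2 ^ (2 * r * m)) * x ^ 10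
        ≤ Real.exp (2 * l * m) * (2 * Real.exp (-h)) * (2 * Real.exp (2 * r * m)) *
          Real.exp (10 * l) := by
      rw [h4]
      apply mul_le_mul_of_nonneg_right _ (Real.exp_pos _).le
      apply mul_le_mul _ (by linarith) (by positivity) (by positivity)
      apply mul_le_mul h1 (by linarith) (by positivity) (by positivity)
    have h7 : Real.exp (2 * l * m) * (2 * Real.exp (-h)) * (2 * Real.exp (2 * r * m)) *
          Real.exp (10 * l) = 4 * Real.exp (2 * l * m + -h + 2 * r * m + 10 * l) := by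
      rw [Real.exp_add, Real.exp_add, Real.exp_add]
      ring
    have h8 : 4 * Real.exp (2 * l * m + -h + 2 * r * m + 10 * l) ≤
        Real.exp (l + (2 * l * m + -h + 2 * r * m + 10 * l)) := by
      rw [Real.exp_add l]
      exact mul_le_mul_of_nonneg_right h5 (Real.exp_pos _).le
    have h9 : l + (2 * l * m + -h + 2 * r * m + 10 * l) ≤ 0 := by
      -- multiply by l * 3001
      have a1 : (m : ℝ) * l ^ 2 * 10 ^ 20 ≤ m * l ^ 4 := by
        have h10 : (m : ℝ) * l ^ 2 * 10 ^ 20 ≤ m * l ^ 2 * l ^ 2 :=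
          mul_le_mul_of_nonneg_left hl20 (by positivity)
        calc (m : ℝ) * l ^ 2 * 10 ^ 20 ≤ m * l ^ 2 * l ^ 2 := h10
          _ = m * l ^ 4 := by ring
      have a2 : (m : ℝ) * l ^ 3 * 10 ^ 10 ≤ m * l ^ 4 := by
        have h10 : (m : ℝ) * l ^ 3 * 10 ^ 10 ≤ m * l ^ 3 * l :=
          mul_le_mul_of_nonneg_left hl (by positivity)
        calc (m : ℝ) * l ^ 3 * 10 ^ 10 ≤ m * l ^ 3 * l := h10
          _ = m * l ^ 4 := by ring
      have a3 : (r : ℝ) * m * l ≤ 10 ^ 5 * l ^ 2 * m * l := by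
        apply mul_le_mul_of_nonneg_right _ hl0.le
        exact mul_le_mul_of_nonneg_right hr3 hm0
      have a4 : (l + (2 * l * m + -h + 2 * r * m + 10 * l)) * (3001 * l) ≤ 0 := by
        linarith
      by_contra hcon
      push Not at hcon
      have := mul_pos hcon (show 0 < 3001 * l by positivity)
      linarith
    calc (2 * x + 1) ^ m * (2 * (Real.exp 1 * x * κ / h) ^ h) * (2 * 2 ^ (2 * r * m)) * x ^ 10 ≤ _ := h6
      _ = _ := h7
      _ ≤ _ := h8
      _ ≤ Real.exp 0 := Real.exp_le_exp.mpr h9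
      _ = 1 := Real.exp_zero

end Pool.Agent.Work.MP_e0aece_nt.Sq

end

section

/-!
# B2: equidistribution of `d_A` modulo the primes in `S`
-/

namespace Pool.Agent.Work.MP_e0aece_nt.Sq

open Finset

namespace ItemB2

/-- Orthogonality of the characters. -/
theorem orth (q : ℕ) [Fact q.Prime] (c : (ZMod q)ˣ) (x : ZMod q) :
    ∑ χ : DirichletCharacter ℂ q, χ ((c : ZMod q))⁻¹ * χ x =
      if (c : ZMod q) = x then ((q : ℂ) - 1) else 0 := by
  haveI : NeZero q := ⟨(Fact.out : q.Prime).ne_zero⟩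
  rw [DirichletCharacter.sum_char_inv_mul_char_eq ℂ c.isUnit x,
    Nat.totient_prime (Fact.out : q.Prime), Nat.cast_sub (Fact.out : q.Prime).one_le, Nat.cast_one]

theorem card_char (q : ℕ) [Fact q.Prime] :
    Fintype.card (DirichletCharacter ℂ q) = q - 1 := by
  haveI : NeZero q := ⟨(Fact.out : q.Prime).ne_zero⟩
  rw [← Nat.card_eq_fintype_card,
    DirichletCharacter.card_eq_totient_of_hasEnoughRootsOfUnity ℂ q,
    Nat.totient_prime (Fact.out : q.Prime)]

theorem norm_char_le (q : ℕ) [Fact q.Prime] (χ : MulChar (ZMod q) ℂ) (x : ZMod q) :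
    ‖χ x‖ ≤ 1 := DirichletCharacter.norm_le_one (χ := χ) x

section

variable {ι : Type} [Fintype ι] [DecidableEq ι] (p : ι → ℕ) [hp : ∀ i, Fact (p i).Prime]

/-- The families of characters supported on `S`. -/
noncomputable def Fam (S : Finset ι) : Finset (∀ i, DirichletCharacter ℂ (p i)) :=
  Fintype.piFinset fun i => if i ∈ S then Finset.univ else {1}

theorem mem_Fam {S : Finset ι} {ψ : ∀ i, DirichletCharacter ℂ (p i)} :
    ψ ∈ Fam p S ↔ ∀ i, i ∉ S → ψ i = 1 := by
  unfold Fam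
  rw [Fintype.mem_piFinset]
  constructor
  · intro h i hi
    have := h i
    rw [if_neg hi] at this
    exact Finset.mem_singleton.1 this
  · intro h i
    by_cases hi : i ∈ S
    · rw [if_pos hi]
      exact Finset.mem_univ _
    · rw [if_neg hi]
      exact Finset.mem_singleton.2 (h i hi)

theorem card_Fam (S : Finset ι) : (Fam p S).card = ∏ i ∈ S, (p i - 1) := by
  unfold Fam
  rw [Fintype.card_piFinset, ← Finset.prod_subset (Finset.subset_univ S)]
  · refine Finset.prod_congr rfl fun i hi => ?_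
    rw [if_pos hi, Finset.card_univ, card_char]
  · intro i _ hi
    rw [if_neg hi, Finset.card_singleton]

/-- The product of the orthogonality relations. -/
theorem prod_orth (S : Finset ι) (c : ∀ i, (ZMod (p i))ˣ) (x : ∀ i, ZMod (p i)) :
    (if ∀ i ∈ S, x i = (c i : ZMod (p i)) then ∏ i ∈ S, ((p i : ℂ) - 1) else 0) =
      ∑ ψ ∈ Fam p S, (∏ i ∈ S, ψ i ((c i : ZMod (p i)))⁻¹) * ∏ i ∈ S, ψ i (x i) := by
  have h1 : ∀ ψ ∈ Fam p S, (∏ i ∈ S, ψ i ((c i : ZMod (p i)))⁻¹) * ∏ i ∈ S, ψ i (x i) =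
      ∏ i, (if i ∈ S then ψ i ((c i : ZMod (p i)))⁻¹ * ψ i (x i) else 1) := by
    intro ψ _
    rw [← Finset.prod_mul_distrib, Finset.prod_ite_mem, Finset.univ_inter]
  rw [Finset.sum_congr rfl h1]
  unfold Fam
  rw [← Finset.prod_univ_sum (fun i => if i ∈ S then Finset.univ else {1})
    (fun i (χ : DirichletCharacter ℂ (p i)) =>
      if i ∈ S then χ ((c i : ZMod (p i)))⁻¹ * χ (x i) else 1)]
  have h2 : ∀ i, (∑ χ ∈ (if i ∈ S then Finset.univ else {1} : Finset (DirichletCharacter ℂ (p i))),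
      (if i ∈ S then χ ((c i : ZMod (p i)))⁻¹ * χ (x i) else 1)) =
      if i ∈ S then (if (c i : ZMod (p i)) = x i then ((p i : ℂ) - 1) else 0) else 1 := by
    intro i
    by_cases hi : i ∈ S
    · simp only [hi, if_true]
      exact orth (p i) (c i) (x i)
    · simp only [hi, if_false, Finset.sum_singleton]
  rw [Finset.prod_congr rfl fun i _ => h2 i, Finset.prod_ite_mem, Finset.univ_inter]
  by_cases h : ∀ i ∈ S, x i = (c i : ZMod (p i))
  · rw [if_pos h]
    refine Finset.prod_congr rfl fun i hi => ?_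
    rw [if_pos (h i hi).symm]
  · rw [if_neg h]
    push Not at h
    obtain ⟨i, hi, hne⟩ := h
    symm
    apply Finset.prod_eq_zero hi
    rw [if_neg (Ne.symm hne)]

theorem dd_unit (hinj : Function.Injective p) (A : Finset ι) (i : ι) (hi : i ∉ A) :
    IsUnit ((dd p A : ℕ) : ZMod (p i)) := by
  rw [isUnit_iff_ne_zero, Ne, ZMod.natCast_eq_zero_iff]
  unfold dd
  rw [Prime.dvd_finsetProd_iff (hp i).out.prime]
  rintro ⟨j, hj, hd⟩
  have h1 := (Nat.prime_dvd_prime_iff_eq (hp i).out (hp j).out).1 hd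
  exact hi (hinj h1 ▸ hj)

end

end ItemB2

open ItemB2

theorem claimB2 (hB1 : ClaimB1) : ClaimB2 := by
  classical
  intro ι _ _ p hp h V S c hinj hgap hVS hS hV
  set E : ℝ := Real.exp (-(3 * (Fintype.card ι : ℝ) / 40)) with hE
  have hE0 : 0 ≤ E := (Real.exp_pos _).le
  -- the inner sum
  set W : (∀ i, DirichletCharacter ℂ (p i)) → ℂ := fun ψ =>
    ∑ A ∈ V.powerset, ∏ i ∈ S, ψ i ((dd p A : ℕ) : ZMod (p i)) with hW
  have hunit : ∀ A ∈ V.powerset, ∀ i ∈ S, IsUnit ((dd p A : ℕ) : ZMod (p i)) := by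
    intro A hA i hi
    apply dd_unit p hinj
    intro hiA
    exact (Finset.disjoint_left.1 hVS) (Finset.mem_powerset.1 hA hiA) hi
  have hcount : ((((V.powerset.filter fun A =>
      ∀ i ∈ S, ((dd p A : ℕ) : ZMod (p i)) = (c i : ZMod (p i))).card : ℝ)) *
      ∏ i ∈ S, ((p i : ℝ) - 1) : ℝ) =
      (∑ ψ ∈ Fam p S, (∏ i ∈ S, ψ i ((c i : ZMod (p i)))⁻¹) * W ψ : ℂ) := by
    have e1 : ∑ A ∈ V.powerset, (if ∀ i ∈ S, ((dd p A : ℕ) : ZMod (p i)) = (c i : ZMod (p i))
        then ∏ i ∈ S, ((p i : ℂ) - 1) else 0) =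
        ∑ ψ ∈ Fam p S, (∏ i ∈ S, ψ i ((c i : ZMod (p i)))⁻¹) * W ψ := by
      rw [Finset.sum_congr rfl fun A _ => prod_orth p S c
        (fun i => ((dd p A : ℕ) : ZMod (p i))), Finset.sum_comm]
      refine Finset.sum_congr rfl fun ψ _ => ?_
      rw [hW, Finset.mul_sum]
    rw [← e1, ← Finset.sum_filter, Finset.sum_const, nsmul_eq_mul]
    push_cast
    rfl
  have h1mem : (1 : ∀ i, DirichletCharacter ℂ (p i)) ∈ Fam p S := by
    rw [mem_Fam]
    intro i _
    rfl
  have hone : (∏ i ∈ S, (1 : ∀ i, DirichletCharacter ℂ (p i)) i ((c i : ZMod (p i)))⁻¹) *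
      W 1 = 2 ^ V.card := by
    have e1 : (∏ i ∈ S, (1 : ∀ i, DirichletCharacter ℂ (p i)) i ((c i : ZMod (p i)))⁻¹) = 1 := by
      refine Finset.prod_eq_one fun i _ => ?_
      show (1 : DirichletCharacter ℂ (p i)) ((c i : ZMod (p i)))⁻¹ = 1
      apply MulChar.one_apply
      rw [isUnit_iff_ne_zero]
      exact inv_ne_zero (c i).ne_zero
    have e2 : W 1 = 2 ^ V.card := by
      rw [hW]
      have e3 : ∀ A ∈ V.powerset, (∏ i ∈ S, (1 : ∀ i, DirichletCharacter ℂ (p i)) i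
          ((dd p A : ℕ) : ZMod (p i))) = 1 := by
        intro A hA
        refine Finset.prod_eq_one fun i hi => ?_
        exact MulChar.one_apply (hunit A hA i hi)
      show ∑ A ∈ V.powerset, (∏ i ∈ S, (1 : ∀ i, DirichletCharacter ℂ (p i)) i
          ((dd p A : ℕ) : ZMod (p i))) = 2 ^ V.card
      rw [Finset.sum_congr rfl e3, Finset.sum_const, Finset.card_powerset, nsmul_eq_mul, mul_one]
      push_cast
      rfl
    rw [e1, e2, one_mul]
  have hterm : ∀ ψ ∈ (Fam p S).erase 1,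
      ‖(∏ i ∈ S, ψ i ((c i : ZMod (p i)))⁻¹) * W ψ‖ ≤ 2 ^ V.card * E := by
    intro ψ hψ
    obtain ⟨hψ1, hψF⟩ := Finset.mem_erase.1 hψ
    rw [mem_Fam] at hψF
    set S' := S.filter (fun i => ψ i ≠ 1) with hS'
    have hne : S'.Nonempty := by
      by_contra hemp
      apply hψ1
      funext i
      by_cases hi : i ∈ S
      · by_contra hi1
        exact hemp ⟨i, Finset.mem_filter.2 ⟨hi, hi1⟩⟩
      · exact hψF i hi
    have hWψ : W ψ = ∑ A ∈ V.powerset, ∏ i ∈ S', ψ i ((dd p A : ℕ) : ZMod (p i)) := by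
      rw [hW]
      refine Finset.sum_congr rfl fun A hA => ?_
      rw [hS', Finset.prod_filter]
      refine Finset.prod_congr rfl fun i hi => ?_
      by_cases h1 : ψ i = 1
      · rw [if_neg (not_not.2 h1), h1]
        exact MulChar.one_apply (hunit A hA i hi)
      · rw [if_pos h1]
    have hb := hB1 ι p h V S' ψ hgap (hVS.mono_right (Finset.filter_subset _ _)) hne
      ((Finset.card_filter_le _ _).trans hS) (fun i hi => (Finset.mem_filter.1 hi).2) hV
    rw [← hWψ] at hb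
    rw [norm_mul]
    have hc : ‖∏ i ∈ S, ψ i ((c i : ZMod (p i)))⁻¹‖ ≤ 1 := by
      rw [norm_prod]
      exact Finset.prod_le_one (fun i _ => norm_nonneg _) fun i _ => norm_char_le (p i) (ψ i) _
    calc ‖∏ i ∈ S, ψ i ((c i : ZMod (p i)))⁻¹‖ * ‖W ψ‖ ≤ 1 * ‖W ψ‖ :=
          mul_le_mul_of_nonneg_right hc (norm_nonneg _)
      _ = ‖W ψ‖ := one_mul _
      _ ≤ _ := hb
  have hmain : ‖(((((V.powerset.filter fun A =>
      ∀ i ∈ S, ((dd p A : ℕ) : ZMod (p i)) = (c i : ZMod (p i))).card : ℝ)) *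
      ∏ i ∈ S, ((p i : ℝ) - 1) : ℝ) : ℂ) - 2 ^ V.card‖ ≤
      ((Fam p S).erase 1).card * (2 ^ V.card * E) := by
    rw [hcount, ← Finset.add_sum_erase _ _ h1mem, hone, add_sub_cancel_left]
    refine (norm_sum_le _ _).trans ?_
    refine (Finset.sum_le_sum hterm).trans ?_
    rw [Finset.sum_const, nsmul_eq_mul]
  have hcard : (((Fam p S).erase 1).card : ℝ) ≤ ∏ i ∈ S, (p i : ℝ) := by
    have e1 : ((Fam p S).erase 1).card ≤ ∏ i ∈ S, p i := by
      refine (Finset.card_le_card (Finset.erase_subset _ _)).trans ?_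
      rw [card_Fam]
      exact Finset.prod_le_prod' fun i _ => Nat.sub_le _ _
    calc (((Fam p S).erase 1).card : ℝ) ≤ ((∏ i ∈ S, p i : ℕ) : ℝ) := by exact_mod_cast e1
      _ = _ := by push_cast; rfl
  have habs : |(((V.powerset.filter fun A =>
      ∀ i ∈ S, ((dd p A : ℕ) : ZMod (p i)) = (c i : ZMod (p i))).card : ℝ)) *
      ∏ i ∈ S, ((p i : ℝ) - 1) - 2 ^ V.card| = ‖(((((V.powerset.filter fun A =>
      ∀ i ∈ S, ((dd p A : ℕ) : ZMod (p i)) = (c i : ZMod (p i))).card : ℝ)) *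
      ∏ i ∈ S, ((p i : ℝ) - 1) : ℝ) : ℂ) - 2 ^ V.card‖ := by
    rw [← Real.norm_eq_abs, ← Complex.norm_real]
    congr 1
    push_cast
    rfl
  have hgoal := hmain.trans (mul_le_mul_of_nonneg_right hcard (by positivity))
  rw [← habs] at hgoal
  convert! hgoal using 1
  ring

end Pool.Agent.Work.MP_e0aece_nt.Sq

end

section

/-!
# Item B3: small supports (helper90)
-/

namespace Pool.Agent.Work.MP_e0aece_nt.Sq

open Finset

namespace ItemB3

section

variable {ι : Type} [Fintype ι] [DecidableEq ι] (p : ι → ℕ) [∀ i, Fact (p i).Prime]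

theorem sum_fib (B I S : Finset ι) (hI : I ⊆ B) (f : Finset ι → ℂ) :
    ∑ A ∈ fib B I, f A = ∑ A0 ∈ (S \ B).powerset, ∑ A' ∈ ((S ∪ B)ᶜ).powerset,
      f (I ∪ A0 ∪ A') := by
  rw [← sum_product']
  symm
  refine sum_nbij' (fun x => I ∪ x.1 ∪ x.2) (fun A => (A ∩ (S \ B), A ∩ (S ∪ B)ᶜ)) ?_ ?_ ?_ ?_ ?_
  · rintro ⟨A0, A'⟩ h
    rw [mem_product, mem_powerset, mem_powerset] at h
    simp only [fib, mem_filter, mem_univ, true_and]
    ext x
    have h1 := @h.1 x
    have h2 := @h.2 x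
    have h3 := @hI x
    simp only [mem_sdiff, mem_compl, mem_union, mem_inter] at h1 h2 ⊢
    tauto
  · intro A h
    rw [mem_product, mem_powerset, mem_powerset]
    exact ⟨inter_subset_right, inter_subset_right⟩
  · rintro ⟨A0, A'⟩ h
    rw [mem_product, mem_powerset, mem_powerset] at h
    refine Prod.ext ?_ ?_
    · ext x
      have h1 := @h.1 x
      have h2 := @h.2 x
      have h3 := @hI x
      simp only [mem_sdiff, mem_compl, mem_union, mem_inter] at h1 h2 ⊢
      tauto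
    · ext x
      have h1 := @h.1 x
      have h2 := @h.2 x
      have h3 := @hI x
      simp only [mem_sdiff, mem_compl, mem_union, mem_inter] at h1 h2 ⊢
      tauto
  · intro A h
    simp only [fib, mem_filter, mem_univ, true_and] at h
    ext x
    have h4 : x ∈ A ∩ B ↔ x ∈ I := by rw [h]
    simp only [mem_sdiff, mem_compl, mem_union, mem_inter] at h4 ⊢
    tauto
  · intro x h
    rfl

theorem dd_union (A A' : Finset ι) (h : Disjoint A A') : dd p (A ∪ A') = dd p A * dd p A' :=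
  prod_union h

theorem dd_unit (hp : Function.Injective p) (i : ι) (A : Finset ι) (h : i ∉ A) :
    ((dd p A : ℕ) : ZMod (p i)) ≠ 0 := by
  have hpi : (p i).Prime := Fact.out
  rw [Ne, ZMod.natCast_eq_zero_iff]
  intro hd
  obtain ⟨j, hj, hd⟩ := (Nat.Prime.prime hpi).exists_mem_finset_dvd hd
  have hpj : (p j).Prime := Fact.out
  have := (Nat.prime_dvd_prime_iff_eq hpi hpj).1 hd
  exact h (hp this ▸ hj)

theorem dd_zero (i : ι) (A : Finset ι) (h : i ∈ A) : ((dd p A : ℕ) : ZMod (p i)) = 0 := by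
  rw [ZMod.natCast_eq_zero_iff]
  exact dvd_prod_of_mem p h

theorem evk_zero {q : ℕ} [Fact q.Prime] (ψ : MulChar (ZMod q) ℂ) (k : (ZMod q)ˣ) :
    evk ψ 0 k = 1 := by
  have : ures ((0 : ZMod q) * (k : ZMod q) + 1) = 1 := by
    rw [zero_mul, zero_add]
    unfold ures
    rw [dif_neg one_ne_zero]
    ext
    rfl
  unfold evk
  rw [this]
  simp

theorem evk_one {q : ℕ} [Fact q.Prime] (a : ZMod q) (k : (ZMod q)ˣ) :
    evk (1 : MulChar (ZMod q) ℂ) a k = 1 := by
  unfold evk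
  exact MulChar.one_apply_coe _

theorem evk_norm {q : ℕ} [Fact q.Prime] (ψ : MulChar (ZMod q) ℂ) (a : ZMod q) (k : (ZMod q)ˣ) :
    ‖evk ψ a k‖ ≤ 1 := by
  unfold evk
  have : NeZero q := ⟨(Fact.out : q.Prime).ne_zero⟩
  exact DirichletCharacter.norm_le_one ψ _

theorem ures_coe {q : ℕ} [Fact q.Prime] (x : ZMod q) (h : x ≠ 0) : ((ures x : (ZMod q)ˣ) : ZMod q) = x := by
  unfold ures
  rw [dif_neg h]
  rfl

theorem inner (hB0 : ClaimB0) (hB2 : ClaimB2) (hp : Function.Injective p) (h : ℕ) (hG : Gap p h)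
    (V S : Finset ι) (χ : ∀ i, MulChar (ZMod (p i)) ℂ) (u : ∀ i, (ZMod (p i))ˣ)
    (i0 : ι) (hi0 : i0 ∈ S) (hχ : χ i0 ≠ 1) (hVS : Disjoint V S) (hS : S.card ≤ h)
    (hV : 10 * (Fintype.card ι - V.card) ≤ Fintype.card ι) :
    ‖∑ A ∈ V.powerset, ∏ i ∈ S, evk (χ i) ((u i : ZMod (p i)) * ((dd p A : ℕ) : ZMod (p i))) 1‖ ≤
      2 ^ V.card * ((∏ i ∈ S, (p i : ℝ)) * Real.exp (-(3 * (Fintype.card ι : ℝ) / 40))) := by
  classical
  have hNe : ∀ i, NeZero (p i) := fun i => ⟨(Fact.out : (p i).Prime).ne_zero⟩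
  let P : Finset (∀ i, (ZMod (p i))ˣ) :=
    Fintype.piFinset (fun i => if i ∈ S then (univ : Finset (ZMod (p i))ˣ) else {1})
  let cu : Finset ι → ∀ i, (ZMod (p i))ˣ := fun A i =>
    if i ∈ S then ures ((dd p A : ℕ) : ZMod (p i)) else 1
  let G : (∀ i, (ZMod (p i))ˣ) → ℂ := fun c =>
    ∏ i ∈ S, evk (χ i) ((u i : ZMod (p i)) * (c i : ZMod (p i))) 1
  let N : (∀ i, (ZMod (p i))ˣ) → ℝ := fun c => ((V.powerset.filter fun A => ∀ i ∈ S,
    ((dd p A : ℕ) : ZMod (p i)) = (c i : ZMod (p i))).card : ℝ)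
  have hnz : ∀ A ∈ V.powerset, ∀ i ∈ S, ((dd p A : ℕ) : ZMod (p i)) ≠ 0 := by
    intro A hA i hi
    refine dd_unit p hp i A fun hiA => ?_
    exact disjoint_left.1 hVS (mem_powerset.1 hA hiA) hi
  have h1 : ∀ A ∈ V.powerset, (∏ i ∈ S, evk (χ i) ((u i : ZMod (p i)) *
      ((dd p A : ℕ) : ZMod (p i))) 1) = G (cu A) := by
    intro A hA
    refine prod_congr rfl fun i hi => ?_
    simp only [cu, if_pos hi]
    rw [ures_coe _ (hnz A hA i hi)]
  have h2 : ∀ A ∈ V.powerset, cu A ∈ P := by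
    intro A _
    rw [Fintype.mem_piFinset]
    intro i
    by_cases hi : i ∈ S
    · simp [hi]
    · simp [cu, hi]
  have h3 : ∀ c ∈ P, (V.powerset.filter fun A => cu A = c) =
      (V.powerset.filter fun A => ∀ i ∈ S, ((dd p A : ℕ) : ZMod (p i)) = (c i : ZMod (p i))) := by
    intro c hc
    refine filter_congr fun A hA => ?_
    constructor
    · rintro rfl i hi
      simp only [cu, if_pos hi]
      rw [ures_coe _ (hnz A hA i hi)]
    · intro hh
      funext i
      by_cases hi : i ∈ S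
      · simp only [cu, if_pos hi]
        ext
        rw [ures_coe _ (hnz A hA i hi), hh i hi]
      · simp only [cu, if_neg hi]
        rw [Fintype.mem_piFinset] at hc
        have := hc i
        rw [if_neg hi, mem_singleton] at this
        exact this.symm
  have h4 : (∑ A ∈ V.powerset, ∏ i ∈ S, evk (χ i) ((u i : ZMod (p i)) *
      ((dd p A : ℕ) : ZMod (p i))) 1) = ∑ c ∈ P, (N c : ℂ) * G c := by
    rw [sum_congr rfl h1, ← sum_fiberwise_of_maps_to h2]
    refine sum_congr rfl fun c hc => ?_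
    rw [sum_congr rfl (g := fun _ => G c) (fun A hA => by rw [(mem_filter.1 hA).2]), sum_const,
      h3 c hc, nsmul_eq_mul]
    simp only [N]
    push_cast
    rfl
  have h5 : ∑ c ∈ P, G c = 0 := by
    have h6 : ∀ c, G c = ∏ i, (if i ∈ S then
        evk (χ i) ((u i : ZMod (p i)) * (c i : ZMod (p i))) 1 else 1) := by
      intro c
      rw [prod_ite_mem, univ_inter]
    simp only [h6]
    rw [← prod_univ_sum (t := fun i => if i ∈ S then (univ : Finset (ZMod (p i))ˣ) else {1})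
      (f := fun i (c : (ZMod (p i))ˣ) => if i ∈ S then
        evk (χ i) ((u i : ZMod (p i)) * (c : ZMod (p i))) 1 else 1)]
    refine prod_eq_zero (mem_univ i0) ?_
    simp only [if_pos hi0]
    exact hB0 (p i0) (χ i0) (u i0) hχ
  have h7 : (P.card : ℝ) = ∏ i ∈ S, ((p i : ℝ) - 1) := by
    simp only [P]
    rw [Fintype.card_piFinset]
    have h8 : ∀ i, (if i ∈ S then (univ : Finset (ZMod (p i))ˣ) else {1}).card =
        if i ∈ S then p i - 1 else 1 := by
      intro i
      by_cases hi : i ∈ S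
      · rw [if_pos hi, if_pos hi, card_univ, ZMod.card_units]
      · rw [if_neg hi, if_neg hi, card_singleton]
    simp only [h8]
    rw [prod_ite_mem, univ_inter]
    push_cast
    refine prod_congr rfl fun i _ => ?_
    rw [Nat.cast_sub (Fact.out : (p i).Prime).one_le]
    simp
  have hpos : (0 : ℝ) < ∏ i ∈ S, ((p i : ℝ) - 1) := by
    refine prod_pos fun i _ => ?_
    have : (1 : ℝ) < p i := by exact_mod_cast (Fact.out : (p i).Prime).one_lt
    linarith
  set φ : ℝ := ∏ i ∈ S, ((p i : ℝ) - 1) with hφ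
  set ε : ℝ := (∏ i ∈ S, (p i : ℝ)) * Real.exp (-(3 * (Fintype.card ι : ℝ) / 40)) with hε
  have h9 : ∀ c ∈ P, ‖((N c : ℂ) - ((2 ^ V.card / φ : ℝ) : ℂ)) * G c‖ ≤ 2 ^ V.card * ε / φ := by
    intro c _
    have h10 := hB2 ι p h V S c hp hG hVS hS hV
    have h11 : ‖G c‖ ≤ 1 := by
      simp only [G]
      rw [norm_prod]
      exact prod_le_one (fun _ _ => norm_nonneg _) (fun i _ => evk_norm _ _ _)
    have h12 : ‖((N c : ℂ) - ((2 ^ V.card / φ : ℝ) : ℂ))‖ ≤ 2 ^ V.card * ε / φ := by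
      rw [← Complex.ofReal_sub, Complex.norm_real, Real.norm_eq_abs, le_div_iff₀ hpos]
      have h13 : |N c - 2 ^ V.card / φ| * φ = |N c * φ - 2 ^ V.card| := by
        rw [← abs_of_pos hpos, ← abs_mul, abs_of_pos hpos, sub_mul, div_mul_cancel₀ _ hpos.ne']
      rw [h13]
      exact h10
    rw [norm_mul]
    calc _ ≤ (2 ^ V.card * ε / φ) * 1 :=
          mul_le_mul h12 h11 (norm_nonneg _) ((norm_nonneg _).trans h12)
      _ = _ := mul_one _
  have h14 : ∑ c ∈ P, (N c : ℂ) * G c = ∑ c ∈ P, ((N c : ℂ) - ((2 ^ V.card / φ : ℝ) : ℂ)) * G c := by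
    simp only [sub_mul]
    rw [sum_sub_distrib, ← mul_sum, h5, mul_zero, sub_zero]
  rw [h4, h14]
  refine (norm_sum_le _ _).trans ((sum_le_sum h9).trans ?_)
  rw [sum_const, nsmul_eq_mul, h7, mul_div_cancel₀ _ hpos.ne']

end

end ItemB3

open ItemB3 in
theorem claimB3 (hB0 : ClaimB0) (hB2 : ClaimB2) : ClaimB3 := by
  intro ι _ _ p _ h B I S χ k hp hG hI hSI hχ hSB hSh hM
  classical
  obtain ⟨i0, hi0⟩ := hSB
  rw [mem_inter] at hi0
  set ε : ℝ := (∏ i ∈ S, (p i : ℝ)) * Real.exp (-(3 * (Fintype.card ι : ℝ) / 40)) with hε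
  set V : Finset ι := (S ∪ B)ᶜ with hV
  have hVc : V.card = Fintype.card ι - (S ∪ B).card := card_compl _
  have hSBle : (S ∪ B).card ≤ Fintype.card ι := card_le_univ _
  have hUle : (S ∪ B).card ≤ S.card + B.card := card_union_le _ _
  have h1 : ∀ A0 ∈ (S \ B).powerset, ‖∑ A' ∈ V.powerset,
      ∏ i, evk (χ i) ((dd p (I ∪ A0 ∪ A') : ℕ) : ZMod (p i)) (k i)‖ ≤ 2 ^ V.card * ε := by
    intro A0 hA0
    rw [mem_powerset] at hA0
    have hi0' : i0 ∉ I := fun hh => disjoint_left.1 hSI hi0.1 hh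
    -- the unit
    let u : ∀ i, (ZMod (p i))ˣ := fun i => ures ((dd p (I ∪ A0) : ℕ) : ZMod (p i)) * k i
    have h2 : ∀ A' ∈ V.powerset, (∏ i, evk (χ i) ((dd p (I ∪ A0 ∪ A') : ℕ) : ZMod (p i)) (k i)) =
        ∏ i ∈ S \ A0, evk (χ i) ((u i : ZMod (p i)) * ((dd p A' : ℕ) : ZMod (p i))) 1 := by
      intro A' hA'
      rw [mem_powerset] at hA'
      have hdis : Disjoint (I ∪ A0) A' := by
        rw [disjoint_left]
        intro x hx hx'
        have h3 := hA' hx'
        rw [hV, mem_compl, mem_union, not_or] at h3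
        rw [mem_union] at hx
        rcases hx with hx | hx
        · exact h3.2 (hI hx)
        · exact h3.1 (mem_sdiff.1 (hA0 hx)).1
      rw [← prod_subset (subset_univ (S \ A0))]
      · refine prod_congr rfl fun i hi => ?_
        rw [mem_sdiff] at hi
        have hiI : i ∉ I := fun hh => disjoint_left.1 hSI hi.1 hh
        have hnz : ((dd p (I ∪ A0) : ℕ) : ZMod (p i)) ≠ 0 := by
          refine dd_unit p hp i _ fun hh => ?_
          rw [mem_union] at hh
          rcases hh with hh | hh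
          · exact hiI hh
          · exact hi.2 hh
        unfold evk
        congr 2
        simp only [u]
        rw [dd_union p _ _ hdis]
        push_cast
        rw [ures_coe _ hnz]
        congr 1
        ring
      · intro i _ hi
        by_cases hiI : i ∈ I ∪ A0
        · rw [dd_zero p i _ (mem_union_left _ hiI), evk_zero]
        · rw [mem_union, not_or] at hiI
          rw [mem_sdiff, not_and, not_not] at hi
          have hiS : i ∉ S := fun hh => hiI.2 (hi hh)
          have : χ i = 1 := by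
            by_contra hne
            exact hiS ((hχ i hiI.1).2 hne)
          rw [this, evk_one]
    rw [sum_congr rfl h2]
    have hi0S : i0 ∈ S \ A0 := by
      rw [mem_sdiff]
      exact ⟨hi0.1, fun hh => (mem_sdiff.1 (hA0 hh)).2 hi0.2⟩
    have hsub : S \ A0 ⊆ S := sdiff_subset
    have h4 := inner p hB0 hB2 hp h hG V (S \ A0) χ u i0 hi0S ((hχ i0 hi0').1 hi0.1) (by
        rw [disjoint_left]
        intro x hx hx'
        rw [hV, mem_compl, mem_union, not_or] at hx
        exact hx.1 (hsub hx')) ((card_le_card hsub).trans hSh) (by omega)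
    refine h4.trans ?_
    refine mul_le_mul_of_nonneg_left ?_ (by positivity)
    refine mul_le_mul_of_nonneg_right ?_ (Real.exp_pos _).le
    have h5 : ∏ i ∈ S \ A0, p i ≤ ∏ i ∈ S, p i :=
      prod_le_prod_of_subset_of_one_le' hsub (fun i _ _ => (Fact.out : (p i).Prime).one_le)
    exact_mod_cast h5
  have h5 : SumF p B I χ k = ∑ A0 ∈ (S \ B).powerset, ∑ A' ∈ V.powerset,
      ∏ i, evk (χ i) ((dd p (I ∪ A0 ∪ A') : ℕ) : ZMod (p i)) (k i) := by
    unfold SumF
    exact sum_fib B I S hI _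
  rw [h5]
  have h6 : ‖∑ A0 ∈ (S \ B).powerset, ∑ A' ∈ V.powerset,
      ∏ i, evk (χ i) ((dd p (I ∪ A0 ∪ A') : ℕ) : ZMod (p i)) (k i)‖ ≤
      2 ^ (S \ B).card * (2 ^ V.card * ε) := by
    refine (norm_sum_le _ _).trans ((sum_le_sum h1).trans ?_)
    rw [sum_const, card_powerset, nsmul_eq_mul]
    push_cast
    exact le_rfl
  have h7 : (S \ B).card + V.card + B.card = Fintype.card ι := by
    have h8 : (S \ B).card + B.card = (S ∪ B).card := by
      rw [← card_union_of_disjoint sdiff_disjoint, sdiff_union_self_eq_union]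
    omega
  calc _ ≤ 2 ^ (S \ B).card * (2 ^ V.card * ε) * 2 ^ B.card :=
        mul_le_mul_of_nonneg_right h6 (by positivity)
    _ = 2 ^ ((S \ B).card + V.card + B.card) * ε := by
        rw [pow_add, pow_add]
        ring
    _ = _ := by rw [h7]

end Pool.Agent.Work.MP_e0aece_nt.Sq

end

section

/-!
# B4: comparison of the law of the residues with the product of the weights
-/

namespace Pool.Agent.Work.MP_e0aece_nt.Sq

open Finset

namespace ItemB4

section

variable {ι : Type} [Fintype ι] [DecidableEq ι]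

theorem mem_fib {B I A : Finset ι} : A ∈ fib B I ↔ A ∩ B = I := by
  rw [fib, Finset.mem_filter]
  simp

theorem card_fib {B I : Finset ι} (hI : I ⊆ B) : (fib B I).card = 2 ^ (Bᶜ).card := by
  rw [← Finset.card_powerset]
  refine Finset.card_bij' (fun A _ => A \ B) (fun A _ => A ∪ I) ?_ ?_ ?_ ?_
  · intro A _
    rw [Finset.mem_powerset]
    intro i hi
    rw [Finset.mem_compl]
    exact (Finset.mem_sdiff.1 hi).2
  · intro A hA
    rw [Finset.mem_powerset] at hA
    rw [mem_fib]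
    ext i
    rw [Finset.mem_inter, Finset.mem_union]
    constructor
    · rintro ⟨h1 | h1, h2⟩
      · exact absurd h2 (Finset.mem_compl.1 (hA h1))
      · exact h1
    · intro h
      exact ⟨Or.inr h, hI h⟩
  · intro A hA
    rw [mem_fib] at hA
    ext i
    rw [Finset.mem_union, Finset.mem_sdiff, ← hA, Finset.mem_inter]
    tauto
  · intro A hA
    rw [Finset.mem_powerset] at hA
    ext i
    rw [Finset.mem_sdiff, Finset.mem_union]
    constructor
    · rintro ⟨h1 | h1, h2⟩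
      · exact h1
      · exact absurd (hI h1) h2
    · intro h
      exact ⟨Or.inl h, Finset.mem_compl.1 (hA h)⟩

variable {p : ι → ℕ} [∀ i, Fact (p i).Prime]

theorem dd_eq_zero (hp : Function.Injective p) (A : Finset ι) (i : ι) :
    ((dd p A : ℕ) : ZMod (p i)) = 0 ↔ i ∈ A := by
  rw [dd, Nat.cast_prod, Finset.prod_eq_zero_iff]
  constructor
  · rintro ⟨j, hj, h⟩
    rw [ZMod.natCast_eq_zero_iff] at h
    have h1 := (Nat.prime_dvd_prime_iff_eq (Fact.out : (p i).Prime) (Fact.out : (p j).Prime)).1 h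
    rw [hp h1]
    exact hj
  · intro h
    exact ⟨i, h, by rw [ZMod.natCast_self]⟩

theorem dd_union {A A' : Finset ι} (h : Disjoint A A') : dd p (A ∪ A') = dd p A * dd p A' := by
  rw [dd, dd, dd, Finset.prod_union h]

theorem ures_coe {q : ℕ} [Fact q.Prime] {x : ZMod q} (h : x ≠ 0) :
    ((ures x : (ZMod q)ˣ) : ZMod q) = x := by
  rw [ures, dif_neg h, Units.val_mk0]

end

end ItemB4

open ItemB4 in
theorem claimB4 (hB2 : ClaimB2) : ClaimB4 := by
  intro ι _ _ p _ h B I S x hp hg hIB hSI hSh hcard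
  have hpos1 : ∀ i, (0 : ℝ) < (p i : ℝ) - 1 := by
    intro i
    have : 1 < p i := (Fact.out : (p i).Prime).one_lt
    have : (1 : ℝ) < p i := by exact_mod_cast this
    linarith
  have hom : ∀ i, 0 ≤ omB p B i (x i) := by
    intro i
    have := hpos1 i
    rw [omB, om1, om0]
    split_ifs <;> positivity
  have hE : (0 : ℝ) ≤ (∏ i ∈ S, (p i : ℝ)) * Real.exp (-(3 * (Fintype.card ι : ℝ) / 40)) := by
    positivity
  by_cases hS0 : ∃ i ∈ S, x i = 0 ∧ i ∈ B
  · obtain ⟨i, hiS, hxi, hiB⟩ := hS0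
    have hempty : ((fib B I).filter fun A => ∀ i ∈ S, ((dd p A : ℕ) : ZMod (p i)) = x i) = ∅ := by
      rw [Finset.filter_eq_empty_iff]
      intro A hA hall
      rw [mem_fib] at hA
      have h1 := hall i hiS
      rw [hxi, dd_eq_zero hp] at h1
      have h2 : i ∈ I := by
        rw [← hA, Finset.mem_inter]
        exact ⟨h1, hiB⟩
      exact (Finset.disjoint_left.1 hSI hiS) h2
    rw [hempty, Finset.card_empty, Nat.cast_zero]
    refine mul_nonneg (mul_nonneg (by linarith) (Nat.cast_nonneg _)) ?_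
    exact Finset.prod_nonneg fun i _ => hom i
  · push Not at hS0
    set S0 := S.filter fun i => x i = 0 with hS0def
    set S1 := S.filter fun i => x i ≠ 0 with hS1def
    set V := (S ∪ B)ᶜ with hV
    set c : ∀ i, (ZMod (p i))ˣ := fun i => ures (x i / ((dd p (I ∪ S0) : ℕ) : ZMod (p i))) with hc
    have hS0B : Disjoint S0 B := by
      rw [Finset.disjoint_left]
      intro i hi
      rw [hS0def, Finset.mem_filter] at hi
      exact hS0 i hi.1 hi.2
    have hVS1 : Disjoint V S1 := by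
      rw [Finset.disjoint_left]
      intro i hi h1
      rw [hV, Finset.mem_compl, Finset.mem_union] at hi
      rw [hS1def, Finset.mem_filter] at h1
      exact hi (Or.inl h1.1)
    have hVc : Fintype.card ι - V.card = (S ∪ B).card := by
      rw [hV, Finset.card_compl]
      have := Finset.card_le_univ (S ∪ B)
      omega
    have hS1S : S1 ⊆ S := Finset.filter_subset _ _
    have hb2 := hB2 ι p h V S1 c hp hg hVS1 ((Finset.card_le_card hS1S).trans hSh) (by
      rw [hVc]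
      have := Finset.card_union_le S B
      omega)
    set N' := (V.powerset.filter fun A => ∀ i ∈ S1,
      ((dd p A : ℕ) : ZMod (p i)) = (c i : ZMod (p i))).card with hN'
    have hle : ((fib B I).filter fun A => ∀ i ∈ S, ((dd p A : ℕ) : ZMod (p i)) = x i).card ≤
        N' := by
      have hdec : ∀ A ∈ ((fib B I).filter fun A => ∀ i ∈ S,
          ((dd p A : ℕ) : ZMod (p i)) = x i), A = (I ∪ S0) ∪ (A ∩ V) := by
        intro A hA
        rw [Finset.mem_filter, mem_fib] at hA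
        ext i
        rw [Finset.mem_union, Finset.mem_union, Finset.mem_inter]
        constructor
        · intro hi
          by_cases hiB : i ∈ B
          · left; left
            rw [← hA.1, Finset.mem_inter]
            exact ⟨hi, hiB⟩
          · by_cases hiS : i ∈ S
            · left; right
              rw [hS0def, Finset.mem_filter]
              refine ⟨hiS, ?_⟩
              rw [← hA.2 i hiS, dd_eq_zero hp]
              exact hi
            · right
              refine ⟨hi, ?_⟩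
              rw [hV, Finset.mem_compl, Finset.mem_union]
              tauto
        · rintro ((hi | hi) | hi)
          · rw [← hA.1, Finset.mem_inter] at hi
            exact hi.1
          · rw [hS0def, Finset.mem_filter] at hi
            rw [← dd_eq_zero hp A i, hA.2 i hi.1]
            exact hi.2
          · exact hi.1
      refine Finset.card_le_card_of_injOn (fun A => A ∩ V) ?_ ?_
      · intro A hA
        have hA' := hdec A hA
        rw [Finset.mem_coe, Finset.mem_filter, mem_fib] at hA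
        rw [Finset.mem_coe, Finset.mem_filter, Finset.mem_powerset]
        refine ⟨Finset.inter_subset_right, fun i hi => ?_⟩
        rw [hS1def, Finset.mem_filter] at hi
        have hdis : Disjoint (I ∪ S0) (A ∩ V) := by
          rw [Finset.disjoint_left]
          intro j hj hj'
          rw [Finset.mem_inter, hV, Finset.mem_compl, Finset.mem_union] at hj'
          rw [Finset.mem_union] at hj
          rcases hj with hj | hj
          · exact hj'.2 (Or.inr (hIB hj))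
          · rw [hS0def, Finset.mem_filter] at hj
            exact hj'.2 (Or.inl hj.1)
        have hne : ((dd p (I ∪ S0) : ℕ) : ZMod (p i)) ≠ 0 := by
          rw [Ne, dd_eq_zero hp, Finset.mem_union]
          rintro (h1 | h1)
          · exact (Finset.disjoint_left.1 hSI hi.1) h1
          · rw [hS0def, Finset.mem_filter] at h1
            exact hi.2 h1.2
        have h1 := hA.2 i hi.1
        rw [hA', dd_union hdis, Nat.cast_mul] at h1
        rw [hc]
        simp only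
        rw [ures_coe (div_ne_zero hi.2 hne), eq_div_iff hne, mul_comm]
        exact h1
      · intro A hA A' hA' heq
        rw [hdec A hA, hdec A' hA']
        simp only at heq
        rw [heq]
    -- the product of the weights
    have hprod : ∏ i ∈ S, omB p B i (x i) =
        (1 / 2) ^ (S \ B).card * ∏ i ∈ S1, (1 / ((p i : ℝ) - 1)) := by
      have h1 : ∀ i ∈ S, omB p B i (x i) =
          (if i ∈ B then 1 else 1 / 2) * (if x i = 0 then 1 else 1 / ((p i : ℝ) - 1)) := by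
        intro i hi
        have := hpos1 i
        rw [omB, om1, om0]
        by_cases hiB : i ∈ B
        · have hx : x i ≠ 0 := fun h => hS0 i hi h hiB
          rw [if_pos hiB, if_pos hiB, if_neg hx, if_neg hx, one_mul]
        · rw [if_neg hiB, if_neg hiB]
          by_cases hx : x i = 0
          · rw [if_pos hx, if_pos hx, mul_one]
          · rw [if_neg hx, if_neg hx]
            field_simp
      rw [Finset.prod_congr rfl h1, Finset.prod_mul_distrib]
      congr 1
      · rw [Finset.prod_ite, Finset.prod_const_one, one_mul, Finset.prod_const]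
        congr 2
        ext i
        rw [Finset.mem_filter, Finset.mem_sdiff]
      · rw [hS1def, Finset.prod_filter]
        refine Finset.prod_congr rfl fun i _ => ?_
        by_cases hx : x i = 0
        · rw [if_pos hx, if_neg (not_not.2 hx)]
        · rw [if_neg hx, if_pos hx]
    have hBV : (Bᶜ).card = V.card + (S \ B).card := by
      have h1 : Bᶜ = V ∪ (S \ B) := by
        ext i
        rw [hV, Finset.mem_union, Finset.mem_compl, Finset.mem_compl, Finset.mem_union,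
          Finset.mem_sdiff]
        tauto
      rw [h1, Finset.card_union_of_disjoint]
      rw [Finset.disjoint_left]
      intro i hi h2
      rw [hV, Finset.mem_compl, Finset.mem_union] at hi
      exact hi (Or.inl (Finset.mem_sdiff.1 h2).1)
    have hP : 0 < ∏ i ∈ S1, ((p i : ℝ) - 1) := Finset.prod_pos fun i _ => hpos1 i
    have hinv : ∏ i ∈ S1, (1 / ((p i : ℝ) - 1)) = (∏ i ∈ S1, ((p i : ℝ) - 1))⁻¹ := by
      rw [← Finset.prod_inv_distrib]
      exact Finset.prod_congr rfl fun i _ => one_div _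
    have hSS1 : ∏ i ∈ S1, (p i : ℝ) ≤ ∏ i ∈ S, (p i : ℝ) := by
      have h0 : ∏ i ∈ S1, p i ≤ ∏ i ∈ S, p i :=
        Finset.prod_le_prod_of_subset_of_one_le' hS1S
          fun i _ _ => (Fact.out : (p i).Prime).one_le
      exact_mod_cast h0
    have hN : (N' : ℝ) * ∏ i ∈ S1, ((p i : ℝ) - 1) ≤ 2 ^ V.card *
        (1 + (∏ i ∈ S, (p i : ℝ)) * Real.exp (-(3 * (Fintype.card ι : ℝ) / 40))) := by
      have h1 := (abs_le.1 hb2).2
      have h2 : (∏ i ∈ S1, (p i : ℝ)) * Real.exp (-(3 * (Fintype.card ι : ℝ) / 40)) ≤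
          (∏ i ∈ S, (p i : ℝ)) * Real.exp (-(3 * (Fintype.card ι : ℝ) / 40)) :=
        mul_le_mul_of_nonneg_right hSS1 (Real.exp_pos _).le
      have h3 : (0 : ℝ) < 2 ^ V.card := by positivity
      nlinarith
    have hfin : (fib B I).card * ∏ i ∈ S, omB p B i (x i) =
        2 ^ V.card * (∏ i ∈ S1, ((p i : ℝ) - 1))⁻¹ := by
      rw [card_fib hIB, hprod, hinv, hBV]
      push_cast
      rw [pow_add]
      have h4 : (2 : ℝ) ^ (S \ B).card * (1 / 2) ^ (S \ B).card = 1 := by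
        rw [← mul_pow]
        norm_num
      linear_combination (2 ^ V.card * (∏ i ∈ S1, ((p i : ℝ) - 1))⁻¹) * h4
    rw [mul_assoc, hfin]
    have h5 : (N' : ℝ) ≤ 2 ^ V.card *
        (1 + (∏ i ∈ S, (p i : ℝ)) * Real.exp (-(3 * (Fintype.card ι : ℝ) / 40))) *
          (∏ i ∈ S1, ((p i : ℝ) - 1))⁻¹ := by
      rw [← div_eq_mul_inv, le_div_iff₀ hP]
      exact hN
    calc ((((fib B I).filter fun A => ∀ i ∈ S,
          ((dd p A : ℕ) : ZMod (p i)) = x i).card : ℕ) : ℝ) ≤ (N' : ℝ) := by exact_mod_cast hle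
      _ ≤ _ := h5
      _ = _ := by ring

end Pool.Agent.Work.MP_e0aece_nt.Sq

end

section

/-!
# Item B5: the spectral gap for coinciding arguments
-/

namespace Pool.Agent.Work.MP_e0aece_nt.Sq

open Finset

namespace ItemB5

lemma ures_unit {q : ℕ} [Fact q.Prime] {x : ZMod q} (h : x ≠ 0) : ((ures x : (ZMod q)ˣ) : ZMod q) = x := by
  unfold ures
  rw [dif_neg h]
  rfl

lemma norm_mulChar_unit {q : ℕ} [Fact q.Prime] (ψ : MulChar (ZMod q) ℂ) (u : (ZMod q)ˣ) :
    ‖ψ (u : ZMod q)‖ = 1 := by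
  have h1 : (ψ (u : ZMod q)) ^ (Fintype.card (ZMod q)ˣ) = 1 := by
    rw [← map_pow, ← Units.val_pow_eq_pow_val, pow_card_eq_one]
    simp
  exact Complex.norm_eq_one_of_pow_eq_one h1 Fintype.card_ne_zero

/-- The sum over the units. -/
lemma sum_units {q : ℕ} [Fact q.Prime] (F : ZMod q → ℂ) :
    ∑ x : (ZMod q)ˣ, F (x : ZMod q) = ∑ x : ZMod q, F x - F 0 := by
  classical
  have h1 : ∑ x : (ZMod q)ˣ, F (x : ZMod q) = ∑ x : {x : ZMod q // x ≠ 0}, F (x : ZMod q) :=
    Fintype.sum_equiv unitsEquivNeZero _ _ fun x => rfl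
  rw [h1, ← Finset.sum_subtype (Finset.univ.filter fun x : ZMod q => x ≠ 0) (by simp) F]
  rw [← Finset.sum_filter_add_sum_filter_not Finset.univ (fun x : ZMod q => x ≠ 0) F]
  have h2 : (Finset.univ.filter fun x : ZMod q => ¬ x ≠ 0) = {0} := by
    ext x
    simp
  rw [h2, Finset.sum_singleton]
  ring

variable {q : ℕ} [Fact q.Prime]

/-- Comparison with the sum over the field. -/
lemma compare (D : Finset (ZMod q)ˣ) (ψ : (ZMod q)ˣ → MulChar (ZMod q) ℂ) :
    ‖∑ x : (ZMod q)ˣ, ∏ v ∈ D, evk (ψ v) (x : ZMod q) v‖ ≤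
      ‖∑ x : ZMod q, ∏ v ∈ D, ψ v (x * (v : ZMod q) + 1)‖ + 1 + D.card := by
  classical
  set F : ZMod q → ℂ := fun x => ∏ v ∈ D, evk (ψ v) x v with hF
  set H : ZMod q → ℂ := fun x => ∏ v ∈ D, ψ v (x * (v : ZMod q) + 1) with hH
  have hFn : ∀ x, ‖F x‖ ≤ 1 := by
    intro x
    rw [hF]
    simp only
    rw [norm_prod]
    refine Finset.prod_le_one (fun _ _ => norm_nonneg _) fun v _ => ?_
    unfold evk
    rw [norm_mulChar_unit]
  have hF0 : F 0 = 1 := by
    rw [hF]
    simp only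
    refine Finset.prod_eq_one fun v _ => ?_
    unfold evk
    rw [zero_mul, zero_add, ures_unit one_ne_zero, map_one]
  have hdiff : ∀ x, ‖F x - H x‖ ≤ ∑ v ∈ D, (if x * (v : ZMod q) + 1 = 0 then (1 : ℝ) else 0) := by
    intro x
    by_cases h : ∃ v ∈ D, x * (v : ZMod q) + 1 = 0
    · obtain ⟨v, hv, h0⟩ := h
      have h1 : H x = 0 := by
        rw [hH]
        simp only
        refine Finset.prod_eq_zero hv ?_
        rw [h0]
        exact MulChar.map_zero _
      rw [h1, sub_zero]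
      refine le_trans (hFn x) ?_
      have h2 : (if x * (v : ZMod q) + 1 = 0 then (1 : ℝ) else 0) ≤
          ∑ v ∈ D, (if x * (v : ZMod q) + 1 = 0 then (1 : ℝ) else 0) :=
        Finset.single_le_sum (f := fun v : (ZMod q)ˣ =>
          (if x * (v : ZMod q) + 1 = 0 then (1 : ℝ) else 0))
          (fun v _ => by split_ifs <;> norm_num) hv
      rw [if_pos h0] at h2
      exact h2
    · push Not at h
      have h1 : F x = H x := by
        rw [hF, hH]
        simp only
        refine Finset.prod_congr rfl fun v hv => ?_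
        unfold evk
        rw [ures_unit (h v hv)]
      rw [h1, sub_self, norm_zero]
      exact Finset.sum_nonneg fun v _ => by split_ifs <;> norm_num
  have hsum : ∑ x : ZMod q, ‖F x - H x‖ ≤ D.card := by
    calc ∑ x : ZMod q, ‖F x - H x‖
        ≤ ∑ x : ZMod q, ∑ v ∈ D, (if x * (v : ZMod q) + 1 = 0 then (1 : ℝ) else 0) :=
          Finset.sum_le_sum fun x _ => hdiff x
      _ = ∑ v ∈ D, ∑ x : ZMod q, (if x * (v : ZMod q) + 1 = 0 then (1 : ℝ) else 0) :=
          Finset.sum_comm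
      _ ≤ ∑ v ∈ D, 1 := by
          refine Finset.sum_le_sum fun v _ => ?_
          have hv : (v : ZMod q) ≠ 0 := v.ne_zero
          have h1 : ∀ x : ZMod q, (x * (v : ZMod q) + 1 = 0) ↔ x = -(v : ZMod q)⁻¹ := by
            intro x
            constructor
            · intro h
              have h2 : x * (v : ZMod q) = -1 := eq_neg_of_add_eq_zero_left h
              rw [← one_div, ← neg_div, eq_div_iff hv, h2]
            · intro h
              rw [h, neg_mul, inv_mul_cancel₀ hv]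
              ring
          simp only [h1, Finset.sum_ite_eq', Finset.mem_univ, if_true]
          exact le_rfl
      _ = D.card := by simp
  have h1 : ∑ x : (ZMod q)ˣ, F (x : ZMod q) = ∑ x : ZMod q, (F x - H x) + ∑ x : ZMod q, H x - 1 := by
    rw [sum_units F, hF0, ← Finset.sum_add_distrib]
    congr 1
    exact Finset.sum_congr rfl fun x _ => by ring
  have h2 : ∑ x : (ZMod q)ˣ, ∏ v ∈ D, evk (ψ v) (x : ZMod q) v = ∑ x : (ZMod q)ˣ, F (x : ZMod q) := rfl
  rw [h2, h1]
  calc ‖∑ x : ZMod q, (F x - H x) + ∑ x : ZMod q, H x - 1‖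
      ≤ ‖∑ x : ZMod q, (F x - H x) + ∑ x : ZMod q, H x‖ + ‖(1 : ℂ)‖ := norm_sub_le _ _
    _ ≤ (‖∑ x : ZMod q, (F x - H x)‖ + ‖∑ x : ZMod q, H x‖) + 1 := by
        rw [norm_one]
        exact add_le_add (norm_add_le _ _) le_rfl
    _ ≤ (D.card + ‖∑ x : ZMod q, H x‖) + 1 := by
        refine add_le_add (add_le_add (le_trans (norm_sum_le _ _) hsum) le_rfl) le_rfl
    _ = _ := by ring

/-- Weil for the product over `D`. -/
lemma weilD (hW : ClaimWeil) (D : Finset (ZMod q)ˣ) (ψ : (ZMod q)ˣ → MulChar (ZMod q) ℂ)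
    (hD : D.Nonempty) (hψ : ∀ v ∈ D, ψ v ≠ 1) :
    ‖∑ x : ZMod q, ∏ v ∈ D, ψ v (x * (v : ZMod q) + 1)‖ ≤ D.card * Real.sqrt q := by
  classical
  let e : Fin D.card ≃ D := D.equivFin.symm
  let a : Fin D.card → ZMod q := fun j => -((e j : (ZMod q)ˣ) : ZMod q)⁻¹
  let χ : Fin D.card → MulChar (ZMod q) ℂ := fun j => ψ (e j)
  have ha : Function.Injective a := by
    intro i j hij
    have h1 : ((e i : (ZMod q)ˣ) : ZMod q) = ((e j : (ZMod q)ˣ) : ZMod q) := inv_injective (neg_injective hij)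
    exact e.injective (Subtype.ext (Units.ext h1))
  have h1 := hW q D.card a χ (Finset.card_pos.mpr hD) ha (fun j => hψ _ (e j).2)
  have h2 : ∀ x : ZMod q, ∏ v ∈ D, ψ v (x * (v : ZMod q) + 1) =
      (∏ v ∈ D, ψ v (v : ZMod q)) * ∏ j, χ j (x - a j) := by
    intro x
    have h3 : ∏ j, χ j (x - a j) = ∏ v ∈ D, ψ v (x + (v : ZMod q)⁻¹) := by
      rw [← Finset.prod_coe_sort D]
      refine Fintype.prod_equiv e _ _ fun j => ?_
      simp only [χ, a, sub_neg_eq_add]
    rw [h3, ← Finset.prod_mul_distrib]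
    refine Finset.prod_congr rfl fun v _ => ?_
    rw [← map_mul]
    congr 1
    have hv : (v : ZMod q) ≠ 0 := v.ne_zero
    field_simp
  rw [Finset.sum_congr rfl fun x _ => h2 x, ← Finset.mul_sum, norm_mul]
  have h4 : ‖∏ v ∈ D, ψ v (v : ZMod q)‖ = 1 := by
    rw [norm_prod]
    exact Finset.prod_eq_one fun v _ => norm_mulChar_unit _ _
  rw [h4, one_mul]
  exact h1

end ItemB5

open ItemB5 in
theorem claimB5 (hW : ClaimWeil) : ClaimB5 := by
  intro q _ n k ψ hn hq hj
  classical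
  obtain ⟨j0, hj0⟩ := hj
  set Ψ : (ZMod q)ˣ → MulChar (ZMod q) ℂ :=
    fun v => ∏ j ∈ Finset.univ.filter (fun j => k j = v), ψ j with hΨ
  set D : Finset (ZMod q)ˣ := (Finset.univ.image k).filter fun v => Ψ v ≠ 1 with hD
  have hDne : D.Nonempty := ⟨k j0, by
    rw [hD, Finset.mem_filter]
    exact ⟨Finset.mem_image_of_mem k (Finset.mem_univ _), hj0⟩⟩
  have hDcard : D.card ≤ n := by
    refine le_trans (Finset.card_filter_le _ _) (le_trans Finset.card_image_le ?_)
    simp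
  have hprodchar : ∀ (s : Finset (Fin n)) (u : (ZMod q)ˣ),
      (∏ j ∈ s, ψ j) (u : ZMod q) = ∏ j ∈ s, ψ j (u : ZMod q) := by
    intro s u
    induction s using Finset.induction_on with
    | empty => simp
    | insert a s has ih =>
      rw [Finset.prod_insert has, Finset.prod_insert has, MulChar.mul_apply, ih]
  have hprod : ∀ x : ZMod q, ∏ j, evk (ψ j) x (k j) = ∏ v ∈ D, evk (Ψ v) x v := by
    intro x
    have h1 : ∏ j, evk (ψ j) x (k j) = ∏ v ∈ Finset.univ.image k, evk (Ψ v) x v := by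
      rw [← Finset.prod_fiberwise_of_maps_to (s := Finset.univ) (t := Finset.univ.image k) (g := k)
        (fun j _ => Finset.mem_image_of_mem k (Finset.mem_univ _))]
      refine Finset.prod_congr rfl fun v _ => ?_
      unfold evk
      rw [hΨ]
      simp only
      rw [hprodchar]
      refine Finset.prod_congr rfl fun j hj => ?_
      rw [(Finset.mem_filter.mp hj).2]
    rw [h1, hD, Finset.prod_filter]
    refine Finset.prod_congr rfl fun v _ => ?_
    split_ifs with h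
    · rfl
    · push Not at h
      unfold evk
      rw [h, MulChar.one_apply_coe]
  have hsum : ∑ x : (ZMod q)ˣ, ∏ j, evk (ψ j) (x : ZMod q) (k j) =
      ∑ x : (ZMod q)ˣ, ∏ v ∈ D, evk (Ψ v) (x : ZMod q) v :=
    Finset.sum_congr rfl fun x _ => hprod (x : ZMod q)
  rw [hsum]
  have h1 := compare D Ψ
  have h2 := weilD hW D Ψ hDne (fun v hv => (Finset.mem_filter.mp hv).2)
  have hDn : (D.card : ℝ) ≤ n := by exact_mod_cast hDcard
  have hqR : 100 * (n : ℝ) ^ 2 ≤ q := by exact_mod_cast hq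
  have hnR : (1 : ℝ) ≤ n := by exact_mod_cast hn
  have hs := Real.sqrt_nonneg (q : ℝ)
  have hss : Real.sqrt q * Real.sqrt q = q := Real.mul_self_sqrt (by positivity)
  have h10 : 10 * (n : ℝ) ≤ Real.sqrt q := by
    apply Real.le_sqrt_of_sq_le
    nlinarith
  nlinarith [mul_le_mul_of_nonneg_right hDn hs]

end Pool.Agent.Work.MP_e0aece_nt.Sq

end

section

/-! Item B6: the moment of the correlation function at one prime. -/

namespace Pool.Agent.Work.MP_e0aece_nt.Sq

open Finset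

namespace ItemB6

section basic

variable {q : ℕ} [hq : Fact q.Prime]

theorem evk_norm (ψ : MulChar (ZMod q) ℂ) (a : ZMod q) (k : (ZMod q)ˣ) : ‖evk ψ a k‖ = 1 :=
  DirichletCharacter.unit_norm_eq_one ψ _

theorem conj_evk (ψ : MulChar (ZMod q) ℂ) (a : ZMod q) (k : (ZMod q)ˣ) :
    (starRingEnd ℂ) (evk ψ a k) = evk ψ⁻¹ a k :=
  MulChar.star_apply' ψ _

theorem evk_zero (ψ : MulChar (ZMod q) ℂ) (k : (ZMod q)ˣ) : evk ψ 0 k = 1 := by
  unfold evk
  have : (ures ((0 : ZMod q) * (k : ZMod q) + 1) : (ZMod q)ˣ) = 1 := by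
    unfold ures
    rw [zero_mul, zero_add, dif_neg one_ne_zero]
    ext
    rfl
  rw [this, Units.val_one, map_one]

theorem sum_units (G : ZMod q → ℂ) : ∑ x, G x = G 0 + ∑ u : (ZMod q)ˣ, G (u : ZMod q) := by
  rw [← Finset.add_sum_erase Finset.univ G (Finset.mem_univ 0)]
  congr 1
  symm
  refine Finset.sum_bij (fun u _ => (u : ZMod q)) ?_ ?_ ?_ ?_
  · intro u _
    exact Finset.mem_erase.mpr ⟨u.ne_zero, Finset.mem_univ _⟩
  · intro u _ v _ h
    exact Units.ext h
  · intro b hb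
    exact ⟨Units.mk0 b (Finset.ne_of_mem_erase hb), Finset.mem_univ _, rfl⟩
  · intro u _
    rfl

/-- The weights. -/
noncomputable def om (q : ℕ) (t : Bool) (x : ZMod q) : ℝ := if t then om1 q x else om0 q x

theorem q1_pos : (0 : ℝ) < (q : ℝ) - 1 := by
  have h : 1 < q := hq.out.one_lt
  have : (1 : ℝ) < q := by exact_mod_cast h
  linarith

theorem card_units : Fintype.card (ZMod q)ˣ = q - 1 := ZMod.card_units q

theorem card_units_real : ((Fintype.card (ZMod q)ˣ : ℕ) : ℝ) = (q : ℝ) - 1 := by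
  rw [card_units, Nat.cast_sub hq.out.one_lt.le, Nat.cast_one]

theorem sum_om (t : Bool) (G : ZMod q → ℂ) : ∑ x, (om q t x : ℂ) * G x =
    if t then ((q : ℂ) - 1)⁻¹ * ∑ u : (ZMod q)ˣ, G (u : ZMod q)
    else 1 / 2 * G 0 + 1 / 2 * (((q : ℂ) - 1)⁻¹ * ∑ u : (ZMod q)ˣ, G (u : ZMod q)) := by
  rw [sum_units]
  cases t
  · simp only [Bool.false_eq_true, if_false]
    have h0 : (om q false (0 : ZMod q) : ℂ) = 1 / 2 := by
      unfold om om0
      simp
    rw [h0]
    congr 1
    rw [Finset.mul_sum, Finset.mul_sum]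
    refine Finset.sum_congr rfl fun u _ => ?_
    have h1 : (om q false (u : ZMod q) : ℂ) = 1 / 2 * ((q : ℂ) - 1)⁻¹ := by
      unfold om om0
      simp only [Bool.false_eq_true, if_false, if_neg u.ne_zero]
      push_cast
      rw [one_div, mul_inv, one_div]
    rw [h1]
    ring
  · simp only [if_true]
    have h0 : (om q true (0 : ZMod q) : ℂ) = 0 := by
      unfold om om1
      simp
    rw [h0, zero_mul, zero_add, Finset.mul_sum]
    refine Finset.sum_congr rfl fun u _ => ?_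
    have h1 : (om q true (u : ZMod q) : ℂ) = ((q : ℂ) - 1)⁻¹ := by
      unfold om om1
      simp only [if_true, if_neg u.ne_zero]
      push_cast
      rw [one_div]
    rw [h1]

/-- The character sums. -/
noncomputable def EE {n : ℕ} (t : Bool) (w : Fin n → MulChar (ZMod q) ℂ × (ZMod q)ˣ) : ℂ :=
  ∑ x : ZMod q, (om q t x : ℂ) * ∏ l, evk (w l).1 x (w l).2

theorem prod_norm {n : ℕ} (w : Fin n → MulChar (ZMod q) ℂ × (ZMod q)ˣ) (x : ZMod q) :
    ‖∏ l, evk (w l).1 x (w l).2‖ = 1 := by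
  rw [norm_prod]
  exact Finset.prod_eq_one fun l _ => evk_norm _ _ _

theorem EE_le_of {n : ℕ} (t : Bool) (w : Fin n → MulChar (ZMod q) ℂ × (ZMod q)ˣ) (b : ℝ)
    (hb0 : b ≤ 1)
    (hb : ‖∑ x : (ZMod q)ˣ, ∏ l, evk (w l).1 (x : ZMod q) (w l).2‖ ≤ ((q : ℝ) - 1) * b) :
    ‖EE t w‖ ≤ 1 / 2 + b / 2 := by
  unfold EE
  rw [sum_om]
  have hq1 : (0 : ℝ) < (q : ℝ) - 1 := q1_pos
  have hn : ‖((q : ℂ) - 1)⁻¹ * ∑ u : (ZMod q)ˣ, ∏ l, evk (w l).1 (u : ZMod q) (w l).2‖ ≤ b := by
    rw [norm_mul, norm_inv]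
    have : ‖(q : ℂ) - 1‖ = (q : ℝ) - 1 := by
      have h1 : (q : ℂ) - 1 = (((q : ℝ) - 1 : ℝ) : ℂ) := by push_cast; rfl
      rw [h1, Complex.norm_real, Real.norm_eq_abs, abs_of_pos hq1]
    rw [this, inv_mul_le_iff₀ hq1]
    exact hb
  cases t
  · simp only [Bool.false_eq_true, if_false]
    refine (norm_add_le _ _).trans ?_
    rw [norm_mul, norm_mul, prod_norm]
    have : ‖(1 / 2 : ℂ)‖ = 1 / 2 := by norm_num
    rw [this]
    linarith
  · simp only [if_true]
    linarith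

theorem EE_le_one {n : ℕ} (t : Bool) (w : Fin n → MulChar (ZMod q) ℂ × (ZMod q)ˣ) :
    ‖EE t w‖ ≤ 1 := by
  have := EE_le_of t w 1 le_rfl (by
    calc ‖∑ x : (ZMod q)ˣ, ∏ l, evk (w l).1 (x : ZMod q) (w l).2‖
        ≤ ∑ x : (ZMod q)ˣ, ‖∏ l, evk (w l).1 (x : ZMod q) (w l).2‖ := norm_sum_le _ _
      _ = ∑ x : (ZMod q)ˣ, (1 : ℝ) := Finset.sum_congr rfl fun x _ => prod_norm w _
      _ = ((q : ℝ) - 1) * 1 := by
        rw [Finset.sum_const, Finset.card_univ, nsmul_eq_mul, card_units_real])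
  linarith

end basic

section powers

variable {q : ℕ} [hq : Fact q.Prime]

theorem mem_Pw {lam : ℕ} (ψ : MulChar (ZMod q) ℂ) :
    ψ ∈ Pw q lam ↔ ψ ≠ 1 ∧ ∃ φ : MulChar (ZMod q) ℂ, φ ^ lam = ψ := by
  classical
  unfold Pw
  rw [dif_pos hq.out.ne_zero]
  simp [Finset.mem_erase]

theorem inv_mem_Pw {lam : ℕ} {ψ : MulChar (ZMod q) ℂ} (h : ψ ∈ Pw q lam) : ψ⁻¹ ∈ Pw q lam := by
  rw [mem_Pw] at h ⊢
  obtain ⟨h1, φ, h2⟩ := h
  exact ⟨fun h => h1 (inv_eq_one.mp h), φ⁻¹, by rw [inv_pow, h2]⟩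

theorem card_Pw {lam : ℕ} (hlam : 1 ≤ lam) (hdvd : lam ∣ q - 1) :
    ((Pw q lam).card : ℝ) ≤ ((q : ℝ) - 1) / lam := by
  classical
  let _ : Fintype (MulChar (ZMod q) ℂ) := Fintype.ofFinite _
  obtain ⟨f, hf⟩ := hdvd
  have hq1 : 0 < q - 1 := Nat.sub_pos_of_lt hq.out.one_lt
  have hf0 : 0 < f := by
    rcases Nat.eq_zero_or_pos f with h | h
    · rw [h, mul_zero] at hf
      omega
    · exact h
  obtain ⟨e⟩ := MulChar.mulEquiv_units (ZMod q) ℂ
  have : IsCyclic (MulChar (ZMod q) ℂ) := isCyclic_of_surjective e.symm e.symm.surjective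
  have hsub : Pw q lam ⊆ Finset.univ.filter fun ψ : MulChar (ZMod q) ℂ => ψ ^ f = 1 := by
    intro ψ hψ
    rw [mem_Pw] at hψ
    obtain ⟨_, φ, h2⟩ := hψ
    rw [Finset.mem_filter]
    refine ⟨Finset.mem_univ _, ?_⟩
    rw [← h2, ← pow_mul, ← hf]
    have hcard : Nat.card (MulChar (ZMod q) ℂ) = q - 1 := by
      rw [MulChar.card_eq_card_units_of_hasEnoughRootsOfUnity, Nat.card_eq_fintype_card, card_units]
    rw [← hcard]
    exact pow_card_eq_one'
  have h1 : (Pw q lam).card ≤ f :=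
    (Finset.card_le_card hsub).trans (IsCyclic.card_pow_eq_one_le hf0)
  have h2 : ((q : ℝ) - 1) / lam = f := by
    have h3 : ((q - 1 : ℕ) : ℝ) = (q : ℝ) - 1 := by
      rw [Nat.cast_sub hq.out.one_lt.le, Nat.cast_one]
    have h4 : (lam : ℝ) ≠ 0 := by
      have : (0 : ℝ) < lam := by exact_mod_cast hlam
      exact this.ne'
    rw [← h3, hf, Nat.cast_mul, mul_div_cancel_left₀ _ h4]
  rw [h2]
  exact_mod_cast h1

/-- The correlation function is real. -/
theorem conj_Yq (lam r : ℕ) (x x' : Fin r → ZMod q) :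
    (starRingEnd ℂ) (Yq q lam r x x') = Yq q lam r x x' := by
  unfold Yq
  rw [map_sum]
  refine Finset.sum_bij (fun ψ _ => ψ⁻¹) (fun ψ h => inv_mem_Pw h) ?_ ?_ ?_
  · intro a _ b _ h
    exact inv_injective h
  · intro b hb
    exact ⟨b⁻¹, inv_mem_Pw hb, inv_inv b⟩
  · intro ψ _
    rw [map_sum]
    refine Finset.sum_congr rfl fun k _ => ?_
    rw [map_prod]
    refine Finset.prod_congr rfl fun j _ => ?_
    rw [map_mul, conj_evk, conj_evk, conj_evk]

end powers

section expansion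

variable {q : ℕ} [hq : Fact q.Prime]

/-- The index set of the expansion. -/
noncomputable def WW (q lam n : ℕ) [Fact q.Prime] :
    Finset (Fin n → MulChar (ZMod q) ℂ × (ZMod q)ˣ) :=
  Fintype.piFinset fun _ : Fin n => Pw q lam ×ˢ (Finset.univ : Finset (ZMod q)ˣ)

theorem Yq_pow (lam r n : ℕ) (x x' : Fin r → ZMod q) :
    (Yq q lam r x x') ^ n = ∑ w ∈ WW q lam n, (∏ j, ∏ l, evk (w l).1 (x j) (w l).2) *
      ∏ j, (starRingEnd ℂ) (∏ l, evk (w l).1 (x' j) (w l).2) := by
  have h1 : Yq q lam r x x' = ∑ p ∈ Pw q lam ×ˢ (Finset.univ : Finset (ZMod q)ˣ),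
      ∏ j, (evk p.1 (x j) p.2 * (starRingEnd ℂ) (evk p.1 (x' j) p.2)) := by
    unfold Yq
    rw [Finset.sum_product]
  rw [h1, Finset.sum_pow']
  refine Finset.sum_congr rfl fun w _ => ?_
  rw [Finset.prod_comm, ← Finset.prod_mul_distrib]
  refine Finset.prod_congr rfl fun j _ => ?_
  rw [Finset.prod_mul_distrib, map_prod]

theorem norm_pow_eq (lam r s : ℕ) (x x' : Fin r → ZMod q) :
    ((‖Yq q lam r x x'‖ : ℂ)) ^ (2 * s) = (Yq q lam r x x') ^ (2 * s) := by
  rw [pow_mul, ← Complex.conj_mul', conj_Yq, ← pow_two, ← pow_mul]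

theorem expand (lam r s : ℕ) (t : Bool) :
    ∑ x : Fin r → ZMod q, ∑ x' : Fin r → ZMod q,
      (∏ j, om q t (x j)) * (∏ j, om q t (x' j)) * ‖Yq q lam r x x'‖ ^ (2 * s) =
    ∑ w ∈ WW q lam (2 * s), ‖EE t w‖ ^ (2 * r) := by
  apply Complex.ofReal_injective
  push_cast
  have h1 : ∀ x x' : Fin r → ZMod q,
      (∏ j, (om q t (x j) : ℂ)) * (∏ j, (om q t (x' j) : ℂ)) *
        (‖Yq q lam r x x'‖ : ℂ) ^ (2 * s) =
      ∑ w ∈ WW q lam (2 * s),
        (∏ j, ((om q t (x j) : ℂ) * ∏ l, evk (w l).1 (x j) (w l).2)) *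
        (∏ j, ((om q t (x' j) : ℂ) * (starRingEnd ℂ) (∏ l, evk (w l).1 (x' j) (w l).2))) := by
    intro x x'
    rw [norm_pow_eq, Yq_pow, Finset.mul_sum]
    refine Finset.sum_congr rfl fun w _ => ?_
    rw [Finset.prod_mul_distrib, Finset.prod_mul_distrib]
    ring
  have h2 : ∑ x : Fin r → ZMod q, ∑ x' : Fin r → ZMod q,
      (∏ j, (om q t (x j) : ℂ)) * (∏ j, (om q t (x' j) : ℂ)) *
        (‖Yq q lam r x x'‖ : ℂ) ^ (2 * s) =
      ∑ x : Fin r → ZMod q, ∑ x' : Fin r → ZMod q, ∑ w ∈ WW q lam (2 * s),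
        (∏ j, ((om q t (x j) : ℂ) * ∏ l, evk (w l).1 (x j) (w l).2)) *
        (∏ j, ((om q t (x' j) : ℂ) * (starRingEnd ℂ) (∏ l, evk (w l).1 (x' j) (w l).2))) :=
    Finset.sum_congr rfl fun x _ => Finset.sum_congr rfl fun x' _ => h1 x x'
  rw [h2]
  have h3 : ∀ x : Fin r → ZMod q, ∑ x' : Fin r → ZMod q, ∑ w ∈ WW q lam (2 * s),
        (∏ j, ((om q t (x j) : ℂ) * ∏ l, evk (w l).1 (x j) (w l).2)) *
        (∏ j, ((om q t (x' j) : ℂ) * (starRingEnd ℂ) (∏ l, evk (w l).1 (x' j) (w l).2))) =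
      ∑ w ∈ WW q lam (2 * s), ∑ x' : Fin r → ZMod q,
        (∏ j, ((om q t (x j) : ℂ) * ∏ l, evk (w l).1 (x j) (w l).2)) *
        (∏ j, ((om q t (x' j) : ℂ) * (starRingEnd ℂ) (∏ l, evk (w l).1 (x' j) (w l).2))) :=
    fun x => Finset.sum_comm
  rw [Finset.sum_congr rfl fun x _ => h3 x, Finset.sum_comm]
  refine Finset.sum_congr rfl fun w _ => ?_
  have h4 : ∀ G : ZMod q → ℂ, ∑ x : Fin r → ZMod q, ∏ j, ((om q t (x j) : ℂ) * G (x j)) =
      (∑ y : ZMod q, (om q t y : ℂ) * G y) ^ r := by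
    intro G
    rw [Finset.sum_pow', Fintype.piFinset_univ]
  have h5 : (∑ y : ZMod q, (om q t y : ℂ) *
      (starRingEnd ℂ) (∏ l, evk (w l).1 y (w l).2)) = (starRingEnd ℂ) (EE t w) := by
    unfold EE
    rw [map_sum]
    refine Finset.sum_congr rfl fun y _ => ?_
    rw [map_mul, Complex.conj_ofReal]
  have h6 : ∑ x : Fin r → ZMod q, ∑ x' : Fin r → ZMod q,
        (∏ j, ((om q t (x j) : ℂ) * ∏ l, evk (w l).1 (x j) (w l).2)) *
        (∏ j, ((om q t (x' j) : ℂ) * (starRingEnd ℂ) (∏ l, evk (w l).1 (x' j) (w l).2))) =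
      (∑ x : Fin r → ZMod q, ∏ j, ((om q t (x j) : ℂ) * ∏ l, evk (w l).1 (x j) (w l).2)) *
      ∑ x' : Fin r → ZMod q,
        ∏ j, ((om q t (x' j) : ℂ) * (starRingEnd ℂ) (∏ l, evk (w l).1 (x' j) (w l).2)) := by
    rw [Finset.sum_mul_sum]
  rw [h6, h4 (fun y => ∏ l, evk (w l).1 y (w l).2),
    h4 (fun y => (starRingEnd ℂ) (∏ l, evk (w l).1 y (w l).2)), h5]
  show EE t w ^ r * (starRingEnd ℂ) (EE t w) ^ r = _
  rw [← mul_pow, mul_comm (EE t w), Complex.conj_mul', ← pow_mul]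

theorem card_WW (lam n : ℕ) : (WW q lam n).card = ((Pw q lam).card * (q - 1)) ^ n := by
  unfold WW
  rw [Fintype.card_piFinset]
  simp [Finset.card_product, Nat.totient_prime hq.out]

end expansion

section counting

variable {q : ℕ} [hq : Fact q.Prime]

/-- Degenerate index vectors. -/
def Deg {n : ℕ} (w : Fin n → MulChar (ZMod q) ℂ × (ZMod q)ˣ) : Prop :=
  ∀ j0, ∏ j ∈ Finset.univ.filter (fun j => (w j).2 = (w j0).2), (w j).1 = 1

/-- The class function. -/
noncomputable def cw {n : ℕ} [Nonempty (Fin n)] (w : Fin n → MulChar (ZMod q) ℂ × (ZMod q)ˣ)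
    (l : Fin n) : Fin n :=
  Function.invFun (fun l => (w l).2) (w l).2

theorem cw_spec {n : ℕ} [Nonempty (Fin n)] (w : Fin n → MulChar (ZMod q) ℂ × (ZMod q)ˣ)
    (l : Fin n) : (w (cw w l)).2 = (w l).2 :=
  Function.invFun_eq (f := fun l => (w l).2) ⟨l, rfl⟩

theorem cw_congr {n : ℕ} [Nonempty (Fin n)] (w : Fin n → MulChar (ZMod q) ℂ × (ZMod q)ˣ)
    {l l' : Fin n} (h : (w l).2 = (w l').2) : cw w l = cw w l' := by
  unfold cw
  rw [h]

theorem cw_idem {n : ℕ} [Nonempty (Fin n)] (w : Fin n → MulChar (ZMod q) ℂ × (ZMod q)ˣ)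
    {m : Fin n} (h : m ∈ Finset.univ.image (cw w)) : cw w m = m := by
  rw [Finset.mem_image] at h
  obtain ⟨l, _, rfl⟩ := h
  exact cw_congr w (cw_spec w l)

theorem two_mul_image_le {lam n : ℕ} [Nonempty (Fin n)]
    (w : Fin n → MulChar (ZMod q) ℂ × (ZMod q)ˣ) (hw : w ∈ WW q lam n) (hd : Deg w) :
    2 * (Finset.univ.image (cw w)).card ≤ n := by
  classical
  have h := Finset.mul_card_image_le_card (f := cw w) (Finset.univ : Finset (Fin n)) 2 ?_
  · simpa using h
  intro m hm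
  have h1 := cw_idem w hm
  have hmem : m ∈ Finset.univ.filter (fun a => cw w a = m) := by
    rw [Finset.mem_filter]
    exact ⟨Finset.mem_univ _, h1⟩
  by_contra hlt
  have hcard : (Finset.univ.filter (fun a => cw w a = m)).card = 1 := by
    have : 0 < (Finset.univ.filter (fun a => cw w a = m)).card := Finset.card_pos.mpr ⟨m, hmem⟩
    omega
  obtain ⟨b, hb⟩ := Finset.card_eq_one.mp hcard
  have hbm : b = m := by
    rw [hb, Finset.mem_singleton] at hmem
    exact hmem.symm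
  have hset : (Finset.univ.filter (fun j => (w j).2 = (w m).2)) = {m} := by
    ext j
    rw [Finset.mem_filter, Finset.mem_singleton]
    constructor
    · rintro ⟨_, h2⟩
      have h3 : j ∈ Finset.univ.filter (fun a => cw w a = m) := by
        rw [Finset.mem_filter]
        exact ⟨Finset.mem_univ _, by rw [cw_congr w h2, h1]⟩
      rw [hb, hbm, Finset.mem_singleton] at h3
      exact h3
    · rintro rfl
      exact ⟨Finset.mem_univ _, rfl⟩
  have h4 := hd m
  rw [hset, Finset.prod_singleton] at h4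
  have h5 := (Fintype.mem_piFinset.mp hw) m
  rw [Finset.mem_product] at h5
  exact ((mem_Pw _).mp h5.1).1 h4

/-- The injection. -/
noncomputable def phi {n : ℕ} (c : Fin n → Fin n) (w : Fin n → MulChar (ZMod q) ℂ × (ZMod q)ˣ) :
    Fin n → MulChar (ZMod q) ℂ × (ZMod q)ˣ := by
  classical
  exact fun l => if l ∈ Finset.univ.image c then (1, (w l).2) else ((w l).1, 1)

/-- The target of the injection. -/
noncomputable def target (q lam : ℕ) [Fact q.Prime] {n : ℕ} (c : Fin n → Fin n) :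
    Finset (Fin n → MulChar (ZMod q) ℂ × (ZMod q)ˣ) := by
  classical
  exact Fintype.piFinset fun l => if l ∈ Finset.univ.image c then
    ({1} : Finset (MulChar (ZMod q) ℂ)) ×ˢ (Finset.univ : Finset (ZMod q)ˣ)
    else Pw q lam ×ˢ ({1} : Finset (ZMod q)ˣ)

theorem card_target (lam : ℕ) {n : ℕ} (c : Fin n → Fin n) :
    (target q lam c).card = (q - 1) ^ (Finset.univ.image c).card *
      (Pw q lam).card ^ (n - (Finset.univ.image c).card) := by
  classical
  unfold target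
  rw [Fintype.card_piFinset]
  have h1 : ∀ l : Fin n, (if l ∈ Finset.univ.image c then
    ({1} : Finset (MulChar (ZMod q) ℂ)) ×ˢ (Finset.univ : Finset (ZMod q)ˣ)
    else Pw q lam ×ˢ ({1} : Finset (ZMod q)ˣ)).card =
      if l ∈ Finset.univ.image c then q - 1 else (Pw q lam).card := by
    intro l
    split_ifs
    · rw [Finset.card_product, Finset.card_singleton, one_mul, Finset.card_univ, card_units]
    · rw [Finset.card_product, Finset.card_singleton, mul_one]
  rw [Finset.prod_congr rfl fun l _ => h1 l, Finset.prod_ite, Finset.prod_const, Finset.prod_const]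
  have h2 : (Finset.univ.filter fun l => l ∈ Finset.univ.image c) = Finset.univ.image c := by
    ext l
    simp
  have h3 : (Finset.univ.filter fun l => l ∉ Finset.univ.image c).card =
      n - (Finset.univ.image c).card := by
    have : (Finset.univ.filter fun l => l ∉ Finset.univ.image c) = (Finset.univ.image c)ᶜ := by
      ext l
      simp
    rw [this, Finset.card_compl, Fintype.card_fin]
  rw [h2, h3]

theorem phi_mem {lam n : ℕ} (c : Fin n → Fin n)
    (w : Fin n → MulChar (ZMod q) ℂ × (ZMod q)ˣ) (hw : w ∈ WW q lam n) :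
    phi c w ∈ target q lam c := by
  classical
  unfold phi target
  rw [Fintype.mem_piFinset]
  intro l
  have h5 := (Fintype.mem_piFinset.mp hw) l
  rw [Finset.mem_product] at h5
  by_cases h : l ∈ Finset.univ.image c
  · simp only [if_pos h]
    rw [Finset.mem_product]
    exact ⟨Finset.mem_singleton_self _, Finset.mem_univ _⟩
  · simp only [if_neg h]
    rw [Finset.mem_product]
    exact ⟨h5.1, Finset.mem_singleton_self _⟩

theorem phi_inj {n : ℕ} [Nonempty (Fin n)] (c : Fin n → Fin n)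
    (w w' : Fin n → MulChar (ZMod q) ℂ × (ZMod q)ˣ) (hd : Deg w) (hd' : Deg w')
    (hc : cw w = c) (hc' : cw w' = c) (h : phi c w = phi c w') : w = w' := by
  classical
  have h1 : ∀ l ∈ Finset.univ.image c, (w l).2 = (w' l).2 := by
    intro l hl
    have := congrFun h l
    unfold phi at this
    simp only [if_pos hl] at this
    exact (Prod.mk.inj this).2
  have h2 : ∀ l ∉ Finset.univ.image c, (w l).1 = (w' l).1 := by
    intro l hl
    have := congrFun h l
    unfold phi at this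
    simp only [if_neg hl] at this
    exact (Prod.mk.inj this).1
  have h3 : ∀ l, (w l).2 = (w' l).2 := by
    intro l
    have e1 := cw_spec w l
    have e2 := cw_spec w' l
    rw [hc] at e1
    rw [hc'] at e2
    rw [← e1, ← e2]
    exact h1 _ (Finset.mem_image_of_mem c (Finset.mem_univ l))
  have h4 : ∀ l ∈ Finset.univ.image c, (w l).1 = (w' l).1 := by
    intro l hl
    have e1 := hd l
    have e2 := hd' l
    have hset : (Finset.univ.filter (fun j => (w' j).2 = (w' l).2)) =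
        Finset.univ.filter (fun j => (w j).2 = (w l).2) := by
      ext j
      rw [Finset.mem_filter, Finset.mem_filter, h3 j, h3 l]
    rw [hset] at e2
    have hl' : l ∈ Finset.univ.filter (fun j => (w j).2 = (w l).2) := by
      rw [Finset.mem_filter]
      exact ⟨Finset.mem_univ _, rfl⟩
    rw [← Finset.mul_prod_erase _ _ hl'] at e1 e2
    have e3 : ∏ j ∈ (Finset.univ.filter (fun j => (w j).2 = (w l).2)).erase l, (w j).1 =
        ∏ j ∈ (Finset.univ.filter (fun j => (w j).2 = (w l).2)).erase l, (w' j).1 := by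
      refine Finset.prod_congr rfl fun j hj => ?_
      rw [Finset.mem_erase, Finset.mem_filter] at hj
      apply h2
      intro hj'
      rw [← hc] at hj' hl
      have e4 := cw_idem w hj'
      have e5 := cw_idem w hl
      exact hj.1 (by rw [← e4, ← e5]; exact cw_congr w hj.2.2)
    rw [e3] at e1
    rw [← e2] at e1
    exact mul_right_cancel e1
  funext l
  refine Prod.ext ?_ (h3 l)
  by_cases hl : l ∈ Finset.univ.image c
  · exact h4 l hl
  · exact h2 l hl

open Classical in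
theorem card_deg {lam s : ℕ} (hs : 1 ≤ s) (hlam : 1 ≤ lam) (hdvd : lam ∣ q - 1) :
    (((WW q lam (2 * s)).filter fun w => Deg w).card : ℝ) ≤
      (2 * s : ℝ) ^ (2 * s) * (((q : ℝ) - 1) ^ s * (((q : ℝ) - 1) / lam) ^ s) := by
  have hne : Nonempty (Fin (2 * s)) := ⟨⟨0, by omega⟩⟩
  have hq1 : (0 : ℝ) < (q : ℝ) - 1 := q1_pos
  have hf : ((Pw q lam).card : ℝ) ≤ ((q : ℝ) - 1) / lam := card_Pw hlam hdvd
  have hlam' : (1 : ℝ) ≤ lam := by exact_mod_cast hlam
  have hfq : ((q : ℝ) - 1) / lam ≤ (q : ℝ) - 1 := div_le_self hq1.le hlam'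
  have hf0 : 0 ≤ ((q : ℝ) - 1) / lam := by positivity
  have h1 := Finset.card_eq_sum_card_fiberwise
    (f := fun w : Fin (2 * s) → MulChar (ZMod q) ℂ × (ZMod q)ˣ => cw w)
    (s := (WW q lam (2 * s)).filter fun w => Deg w)
    (t := (Finset.univ : Finset (Fin (2 * s) → Fin (2 * s)))) (fun w _ => Finset.mem_univ _)
  rw [h1]
  push_cast
  have h2 : ∀ c : Fin (2 * s) → Fin (2 * s),
      ((((WW q lam (2 * s)).filter fun w => Deg w).filter fun w => cw w = c).card : ℝ) ≤
        ((q : ℝ) - 1) ^ s * (((q : ℝ) - 1) / lam) ^ s := by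
    intro c
    rcases (((WW q lam (2 * s)).filter fun w => Deg w).filter fun w => cw w = c).eq_empty_or_nonempty
      with he | ⟨w0, hw0⟩
    · rw [he, Finset.card_empty, Nat.cast_zero]
      positivity
    · rw [Finset.mem_filter, Finset.mem_filter] at hw0
      obtain ⟨⟨hw1, hw2⟩, hw3⟩ := hw0
      have he : (Finset.univ.image c).card ≤ s := by
        have := two_mul_image_le w0 hw1 hw2
        rw [hw3] at this
        omega
      have h3 : (((WW q lam (2 * s)).filter fun w => Deg w).filter fun w => cw w = c).card ≤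
          (target q lam c).card := by
        refine Finset.card_le_card_of_injOn (phi c) ?_ ?_
        · intro w hw
          have hw' := Finset.mem_coe.mp hw
          rw [Finset.mem_filter, Finset.mem_filter] at hw'
          exact phi_mem c w hw'.1.1
        · intro w hw w' hw' hww
          have a1 := Finset.mem_coe.mp hw
          have a2 := Finset.mem_coe.mp hw'
          rw [Finset.mem_filter, Finset.mem_filter] at a1 a2
          exact phi_inj c w w' a1.1.2 a2.1.2 a1.2 a2.2 hww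
      rw [card_target] at h3
      set e := (Finset.univ.image c).card with hedef
      have hQ : ((q - 1 : ℕ) : ℝ) = (q : ℝ) - 1 := by
        rw [Nat.cast_sub hq.out.one_lt.le, Nat.cast_one]
      calc ((((WW q lam (2 * s)).filter fun w => Deg w).filter fun w => cw w = c).card : ℝ)
          ≤ (((q - 1) ^ e * (Pw q lam).card ^ (2 * s - e) : ℕ) : ℝ) := by exact_mod_cast h3
        _ = ((q : ℝ) - 1) ^ e * ((Pw q lam).card : ℝ) ^ (2 * s - e) := by
            push_cast
            rw [← hQ]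
        _ ≤ ((q : ℝ) - 1) ^ e * (((q : ℝ) - 1) / lam) ^ (2 * s - e) := by
            refine mul_le_mul_of_nonneg_left ?_ (by positivity)
            exact pow_le_pow_left₀ (Nat.cast_nonneg _) hf _
        _ = ((q : ℝ) - 1) ^ e * ((((q : ℝ) - 1) / lam) ^ (s - e) * (((q : ℝ) - 1) / lam) ^ s) := by
            rw [← pow_add]
            congr 2
            omega
        _ ≤ ((q : ℝ) - 1) ^ e * (((q : ℝ) - 1) ^ (s - e) * (((q : ℝ) - 1) / lam) ^ s) := by
            refine mul_le_mul_of_nonneg_left ?_ (by positivity)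
            refine mul_le_mul_of_nonneg_right ?_ (by positivity)
            exact pow_le_pow_left₀ hf0 hfq _
        _ = ((q : ℝ) - 1) ^ s * (((q : ℝ) - 1) / lam) ^ s := by
            rw [← mul_assoc, ← pow_add, Nat.add_sub_cancel' he]
  calc ∑ c : Fin (2 * s) → Fin (2 * s),
      ((((WW q lam (2 * s)).filter fun w => Deg w).filter fun w => cw w = c).card : ℝ)
      ≤ ∑ _c : Fin (2 * s) → Fin (2 * s), ((q : ℝ) - 1) ^ s * (((q : ℝ) - 1) / lam) ^ s :=
        Finset.sum_le_sum fun c _ => h2 c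
    _ = _ := by
        rw [Finset.sum_const, Finset.card_univ, Fintype.card_fun, Fintype.card_fin, nsmul_eq_mul]
        push_cast
        ring

end counting

end ItemB6

theorem claimB6 (hB5 : ClaimB5) : ClaimB6 := by
  classical
  intro q hq lam r s t hs hlam hdvd hsq
  have hq1 : (0 : ℝ) < (q : ℝ) - 1 := ItemB6.q1_pos
  have hlam' : (0 : ℝ) < lam := by exact_mod_cast hlam
  have hf : ((Pw q lam).card : ℝ) ≤ ((q : ℝ) - 1) / lam := ItemB6.card_Pw hlam hdvd
  -- the left side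
  have hL : ∑ x : Fin r → ZMod q, ∑ x' : Fin r → ZMod q,
      (∏ j, (if t then om1 q (x j) else om0 q (x j))) *
      (∏ j, (if t then om1 q (x' j) else om0 q (x' j))) *
      (‖Yq q lam r x x'‖ / ((q : ℝ) - 1)) ^ (2 * s) =
      (∑ w ∈ ItemB6.WW q lam (2 * s), ‖ItemB6.EE t w‖ ^ (2 * r)) / ((q : ℝ) - 1) ^ (2 * s) := by
    rw [← ItemB6.expand, Finset.sum_div]
    refine Finset.sum_congr rfl fun x _ => ?_
    rw [Finset.sum_div]
    refine Finset.sum_congr rfl fun x' _ => ?_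
    rw [div_pow, mul_div_assoc]
    rfl
  rw [hL, div_le_iff₀ (by positivity)]
  -- nondegenerate terms
  have hN : ∀ w ∈ (ItemB6.WW q lam (2 * s)).filter (fun w => ¬ ItemB6.Deg w),
      ‖ItemB6.EE t w‖ ^ (2 * r) ≤ (3 / 5 : ℝ) ^ (2 * r) := by
    intro w hw
    rw [Finset.mem_filter] at hw
    have hw2 := hw.2
    unfold ItemB6.Deg at hw2
    push Not at hw2
    have h5 := hB5 q (2 * s) (fun l => (w l).2) (fun l => (w l).1) (by omega) hsq hw2
    have h6 : ‖ItemB6.EE t w‖ ≤ 1 / 2 + (1 / 5) / 2 := by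
      refine ItemB6.EE_le_of t w (1 / 5) (by norm_num) ?_
      calc _ ≤ ((q : ℝ) - 1) / 5 := h5
        _ = _ := by ring
    refine pow_le_pow_left₀ (norm_nonneg _) (h6.trans ?_) _
    norm_num
  have hD : ∀ w ∈ (ItemB6.WW q lam (2 * s)).filter (fun w => ItemB6.Deg w),
      ‖ItemB6.EE t w‖ ^ (2 * r) ≤ 1 := by
    intro w _
    exact pow_le_one₀ (norm_nonneg _) (ItemB6.EE_le_one t w)
  have hcard : ((ItemB6.WW q lam (2 * s)).card : ℝ) ≤
      ((((q : ℝ) - 1) / lam) * ((q : ℝ) - 1)) ^ (2 * s) := by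
    rw [ItemB6.card_WW]
    have hQ : ((q - 1 : ℕ) : ℝ) = (q : ℝ) - 1 := by
      rw [Nat.cast_sub hq.out.one_lt.le, Nat.cast_one]
    push_cast
    rw [hQ]
    refine pow_le_pow_left₀ (by positivity) ?_ _
    exact mul_le_mul_of_nonneg_right hf hq1.le
  have hcard2 : (((ItemB6.WW q lam (2 * s)).filter (fun w => ¬ ItemB6.Deg w)).card : ℝ) ≤
      ((((q : ℝ) - 1) / lam) * ((q : ℝ) - 1)) ^ (2 * s) := by
    refine le_trans ?_ hcard
    exact_mod_cast Finset.card_filter_le _ _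
  calc ∑ w ∈ ItemB6.WW q lam (2 * s), ‖ItemB6.EE t w‖ ^ (2 * r)
      = ∑ w ∈ (ItemB6.WW q lam (2 * s)).filter (fun w => ItemB6.Deg w),
          ‖ItemB6.EE t w‖ ^ (2 * r) +
        ∑ w ∈ (ItemB6.WW q lam (2 * s)).filter (fun w => ¬ ItemB6.Deg w),
          ‖ItemB6.EE t w‖ ^ (2 * r) := (Finset.sum_filter_add_sum_filter_not _ _ _).symm
    _ ≤ ∑ w ∈ (ItemB6.WW q lam (2 * s)).filter (fun w => ItemB6.Deg w), (1 : ℝ) +
        ∑ w ∈ (ItemB6.WW q lam (2 * s)).filter (fun w => ¬ ItemB6.Deg w),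
          (3 / 5 : ℝ) ^ (2 * r) := add_le_add (Finset.sum_le_sum hD) (Finset.sum_le_sum hN)
    _ = (((ItemB6.WW q lam (2 * s)).filter (fun w => ItemB6.Deg w)).card : ℝ) +
        (((ItemB6.WW q lam (2 * s)).filter (fun w => ¬ ItemB6.Deg w)).card : ℝ) *
          (3 / 5 : ℝ) ^ (2 * r) := by
        rw [Finset.sum_const, Finset.sum_const, nsmul_eq_mul, nsmul_eq_mul, mul_one]
    _ ≤ (2 * s : ℝ) ^ (2 * s) * (((q : ℝ) - 1) ^ s * (((q : ℝ) - 1) / lam) ^ s) +
        ((((q : ℝ) - 1) / lam) * ((q : ℝ) - 1)) ^ (2 * s) * (3 / 5 : ℝ) ^ (2 * r) := by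
        refine add_le_add (ItemB6.card_deg hs hlam hdvd) ?_
        exact mul_le_mul_of_nonneg_right hcard2 (by positivity)
    _ = _ := by
        generalize (q : ℝ) - 1 = Q
        rw [div_pow Q (lam : ℝ) s, two_mul s, pow_add, mul_pow (Q / (lam : ℝ)) Q (s + s)]
        ring

end Pool.Agent.Work.MP_e0aece_nt.Sq

end

section

/-!
# Item B7: the moment identity
-/

namespace Pool.Agent.Work.MP_e0aece_nt.Sq

open Finset

namespace ItemB7

theorem evk_one {q : ℕ} [Fact q.Prime] (a : ZMod q) (k : (ZMod q)ˣ) :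
    evk (1 : MulChar (ZMod q) ℂ) a k = 1 := by
  unfold evk
  exact MulChar.one_apply_coe _

/-- a sum over characters and units of a product over the coordinates -/
theorem sum_prod {ι : Type} [Fintype ι] [DecidableEq ι] (p : ι → ℕ) [∀ i, Fact (p i).Prime]
    (t : ∀ i, Finset (MulChar (ZMod (p i)) ℂ))
    (G : ∀ i, MulChar (ZMod (p i)) ℂ → (ZMod (p i))ˣ → ℂ) :
    ∑ ψ ∈ Fintype.piFinset t, ∑ k : (∀ i, (ZMod (p i))ˣ), ∏ i, G i (ψ i) (k i) =
      ∏ i, ∑ ψ ∈ t i, ∑ k : (ZMod (p i))ˣ, G i ψ k := by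
  rw [Finset.prod_univ_sum]
  refine Finset.sum_congr rfl fun ψ _ => ?_
  rw [Finset.prod_univ_sum, Fintype.piFinset_univ]

end ItemB7

open ItemB7 in
theorem claimB7 : ClaimB7 := by
  intro ι _ _ p _ lam r B I S
  -- the power of the norm
  have hnorm : ∀ z : ℂ, ((‖z‖ ^ (2 * r) : ℝ) : ℂ) = z ^ r * (starRingEnd ℂ z) ^ r := by
    intro z
    rw [← mul_pow, Complex.mul_conj, Complex.normSq_eq_norm_sq, pow_mul]
    push_cast
    ring
  have hpow : ∀ (ψ : ∀ i, MulChar (ZMod (p i)) ℂ) (k : ∀ i, (ZMod (p i))ˣ),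
      ((‖SumF p B I ψ k‖ ^ (2 * r) : ℝ) : ℂ) =
      ∑ a ∈ Fintype.piFinset (fun _ : Fin r => fib B I),
        ∑ a' ∈ Fintype.piFinset (fun _ : Fin r => fib B I),
          ∏ i, ∏ j, (evk (ψ i) ((dd p (a j) : ℕ) : ZMod (p i)) (k i) *
            (starRingEnd ℂ) (evk (ψ i) ((dd p (a' j) : ℕ) : ZMod (p i)) (k i))) := by
    intro ψ k
    rw [hnorm]
    have h1 : (SumF p B I ψ k) ^ r = ∑ a ∈ Fintype.piFinset (fun _ : Fin r => fib B I),
        ∏ j, ∏ i, evk (ψ i) ((dd p (a j) : ℕ) : ZMod (p i)) (k i) := by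
      unfold SumF
      have h := Finset.prod_univ_sum (fun _ : Fin r => fib B I)
        (fun _ A => ∏ i, evk (ψ i) ((dd p A : ℕ) : ZMod (p i)) (k i))
      rw [← h, Finset.prod_const, Finset.card_univ, Fintype.card_fin]
    have h2 : (starRingEnd ℂ (SumF p B I ψ k)) ^ r =
        ∑ a' ∈ Fintype.piFinset (fun _ : Fin r => fib B I),
        ∏ j, ∏ i, (starRingEnd ℂ) (evk (ψ i) ((dd p (a' j) : ℕ) : ZMod (p i)) (k i)) := by
      rw [← map_pow, h1, map_sum]
      refine Finset.sum_congr rfl fun a _ => ?_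
      rw [map_prod]
      refine Finset.prod_congr rfl fun j _ => ?_
      rw [map_prod]
    rw [h1, h2, Finset.sum_mul_sum]
    refine Finset.sum_congr rfl fun a _ => Finset.sum_congr rfl fun a' _ => ?_
    rw [← Finset.prod_mul_distrib, Finset.prod_comm]
    refine Finset.prod_congr rfl fun j _ => ?_
    rw [← Finset.prod_mul_distrib]
  have hL : ((∑ ψ ∈ PF p lam S, ∑ k : (∀ i, (ZMod (p i))ˣ), ‖SumF p B I ψ k‖ ^ (2 * r) : ℝ) : ℂ) =
      ∑ ψ ∈ PF p lam S, ∑ k : (∀ i, (ZMod (p i))ˣ),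
      ∑ a ∈ Fintype.piFinset (fun _ : Fin r => fib B I),
        ∑ a' ∈ Fintype.piFinset (fun _ : Fin r => fib B I),
          ∏ i, ∏ j, (evk (ψ i) ((dd p (a j) : ℕ) : ZMod (p i)) (k i) *
            (starRingEnd ℂ) (evk (ψ i) ((dd p (a' j) : ℕ) : ZMod (p i)) (k i))) := by
    rw [Complex.ofReal_sum]
    refine Finset.sum_congr rfl fun ψ _ => ?_
    rw [Complex.ofReal_sum]
    exact Finset.sum_congr rfl fun k _ => hpow ψ k
  rw [hL]
  have hswap : ∑ ψ ∈ PF p lam S, ∑ k : (∀ i, (ZMod (p i))ˣ),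
      ∑ a ∈ Fintype.piFinset (fun _ : Fin r => fib B I),
        ∑ a' ∈ Fintype.piFinset (fun _ : Fin r => fib B I),
          ∏ i, ∏ j, (evk (ψ i) ((dd p (a j) : ℕ) : ZMod (p i)) (k i) *
            (starRingEnd ℂ) (evk (ψ i) ((dd p (a' j) : ℕ) : ZMod (p i)) (k i))) =
      ∑ a ∈ Fintype.piFinset (fun _ : Fin r => fib B I),
        ∑ a' ∈ Fintype.piFinset (fun _ : Fin r => fib B I),
        ∑ ψ ∈ PF p lam S, ∑ k : (∀ i, (ZMod (p i))ˣ),
          ∏ i, ∏ j, (evk (ψ i) ((dd p (a j) : ℕ) : ZMod (p i)) (k i) *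
            (starRingEnd ℂ) (evk (ψ i) ((dd p (a' j) : ℕ) : ZMod (p i)) (k i))) := by
    have e1 : ∀ ψ : ∀ i, MulChar (ZMod (p i)) ℂ, (∑ k : (∀ i, (ZMod (p i))ˣ),
        ∑ a ∈ Fintype.piFinset (fun _ : Fin r => fib B I),
        ∑ a' ∈ Fintype.piFinset (fun _ : Fin r => fib B I),
          ∏ i, ∏ j, (evk (ψ i) ((dd p (a j) : ℕ) : ZMod (p i)) (k i) *
            (starRingEnd ℂ) (evk (ψ i) ((dd p (a' j) : ℕ) : ZMod (p i)) (k i)))) =
        ∑ a ∈ Fintype.piFinset (fun _ : Fin r => fib B I),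
        ∑ a' ∈ Fintype.piFinset (fun _ : Fin r => fib B I),
        ∑ k : (∀ i, (ZMod (p i))ˣ),
          ∏ i, ∏ j, (evk (ψ i) ((dd p (a j) : ℕ) : ZMod (p i)) (k i) *
            (starRingEnd ℂ) (evk (ψ i) ((dd p (a' j) : ℕ) : ZMod (p i)) (k i))) := by
      intro ψ
      rw [Finset.sum_comm]
      exact Finset.sum_congr rfl fun a _ => Finset.sum_comm
    rw [Finset.sum_congr rfl fun ψ _ => e1 ψ, Finset.sum_comm]
    exact Finset.sum_congr rfl fun a _ => Finset.sum_comm
  rw [hswap]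
  refine Finset.sum_congr rfl fun a _ => Finset.sum_congr rfl fun a' _ => ?_
  unfold PF
  rw [sum_prod p (fun i => if i ∈ S then Pw (p i) lam else {1})
    (fun i ψ k => ∏ j, (evk ψ ((dd p (a j) : ℕ) : ZMod (p i)) k *
      (starRingEnd ℂ) (evk ψ ((dd p (a' j) : ℕ) : ZMod (p i)) k)))]
  rw [← Finset.prod_mul_prod_compl S]
  congr 1
  · refine Finset.prod_congr rfl fun i hi => ?_
    rw [if_pos hi]
    rfl
  · refine Finset.prod_congr rfl fun i hi => ?_
    rw [if_neg (Finset.mem_compl.mp hi), Finset.sum_singleton]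
    have h1 : ∀ k : (ZMod (p i))ˣ, (∏ j, (evk (1 : MulChar (ZMod (p i)) ℂ)
        ((dd p (a j) : ℕ) : ZMod (p i)) k *
        (starRingEnd ℂ) (evk (1 : MulChar (ZMod (p i)) ℂ) ((dd p (a' j) : ℕ) : ZMod (p i)) k))) =
        1 := by
      intro k
      refine Finset.prod_eq_one fun j _ => ?_
      rw [evk_one, evk_one, map_one, one_mul]
    rw [Finset.sum_congr rfl fun k _ => h1 k, Finset.sum_const, Finset.card_univ,
      ZMod.card_units, nsmul_eq_mul, mul_one, Nat.cast_sub (Fact.out : (p i).Prime).one_lt.le]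
    simp

end Pool.Agent.Work.MP_e0aece_nt.Sq

end

section

/-!
# Item B8: Hoelder with blocks and comparison of laws
-/

namespace Pool.Agent.Work.MP_e0aece_nt.Sq

open Finset

namespace ItemB8

/-- A sum over tuples of a function of the images. -/
theorem sum_tuple {α R J : Type} [Fintype R] [DecidableEq R] [Fintype J] [DecidableEq J]
    [DecidableEq α] (Ω : Finset α) (ρ : α → R) (f : (J → R) → ℝ) :
    ∑ a ∈ Fintype.piFinset (fun _ : J => Ω), f (fun j => ρ (a j)) =
      ∑ X : J → R, f X * ∏ j, ((Ω.filter fun A => ρ A = X j).card : ℝ) := by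
  rw [← Finset.sum_fiberwise (Fintype.piFinset (fun _ : J => Ω)) (fun a j => ρ (a j))]
  apply Finset.sum_congr rfl
  intro X _
  have h1 : (Fintype.piFinset (fun _ : J => Ω)).filter (fun a => (fun j => ρ (a j)) = X) =
      Fintype.piFinset (fun j => Ω.filter fun A => ρ A = X j) := by
    ext a
    simp only [mem_filter, Fintype.mem_piFinset, funext_iff]
    constructor
    · rintro ⟨h1, h2⟩ j
      exact ⟨h1 j, h2 j⟩
    · intro h
      exact ⟨fun j => (h j).1, fun j => (h j).2⟩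
  rw [h1, Finset.sum_congr rfl (g := fun _ => f X)]
  · rw [Finset.sum_const, Fintype.card_piFinset, nsmul_eq_mul]
    push_cast
    ring
  · intro a ha
    congr 1
    funext j
    exact (mem_filter.1 ((Fintype.mem_piFinset.1 ha) j)).2

theorem sum_pair_le {α R J : Type} [Fintype R] [DecidableEq R] [Fintype J] [DecidableEq J]
    [DecidableEq α] (Ω : Finset α) (ρ : α → R) (w : R → ℝ) (c : ℝ) (hw : ∀ x, 0 ≤ w x)
    (hc : 0 ≤ c) (hN : ∀ x, ((Ω.filter fun A => ρ A = x).card : ℝ) ≤ c * w x)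
    (G : (J → R) → (J → R) → ℝ) (hG : ∀ X X', 0 ≤ G X X') :
    ∑ a ∈ Fintype.piFinset (fun _ : J => Ω), ∑ a' ∈ Fintype.piFinset (fun _ : J => Ω),
      G (fun j => ρ (a j)) (fun j => ρ (a' j)) ≤
    c ^ (2 * Fintype.card J) * ∑ X : J → R, ∑ X' : J → R,
      (∏ j, w (X j)) * (∏ j, w (X' j)) * G X X' := by
  set P : (J → R) → ℝ := fun X => ∏ j, ((Ω.filter fun A => ρ A = X j).card : ℝ) with hP
  have hP0 : ∀ X, 0 ≤ P X := fun X => Finset.prod_nonneg fun j _ => Nat.cast_nonneg _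
  have hPle : ∀ X, P X ≤ c ^ Fintype.card J * ∏ j, w (X j) := by
    intro X
    calc P X ≤ ∏ j, (c * w (X j)) :=
          Finset.prod_le_prod (fun j _ => Nat.cast_nonneg _) fun j _ => hN (X j)
      _ = c ^ Fintype.card J * ∏ j, w (X j) := by
          rw [Finset.prod_mul_distrib, Finset.prod_const, Finset.card_univ]
  have h1 : ∀ a : J → α, ∑ a' ∈ Fintype.piFinset (fun _ : J => Ω),
      G (fun j => ρ (a j)) (fun j => ρ (a' j)) =
      ∑ X' : J → R, G (fun j => ρ (a j)) X' * P X' := fun a =>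
    sum_tuple Ω ρ (fun X' => G (fun j => ρ (a j)) X')
  have h2 : ∑ a ∈ Fintype.piFinset (fun _ : J => Ω), ∑ X' : J → R,
      G (fun j => ρ (a j)) X' * P X' = ∑ X : J → R, (∑ X' : J → R, G X X' * P X') * P X :=
    sum_tuple Ω ρ (fun X => ∑ X' : J → R, G X X' * P X')
  rw [Finset.sum_congr rfl fun a _ => h1 a, h2, Finset.mul_sum]
  apply Finset.sum_le_sum
  intro X _
  rw [Finset.sum_mul, Finset.mul_sum]
  apply Finset.sum_le_sum
  intro X' _
  have h3 : P X' * P X ≤ (c ^ Fintype.card J * ∏ j, w (X' j)) *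
      (c ^ Fintype.card J * ∏ j, w (X j)) :=
    mul_le_mul (hPle X') (hPle X) (hP0 X)
      (mul_nonneg (pow_nonneg hc _) (Finset.prod_nonneg fun j _ => hw _))
  calc G X X' * P X' * P X = G X X' * (P X' * P X) := by ring
    _ ≤ G X X' * ((c ^ Fintype.card J * ∏ j, w (X' j)) * (c ^ Fintype.card J * ∏ j, w (X j))) :=
        mul_le_mul_of_nonneg_left h3 (hG X X')
    _ = c ^ (2 * Fintype.card J) * ((∏ j, w (X j)) * (∏ j, w (X' j)) * G X X') := by
        rw [two_mul, pow_add]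
        ring

theorem sum_factor {T J : Type} [Fintype T] [DecidableEq T] [Fintype J] [DecidableEq J]
    {Z : T → Type} [∀ i, Fintype (Z i)] (F : ∀ i, (J → Z i) → (J → Z i) → ℝ) :
    ∑ X : J → ∀ i, Z i, ∑ X' : J → ∀ i, Z i, ∏ i, F i (fun j => X j i) (fun j => X' j i) =
      ∏ i, ∑ x : J → Z i, ∑ x' : J → Z i, F i x x' := by
  classical
  have h1 : ∏ i, ∑ x : J → Z i, ∑ x' : J → Z i, F i x x' =
      ∑ z : ∀ i, (J → Z i) × (J → Z i), ∏ i, F i (z i).1 (z i).2 := by
    have h2 := Finset.prod_univ_sum (fun i => (univ : Finset ((J → Z i) × (J → Z i))))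
      (fun i z => F i z.1 z.2)
    rw [Fintype.piFinset_univ] at h2
    rw [← h2]
    apply Finset.prod_congr rfl
    intro i _
    rw [← Fintype.sum_prod_type']
  rw [h1, ← Fintype.sum_prod_type']
  let e : ((J → ∀ i, Z i) × (J → ∀ i, Z i)) ≃ (∀ i, (J → Z i) × (J → Z i)) :=
    { toFun := fun X i => (fun j => X.1 j i, fun j => X.2 j i)
      invFun := fun z => (fun j i => (z i).1 j, fun j i => (z i).2 j)
      left_inv := fun X => rfl
      right_inv := fun z => rfl }
  exact Fintype.sum_equiv e _ _ fun X => rfl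

theorem omB_nonneg {ι : Type} [Fintype ι] [DecidableEq ι] (p : ι → ℕ) [∀ i, Fact (p i).Prime]
    (B : Finset ι) (i : ι) (x : ZMod (p i)) : 0 ≤ omB p B i x := by
  have hp : (1 : ℝ) < p i := by exact_mod_cast (Fact.out : (p i).Prime).one_lt
  have h1 : 0 ≤ (p i : ℝ) - 1 := by linarith
  unfold omB om0 om1
  split_ifs <;> positivity

/-- Partition in blocks. -/
theorem blocks {ι : Type} [DecidableEq ι] (S : Finset ι) (n h : ℕ)
    (hS : S.card ≤ n * h) : ∃ f : ι → ℕ, (∀ i ∈ S, f i ∈ range n) ∧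
      ∀ b, (S.filter fun i => f i = b).card ≤ h := by
  classical
  set idx : ι → ℕ := fun i => if hi : i ∈ S then (S.equivFin ⟨i, hi⟩ : ℕ) else 0 with hidx
  have hidx1 : ∀ i (hi : i ∈ S), idx i = (S.equivFin ⟨i, hi⟩ : ℕ) := fun i hi => by
    simp only [hidx, dif_pos hi]
  have hlt : ∀ i ∈ S, idx i < S.card := fun i hi => by
    rw [hidx1 i hi]
    exact (S.equivFin ⟨i, hi⟩).2
  have hinj : ∀ i ∈ S, ∀ j ∈ S, idx i = idx j → i = j := by
    intro i hi j hj hij
    rw [hidx1 i hi, hidx1 j hj] at hij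
    have := S.equivFin.injective (Fin.ext hij)
    exact congrArg Subtype.val this
  refine ⟨fun i => idx i / h, ?_, ?_⟩
  · intro i hi
    rw [mem_range]
    apply Nat.div_lt_of_lt_mul
    rw [mul_comm]
    exact (hlt i hi).trans_le hS
  · intro b
    rcases Nat.eq_zero_or_pos h with rfl | hh
    · have : S = ∅ := by
        rw [← Finset.card_eq_zero]
        omega
      rw [this]
      simp
    · calc (S.filter fun i => idx i / h = b).card ≤ (range h).card := by
            apply Finset.card_le_card_of_injOn (fun i => idx i % h)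
            · intro i _
              simp only [coe_range, Set.mem_Iio]
              exact Nat.mod_lt _ hh
            · intro i hi j hj hij
              simp only [coe_filter, Set.mem_ofPred_eq] at hi hj
              apply hinj i hi.1 j hj.1
              simp only at hij
              rw [← Nat.div_add_mod (idx i) h, ← Nat.div_add_mod (idx j) h, hi.2, hj.2, hij]
        _ = h := card_range h

theorem amgm (n : ℕ) (hn : 1 ≤ n) (A : ℕ → ℝ) (hA : ∀ b, 0 ≤ A b) :
    ∏ b ∈ range n, A b ≤ (n : ℝ)⁻¹ * ∑ b ∈ range n, A b ^ n := by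
  have hn0 : (n : ℝ) ≠ 0 := by positivity
  have h1 := Real.geom_mean_le_arith_mean_weighted (range n) (fun _ => (n : ℝ)⁻¹)
    (fun b => A b ^ n) (fun _ _ => by positivity) (by
      rw [sum_const, card_range, nsmul_eq_mul, mul_inv_cancel₀ hn0])
    (fun b _ => pow_nonneg (hA b) n)
  rw [← mul_sum] at h1
  refine le_trans (le_of_eq ?_) h1
  apply prod_congr rfl
  intro b _
  rw [Real.pow_rpow_inv_natCast (hA b) (by omega)]

end ItemB8

open ItemB8 in
theorem claimB8 (hB4 : ClaimB4) : ClaimB8 := by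
  classical
  intro ι _ _ p _ lam r s h B I S κ ε hinj hgap hIB hSI hs hSc hcard hκ hε hε2 hmom
  set Ω : Finset (Finset ι) := fib B I with hΩ
  set y : ∀ i : ι, (Fin r → ZMod (p i)) → (Fin r → ZMod (p i)) → ℝ := fun i x x' =>
    ‖Yq (p i) lam r x x'‖ / ((p i : ℝ) - 1) with hy
  have hp1 : ∀ i, (0 : ℝ) < (p i : ℝ) - 1 := by
    intro i
    have : (1 : ℝ) < p i := by exact_mod_cast (Fact.out : (p i).Prime).one_lt
    linarith
  have hy0 : ∀ i x x', 0 ≤ y i x x' := fun i x x' =>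
    div_nonneg (norm_nonneg _) (hp1 i).le
  have hε0 : 0 ≤ ε := by
    refine le_trans ?_ (hε ∅ (by simp))
    positivity
  -- the key estimate for small sets
  have key : ∀ T : Finset ι, T ⊆ S → T.card ≤ h →
      ∑ a ∈ Fintype.piFinset (fun _ : Fin r => Ω), ∑ a' ∈ Fintype.piFinset (fun _ : Fin r => Ω),
        ∏ i ∈ T, (y i (fun j => ((dd p (a j) : ℕ) : ZMod (p i)))
          (fun j => ((dd p (a' j) : ℕ) : ZMod (p i))) / κ) ^ (2 * s) ≤
      2 * (Ω.card : ℝ) ^ (2 * r) := by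
    intro T hTS hTh
    let R : Type := ∀ i : {i // i ∈ T}, ZMod (p i.1)
    let ρ : Finset ι → R := fun A i => ((dd p A : ℕ) : ZMod (p i.1))
    let w : R → ℝ := fun x => ∏ i : {i // i ∈ T}, omB p B i.1 (x i)
    have hw : ∀ x, 0 ≤ w x := fun x => Finset.prod_nonneg fun i _ => omB_nonneg p B i.1 (x i)
    have hN : ∀ x : R, ((Ω.filter fun A => ρ A = x).card : ℝ) ≤ ((1 + ε) * Ω.card) * w x := by
      intro x
      let xt : ∀ i, ZMod (p i) := fun i => if hi : i ∈ T then x ⟨i, hi⟩ else 0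
      have h1 := hB4 ι p h B I T xt hinj hgap hIB (Finset.disjoint_of_subset_left hTS hSI) hTh
        (by omega)
      have h2 : Ω.filter (fun A => ρ A = x) =
          (fib B I).filter fun A => ∀ i ∈ T, ((dd p A : ℕ) : ZMod (p i)) = xt i := by
        apply Finset.filter_congr
        intro A _
        constructor
        · intro h i hi
          simp only [xt]
          rw [dif_pos hi]
          exact congrFun h ⟨i, hi⟩
        · intro h
          funext ⟨i, hi⟩
          have := h i hi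
          simp only [xt] at this
          rw [dif_pos hi] at this
          exact this
      have h3 : ∏ i ∈ T, omB p B i (xt i) = w x := by
        rw [← Finset.prod_coe_sort T (fun i => omB p B i (xt i))]
        apply Finset.prod_congr rfl
        rintro ⟨i, hi⟩ _
        simp only [xt, dif_pos hi]
      rw [h2]
      refine h1.trans ?_
      rw [h3]
      apply mul_le_mul_of_nonneg_right _ (hw x)
      apply mul_le_mul_of_nonneg_right _ (Nat.cast_nonneg _)
      have := hε T hTh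
      linarith
    let g : ∀ i : {i // i ∈ T}, (Fin r → ZMod (p i.1)) → (Fin r → ZMod (p i.1)) → ℝ :=
      fun i x x' => (y i.1 x x' / κ) ^ (2 * s)
    have hg0 : ∀ i x x', 0 ≤ g i x x' := fun i x x' =>
      pow_nonneg (div_nonneg (hy0 _ _ _) hκ.le) _
    have h1 := sum_pair_le (J := Fin r) Ω ρ w ((1 + ε) * Ω.card) hw (by positivity) hN
      (fun X X' => ∏ i, g i (fun j => X j i) (fun j => X' j i))
      (fun X X' => Finset.prod_nonneg fun i _ => hg0 i _ _)
    have h2 : ∑ a ∈ Fintype.piFinset (fun _ : Fin r => Ω),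
        ∑ a' ∈ Fintype.piFinset (fun _ : Fin r => Ω),
        ∏ i ∈ T, (y i (fun j => ((dd p (a j) : ℕ) : ZMod (p i)))
          (fun j => ((dd p (a' j) : ℕ) : ZMod (p i))) / κ) ^ (2 * s) =
        ∑ a ∈ Fintype.piFinset (fun _ : Fin r => Ω), ∑ a' ∈ Fintype.piFinset (fun _ : Fin r => Ω),
          ∏ i, g i (fun j => ρ (a j) i) (fun j => ρ (a' j) i) := by
      apply Finset.sum_congr rfl
      intro a _
      apply Finset.sum_congr rfl
      intro a' _
      exact (Finset.prod_coe_sort T (fun i => (y i (fun j => ((dd p (a j) : ℕ) : ZMod (p i)))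
          (fun j => ((dd p (a' j) : ℕ) : ZMod (p i))) / κ) ^ (2 * s))).symm
    rw [h2]
    refine h1.trans ?_
    have h3 : ∑ X : Fin r → R, ∑ X' : Fin r → R, (∏ j, w (X j)) * (∏ j, w (X' j)) *
        ∏ i, g i (fun j => X j i) (fun j => X' j i) =
        ∏ i : {i // i ∈ T}, ∑ x : Fin r → ZMod (p i.1), ∑ x' : Fin r → ZMod (p i.1),
          (∏ j, omB p B i.1 (x j)) * (∏ j, omB p B i.1 (x' j)) * g i x x' := by
      rw [← sum_factor (T := {i // i ∈ T}) (J := Fin r) (Z := fun i => ZMod (p i.1))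
        (fun i x x' => (∏ j, omB p B i.1 (x j)) * (∏ j, omB p B i.1 (x' j)) * g i x x')]
      apply Finset.sum_congr rfl
      intro X _
      apply Finset.sum_congr rfl
      intro X' _
      rw [Finset.prod_mul_distrib, Finset.prod_mul_distrib, Finset.prod_comm,
        Finset.prod_comm (f := fun i j => omB p B i.1 (X' j i))]
    rw [h3]
    have h4 : ∏ i : {i // i ∈ T}, ∑ x : Fin r → ZMod (p i.1), ∑ x' : Fin r → ZMod (p i.1),
          (∏ j, omB p B i.1 (x j)) * (∏ j, omB p B i.1 (x' j)) * g i x x' ≤ 1 := by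
      apply Finset.prod_le_one
      · intro i _
        refine Finset.sum_nonneg fun x _ => Finset.sum_nonneg fun x' _ => ?_
        exact mul_nonneg (mul_nonneg (Finset.prod_nonneg fun j _ => omB_nonneg p B _ _)
          (Finset.prod_nonneg fun j _ => omB_nonneg p B _ _)) (hg0 _ _ _)
      · rintro ⟨i, hi⟩ _
        have h5 := hmom i (hTS hi)
        have h6 : ∑ x : Fin r → ZMod (p i), ∑ x' : Fin r → ZMod (p i),
            (∏ j, omB p B i (x j)) * (∏ j, omB p B i (x' j)) * (y i x x' / κ) ^ (2 * s) =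
            (∑ x : Fin r → ZMod (p i), ∑ x' : Fin r → ZMod (p i),
              (∏ j, omB p B i (x j)) * (∏ j, omB p B i (x' j)) *
              (‖Yq (p i) lam r x x'‖ / ((p i : ℝ) - 1)) ^ (2 * s)) / κ ^ (2 * s) := by
          rw [Finset.sum_div]
          apply Finset.sum_congr rfl
          intro x _
          rw [Finset.sum_div]
          apply Finset.sum_congr rfl
          intro x' _
          rw [div_pow]
          ring
        show ∑ x : Fin r → ZMod (p i), ∑ x' : Fin r → ZMod (p i),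
            (∏ j, omB p B i (x j)) * (∏ j, omB p B i (x' j)) * (y i x x' / κ) ^ (2 * s) ≤ 1
        rw [h6, div_le_one (by positivity)]
        exact h5
    rw [Fintype.card_fin]
    calc ((1 + ε) * (Ω.card : ℝ)) ^ (2 * r) *
        ∏ i : {i // i ∈ T}, ∑ x : Fin r → ZMod (p i.1), ∑ x' : Fin r → ZMod (p i.1),
          (∏ j, omB p B i.1 (x j)) * (∏ j, omB p B i.1 (x' j)) * g i x x'
        ≤ ((1 + ε) * (Ω.card : ℝ)) ^ (2 * r) * 1 := mul_le_mul_of_nonneg_left h4 (by positivity)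
      _ = (1 + ε) ^ (2 * r) * (Ω.card : ℝ) ^ (2 * r) := by rw [mul_one, mul_pow]
      _ ≤ 2 * (Ω.card : ℝ) ^ (2 * r) := mul_le_mul_of_nonneg_right hε2 (by positivity)
  -- blocks
  obtain ⟨f, hf1, hf2⟩ := blocks S (2 * s) h hSc
  set n : ℕ := 2 * s with hn
  have hn0 : (n : ℝ) ≠ 0 := by
    have : 0 < n := by omega
    positivity
  have h1 : ∀ a a' : Fin r → Finset ι,
      ∏ i ∈ S, y i (fun j => ((dd p (a j) : ℕ) : ZMod (p i)))
          (fun j => ((dd p (a' j) : ℕ) : ZMod (p i))) ≤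
      κ ^ S.card * ((n : ℝ)⁻¹ * ∑ b ∈ range n, ∏ i ∈ S.filter (fun i => f i = b),
        (y i (fun j => ((dd p (a j) : ℕ) : ZMod (p i)))
          (fun j => ((dd p (a' j) : ℕ) : ZMod (p i))) / κ) ^ n) := by
    intro a a'
    set z : ι → ℝ := fun i => y i (fun j => ((dd p (a j) : ℕ) : ZMod (p i)))
          (fun j => ((dd p (a' j) : ℕ) : ZMod (p i))) / κ with hz
    have hz0 : ∀ i, 0 ≤ z i := fun i => div_nonneg (hy0 _ _ _) hκ.le
    have h2 : ∏ i ∈ S, y i (fun j => ((dd p (a j) : ℕ) : ZMod (p i)))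
          (fun j => ((dd p (a' j) : ℕ) : ZMod (p i))) = κ ^ S.card * ∏ i ∈ S, z i := by
      rw [← Finset.prod_const, ← Finset.prod_mul_distrib]
      apply Finset.prod_congr rfl
      intro i _
      simp only [hz]
      rw [mul_div_cancel₀]
      exact hκ.ne'
    rw [h2]
    apply mul_le_mul_of_nonneg_left _ (by positivity)
    rw [← Finset.prod_fiberwise_of_maps_to hf1]
    refine (amgm n (by omega) (fun b => ∏ i ∈ S.filter (fun i => f i = b), z i)
      (fun b => Finset.prod_nonneg fun i _ => hz0 i)).trans (le_of_eq ?_)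
    congr 1
    apply Finset.sum_congr rfl
    intro b _
    rw [Finset.prod_pow]
  calc ∑ a ∈ Fintype.piFinset (fun _ : Fin r => Ω), ∑ a' ∈ Fintype.piFinset (fun _ : Fin r => Ω),
        ∏ i ∈ S, y i (fun j => ((dd p (a j) : ℕ) : ZMod (p i)))
            (fun j => ((dd p (a' j) : ℕ) : ZMod (p i)))
      ≤ ∑ a ∈ Fintype.piFinset (fun _ : Fin r => Ω),
        ∑ a' ∈ Fintype.piFinset (fun _ : Fin r => Ω),
        κ ^ S.card * ((n : ℝ)⁻¹ * ∑ b ∈ range n, ∏ i ∈ S.filter (fun i => f i = b),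
        (y i (fun j => ((dd p (a j) : ℕ) : ZMod (p i)))
          (fun j => ((dd p (a' j) : ℕ) : ZMod (p i))) / κ) ^ n) :=
        Finset.sum_le_sum fun a _ => Finset.sum_le_sum fun a' _ => h1 a a'
    _ = κ ^ S.card * ((n : ℝ)⁻¹ * ∑ b ∈ range n,
        ∑ a ∈ Fintype.piFinset (fun _ : Fin r => Ω), ∑ a' ∈ Fintype.piFinset (fun _ : Fin r => Ω),
        ∏ i ∈ S.filter (fun i => f i = b), (y i (fun j => ((dd p (a j) : ℕ) : ZMod (p i)))
          (fun j => ((dd p (a' j) : ℕ) : ZMod (p i))) / κ) ^ n) := by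
        rw [Finset.sum_comm (s := range n), Finset.mul_sum, Finset.mul_sum]
        apply Finset.sum_congr rfl
        intro a _
        rw [Finset.sum_comm (s := range n), Finset.mul_sum, Finset.mul_sum]
    _ ≤ κ ^ S.card * ((n : ℝ)⁻¹ * ∑ b ∈ range n, 2 * (Ω.card : ℝ) ^ (2 * r)) := by
        apply mul_le_mul_of_nonneg_left _ (by positivity)
        apply mul_le_mul_of_nonneg_left _ (by positivity)
        exact Finset.sum_le_sum fun b _ => key _ (Finset.filter_subset _ _) (hf2 b)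
    _ = 2 * κ ^ S.card * (Ω.card : ℝ) ^ (2 * r) := by
        rw [Finset.sum_const, card_range, nsmul_eq_mul]
        field_simp

end Pool.Agent.Work.MP_e0aece_nt.Sq

end

section

/-!
# Item B9: the number of bad residue vectors for fixed `B`, `I`, `S`
-/

namespace Pool.Agent.Work.MP_e0aece_nt.Sq

open Finset

namespace ItemB9

/-- Cardinality of a fibre. -/
lemma card_fib {ι : Type} [Fintype ι] [DecidableEq ι] {B I : Finset ι} (h : I ⊆ B) :
    (fib B I).card * 2 ^ B.card = 2 ^ Fintype.card ι := by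
  have h1 : (fib B I).card = 2 ^ (Bᶜ).card := by
    rw [← Finset.card_powerset]
    refine Finset.card_bij' (fun A _ => A \ B) (fun A _ => A ∪ I) ?_ ?_ ?_ ?_
    · intro A _
      rw [Finset.mem_powerset]
      intro x hx
      rw [Finset.mem_compl]
      exact (Finset.mem_sdiff.mp hx).2
    · intro A hA
      rw [Finset.mem_powerset] at hA
      unfold fib
      rw [Finset.mem_filter]
      refine ⟨Finset.mem_univ _, ?_⟩
      ext x
      simp only [Finset.mem_inter, Finset.mem_union]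
      constructor
      · rintro ⟨hx | hx, hxB⟩
        · exact absurd hxB (Finset.mem_compl.mp (hA hx))
        · exact hx
      · intro hx
        exact ⟨Or.inr hx, h hx⟩
    · intro A hA
      unfold fib at hA
      have h2 := (Finset.mem_filter.mp hA).2
      rw [← h2]
      ext x
      simp only [Finset.mem_union, Finset.mem_sdiff, Finset.mem_inter]
      tauto
    · intro A hA
      rw [Finset.mem_powerset] at hA
      ext x
      simp only [Finset.mem_union, Finset.mem_sdiff]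
      constructor
      · rintro ⟨hx | hx, hxB⟩
        · exact hx
        · exact absurd (h hx) hxB
      · intro hx
        exact ⟨Or.inl hx, Finset.mem_compl.mp (hA hx)⟩
  rw [h1, ← pow_add, Finset.card_compl]
  congr 1
  have := Finset.card_le_univ B
  omega

end ItemB9

open ItemB9 in
theorem claimB9 (hB7 : ClaimB7) : ClaimB9 := by
  intro ι _ _ p _ lam r m B I S κ hIB hκ hmom
  classical
  set T : Finset (∀ i, (ZMod (p i))ˣ) := Finset.univ.filter fun k =>
    ∃ ψ ∈ PF p lam S, (2 : ℝ) ^ Fintype.card ι < ‖SumF p B I ψ k‖ * 2 ^ m * 2 ^ B.card with hT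
  have hcard : (Nat.card {k : ∀ i, (ZMod (p i))ˣ // ∃ ψ ∈ PF p lam S,
      (2 : ℝ) ^ Fintype.card ι < ‖SumF p B I ψ k‖ * 2 ^ m * 2 ^ B.card} : ℝ) = T.card := by
    rw [Nat.card_eq_fintype_card, Fintype.card_subtype]
  rw [hcard]
  set F : ℝ := ((fib B I).card : ℝ) with hF
  have hFB : F * 2 ^ B.card = 2 ^ Fintype.card ι := by
    rw [hF]
    exact_mod_cast card_fib hIB
  have hFpos : 0 < F := by
    by_contra h
    push Not at h
    have h1 : F * 2 ^ B.card ≤ 0 := mul_nonpos_of_nonpos_of_nonneg h (by positivity)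
    rw [hFB] at h1
    have h2 : (0 : ℝ) < 2 ^ Fintype.card ι := by positivity
    linarith
  -- the moment
  set Mo : ℝ := ∑ ψ ∈ PF p lam S, ∑ k : (∀ i, (ZMod (p i))ˣ), ‖SumF p B I ψ k‖ ^ (2 * r) with hMo
  have hP : (0 : ℝ) < ∏ i, ((p i : ℝ) - 1) := by
    refine Finset.prod_pos fun i _ => ?_
    have : (1 : ℝ) < p i := by exact_mod_cast (Fact.out : (p i).Prime).one_lt
    linarith
  have hpi : ∀ i, (0 : ℝ) < (p i : ℝ) - 1 := by
    intro i
    have : (1 : ℝ) < p i := by exact_mod_cast (Fact.out : (p i).Prime).one_lt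
    linarith
  have hMoUpper : Mo ≤ (∏ i, ((p i : ℝ) - 1)) * (2 * κ ^ S.card * F ^ (2 * r)) := by
    have h1 := hB7 ι p lam r B I S
    have h2 : Mo = ‖(Mo : ℂ)‖ := by
      rw [Complex.norm_real, Real.norm_of_nonneg]
      exact Finset.sum_nonneg fun _ _ => Finset.sum_nonneg fun _ _ => by positivity
    rw [h2, h1]
    refine le_trans (norm_sum_le _ _) ?_
    refine le_trans (Finset.sum_le_sum fun a _ => norm_sum_le _ _) ?_
    have h3 : ∀ a a' : Fin r → Finset ι,
        ‖(∏ i ∈ S, Yq (p i) lam r (fun j => ((dd p (a j) : ℕ) : ZMod (p i)))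
            (fun j => ((dd p (a' j) : ℕ) : ZMod (p i)))) * ∏ i ∈ Sᶜ, ((p i : ℂ) - 1)‖ =
        (∏ i, ((p i : ℝ) - 1)) *
          ∏ i ∈ S, (‖Yq (p i) lam r (fun j => ((dd p (a j) : ℕ) : ZMod (p i)))
            (fun j => ((dd p (a' j) : ℕ) : ZMod (p i)))‖ / ((p i : ℝ) - 1)) := by
      intro a a'
      rw [norm_mul, norm_prod, norm_prod, ← Finset.prod_mul_prod_compl S (fun i => (p i : ℝ) - 1),
        Finset.prod_div_distrib]
      have h4 : ∀ i ∈ Sᶜ, ‖((p i : ℂ) - 1)‖ = (p i : ℝ) - 1 := by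
        intro i _
        have : ((p i : ℂ) - 1) = (((p i : ℝ) - 1 : ℝ) : ℂ) := by push_cast; ring
        rw [this, Complex.norm_real, Real.norm_of_nonneg (hpi i).le]
      rw [Finset.prod_congr rfl h4]
      have h5 : ∏ i ∈ S, ((p i : ℝ) - 1) ≠ 0 := Finset.prod_ne_zero_iff.mpr fun i _ => (hpi i).ne'
      field_simp
    simp only [h3]
    simp only [← Finset.mul_sum]
    exact mul_le_mul_of_nonneg_left hmom hP.le
  have hMoLower : (T.card : ℝ) * (F / 2 ^ m) ^ (2 * r) ≤ Mo := by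
    rw [hMo, Finset.sum_comm]
    calc (T.card : ℝ) * (F / 2 ^ m) ^ (2 * r) = ∑ k ∈ T, (F / 2 ^ m) ^ (2 * r) := by
          rw [Finset.sum_const, nsmul_eq_mul]
      _ ≤ ∑ k ∈ T, ∑ ψ ∈ PF p lam S, ‖SumF p B I ψ k‖ ^ (2 * r) := by
          refine Finset.sum_le_sum fun k hk => ?_
          obtain ⟨ψ, hψ, hlt⟩ := (Finset.mem_filter.mp hk).2
          refine le_trans ?_ (Finset.single_le_sum (f := fun ψ => ‖SumF p B I ψ k‖ ^ (2 * r))
            (fun ψ _ => by positivity) hψ)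
          refine pow_le_pow_left₀ (by positivity) ?_ _
          rw [div_le_iff₀ (by positivity)]
          rw [← hFB] at hlt
          have h2B : (0 : ℝ) < 2 ^ B.card := by positivity
          exact (lt_of_mul_lt_mul_right hlt h2B.le).le
      _ ≤ _ := by
          refine Finset.sum_le_sum_of_subset_of_nonneg (Finset.subset_univ _) fun k _ _ => ?_
          exact Finset.sum_nonneg fun _ _ => by positivity
  have h1 := le_trans hMoLower hMoUpper
  have h2 : (0 : ℝ) < F ^ (2 * r) := by positivity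
  rw [div_pow, ← pow_mul] at h1
  have h3 : (T.card : ℝ) * (F ^ (2 * r) / 2 ^ (m * (2 * r))) =
      ((T.card : ℝ) / 2 ^ (m * (2 * r))) * F ^ (2 * r) := by ring
  have h4 : (∏ i, ((p i : ℝ) - 1)) * (2 * κ ^ S.card * F ^ (2 * r)) =
      ((∏ i, ((p i : ℝ) - 1)) * (2 * κ ^ S.card)) * F ^ (2 * r) := by ring
  rw [h3, h4] at h1
  have h5 := le_of_mul_le_mul_right h1 h2
  rw [div_le_iff₀ (by positivity)] at h5
  calc (T.card : ℝ) ≤ (∏ i, ((p i : ℝ) - 1)) * (2 * κ ^ S.card) * 2 ^ (m * (2 * r)) := h5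
    _ = _ := by
      rw [mul_comm m (2 * r)]
      ring

end Pool.Agent.Work.MP_e0aece_nt.Sq

end

section

/-!
# ClaimBcount from ClaimB
-/

set_option autoImplicit false

namespace Pool.Agent.Work.MP_e0aece_nt.Sq

open Finset

namespace ItemBC

/-- The number of members of a residue class in `(0, K]`. -/
theorem card_class (K L v : ℕ) (hL : 0 < L) (hLK : L ≤ K) :
    ((((Ioc 0 K).filter fun k => k ≡ v [MOD L]).card : ℕ) : ℝ) ≤ 2 * K / L := by
  have h1 := Nat.Ioc_filter_modEq_card 0 K hL v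
  have hLQ : (0 : ℚ) < L := by exact_mod_cast hL
  have h2 : ((((Ioc 0 K).filter fun k => k ≡ v [MOD L]).card : ℕ) : ℚ) ≤ K / L + 1 := by
    have h3 : (((((Ioc 0 K).filter fun k => k ≡ v [MOD L]).card : ℕ) : ℤ) : ℚ) =
        ((max (⌊((K : ℚ) - v) / L⌋ - ⌊(((0 : ℕ) : ℚ) - v) / L⌋) 0 : ℤ) : ℚ) := by
      rw [h1]
    rw [Int.cast_natCast] at h3
    rw [h3, Int.cast_max, Int.cast_sub, Int.cast_zero]
    refine max_le ?_ (by positivity)
    have h4 := Int.floor_le (((K : ℚ) - v) / L)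
    have h5 := Int.lt_floor_add_one ((((0 : ℕ) : ℚ) - v) / L)
    have h6 : ((K : ℚ) - v) / L - (((0 : ℕ) : ℚ) - v) / L = K / L := by
      push_cast
      ring
    linarith
  have h7 : ((((Ioc 0 K).filter fun k => k ≡ v [MOD L]).card : ℕ) : ℝ) ≤ K / L + 1 := by
    have h9 := (Rat.cast_le (K := ℝ)).2 h2
    push_cast at h9
    exact h9
  have hLR : (0 : ℝ) < L := by exact_mod_cast hL
  have h8 : (1 : ℝ) ≤ K / L := by
    rw [le_div_iff₀ hLR, one_mul]
    exact_mod_cast hLK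
  calc _ ≤ (K : ℝ) / L + 1 := h7
    _ ≤ K / L + K / L := by linarith
    _ = 2 * K / L := by ring

/-- Two numbers with the same residues are congruent modulo the product. -/
theorem modEq_prod {M : ℕ} (p : Fin M → ℕ) (hp : Function.Injective p)
    (hpr : ∀ i, (p i).Prime) (k l : ℕ) (h : ∀ i, (k : ZMod (p i)) = (l : ZMod (p i))) :
    k ≡ l [MOD ∏ i, p i] := by
  have h1 : (∏ i, (p i : ℤ)) ∣ (l : ℤ) - k := by
    refine Finset.prod_dvd_of_coprime ?_ fun i _ => ?_
    · intro i _ j _ hij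
      have h2 : Nat.Coprime (p i) (p j) :=
        (Nat.coprime_primes (hpr i) (hpr j)).2 fun h => hij (hp h)
      exact Nat.isCoprime_iff_coprime.2 h2
    · have h3 := (ZMod.natCast_eq_natCast_iff k l (p i)).1 (h i)
      exact (Nat.modEq_iff_dvd).1 h3
  rw [Nat.modEq_iff_dvd]
  push_cast
  exact h1

end ItemBC

open ItemBC in
open Classical in
theorem claimBcount (hB : ClaimB) : ClaimBcount := by
  obtain ⟨M0, hM0⟩ := hB
  refine ⟨M0, fun M hM lam m p _ hl1 hl2 hm hP hgap K hK => ?_⟩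
  have hmain := hM0 M hM lam m p hl1 hl2 hm hP hgap
  have hpr : ∀ i, (p i).Prime := fun i => (hP.2 i).1
  set L : ℕ := ∏ i, p i with hLdef
  have hL : 0 < L := Finset.prod_pos fun i _ => (hpr i).pos
  have hLR : (0 : ℝ) < L := by exact_mod_cast hL
  let Bad : Finset (∀ i, (ZMod (p i))ˣ) := Finset.univ.filter fun u => ¬ PRv p lam m u
  have hBad : (Bad.card : ℝ) * (M : ℝ) ^ 10 ≤ L := by
    have h1 : (Nat.card {k : ∀ i, (ZMod (p i))ˣ // ¬ PRv p lam m k}) = Bad.card := by
      rw [Nat.card_eq_fintype_card, Fintype.card_subtype]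
    rw [h1] at hmain
    refine hmain.trans ?_
    rw [hLdef, Nat.cast_prod]
    refine Finset.prod_le_prod (fun i _ => ?_) fun i _ => by linarith
    have : (1 : ℝ) ≤ p i := by exact_mod_cast (hpr i).one_le
    linarith
  let T : (∀ i, (ZMod (p i))ˣ) → Finset ℕ := fun u =>
    (Ioc 0 K).filter fun k => ∀ i, (u i : ZMod (p i)) = (k : ZMod (p i))
  have hT : ∀ u, ((T u).card : ℝ) ≤ 2 * K / L := by
    intro u
    rcases (T u).eq_empty_or_nonempty with h | ⟨k0, hk0⟩
    · rw [h]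
      simp only [Finset.card_empty, Nat.cast_zero]
      positivity
    · have hsub : T u ⊆ (Ioc 0 K).filter fun k => k ≡ k0 [MOD L] := by
        intro k hk
        simp only [T, Finset.mem_filter] at hk hk0 ⊢
        refine ⟨hk.1, modEq_prod p hP.1 hpr k k0 fun i => ?_⟩
        rw [← hk.2 i, ← hk0.2 i]
      have h1 : ((T u).card : ℝ) ≤
          ((((Ioc 0 K).filter fun k => k ≡ k0 [MOD L]).card : ℕ) : ℝ) := by
        exact_mod_cast Finset.card_le_card hsub
      exact h1.trans (card_class K L k0 hL hK)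
  have hcard : Nat.card {k : ℕ // k ∈ Ioc 0 K ∧ ∃ u : ∀ i, (ZMod (p i))ˣ,
      (∀ i, (u i : ZMod (p i)) = (k : ZMod (p i))) ∧ ¬ PRv p lam m u} ≤ ∑ u ∈ Bad, (T u).card := by
    have h1 : Nat.card {k : ℕ // k ∈ Ioc 0 K ∧ ∃ u : ∀ i, (ZMod (p i))ˣ,
      (∀ i, (u i : ZMod (p i)) = (k : ZMod (p i))) ∧ ¬ PRv p lam m u} ≤ (Bad.biUnion T).card := by
      have h2 : Nat.card {k : ℕ // k ∈ Bad.biUnion T} = (Bad.biUnion T).card := by
        rw [Nat.card_eq_fintype_card, Fintype.card_coe]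
      rw [← h2]
      refine Nat.card_le_card_of_injective
        (fun k => (⟨k.1, ?_⟩ : {k : ℕ // k ∈ Bad.biUnion T})) ?_
      · obtain ⟨hk, u, hu, hu'⟩ := k.2
        rw [Finset.mem_biUnion]
        exact ⟨u, Finset.mem_filter.2 ⟨Finset.mem_univ _, hu'⟩, Finset.mem_filter.2 ⟨hk, hu⟩⟩
      · intro k k' h
        exact Subtype.ext (congrArg (fun z : {k : ℕ // k ∈ Bad.biUnion T} => z.1) h)
    exact h1.trans Finset.card_biUnion_le
  have hsum : ((∑ u ∈ Bad, (T u).card : ℕ) : ℝ) ≤ Bad.card * (2 * K / L) := by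
    rw [Nat.cast_sum]
    calc ∑ u ∈ Bad, ((T u).card : ℝ) ≤ ∑ u ∈ Bad, (2 * K / L : ℝ) :=
          Finset.sum_le_sum fun u _ => hT u
      _ = Bad.card * (2 * K / L) := by rw [Finset.sum_const, nsmul_eq_mul]
  have hcard' : (Nat.card {k : ℕ // k ∈ Ioc 0 K ∧ ∃ u : ∀ i, (ZMod (p i))ˣ,
      (∀ i, (u i : ZMod (p i)) = (k : ZMod (p i))) ∧ ¬ PRv p lam m u} : ℝ) ≤
      Bad.card * (2 * K / L) := le_trans (by exact_mod_cast hcard) hsum
  calc _ ≤ (Bad.card * (2 * K / L) : ℝ) * (M : ℝ) ^ 10 :=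
        mul_le_mul_of_nonneg_right hcard' (by positivity)
    _ = (Bad.card * (M : ℝ) ^ 10) * (2 * K / L) := by ring
    _ ≤ L * (2 * K / L) := mul_le_mul_of_nonneg_right hBad (by positivity)
    _ = 2 * K := by field_simp

end Pool.Agent.Work.MP_e0aece_nt.Sq

end
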