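import Pool.Agent.Work.MP_e0aece_nt.Defs

/-! Bundle of small proof modules (one section per former module). -/

section

/-!
# Basic facts on the strong test
-/

namespace Pool.Agent.Work.MP_e0aece_nt

open Nat

/-- Reduction of an integral congruence mod `n` to an equality in `ZMod m`, `m ∣ n`. -/
lemma zmod_eq_of_modEq {n m : ℕ} (hm : m ∣ n) {a b : ℤ} (h : a ≡ b [ZMOD (n : ℤ)]) :
    ((a : ℤ) : ZMod m) = (b : ZMod m) := by
  have h2 : a ≡ b [ZMOD (m : ℤ)] := h.of_dvd (by exact_mod_cast hm)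
  exact (ZMod.intCast_eq_intCast_iff a b m).mpr h2

lemma pow_sub_one_of_passes {n : ℕ} {a : ℤ} (h : PassesStrongTest n a) :
    a ^ (n - 1) ≡ 1 [ZMOD (n : ℤ)] := by
  obtain ⟨u, t, ht, hn, h⟩ := h
  rcases h with h | ⟨i, hi, h⟩
  · rw [hn, mul_comm, pow_mul]
    simpa using h.pow (2 ^ u)
  · have : n - 1 = 2 ^ i * t * (2 * 2 ^ (u - i - 1)) := by
      rw [hn]
      have : 2 ^ u = 2 ^ i * (2 * 2 ^ (u - i - 1)) := by
        rw [← pow_succ', ← pow_add]
        congr 1
        omega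
      rw [this]; ring
    rw [this, pow_mul, pow_mul]
    have h2 := (h.pow 2).pow (2 ^ (u - i - 1))
    simpa using h2

/-- Symbol attached to a prime `p` and an integer `a`. -/
noncomputable def symb (p : ℕ) (a : ℤ) : ℕ :=
  open Classical in
  if (p : ℤ) ∣ a then 0 else 1 + padicValNat 2 (orderOf (a : ZMod p))

lemma symb_eq_zero_iff {p : ℕ} {a : ℤ} : symb p a = 0 ↔ (p : ℤ) ∣ a := by
  unfold symb; split_ifs with h <;> simp [h]

lemma symb_of_not_dvd {p : ℕ} {a : ℤ} (h : ¬ (p : ℤ) ∣ a) :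
    symb p a = 1 + padicValNat 2 (orderOf (a : ZMod p)) := by
  unfold symb; simp [h]

lemma padicValNat_two_eq_zero_of_odd {m : ℕ} (h : Odd m) : padicValNat 2 m = 0 := by
  apply padicValNat.eq_zero_of_not_dvd
  intro h2
  exact (Nat.not_even_iff_odd.mpr h) (even_iff_two_dvd.mpr h2)

/-- If `o ∣ 2 ^ (i+1) * t`, `¬ o ∣ 2 ^ i * t`, `t` odd then `v_2 o = i + 1`. -/
lemma padicValNat_of_dvd_not_dvd {o i t : ℕ} (ht : Odd t) (h1 : o ∣ 2 ^ (i + 1) * t)
    (h2 : ¬ o ∣ 2 ^ i * t) : padicValNat 2 o = i + 1 := by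
  have ht0 : t ≠ 0 := by rintro rfl; simp at ht
  have ho0 : o ≠ 0 := by
    rintro rfl
    rw [zero_dvd_iff] at h1
    simp [ht0] at h1
  obtain ⟨e, m, hm, rfl⟩ : ∃ e m, Odd m ∧ o = 2 ^ e * m := by
    obtain ⟨e, m, hm, h⟩ := Nat.exists_eq_two_pow_mul_odd ho0
    exact ⟨e, m, hm, h⟩
  have hm0 : m ≠ 0 := by rintro rfl; simp at hm
  have hv : padicValNat 2 (2 ^ e * m) = e := by
    rw [padicValNat.mul (by positivity) hm0, padicValNat.prime_pow,
      padicValNat_two_eq_zero_of_odd hm, add_zero]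
  rw [hv]
  have hmt : m ∣ t := by
    have : m ∣ 2 ^ (i + 1) * t := (Dvd.intro_left _ rfl).trans h1
    exact (Nat.Coprime.dvd_of_dvd_mul_left ((Nat.coprime_two_right.mpr hm).pow_right _) this)
  have he : e ≤ i + 1 := by
    have : 2 ^ e ∣ 2 ^ (i + 1) * t := (Dvd.intro _ rfl).trans h1
    have h3 : 2 ^ e ∣ 2 ^ (i + 1) :=
      Nat.Coprime.dvd_of_dvd_mul_right ((Nat.coprime_two_left.mpr ht).pow_left _) this
    exact (Nat.pow_dvd_pow_iff_le_right (by norm_num)).mp h3
  by_contra hne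
  apply h2
  exact Nat.mul_dvd_mul (pow_dvd_pow 2 (by omega)) hmt

/-- If `n` passes the strong test to base `a`, then `a` has the same symbol at all primes
dividing `n`. -/
lemma symb_eq_of_passes {n : ℕ} (hn1 : 1 < n) {a : ℤ} (h : PassesStrongTest n a) :
    ∃ e, ∀ p : ℕ, p.Prime → p ≠ 2 → p ∣ n → symb p a = 1 + e := by
  have hpow := pow_sub_one_of_passes h
  have hnd : ∀ p : ℕ, p.Prime → p ∣ n → ¬ (p : ℤ) ∣ a := by
    intro p hp hpn hpa
    have := Fact.mk hp
    have h1 := zmod_eq_of_modEq hpn hpow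
    push_cast at h1
    rw [(ZMod.intCast_zmod_eq_zero_iff_dvd a p).mpr hpa, zero_pow (by omega)] at h1
    exact zero_ne_one h1
  obtain ⟨u, t, ht, hn, h⟩ := h
  rcases h with h | ⟨i, hi, h⟩
  · refine ⟨0, fun p hp hp2 hpn => ?_⟩
    rw [symb_of_not_dvd (hnd p hp hpn)]
    congr 1
    apply padicValNat_two_eq_zero_of_odd
    have h1 := zmod_eq_of_modEq hpn h
    push_cast at h1
    exact Odd.of_dvd_nat ht (orderOf_dvd_of_pow_eq_one h1)
  · refine ⟨i + 1, fun p hp hp2 hpn => ?_⟩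
    have := Fact.mk hp
    rw [symb_of_not_dvd (hnd p hp hpn)]
    congr 1
    have h1 := zmod_eq_of_modEq hpn h
    push_cast at h1
    apply padicValNat_of_dvd_not_dvd ht
    · apply orderOf_dvd_of_pow_eq_one
      rw [show 2 ^ (i + 1) * t = (2 ^ i * t) * 2 by ring, pow_mul, h1]
      norm_num
    · intro hd
      have h2 := orderOf_dvd_iff_pow_eq_one.mp hd
      rw [h1] at h2
      have hneg : (-1 : ZMod p) ≠ 1 := by
        have : Fact (2 < p) := ⟨lt_of_le_of_ne hp.two_le (Ne.symm hp2)⟩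
        exact ZMod.neg_one_ne_one
      exact hneg h2

lemma int_dvd_of_squarefree {n : ℕ} (hn : Squarefree n) {z : ℤ}
    (h : ∀ p : ℕ, p.Prime → p ∣ n → (p : ℤ) ∣ z) : (n : ℤ) ∣ z := by
  have h1 : ∀ p ∈ n.primeFactors, (p : ℤ) ∣ z := by
    intro p hp
    exact h p (Nat.prime_of_mem_primeFactors hp) (Nat.dvd_of_mem_primeFactors hp)
  have h2 : ∏ p ∈ n.primeFactors, p ∣ z.natAbs := by
    apply Finset.prod_primes_dvd
    · intro p hp
      exact (Nat.prime_of_mem_primeFactors hp).prime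
    · intro p hp
      exact Int.natCast_dvd.mp (h1 p hp)
  rw [Nat.prod_primeFactors_of_squarefree hn] at h2
  exact Int.natCast_dvd.mpr h2

/-- A squarefree `n > 1` with `p - 1 ∣ n - 1` for all its primes passes the test to base `a`, if
`a` has the same nonzero symbol at all its primes. -/
lemma passes_of_symb_eq {n : ℕ} (hn1 : 1 < n) (hodd : Odd n) (hsq : Squarefree n)
    (hk : ∀ p : ℕ, p.Prime → p ∣ n → p - 1 ∣ n - 1) {a : ℤ} {e : ℕ}
    (h : ∀ p : ℕ, p.Prime → p ∣ n → symb p a = 1 + e) : PassesStrongTest n a := by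
  obtain ⟨u, t, ht, hut⟩ := Nat.exists_eq_two_pow_mul_odd (n := n - 1) (by omega)
  have hord : ∀ p : ℕ, p.Prime → p ∣ n → orderOf (a : ZMod p) ∣ 2 ^ u * t ∧
      padicValNat 2 (orderOf (a : ZMod p)) = e ∧ orderOf (a : ZMod p) ≠ 0 := by
    intro p hp hpn
    have := Fact.mk hp
    have h1 := h p hp hpn
    have hnd : ¬ (p : ℤ) ∣ a := by
      intro hd
      rw [symb_eq_zero_iff.mpr hd] at h1
      omega
    rw [symb_of_not_dvd hnd] at h1
    have hne : (a : ZMod p) ≠ 0 := by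
      intro h0
      exact hnd ((ZMod.intCast_zmod_eq_zero_iff_dvd a p).mp h0)
    have hdvd : orderOf (a : ZMod p) ∣ p - 1 := by
      apply orderOf_dvd_of_pow_eq_one
      exact ZMod.pow_card_sub_one_eq_one hne
    refine ⟨?_, by omega, ?_⟩
    · rw [← hut]; exact hdvd.trans (hk p hp hpn)
    · intro h0
      rw [h0, zero_dvd_iff] at hdvd
      have := hp.two_le
      omega
  rcases Nat.eq_zero_or_pos e with he | he
  · refine ⟨u, t, ht, hut, Or.inl ?_⟩
    apply Int.ModEq.symm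
    rw [Int.modEq_iff_dvd]
    apply int_dvd_of_squarefree hsq
    intro p hp hpn
    have := Fact.mk hp
    obtain ⟨h1, h2, h3⟩ := hord p hp hpn
    rw [he] at h2
    rw [← ZMod.intCast_zmod_eq_zero_iff_dvd]
    push_cast
    rw [sub_eq_zero]
    apply orderOf_dvd_iff_pow_eq_one.mp
    have hoddo : Odd (orderOf (a : ZMod p)) := by
      rw [← Nat.not_even_iff_odd, even_iff_two_dvd]
      intro h4
      have := one_le_padicValNat_of_dvd h3 h4
      omega
    exact (Nat.Coprime.dvd_of_dvd_mul_left ((Nat.coprime_two_right.mpr hoddo).pow_right _) h1)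
  · have hue : ∀ p : ℕ, p.Prime → p ∣ n → e ≤ u ∧ orderOf (a : ZMod p) ∣ 2 ^ e * t ∧
        ¬ orderOf (a : ZMod p) ∣ 2 ^ (e - 1) * t := by
      intro p hp hpn
      obtain ⟨h1, h2, h3⟩ := hord p hp hpn
      have ht0 : t ≠ 0 := by rintro rfl; simp at ht
      obtain ⟨e', m, hm, hom⟩ := Nat.exists_eq_two_pow_mul_odd h3
      have hm0 : m ≠ 0 := by rintro rfl; simp at hm
      have hv : padicValNat 2 (2 ^ e' * m) = e' := by
        rw [padicValNat.mul (by positivity) hm0, padicValNat.prime_pow,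
          padicValNat_two_eq_zero_of_odd hm, add_zero]
      rw [hom, hv] at h2
      subst h2
      rw [hom] at h1 ⊢
      have hmt : m ∣ t := by
        have : m ∣ 2 ^ u * t := (Dvd.intro_left _ rfl).trans h1
        exact (Nat.Coprime.dvd_of_dvd_mul_left ((Nat.coprime_two_right.mpr hm).pow_right _) this)
      refine ⟨?_, Nat.mul_dvd_mul dvd_rfl hmt, ?_⟩
      · have : 2 ^ e' ∣ 2 ^ u * t := (Dvd.intro _ rfl).trans h1
        have h3 : 2 ^ e' ∣ 2 ^ u :=
          Nat.Coprime.dvd_of_dvd_mul_right ((Nat.coprime_two_left.mpr ht).pow_left _) this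
        exact (Nat.pow_dvd_pow_iff_le_right (by norm_num)).mp h3
      · intro h4
        have : 2 ^ e' ∣ 2 ^ (e' - 1) * t := (Dvd.intro _ rfl).trans h4
        have h3 : 2 ^ e' ∣ 2 ^ (e' - 1) :=
          Nat.Coprime.dvd_of_dvd_mul_right ((Nat.coprime_two_left.mpr ht).pow_left _) this
        have := (Nat.pow_dvd_pow_iff_le_right (by norm_num : 1 < 2)).mp h3
        omega
    have heu : e ≤ u := by
      obtain ⟨p, hp, hpn⟩ := Nat.exists_prime_and_dvd (show n ≠ 1 by omega)
      exact (hue p hp hpn).1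
    refine ⟨u, t, ht, hut, Or.inr ⟨e - 1, by omega, ?_⟩⟩
    apply Int.ModEq.symm
    rw [Int.modEq_iff_dvd]
    apply int_dvd_of_squarefree hsq
    intro p hp hpn
    have := Fact.mk hp
    obtain ⟨_, h1, h2⟩ := hue p hp hpn
    rw [← ZMod.intCast_zmod_eq_zero_iff_dvd]
    push_cast
    rw [sub_neg_eq_add]
    have h3 : ((a : ZMod p) ^ (2 ^ (e - 1) * t)) ^ 2 = 1 := by
      rw [← pow_mul]
      apply orderOf_dvd_iff_pow_eq_one.mp
      have : 2 ^ (e - 1) * t * 2 = 2 ^ e * t := by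
        obtain ⟨k, rfl⟩ : ∃ k, e = k + 1 := ⟨e - 1, by omega⟩
        simp only [Nat.add_sub_cancel]; ring
      rw [this]; exact h1
    have h4 : (a : ZMod p) ^ (2 ^ (e - 1) * t) ≠ 1 := by
      intro h5
      exact h2 (orderOf_dvd_iff_pow_eq_one.mpr h5)
    have h6 : ((a : ZMod p) ^ (2 ^ (e - 1) * t) - 1) * ((a : ZMod p) ^ (2 ^ (e - 1) * t) + 1) = 0 := by
      linear_combination h3
    rcases mul_eq_zero.mp h6 with h5 | h5
    · exact absurd (sub_eq_zero.mp h5) h4
    · exact h5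

end Pool.Agent.Work.MP_e0aece_nt

end

section

/-!
# Korselt's criterion
-/

namespace Pool.Agent.Work.MP_e0aece_nt

open Nat

lemma IsCarmichael.unit_pow {n : ℕ} (h : IsCarmichael n) (u : (ZMod n)ˣ) : u ^ (n - 1) = 1 := by
  obtain ⟨h1, h2, h3⟩ := h
  have : NeZero n := ⟨by omega⟩
  have hc : (u : ZMod n).val.Coprime n := ZMod.val_coe_unit_coprime u
  have h4 := h3 _ hc
  rw [← ZMod.natCast_eq_natCast_iff] at h4
  push_cast at h4
  rw [ZMod.natCast_zmod_val] at h4
  ext
  push_cast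
  exact h4

lemma IsCarmichael.sub_one_dvd {n : ℕ} (h : IsCarmichael n) {p : ℕ} (hp : p.Prime) (hpn : p ∣ n) :
    p - 1 ∣ n - 1 := by
  have : NeZero n := ⟨by have := h.1; omega⟩
  have := Fact.mk hp
  obtain ⟨g, hg⟩ := IsCyclic.exists_generator (α := (ZMod p)ˣ)
  obtain ⟨u, hu⟩ := ZMod.unitsMap_surjective hpn g
  have h1 := h.unit_pow u
  have h2 : g ^ (n - 1) = 1 := by
    rw [← hu, ← map_pow, h1, map_one]
  have h3 := orderOf_dvd_of_pow_eq_one h2
  rw [orderOf_eq_card_of_forall_mem_zpowers hg, Nat.card_eq_fintype_card,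
    ZMod.card_units_eq_totient, Nat.totient_prime hp] at h3
  exact h3

lemma IsCarmichael.squarefree {n : ℕ} (h : IsCarmichael n) : Squarefree n := by
  have hn := h.1
  rw [Nat.squarefree_iff_prime_squarefree]
  intro p hp hpp
  obtain ⟨k, hk⟩ := hpp
  -- `a = 1 + p * k`
  have hcop : (1 + p * k).Coprime n := by
    rw [Nat.coprime_iff_gcd_eq_one] 
    by_contra hne
    obtain ⟨q, hq, hqd⟩ := Nat.exists_prime_and_dvd hne
    have hq1 : q ∣ 1 + p * k := hqd.trans (Nat.gcd_dvd_left _ _)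
    have hq2 : q ∣ n := hqd.trans (Nat.gcd_dvd_right _ _)
    have hq3 : q ∣ p * k := by
      rw [hk, mul_assoc] at hq2
      rcases hq.dvd_mul.mp hq2 with h5 | h5
      · exact h5.trans (Dvd.intro _ rfl)
      · exact h5
    have := (Nat.dvd_add_left hq3).mp hq1
    exact hq.one_lt.ne' (Nat.dvd_one.mp this)
  have h1 := h.2.2 _ hcop
  have h2 : (1 + p * k) ^ (n - 1) ≡ 1 + (n - 1) * (p * k) [MOD n] := by
    have hsq : (p * k) ^ 2 ≡ 0 [MOD n] := by
      rw [Nat.modEq_zero_iff_dvd]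
      refine ⟨k, ?_⟩
      rw [hk]; ring
    have : ∀ m : ℕ, (1 + p * k) ^ m ≡ 1 + m * (p * k) [MOD n] := by
      intro m
      induction m with
      | zero => simp; rfl
      | succ m ih =>
        have h3 := ih.mul_right (1 + p * k)
        rw [← pow_succ] at h3
        refine h3.trans ?_
        have h4 : (1 + m * (p * k)) * (1 + p * k) = 1 + (m + 1) * (p * k) + m * (p * k) ^ 2 := by ring
        rw [h4]
        have h5 := (hsq.mul_left m).add_left (1 + (m + 1) * (p * k))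
        simpa using h5
    exact this (n - 1)
  have h3 : 1 + (n - 1) * (p * k) ≡ 1 + 0 [MOD n] := h2.symm.trans h1
  have h4 := Nat.ModEq.add_left_cancel' 1 h3
  rw [Nat.modEq_zero_iff_dvd] at h4
  obtain ⟨c, hc⟩ := h4
  have hk0 : 0 < p * k := by
    rcases Nat.eq_zero_or_pos (p * k) with h0 | h0
    · rw [mul_assoc, h0] at hk; omega
    · exact h0
  have h5 : n - 1 = p * c := by
    have : (n - 1) * (p * k) = (p * c) * (p * k) := by
      rw [hc]
      conv_lhs => rw [hk]
      ring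
    exact Nat.eq_of_mul_eq_mul_right hk0 this
  have h6 : p ∣ 1 := by
    have h7 : p ∣ n := ⟨p * k, by rw [hk]; ring⟩
    have h8 : p ∣ n - 1 := ⟨c, h5⟩
    have := (Nat.dvd_sub h7 h8)
    rwa [show n - (n - 1) = 1 by omega] at this
  exact hp.one_lt.ne' (Nat.dvd_one.mp h6)

lemma IsCarmichael.odd {n : ℕ} (h : IsCarmichael n) : Odd n := by
  by_contra hne
  rw [Nat.not_odd_iff_even] at hne
  have h1 := h.unit_pow (-1)
  have hodd : Odd (n - 1) := by
    have := h.1
    exact Nat.Even.sub_odd (by omega) hne odd_one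
  rw [hodd.neg_one_pow] at h1
  have h2 : ((-1 : (ZMod n)ˣ) : ZMod n) = ((1 : (ZMod n)ˣ) : ZMod n) := by rw [h1]
  push_cast at h2
  have h3 : ((2 : ℕ) : ZMod n) = 0 := by
    push_cast
    have : (2 : ZMod n) = 1 - (-1) := by ring
    rw [this, h2, sub_self]
  rw [ZMod.natCast_eq_zero_iff] at h3
  have h4 := Nat.le_of_dvd (by norm_num) h3
  have h5 := h.1
  have h6 : n = 2 := by omega
  exact h.2.1 (h6 ▸ Nat.prime_two)

/-- Converse of Korselt's criterion. -/
lemma isCarmichael_of_korselt {n : ℕ} (h1 : 1 < n) (h2 : ¬ n.Prime) (hsq : Squarefree n)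
    (hk : ∀ p : ℕ, p.Prime → p ∣ n → p - 1 ∣ n - 1) : IsCarmichael n := by
  refine ⟨h1, h2, fun a ha => ?_⟩
  rw [← Int.natCast_modEq_iff]
  apply Int.ModEq.symm
  rw [Int.modEq_iff_dvd]
  apply int_dvd_of_squarefree hsq
  intro p hp hpn
  have := Fact.mk hp
  rw [← ZMod.intCast_zmod_eq_zero_iff_dvd]
  push_cast
  rw [sub_eq_zero]
  have hne : (a : ZMod p) ≠ 0 := by
    intro h0
    rw [ZMod.natCast_eq_zero_iff] at h0
    have := Nat.dvd_gcd h0 hpn
    rw [ha] at this
    exact hp.one_lt.ne' (Nat.dvd_one.mp this)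
  obtain ⟨c, hc⟩ := hk p hp hpn
  rw [hc, pow_mul, ZMod.pow_card_sub_one_eq_one hne, one_pow]

/-- A Carmichael number has at least three prime factors. -/
lemma IsCarmichael.three_le_card {n : ℕ} (h : IsCarmichael n) : 3 ≤ n.primeFactors.card := by
  have hn := h.1
  have hsq := h.squarefree
  have hprod := Nat.prod_primeFactors_of_squarefree hsq
  by_contra hlt
  have hcases : n.primeFactors.card = 0 ∨ n.primeFactors.card = 1 ∨ n.primeFactors.card = 2 := by
    omega
  rcases hcases with h0 | h0 | h0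
  · rw [Finset.card_eq_zero] at h0
    rw [h0] at hprod
    simp at hprod
    omega
  · obtain ⟨p, hp⟩ := Finset.card_eq_one.mp h0
    have hpp : p.Prime := Nat.prime_of_mem_primeFactors (n := n) (by rw [hp]; simp)
    rw [hp] at hprod
    simp at hprod
    exact h.2.1 (hprod ▸ hpp)
  · obtain ⟨p, q, hpq, hS⟩ := Finset.card_eq_two.mp h0
    have hp : p.Prime := Nat.prime_of_mem_primeFactors (n := n) (by rw [hS]; simp)
    have hq : q.Prime := Nat.prime_of_mem_primeFactors (n := n) (by rw [hS]; simp)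
    rw [hS, Finset.prod_pair hpq] at hprod
    have key : ∀ p q : ℕ, p.Prime → q.Prime → p < q → p * q = n → False := by
      intro p q hp hq hlt he
      have hd := h.sub_one_dvd hq ⟨p, by rw [← he]; ring⟩
      have h1 : n - 1 = p * (q - 1) + (p - 1) := by
        obtain ⟨a, rfl⟩ : ∃ a, p = a + 1 := ⟨p - 1, by have := hp.two_le; omega⟩
        obtain ⟨b, rfl⟩ : ∃ b, q = b + 1 := ⟨q - 1, by have := hq.two_le; omega⟩
        rw [← he]
        simp only [Nat.add_sub_cancel]
        have : (a + 1) * (b + 1) = (a + 1) * b + a + 1 := by ring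
        rw [this]; rfl
      rw [h1] at hd
      have h2 := (Nat.dvd_add_right (Dvd.intro_left p rfl)).mp hd
      have hp2 := hp.two_le
      have h3 := Nat.le_of_dvd (by omega) h2
      omega
    rcases lt_or_gt_of_ne hpq with h1 | h1
    · exact key p q hp hq h1 hprod
    · exact key q p hq hp h1 (by rw [mul_comm]; exact hprod)

end Pool.Agent.Work.MP_e0aece_nt

end

section

/-!
# Reliable sets from proper colourings
-/

namespace Pool.Agent.Work.MP_e0aece_nt

open Nat

/-- A primitive root modulo `p ^ 2`. -/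
lemma exists_primitive_root (p : ℕ) (hp : p.Prime) (hp2 : p ≠ 2) :
    ∃ G : ℕ, orderOf (G : ZMod (p ^ 2)) = p * (p - 1) ∧ orderOf (G : ZMod p) = p - 1 := by
  have := Fact.mk hp
  have : NeZero (p ^ 2) := ⟨by have := hp.pos; positivity⟩
  have := ZMod.isCyclic_units_of_prime_pow p hp hp2 2
  obtain ⟨g, hg⟩ := IsCyclic.exists_generator (α := (ZMod (p ^ 2))ˣ)
  have hdvd : p ∣ p ^ 2 := dvd_pow_self p (by norm_num)
  refine ⟨(g : ZMod (p ^ 2)).val, ?_, ?_⟩
  · rw [ZMod.natCast_zmod_val, orderOf_units, orderOf_eq_card_of_forall_mem_zpowers hg,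
      Nat.card_eq_fintype_card, ZMod.card_units_eq_totient, Nat.totient_prime_pow hp (by norm_num)]
    simp
  · have hg' : ∀ x : (ZMod p)ˣ, x ∈ Subgroup.zpowers (ZMod.unitsMap hdvd g) := by
      intro x
      obtain ⟨y, rfl⟩ := ZMod.unitsMap_surjective hdvd x
      obtain ⟨k, rfl⟩ := Subgroup.mem_zpowers_iff.mp (hg y)
      exact Subgroup.mem_zpowers_iff.mpr ⟨k, by rw [map_zpow]⟩
    have h1 : (((g : ZMod (p ^ 2)).val : ℕ) : ZMod p) = ((ZMod.unitsMap hdvd g : (ZMod p)ˣ) : ZMod p) := by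
      rw [ZMod.unitsMap_val, ZMod.natCast_val]
    rw [h1, orderOf_units, orderOf_eq_card_of_forall_mem_zpowers hg', Nat.card_eq_fintype_card,
      ZMod.card_units_eq_totient, Nat.totient_prime hp]

/-- Simultaneous choice of residues. -/
lemma exists_crt (N : ℕ) (r : ℕ → ℕ) :
    ∃ k : ℕ, ∀ p : ℕ, p.Prime → p ≤ N → k ≡ r p [MOD p ^ 2] := by
  obtain ⟨k, hk⟩ := Nat.chineseRemainderOfFinset r (fun p => p ^ 2)
    ((Finset.range (N + 1)).filter Nat.Prime)
    (by
      intro i hi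
      have := (Finset.mem_filter.mp hi).2.pos
      positivity)
    (by
      intro p hp q hq hpq
      have hp' := (Finset.mem_filter.mp hp).2
      have hq' := (Finset.mem_filter.mp hq).2
      exact Nat.Coprime.pow 2 2 ((Nat.coprime_primes hp' hq').mpr hpq))
  refine ⟨k, fun p hp hpN => hk p ?_⟩
  rw [Finset.mem_filter, Finset.mem_range]
  exact ⟨by omega, hp⟩

/-- One extra base with prescribed symbols. -/
lemma exists_base_symb (N : ℕ) (s : ℕ → ℕ)
    (hs : ∀ p : ℕ, p.Prime → p ≠ 2 → s p ≤ padicValNat 2 (p - 1) + 1) :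
    ∃ a : ℤ, ∀ p : ℕ, p.Prime → p ≠ 2 → p ≤ N → symb p a = s p := by
  classical
  choose! G hG1 hG2 using fun p (hp : p.Prime) (hp2 : p ≠ 2) => exists_primitive_root p hp hp2
  obtain ⟨k, hk⟩ := exists_crt N (fun p => if s p = 0 then 0 else G p ^ ((p - 1) / 2 ^ (s p - 1)))
  refine ⟨(k : ℤ), fun p hp hp2 hpN => ?_⟩
  have := Fact.mk hp
  have h1 := (hk p hp hpN).of_dvd (dvd_pow_self p (by norm_num : 2 ≠ 0))
  rw [← ZMod.natCast_eq_natCast_iff] at h1
  rcases Nat.eq_zero_or_pos (s p) with h0 | h0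
  · rw [h0, if_pos rfl] at h1
    rw [h0, symb_eq_zero_iff]
    rw [← ZMod.intCast_zmod_eq_zero_iff_dvd]
    push_cast
    rw [h1]; simp
  · rw [if_neg (by omega)] at h1
    push_cast at h1
    have hGord := hG2 p hp hp2
    have h2dvd : 2 ^ (s p - 1) ∣ p - 1 := by
      have h3 : 2 ^ padicValNat 2 (p - 1) ∣ p - 1 := pow_padicValNat_dvd
      have h4 := hs p hp hp2
      exact (pow_dvd_pow 2 (by omega)).trans h3
    obtain ⟨c, hc⟩ := h2dvd
    have hp1 : 0 < p - 1 := by have := hp.two_le; omega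
    have hc0 : 0 < c := by
      rcases Nat.eq_zero_or_pos c with hcz | hcz
      · rw [hcz] at hc; omega
      · exact hcz
    have hdiv : (p - 1) / 2 ^ (s p - 1) = c := by
      rw [hc]; exact Nat.mul_div_cancel_left _ (by positivity)
    rw [hdiv] at h1
    have hnd : ¬ (p : ℤ) ∣ (k : ℤ) := by
      rw [← ZMod.intCast_zmod_eq_zero_iff_dvd]
      push_cast
      rw [h1]
      apply pow_ne_zero
      intro h5
      rw [h5] at hGord
      have h6 : orderOf (0 : ZMod p) = 0 := by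
        rw [orderOf_eq_zero_iff']
        intro n hn
        rw [zero_pow hn.ne']
        exact zero_ne_one
      omega
    rw [symb_of_not_dvd hnd]
    push_cast
    rw [h1, orderOf_pow_of_dvd hc0.ne' (by rw [hGord]; exact ⟨2 ^ (s p - 1), by rw [hc]; ring⟩), hGord]
    rw [hc, Nat.mul_div_cancel _ hc0, padicValNat.prime_pow]
    omega

/-- The first base. -/
lemma exists_base_prim (N : ℕ) :
    ∃ a : ℤ, ∀ p : ℕ, p.Prime → p ≠ 2 → p ≤ N →
      orderOf (a : ZMod (p ^ 2)) = p * (p - 1) ∧ orderOf (a : ZMod p) = p - 1 := by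
  choose! G hG1 hG2 using fun p (hp : p.Prime) (hp2 : p ≠ 2) => exists_primitive_root p hp hp2
  obtain ⟨k, hk⟩ := exists_crt N G
  refine ⟨(k : ℤ), fun p hp hp2 hpN => ?_⟩
  have h0 := hk p hp hpN
  have h1 := h0.of_dvd (dvd_pow_self p (by norm_num : 2 ≠ 0))
  rw [← ZMod.natCast_eq_natCast_iff] at h1 h0
  push_cast
  rw [h0, h1]
  exact ⟨hG1 p hp hp2, hG2 p hp hp2⟩

/-- Reliable sets from proper colourings. -/
theorem exists_reliable_of_colorings (x : ℝ) (m : ℕ)
    (h : ∀ v : ℕ, 1 ≤ v → ∃ c : ℕ → (Fin m → Fin (v + 2)), ∀ n : ℕ, IsCarmichael n →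
      (n : ℝ) ≤ x → (∀ p : ℕ, p.Prime → p ∣ n → padicValNat 2 (p - 1) = v) →
      ∃ p q : ℕ, p.Prime ∧ p ∣ n ∧ q.Prime ∧ q ∣ n ∧ c p ≠ c q) :
    ∃ W : Finset ℤ, W.card ≤ m + 1 ∧ IsReliable W x := by
  classical
  choose! c hc using h
  obtain ⟨a0, ha0⟩ := exists_base_prim ⌊x⌋₊
  have hex : ∀ j : Fin m, ∃ a : ℤ, ∀ p : ℕ, p.Prime → p ≠ 2 → p ≤ ⌊x⌋₊ →
      symb p a = (c (padicValNat 2 (p - 1)) p j : ℕ) := by
    intro j
    apply exists_base_symb
    intro p hp hp2
    have h1 : 1 ≤ padicValNat 2 (p - 1) := by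
      apply one_le_padicValNat_of_dvd
      · have := hp.two_le; omega
      · have := hp.eq_two_or_odd'.resolve_left hp2
        exact even_iff_two_dvd.mp (Nat.Odd.sub_odd this odd_one)
    have := (c (padicValNat 2 (p - 1)) p j).isLt
    omega
  choose a ha using hex
  refine ⟨insert a0 (Finset.univ.image a), ?_, ?_⟩
  · refine (Finset.card_insert_le _ _).trans ?_
    have := Finset.card_image_le (s := (Finset.univ : Finset (Fin m))) (f := a)
    simp at this
    omega
  · intro n hodd hn1 hnp hnx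
    by_contra hcon
    push Not at hcon
    have hnN : n ≤ ⌊x⌋₊ := Nat.le_floor hnx
    have hle : ∀ p : ℕ, p ∣ n → p ≤ ⌊x⌋₊ := fun p hp => (Nat.le_of_dvd (by omega) hp).trans hnN
    have hne2 : ∀ p : ℕ, p ∣ n → p ≠ 2 := by
      rintro p hp rfl
      exact (Nat.not_even_iff_odd.mpr hodd) (even_iff_two_dvd.mpr hp)
    obtain ⟨p0, hp0, hp0n⟩ := Nat.exists_prime_and_dvd (show n ≠ 1 by omega)
    -- the base a0
    have hpass0 : PassesStrongTest n a0 := by
      have h1 := hcon a0 (Finset.mem_insert_self _ _)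
      unfold IsWitness at h1
      push Not at h1
      apply h1
      intro hdvd
      have h2 := (ha0 p0 hp0 (hne2 p0 hp0n) (hle p0 hp0n)).2
      have h3 : (a0 : ZMod p0) = 0 := by
        rw [ZMod.intCast_zmod_eq_zero_iff_dvd]
        exact (Int.natCast_dvd_natCast.mpr hp0n).trans hdvd
      rw [h3] at h2
      have := Fact.mk hp0
      have h6 : orderOf (0 : ZMod p0) = 0 := by
        rw [orderOf_eq_zero_iff']
        intro n hn
        rw [zero_pow hn.ne']
        exact zero_ne_one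
      have := hp0.two_le
      omega
    have hpow0 := pow_sub_one_of_passes hpass0
    have hsq : Squarefree n := by
      rw [Nat.squarefree_iff_prime_squarefree]
      intro p hp hpp
      have hpn : p ∣ n := (Dvd.intro _ rfl).trans hpp
      have h1 := zmod_eq_of_modEq (m := p ^ 2) (by rw [pow_two]; exact hpp) hpow0
      push_cast at h1
      have h2 := orderOf_dvd_of_pow_eq_one h1
      rw [(ha0 p hp (hne2 p hpn) (hle p hpn)).1] at h2
      have h3 : p ∣ n - 1 := (Dvd.intro _ rfl).trans h2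
      have := (Nat.dvd_sub hpn h3)
      rw [show n - (n - 1) = 1 by omega] at this
      exact hp.one_lt.ne' (Nat.dvd_one.mp this)
    have hkor : ∀ p : ℕ, p.Prime → p ∣ n → p - 1 ∣ n - 1 := by
      intro p hp hpn
      have h1 := zmod_eq_of_modEq (m := p) hpn hpow0
      push_cast at h1
      have h2 := orderOf_dvd_of_pow_eq_one h1
      rwa [(ha0 p hp (hne2 p hpn) (hle p hpn)).2] at h2
    have hcar := isCarmichael_of_korselt hn1 hnp hsq hkor
    obtain ⟨e, he⟩ := symb_eq_of_passes hn1 hpass0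
    have hval : ∀ p : ℕ, p.Prime → p ∣ n → padicValNat 2 (p - 1) = e := by
      intro p hp hpn
      have h1 := he p hp (hne2 p hpn) hpn
      have hnd : ¬ (p : ℤ) ∣ a0 := by
        intro hd
        rw [symb_eq_zero_iff.mpr hd] at h1
        omega
      rw [symb_of_not_dvd hnd, (ha0 p hp (hne2 p hpn) (hle p hpn)).2] at h1
      omega
    have he1 : 1 ≤ e := by
      rw [← hval p0 hp0 hp0n]
      apply one_le_padicValNat_of_dvd
      · have := hp0.two_le; omega
      · have := hp0.eq_two_or_odd'.resolve_left (hne2 p0 hp0n)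
        exact even_iff_two_dvd.mp (Nat.Odd.sub_odd this odd_one)
    obtain ⟨p, q, hp, hpn, hq, hqn, hpq⟩ := hc e he1 n hcar hnx hval
    obtain ⟨j, hj⟩ := Function.ne_iff.mp hpq
    have hsp := ha j p hp (hne2 p hpn) (hle p hpn)
    have hsq' := ha j q hq (hne2 q hqn) (hle q hqn)
    rw [hval p hp hpn] at hsp
    rw [hval q hq hqn] at hsq'
    have hne : symb p (a j) ≠ symb q (a j) := by
      rw [hsp, hsq']
      intro h
      exact hj (Fin.ext h)
    have h1 := hcon (a j) (Finset.mem_insert_of_mem (Finset.mem_image_of_mem _ (Finset.mem_univ _)))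
    unfold IsWitness at h1
    push Not at h1
    by_cases hd : (n : ℤ) ∣ a j
    · apply hne
      rw [symb_eq_zero_iff.mpr ((Int.natCast_dvd_natCast.mpr hpn).trans hd),
        symb_eq_zero_iff.mpr ((Int.natCast_dvd_natCast.mpr hqn).trans hd)]
    · obtain ⟨e', he'⟩ := symb_eq_of_passes hn1 (h1 hd)
      apply hne
      rw [he' p hp (hne2 p hpn) hpn, he' q hq (hne2 q hqn) hqn]

end Pool.Agent.Work.MP_e0aece_nt

end
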