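import Pool.Agent.Work.MP_e0aece_nt.Bd.B05
import Pool.Agent.Work.MP_e0aece_nt.Bd.B02
import Pool.Agent.Work.MP_e0aece_nt.Defs
import Pool.Agent.Work.MP_e0aece_nt.Bd.B03
import Pool.Agent.Work.MP_e0aece_nt.Sandwich

/-! Bundle of small proof modules (one section per former module). -/

section

/-!
# Item BF: assembly of Module B (helper90)
-/

namespace Pool.Agent.Work.MP_e0aece_nt.Sq

open Finset

namespace ItemBF

theorem mem_Pw {q lam : ℕ} (hq : q ≠ 0) (ψ : MulChar (ZMod q) ℂ) :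
    ψ ∈ Pw q lam ↔ ψ ≠ 1 ∧ ∃ φ : MulChar (ZMod q) ℂ, φ ^ lam = ψ := by
  classical
  unfold Pw
  rw [dif_pos hq]
  simp

theorem evk_zero {q : ℕ} [Fact q.Prime] (ψ : MulChar (ZMod q) ℂ) (k : (ZMod q)ˣ) :
    evk ψ 0 k = 1 := by
  have : ures ((0 : ZMod q) * (k : ZMod q) + 1) = 1 := by
    rw [zero_mul, zero_add]
    unfold ures
    rw [dif_neg one_ne_zero]
    ext
    rfl
  unfold evk
  rw [this]
  simp

theorem evk_one {q : ℕ} [Fact q.Prime] (a : ZMod q) (k : (ZMod q)ˣ) :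
    evk (1 : MulChar (ZMod q) ℂ) a k = 1 := by
  unfold evk
  exact MulChar.one_apply_coe _

theorem dd_zero {ι : Type} (p : ι → ℕ) (i : ι) (A : Finset ι) (h : i ∈ A) :
    ((dd p A : ℕ) : ZMod (p i)) = 0 := by
  rw [ZMod.natCast_eq_zero_iff]
  exact dvd_prod_of_mem p h

theorem sumF_congr {ι : Type} [Fintype ι] [DecidableEq ι] (p : ι → ℕ) [∀ i, Fact (p i).Prime]
    (B I : Finset ι) (ψ φ : ∀ i, MulChar (ZMod (p i)) ℂ) (k : ∀ i, (ZMod (p i))ˣ)
    (h : ∀ i, i ∉ I → ψ i = φ i) : SumF p B I ψ k = SumF p B I φ k := by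
  unfold SumF
  refine sum_congr rfl fun A hA => prod_congr rfl fun i _ => ?_
  by_cases hi : i ∈ I
  · have hiA : i ∈ A := by
      simp only [fib, mem_filter, mem_univ, true_and] at hA
      rw [← hA, mem_inter] at hi
      exact hi.1
    rw [dd_zero p i A hiA, evk_zero, evk_zero]
  · rw [h i hi]

end ItemBF

open ItemBF in
theorem claimB (hB3 : ClaimB3) (hB6 : ClaimB6) (hB8 : ClaimB8) (hB9 : ClaimB9)
    (hB10 : ClaimB10) (hB11 : ClaimB11) : ClaimB := by
  classical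
  obtain ⟨M0, hM0⟩ := hB11
  refine ⟨M0, fun M hM lam m p _ hl hlM hm hP hG => ?_⟩
  obtain ⟨h1, h2, h3, h4, s, r, κ, hs, hκ, hsM, hsq, he, hmom, hrat, hlast⟩ :=
    hM0 M hM lam m hl hlM hm
  obtain ⟨hpinj, hP⟩ := hP
  set h := h0 M with hh
  have hM1 : 1 ≤ M := by omega
  have hMr : (1 : ℝ) ≤ M := by exact_mod_cast hM1
  set ε : ℝ := Real.exp (-((M : ℝ) / 20)) with hε
  have hbig : (1 : ℝ) ≤ 4 * (M : ℝ) ^ 20 := by
    have : (1 : ℝ) ≤ (M : ℝ) ^ 20 := one_le_pow₀ hMr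
    linarith
  -- products over small sets
  have hT : ∀ T : Finset (Fin M), T.card ≤ h →
      (∏ i ∈ T, (p i : ℝ)) * Real.exp (-(3 * (Fintype.card (Fin M) : ℝ) / 40)) ≤ ε := by
    intro T hT
    rw [Fintype.card_fin]
    have h5 : ∏ i ∈ T, (p i : ℝ) ≤ (4 * (M : ℝ) ^ 20) ^ h := by
      calc ∏ i ∈ T, (p i : ℝ) ≤ ∏ _i ∈ T, (4 * (M : ℝ) ^ 20) := by
            refine prod_le_prod (fun i _ => by positivity) (fun i _ => ?_)
            exact_mod_cast (hP i).2.2.1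
        _ = (4 * (M : ℝ) ^ 20) ^ T.card := by rw [prod_const]
        _ ≤ _ := pow_le_pow_right₀ hbig hT
    exact (mul_le_mul_of_nonneg_right h5 (Real.exp_pos _).le).trans h3
  -- bad sets
  let Bad : Finset (Fin M) × Finset (Fin M) × Finset (Fin M) → Set (∀ i, (ZMod (p i))ˣ) :=
    fun t => {k | ∃ ψ ∈ PF p lam t.2.2,
      (2 : ℝ) ^ Fintype.card (Fin M) < ‖SumF p t.1 t.2.1 ψ k‖ * 2 ^ m * 2 ^ t.1.card}
  let T : Finset (Finset (Fin M) × Finset (Fin M) × Finset (Fin M)) :=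
    univ.filter fun t => (t.2.1 ⊆ t.1 ∧ Disjoint t.2.2 t.2.1) ∧ (t.1.card ≤ m ∧ h < t.2.2.card)
  have hcov : {k : ∀ i, (ZMod (p i))ˣ | ¬ PRv p lam m k} ⊆ ⋃ t ∈ T, Bad t := by
    intro k hk
    rw [Set.mem_ofPred_eq] at hk
    unfold PRv at hk
    push Not at hk
    obtain ⟨B, I, hI, hB, φ, ⟨i0, hi0, hφ0⟩, hbad⟩ := hk
    rw [mem_sdiff] at hi0
    set S : Finset (Fin M) := univ.filter fun i => i ∉ I ∧ φ i ^ lam ≠ 1 with hS
    have hmemS : ∀ i, i ∈ S ↔ (i ∉ I ∧ φ i ^ lam ≠ 1) := fun i => by simp [hS]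
    have hSI : Disjoint S I := by
      rw [disjoint_left]
      intro i hi hiI
      exact ((hmemS i).1 hi).1 hiI
    have hlarge : h < S.card := by
      by_contra hle
      rw [not_lt] at hle
      have h5 := hB3 (Fin M) p h B I S (fun i => φ i ^ lam) k hpinj hG hI hSI
        (fun i hi => ⟨fun h6 => ((hmemS i).1 h6).2, fun h6 => (hmemS i).2 ⟨hi, h6⟩⟩)
        ⟨i0, mem_inter.2 ⟨(hmemS i0).2 ⟨hi0.2, hφ0⟩, hi0.1⟩⟩ hle
        (by rw [Fintype.card_fin]; omega)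
      have h6 := hT S hle
      have h7 : ‖SumF p B I (fun i => φ i ^ lam) k‖ * 2 ^ B.card ≤
          2 ^ Fintype.card (Fin M) * ε :=
        h5.trans (mul_le_mul_of_nonneg_left h6 (by positivity))
      have h8 : ‖SumF p B I (fun i => φ i ^ lam) k‖ * 2 ^ m * 2 ^ B.card ≤
          2 ^ Fintype.card (Fin M) := by
        calc _ = (‖SumF p B I (fun i => φ i ^ lam) k‖ * 2 ^ B.card) * 2 ^ m := by ring
          _ ≤ (2 ^ Fintype.card (Fin M) * ε) * 2 ^ m :=
              mul_le_mul_of_nonneg_right h7 (by positivity)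
          _ = 2 ^ Fintype.card (Fin M) * (ε * 2 ^ m) := by ring
          _ ≤ 2 ^ Fintype.card (Fin M) * 1 := mul_le_mul_of_nonneg_left h4 (by positivity)
          _ = _ := mul_one _
      exact absurd hbad (not_lt.2 h8)
    rw [Set.mem_iUnion₂]
    refine ⟨(B, I, S), ?_, fun i => if i ∈ S then φ i ^ lam else 1, ?_, ?_⟩
    · simp only [T, mem_filter, mem_univ, true_and]
      exact ⟨⟨hI, hSI⟩, hB, hlarge⟩
    · simp only [PF, Fintype.mem_piFinset]
      intro i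
      by_cases hi : i ∈ S
      · rw [if_pos hi, if_pos hi, mem_Pw (Fact.out : (p i).Prime).ne_zero]
        exact ⟨((hmemS i).1 hi).2, φ i, rfl⟩
      · rw [if_neg hi, if_neg hi, mem_singleton]
    · rw [sumF_congr p B I _ (fun i => φ i ^ lam) k (fun i hi => ?_)]
      · exact hbad
      · by_cases hiS : i ∈ S
        · rw [if_pos hiS]
        · rw [if_neg hiS]
          by_contra hne
          exact hiS ((hmemS i).2 ⟨hi, fun h6 => hne h6.symm⟩)
  -- the bound for each bad set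
  have hpos : (0 : ℝ) ≤ ∏ i, ((p i : ℝ) - 1) := by
    refine prod_nonneg fun i _ => ?_
    have : (1 : ℝ) < p i := by exact_mod_cast (Fact.out : (p i).Prime).one_lt
    linarith
  have hbd : ∀ t ∈ T, ((Bad t).ncard : ℝ) ≤
      2 * κ ^ t.2.2.card * 2 ^ (2 * r * m) * ∏ i, ((p i : ℝ) - 1) := by
    rintro ⟨B, I, S⟩ ht
    simp only [T, mem_filter, mem_univ, true_and] at ht
    obtain ⟨⟨hI, hSI⟩, hB, hS⟩ := ht
    have h5 := hB8 (Fin M) p lam r s h B I S κ ε hpinj hG hI hSI hs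
      (by
        have h6 : S.card ≤ M := by
          have := card_le_univ S
          rwa [Fintype.card_fin] at this
        exact h6.trans hsM)
      (by rw [Fintype.card_fin]; omega) hκ hT he (by
        intro i _
        have hq1 := (hP i).1
        have hlam : 1 ≤ lam := by
          have h6 := (hP i).2.2.2
          rcases Nat.eq_zero_or_pos lam with h7 | h7
          · subst h7
            rw [zero_dvd_iff] at h6
            have := hq1.two_le
            omega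
          · exact h7
        have hq2 : 100 * (2 * s) ^ 2 ≤ p i := hsq.trans (hP i).2.1.le
        have hq3 : (M : ℝ) ^ 20 ≤ p i := by exact_mod_cast (hP i).2.1.le
        have hq4 : (p i : ℝ) ≤ 4 * (M : ℝ) ^ 20 := by exact_mod_cast (hP i).2.2.1
        have h7 := hmom (p i) hq3 hq4
        by_cases hi : i ∈ B
        · have h6 := hB6 (p i) lam r s true hs hlam (hP i).2.2.2 hq2
          refine le_trans (le_of_eq ?_) (h6.trans h7)
          simp [omB, hi]
        · have h6 := hB6 (p i) lam r s false hs hlam (hP i).2.2.2 hq2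
          refine le_trans (le_of_eq ?_) (h6.trans h7)
          simp [omB, hi])
    have h6 := hB9 (Fin M) p lam r m B I S κ hI hκ h5
    exact h6
  have hcard : (Nat.card {k : ∀ i, (ZMod (p i))ˣ // ¬ PRv p lam m k} : ℝ) ≤
      ∑ t ∈ T, 2 * κ ^ t.2.2.card * 2 ^ (2 * r * m) * ∏ i, ((p i : ℝ) - 1) := by
    have h5 : Nat.card {k : ∀ i, (ZMod (p i))ˣ // ¬ PRv p lam m k} ≤ ∑ t ∈ T, (Bad t).ncard := by
      have h6 : Nat.card {k : ∀ i, (ZMod (p i))ˣ // ¬ PRv p lam m k} =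
          {k : ∀ i, (ZMod (p i))ˣ | ¬ PRv p lam m k}.ncard := rfl
      rw [h6]
      have hfin : (⋃ t ∈ T, Bad t).Finite := by
        have hNe : ∀ i, NeZero (p i) := fun i => ⟨(Fact.out : (p i).Prime).ne_zero⟩
        exact Set.toFinite _
      exact (Set.ncard_le_ncard hcov hfin).trans (Finset.set_ncard_biUnion_le T Bad)
    calc (Nat.card {k : ∀ i, (ZMod (p i))ˣ // ¬ PRv p lam m k} : ℝ) ≤
          ((∑ t ∈ T, (Bad t).ncard : ℕ) : ℝ) := by exact_mod_cast h5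
      _ = ∑ t ∈ T, ((Bad t).ncard : ℝ) := by push_cast; rfl
      _ ≤ _ := sum_le_sum hbd
  have hsum : ∑ t ∈ T, κ ^ t.2.2.card ≤ (2 * M + 1 : ℝ) ^ m * (2 * (Real.exp 1 * M * κ / h) ^ h) := by
    refine le_trans ?_ (hB10 M m h κ hκ h1 hrat)
    simp only [T]
    rw [sum_filter, Fintype.sum_prod_type]
    refine sum_le_sum fun B _ => ?_
    rw [Fintype.sum_prod_type]
    have h5 : ∑ I ∈ B.powerset, ∑ S : Finset (Fin M),
        (if B.card ≤ m ∧ h < S.card then κ ^ S.card else 0) =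
        ∑ I : Finset (Fin M), if I ∈ B.powerset then ∑ S : Finset (Fin M),
        (if B.card ≤ m ∧ h < S.card then κ ^ S.card else 0) else 0 := by
      rw [sum_ite_mem, univ_inter]
    rw [h5]
    refine sum_le_sum fun I _ => ?_
    by_cases hI : I ∈ B.powerset
    · rw [if_pos hI]
      refine sum_le_sum fun S _ => ?_
      by_cases hc : B.card ≤ m ∧ h < S.card
      · rw [if_pos hc]
        split_ifs
        · exact le_rfl
        · positivity
      · rw [if_neg hc, if_neg (fun h6 => hc h6.2)]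
    · rw [if_neg hI]
      refine le_of_eq (sum_eq_zero fun S _ => ?_)
      rw [if_neg]
      intro h6
      exact hI (mem_powerset.2 h6.1.1)
  have hfac : ∑ t ∈ T, 2 * κ ^ t.2.2.card * 2 ^ (2 * r * m) * ∏ i, ((p i : ℝ) - 1) =
      (∑ t ∈ T, κ ^ t.2.2.card) * (2 * 2 ^ (2 * r * m)) * ∏ i, ((p i : ℝ) - 1) := by
    rw [sum_mul, sum_mul]
    refine sum_congr rfl fun t _ => ?_
    ring
  calc (Nat.card {k : ∀ i, (ZMod (p i))ˣ // ¬ PRv p lam m k} : ℝ) * (M : ℝ) ^ 10 ≤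
        (∑ t ∈ T, κ ^ t.2.2.card) * (2 * 2 ^ (2 * r * m)) * (∏ i, ((p i : ℝ) - 1)) *
          (M : ℝ) ^ 10 :=
        mul_le_mul_of_nonneg_right (hcard.trans (le_of_eq hfac)) (by positivity)
    _ ≤ ((2 * M + 1 : ℝ) ^ m * (2 * (Real.exp 1 * M * κ / h) ^ h)) * (2 * 2 ^ (2 * r * m)) *
          (∏ i, ((p i : ℝ) - 1)) * (M : ℝ) ^ 10 := by
        refine mul_le_mul_of_nonneg_right (mul_le_mul_of_nonneg_right
          (mul_le_mul_of_nonneg_right hsum (by positivity)) hpos) (by positivity)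
    _ = (((2 * M + 1 : ℝ) ^ m * (2 * (Real.exp 1 * M * κ / h) ^ h)) * (2 * 2 ^ (2 * r * m)) *
          (M : ℝ) ^ 10) * (∏ i, ((p i : ℝ) - 1)) := by ring
    _ ≤ 1 * (∏ i, ((p i : ℝ) - 1)) := mul_le_mul_of_nonneg_right hlast hpos
    _ = _ := one_mul _

end Pool.Agent.Work.MP_e0aece_nt.Sq

end

section

/-!
# Item C12: a pool of primes in a progression
-/

namespace Pool.Agent.Work.MP_e0aece_nt.Sq

open Finset

namespace ItemC12

theorem count_primes (L : ℕ) (v : ℝ) (hv : v ^ 8 = L) (hv1 : 1000 ≤ v) :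
    (L : ℝ) ≤ (((Ioc L (4 * L)).filter Nat.Prime).card : ℝ) * (10 * v) := by
  have hv0 : 0 < v := by linarith
  have hL1 : (1 : ℝ) ≤ L := by rw [← hv]; exact one_le_pow₀ (by linarith)
  have hL : 1 ≤ L := by exact_mod_cast hL1
  have hlog : Real.log (4 * L) ≤ 10 * v := by
    rw [← hv, Real.log_mul (by norm_num) (by positivity), Real.log_pow]
    have h1 : Real.log 4 ≤ 2 := by
      have h : Real.log 4 = 2 * Real.log 2 := by
        rw [show (4 : ℝ) = 2 ^ 2 by norm_num, Real.log_pow]; norm_num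
      have := Real.log_two_lt_d9
      linarith
    have h2 : Real.log v ≤ v := (Real.log_le_sub_one_of_pos hv0).trans (by linarith)
    push_cast
    linarith
  have hlog2 : Real.log (((4 * L : ℕ) : ℝ) + 1) ≤ 11 * v := by
    have h1 : Real.log (((4 * L : ℕ) : ℝ) + 1) ≤ Real.log (2 * (4 * L)) := by
      apply Real.log_le_log (by positivity)
      push_cast
      linarith
    rw [Real.log_mul (by norm_num) (by positivity)] at h1
    have := Real.log_two_lt_d9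
    linarith
  have h1 := Chebyshev.theta_ge (4 * L)
  have h2 := Chebyshev.theta_le_log4_mul_x (x := (L : ℝ)) (by positivity)
  have h3 : Chebyshev.theta ((4 * L : ℕ) : ℝ) - Chebyshev.theta (L : ℝ) =
      ∑ p ∈ (Ioc L (4 * L)).filter Nat.Prime, Real.log p := by
    unfold Chebyshev.theta
    rw [Nat.floor_natCast, Nat.floor_natCast, Finset.sum_filter, Finset.sum_filter,
      Finset.sum_filter, ← Finset.sum_Ioc_consecutive _ (Nat.zero_le L) (by omega : L ≤ 4 * L)]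
    ring
  have h4 : ∑ p ∈ (Ioc L (4 * L)).filter Nat.Prime, Real.log p ≤
      (((Ioc L (4 * L)).filter Nat.Prime).card : ℝ) * (10 * v) := by
    rw [← nsmul_eq_mul]
    apply Finset.sum_le_card_nsmul
    intro p hp
    simp only [mem_filter, mem_Ioc] at hp
    refine le_trans (Real.log_le_log ?_ ?_) hlog
    · exact_mod_cast hp.2.pos
    · exact_mod_cast hp.1.2
  have h5 : Real.sqrt ((4 * L : ℕ) : ℝ) = 2 * v ^ 4 := by
    push_cast
    rw [← hv, show 4 * v ^ 8 = (2 * v ^ 4) ^ 2 by ring]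
    exact Real.sqrt_sq (by positivity)
  rw [h5] at h1
  have h6 : Real.log 4 = 2 * Real.log 2 := by
    rw [show (4 : ℝ) = 2 ^ 2 by norm_num, Real.log_pow]; norm_num
  rw [h6] at h2
  have h7 := Real.log_two_gt_d9
  have h8 : Real.log ((4 * L : ℕ) : ℝ) ≤ 10 * v := by push_cast; exact hlog
  have h9 : 2 * (2 * v ^ 4) * Real.log ((4 * L : ℕ) : ℝ) ≤ 2 * (2 * v ^ 4) * (10 * v) :=
    mul_le_mul_of_nonneg_left h8 (by positivity)
  have h10 : 40 * v ^ 5 + 11 * v ≤ 0.1 * v ^ 8 := by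
    have e1 : v ^ 8 = v ^ 5 * v ^ 3 := by ring
    have e2 : (1000 : ℝ) ≤ v ^ 3 := by nlinarith [sq_nonneg v]
    have e3 : v ≤ v ^ 5 := le_self_pow₀ (by linarith) (by norm_num)
    rw [e1]
    have e4 : 0 < v ^ 5 := by positivity
    nlinarith
  rw [hv] at h10
  push_cast at h1 h3 h9 hlog2
  have h11 : 0.6931471803 * (L : ℝ) ≤ Real.log 2 * L :=
    mul_le_mul_of_nonneg_right h7.le (by linarith)
  nlinarith

section One

variable (l : ℕ) [hl : Fact l.Prime]

open Classical in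
/-- The sum of the absolute values of the prime character sums modulo `l`. -/
noncomputable def El (X : ℕ) : ℝ :=
  ∑ χ ∈ (univ : Finset (DirichletCharacter ℂ l)).erase 1, ‖psiX (fun n => χ (n : ZMod l)) X‖

/-- The sum over the progression. -/
noncomputable def Tl (X : ℕ) : ℝ :=
  ∑ n ∈ (Ioc 0 X).filter (fun n => l ∣ n - 1), ArithmeticFunction.vonMangoldt n

theorem orth (X : ℕ) :
    |((l : ℝ) - 1) * Tl l X + ∑ n ∈ (Ioc 0 X).filter (fun n => l ∣ n),
      ArithmeticFunction.vonMangoldt n - Chebyshev.psi X| ≤ El l X := by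
  classical
  have h1 : ((((l : ℝ) - 1) * Tl l X + ∑ n ∈ (Ioc 0 X).filter (fun n => l ∣ n),
      ArithmeticFunction.vonMangoldt n - Chebyshev.psi X : ℝ) : ℂ) =
      ∑ χ ∈ (univ : Finset (DirichletCharacter ℂ l)).erase 1,
        psiX (fun n => χ (n : ZMod l)) X := by
    have h2 : (((((l : ℝ) - 1) * Tl l X + ∑ n ∈ (Ioc 0 X).filter (fun n => l ∣ n),
        ArithmeticFunction.vonMangoldt n : ℝ)) : ℂ) =
        ∑ n ∈ Ioc 0 X, (ArithmeticFunction.vonMangoldt n : ℂ) *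
          ((ItemC16.sloc l n : ℝ) : ℂ) := by
      unfold Tl
      rw [Finset.mul_sum, Finset.sum_filter, Finset.sum_filter, ← Finset.sum_add_distrib]
      push_cast
      apply Finset.sum_congr rfl
      intro n hn
      have hn1 : 1 ≤ n := (mem_Ioc.1 hn).1
      have e1 : (l ∣ n - 1) ↔ ((n : ZMod l) = 1) := by
        rw [← ZMod.natCast_eq_zero_iff, Nat.cast_sub hn1, Nat.cast_one, sub_eq_zero]
      have e2 : (l ∣ n) ↔ ((n : ZMod l) = 0) := (ZMod.natCast_eq_zero_iff _ _).symm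
      unfold ItemC16.sloc
      simp only [e1, e2]
      split_ifs <;> push_cast <;> ring
    rw [Complex.ofReal_sub, h2]
    simp only [← ItemC16.sum_loc]
    have h3 : ∑ n ∈ Ioc 0 X, (ArithmeticFunction.vonMangoldt n : ℂ) *
        ∑ χ : DirichletCharacter ℂ l, (if χ = 1 then (1 : ℂ) else χ (n : ZMod l)) =
        ∑ χ : DirichletCharacter ℂ l, ∑ n ∈ Ioc 0 X, (ArithmeticFunction.vonMangoldt n : ℂ) *
          (if χ = 1 then (1 : ℂ) else χ (n : ZMod l)) := by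
      simp only [Finset.mul_sum]
      rw [Finset.sum_comm]
    have h4 : ∑ χ ∈ (univ : Finset (DirichletCharacter ℂ l)).erase 1,
        ∑ n ∈ Ioc 0 X, (ArithmeticFunction.vonMangoldt n : ℂ) *
          (if χ = 1 then (1 : ℂ) else χ (n : ZMod l)) =
        ∑ χ ∈ (univ : Finset (DirichletCharacter ℂ l)).erase 1,
        psiX (fun n => χ (n : ZMod l)) X := by
      apply Finset.sum_congr rfl
      intro χ hχ
      unfold psiX
      apply Finset.sum_congr rfl
      intro n _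
      rw [if_neg (Finset.ne_of_mem_erase hχ)]
    have h5 : ∑ n ∈ Ioc 0 X, (ArithmeticFunction.vonMangoldt n : ℂ) *
        (if (1 : DirichletCharacter ℂ l) = 1 then (1 : ℂ)
          else (1 : DirichletCharacter ℂ l) (n : ZMod l)) = ((Chebyshev.psi X : ℝ) : ℂ) := by
      unfold Chebyshev.psi
      rw [Nat.floor_natCast]
      push_cast
      apply Finset.sum_congr rfl
      intro n _
      simp
    have h6 : ∑ n ∈ Ioc 0 X, (ArithmeticFunction.vonMangoldt n : ℂ) *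
        ∑ χ : DirichletCharacter ℂ l, (if χ = 1 then (1 : ℂ) else χ (n : ZMod l)) =
        ((Chebyshev.psi X : ℝ) : ℂ) + ∑ χ ∈ (univ : Finset (DirichletCharacter ℂ l)).erase 1,
        psiX (fun n => χ (n : ZMod l)) X := by
      rw [h3, ← Finset.add_sum_erase _ _ (mem_univ (1 : DirichletCharacter ℂ l)), h4, h5]
    have h7 : ∑ n ∈ Ioc 0 X, (ArithmeticFunction.vonMangoldt n : ℂ) *
        ∑ χ : DirichletCharacter ℂ l, (if χ = 1 then (1 : ℂ) else χ (n : ZMod l)) -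
        ((Chebyshev.psi X : ℝ) : ℂ) = ∑ χ ∈ (univ : Finset (DirichletCharacter ℂ l)).erase 1,
        psiX (fun n => χ (n : ZMod l)) X := by
      rw [h6]; ring
    refine Eq.trans ?_ h7
    congr 1
  have h2 := congrArg norm h1
  rw [Complex.norm_real] at h2
  rw [← Real.norm_eq_abs, h2]
  unfold El
  refine (norm_sum_le _ _).trans (le_of_eq ?_)
  apply Finset.sum_congr _ (fun _ _ => rfl)
  congr

theorem El_nonneg (X : ℕ) : 0 ≤ El l X := Finset.sum_nonneg fun _ _ => norm_nonneg _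

end One

section Fam

/-- The primes in `(L, 4 L]`. -/
abbrev Kp (L : ℕ) : Type := {l : ℕ // l ∈ (Ioc L (4 * L)).filter Nat.Prime}

variable (L : ℕ)

theorem kp_prime (i : Kp L) : (i.1).Prime := (mem_filter.1 i.2).2

theorem kp_le (i : Kp L) : i.1 ≤ 4 * L := (mem_Ioc.1 (mem_filter.1 i.2).1).2

theorem kp_lt (i : Kp L) : L < i.1 := (mem_Ioc.1 (mem_filter.1 i.2).1).1

instance kp_fact (i : Kp L) : Fact (i.1).Prime := ⟨kp_prime L i⟩

/-- The family concentrated at one prime. -/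
noncomputable def single (x : Σ i : Kp L, DirichletCharacter ℂ i.1) :
    ∀ i : Kp L, MulChar (ZMod i.1) ℂ := Pi.mulSingle x.1 x.2

theorem csupp_single (i : Kp L) (χ : DirichletCharacter ℂ i.1) (hχ : χ ≠ 1) :
    csupp (fun i : Kp L => i.1) (single L ⟨i, χ⟩) = {i} := by
  classical
  ext j
  unfold csupp single
  simp only [mem_filter, mem_univ, true_and, mem_singleton]
  constructor
  · intro h
    by_contra hij
    exact h (Pi.mulSingle_eq_of_ne hij _)
  · rintro rfl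
    rw [Pi.mulSingle_eq_same]
    exact hχ

theorem cval_single (i : Kp L) (χ : DirichletCharacter ℂ i.1) (hχ : χ ≠ 1) :
    cval (fun i : Kp L => i.1) (single L ⟨i, χ⟩) = fun n : ℕ => χ (n : ZMod i.1) := by
  classical
  funext n
  unfold cval single
  rw [Finset.prod_eq_single i]
  · rw [Pi.mulSingle_eq_same, if_neg hχ]
  · intro j _ hj
    rw [Pi.mulSingle_eq_of_ne hj, if_pos rfl]
  · intro h
    exact absurd (mem_univ i) h

open Classical in
/-- The families with exactly one nontrivial component. -/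
noncomputable def XX : Finset (∀ i : Kp L, MulChar (ZMod i.1) ℂ) :=
  ((univ : Finset (Kp L)).sigma fun i =>
    (univ : Finset (DirichletCharacter ℂ i.1)).erase 1).image (single L)

theorem XX_card (ξ : ∀ i : Kp L, MulChar (ZMod i.1) ℂ) (hξ : ξ ∈ XX L) :
    (csupp (fun i : Kp L => i.1) ξ).card = 1 := by
  classical
  unfold XX at hξ
  obtain ⟨⟨i, χ⟩, hx, rfl⟩ := mem_image.1 hξ
  rw [mem_sigma] at hx
  have : χ ≠ 1 := Finset.ne_of_mem_erase hx.2
  rw [csupp_single L i χ this, card_singleton]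

theorem sum_XX (X : ℕ) :
    ∑ ξ ∈ XX L, ‖psiX (cval (fun i : Kp L => i.1) ξ) X‖ = ∑ i : Kp L, El i.1 X := by
  classical
  unfold XX
  rw [Finset.sum_image, Finset.sum_sigma]
  · apply Finset.sum_congr rfl
    intro i _
    unfold El
    refine Eq.trans (Finset.sum_congr (by congr) (fun _ _ => rfl)) (Finset.sum_congr rfl ?_)
    intro χ hχ
    rw [cval_single L i χ (Finset.ne_of_mem_erase hχ)]
  · rintro ⟨i, χ⟩ hx ⟨j, ψ⟩ hy h
    have hx' : χ ≠ 1 := Finset.ne_of_mem_erase (mem_sigma.1 hx).2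
    have hy' : ψ ≠ 1 := Finset.ne_of_mem_erase (mem_sigma.1 hy).2
    have h1 := csupp_single L i χ hx'
    rw [h, csupp_single L j ψ hy'] at h1
    have hij : j = i := Finset.singleton_injective h1
    subst hij
    have h2 := congrFun h j
    unfold single at h2
    simp only [Pi.mulSingle_eq_same] at h2
    rw [h2]

end Fam

/-- The pigeonhole step. -/
theorem pigeon (L : ℕ) (v u z C : ℝ) (hv : v ^ 8 = L) (hv1 : 1000 ≤ v) (hu : 1 ≤ u) (huv : u ≤ v)
    (hz : 0 < z) (hC : 0 < C) (hCu : 10 ^ 12 * C ≤ u) (f : Kp L → ℝ)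
    (hf : ∑ i, f i ≤ 5 * C * z * (21 * u) ^ 6) :
    ∃ i, f i ≤ z / 100 := by
  by_contra hcon
  push Not at hcon
  have h1 : ∑ _i : Kp L, z / 100 ≤ ∑ i, f i := Finset.sum_le_sum fun i _ => (hcon i).le
  rw [Finset.sum_const, nsmul_eq_mul, Finset.card_univ] at h1
  have h2 := count_primes L v hv hv1
  have h3 : Fintype.card (Kp L) = ((Ioc L (4 * L)).filter Nat.Prime).card := by
    simp [Kp, Fintype.card_coe]
  rw [h3] at h1
  set N : ℝ := (((Ioc L (4 * L)).filter Nat.Prime).card : ℝ)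
  have hv0 : 0 < v := by linarith
  have h4 : v ^ 7 ≤ 10 * N := by
    rw [← hv] at h2
    have : v * v ^ 7 ≤ v * (10 * N) := by nlinarith
    exact le_of_mul_le_mul_left this hv0
  have h5 : u ^ 7 ≤ 10 * N := (pow_le_pow_left₀ (by linarith) huv 7).trans h4
  have h6 : N * (z / 100) ≤ 5 * C * z * (21 * u) ^ 6 := h1.trans hf
  have h7 : N ≤ 500 * C * (21 * u) ^ 6 := by
    have : z * N ≤ z * (500 * C * (21 * u) ^ 6) := by nlinarith
    exact le_of_mul_le_mul_left this hz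
  have h8 : u ^ 7 ≤ 5000 * C * (21 ^ 6 * u ^ 6) := by
    rw [mul_pow] at h7; nlinarith
  have h9 : u ≤ 5000 * C * 21 ^ 6 := by
    have : u ^ 6 * u ≤ u ^ 6 * (5000 * C * 21 ^ 6) := by nlinarith
    exact le_of_mul_le_mul_left this (by positivity)
  nlinarith

theorem real1 (w u l2 lg p4 p1 E D T : ℝ) (h1 : (4 * w ^ 2 - 1) * l2 - lg ≤ p4)
    (h2 : lg ≤ 22 * u) (h3 : p1 ≤ 2 * l2 * w ^ 2 + 2 * w * (20 * u)) (h4 : p4 - p1 - E - D ≤ T)
    (h5 : E ≤ w ^ 2 / 100) (h6 : D ≤ 21 * u) (h7 : 0.6931471803 < l2) (h8 : l2 < 0.6931471808)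
    (h9 : 4000 * u ≤ w) (h10 : 1000 ≤ u) : 1.3 * w ^ 2 ≤ T := by
  have hw : 0 < w := by linarith
  have e3 : 2 * w ^ 2 * 0.6931471803 ≤ 2 * w ^ 2 * l2 :=
    mul_le_mul_of_nonneg_left h7.le (by positivity)
  have e4 : 2 * w * (20 * u) ≤ 0.01 * w ^ 2 := by nlinarith
  have e5 : 1 + 43 * u ≤ 0.01 * w ^ 2 := by nlinarith
  have e6 : (4 * w ^ 2 - 1) * l2 = 2 * (2 * w ^ 2 * l2) - l2 := by ring
  have e7 : 2 * l2 * w ^ 2 = 2 * w ^ 2 * l2 := by ring
  rw [e6] at h1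
  rw [e7] at h3
  linarith

theorem real2 (L u M w : ℝ) (hLbig : (1000 : ℝ) ^ 8 ≤ L) (hu : 1000 ≤ u) (huL : u ≤ L)
    (hLM : L ^ 4 ≤ M) (hMw : M * M ≤ w) :
    3360 * (L * u) ≤ w ∧ 840 * (L * u) ≤ M ∧ 4000 * u ≤ w := by
  have hL0 : 10000 ≤ L := by linarith [show (10000 : ℝ) ≤ 1000 ^ 8 by norm_num]
  have c2 : L * u ≤ L * L := mul_le_mul_of_nonneg_left huL (by linarith)
  have c5 : 10000 * (L * L) ≤ L ^ 4 := by
    have h1 : (10000 : ℝ) ≤ L ^ 2 := by nlinarith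
    have h2 : L ^ 4 = L ^ 2 * (L * L) := by ring
    rw [h2]
    exact mul_le_mul_of_nonneg_right h1 (by positivity)
  have c6 : 1 ≤ M := by nlinarith
  have c4 : M ≤ w := le_trans (by nlinarith) hMw
  have c7 : 0 ≤ L * u := by positivity
  refine ⟨by linarith, by linarith, ?_⟩
  have c8 : u ≤ L * u := by nlinarith
  linarith

theorem real3 (L u w N T' M M19 : ℝ) (hL : 0 < L) (hu : 0 < u) (hw : 0 < w)
    (hlow2 : 1.3 * w ^ 2 ≤ 4 * L * T') (hT2 : T' ≤ N * (21 * u) + 4 * w * (21 * u))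
    (hb1 : 3360 * (L * u) ≤ w) (hb2 : 840 * (L * u) ≤ M) (h19 : M19 * M = w ^ 2) (h19p : 0 ≤ M19) :
    M19 ≤ N := by
  have hLu : 0 < L * u := by positivity
  have d1 : 1.3 * w ^ 2 ≤ 4 * L * (N * (21 * u) + 4 * w * (21 * u)) :=
    hlow2.trans (mul_le_mul_of_nonneg_left hT2 (by positivity))
  have d2 : 336 * (L * u) * w ≤ 0.1 * w ^ 2 := by nlinarith
  have d3 : 84 * (L * u) * M19 ≤ 0.1 * w ^ 2 := by
    rw [← h19]; nlinarith
  have d5 : 4 * L * (N * (21 * u) + 4 * w * (21 * u)) =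
      84 * (L * u) * N + 336 * (L * u) * w := by ring
  have d4 : 84 * (L * u) * M19 ≤ 84 * (L * u) * N := by
    rw [d5] at d1
    have := sq_nonneg w
    linarith
  exact le_of_mul_le_mul_left d4 (by positivity)

/-- The final estimate. -/
theorem final (M L l : ℕ) (u : ℝ) (hlogM : Real.log M = u) (hu : 1000 ≤ u) (huL : u ^ 8 ≤ L)
    (hLM : L ^ 4 ≤ M) [hl : Fact l.Prime] (hl2 : l ≤ 4 * L)
    (hE : El l (M ^ 20) + El l (4 * M ^ 20) ≤ ((M : ℝ) ^ 20) / 100) :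
    M ^ 19 ≤ ((Ioc (M ^ 20) (4 * M ^ 20)).filter fun q => q.Prime ∧ l ∣ q - 1).card := by
  have hLbig : (1000 : ℝ) ^ 8 ≤ L := (pow_le_pow_left₀ (by norm_num) hu 8).trans huL
  have hL0 : (0 : ℝ) < L := by linarith [hLbig, show (0 : ℝ) < 1000 ^ 8 by norm_num]
  have huL' : u ≤ L := (le_self_pow₀ (by linarith) (by norm_num)).trans huL
  have hLM' : (L : ℝ) ^ 4 ≤ M := by exact_mod_cast hLM
  have hML : (L : ℝ) ≤ M := (le_self_pow₀ (by linarith [show (1 : ℝ) < 1000 ^ 8 by norm_num])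
    (by norm_num)).trans hLM'
  have hM0 : (0 : ℝ) < M := by linarith
  have hM1 : (1 : ℝ) ≤ M := by linarith [show (1 : ℝ) < 1000 ^ 8 by norm_num]
  have hMn : 1 ≤ M := by exact_mod_cast hM1
  set z : ℕ := M ^ 20 with hz
  have hz1 : 1 ≤ z := Nat.one_le_pow _ _ (by omega)
  set w : ℝ := (M : ℝ) ^ 10 with hw
  have hzw : (z : ℝ) = w ^ 2 := by rw [hz, hw]; push_cast; ring
  have hw0 : 0 < w := by positivity
  have hMw : (M : ℝ) * M ≤ w := by
    rw [hw]
    calc (M : ℝ) * M = (M : ℝ) ^ 2 := by ring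
      _ ≤ (M : ℝ) ^ 10 := pow_le_pow_right₀ hM1 (by norm_num)
  -- logarithms
  have hlogz : Real.log (z : ℝ) = 20 * u := by
    rw [hz]; push_cast; rw [Real.log_pow, hlogM]; norm_num
  have h4 : Real.log 4 = 2 * Real.log 2 := by
    rw [show (4 : ℝ) = 2 ^ 2 by norm_num, Real.log_pow]; norm_num
  have hl2a := Real.log_two_gt_d9
  have hl2b := Real.log_two_lt_d9
  have hz0 : (0 : ℝ) < z := by exact_mod_cast hz1
  have hlog4z : Real.log ((4 * z : ℕ) : ℝ) ≤ 21 * u := by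
    push_cast
    rw [Real.log_mul (by norm_num) hz0.ne', hlogz, h4]
    linarith
  have hlog4z0 : 0 ≤ Real.log ((4 * z : ℕ) : ℝ) := Real.log_nonneg (by
    have : 1 ≤ 4 * z := by omega
    exact_mod_cast this)
  have hlog4z2 : Real.log (((4 * z : ℕ) : ℝ) + 2) ≤ 22 * u := by
    have h1 : Real.log (((4 * z : ℕ) : ℝ) + 2) ≤ Real.log (2 * ((4 * z : ℕ) : ℝ)) := by
      apply Real.log_le_log (by positivity)
      have : (1 : ℝ) ≤ z := by exact_mod_cast hz1
      push_cast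
      linarith
    rw [Real.log_mul (by norm_num) (by positivity)] at h1
    linarith
  -- orthogonality
  have ho4 := (abs_le.1 (orth l (4 * z))).1
  have ho1 := (abs_le.1 (orth l z)).2
  have hD4 := ItemC16.sum_vm_dvd_le hl.out (4 * z)
  have hD1 : 0 ≤ ∑ n ∈ (Ioc 0 z).filter (fun n => l ∣ n), ArithmeticFunction.vonMangoldt n :=
    Finset.sum_nonneg fun _ _ => ArithmeticFunction.vonMangoldt_nonneg
  have hp4 := Chebyshev.psi_ge' (x := ((4 * z : ℕ) : ℝ)) (by positivity)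
  have hp1 := Chebyshev.psi_le (x := (z : ℝ)) (by exact_mod_cast hz1)
  have hsq1 : Real.sqrt (z : ℝ) = w := by rw [hzw]; exact Real.sqrt_sq hw0.le
  have hsq4 : Real.sqrt ((4 * z : ℕ) : ℝ) = 2 * w := by
    push_cast
    rw [hzw, show 4 * w ^ 2 = (2 * w) ^ 2 by ring]
    exact Real.sqrt_sq (by positivity)
  rw [hsq1, hlogz, h4, hzw] at hp1
  -- the sum over the progression in the interval
  have hT := ItemC16.sum_vm_le (4 * z) (by omega) (fun n => z < n ∧ l ∣ n - 1)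
  rw [hsq4] at hT
  have hTT : ∑ n ∈ (Ioc 0 (4 * z)).filter (fun n => z < n ∧ l ∣ n - 1),
      ArithmeticFunction.vonMangoldt n = Tl l (4 * z) - Tl l z := by
    unfold Tl
    rw [Finset.sum_filter, Finset.sum_filter, Finset.sum_filter,
      ← Finset.sum_Ioc_consecutive _ (Nat.zero_le z) (by omega : z ≤ 4 * z),
      ← Finset.sum_Ioc_consecutive (fun n => if l ∣ n - 1 then
        ArithmeticFunction.vonMangoldt n else 0) (Nat.zero_le z) (by omega : z ≤ 4 * z)]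
    have e1 : ∑ n ∈ Ioc 0 z, (if z < n ∧ l ∣ n - 1 then
        ArithmeticFunction.vonMangoldt n else 0) = 0 := by
      apply Finset.sum_eq_zero
      intro n hn
      rw [if_neg]
      rintro ⟨h, _⟩
      have := (mem_Ioc.1 hn).2
      omega
    have e2 : ∑ n ∈ Ioc z (4 * z), (if z < n ∧ l ∣ n - 1 then
        ArithmeticFunction.vonMangoldt n else 0) =
        ∑ n ∈ Ioc z (4 * z), (if l ∣ n - 1 then ArithmeticFunction.vonMangoldt n else 0) := by
      apply Finset.sum_congr rfl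
      intro n hn
      have := (mem_Ioc.1 hn).1
      simp [this]
    rw [e1, e2]
    ring
  rw [hTT] at hT
  have hcard : ((Ioc 0 (4 * z)).filter fun n => (z < n ∧ l ∣ n - 1) ∧ n.Prime) =
      (Ioc z (4 * z)).filter fun q => q.Prime ∧ l ∣ q - 1 := by
    ext n
    simp only [mem_filter, mem_Ioc]
    constructor
    · rintro ⟨⟨_, h2⟩, ⟨h3, h4⟩, h5⟩
      exact ⟨⟨h3, h2⟩, h5, h4⟩
    · rintro ⟨⟨h3, h2⟩, h5, h4⟩
      exact ⟨⟨by omega, h2⟩, ⟨h3, h4⟩, h5⟩
  rw [hcard] at hT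
  set N : ℝ := (((Ioc z (4 * z)).filter fun q => q.Prime ∧ l ∣ q - 1).card : ℝ) with hN
  set T' : ℝ := Tl l (4 * z) - Tl l z with hT'
  -- lower bound for (l - 1) T'
  have hzz : ((4 * z : ℕ) : ℝ) = 4 * w ^ 2 := by push_cast; rw [hzw]
  have hE' : El l z + El l (4 * z) ≤ w ^ 2 / 100 := by
    refine hE.trans (le_of_eq ?_)
    rw [hw]; ring
  obtain ⟨hb1, hb2, huw⟩ := real2 (L : ℝ) u M w hLbig hu huL' hLM' hMw
  have hlow : 1.3 * w ^ 2 ≤ ((l : ℝ) - 1) * T' := by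
    rw [hzz] at hp4 hlog4z2 hlog4z hD4 ho4
    rw [hzw] at ho1
    refine real1 w u (Real.log 2) _ _ _ (El l z + El l (4 * z)) _ _ hp4 hlog4z2 hp1 ?_ hE'
      (hD4.trans hlog4z) hl2a hl2b huw hu
    have e1 : ((l : ℝ) - 1) * T' = ((l : ℝ) - 1) * Tl l (4 * z) - ((l : ℝ) - 1) * Tl l z := by
      rw [hT']; ring
    rw [e1]
    linarith
  have hl1 : ((l : ℝ) - 1) ≤ 4 * L := by
    have : (l : ℝ) ≤ 4 * L := by exact_mod_cast hl2
    linarith
  have hl0 : 0 < (l : ℝ) - 1 := by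
    have : (1 : ℝ) < l := by exact_mod_cast hl.out.one_lt
    linarith
  have hT'0 : 0 ≤ T' := by
    rw [← hTT]
    exact Finset.sum_nonneg fun _ _ => ArithmeticFunction.vonMangoldt_nonneg
  have hlow2 : 1.3 * w ^ 2 ≤ 4 * L * T' :=
    hlow.trans (mul_le_mul_of_nonneg_right hl1 hT'0)
  have hN0 : 0 ≤ N := Nat.cast_nonneg _
  have hT2 : T' ≤ N * (21 * u) + 4 * w * (21 * u) := by
    have a1 : N * Real.log ((4 * z : ℕ) : ℝ) ≤ N * (21 * u) :=
      mul_le_mul_of_nonneg_left hlog4z hN0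
    have a2 : 2 * (2 * w) * Real.log ((4 * z : ℕ) : ℝ) ≤ 2 * (2 * w) * (21 * u) :=
      mul_le_mul_of_nonneg_left hlog4z (by positivity)
    linarith
  have h19 : ((M ^ 19 : ℕ) : ℝ) * M = w ^ 2 := by rw [hw]; push_cast; ring
  have h19p : (0 : ℝ) ≤ ((M ^ 19 : ℕ) : ℝ) := Nat.cast_nonneg _
  have hfin : ((M ^ 19 : ℕ) : ℝ) ≤ N :=
    real3 L u w N T' M _ hL0 (by linarith) hw0 hlow2 hT2 hb1 hb2 h19 h19p
  rw [hN] at hfin
  exact_mod_cast hfin

end ItemC12

theorem claimC12 (hC7 : ClaimC7) (hC9 : ClaimC9) : ClaimC12 := by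
  obtain ⟨C, hC, X0, h7⟩ := hC7
  set K : ℝ := max 1000 (max (X0 : ℝ) (10 ^ 12 * C)) with hK
  refine ⟨⌈Real.exp K⌉₊, ?_⟩
  intro M hM L hL1 hL2
  have hMK : Real.exp K ≤ M := (Nat.le_ceil _).trans (by exact_mod_cast hM)
  have hM0 : (0 : ℝ) < M := (Real.exp_pos _).trans_le hMK
  have huK : K ≤ Real.log M := by rwa [Real.le_log_iff_exp_le hM0]
  set u : ℝ := Real.log M with hu
  have hu1 : 1000 ≤ u := (le_max_left _ _).trans huK
  have hu2 : (X0 : ℝ) ≤ u := ((le_max_left _ _).trans (le_max_right _ _)).trans huK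
  have hu3 : 10 ^ 12 * C ≤ u := ((le_max_right _ _).trans (le_max_right _ _)).trans huK
  have huM : u ≤ M := (Real.log_le_sub_one_of_pos hM0).trans (by linarith)
  have hLr : (0 : ℝ) ≤ L := Nat.cast_nonneg _
  -- the eighth root of L
  set v : ℝ := (L : ℝ) ^ ((1 : ℝ) / 8) with hv
  have hv8 : v ^ 8 = L := by
    rw [hv, ← Real.rpow_natCast, ← Real.rpow_mul hLr]
    norm_num
  have hv0 : 0 ≤ v := Real.rpow_nonneg hLr _
  have huv : u ≤ v := by
    rw [← hv8] at hL1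
    exact le_of_pow_le_pow_left₀ (by norm_num) hv0 hL1
  have hLbig : (1000 : ℝ) ^ 8 ≤ L := (pow_le_pow_left₀ (by norm_num) hu1 8).trans hL1
  have hLpos : 1 ≤ L := by
    have : (1 : ℝ) ≤ L := by linarith [show (1 : ℝ) < 1000 ^ 8 by norm_num]
    exact_mod_cast this
  have hLM' : (L : ℝ) ^ 4 ≤ M := by exact_mod_cast hL2
  have hML : (L : ℝ) ≤ M := (le_self_pow₀ (by linarith [show (1 : ℝ) < 1000 ^ 8 by norm_num])
    (by norm_num)).trans hLM'
  have hM1 : (1 : ℝ) ≤ M := by linarith [show (1 : ℝ) < 1000 ^ 8 by norm_num]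
  have hMn : 1 ≤ M := by exact_mod_cast hM1
  have hMz : M ≤ M ^ 20 := Nat.le_self_pow (by norm_num) M
  have hX0M : X0 ≤ M := by
    have : (X0 : ℝ) ≤ M := hu2.trans huM
    exact_mod_cast this
  -- quasi-orthogonality
  have hQO := hC9 (ItemC12.Kp L) (fun i => i.1) (4 * L) 1 (ItemC12.XX L) Subtype.val_injective
    (ItemC12.kp_prime L) (ItemC12.kp_le L) le_rfl (by omega) (ItemC12.XX_card L)
  have hF : (((4 * L : ℕ) : ℝ) ^ 1) ^ 60 ≤ ((M ^ 20 : ℕ) : ℝ) := by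
    push_cast
    rw [pow_one, mul_pow]
    have e1 : (L : ℝ) ^ 60 = ((L : ℝ) ^ 4) ^ 15 := by ring
    have e2 : ((L : ℝ) ^ 4) ^ 15 ≤ (M : ℝ) ^ 15 := pow_le_pow_left₀ (by positivity) hLM' 15
    have e3 : (4 : ℝ) ^ 60 = (4 ^ 12) ^ 5 := by norm_num
    have e4 : ((4 : ℝ) ^ 12) ^ 5 ≤ (M : ℝ) ^ 5 := by
      apply pow_le_pow_left₀ (by positivity)
      linarith [show (4 : ℝ) ^ 12 ≤ 1000 ^ 8 by norm_num]
    rw [e1, e3]
    calc ((4 : ℝ) ^ 12) ^ 5 * ((L : ℝ) ^ 4) ^ 15 ≤ (M : ℝ) ^ 5 * (M : ℝ) ^ 15 :=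
          mul_le_mul e4 e2 (by positivity) (by positivity)
      _ = (M : ℝ) ^ 20 := by ring
  have hF4 : (((4 * L : ℕ) : ℝ) ^ 1) ^ 60 ≤ ((4 * M ^ 20 : ℕ) : ℝ) := by
    refine hF.trans ?_
    have : M ^ 20 ≤ 4 * M ^ 20 := by omega
    exact_mod_cast this
  have hS1 := h7 _ (ItemC12.XX L) (fun ξ => cval (fun i : ItemC12.Kp L => i.1) ξ)
    (((4 * L : ℕ) : ℝ) ^ 1) (M ^ 20) hQO (hX0M.trans hMz) hF
  have hS4 := h7 _ (ItemC12.XX L) (fun ξ => cval (fun i : ItemC12.Kp L => i.1) ξ)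
    (((4 * L : ℕ) : ℝ) ^ 1) (4 * M ^ 20) hQO (by omega) hF4
  rw [ItemC12.sum_XX] at hS1 hS4
  -- logarithms
  have hz0 : (0 : ℝ) < (M : ℝ) ^ 20 := by positivity
  have hlogz : Real.log ((M ^ 20 : ℕ) : ℝ) ≤ 21 * u := by
    push_cast
    rw [Real.log_pow]
    push_cast
    linarith
  have h4 : Real.log 4 = 2 * Real.log 2 := by
    rw [show (4 : ℝ) = 2 ^ 2 by norm_num, Real.log_pow]; norm_num
  have hl2b := Real.log_two_lt_d9
  have hlog4z : Real.log ((4 * M ^ 20 : ℕ) : ℝ) ≤ 21 * u := by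
    push_cast
    rw [Real.log_mul (by norm_num) hz0.ne', Real.log_pow, h4]
    push_cast
    linarith
  have hlz0 : 0 ≤ Real.log ((M ^ 20 : ℕ) : ℝ) := Real.log_nonneg (by
    have : 1 ≤ M ^ 20 := by omega
    exact_mod_cast this)
  have hl4z0 : 0 ≤ Real.log ((4 * M ^ 20 : ℕ) : ℝ) := Real.log_nonneg (by
    have : 1 ≤ 4 * M ^ 20 := by omega
    exact_mod_cast this)
  have hsum : ∑ i : ItemC12.Kp L, (ItemC12.El i.1 (M ^ 20) + ItemC12.El i.1 (4 * M ^ 20)) ≤
      5 * C * (M : ℝ) ^ 20 * (21 * u) ^ 6 := by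
    rw [Finset.sum_add_distrib]
    have e1 : Real.log ((M ^ 20 : ℕ) : ℝ) ^ 6 ≤ (21 * u) ^ 6 := pow_le_pow_left₀ hlz0 hlogz 6
    have e2 : Real.log ((4 * M ^ 20 : ℕ) : ℝ) ^ 6 ≤ (21 * u) ^ 6 :=
      pow_le_pow_left₀ hl4z0 hlog4z 6
    have e3 : C * ((M ^ 20 : ℕ) : ℝ) * Real.log ((M ^ 20 : ℕ) : ℝ) ^ 6 ≤
        C * ((M ^ 20 : ℕ) : ℝ) * (21 * u) ^ 6 := mul_le_mul_of_nonneg_left e1 (by positivity)
    have e4 : C * ((4 * M ^ 20 : ℕ) : ℝ) * Real.log ((4 * M ^ 20 : ℕ) : ℝ) ^ 6 ≤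
        C * ((4 * M ^ 20 : ℕ) : ℝ) * (21 * u) ^ 6 := mul_le_mul_of_nonneg_left e2 (by positivity)
    refine (add_le_add (hS1.trans e3) (hS4.trans e4)).trans (le_of_eq ?_)
    push_cast
    ring
  obtain ⟨i, hi⟩ := ItemC12.pigeon L v u ((M : ℝ) ^ 20) C hv8 (hu1.trans huv) (by linarith) huv hz0
    hC hu3 _ hsum
  refine ⟨i.1, ItemC12.kp_prime L i, ItemC12.kp_lt L i, ItemC12.kp_le L i, ?_⟩
  exact ItemC12.final M L i.1 u rfl hu1 hL1 hL2 (ItemC12.kp_le L i) hi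

end Pool.Agent.Work.MP_e0aece_nt.Sq

end

section

/-!
# Statements of Module D (Carmichael numbers and the final bound)
-/

namespace Pool.Agent.Work.MP_e0aece_nt.Sq

open Finset

/-- D1: a good multiplier `k`. -/
def ClaimD1 : Prop :=
  ∃ M0 : ℕ, ∀ M, M0 ≤ M → ∀ (lam m : ℕ) (p : Fin M → ℕ) [∀ i, Fact (p i).Prime],
    Primes M lam p → PrimesAP p (XM M) →
    (∀ K : ℕ, ∏ i, p i ≤ K →
      (Nat.card {k : ℕ // k ∈ Ioc 0 K ∧ ∃ u : ∀ i, (ZMod (p i))ˣ,
        (∀ i, (u i : ZMod (p i)) = (k : ZMod (p i))) ∧ ¬ PRv p lam m u} : ℝ) * (M : ℝ) ^ 10 ≤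
        2 * K) →
    ∃ (k : ℕ) (P : Finset (Finset (Fin M))), 4 * M ^ 20 ≤ k ∧ k ≤ XM M ∧
      (∀ i, Nat.Coprime k (p i)) ∧
      (∀ u : ∀ i, (ZMod (p i))ˣ, (∀ i, (u i : ZMod (p i)) = (k : ZMod (p i))) →
        PRv p lam m u) ∧
      (∀ A ∈ P, (dd p A * k + 1).Prime ∧ dd p A * k ≤ 2 * XM M) ∧
      2 ^ M ≤ P.card * M ^ 3

/-- D2: from a zero sum to a Carmichael number. -/
def ClaimD2 : Prop :=
  ∀ (M k : ℕ) (p : Fin M → ℕ) (B I : Finset (Fin M)) (T : Finset (Finset (Fin M))),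
    Function.Injective p → (∀ i, (p i).Prime ∧ 3 ≤ p i ∧ Nat.Coprime k (p i)) → 2 ≤ k →
    I ⊆ B → 2 ≤ T.card → (∀ A ∈ T, A ∩ B = I) → (∀ A ∈ T, (dd p A * k + 1).Prime) →
    (∀ i, i ∉ B → ((∏ A ∈ T, (dd p A * k + 1) : ℕ) : ZMod (p i)) = 1) →
    IsCarmichael (∏ A ∈ T, (dd p A * k + 1)) ∧
      ∀ r : ℕ, r.Prime → r ∣ ∏ A ∈ T, (dd p A * k + 1) →
        (∃ A ∈ T, r = dd p A * k + 1) ∧ padicValNat 2 (r - 1) = padicValNat 2 k

/-- D3: the bridge from the residue vector to the abstract setting. -/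
def ClaimD3 : Prop :=
  ∀ (M lam m k : ℕ) (p : Fin M → ℕ) [∀ i, Fact (p i).Prime] (u : ∀ i, (ZMod (p i))ˣ),
    (∀ i, (u i : ZMod (p i)) = (k : ZMod (p i))) → PRv p lam m u →
    PR (fun A i => Additive.ofMul (ures (((dd p A * k + 1 : ℕ)) : ZMod (p i)))) lam m

/-- D4: the chromatic numbers of Carmichael numbers. -/
def ClaimD4 : Prop :=
  ∃ M0 : ℕ, ∀ M, M0 ≤ M → ∀ y : ℕ, (y : ℝ) * (Real.log M) ^ 5 ≤ M → M ≤ y ^ 2 →
    ∃ v : ℕ, 1 ≤ v ∧ v ≤ M ^ 2 ∧ ∀ x : ℝ,
      Real.exp ((M : ℝ) ^ 3 / y * (Real.log M) ^ 30) ≤ x → 2 ^ y < chi v x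

/-- D5: the choice of the parameters `J` and `s` for the abstract theorem. -/
def ClaimD5 : Prop :=
  ∃ M0 : ℕ, ∀ M, M0 ≤ M → ∀ y : ℕ, (y : ℝ) * (Real.log M) ^ 5 ≤ M → M ≤ y ^ 2 →
    ∀ lam : ℕ, 1 ≤ lam → (lam : ℝ) ≤ 5 * (Real.log M) ^ 9 →
    ∃ J s : ℕ, 50 * (2 * y) ≤ J ∧ (4 * M ^ 20) ^ M ≤ 2 ^ J ∧ lam ∣ s ∧ 2 ≤ s ∧
      (1 - 2 * ((2 * y : ℕ) : ℝ) / (J * (lam : ℝ) ^ 2)) ^ (s - 2) * (4 * 2 ^ J) ≤ 1 ∧
      s ^ 2 * 2 ^ (2 * (8 * (2 * y) + 4) + 2 * (2 * y)) ≤ 2 ^ M ∧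
      M ^ 3 ≤ 2 ^ y ∧
      (s : ℝ) * Real.log (2 * (XM M : ℝ) + 1) ≤ (M : ℝ) ^ 3 / y * (Real.log M) ^ 30 ∧
      ((8 * (2 * y) + 4 : ℕ) : ℝ) * (Real.log M) ^ 4 ≤ M ∧
      Real.log (XM M) / Real.log 2 ≤ (M : ℝ) ^ 2

/-- The final theorem. -/
def ClaimFinal : Prop :=
  ∃ C : ℝ, 0 < C ∧ ∀ᶠ x : ℝ in Filter.atTop,
    Real.sqrt (Real.log x) / (Real.log (Real.log x)) ^ C ≤ (R x : ℝ)

end Pool.Agent.Work.MP_e0aece_nt.Sq

end

section

/-!
# Definitions for the lower bound `R x ≥ (log x) ^ (1 - ε)`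

Module E: spectrum of a maximal state.  Module F: short zero sums including torsion.
The modules W, B, C and D1, D2, D3 of the directory `Sq` are used again.
-/

namespace Pool.Agent.Work.MP_e0aece_nt.Eps

open Finset Sq

/-! ### Combinatorics in a product of groups -/

section Comb

variable {ι : Type} {K : ι → Type}

open Classical in
/-- The number of coordinates in `U` at which `x` and `y` differ. -/
noncomputable def dif (U : Finset ι) (x y : ∀ i, K i) : ℕ := (U.filter fun i => x i ≠ y i).card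

open Classical in
/-- The pairs of `k`-tuples of elements of `Ω`. -/
noncomputable def pairs (Ω : Finset (∀ i, K i)) (k : ℕ) :
    Finset ((Fin k → ∀ i, K i) × (Fin k → ∀ i, K i)) :=
  (Fintype.piFinset fun _ : Fin k => Ω) ×ˢ (Fintype.piFinset fun _ : Fin k => Ω)

open Classical in
/-- The proportion of pairs of `k`-tuples of elements of `Ω` whose products agree on `U`. -/
noncomputable def coll [∀ i, CommGroup (K i)] (Ω : Finset (∀ i, K i)) (k : ℕ) (U : Finset ι) : ℝ :=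
  (((pairs Ω k).filter fun q => dif U (∏ j, q.1 j) (∏ j, q.2 j) = 0).card : ℝ) /
    (Ω.card : ℝ) ^ (2 * k)

open Classical in
open Classical in
/-- The coordinates of `U` at which `c` or some element of the tuple `h` is not `1`. -/
noncomputable def hist [∀ i, CommGroup (K i)] (U : Finset ι) (c : ∀ i, K i) {n : ℕ}
    (h : Fin n → ∀ i, K i) : Finset ι := U.filter fun i => c i ≠ 1 ∨ ∃ l, h l i ≠ 1

/-- Non-expansion: for all `U ⊆ V`, `Ω' ⊆ Ω` and `1 ≤ k ≤ kmax`, the products of two random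
`k`-tuples of elements of `Ω'` differ in at most `30 u |U| + k β₁` coordinates of `U` with
probability at least `exp (- k β)`. -/
def NE [∀ i, CommGroup (K i)] (Ω : Finset (∀ i, K i)) (V : Finset ι) (u β β₁ kmax : ℝ) : Prop :=
  ∀ U : Finset ι, U ⊆ V → U.Nonempty → ∀ Ω' : Finset (∀ i, K i), Ω' ⊆ Ω → Ω'.Nonempty →
    ∀ k : ℕ, 1 ≤ k → (k : ℝ) ≤ kmax →
      Real.exp (-(k * β)) * (Ω'.card : ℝ) ^ (2 * k) ≤
        (((pairs Ω' k).filter fun q =>
          (dif U (∏ j, q.1 j) (∏ j, q.2 j) : ℝ) ≤ 30 * u * U.card + k * β₁).card : ℝ)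

end Comb

/-! ### States -/

section States

variable {ι : Type} [Fintype ι] [DecidableEq ι] {H : ι → Type} [∀ i, AddCommGroup (H i)]
  [∀ i, Fintype (H i)]

/-- The families that are `lam`-th powers. -/
def IsPow (lam : ℕ) (σ : ∀ i, AddChar (H i) ℂ) : Prop :=
  ∃ φ : ∀ i, AddChar (H i) ℂ, ∀ i, σ i = φ i ^ lam

open Classical in
/-- `F` is a combination of `lam`-th power families with sum of absolute values of the coefficients
at most `1`, and at most `E` for the coefficients of the families that are trivial on `B \ I`. -/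
def Expan2 (g : Finset ι → ∀ i, H i) (lam : ℕ) (B I : Finset ι) (F : Finset ι → ℝ) (E : ℝ) : Prop :=
  ∃ (κ : Type) (_ : Fintype κ) (c : κ → ℂ) (φ : κ → ∀ i, AddChar (H i) ℂ),
    (∀ t, IsPow lam (φ t)) ∧ (∑ t, ‖c t‖) ≤ 1 ∧
    (∑ t ∈ Finset.univ.filter (fun t => ∀ i ∈ B \ I, φ t i = 1), ‖c t‖) ≤ E ∧
    ∀ A, (F A : ℂ) = ∑ t, c t * ev g (φ t) A

/-- A state. -/
def St2 (g : Finset ι → ∀ i, H i) (lam m : ℕ) (Y u : ℝ) (C : Finset (Finset ι)) (B I : Finset ι)
    (w : Finset ι → ℝ) (a : ℝ) : Prop :=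
  I ⊆ B ∧ B.card ≤ m ∧ 0 ≤ a ∧ 3 * a ≤ m * Real.log 2 ∧
  (∃ F : Finset ι → ℝ, Expan2 g lam B I F (Real.exp (-3 * a)) ∧ (∀ A, F A ≤ 1) ∧
    ∀ A, 0 ≤ w A ∧ w A ≤ F A) ∧
  (∀ A, w A ≠ 0 → A ∈ C ∧ A ∩ B = I) ∧
  (2 : ℝ) ^ Fintype.card ι * Real.exp (-2 * a - Y + u * B.card) ≤ (∑ A, w A) * 2 ^ B.card

/-- A state with the largest possible `B`. -/
def Mx (g : Finset ι → ∀ i, H i) (lam m : ℕ) (Y u : ℝ) (C : Finset (Finset ι)) (B I : Finset ι)
    (w : Finset ι → ℝ) (a : ℝ) : Prop :=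
  St2 g lam m Y u C B I w a ∧ ∀ (B' I' : Finset ι) (w' : Finset ι → ℝ) (a' : ℝ),
    St2 g lam m Y u C B' I' w' a' → B'.card ≤ B.card

/-- The (unnormalised) Fourier coefficient. -/
noncomputable def hat (g : Finset ι → ∀ i, H i) (w : Finset ι → ℝ) (σ : ∀ i, AddChar (H i) ℂ) : ℂ :=
  ∑ A, (w A : ℂ) * ev g σ A

/-- The average of the functions `conj (θ σ) σ`, `σ ∈ Ω`. -/
noncomputable def Yf (g : Finset ι → ∀ i, H i) (Ω : Finset (∀ i, AddChar (H i) ℂ))
    (θ : (∀ i, AddChar (H i) ℂ) → ℂ) (A : Finset ι) : ℂ :=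
  (Ω.card : ℂ)⁻¹ * ∑ σ ∈ Ω, (starRingEnd ℂ) (θ σ) * ev g σ A

/-- The families allowed in the spectrum: `lam`-th powers, trivial on `B`, with normalised Fourier
coefficient at least `exp (-b)`. -/
def InSpec (g : Finset ι → ∀ i, H i) (lam : ℕ) (B : Finset ι) (w : Finset ι → ℝ) (b : ℝ)
    (σ : ∀ i, AddChar (H i) ℂ) : Prop :=
  IsPow lam σ ∧ (∀ i ∈ B, σ i = 1) ∧ Real.exp (-b) * ∑ A, w A ≤ ‖hat g w σ‖

end States

/-! ### Sums in a finite abelian group -/

section Sums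

variable {G Ω : Type} [AddCommGroup G] [DecidableEq G] [Fintype Ω]

/-- The weighted number of `t`-tuples with sum `x`. -/
noncomputable def rr (gg : Ω → G) (w : Ω → ℝ) (t : ℕ) (x : G) : ℝ :=
  ∑ p : Fin t → Ω, if ∑ k, gg (p k) = x then ∏ k, w (p k) else 0

/-- Tuples of which no one or two elements can be determined from the sum. -/
def Good (gg : Ω → G) (w : Ω → ℝ) (Θ : ℝ) (t : ℕ) (p : Fin t → Ω) : Prop :=
  ∀ S : Finset (Fin t), t ≤ S.card + 2 →
    rr gg w S.card (∑ k ∈ S, gg (p k)) * (∑ a, w a) ^ (t - S.card) ≤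
      Θ ^ (t - S.card) * rr gg w t (∑ k, gg (p k))

/-- The same property for the restriction of a tuple to a set `S` of indices. -/
def GoodS (gg : Ω → G) (w : Ω → ℝ) (Θ : ℝ) {t : ℕ} (p : Fin t → Ω) (S : Finset (Fin t)) : Prop :=
  ∀ S' : Finset (Fin t), S' ⊆ S → S.card ≤ S'.card + 2 →
    rr gg w S'.card (∑ k ∈ S', gg (p k)) * (∑ a, w a) ^ (S.card - S'.card) ≤
      Θ ^ (S.card - S'.card) * rr gg w S.card (∑ k ∈ S, gg (p k))

end Sums

end Pool.Agent.Work.MP_e0aece_nt.Eps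

end

section

/-!
# Module A: the abstract zero sum theorem
-/

namespace Pool.Agent.Work.MP_e0aece_nt.Sq

open Finset

namespace ItemAF

section

variable {ι : Type} [Fintype ι] [DecidableEq ι] {H : ι → Type} [∀ i, AddCommGroup (H i)]
  [∀ i, Fintype (H i)]

/-- The restriction to the coordinates outside `B`. -/
def rg (g : Finset ι → ∀ i, H i) (B : Finset ι) (A : Finset ι) : ∀ i : {i // i ∉ B}, H i.1 :=
  fun i => g A i.1

/-- The family of characters given by a character of the product. -/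
noncomputable def fam (B : Finset ι) (χ : AddChar (∀ i : {i // i ∉ B}, H i.1) ℂ) :
    ∀ i, AddChar (H i) ℂ :=
  fun i => if h : i ∉ B then
    χ.compAddMonoidHom (AddMonoidHom.single (fun i : {i // i ∉ B} => H i.1) ⟨i, h⟩) else 1

theorem fam_mem {B : Finset ι} (χ : AddChar (∀ i : {i // i ∉ B}, H i.1) ℂ) {i : ι}
    (h : i ∈ B) : fam B χ i = 1 := by
  have h' : ¬ i ∉ B := fun h1 => h1 h
  simp only [fam, dif_neg h']

theorem fam_not_mem {B : Finset ι} (χ : AddChar (∀ i : {i // i ∉ B}, H i.1) ℂ) {i : ι}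
    (h : i ∉ B) (x : H i) : fam B χ i x = χ (Pi.single (⟨i, h⟩ : {i // i ∉ B}) x) := by
  simp only [fam, dif_pos h]
  rfl

theorem map_sum' {G τ : Type} [AddCommGroup G] (χ : AddChar G ℂ) (t : Finset τ) (f : τ → G) :
    χ (∑ i ∈ t, f i) = ∏ i ∈ t, χ (f i) := by
  classical
  induction t using Finset.induction_on with
  | empty => simp
  | insert a t ha ih => rw [sum_insert ha, prod_insert ha, AddChar.map_add_eq_mul, ih]

theorem ev_fam (g : Finset ι → ∀ i, H i) (B : Finset ι)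
    (χ : AddChar (∀ i : {i // i ∉ B}, H i.1) ℂ) (A : Finset ι) :
    ev g (fam B χ) A = χ (rg g B A) := by
  have h1 : ev g (fam B χ) A = ∏ i : {i // i ∉ B}, fam B χ i.1 (g A i.1) := by
    rw [ev]
    have h2 : ∏ i, fam B χ i (g A i) =
        ∏ i ∈ univ.filter (fun i => i ∉ B), fam B χ i (g A i) := by
      symm
      apply prod_subset (filter_subset _ _)
      intro i _ hi
      have hi' : i ∈ B := by
        by_contra h
        exact hi (mem_filter.2 ⟨mem_univ _, h⟩)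
      rw [fam_mem χ hi', AddChar.one_apply]
    rw [h2]
    exact (prod_subtype _ (by simp) _)
  rw [h1]
  have h3 : rg g B A = ∑ i : {i // i ∉ B}, Pi.single i (g A i.1) := by
    rw [Finset.univ_sum_single]
    rfl
  rw [h3, map_sum']
  exact prod_congr rfl fun i _ => fam_not_mem χ i.2 _

theorem ev_pow (g : Finset ι → ∀ i, H i) (ψ : ∀ i, AddChar (H i) ℂ) (k : ℕ) (A : Finset ι) :
    ev g (fun i => ψ i ^ k) A = ev g ψ A ^ k := by
  simp only [ev, AddChar.pow_apply, prod_pow]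

theorem fam_one (B : Finset ι) : fam (H := H) B 1 = 1 := by
  ext i x
  by_cases h : i ∈ B
  · rw [fam_mem _ h]; rfl
  · rw [fam_not_mem _ h]
    simp

theorem norm_ev (g : Finset ι → ∀ i, H i) (ψ : ∀ i, AddChar (H i) ℂ) (A : Finset ι) :
    ‖ev g ψ A‖ = 1 := by
  simp only [ev, norm_prod, AddChar.norm_apply, prod_const_one]

theorem card_le (B : Finset ι) :
    Fintype.card (∀ i : {i // i ∉ B}, H i.1) ≤ ∏ i, Fintype.card (H i) := by
  rw [Fintype.card_pi]
  have h1 : ∏ i : {i // i ∉ B}, Fintype.card (H i.1) =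
      ∏ i ∈ univ.filter (fun i => i ∉ B), Fintype.card (H i) :=
    (prod_subtype (univ.filter fun i => i ∉ B) (by simp) (fun i => Fintype.card (H i))).symm
  rw [h1]
  exact prod_le_prod_of_subset_of_one_le' (filter_subset _ _) fun i _ _ => Fintype.card_pos

end

end ItemAF

open ItemAF in
theorem claimA (hA1 : ClaimA1) (hA6 : ClaimA6) (hA7 : ClaimA7) (hA8 : ClaimA8) : ClaimA := by
  classical
  intro ι _ _ H _ _ g lam y J m s C hlam hy hyJ hm hPR hH hC hls hs hdec hsize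
  obtain ⟨B, I, w, j, hB, hj, hSt, hpos, h1, h2⟩ := hA6 ι H g lam y J m C hlam hy hyJ hm hPR hH hC
  obtain ⟨hIB, ⟨F, D, hD, hExp, hF, hw⟩, hsupp, hineq, htors⟩ := hSt
  obtain ⟨hκ0, hκ1⟩ := ItemA6.kappa_bounds hy hyJ
  have hy1 : (1 : ℝ) ≤ y := by exact_mod_cast hy
  have hyJ' : (50 : ℝ) * y ≤ J := by exact_mod_cast hyJ
  have hJ : (0 : ℝ) < J := by linarith
  have hl1 : (1 : ℝ) ≤ lam := by exact_mod_cast hlam
  have hl2 : (1 : ℝ) ≤ (lam : ℝ) ^ 2 := one_le_pow₀ hl1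
  set S : ℝ := ∑ A, w A with hS
  set δ : ℝ := 2 * (y : ℝ) / (J * (lam : ℝ) ^ 2) with hδ
  have hδ0 : 0 ≤ δ := by positivity
  have hδ1 : δ * (25 * (lam : ℝ) ^ 2) ≤ 1 := by
    rw [hδ, div_mul_eq_mul_div, div_le_one (by positivity)]
    nlinarith
  have hδ2 : δ ≤ 1 := by nlinarith
  set Γ : Finset (AddChar (∀ i : {i // i ∉ B}, H i.1) ℂ) :=
    univ.filter fun χ => fam B χ ∈ torsConst g lam w with hΓ
  obtain ⟨a0, ha0⟩ : ∃ a, w a ≠ 0 := by
    by_contra hcon
    push Not at hcon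
    rw [hS, sum_congr rfl fun A _ => hcon A] at hpos
    simp at hpos
  obtain ⟨T, hT1, hT2, hT3⟩ := hA1 (∀ i : {i // i ∉ B}, H i.1) (Finset ι) (rg g B) w
    (2 ^ B.card) δ lam s Γ (fun A => (hw A).1)
    (fun A => (hw A).2.trans ((hF A).trans (pow_le_pow_right₀ (by norm_num) hD)))
    hpos hδ0 hδ2 hls hs
    (by
      rw [hΓ, mem_filter, fam_one]
      exact ⟨mem_univ _, fun i => by simp, fun A A' _ _ => by simp [ev]⟩)
    (by
      intro χ hχ
      rw [hΓ, mem_filter] at hχ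
      refine ⟨χ (rg g B a0), ?_, ?_⟩
      · rw [← ev_fam, ← ev_pow]
        simp only [hχ.2.1, ev, AddChar.one_apply, prod_const_one]
      · intro a ha
        rw [← ev_fam, ← ev_fam]
        exact hχ.2.2 a a0 ha ha0)
    (by
      intro χ hχ
      simp only [← ev_fam]
      by_cases hc : ∃ i, fam B χ i ^ lam ≠ 1
      · have h3 := h1 (fam B χ) (fun i hi => by rw [fam_mem χ hi, one_pow]) hc
        have h4 := hA7 (Finset ι) w (fun A => ev g (fam B χ) A) lam (fun A => (hw A).1)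
          (fun A => norm_ev g _ A)
        simp only [← ev_pow] at h4
        set N : ℝ := ‖∑ A, (w A : ℂ) * ev g (fam B χ) A‖ with hN
        have h5 : S / 25 ≤ (lam : ℝ) ^ 2 * (S - N) := by linarith
        have h6 : δ * S ≤ S - N := by
          have h7 : (25 * (lam : ℝ) ^ 2) * (δ * S) ≤ (25 * (lam : ℝ) ^ 2) * (S - N) := by
            calc (25 * (lam : ℝ) ^ 2) * (δ * S) = (δ * (25 * (lam : ℝ) ^ 2)) * S := by ring
              _ ≤ 1 * S := by gcongr
              _ = 25 * (S / 25) := by ring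
              _ ≤ 25 * ((lam : ℝ) ^ 2 * (S - N)) := by gcongr
              _ = _ := by ring
          exact le_of_mul_le_mul_left h7 (by positivity)
        linarith
      · push Not at hc
        have hnot : fam B χ ∉ torsConst g lam w := by
          intro h
          apply hχ
          rw [hΓ, mem_filter]
          exact ⟨mem_univ _, h⟩
        have h3 := hA8 (Finset ι) w (fun A => ev g (fam B χ) A) lam ((y : ℝ) / (2 * J)) hlam
          (fun A => (hw A).1)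
          (fun A _ => by
            rw [← ev_pow]
            simp only [hc, ev, AddChar.one_apply, prod_const_one])
          (by positivity)
          (by
            rw [div_le_div_iff₀ (by positivity) (by norm_num)]
            linarith)
          (fun ζ => h2 (fam B χ) ζ hc hnot)
        have h4 : 1 - 4 * ((y : ℝ) / (2 * J)) / (lam : ℝ) ^ 2 = 1 - δ := by
          rw [hδ]
          congr 1
          field_simp
          ring
        rw [h4] at h3
        exact h3)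
    (by
      refine le_trans ?_ hdec
      have h3 : ((Fintype.card (∀ i : {i // i ∉ B}, H i.1) : ℕ) : ℝ) ≤ 2 ^ J := by
        refine le_trans ?_ hH
        exact_mod_cast card_le (H := H) B
      have h4 : 0 ≤ 1 - δ := by linarith
      gcongr)
    (by
      have h3 : (1 : ℝ) ≤ (1 - (y : ℝ) / (2 * J)) ^ j * 2 ^ y := by
        refine (ItemA6.one_sub_pow hy hyJ).trans ?_
        exact mul_le_mul_of_nonneg_right (pow_le_pow_of_le_one hκ0.le hκ1 hj) (by positivity)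
      have h4 : (2 : ℝ) ^ Fintype.card ι ≤ S * (2 ^ B.card * 2 ^ y * 2 ^ y) := by
        have h5 : (1 : ℝ) ≤ (6 / 5) ^ B.card := one_le_pow₀ (by norm_num)
        calc (2 : ℝ) ^ Fintype.card ι = 2 ^ Fintype.card ι * 1 * 1 := by ring
          _ ≤ 2 ^ Fintype.card ι * (6 / 5) ^ B.card *
              ((1 - (y : ℝ) / (2 * J)) ^ j * 2 ^ y) := by gcongr
          _ = (2 ^ Fintype.card ι * (6 / 5) ^ B.card * (1 - (y : ℝ) / (2 * J)) ^ j) * 2 ^ y := by
              ring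
          _ ≤ (S * 2 ^ B.card * 2 ^ y) * 2 ^ y := by gcongr
          _ = _ := by ring
      have h6 : (s : ℝ) ^ 2 * 2 ^ (2 * m + 2 * y) ≤ 2 ^ Fintype.card ι := by
        exact_mod_cast hsize
      have h7 : (s : ℝ) ^ 2 * 2 ^ B.card * (2 ^ B.card * 2 ^ y * 2 ^ y) ≤
          S * (2 ^ B.card * 2 ^ y * 2 ^ y) := by
        refine le_trans ?_ (h6.trans h4)
        have h8 : (2 : ℝ) ^ B.card ≤ 2 ^ m := pow_le_pow_right₀ (by norm_num) (by omega)
        calc (s : ℝ) ^ 2 * 2 ^ B.card * (2 ^ B.card * 2 ^ y * 2 ^ y)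
            ≤ (s : ℝ) ^ 2 * 2 ^ m * (2 ^ m * 2 ^ y * 2 ^ y) := by gcongr
          _ = (s : ℝ) ^ 2 * 2 ^ (2 * m + 2 * y) := by
              rw [pow_add, two_mul, two_mul, pow_add, pow_add]
              ring
      exact le_of_mul_le_mul_right h7 (by positivity))
  refine ⟨B, I, T, hIB, by omega, fun A hA => (hsupp A (hT2 A hA)).1, hT1,
    fun A hA => (hsupp A (hT2 A hA)).2, fun i hi => ?_⟩
  have h3 := congrFun hT3 ⟨i, hi⟩
  rw [Finset.sum_apply] at h3
  exact h3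

end Pool.Agent.Work.MP_e0aece_nt.Sq

end

section

/-!
# MP_e0aece_nt, module D, item D1: a good multiplier `k`
-/

namespace Pool.Agent.Work.MP_e0aece_nt.Sq

open Finset

namespace ItemD1

/-- the analytic condition on `M` -/
theorem eventually_M : ∃ M0 : ℕ, ∀ M : ℕ, M0 ≤ M → 1000000 ≤ M ∧
    768000 * Real.log M ^ 2 < M := by
  have h := (Real.isLittleO_pow_log_id_atTop (n := 2)).bound
    (show (0 : ℝ) < 1 / 1000000 by norm_num)
  obtain ⟨x0, hx0⟩ := Filter.eventually_atTop.mp h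
  refine ⟨max 1000000 ⌈x0⌉₊, fun M hM => ?_⟩
  have hM1 : 1000000 ≤ M := (le_max_left _ _).trans hM
  have hM2 : x0 ≤ M := (Nat.le_ceil x0).trans (by exact_mod_cast (le_max_right _ _).trans hM)
  refine ⟨hM1, ?_⟩
  have h1 := hx0 M hM2
  rw [Real.norm_eq_abs, Real.norm_eq_abs, abs_of_nonneg (by positivity), id,
    abs_of_nonneg (by positivity)] at h1
  have hM3 : (1000000 : ℝ) ≤ M := by exact_mod_cast hM1
  nlinarith

theorem dd_pos {M lam : ℕ} {p : Fin M → ℕ} (hp : Primes M lam p) (A : Finset (Fin M)) :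
    0 < dd p A := by
  unfold dd
  exact Finset.prod_pos fun i _ => (hp.2 i).1.pos

theorem dd_le {M lam : ℕ} {p : Fin M → ℕ} (hM : 4 ≤ M) (hp : Primes M lam p)
    (A : Finset (Fin M)) : dd p A ≤ M ^ (21 * M) := by
  unfold dd
  have h1 : ∏ i ∈ A, p i ≤ ∏ i ∈ A, M ^ 21 := by
    refine Finset.prod_le_prod' fun i _ => ?_
    refine (hp.2 i).2.2.1.trans ?_
    rw [pow_succ M 20, mul_comm]
    exact Nat.mul_le_mul_left _ hM
  refine h1.trans ?_
  rw [Finset.prod_const, ← pow_mul]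
  refine Nat.pow_le_pow_right (by omega) ?_
  have := Finset.card_le_univ A
  rw [Fintype.card_fin] at this
  exact Nat.mul_le_mul_left _ this

theorem prod_le {M lam : ℕ} {p : Fin M → ℕ} (hM : 4 ≤ M) (hp : Primes M lam p) :
    ∏ i, p i ≤ M ^ (21 * M) := dd_le hM hp Finset.univ

/-- existence of the vector of units -/
theorem exists_units {M : ℕ} (p : Fin M → ℕ) [∀ i, Fact (p i).Prime] (k : ℕ)
    (hk : ∀ i, Nat.Coprime k (p i)) :
    ∃ u : ∀ i, (ZMod (p i))ˣ, ∀ i, (u i : ZMod (p i)) = (k : ZMod (p i)) :=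
  ⟨fun i => ZMod.unitOfCoprime k (hk i), fun i => ZMod.coe_unitOfCoprime k (hk i)⟩

/-- the core counting -/
theorem core {M lam m : ℕ} {p : Fin M → ℕ} [∀ i, Fact (p i).Prime] (hM : 1000000 ≤ M)
    (hlog : 768000 * Real.log M ^ 2 < M) (hp : Primes M lam p) (hAP : PrimesAP p (XM M))
    (hPR : ∀ K : ℕ, ∏ i, p i ≤ K →
      (Nat.card {k : ℕ // k ∈ Ioc 0 K ∧ ∃ u : ∀ i, (ZMod (p i))ˣ,
        (∀ i, (u i : ZMod (p i)) = (k : ZMod (p i))) ∧ ¬ PRv p lam m u} : ℝ) * (M : ℝ) ^ 10 ≤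
        2 * K) :
    ∃ (k : ℕ) (P : Finset (Finset (Fin M))), 4 * M ^ 20 ≤ k ∧ k ≤ XM M ∧
      (∀ i, Nat.Coprime k (p i)) ∧
      (∀ u : ∀ i, (ZMod (p i))ˣ, (∀ i, (u i : ZMod (p i)) = (k : ZMod (p i))) →
        PRv p lam m u) ∧
      (∀ A ∈ P, (dd p A * k + 1).Prime ∧ dd p A * k ≤ 2 * XM M) ∧
      2 ^ M ≤ P.card * M ^ 3 := by
  classical
  have hM4 : 4 ≤ M := by omega
  have hMr : (1000000 : ℝ) ≤ M := by exact_mod_cast hM
  have hM0 : (0 : ℝ) < M := by linarith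
  set L : ℝ := Real.log M with hL
  have hL1 : 1 ≤ L := by
    rw [hL, Real.le_log_iff_exp_le hM0]
    have := Real.exp_one_lt_d9
    linarith
  have hLM : L ≤ M := (Real.log_le_sub_one_of_pos hM0).trans (by linarith)
  set D : ℕ := M ^ (21 * M) with hD
  have hDpos : 0 < D := by positivity
  set X : ℕ := XM M with hX
  have hXpos : 0 < X := by
    rw [hX, XM]
    positivity
  have hXD : X = D * M ^ (2979 * M) := by
    rw [hX, XM, hD, ← pow_add]
    congr 1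
    ring
  have hlogX : Real.log X = 3000 * M * L := by
    rw [hX, XM, hL]
    push_cast
    rw [Real.log_pow]
    push_cast
    ring
  set J : ℕ := Nat.log 2 D with hJ
  have hJr : (J : ℝ) + 1 ≤ 32 * M * L := by
    have h1 : 2 ^ J ≤ D := Nat.pow_log_le_self 2 hDpos.ne'
    have h2 : (J : ℝ) * Real.log 2 ≤ 21 * M * L := by
      have h3 : ((2 : ℝ)) ^ J ≤ (M : ℝ) ^ (21 * M) := by exact_mod_cast h1
      have h4 := Real.log_le_log (by positivity) h3
      rw [Real.log_pow, Real.log_pow] at h4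
      push_cast at h4
      exact h4
    have h5 := Real.log_two_gt_d9
    have h6 : (J : ℝ) * 0.6931471803 ≤ 21 * M * L :=
      (mul_le_mul_of_nonneg_left h5.le (Nat.cast_nonneg J)).trans h2
    have h7 : 1 ≤ (M : ℝ) * L := by nlinarith
    nlinarith
  -- the most popular dyadic class
  obtain ⟨j, hj, hcls⟩ := Finset.exists_le_card_fiber_of_nsmul_le_card_of_maps_to
    (s := (Finset.univ : Finset (Finset (Fin M)))) (t := Finset.range (J + 1))
    (f := fun A => Nat.log 2 (dd p A)) (b := (2 : ℝ) ^ M / (J + 1))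
    (fun A _ => by
      rw [Finset.mem_range]
      exact Nat.lt_succ_of_le (Nat.log_mono_right (dd_le hM4 hp A)))
    ⟨0, Finset.mem_range.mpr (Nat.succ_pos _)⟩
    (by
      rw [Finset.card_range, nsmul_eq_mul, Finset.card_univ, Fintype.card_finset, Fintype.card_fin]
      push_cast
      rw [mul_div_cancel₀]
      positivity)
  set 𝒞 : Finset (Finset (Fin M)) :=
    Finset.univ.filter fun A => Nat.log 2 (dd p A) = j with h𝒞
  have hcpos : (0 : ℝ) < 𝒞.card := lt_of_lt_of_le (by positivity) hcls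
  have hc𝒞 : ∀ A ∈ 𝒞, 2 ^ j ≤ dd p A ∧ dd p A < 2 ^ (j + 1) := by
    intro A hA
    rw [h𝒞, Finset.mem_filter] at hA
    have h1 := Nat.pow_log_le_self 2 (dd_pos hp A).ne'
    have h2 := Nat.lt_pow_succ_log_self (b := 2) (by norm_num) (dd p A)
    rw [hA.2] at h1 h2
    exact ⟨h1, h2⟩
  obtain ⟨A0, hA0⟩ : 𝒞.Nonempty := by
    rw [← Finset.card_pos]
    exact_mod_cast hcpos
  have h2jD : 2 ^ j ≤ D := (hc𝒞 A0 hA0).1.trans (dd_le hM4 hp A0)
  set K0 : ℕ := X / 2 ^ j with hK0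
  have hK0ge : M ^ (2979 * M) ≤ K0 := by
    rw [hK0, Nat.le_div_iff_mul_le (by positivity), hXD, mul_comm]
    exact Nat.mul_le_mul_right _ h2jD
  have hK0prod : ∏ i, p i ≤ K0 := by
    refine (prod_le hM4 hp).trans (le_trans ?_ hK0ge)
    exact Nat.pow_le_pow_right (by omega) (by omega)
  have hK0M : (4 : ℝ) * M ^ 30 ≤ K0 := by
    have h1 : 4 * M ^ 30 ≤ M ^ (2979 * M) := by
      calc 4 * M ^ 30 ≤ M * M ^ 30 := Nat.mul_le_mul_right _ hM4
        _ = M ^ 31 := by ring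
        _ ≤ M ^ (2979 * M) := Nat.pow_le_pow_right (by omega) (by omega)
    exact_mod_cast h1.trans hK0ge
  have hK0pos : (0 : ℝ) < K0 := lt_of_lt_of_le (by positivity) hK0M
  have hK0X : (K0 : ℝ) * 2 ^ j ≤ X := by
    have : K0 * 2 ^ j ≤ X := Nat.div_mul_le_self _ _
    exact_mod_cast this
  -- the bad sets
  set E1 : Finset ℕ := (Ioc 0 K0).filter fun k => ¬ ∀ i, Nat.Coprime k (p i) with hE1
  set E2 : Finset ℕ := (Ioc 0 K0).filter fun k => k < 4 * M ^ 20 with hE2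
  set E3 : Finset ℕ := (Ioc 0 K0).filter fun k => ∃ u : ∀ i, (ZMod (p i))ˣ,
        (∀ i, (u i : ZMod (p i)) = (k : ZMod (p i))) ∧ ¬ PRv p lam m u with hE3
  have hE1c : (E1.card : ℝ) * M ^ 10 ≤ K0 := by
    have hsub : E1 ⊆ Finset.univ.biUnion fun i : Fin M => (Ioc 0 K0).filter fun k => p i ∣ k := by
      intro k hk
      rw [hE1, Finset.mem_filter] at hk
      obtain ⟨hk1, hk2⟩ := hk
      push Not at hk2
      obtain ⟨i, hi⟩ := hk2
      rw [Finset.mem_biUnion]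
      refine ⟨i, Finset.mem_univ _, Finset.mem_filter.mpr ⟨hk1, ?_⟩⟩
      by_contra hdvd
      exact hi (((hp.2 i).1.coprime_iff_not_dvd.mpr hdvd).symm)
    have h1 : E1.card ≤ ∑ i : Fin M, K0 / p i := by
      refine (Finset.card_le_card hsub).trans (Finset.card_biUnion_le.trans ?_)
      refine Finset.sum_le_sum fun i _ => ?_
      rw [Nat.Ioc_filter_dvd_card_eq_div]
    have h2 : ∑ i : Fin M, K0 / p i ≤ M * (K0 / M ^ 20) := by
      have : ∑ i : Fin M, K0 / p i ≤ ∑ _i : Fin M, K0 / M ^ 20 :=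
        Finset.sum_le_sum fun i _ => Nat.div_le_div_left (hp.2 i).2.1.le (by positivity)
      rwa [Finset.sum_const, Finset.card_univ, Fintype.card_fin, smul_eq_mul] at this
    have h3 : E1.card * M ^ 19 ≤ K0 := by
      calc E1.card * M ^ 19 ≤ (M * (K0 / M ^ 20)) * M ^ 19 := Nat.mul_le_mul_right _ (h1.trans h2)
        _ = (K0 / M ^ 20) * M ^ 20 := by ring
        _ ≤ K0 := Nat.div_mul_le_self _ _
    have h4 : E1.card * M ^ 10 ≤ K0 :=
      (Nat.mul_le_mul_left _ (Nat.pow_le_pow_right (by omega) (by norm_num))).trans h3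
    exact_mod_cast h4
  have hE2c : (E2.card : ℝ) * M ^ 10 ≤ K0 := by
    have h1 : E2.card ≤ 4 * M ^ 20 := by
      refine (Finset.card_le_card (t := Finset.range (4 * M ^ 20)) ?_).trans_eq
        (Finset.card_range _)
      intro k hk
      rw [hE2, Finset.mem_filter] at hk
      exact Finset.mem_range.mpr hk.2
    have h2 : (E2.card : ℝ) ≤ 4 * (M : ℝ) ^ 20 := by exact_mod_cast h1
    calc (E2.card : ℝ) * M ^ 10 ≤ (4 * (M : ℝ) ^ 20) * M ^ 10 :=
          mul_le_mul_of_nonneg_right h2 (by positivity)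
      _ = 4 * (M : ℝ) ^ 30 := by ring
      _ ≤ K0 := hK0M
  have hE3c : (E3.card : ℝ) * M ^ 10 ≤ 2 * K0 := by
    have h1 := hPR K0 hK0prod
    rwa [Nat.subtype_card E3 (fun k => by rw [hE3, Finset.mem_filter])] at h1
  -- admissible multipliers
  set 𝒜 : Finset ℕ := (Ioc 0 K0).filter fun k => 4 * M ^ 20 ≤ k ∧ (∀ i, Nat.Coprime k (p i)) ∧
    ∀ u : ∀ i, (ZMod (p i))ˣ, (∀ i, (u i : ZMod (p i)) = (k : ZMod (p i))) → PRv p lam m u with h𝒜
  have hlX : 0 < Real.log X := by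
    rw [hlogX]
    positivity
  have hcount : ∀ A ∈ 𝒞, (K0 : ℝ) / (8 * Real.log X) ≤
      ((𝒜.filter fun k => (dd p A * k + 1).Prime).card : ℝ) := by
    intro A hA
    obtain ⟨hA1, hA2⟩ := hc𝒞 A hA
    have hdpos := dd_pos hp A
    have h1 := hAP A
    have hsub : (Ioc 0 (X / dd p A)).filter (fun k => (dd p A * k + 1).Prime) ⊆
        (𝒜.filter fun k => (dd p A * k + 1).Prime) ∪ (E1 ∪ (E2 ∪ E3)) := by
      intro k hk
      rw [Finset.mem_filter, Finset.mem_Ioc] at hk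
      obtain ⟨⟨hk1, hk2⟩, hk3⟩ := hk
      have hk4 : k ∈ Ioc 0 K0 := Finset.mem_Ioc.mpr
        ⟨hk1, hk2.trans (Nat.div_le_div_left hA1 (by positivity))⟩
      by_cases he1 : ∀ i, Nat.Coprime k (p i)
      · by_cases he2 : k < 4 * M ^ 20
        · exact Finset.mem_union_right _ (Finset.mem_union_right _ (Finset.mem_union_left _
            (Finset.mem_filter.mpr ⟨hk4, he2⟩)))
        · by_cases he3 : ∃ u : ∀ i, (ZMod (p i))ˣ,
            (∀ i, (u i : ZMod (p i)) = (k : ZMod (p i))) ∧ ¬ PRv p lam m u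
          · exact Finset.mem_union_right _ (Finset.mem_union_right _ (Finset.mem_union_right _
              (Finset.mem_filter.mpr ⟨hk4, he3⟩)))
          · refine Finset.mem_union_left _ (Finset.mem_filter.mpr ⟨Finset.mem_filter.mpr
              ⟨hk4, not_lt.mp he2, he1, fun u hu => ?_⟩, hk3⟩)
            by_contra hne
            exact he3 ⟨u, hu, hne⟩
      · exact Finset.mem_union_right _ (Finset.mem_union_left _
          (Finset.mem_filter.mpr ⟨hk4, he1⟩))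
    have h2 : ((((Ioc 0 (X / dd p A)).filter fun k => (dd p A * k + 1).Prime).card : ℕ) : ℝ) ≤
        ((𝒜.filter fun k => (dd p A * k + 1).Prime).card : ℝ) + (E1.card + (E2.card + E3.card)) := by
      have h3 := (Finset.card_le_card hsub).trans ((Finset.card_union_le _ _).trans
        (Nat.add_le_add_left ((Finset.card_union_le _ _).trans
          (Nat.add_le_add_left (Finset.card_union_le _ _) _)) _))
      exact_mod_cast h3
    have h4 : (K0 : ℝ) / (4 * Real.log X) ≤ (X : ℝ) / (2 * (dd p A : ℝ) * Real.log X) := by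
      rw [div_le_div_iff₀ (by positivity) (by positivity)]
      have h5 : (dd p A : ℝ) ≤ 2 ^ (j + 1) := by exact_mod_cast hA2.le
      have h6 : (K0 : ℝ) * dd p A ≤ 2 * X := by
        calc (K0 : ℝ) * dd p A ≤ K0 * 2 ^ (j + 1) := mul_le_mul_of_nonneg_left h5 hK0pos.le
          _ = 2 * (K0 * 2 ^ j) := by ring
          _ ≤ 2 * X := by linarith
      calc (K0 : ℝ) * (2 * (dd p A : ℝ) * Real.log X) = 2 * (K0 * dd p A) * Real.log X := by ring
        _ ≤ 2 * (2 * X) * Real.log X := by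
          refine mul_le_mul_of_nonneg_right ?_ hlX.le
          linarith
        _ = (X : ℝ) * (4 * Real.log X) := by ring
    have h7 : (E1.card + (E2.card + E3.card) : ℝ) ≤ K0 / (8 * Real.log X) := by
      have h8 : (E1.card + (E2.card + E3.card) : ℝ) * M ^ 10 ≤ 4 * K0 := by linarith
      rw [le_div_iff₀ (by positivity), hlogX]
      have h9 : (96000 : ℝ) * (M * L) ≤ M ^ 10 := by
        have h10 : (M : ℝ) * L ≤ M * M := mul_le_mul_of_nonneg_left hLM hM0.le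
        have h11 : (96000 : ℝ) * (M * M) ≤ M ^ 10 := by
          have h12 : (96000 : ℝ) ≤ M ^ 8 := by
            calc (96000 : ℝ) ≤ M := by linarith
              _ = (M : ℝ) ^ 1 := (pow_one _).symm
              _ ≤ (M : ℝ) ^ 8 := pow_le_pow_right₀ (by linarith) (by norm_num)
          calc (96000 : ℝ) * (M * M) ≤ M ^ 8 * (M * M) :=
                mul_le_mul_of_nonneg_right h12 (by positivity)
            _ = M ^ 10 := by ring
        linarith
      have h13 : (0 : ℝ) ≤ E1.card + (E2.card + E3.card) := by positivity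
      have h14 : (E1.card + (E2.card + E3.card) : ℝ) * (96000 * (M * L)) ≤ 4 * K0 :=
        (mul_le_mul_of_nonneg_left h9 h13).trans h8
      linarith
    have h15 : (K0 : ℝ) / (4 * Real.log X) = K0 / (8 * Real.log X) + K0 / (8 * Real.log X) := by
      field_simp
      ring
    linarith
  -- double counting
  have hdc : ∑ A ∈ 𝒞, ((𝒜.filter fun k => (dd p A * k + 1).Prime).card : ℝ) =
      ∑ k ∈ 𝒜, ((𝒞.filter fun A => (dd p A * k + 1).Prime).card : ℝ) := by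
    have := Finset.sum_card_bipartiteAbove_eq_sum_card_bipartiteBelow
      (fun (A : Finset (Fin M)) (k : ℕ) => (dd p A * k + 1).Prime) (s := 𝒞) (t := 𝒜)
    exact_mod_cast this
  obtain ⟨k, hk, hkc⟩ : ∃ k ∈ 𝒜, (2 : ℝ) ^ M ≤
      ((𝒞.filter fun A => (dd p A * k + 1).Prime).card : ℝ) * M ^ 3 := by
    by_contra hcon
    push Not at hcon
    have h1 : ∑ k ∈ 𝒜, ((𝒞.filter fun A => (dd p A * k + 1).Prime).card : ℝ) ≤
        K0 * (2 ^ M / M ^ 3) := by
      have h2 : ∑ k ∈ 𝒜, ((𝒞.filter fun A => (dd p A * k + 1).Prime).card : ℝ) ≤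
          ∑ _k ∈ 𝒜, ((2 : ℝ) ^ M / M ^ 3) := by
        refine Finset.sum_le_sum fun k hk => ?_
        rw [le_div_iff₀ (by positivity)]
        exact (hcon k hk).le
      refine h2.trans ?_
      rw [Finset.sum_const, nsmul_eq_mul]
      refine mul_le_mul_of_nonneg_right ?_ (by positivity)
      have h3 : 𝒜.card ≤ K0 := by
        refine (Finset.card_filter_le _ _).trans_eq ?_
        rw [Nat.card_Ioc]
        omega
      exact_mod_cast h3
    have h4 : (𝒞.card : ℝ) * (K0 / (8 * Real.log X)) ≤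
        ∑ A ∈ 𝒞, ((𝒜.filter fun k => (dd p A * k + 1).Prime).card : ℝ) := by
      rw [← nsmul_eq_mul]
      exact Finset.card_nsmul_le_sum _ _ _ hcount
    rw [hdc] at h4
    have h5 := h4.trans h1
    have h6 : (2 : ℝ) ^ M / (32 * M * L) ≤ 𝒞.card := by
      refine le_trans ?_ hcls
      exact div_le_div_of_nonneg_left (by positivity) (by positivity) hJr
    have h7 : (2 : ℝ) ^ M / (32 * M * L) * (K0 / (8 * Real.log X)) ≤ K0 * (2 ^ M / M ^ 3) :=
      (mul_le_mul_of_nonneg_right h6 (by positivity)).trans h5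
    rw [hlogX, div_mul_div_comm, mul_div_assoc', div_le_div_iff₀ (by positivity) (by positivity)]
      at h7
    have h8 : (0 : ℝ) < 2 ^ M * K0 := by positivity
    have h9 : (2 : ℝ) ^ M * K0 * M ^ 3 ≤ 2 ^ M * K0 * (32 * M * L * (8 * (3000 * M * L))) := by
      calc (2 : ℝ) ^ M * K0 * M ^ 3 ≤ K0 * 2 ^ M * (32 * M * L * (8 * (3000 * M * L))) := h7
        _ = 2 ^ M * K0 * (32 * M * L * (8 * (3000 * M * L))) := by ring
    have h10 := le_of_mul_le_mul_left h9 h8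
    have h11 : (M : ℝ) ^ 2 * M ≤ M ^ 2 * (768000 * L ^ 2) := by
      calc (M : ℝ) ^ 2 * M = M ^ 3 := by ring
        _ ≤ 32 * M * L * (8 * (3000 * M * L)) := h10
        _ = M ^ 2 * (768000 * L ^ 2) := by ring
    have h12 := le_of_mul_le_mul_left h11 (by positivity)
    linarith
  rw [h𝒜, Finset.mem_filter, Finset.mem_Ioc] at hk
  obtain ⟨⟨hk1, hk2⟩, hk3, hk4, hk5⟩ := hk
  refine ⟨k, 𝒞.filter fun A => (dd p A * k + 1).Prime, hk3, ?_, hk4, hk5, ?_, ?_⟩
  · exact hk2.trans (Nat.div_le_self _ _)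
  · intro A hA
    rw [Finset.mem_filter] at hA
    refine ⟨hA.2, ?_⟩
    have h1 := (hc𝒞 A hA.1).2
    calc dd p A * k ≤ 2 ^ (j + 1) * K0 := Nat.mul_le_mul h1.le hk2
      _ = 2 * (K0 * 2 ^ j) := by ring
      _ ≤ 2 * X := Nat.mul_le_mul_left _ (Nat.div_mul_le_self _ _)
  · exact_mod_cast hkc

end ItemD1

/-- D1: a good multiplier -/
theorem claimD1 : ClaimD1 := by
  obtain ⟨M0, hM0⟩ := ItemD1.eventually_M
  refine ⟨M0, fun M hM lam m p _ hp hAP hPR => ?_⟩
  obtain ⟨h1, h2⟩ := hM0 M hM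
  exact ItemD1.core h1 h2 hp hAP hPR

end Pool.Agent.Work.MP_e0aece_nt.Sq

end

section

/-!
# D2: from a zero sum to a Carmichael number
-/

namespace Pool.Agent.Work.MP_e0aece_nt.Sq

open Finset

namespace ItemD2

variable {M : ℕ} {p : Fin M → ℕ}

theorem dvd_dd (hinj : Function.Injective p) (hp : ∀ i, (p i).Prime) (A : Finset (Fin M))
    (i : Fin M) : p i ∣ dd p A ↔ i ∈ A := by
  unfold dd
  rw [Prime.dvd_finsetProd_iff (hp i).prime]
  constructor
  · rintro ⟨j, hj, hd⟩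
    have h1 := (Nat.prime_dvd_prime_iff_eq (hp i) (hp j)).1 hd
    rw [hinj h1]
    exact hj
  · intro h
    exact ⟨i, h, dvd_rfl⟩

theorem dd_inj (hinj : Function.Injective p) (hp : ∀ i, (p i).Prime) {A A' : Finset (Fin M)}
    (h : dd p A = dd p A') : A = A' := by
  ext i
  rw [← dvd_dd hinj hp A i, h, dvd_dd hinj hp A' i]

theorem dd_pos (hp : ∀ i, (p i).Prime) (A : Finset (Fin M)) : 0 < dd p A :=
  Finset.prod_pos fun i _ => (hp i).pos

theorem dd_odd (hp : ∀ i, (p i).Prime) (h3 : ∀ i, 3 ≤ p i) (A : Finset (Fin M)) :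
    ¬ 2 ∣ dd p A := by
  unfold dd
  rw [Prime.dvd_finsetProd_iff Nat.prime_two.prime]
  rintro ⟨j, -, hd⟩
  have h1 := (Nat.prime_dvd_prime_iff_eq Nat.prime_two (hp j)).1 hd
  have := h3 j
  omega

theorem dd_dvd (hinj : Function.Injective p) (hp : ∀ i, (p i).Prime) (A : Finset (Fin M))
    (z : ℕ) (h : ∀ i ∈ A, p i ∣ z) : dd p A ∣ z := by
  unfold dd
  apply Finset.prod_dvd_of_isRelPrime
  · intro i _ j _ hij
    rw [Function.onFun, ← Nat.coprime_iff_isRelPrime]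
    exact (Nat.coprime_primes (hp i) (hp j)).2 fun h => hij (hinj h)
  · exact h

end ItemD2

open ItemD2

theorem claimD2 : ClaimD2 := by
  intro M k p B I T hinj hpp hk hIB hT hTB hTp hT1
  have hp : ∀ i, (p i).Prime := fun i => (hpp i).1
  have h3 : ∀ i, 3 ≤ p i := fun i => (hpp i).2.1
  have hco : ∀ i, Nat.Coprime k (p i) := fun i => (hpp i).2.2
  have hPinj : ∀ A A' : Finset (Fin M), dd p A * k + 1 = dd p A' * k + 1 → A = A' := by
    intro A A' h
    have h1 : dd p A * k = dd p A' * k := by omega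
    exact dd_inj hinj hp (Nat.eq_of_mul_eq_mul_right (by omega) h1)
  set n := ∏ A ∈ T, (dd p A * k + 1) with hn
  have hn0 : n ≠ 0 := Finset.prod_ne_zero_iff.2 fun A _ => by omega
  have hdvd : ∀ A ∈ T, dd p A * k + 1 ∣ n := fun A hA => Finset.dvd_prod_of_mem _ hA
  obtain ⟨A1, hA1, A2, hA2, hA12⟩ := Finset.one_lt_card.1 (by omega : 1 < T.card)
  have hn1 : 1 < n :=
    lt_of_lt_of_le (hTp A1 hA1).one_lt (Nat.le_of_dvd (Nat.pos_of_ne_zero hn0) (hdvd A1 hA1))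
  have hnp : ¬ n.Prime := by
    intro h
    have e1 := (Nat.prime_dvd_prime_iff_eq (hTp A1 hA1) h).1 (hdvd A1 hA1)
    have e2 := (Nat.prime_dvd_prime_iff_eq (hTp A2 hA2) h).1 (hdvd A2 hA2)
    exact hA12 (hPinj _ _ (e1.trans e2.symm))
  have hsq : Squarefree n := by
    apply Finset.squarefree_prod_of_pairwise_isCoprime
    · intro A hA A' hA' hne
      rw [Function.onFun, ← Nat.coprime_iff_isRelPrime]
      exact (Nat.coprime_primes (hTp A hA) (hTp A' hA')).2 fun h => hne (hPinj _ _ h)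
    · intro A hA
      exact (hTp A hA).prime.irreducible.squarefree
  have hprime : ∀ r : ℕ, r.Prime → r ∣ n → ∃ A ∈ T, r = dd p A * k + 1 := by
    intro r hr hrn
    obtain ⟨A, hA, hd⟩ := (Prime.dvd_finsetProd_iff hr.prime _).1 hrn
    exact ⟨A, hA, (Nat.prime_dvd_prime_iff_eq hr (hTp A hA)).1 hd⟩
  have hk1 : k ∣ n - 1 := by
    have h1 : n ≡ 1 [MOD k] := by
      apply Nat.ModEq.prod_one
      intro A _
      have : 0 + 1 ≡ 1 [MOD k] := Nat.ModEq.refl _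
      calc dd p A * k + 1 ≡ 0 + 1 [MOD k] :=
            Nat.ModEq.add_right 1 ((Nat.modEq_zero_iff_dvd).2 (Dvd.intro_left _ rfl))
        _ ≡ 1 [MOD k] := this
    exact (Nat.modEq_iff_dvd' hn1.le).1 h1.symm
  have hpi : ∀ A ∈ T, ∀ i ∈ A, p i ∣ n - 1 := by
    intro A hA i hi
    by_cases hiB : i ∈ B
    · have hiI : i ∈ I := by
        rw [← hTB A hA]
        exact Finset.mem_inter.2 ⟨hi, hiB⟩
      have h1 : n ≡ 1 [MOD p i] := by
        apply Nat.ModEq.prod_one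
        intro A' hA'
        have hi' : i ∈ A' := by
          rw [← hTB A' hA'] at hiI
          exact (Finset.mem_inter.1 hiI).1
        have hd : p i ∣ dd p A' * k := ((dvd_dd hinj hp A' i).2 hi').mul_right k
        calc dd p A' * k + 1 ≡ 0 + 1 [MOD p i] :=
              Nat.ModEq.add_right 1 ((Nat.modEq_zero_iff_dvd).2 hd)
          _ ≡ 1 [MOD p i] := Nat.ModEq.refl _
      exact (Nat.modEq_iff_dvd' hn1.le).1 h1.symm
    · have h1 := hT1 i hiB
      have h2 : ((n : ℕ) : ZMod (p i)) = ((1 : ℕ) : ZMod (p i)) := by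
        rw [Nat.cast_one]
        exact h1
      rw [ZMod.natCast_eq_natCast_iff] at h2
      exact (Nat.modEq_iff_dvd' hn1.le).1 h2.symm
  have hmain : ∀ A ∈ T, dd p A * k ∣ n - 1 := by
    intro A hA
    apply Nat.Coprime.mul_dvd_of_dvd_of_dvd
    · unfold dd
      exact Nat.Coprime.prod_left fun i _ => (hco i).symm
    · exact dd_dvd hinj hp A _ (hpi A hA)
    · exact hk1
  refine ⟨isCarmichael_of_korselt hn1 hnp hsq ?_, ?_⟩
  · intro r hr hrn
    obtain ⟨A, hA, rfl⟩ := hprime r hr hrn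
    rw [Nat.add_sub_cancel]
    exact hmain A hA
  · intro r hr hrn
    obtain ⟨A, hA, rfl⟩ := hprime r hr hrn
    refine ⟨⟨A, hA, rfl⟩, ?_⟩
    haveI : Fact (Nat.Prime 2) := ⟨Nat.prime_two⟩
    rw [Nat.add_sub_cancel, padicValNat.mul (dd_pos hp A).ne' (by omega),
      padicValNat.eq_zero_of_not_dvd (dd_odd hp h3 A), zero_add]

end Pool.Agent.Work.MP_e0aece_nt.Sq

end

section

/-!
# Item D3: the bridge from the residue vector to the abstract setting
-/

namespace Pool.Agent.Work.MP_e0aece_nt.Sq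

open Finset

namespace ItemD3

/-- The homomorphism to the units attached to an additive character. -/
noncomputable def uh {G : Type} [CommGroup G] (φ : AddChar (Additive G) ℂ) : G →* ℂˣ :=
  MonoidHom.toHomUnits
    { toFun := fun u => φ (Additive.ofMul u)
      map_one' := by simp
      map_mul' := fun a b => by rw [ofMul_mul, AddChar.map_add_eq_mul] }

theorem uh_apply {G : Type} [CommGroup G] (φ : AddChar (Additive G) ℂ) (x : G) :
    ((uh φ x : ℂˣ) : ℂ) = φ (Additive.ofMul x) := rfl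

/-- The multiplicative character attached to an additive character. -/
noncomputable def mc {q : ℕ} [Fact q.Prime] (φ : AddChar (Additive (ZMod q)ˣ) ℂ) :
    MulChar (ZMod q) ℂ := MulChar.ofUnitHom (uh φ)

theorem mc_pow_apply {q : ℕ} [Fact q.Prime] (φ : AddChar (Additive (ZMod q)ˣ) ℂ) (n : ℕ)
    (x : (ZMod q)ˣ) : (mc φ ^ n) (x : ZMod q) = (φ ^ n) (Additive.ofMul x) := by
  rw [MulChar.pow_apply_coe, AddChar.pow_apply, mc, MulChar.ofUnitHom_coe, uh_apply]

end ItemD3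

open ItemD3 in
theorem claimD3 : ClaimD3 := by
  intro M lam m k p _ u hu hP B I hIB hB φ ⟨i0, hi0, hne⟩
  have h1 := hP B I hIB hB (fun i => mc (φ i)) ⟨i0, hi0, fun h => hne ?_⟩
  · refine le_of_eq_of_le ?_ h1
    congr 3
    refine congrArg _ (funext fun A => ?_)
    refine Finset.prod_congr rfl fun i _ => ?_
    have h2 : (dd p A : ZMod (p i)) * (u i : ZMod (p i)) + 1
        = ((dd p A * k + 1 : ℕ) : ZMod (p i)) := by
      rw [hu i]; push_cast; ring
    simp only [evk]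
    rw [h2, mc_pow_apply]
  · ext x
    have h3 := mc_pow_apply (φ i0) lam (Additive.toMul x)
    rw [h] at h3
    rw [MulChar.one_apply_coe] at h3
    rw [AddChar.one_apply]
    exact h3.symm

end Pool.Agent.Work.MP_e0aece_nt.Sq

end

section

/-!
# Statements for the lower bound `R x ≥ (log x) ^ (1 - ε)`
-/

namespace Pool.Agent.Work.MP_e0aece_nt.Eps

open Finset Sq

/-! ### Module E: states and the spectrum -/

/-- E1: upper bound for the parameters of a state. -/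
def ClaimE1 : Prop :=
  ∀ (ι : Type) [Fintype ι] [DecidableEq ι] (H : ι → Type) [∀ i, AddCommGroup (H i)]
    [∀ i, Fintype (H i)] (g : Finset ι → ∀ i, H i) (lam m : ℕ) (Y u : ℝ)
    (C : Finset (Finset ι)) (B I : Finset ι) (w : Finset ι → ℝ) (a : ℝ),
    PR g lam m → St2 g lam m Y u C B I w a → a + u * B.card ≤ Y + 1

/-- E2a: the number of pairs with quotient `y` is at most the number of coincidences. -/
def ClaimE2a : Prop :=
  ∀ (ι : Type) (K : ι → Type) [∀ i, CommGroup (K i)] (Ω : Finset (∀ i, K i)) (k : ℕ)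
    (U : Finset ι) (y : ∀ i, K i), Ω.Nonempty →
    (((pairs Ω k).filter fun q => dif U (∏ j, q.1 j) (y * ∏ j, q.2 j) = 0).card : ℝ) ≤
      coll Ω k U * (Ω.card : ℝ) ^ (2 * k)

/-- E2: multiplication of a state by `|Y| ^ (2k)` and restriction to `A ∩ T = J`. -/
def ClaimE2 : Prop :=
  ∀ (ι : Type) [Fintype ι] [DecidableEq ι] (H : ι → Type) [∀ i, AddCommGroup (H i)]
    [∀ i, Fintype (H i)] (g : Finset ι → ∀ i, H i) (lam m : ℕ) (Y u : ℝ)
    (C : Finset (Finset ι)) (B I : Finset ι) (w : Finset ι → ℝ) (a : ℝ)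
    (T J : Finset ι) (k : ℕ) (Ω : Finset (∀ i, AddChar (H i) ℂ))
    (θ : (∀ i, AddChar (H i) ℂ) → ℂ) (r : ℝ),
    St2 g lam m Y u C B I w a → J ⊆ T → Disjoint T B → B.card + T.card ≤ m → Ω.Nonempty →
    (∀ σ ∈ Ω, IsPow lam σ ∧ ∀ i ∈ B, σ i = 1) → (∀ σ ∈ Ω, ‖θ σ‖ ≤ 1) → 0 ≤ r →
    3 * (a + r) ≤ m * Real.log 2 → coll Ω k (T \ J) ≤ Real.exp (-3 * r) →
    Real.exp (u * T.card - 2 * r) * ∑ A, w A ≤
      2 ^ T.card * ∑ A ∈ univ.filter (fun A => A ∩ T = J), w A * ‖Yf g Ω θ A‖ ^ (2 * k) →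
    ∃ w' : Finset ι → ℝ, St2 g lam m Y u C (B ∪ T) (I ∪ J) w' (a + r)

/-- E3: existence of a maximal state. -/
def ClaimE3 : Prop :=
  ∀ (ι : Type) [Fintype ι] [DecidableEq ι] (H : ι → Type) [∀ i, AddCommGroup (H i)]
    [∀ i, Fintype (H i)] (g : Finset ι → ∀ i, H i) (lam m : ℕ) (Y u : ℝ)
    (C : Finset (Finset ι)),
    PR g lam m → 0 ≤ Y → 0 < u → 2 * (Y + 1) ≤ u * m →
    (2 : ℝ) ^ Fintype.card ι * Real.exp (-Y) ≤ C.card →
    ∃ (B I : Finset ι) (w : Finset ι → ℝ) (a : ℝ), Mx g lam m Y u C B I w a ∧ 2 * B.card ≤ m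

/-- E4: a single family has no large Fourier coefficient in a maximal state. -/
def ClaimE4 : Prop :=
  ∀ (ι : Type) [Fintype ι] [DecidableEq ι] (H : ι → Type) [∀ i, AddCommGroup (H i)]
    [∀ i, Fintype (H i)] (g : Finset ι → ∀ i, H i) (lam m : ℕ) (Y u : ℝ)
    (C : Finset (Finset ι)) (B I : Finset ι) (w : Finset ι → ℝ) (a : ℝ)
    (σ : ∀ i, AddChar (H i) ℂ),
    PR g lam m → Mx g lam m Y u C B I w a → 2 * B.card ≤ m → 0 ≤ Y → 0 < u → u ≤ 1 / 100 →
    3 * Y + 4 ≤ m * Real.log 2 →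
    IsPow lam σ → (∀ i ∈ B, σ i = 1) → σ ≠ 1 → ‖hat g w σ‖ ≤ 65 / 100 * ∑ A, w A

/-- E5: non-expansion on small sets in a maximal state. -/
def ClaimE5 : Prop :=
  ∀ (ι : Type) [Fintype ι] [DecidableEq ι] (H : ι → Type) [∀ i, AddCommGroup (H i)]
    [∀ i, Fintype (H i)] (g : Finset ι → ∀ i, H i) (lam m : ℕ) (Y u : ℝ)
    (C : Finset (Finset ι)) (B I : Finset ι) (w : Finset ι → ℝ) (a : ℝ)
    (b : ℝ) (Ω : Finset (∀ i, AddChar (H i) ℂ)) (k : ℕ) (T : Finset ι),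
    PR g lam m → Mx g lam m Y u C B I w a → 2 * B.card ≤ m → 0 ≤ Y → 0 < u →
    0 ≤ b → Ω.Nonempty → (∀ σ ∈ Ω, InSpec g lam B w b σ) → 1 ≤ k → T.Nonempty → Disjoint T B →
    2 * T.card ≤ m →
    3 * Y + 3 + 3 * k * b + 3 / 2 * u * T.card + 21 / 20 ≤ m * Real.log 2 →
    Real.exp (-(5 * k * b + 5 / 2 * u * T.card + 7 / 4)) * (Ω.card : ℝ) ^ (2 * k) ≤
      ∑ q ∈ pairs Ω k, (1 / 2 : ℝ) ^ dif T (∏ j, q.1 j) (∏ j, q.2 j)

/-- E6: averaging over transversals. -/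
def ClaimE6 : Prop :=
  ∀ (ι τ : Type) [DecidableEq ι] (P : Finset τ) (D : τ → Finset ι) (U : Finset ι) (t : ℕ) (v : ℝ),
    1 ≤ t → t ≤ U.card → (∀ q ∈ P, D q ⊆ U) →
    (∀ T : Finset ι, T ⊆ U → T.card = t → v ≤ ∑ q ∈ P, (1 / 2 : ℝ) ^ (D q ∩ T).card) →
    v ≤ ∑ q ∈ P, Real.exp (-(((D q).card : ℝ) / (2 * (((U.card + t - 1) / t : ℕ) : ℝ))))

/-- E7: non-expansion on all sets. -/
def ClaimE7 : Prop :=
  ∀ (ι : Type) [DecidableEq ι] (K : ι → Type) [∀ i, CommGroup (K i)] (Ω : Finset (∀ i, K i))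
    (V : Finset ι) (M m : ℕ) (u b : ℝ),
    0 < b → 0 < u → u ≤ 1 / 100 → 100 ≤ m → m ≤ M → V.card ≤ M →
    (∀ Ω' : Finset (∀ i, K i), Ω' ⊆ Ω → Ω'.Nonempty → ∀ k : ℕ, 1 ≤ k → 6 * k * b ≤ m →
      ∀ T : Finset ι, T ⊆ V → T.Nonempty → 2 * T.card ≤ m →
      Real.exp (-(5 * k * b + 5 / 2 * u * T.card + 7 / 4)) * (Ω'.card : ℝ) ^ (2 * k) ≤
        ∑ q ∈ pairs Ω' k, (1 / 2 : ℝ) ^ dif T (∏ j, q.1 j) (∏ j, q.2 j)) →
    NE Ω V u (8 * b + 6) (12 * ((M : ℝ) / m) * (8 * b + 6)) (m / (6 * b))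

/-- E8: choice of a scale. -/
def ClaimE8 : Prop :=
  ∀ (f : ℕ → ℝ) (L : ℝ) (n : ℕ), 0 ≤ L → 0 < f 0 → 1 ≤ n →
    Real.exp (L * (12 * Real.log n + 1)) * f 0 < f n →
    ∃ ρ : ℕ, 1 ≤ ρ ∧ ρ ≤ n ∧ Real.exp L * f (11 * ρ / 12) ≤ f ρ

/-- E9: a Hamming ball is covered by few points. -/
def ClaimE9 : Prop :=
  ∀ (ι : Type) (K : ι → Type) [∀ i, Fintype (K i)] (Ω : Finset (∀ i, K i)) (U : Finset ι)
    (c : ∀ i, K i) (Z n N : ℕ), 1 ≤ Z → (∀ i, Fintype.card (K i) ≤ Z) →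
    (∀ c' : ∀ i, K i, (Ω.filter fun x => dif U x c' = 0).card ≤ N) →
    (Ω.filter fun x => dif U x c ≤ n).card ≤ ((U.card + 1) * Z) ^ n * N

/-- E11a: lower bound for the number of coordinates at which a product differs from `c`. -/
def ClaimE11a : Prop :=
  ∀ (ι : Type) [DecidableEq ι] (K : ι → Type) [∀ i, CommGroup (K i)] (U : Finset ι)
    (c : ∀ i, K i) (k : ℕ) (p : Fin k → ∀ i, K i),
    ∑ j : Fin k, ((dif U (p j) 1 : ℤ) -
        2 * (dif (hist U c fun l : Fin j => p (l.castLE j.isLt.le)) (p j) 1 : ℤ)) ≤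
      (dif U (∏ j, p j) c : ℤ)

open Classical in
/-- E11b: an exponential moment bound. -/
def ClaimE11b : Prop :=
  ∀ (α : Type) (Ω : Finset α) (k : ℕ) (bad : (n : ℕ) → (Fin n → α) → α → Prop) (L : ℝ), 0 ≤ L →
    (∀ n < k, ∀ h : Fin n → α, (∀ j, h j ∈ Ω) →
      ((Ω.filter fun x => bad n h x).card : ℝ) ≤ 2 * (Ω.card * Real.exp (-L))) →
    (((Fintype.piFinset fun _ : Fin k => Ω).filter fun p =>
      k ≤ 4 * (univ.filter fun j : Fin k =>
        bad j (fun l : Fin j => p (l.castLE j.isLt.le)) (p j)).card).card : ℝ) ≤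
      (3 * (Ω.card : ℝ)) ^ k * Real.exp (-(L * k / 4))

/-- E11: products of sparse random elements do not concentrate. -/
def ClaimE11 : Prop :=
  ∀ (ι : Type) [DecidableEq ι] (K : ι → Type) [∀ i, CommGroup (K i)] (Ω : Finset (∀ i, K i))
    (U : Finset ι) (c : ∀ i, K i) (n k : ℕ) (L : ℝ), 1 ≤ n → 1 ≤ k → 0 ≤ L →
    (∀ x ∈ Ω, dif U x 1 ≤ n) →
    ((Ω.filter fun x => dif U x 1 ≤ 11 * n / 12).card : ℝ) ≤ Ω.card * Real.exp (-L) →
    (∀ W : Finset ι, W ⊆ U → W.card ≤ 2 * k * n →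
      ((Ω.filter fun x => n ≤ 12 * dif W x 1).card : ℝ) ≤ Ω.card * Real.exp (-L)) →
    dif U c 1 ≤ k * n →
    (((Fintype.piFinset fun _ : Fin k => Ω).filter
      fun p => 4 * dif U (∏ j, p j) c ≤ k * n).card : ℝ) ≤
      (3 * (Ω.card : ℝ)) ^ k * Real.exp (-(L * k / 4))

/-- E12a: the consequence of non-expansion for a set in a Hamming ball. -/
def ClaimE12a : Prop :=
  ∀ (ι : Type) [DecidableEq ι] (K : ι → Type) [∀ i, CommGroup (K i)] (Ω : Finset (∀ i, K i))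
    (U : Finset ι) (c₀ : ∀ i, K i) (n k : ℕ) (β : ℝ), 1 ≤ n → 1 ≤ k → 0 ≤ β → Ω.Nonempty →
    (∀ x ∈ Ω, dif U x c₀ ≤ n) →
    ((Ω.filter fun x => dif U x c₀ ≤ 11 * n / 12).card : ℝ) ≤ Ω.card * Real.exp (-(4 * β + 5)) →
    Real.exp (-(k * β)) * (Ω.card : ℝ) ^ (2 * k) ≤
      (((pairs Ω k).filter fun q => 4 * dif U (∏ j, q.1 j) (∏ j, q.2 j) ≤ k * n).card : ℝ) →
    ∃ W : Finset ι, W ⊆ U ∧ W.card ≤ 2 * k * n ∧
      Ω.card * Real.exp (-(4 * β + 5)) < ((Ω.filter fun x => n ≤ 12 * dif W x c₀).card : ℝ)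

/-- E12b: the induction step for E12. -/
def ClaimE12b : Prop :=
  ∀ (ι : Type) [Fintype ι] [DecidableEq ι] (K : ι → Type) [∀ i, CommGroup (K i)]
    [∀ i, Fintype (K i)] (Ω : Finset (∀ i, K i)) (V : Finset ι) (Z : ℕ)
    (u β β₁ R₀ kmax S D : ℝ),
    2 ≤ Z → (∀ i, Fintype.card (K i) ≤ Z) → 0 < u → u ≤ 1 / 1000 → 6 ≤ β → β ≤ β₁ →
    NE Ω V u β β₁ kmax → 30 * u * V.card / β₁ + 1 ≤ kmax → 30 * u * V.card + β₁ ≤ R₀ →
    8 * (β₁ / β) * Real.log ((V.card + 1) * Z) + 6 ≤ S →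
    (∀ W : Finset ι, W ⊆ V → (W.card : ℝ) ≤ D → ∀ Ω₁ : Finset (∀ i, K i), Ω₁ ⊆ Ω → Ω₁.Nonempty →
      ∃ c : ∀ i, K i,
        Ω₁.card * Real.exp (-(β * S)) ≤ ((Ω₁.filter fun x => dif W x c = 0).card : ℝ)) →
    ∀ U : Finset ι, U ⊆ V → 550 * u * (U.card : ℝ) ≤ D → ∀ Ω₁ : Finset (∀ i, K i), Ω₁ ⊆ Ω →
      Ω₁.Nonempty → ∃ c : ∀ i, K i,
        Ω₁.card * Real.exp (-(β * (2 * (12 * Real.log R₀ + 2) * S))) ≤
          ((Ω₁.filter fun x => dif U x c = 0).card : ℝ)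

/-- E12: a set with non-expansion is small. -/
def ClaimE12 : Prop :=
  ∀ (ι : Type) [Fintype ι] [DecidableEq ι] (K : ι → Type) [∀ i, CommGroup (K i)]
    [∀ i, Fintype (K i)] (Ω : Finset (∀ i, K i)) (V : Finset ι) (Z J : ℕ)
    (u β β₁ R₀ kmax : ℝ),
    2 ≤ Z → (∀ i, Fintype.card (K i) ≤ Z) → 0 < u → u ≤ 1 / 1000 → 6 ≤ β → β ≤ β₁ →
    NE Ω V u β β₁ kmax → 30 * u * V.card / β₁ + 1 ≤ kmax → 30 * u * V.card + β₁ ≤ R₀ →
    (∀ x ∈ Ω, ∀ y ∈ Ω, dif V x y = 0 → x = y) → (V.card : ℝ) * (550 * u) ^ J < 1 →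
    (Ω.card : ℝ) ≤ Real.exp (β * ((2 * (12 * Real.log R₀ + 2)) ^ J *
      (8 * (β₁ / β) * Real.log ((V.card + 1) * Z) + 6)))

/-- E13: a dyadic sum. -/
def ClaimE13 : Prop :=
  ∀ (τ : Type) (P : Finset τ) (f : τ → ℝ) (J S μ : ℝ) (s : ℕ), 1 ≤ S → 40 * S ≤ s → 0 < μ →
    2 * (J + 2) ≤ s * μ → (∀ σ ∈ P, 0 ≤ f σ ∧ f σ ≤ 65 / 100) → (P.card : ℝ) ≤ Real.exp J →
    (∀ b : ℝ, 2 / 5 ≤ b → b ≤ μ → ∀ P' : Finset τ, P' ⊆ P → (∀ σ ∈ P', Real.exp (-b) ≤ f σ) →
      (P'.card : ℝ) ≤ Real.exp ((8 * b + 6) * S)) →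
    ∑ σ ∈ P, f σ ^ s ≤ 1 / 2

/-- E14: the spectrum of a maximal state. -/
def ClaimE14 : Prop :=
  ∀ (ι : Type) [Fintype ι] [DecidableEq ι] (H : ι → Type) [∀ i, AddCommGroup (H i)]
    [∀ i, Fintype (H i)] (g : Finset ι → ∀ i, H i) (lam m y Z Jr s : ℕ) (u : ℝ)
    (C : Finset (Finset ι)) (B I : Finset ι) (w : Finset ι → ℝ) (a : ℝ)
    (P : Finset (∀ i, AddChar (H i) ℂ)),
    2 ≤ Z → (∀ i, Fintype.card (H i) ≤ Z) → PR g lam m → 100 ≤ m → 20 * m ≤ Fintype.card ι →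
    0 < u → u ≤ 1 / 1000 → 2 * ((y : ℝ) + 1) ≤ u * m →
    (Fintype.card ι : ℝ) * (550 * u) ^ Jr < 1 →
    Mx g lam m (y * Real.log 2) u C B I w a → 2 * B.card ≤ m →
    40 * ((2 * (12 * Real.log (6 * (Fintype.card ι : ℝ)) + 2)) ^ Jr *
      (96 * ((Fintype.card ι : ℝ) / m) * Real.log (((Fintype.card ι : ℝ) + 1) * Z) + 6)) ≤ s →
    40 * ((Fintype.card ι : ℝ) * Real.log Z + 2) ≤ s * m →
    (∀ σ ∈ P, IsPow lam σ ∧ (∀ i ∈ B, σ i = 1) ∧ σ ≠ 1) →
    ∑ σ ∈ P, ‖hat g w σ‖ ^ s ≤ 1 / 2 * (∑ A, w A) ^ s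

/-! ### Module F: short zero sums -/

/-- F1: equidistribution of the sums modulo the `lam`-torsion (upper bound). -/
def ClaimF1 : Prop :=
  ∀ (G Ω : Type) [AddCommGroup G] [Fintype G] [DecidableEq G] [Fintype Ω] (gg : Ω → G)
    (w : Ω → ℝ) (lam s t : ℕ) (x : G), (∀ a, 0 ≤ w a) →
    (∀ P : Finset (AddChar G ℂ), (∀ χ ∈ P, χ ≠ 1 ∧ ∃ φ : AddChar G ℂ, χ = φ ^ lam) →
      ∑ χ ∈ P, ‖∑ a, (w a : ℂ) * χ (gg a)‖ ^ s ≤ 1 / 2 * (∑ a, w a) ^ s) → s ≤ t →
    (Fintype.card G : ℝ) * ∑ y ∈ univ.filter (fun y => lam • y = lam • x), rr gg w t y ≤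
      3 / 2 * (∑ a, w a) ^ t * ((univ.filter fun y : G => lam • y = 0).card : ℝ)

/-- F2: a dense set in a finite abelian group has a short zero sum (with repetitions). -/
def ClaimF2 : Prop :=
  ∀ (G : Type) [AddCommGroup G] [Fintype G] (X : Finset G), X.Nonempty →
    ∃ (l : ℕ) (y : Fin l → G), 1 ≤ l ∧ l * X.card ^ 3 ≤ 2 * Fintype.card G ^ 3 ∧
      (∀ i, y i ∈ X) ∧ ∑ i, y i = 0

/-- F3a: the choice of a good subset of the indices. -/
def ClaimF3a : Prop :=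
  ∀ (G Ω : Type) [AddCommGroup G] [Fintype G] [DecidableEq G] [Fintype Ω] (gg : Ω → G)
    (w : Ω → ℝ) (lam s l : ℕ) (Θ : ℝ), (∀ a, 0 ≤ w a) → 0 < ∑ a, w a → 1 < Θ →
    (∀ t : ℕ, s ≤ t → ∀ x : G,
      (Fintype.card G : ℝ) * ∑ y ∈ univ.filter (fun y => lam • y = lam • x), rr gg w t y ≤
        3 / 2 * (∑ a, w a) ^ t * ((univ.filter fun y : G => lam • y = 0).card : ℝ)) →
    3 * ((univ.filter fun y : G => lam • y = 0).card : ℝ) < Θ ^ (l + 1) →
    ∀ p : Fin (s + l + 2) → Ω,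
      (∑ a, w a) ^ (s + l + 2) ≤
        2 * (Fintype.card G : ℝ) * rr gg w (s + l + 2) (∑ k, gg (p k)) →
      ∃ S : Finset (Fin (s + l + 2)), s + 2 ≤ S.card ∧ GoodS gg w Θ p S

open Classical in
/-- F3b: the weight of the tuples that are good on `S`. -/
def ClaimF3b : Prop :=
  ∀ (G Ω : Type) [AddCommGroup G] [Fintype G] [DecidableEq G] [Fintype Ω] (gg : Ω → G)
    (w : Ω → ℝ) (Θ : ℝ) (t : ℕ) (S : Finset (Fin t)),
    ∑ p ∈ univ.filter (fun p : Fin t → Ω => GoodS gg w Θ p S), ∏ k, w (p k) =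
      (∑ a, w a) ^ (t - S.card) *
        ∑ p ∈ univ.filter (fun p : Fin S.card → Ω => Good gg w Θ S.card p), ∏ k, w (p k)

open Classical in
/-- F3: a large proportion of the tuples is good. -/
def ClaimF3 : Prop :=
  ∀ (G Ω : Type) [AddCommGroup G] [Fintype G] [DecidableEq G] [Fintype Ω] (gg : Ω → G)
    (w : Ω → ℝ) (lam s l : ℕ) (Θ : ℝ), (∀ a, 0 ≤ w a) → 0 < ∑ a, w a → 1 < Θ →
    (∀ t : ℕ, s ≤ t → ∀ x : G,
      (Fintype.card G : ℝ) * ∑ y ∈ univ.filter (fun y => lam • y = lam • x), rr gg w t y ≤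
        3 / 2 * (∑ a, w a) ^ t * ((univ.filter fun y : G => lam • y = 0).card : ℝ)) →
    3 * ((univ.filter fun y : G => lam • y = 0).card : ℝ) < Θ ^ (l + 1) →
    ∃ t : ℕ, s + 2 ≤ t ∧ t ≤ s + l + 2 ∧
      (∑ a, w a) ^ t ≤ 2 * ((s : ℝ) + l + 3) ^ l *
        ∑ p ∈ univ.filter (fun p : Fin t → Ω => Good gg w Θ t p), ∏ k, w (p k)

open Classical in
/-- F4: extraction of a tuple of distinct elements that avoids a given set. -/
def ClaimF4 : Prop :=
  ∀ (G Ω : Type) [AddCommGroup G] [Fintype G] [DecidableEq G] [Fintype Ω] (gg : Ω → G)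
    (w : Ω → ℝ) (Θ W α : ℝ) (t : ℕ) (x : G) (E : Finset Ω), (∀ a, 0 ≤ w a) → 0 < ∑ a, w a →
    0 < W → (∀ a, w a * W ≤ ∑ a, w a) → 1 ≤ Θ → 0 < rr gg w t x →
    α * rr gg w t x ≤ ∑ p ∈ univ.filter
      (fun p : Fin t → Ω => Good gg w Θ t p ∧ ∑ k, gg (p k) = x), ∏ k, w (p k) →
    (t : ℝ) ^ 2 * Θ ^ 2 + t * E.card * Θ < α * W →
    ∃ p : Fin t → Ω, Function.Injective p ∧ (∀ k, p k ∉ E ∧ w (p k) ≠ 0) ∧ ∑ k, gg (p k) = x

open Classical in
/-- F5a: the density of the set of sums with many good representations. -/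
def ClaimF5a : Prop :=
  ∀ (G Ω : Type) [AddCommGroup G] [Fintype G] [DecidableEq G] [Fintype Ω] (gg : Ω → G)
    (w : Ω → ℝ) (lam t : ℕ) (Θ α : ℝ), (∀ a, 0 ≤ w a) → 0 < ∑ a, w a → 0 < α →
    (∀ x : G,
      (Fintype.card G : ℝ) * ∑ y ∈ univ.filter (fun y => lam • y = lam • x), rr gg w t y ≤
        3 / 2 * (∑ a, w a) ^ t * ((univ.filter fun y : G => lam • y = 0).card : ℝ)) →
    α * (∑ a, w a) ^ t ≤
      ∑ p ∈ univ.filter (fun p : Fin t → Ω => Good gg w Θ t p), ∏ k, w (p k) →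
    α * (Fintype.card G : ℝ) ≤ 3 * ((univ.filter fun y : G => ∃ x : G, lam • y = lam • x ∧
      0 < rr gg w t x ∧ α / 2 * rr gg w t x ≤ ∑ p ∈ univ.filter
        (fun p : Fin t → Ω => Good gg w Θ t p ∧ ∑ k, gg (p k) = x), ∏ k, w (p k)).card : ℝ)

open Classical in
/-- F5b: disjoint tuples with prescribed sums. -/
def ClaimF5b : Prop :=
  ∀ (G Ω : Type) [AddCommGroup G] [Fintype G] [DecidableEq G] [Fintype Ω] (gg : Ω → G)
    (w : Ω → ℝ) (Θ W α : ℝ) (t n : ℕ) (x : Fin n → G), (∀ a, 0 ≤ w a) → 0 < ∑ a, w a →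
    0 < W → (∀ a, w a * W ≤ ∑ a, w a) → 1 ≤ Θ → (∀ i, 0 < rr gg w t (x i)) →
    (∀ i, α * rr gg w t (x i) ≤ ∑ p ∈ univ.filter
      (fun p : Fin t → Ω => Good gg w Θ t p ∧ ∑ k, gg (p k) = x i), ∏ k, w (p k)) →
    (t : ℝ) ^ 2 * Θ ^ 2 + t * (n * t) * Θ < α * W →
    ∃ T : Finset Ω, T.card = n * t ∧ (∀ a ∈ T, w a ≠ 0) ∧ ∑ a ∈ T, gg a = ∑ i, x i

/-- F5: short zero sums, from equidistribution modulo the `lam`-torsion. -/
def ClaimF5 : Prop :=
  ∀ (G Ω : Type) [AddCommGroup G] [Fintype G] [DecidableEq G] [Fintype Ω] (gg : Ω → G)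
    (w : Ω → ℝ) (lam s l smax : ℕ) (Θ W : ℝ), 1 ≤ lam → (∀ a, 0 ≤ w a) → 0 < ∑ a, w a →
    1 < Θ → (∀ a, w a * W ≤ ∑ a, w a) →
    (∀ t : ℕ, s ≤ t → ∀ x : G,
      (Fintype.card G : ℝ) * ∑ y ∈ univ.filter (fun y => lam • y = lam • x), rr gg w t y ≤
        3 / 2 * (∑ a, w a) ^ t * ((univ.filter fun y : G => lam • y = 0).card : ℝ)) →
    3 * ((univ.filter fun y : G => lam • y = 0).card : ℝ) < Θ ^ (l + 1) →
    smax = 432 * (s + l + 3) ^ (3 * l) * lam * (s + l + 2) →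
    8 * (smax : ℝ) ^ 2 * Θ ^ 2 ≤ W →
    ∃ T : Finset Ω, 2 ≤ T.card ∧ T.card ≤ smax ∧ (∀ a ∈ T, w a ≠ 0) ∧ ∑ a ∈ T, gg a = 0

/-- En: the total weight of a maximal state is large. -/
def ClaimEn : Prop :=
  ∀ (ι : Type) [Fintype ι] [DecidableEq ι] (H : ι → Type) [∀ i, AddCommGroup (H i)]
    [∀ i, Fintype (H i)] (g : Finset ι → ∀ i, H i) (lam m y : ℕ) (u : ℝ)
    (C : Finset (Finset ι)) (B I : Finset ι) (w : Finset ι → ℝ) (a : ℝ),
    PR g lam m → St2 g lam m (y * Real.log 2) u C B I w a → 2 * B.card ≤ m → 100 ≤ m →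
    20 * m ≤ Fintype.card ι → 0 < u → u ≤ 1 / 1000 → 2 * ((y : ℝ) + 1) ≤ u * m →
    (2 : ℝ) ^ ((9 / 10 : ℝ) * Fintype.card ι) ≤ ∑ A, w A

/-- The abstract theorem: short zero sums in every dense set. -/
def ClaimEps : Prop :=
  ∀ (ι : Type) [Fintype ι] [DecidableEq ι] (H : ι → Type) [∀ i, AddCommGroup (H i)]
    [∀ i, Fintype (H i)] [∀ i, DecidableEq (H i)] (g : Finset ι → ∀ i, H i)
    (lam m y Z Jr s l smax : ℕ) (u : ℝ) (C : Finset (Finset ι)),
    1 ≤ lam → 2 ≤ Z → (∀ i, Fintype.card (H i) ≤ Z) →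
    (∀ i, (univ.filter fun x : H i => lam • x = 0).card ≤ lam) →
    PR g lam m → 100 ≤ m → 20 * m ≤ Fintype.card ι →
    0 < u → u ≤ 1 / 1000 → 2 * ((y : ℝ) + 1) ≤ u * m →
    (Fintype.card ι : ℝ) * (550 * u) ^ Jr < 1 →
    2 ^ Fintype.card ι ≤ C.card * 2 ^ y →
    40 * ((2 * (12 * Real.log (6 * (Fintype.card ι : ℝ)) + 2)) ^ Jr *
      (96 * ((Fintype.card ι : ℝ) / m) * Real.log (((Fintype.card ι : ℝ) + 1) * Z) + 6)) ≤ s →
    40 * ((Fintype.card ι : ℝ) * Real.log Z + 2) ≤ s * m →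
    3 * (lam : ℝ) ^ Fintype.card ι < (2 : ℝ) ^ ((2 / 5 : ℝ) * Fintype.card ι * (l + 1)) →
    smax = 432 * (s + l + 3) ^ (3 * l) * lam * (s + l + 2) →
    8 * (smax : ℝ) ^ 2 ≤ (2 : ℝ) ^ ((1 / 20 : ℝ) * Fintype.card ι) →
    ∃ (B I : Finset ι) (T : Finset (Finset ι)), I ⊆ B ∧ B.card ≤ m ∧ T ⊆ C ∧ 2 ≤ T.card ∧
      T.card ≤ smax ∧ (∀ A ∈ T, A ∩ B = I) ∧ ∀ i, i ∉ B → ∑ A ∈ T, g A i = 0

/-! ### Module G: Carmichael numbers and the final bound -/

/-- G5a: the first part of the numerical conditions. -/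
def ClaimG5a : Prop :=
  ∀ ε : ℝ, 0 < ε → ε ≤ 1 / 10 → ∃ Jr M0 : ℕ, ∀ M, M0 ≤ M →
    ∃ m : ℕ, (m : ℝ) * (Real.log M) ^ 4 ≤ M ∧ (M : ℝ) ≤ 2 * m * (Real.log M) ^ 4 ∧
      100 ≤ m ∧ 20 * m ≤ M ∧ (M : ℝ) ^ (-ε) ≤ 1 / 1000 ∧
      2 * (((2 * ⌊(M : ℝ) ^ (1 - 2 * ε)⌋₊ : ℕ) : ℝ) + 1) ≤ (M : ℝ) ^ (-ε) * m ∧
      (M : ℝ) * (550 * (M : ℝ) ^ (-ε)) ^ Jr < 1 ∧
      M ^ 3 ≤ 2 ^ ⌊(M : ℝ) ^ (1 - 2 * ε)⌋₊ ∧
      Real.log (XM M) / Real.log 2 ≤ (M : ℝ) ^ 2

/-- G5b: the second part of the numerical conditions. -/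
def ClaimG5b : Prop :=
  ∀ (ε : ℝ) (Jr : ℕ), 0 < ε → ∃ M0 : ℕ, ∀ M, M0 ≤ M →
    ∀ lam m : ℕ, 1 ≤ lam → (lam : ℝ) ≤ 5 * (Real.log M) ^ 9 → 1 ≤ m →
    (M : ℝ) ≤ 2 * m * (Real.log M) ^ 4 →
    ∃ s l smax : ℕ,
      40 * ((2 * (12 * Real.log (6 * (M : ℝ)) + 2)) ^ Jr *
        (96 * ((M : ℝ) / m) * Real.log (((M : ℝ) + 1) * ((4 * M ^ 20 : ℕ) : ℝ)) + 6)) ≤ s ∧
      40 * ((M : ℝ) * Real.log ((4 * M ^ 20 : ℕ) : ℝ) + 2) ≤ s * m ∧
      3 * (lam : ℝ) ^ M < (2 : ℝ) ^ ((2 / 5 : ℝ) * M * (l + 1)) ∧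
      smax = 432 * (s + l + 3) ^ (3 * l) * lam * (s + l + 2) ∧
      8 * (smax : ℝ) ^ 2 ≤ (2 : ℝ) ^ ((1 / 20 : ℝ) * M) ∧
      (smax : ℝ) * Real.log (2 * (XM M : ℝ) + 1) ≤ (M : ℝ) ^ (1 + 5 * ε)

/-- G5: the numerical conditions. -/
def ClaimG5 : Prop :=
  ∀ ε : ℝ, 0 < ε → ε ≤ 1 / 10 → ∃ Jr M0 : ℕ, ∀ M, M0 ≤ M →
    ∀ lam : ℕ, 1 ≤ lam → (lam : ℝ) ≤ 5 * (Real.log M) ^ 9 →
    ∃ m s l smax : ℕ, (m : ℝ) * (Real.log M) ^ 4 ≤ M ∧ 100 ≤ m ∧ 20 * m ≤ M ∧
      (M : ℝ) ^ (-ε) ≤ 1 / 1000 ∧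
      2 * (((2 * ⌊(M : ℝ) ^ (1 - 2 * ε)⌋₊ : ℕ) : ℝ) + 1) ≤ (M : ℝ) ^ (-ε) * m ∧
      (M : ℝ) * (550 * (M : ℝ) ^ (-ε)) ^ Jr < 1 ∧
      40 * ((2 * (12 * Real.log (6 * (M : ℝ)) + 2)) ^ Jr *
        (96 * ((M : ℝ) / m) * Real.log (((M : ℝ) + 1) * ((4 * M ^ 20 : ℕ) : ℝ)) + 6)) ≤ s ∧
      40 * ((M : ℝ) * Real.log ((4 * M ^ 20 : ℕ) : ℝ) + 2) ≤ s * m ∧
      3 * (lam : ℝ) ^ M < (2 : ℝ) ^ ((2 / 5 : ℝ) * M * (l + 1)) ∧
      smax = 432 * (s + l + 3) ^ (3 * l) * lam * (s + l + 2) ∧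
      8 * (smax : ℝ) ^ 2 ≤ (2 : ℝ) ^ ((1 / 20 : ℝ) * M) ∧
      M ^ 3 ≤ 2 ^ ⌊(M : ℝ) ^ (1 - 2 * ε)⌋₊ ∧
      (smax : ℝ) * Real.log (2 * (XM M : ℝ) + 1) ≤ (M : ℝ) ^ (1 + 5 * ε) ∧
      Real.log (XM M) / Real.log 2 ≤ (M : ℝ) ^ 2

/-- G4: the chromatic numbers of Carmichael numbers. -/
def ClaimG4 : Prop :=
  ∀ ε : ℝ, 0 < ε → ε ≤ 1 / 10 → ∃ M0 : ℕ, ∀ M, M0 ≤ M →
    ∃ v : ℕ, 1 ≤ v ∧ v ≤ M ^ 2 ∧ ∀ x : ℝ, Real.exp ((M : ℝ) ^ (1 + 5 * ε)) ≤ x →
      2 ^ ⌊(M : ℝ) ^ (1 - 2 * ε)⌋₊ < chi v x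

/-- The final theorem. -/
def ClaimFinalEps : Prop :=
  ∀ ε : ℝ, 0 < ε → ∀ᶠ x : ℝ in Filter.atTop, (Real.log x) ^ (1 - ε) ≤ (R x : ℝ)

end Pool.Agent.Work.MP_e0aece_nt.Eps

end

section

/-!
# ItemDF: the final theorem from the chromatic numbers
-/

namespace Pool.Agent.Work.MP_e0aece_nt.Sq

open Finset

namespace ItemDF

open Filter

theorem tendsto_key :
    Tendsto (fun l : ℝ => Real.sqrt l / (Real.log l) ^ 30) atTop atTop := by
  rw [tendsto_atTop]
  intro B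
  have hB : (0 : ℝ) < max B 1 := lt_of_lt_of_le one_pos (le_max_right _ _)
  have h := (Real.isLittleO_pow_log_id_atTop (n := 30)).def
    (show (0 : ℝ) < 1 / (max B 1 * 2 ^ 30) by positivity)
  have h' := Real.tendsto_sqrt_atTop.eventually h
  filter_upwards [h', eventually_gt_atTop 1] with l hl hl1
  have hs : 0 ≤ Real.sqrt l := Real.sqrt_nonneg l
  have hl0 : 0 ≤ l := by linarith
  have hlogl : 0 < Real.log l := Real.log_pos hl1
  have hlogs : Real.log (Real.sqrt l) = Real.log l / 2 := Real.log_sqrt hl0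
  rw [id, Real.norm_of_nonneg hs, hlogs,
    Real.norm_of_nonneg (pow_nonneg (by positivity) _)] at hl
  rw [le_div_iff₀ (by positivity)]
  have h3 : (Real.log l) ^ 30 = 2 ^ 30 * (Real.log l / 2) ^ 30 := by
    rw [← mul_pow]
    congr 1
    ring
  calc B * (Real.log l) ^ 30 ≤ max B 1 * (Real.log l) ^ 30 :=
        mul_le_mul_of_nonneg_right (le_max_left _ _) (by positivity)
    _ = (max B 1 * 2 ^ 30) * (Real.log l / 2) ^ 30 := by rw [h3]; ring
    _ ≤ (max B 1 * 2 ^ 30) * (1 / (max B 1 * 2 ^ 30) * Real.sqrt l) :=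
        mul_le_mul_of_nonneg_left hl (by positivity)
    _ = Real.sqrt l := by
        field_simp

theorem ylarge : ∃ Y0 : ℕ, ∀ y : ℕ, Y0 ≤ y →
    32 ≤ Real.log (y : ℝ) ∧ (Real.log (y : ℝ)) ^ 6 ≤ (y : ℝ) / 2 := by
  have h1 : ∀ᶠ y : ℕ in atTop, (32 : ℝ) ≤ Real.log (y : ℝ) :=
    (Real.tendsto_log_atTop.comp tendsto_natCast_atTop_atTop).eventually_ge_atTop 32
  have h2 : ∀ᶠ y : ℕ in atTop, (Real.log (y : ℝ)) ^ 6 ≤ (y : ℝ) / 2 := by
    have h := (Real.isLittleO_pow_log_id_atTop (n := 6)).def (show (0 : ℝ) < 1 / 2 by norm_num)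
    have h' := (tendsto_natCast_atTop_atTop (R := ℝ)).eventually h
    filter_upwards [h'] with y hy
    rw [id, Real.norm_of_nonneg (Nat.cast_nonneg y),
      Real.norm_of_nonneg (pow_nonneg (Real.log_natCast_nonneg y) _)] at hy
    linarith
  obtain ⟨Y0, hY0⟩ := eventually_atTop.1 (h1.and h2)
  exact ⟨Y0, fun y hy => hY0 y hy⟩

/-- from the chromatic number to `R`. -/
theorem R_lower {x : ℝ} {v M y : ℕ} (hv : 1 ≤ v) (hvM : v ≤ M ^ 2) (hM : 2 ≤ M)
    (h : 2 ^ y < chi v x) : (y : ℝ) * Real.log 2 ≤ (R x : ℝ) * (3 * Real.log M) := by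
  have h1 : Nat.clog (v + 2) (chi v x) ≤ R x := clog_le_R hv
  have h2 : chi v x ≤ (v + 2) ^ R x := (Nat.clog_le_iff_le_pow (by omega)).1 h1
  have h3 : 2 ^ y ≤ (v + 2) ^ R x := h.le.trans h2
  have h4 : v + 2 ≤ M ^ 3 := by
    have : M ^ 2 + 2 ≤ M ^ 3 := by
      obtain ⟨n, rfl⟩ := Nat.exists_eq_add_of_le hM
      nlinarith [Nat.zero_le n, Nat.zero_le (n ^ 2), Nat.zero_le (n ^ 3)]
    omega
  have h5 : 2 ^ y ≤ (M ^ 3) ^ R x := h3.trans (Nat.pow_le_pow_left h4 _)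
  have h6 : (2 : ℝ) ^ y ≤ ((M : ℝ) ^ 3) ^ R x := by exact_mod_cast h5
  have h7 := Real.log_le_log (by positivity) h6
  rw [Real.log_pow, Real.log_pow, Real.log_pow] at h7
  exact_mod_cast h7

end ItemDF

open ItemDF Filter in
theorem claimFinal (hD4 : ClaimD4) : ClaimFinal := by
  obtain ⟨M0, hD4⟩ := hD4
  obtain ⟨Y0, hY⟩ := ylarge
  refine ⟨32, by norm_num, ?_⟩
  have e1 : ∀ᶠ x : ℝ in atTop, 24 ≤ Real.log (Real.log x) :=
    (Real.tendsto_log_atTop.comp Real.tendsto_log_atTop).eventually_ge_atTop 24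
  have e2 : ∀ᶠ x : ℝ in atTop, ((Y0 + M0 + 3 : ℕ) : ℝ) ≤
      Real.sqrt (Real.log x) / (Real.log (Real.log x)) ^ 30 :=
    (tendsto_key.comp Real.tendsto_log_atTop).eventually_ge_atTop _
  filter_upwards [e1, e2, eventually_gt_atTop 1] with x h1 h2 hx1
  set l : ℝ := Real.log x with hl
  set lam : ℝ := Real.log l with hlam
  have hl0 : 0 < l := Real.log_pos hx1
  have hlam0 : 0 < lam := by linarith
  set q : ℝ := Real.sqrt l / lam ^ 30 with hq
  obtain ⟨y, hy⟩ : ∃ y : ℕ, y = ⌊q⌋₊ := ⟨_, rfl⟩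
  have hq3 : ((Y0 + M0 + 3 : ℕ) : ℝ) ≤ q := h2
  have hq0 : 0 ≤ q := le_trans (Nat.cast_nonneg _) hq3
  have hyq : (y : ℝ) ≤ q := by rw [hy]; exact Nat.floor_le hq0
  have hyq' : q < y + 1 := by rw [hy]; exact Nat.lt_floor_add_one q
  have hyY : Y0 + M0 + 3 ≤ y := by rw [hy]; exact Nat.le_floor hq3
  obtain ⟨hlog32, hlog6⟩ := hY y (by omega)
  set g : ℝ := Real.log (y : ℝ) with hg
  have hypos : (0 : ℝ) < y := by
    have : 0 < y := by omega
    exact_mod_cast this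
  have hy3 : (3 : ℝ) ≤ y := by
    have : 3 ≤ y := by omega
    exact_mod_cast this
  have hg0 : 0 < g := by linarith
  have hg1 : 1 ≤ g ^ 6 := one_le_pow₀ (by linarith)
  obtain ⟨M, hM⟩ : ∃ M : ℕ, M = ⌈(y : ℝ) * g ^ 6⌉₊ := ⟨_, rfl⟩
  have hM1 : (y : ℝ) * g ^ 6 ≤ M := by rw [hM]; exact Nat.le_ceil _
  have hM2 : (M : ℝ) < y * g ^ 6 + 1 := by
    rw [hM]; exact Nat.ceil_lt_add_one (by positivity)
  have hyM : (y : ℝ) ≤ M := by
    refine le_trans ?_ hM1
    nlinarith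
  have hyM' : y ≤ M := by exact_mod_cast hyM
  have hMy2 : (M : ℝ) ≤ (y : ℝ) ^ 2 := by
    have : (y : ℝ) * g ^ 6 ≤ y * (y / 2) := mul_le_mul_of_nonneg_left hlog6 hypos.le
    nlinarith
  have hMy2' : M ≤ y ^ 2 := by exact_mod_cast hMy2
  have hMpos : (0 : ℝ) < M := lt_of_lt_of_le hypos hyM
  have hlogM : Real.log (M : ℝ) ≤ 2 * g := by
    have := Real.log_le_log hMpos hMy2
    rw [Real.log_pow] at this
    exact_mod_cast this
  have hlogM0 : 0 ≤ Real.log (M : ℝ) := Real.log_natCast_nonneg M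
  have hcond1 : (y : ℝ) * (Real.log M) ^ 5 ≤ M := by
    refine le_trans ?_ hM1
    refine mul_le_mul_of_nonneg_left ?_ hypos.le
    calc (Real.log M) ^ 5 ≤ (2 * g) ^ 5 := pow_le_pow_left₀ hlogM0 hlogM 5
      _ = 32 * g ^ 5 := by ring
      _ ≤ g * g ^ 5 := mul_le_mul_of_nonneg_right hlog32 (by positivity)
      _ = g ^ 6 := by ring
  obtain ⟨v, hv1, hv2, hv⟩ := hD4 M (by omega) y hcond1 hMy2'
  have hsq : Real.sqrt l ^ 2 = l := Real.sq_sqrt hl0.le
  have hsqrt0 : 0 < Real.sqrt l := Real.sqrt_pos.2 hl0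
  have hyl : (y : ℝ) * lam ^ 30 ≤ Real.sqrt l := by
    rw [hq] at hyq
    rwa [le_div_iff₀ (by positivity)] at hyq
  have hglam : g ≤ lam := by
    have h3 : (y : ℝ) ≤ l := by
      have h4 : (1 : ℝ) ≤ lam ^ 30 := one_le_pow₀ (by linarith)
      have h5 : (y : ℝ) ≤ Real.sqrt l := le_trans (by nlinarith) hyl
      have h6 : 1 ≤ Real.sqrt l := by linarith
      nlinarith
    exact Real.log_le_log hypos h3
  have hM3 : (M : ℝ) ≤ 2 * (y * g ^ 6) := by
    have : 1 ≤ (y : ℝ) * g ^ 6 := by nlinarith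
    linarith
  have hexp : (M : ℝ) ^ 3 / y * (Real.log M) ^ 30 ≤ l := by
    calc (M : ℝ) ^ 3 / y * (Real.log M) ^ 30
        ≤ (2 * (y * g ^ 6)) ^ 3 / y * (2 * g) ^ 30 := by
          have a1 : (M : ℝ) ^ 3 ≤ (2 * (y * g ^ 6)) ^ 3 := pow_le_pow_left₀ hMpos.le hM3 3
          have a2 : (Real.log M) ^ 30 ≤ (2 * g) ^ 30 := pow_le_pow_left₀ hlogM0 hlogM 30
          have a3 : (M : ℝ) ^ 3 / y ≤ (2 * (y * g ^ 6)) ^ 3 / y :=
            div_le_div_of_nonneg_right a1 hypos.le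
          exact mul_le_mul a3 a2 (by positivity) (by positivity)
      _ = 2 ^ 33 * ((y : ℝ) ^ 2 * g ^ 48) := by
          field_simp
      _ ≤ 2 ^ 33 * ((y : ℝ) ^ 2 * lam ^ 48) := by
          have : g ^ 48 ≤ lam ^ 48 := pow_le_pow_left₀ hg0.le hglam 48
          gcongr
      _ ≤ lam ^ 12 * ((y : ℝ) ^ 2 * lam ^ 48) := by
          have : (2 : ℝ) ^ 33 ≤ lam ^ 12 := by
            calc (2 : ℝ) ^ 33 ≤ 24 ^ 12 := by norm_num
              _ ≤ lam ^ 12 := pow_le_pow_left₀ (by norm_num) h1 12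
          exact mul_le_mul_of_nonneg_right this (by positivity)
      _ = ((y : ℝ) * lam ^ 30) ^ 2 := by ring
      _ ≤ Real.sqrt l ^ 2 := pow_le_pow_left₀ (by positivity) hyl 2
      _ = l := hsq
  have hx : Real.exp ((M : ℝ) ^ 3 / y * (Real.log M) ^ 30) ≤ x := by
    calc Real.exp ((M : ℝ) ^ 3 / y * (Real.log M) ^ 30) ≤ Real.exp l := Real.exp_le_exp.2 hexp
      _ = x := by rw [hl, Real.exp_log (by linarith)]
  have hR := R_lower hv1 hv2 (by omega) (hv x hx)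
  have hR0 : (0 : ℝ) ≤ R x := Nat.cast_nonneg _
  have hlog2 : (1 / 2 : ℝ) ≤ Real.log 2 := by
    have := Real.log_two_gt_d9
    linarith
  -- `R x ≥ y / (12 lam)`
  have hR1 : (y : ℝ) / 2 ≤ (R x : ℝ) * (6 * lam) := by
    calc (y : ℝ) / 2 ≤ (y : ℝ) * Real.log 2 := by nlinarith
      _ ≤ (R x : ℝ) * (3 * Real.log M) := hR
      _ ≤ (R x : ℝ) * (6 * lam) := by
          refine mul_le_mul_of_nonneg_left ?_ hR0
          linarith
  have hq2 : q / 2 ≤ y := by
    have : (3 : ℝ) ≤ q := le_trans hy3 hyq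
    linarith
  have hpow : lam ^ (32 : ℝ) = lam ^ 32 := by
    rw [← Real.rpow_natCast]
    norm_num
  rw [hpow, div_le_iff₀ (by positivity)]
  have hqs : q * lam ^ 30 = Real.sqrt l := by
    rw [hq]
    field_simp
  calc Real.sqrt l = q * lam ^ 30 := hqs.symm
    _ ≤ (24 * ((R x : ℝ) * lam)) * lam ^ 30 := by
        refine mul_le_mul_of_nonneg_right ?_ (by positivity)
        linarith
    _ ≤ (lam * ((R x : ℝ) * lam)) * lam ^ 30 := by
        refine mul_le_mul_of_nonneg_right ?_ (by positivity)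
        exact mul_le_mul_of_nonneg_right h1 (by positivity)
    _ = (R x : ℝ) * lam ^ 32 := by ring

end Pool.Agent.Work.MP_e0aece_nt.Sq

end

section

/-!
# E1: upper bound for the parameters of a state
-/

namespace Pool.Agent.Work.MP_e0aece_nt.Eps

open Finset Sq

namespace ItemE1

variable {ι : Type} [Fintype ι] [DecidableEq ι] {H : ι → Type} [∀ i, AddCommGroup (H i)]
  [∀ i, Fintype (H i)]

omit [DecidableEq ι] in
theorem norm_ev (g : Finset ι → ∀ i, H i) (φ : ∀ i, AddChar (H i) ℂ) (A : Finset ι) :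
    ‖ev g φ A‖ = 1 := by
  unfold ev
  rw [norm_prod]
  apply Finset.prod_eq_one
  intro i _
  exact AddChar.norm_apply (φ i) (g A i)

theorem norm_sum_ev (g : Finset ι → ∀ i, H i) (φ : ∀ i, AddChar (H i) ℂ) (B I : Finset ι)
    (hIB : I ⊆ B) : ‖∑ A ∈ fib B I, ev g φ A‖ * 2 ^ B.card ≤ 2 ^ Fintype.card ι := by
  have h1 : ‖∑ A ∈ fib B I, ev g φ A‖ ≤ (fib B I).card := by
    refine (norm_sum_le _ _).trans ?_
    rw [Finset.sum_congr rfl (fun A _ => norm_ev g φ A)]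
    simp
  have hcard : ((fib B I).card : ℝ) * 2 ^ B.card = 2 ^ Fintype.card ι := by
    exact_mod_cast Sq.ItemA2.card_fib hIB
  calc ‖∑ A ∈ fib B I, ev g φ A‖ * 2 ^ B.card ≤ (fib B I).card * 2 ^ B.card := by gcongr
    _ = _ := hcard

end ItemE1

open ItemE1 in
theorem claimE1 : ClaimE1 := by
  intro ι _ _ H _ _ g lam m Y u C B I w a hPR hSt
  obtain ⟨hIB, hBm, ha0, ha, ⟨F, hExp, -, hwF⟩, hsupp, hlow⟩ := hSt
  obtain ⟨κ, _, c, φ, hpow, hc1, hcE, hF⟩ := hExp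
  classical
  set E : κ → ℂ := fun t => ∑ A ∈ fib B I, ev g (φ t) A with hE
  have h2m : (0 : ℝ) < 2 ^ m := by positivity
  have h2B : (0 : ℝ) < 2 ^ B.card := by positivity
  have h2n : (0 : ℝ) < 2 ^ Fintype.card ι := by positivity
  -- total weight
  have hw1 : ∑ A, w A = ∑ A ∈ fib B I, w A := by
    symm
    apply Finset.sum_subset (Finset.subset_univ _)
    intro A _ hA
    by_contra hne
    exact hA (Sq.ItemA2.mem_fib.2 (hsupp A hne).2)
  have hw2 : ∑ A ∈ fib B I, w A ≤ ∑ A ∈ fib B I, F A :=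
    Finset.sum_le_sum fun A _ => (hwF A).2
  have hsum : ((∑ A ∈ fib B I, F A : ℝ) : ℂ) = ∑ t, c t * E t := by
    push_cast
    simp only [hF]
    rw [sum_comm]
    simp only [hE, mul_sum]
  have hre : (∑ A ∈ fib B I, F A) ≤ ∑ t, ‖c t‖ * ‖E t‖ := by
    have h1 : (∑ A ∈ fib B I, F A) ≤ ‖((∑ A ∈ fib B I, F A : ℝ) : ℂ)‖ := by
      rw [Complex.norm_real]
      exact le_abs_self _
    refine h1.trans ?_
    rw [hsum]
    refine (norm_sum_le _ _).trans ?_
    gcongr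
    rw [norm_mul]
  -- bounds for the inner sums
  have hb1 : ∀ t, ‖E t‖ * 2 ^ B.card ≤ 2 ^ Fintype.card ι := fun t =>
    norm_sum_ev g (φ t) B I hIB
  have hb2 : ∀ t, ¬ (∀ i ∈ B \ I, φ t i = 1) →
      ‖E t‖ * 2 ^ B.card ≤ 2 ^ Fintype.card ι / 2 ^ m := by
    intro t ht
    obtain ⟨ψ, hψ⟩ := hpow t
    push Not at ht
    obtain ⟨i, hi, hne⟩ := ht
    have h := hPR B I hIB hBm ψ ⟨i, hi, by rw [← hψ i]; exact hne⟩
    have e : (fun i => ψ i ^ lam) = φ t := by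
      funext j
      rw [hψ j]
    rw [e] at h
    rw [le_div_iff₀ h2m]
    calc ‖E t‖ * 2 ^ B.card * 2 ^ m = ‖E t‖ * 2 ^ m * 2 ^ B.card := by ring
      _ ≤ _ := h
  have hkey : (∑ A, w A) * 2 ^ B.card ≤
      2 ^ Fintype.card ι * (Real.exp (-3 * a) + 1 / 2 ^ m) := by
    calc (∑ A, w A) * 2 ^ B.card ≤ (∑ t, ‖c t‖ * ‖E t‖) * 2 ^ B.card := by
          rw [hw1]
          gcongr
          exact hw2.trans hre
      _ = ∑ t, ‖c t‖ * (‖E t‖ * 2 ^ B.card) := by
          rw [sum_mul]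
          exact sum_congr rfl fun t _ => by ring
      _ = ∑ t ∈ univ.filter (fun t => ∀ i ∈ B \ I, φ t i = 1), ‖c t‖ * (‖E t‖ * 2 ^ B.card) +
          ∑ t ∈ univ.filter (fun t => ¬ ∀ i ∈ B \ I, φ t i = 1),
            ‖c t‖ * (‖E t‖ * 2 ^ B.card) := by
          rw [Finset.sum_filter_add_sum_filter_not]
      _ ≤ ∑ t ∈ univ.filter (fun t => ∀ i ∈ B \ I, φ t i = 1), ‖c t‖ * 2 ^ Fintype.card ι +
          ∑ t ∈ univ.filter (fun t => ¬ ∀ i ∈ B \ I, φ t i = 1),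
            ‖c t‖ * (2 ^ Fintype.card ι / 2 ^ m) := by
          gcongr with t ht t ht
          · exact hb1 t
          · exact hb2 t (mem_filter.1 ht).2
      _ ≤ Real.exp (-3 * a) * 2 ^ Fintype.card ι + 1 * (2 ^ Fintype.card ι / 2 ^ m) := by
          rw [← sum_mul, ← sum_mul]
          refine add_le_add (mul_le_mul_of_nonneg_right ?_ h2n.le)
            (mul_le_mul_of_nonneg_right ?_ (by positivity))
          · convert hcE
          · refine le_trans ?_ hc1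
            exact Finset.sum_le_sum_of_subset_of_nonneg (Finset.filter_subset _ _)
              (fun t _ _ => norm_nonneg _)
      _ = _ := by ring
  have h2 : (1 : ℝ) / 2 ^ m ≤ Real.exp (-3 * a) := by
    have e : (1 : ℝ) / 2 ^ m = Real.exp (-(m * Real.log 2)) := by
      rw [Real.exp_neg, Real.exp_nat_mul, Real.exp_log (by norm_num), one_div]
    rw [e]
    apply Real.exp_le_exp.2
    linarith
  have h3 : (2 : ℝ) ^ Fintype.card ι * Real.exp (-2 * a - Y + u * B.card) ≤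
      2 ^ Fintype.card ι * Real.exp (1 - 3 * a) := by
    refine (hlow.trans hkey).trans ?_
    apply mul_le_mul_of_nonneg_left _ h2n.le
    have h4 : Real.exp (1 - 3 * a) = Real.exp 1 * Real.exp (-3 * a) := by
      rw [← Real.exp_add]
      congr 1
      ring
    have h5 : (2 : ℝ) ≤ Real.exp 1 := by
      have := Real.add_one_le_exp (1 : ℝ)
      linarith
    rw [h4]
    nlinarith [Real.exp_pos (-3 * a)]
  have h6 := Real.exp_le_exp.1 (le_of_mul_le_mul_left h3 h2n)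
  linarith

end Pool.Agent.Work.MP_e0aece_nt.Eps

end

section

/-!
# E11: products of sparse random elements do not concentrate
-/

namespace Pool.Agent.Work.MP_e0aece_nt.Eps

open Finset Sq

namespace ItemE11

variable {ι : Type} {K : ι → Type} [∀ i, CommGroup (K i)]

omit [∀ i, CommGroup (K i)] in
lemma dif_mono {U W : Finset ι} (h : W ⊆ U) (x y : ∀ i, K i) : dif W x y ≤ dif U x y := by
  classical
  unfold dif
  exact Finset.card_le_card (Finset.filter_subset_filter _ h)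

lemma hist_sub (U : Finset ι) (c : ∀ i, K i) {n : ℕ} (h : Fin n → ∀ i, K i) :
    hist U c h ⊆ U := by
  classical
  unfold hist
  exact Finset.filter_subset _ _

lemma hist_card [DecidableEq ι] (U : Finset ι) (c : ∀ i, K i) {j : ℕ} (h : Fin j → ∀ i, K i)
    {k n : ℕ} (hj : j ≤ k) (hc : dif U c 1 ≤ k * n) (hh : ∀ l, dif U (h l) 1 ≤ n) :
    (hist U c h).card ≤ 2 * k * n := by
  classical
  have h1 : hist U c h ⊆ (U.filter fun i => c i ≠ (1 : ∀ i, K i) i) ∪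
      (univ : Finset (Fin j)).biUnion (fun l => U.filter fun i => h l i ≠ (1 : ∀ i, K i) i) := by
    intro i hi
    unfold hist at hi
    rw [Finset.mem_filter] at hi
    rw [Finset.mem_union, Finset.mem_biUnion]
    rcases hi.2 with h2 | ⟨l, hl⟩
    · left
      rw [Finset.mem_filter]
      exact ⟨hi.1, h2⟩
    · right
      exact ⟨l, Finset.mem_univ _, Finset.mem_filter.2 ⟨hi.1, hl⟩⟩
  have h2 : (U.filter fun i => c i ≠ (1 : ∀ i, K i) i).card = dif U c 1 := by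
    unfold dif
    congr
  have h3 : ∀ l, (U.filter fun i => h l i ≠ (1 : ∀ i, K i) i).card = dif U (h l) 1 := by
    intro l
    unfold dif
    congr
  calc (hist U c h).card ≤ _ := Finset.card_le_card h1
    _ ≤ _ := Finset.card_union_le _ _
    _ ≤ k * n + j * n := by
        refine add_le_add (h2 ▸ hc) ?_
        refine Finset.card_biUnion_le.trans ?_
        calc ∑ l : Fin j, (U.filter fun i => h l i ≠ (1 : ∀ i, K i) i).card
            ≤ ∑ l : Fin j, n := Finset.sum_le_sum fun l _ => by rw [h3]; exact hh l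
          _ = j * n := by simp
    _ ≤ 2 * k * n := by nlinarith [Nat.mul_le_mul_right n hj]

end ItemE11

theorem claimE11 (hE11a : ClaimE11a) (hE11b : ClaimE11b) : ClaimE11 := by
  classical
  intro ι _ K _ Ω U c n k L hn hk hL hΩ hlow hWW hc
  obtain ⟨bad, hbad⟩ : ∃ bad : (j : ℕ) → (Fin j → ∀ i, K i) → (∀ i, K i) → Prop,
    ∀ j h x, bad j h x ↔ (dif U x 1 ≤ 11 * n / 12 ∨ n ≤ 12 * dif (hist U c h) x 1) :=
    ⟨fun j h x => dif U x 1 ≤ 11 * n / 12 ∨ n ≤ 12 * dif (hist U c h) x 1, fun _ _ _ => Iff.rfl⟩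
  have hb := hE11b (∀ i, K i) Ω k bad L hL (by
    intro j hj h hh
    have h2 := hWW (hist U c h) (ItemE11.hist_sub U c h)
      (ItemE11.hist_card U c h hj.le hc (fun l => hΩ _ (hh l)))
    have h4 := add_le_add hlow h2
    have h5 : (Ω.card : ℝ) * Real.exp (-L) + Ω.card * Real.exp (-L) =
      2 * (Ω.card * Real.exp (-L)) := by ring
    rw [h5] at h4
    refine le_trans ?_ h4
    rw [← Nat.cast_add]
    refine Nat.cast_le.2 (le_trans (Finset.card_le_card ?_) (Finset.card_union_le _ _))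
    intro x hx
    rw [Finset.mem_filter, hbad] at hx
    rw [Finset.mem_union, Finset.mem_filter, Finset.mem_filter]
    rcases hx.2 with h2 | h2
    · exact Or.inl ⟨hx.1, h2⟩
    · exact Or.inr ⟨hx.1, h2⟩)
  refine le_trans (Nat.cast_le.2 (Finset.card_le_card ?_)) hb
  intro p hp
  rw [Finset.mem_filter] at hp ⊢
  refine ⟨hp.1, ?_⟩
  have hpΩ := Fintype.mem_piFinset.1 hp.1
  have ha := hE11a ι K U c k p
  set B := univ.filter fun j : Fin k =>
        bad j (fun l : Fin j => p (l.castLE j.isLt.le)) (p j) with hB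
  -- lower bounds for the terms
  have hterm : ∀ j : Fin k, (9 * n : ℤ) - (if j ∈ B then (21 * n : ℤ) else 0) ≤
        12 * ((dif U (p j) 1 : ℤ) -
        2 * (dif (hist U c fun l : Fin j => p (l.castLE j.isLt.le)) (p j) 1 : ℤ)) := by
    intro j
    have h1 := ItemE11.dif_mono
        (ItemE11.hist_sub U c fun l : Fin j => p (l.castLE j.isLt.le)) (p j) 1
    have h2 := hΩ _ (hpΩ j)
    by_cases hj : j ∈ B
    · rw [if_pos hj]
      omega
    · rw [if_neg hj]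
      rw [hB, Finset.mem_filter, not_and] at hj
      have h3 := hj (Finset.mem_univ _)
      simp only [hbad, not_or, not_le] at h3
      omega
  have hsum := Finset.sum_le_sum (fun j (_ : j ∈ (univ : Finset (Fin k))) => hterm j)
  have ha' := mul_le_mul_of_nonneg_left ha (by norm_num : (0 : ℤ) ≤ 12)
  rw [Finset.mul_sum] at ha'
  have hsum' := hsum.trans ha'
  rw [Finset.sum_sub_distrib, Finset.sum_const, Finset.card_univ,
      Fintype.card_fin, ← Finset.sum_filter, Finset.filter_mem_eq_inter, Finset.univ_inter,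
      Finset.sum_const, nsmul_eq_mul, nsmul_eq_mul] at hsum'
  have h4 : (4 * dif U (∏ j, p j) c : ℤ) ≤ k * n := by exact_mod_cast hp.2
  have h5 : (k : ℤ) * (9 * n) - B.card * (21 * n) ≤ 3 * (k * n) := by linarith
  have h6 : (6 * k : ℤ) * n ≤ (21 * B.card) * n := by linarith
  have hn' : (0 : ℤ) < n := by exact_mod_cast hn
  have h7 : (6 * k : ℤ) ≤ 21 * B.card := le_of_mul_le_mul_right h6 hn'
  omega

end Pool.Agent.Work.MP_e0aece_nt.Eps

end

section

/-!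
# E11a: lower bound for the number of coordinates of a product of sparse elements
-/

namespace Pool.Agent.Work.MP_e0aece_nt.Eps

open Finset Sq

namespace ItemE11a

variable {ι : Type} {K : ι → Type} [∀ i, CommGroup (K i)]

open Classical in
/-- coordinates of `U` at which `X` is not `1` and `c` is `1` -/
noncomputable def NN (U : Finset ι) (c X : ∀ i, K i) : ℕ :=
  (U.filter fun i => X i ≠ 1 ∧ c i = 1).card

lemma step (U W : Finset ι) (c X x : ∀ i, K i) (_hWU : W ⊆ U)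
    (hW : ∀ i ∈ U, i ∉ W → c i = 1 ∧ X i = 1) :
    (NN U c X : ℤ) + (dif U x 1 - 2 * dif W x 1) ≤ NN U c (X * x) := by
  classical
  set S1 := U.filter fun i => X i ≠ 1 ∧ c i = 1 ∧ x i = 1 with hS1
  set S2 := U.filter fun i => i ∉ W ∧ x i ≠ 1 with hS2
  set D := W.filter fun i => x i ≠ 1 with hD
  have hDd : dif W x 1 = D.card := by
    unfold dif
    simp only [hD, Pi.one_apply]
  have h1 : NN U c X ≤ S1.card + D.card := by
    unfold NN
    refine le_trans (Finset.card_le_card ?_) (Finset.card_union_le S1 D)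
    intro i hi
    rw [Finset.mem_filter] at hi
    rw [Finset.mem_union, hS1, hD, Finset.mem_filter, Finset.mem_filter]
    by_cases hx : x i = 1
    · exact Or.inl ⟨hi.1, hi.2.1, hi.2.2, hx⟩
    · right
      refine ⟨?_, hx⟩
      by_contra hiW
      exact hi.2.1 (hW i hi.1 hiW).2
  have h2 : dif U x 1 ≤ S2.card + D.card := by
    unfold dif
    refine le_trans (Finset.card_le_card ?_) (Finset.card_union_le S2 D)
    intro i hi
    rw [Finset.mem_filter] at hi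
    rw [Finset.mem_union, hS2, hD, Finset.mem_filter, Finset.mem_filter]
    have hx : x i ≠ 1 := by simpa using hi.2
    by_cases hiW : i ∈ W
    · exact Or.inr ⟨hiW, hx⟩
    · exact Or.inl ⟨hi.1, hiW, hx⟩
  have hdisj : Disjoint S1 S2 := by
    rw [Finset.disjoint_left]
    intro i hi hi'
    rw [hS1, Finset.mem_filter] at hi
    rw [hS2, Finset.mem_filter] at hi'
    exact hi'.2.2 hi.2.2.2
  have h3 : S1.card + S2.card ≤ NN U c (X * x) := by
    rw [← Finset.card_union_of_disjoint hdisj]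
    unfold NN
    refine Finset.card_le_card ?_
    intro i hi
    rw [Finset.mem_union, hS1, hS2, Finset.mem_filter, Finset.mem_filter] at hi
    rw [Finset.mem_filter]
    rcases hi with ⟨hU, hX, hc, hx⟩ | ⟨hU, hiW, hx⟩
    · refine ⟨hU, ?_, hc⟩
      rw [Pi.mul_apply, hx, mul_one]
      exact hX
    · obtain ⟨hc, hX⟩ := hW i hU hiW
      refine ⟨hU, ?_, hc⟩
      rw [Pi.mul_apply, hX, one_mul]
      exact hx
  rw [hDd]
  have h1' : (NN U c X : ℤ) ≤ S1.card + D.card := by exact_mod_cast h1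
  have h2' : (dif U x 1 : ℤ) ≤ S2.card + D.card := by exact_mod_cast h2
  have h3' : (S1.card : ℤ) + S2.card ≤ NN U c (X * x) := by exact_mod_cast h3
  linarith

lemma main (U : Finset ι) (c : ∀ i, K i) : ∀ (k : ℕ) (p : Fin k → ∀ i, K i),
    ∑ j : Fin k, ((dif U (p j) 1 : ℤ) -
        2 * (dif (hist U c fun l : Fin j => p (l.castLE j.isLt.le)) (p j) 1 : ℤ)) ≤
      (NN U c (∏ j, p j) : ℤ) := by
  classical
  intro k
  induction k with
  | zero =>
    intro p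
    simp
  | succ k ih =>
    intro p
    rw [Fin.sum_univ_castSucc, Fin.prod_univ_castSucc]
    have h1 := ih (fun j => p j.castSucc)
    have h2 := step U (hist U c fun l : Fin k => p (l.castLE (Nat.le_succ k))) c
      (∏ j : Fin k, p j.castSucc) (p (Fin.last k)) (by
        unfold hist
        exact Finset.filter_subset _ _) (by
        intro i hi hiW
        unfold hist at hiW
        rw [Finset.mem_filter, not_and, not_or] at hiW
        obtain ⟨h3, h4⟩ := hiW hi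
        push Not at h3 h4
        refine ⟨h3, ?_⟩
        rw [Finset.prod_apply]
        exact Finset.prod_eq_one fun j _ => h4 j)
    have h5 : ∑ j : Fin k, ((dif U (p j.castSucc) 1 : ℤ) -
        2 * (dif (hist U c fun l : Fin (j.castSucc : Fin (k + 1)) =>
          p (l.castLE (j.castSucc).isLt.le)) (p j.castSucc) 1 : ℤ)) ≤
        (NN U c (∏ j : Fin k, p j.castSucc) : ℤ) := h1
    have h6 : (dif (hist U c fun l : Fin (Fin.last k : Fin (k + 1)) =>
          p (l.castLE (Fin.last k).isLt.le)) (p (Fin.last k)) 1 : ℤ) =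
        (dif (hist U c fun l : Fin k => p (l.castLE (Nat.le_succ k))) (p (Fin.last k)) 1 : ℤ) := rfl
    rw [h6]
    linarith

end ItemE11a

theorem claimE11a : ClaimE11a := by
  classical
  intro ι _ K _ U c k p
  refine (ItemE11a.main U c k p).trans ?_
  have : ItemE11a.NN U c (∏ j, p j) ≤ dif U (∏ j, p j) c := by
    unfold ItemE11a.NN dif
    refine Finset.card_le_card ?_
    intro i hi
    rw [Finset.mem_filter] at hi ⊢
    refine ⟨hi.1, ?_⟩
    rw [hi.2.2]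
    exact hi.2.1
  exact_mod_cast this

end Pool.Agent.Work.MP_e0aece_nt.Eps

end

section

/-!
# E11b: an exponential moment bound
-/

namespace Pool.Agent.Work.MP_e0aece_nt.Eps

open Finset Sq

namespace ItemE11b

variable {α : Type} (bad : (n : ℕ) → (Fin n → α) → α → Prop)

open Classical in
/-- number of bad indices of a tuple -/
noncomputable def nb {n : ℕ} (p : Fin n → α) : ℕ :=
  (univ.filter fun j : Fin n => bad j (fun l : Fin j => p (l.castLE j.isLt.le)) (p j)).card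

open Classical in
lemma nb_succ {n : ℕ} (p : Fin (n + 1) → α) :
    nb bad p = nb bad (Fin.init p) + if bad n (Fin.init p) (p (Fin.last n)) then 1 else 0 := by
  unfold nb
  rw [Finset.card_filter, Finset.card_filter, Fin.sum_univ_castSucc]
  rfl

open Classical in
lemma moment (Ω : Finset α) (k : ℕ) (L : ℝ) (_hL : 0 ≤ L)
    (h : ∀ n < k, ∀ h : Fin n → α, (∀ j, h j ∈ Ω) →
      ((Ω.filter fun x => bad n h x).card : ℝ) ≤ 2 * (Ω.card * Real.exp (-L))) :
    ∀ n ≤ k, ∑ p ∈ Fintype.piFinset (fun _ : Fin n => Ω), Real.exp (L * nb bad p) ≤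
      (3 * (Ω.card : ℝ)) ^ n := by
  intro n
  induction n with
  | zero =>
    intro _
    simp [nb]
  | succ n ih =>
    intro hn
    have hsum : ∑ p ∈ Fintype.piFinset (fun _ : Fin (n + 1) => Ω), Real.exp (L * nb bad p) =
        ∑ q ∈ Fintype.piFinset (fun _ : Fin n => Ω) ×ˢ Ω,
          Real.exp (L * nb bad q.1) * (if bad n q.1 q.2 then Real.exp L else 1) := by
      refine Finset.sum_nbij' (fun p => (Fin.init p, p (Fin.last n)))
        (fun q => Fin.snoc (α := fun _ => α) q.1 q.2) ?_ ?_ ?_ ?_ ?_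
      · intro p hp
        rw [Fintype.mem_piFinset] at hp
        rw [Finset.mem_product, Fintype.mem_piFinset]
        exact ⟨fun j => hp _, hp _⟩
      · intro q hq
        rw [Finset.mem_product, Fintype.mem_piFinset] at hq
        rw [Fintype.mem_piFinset]
        intro j
        refine Fin.lastCases ?_ (fun j => ?_) j
        · rw [Fin.snoc_last]
          exact hq.2
        · rw [Fin.snoc_castSucc]
          exact hq.1 j
      · intro p _
        exact Fin.snoc_init_self p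
      · intro q _
        simp
      · intro p _
        rw [nb_succ]
        by_cases hb : bad n (Fin.init p) (p (Fin.last n))
        · simp only [hb, if_true]
          rw [← Real.exp_add]
          congr 1
          push_cast
          ring
        · simp [hb]
    rw [hsum, Finset.sum_product]
    have hinner : ∀ q ∈ Fintype.piFinset (fun _ : Fin n => Ω),
        ∑ x ∈ Ω, Real.exp (L * nb bad q) * (if bad n q x then Real.exp L else 1) ≤
          Real.exp (L * nb bad q) * (3 * Ω.card) := by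
      intro q hq
      rw [← Finset.mul_sum]
      refine mul_le_mul_of_nonneg_left ?_ (Real.exp_nonneg _)
      have h1 := h n (by omega) q (Fintype.mem_piFinset.1 hq)
      calc ∑ x ∈ Ω, (if bad n q x then Real.exp L else 1)
          ≤ ∑ x ∈ Ω, ((if bad n q x then Real.exp L else 0) + 1) := by
            refine Finset.sum_le_sum fun x _ => ?_
            split_ifs
            · linarith
            · linarith
        _ = ((Ω.filter fun x => bad n q x).card : ℝ) * Real.exp L + Ω.card := by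
            rw [Finset.sum_add_distrib, ← Finset.sum_filter, Finset.sum_const, nsmul_eq_mul]
            simp
        _ ≤ (2 * (Ω.card * Real.exp (-L))) * Real.exp L + Ω.card := by
            gcongr
        _ = 3 * Ω.card := by
            rw [mul_assoc, mul_assoc, ← Real.exp_add, neg_add_cancel, Real.exp_zero]
            ring
    refine (Finset.sum_le_sum hinner).trans ?_
    rw [← Finset.sum_mul, pow_succ]
    exact mul_le_mul_of_nonneg_right (ih (by omega)) (by positivity)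

end ItemE11b

theorem claimE11b : ClaimE11b := by
  classical
  intro α Ω k bad L hL h
  have h1 := ItemE11b.moment bad Ω k L hL h k le_rfl
  set S := (Fintype.piFinset fun _ : Fin k => Ω).filter fun p =>
      k ≤ 4 * (univ.filter fun j : Fin k =>
        bad j (fun l : Fin j => p (l.castLE j.isLt.le)) (p j)).card with hS
  have h2 : (S.card : ℝ) * Real.exp (L * k / 4) ≤
      ∑ p ∈ Fintype.piFinset (fun _ : Fin k => Ω), Real.exp (L * ItemE11b.nb bad p) := by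
    rw [← nsmul_eq_mul, ← Finset.sum_const]
    refine (Finset.sum_le_sum (f := fun _ => Real.exp (L * k / 4))
      (g := fun p => Real.exp (L * ItemE11b.nb bad p)) ?_).trans ?_
    · intro p hp
      rw [hS, Finset.mem_filter] at hp
      apply Real.exp_le_exp.2
      have h3 : (k : ℝ) ≤ 4 * ItemE11b.nb bad p := by
        have := hp.2
        unfold ItemE11b.nb
        exact_mod_cast this
      nlinarith
    · exact Finset.sum_le_sum_of_subset_of_nonneg (Finset.filter_subset _ _)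
        fun _ _ _ => Real.exp_nonneg _
  have h3 := h2.trans h1
  rw [Real.exp_neg, ← div_eq_mul_inv, le_div_iff₀ (Real.exp_pos _)]
  exact h3

end Pool.Agent.Work.MP_e0aece_nt.Eps

end

section

/-!
# E12a: the consequence of non-expansion for a set in a Hamming ball
-/

set_option autoImplicit false

namespace Pool.Agent.Work.MP_e0aece_nt.Eps

open Finset Sq

namespace ItemE12a

variable {ι : Type} {K : ι → Type} [∀ i, CommGroup (K i)]

lemma dif_mul (U : Finset ι) (x y t : ∀ i, K i) : dif U (x * t) (y * t) = dif U x y := by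
  classical
  unfold dif
  congr 1
  ext i
  simp

lemma dif_mul_inv (U : Finset ι) (x c : ∀ i, K i) : dif U (x * c⁻¹) 1 = dif U x c := by
  have := dif_mul U x c c⁻¹
  rw [mul_inv_cancel] at this
  exact this

lemma dif_mul_le (U : Finset ι) (x y : ∀ i, K i) : dif U (x * y) 1 ≤ dif U x 1 + dif U y 1 := by
  classical
  unfold dif
  refine le_trans (Finset.card_le_card ?_) (Finset.card_union_le _ _)
  intro i hi
  rw [Finset.mem_filter] at hi
  rw [Finset.mem_union, Finset.mem_filter, Finset.mem_filter]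
  by_cases h : x i = 1
  · right
    refine ⟨hi.1, fun h2 => hi.2 ?_⟩
    simp [h, h2]
  · left
    exact ⟨hi.1, h⟩

lemma dif_prod_le (U : Finset ι) {n : ℕ} {T : Type} (S : Finset T) (f : T → ∀ i, K i)
    (h : ∀ j ∈ S, dif U (f j) 1 ≤ n) : dif U (∏ j ∈ S, f j) 1 ≤ S.card * n := by
  classical
  induction S using Finset.induction_on with
  | empty =>
    simp [dif]
  | insert a S ha ih =>
    rw [Finset.prod_insert ha, Finset.card_insert_of_notMem ha]
    refine le_trans (dif_mul_le U _ _) ?_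
    have h1 := h a (Finset.mem_insert_self _ _)
    have h2 := ih fun j hj => h j (Finset.mem_insert_of_mem hj)
    rw [add_mul, one_mul]
    omega

lemma prod_mul_inv {k : ℕ} (p : Fin k → ∀ i, K i) (c : ∀ i, K i) :
    ∏ j, (p j * c⁻¹) = (∏ j, p j) * (c ^ k)⁻¹ := by
  rw [Finset.prod_mul_distrib, Finset.prod_const, Finset.card_univ, Fintype.card_fin, inv_pow]

end ItemE12a

open ItemE12a in
theorem claimE12a (hE11 : ClaimE11) : ClaimE12a := by
  classical
  intro ι _ K _ Ω U c₀ n k β hn hk hβ hne hball hsmall hne2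
  by_contra hcon
  push Not at hcon
  -- the translated set
  set Ω' : Finset (∀ i, K i) := Ω.image (fun x => x * c₀⁻¹) with hΩ'
  have hinj : Function.Injective (fun x : ∀ i, K i => x * c₀⁻¹) := mul_left_injective _
  have hcard : Ω'.card = Ω.card := Finset.card_image_of_injective _ hinj
  have hfil : ∀ (W : Finset ι) (Q : ℕ → Prop) [DecidablePred Q],
      (Ω'.filter fun x => Q (dif W x 1)).card = (Ω.filter fun x => Q (dif W x c₀)).card := by
    intro W Q _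
    rw [hΩ', Finset.filter_image, Finset.card_image_of_injective _ hinj]
    congr 1
    ext x
    simp only [Finset.mem_filter]
    rw [dif_mul_inv]
  -- the second tuple
  set Pk : Finset (Fin k → ∀ i, K i) := Fintype.piFinset fun _ : Fin k => Ω with hPk
  have hPkcard : (Pk.card : ℝ) = (Ω.card : ℝ) ^ k := by
    rw [hPk, Fintype.card_piFinset]
    simp
  have hex : ∃ q ∈ Pk, Real.exp (-(k * β)) * (Ω.card : ℝ) ^ k ≤
      ((Pk.filter fun p => 4 * dif U (∏ j, p j) (∏ j, q j) ≤ k * n).card : ℝ) := by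
    by_contra hno
    push Not at hno
    have hΩ0 : 0 < Ω.card := hne.card_pos
    have hPkne : Pk.Nonempty := by
      rw [← Finset.card_pos]
      have : (0 : ℝ) < Pk.card := by
        rw [hPkcard]
        have : (0 : ℝ) < Ω.card := by exact_mod_cast hΩ0
        positivity
      exact_mod_cast this
    have h1 : (((pairs Ω k).filter fun q => 4 * dif U (∏ j, q.1 j) (∏ j, q.2 j) ≤ k * n).card :
        ℝ) = ∑ q ∈ Pk, ((Pk.filter fun p => 4 * dif U (∏ j, p j) (∏ j, q j) ≤ k * n).card : ℝ) := by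
      unfold pairs
      rw [Finset.card_filter, Finset.sum_product_right]
      push_cast
      apply Finset.sum_congr
      · rfl
      intro q _
      rw [Finset.card_filter]
      push_cast
      rfl
    have h2 : ∑ q ∈ Pk, ((Pk.filter fun p => 4 * dif U (∏ j, p j) (∏ j, q j) ≤ k * n).card : ℝ) <
        ∑ _q ∈ Pk, Real.exp (-(k * β)) * (Ω.card : ℝ) ^ k :=
      Finset.sum_lt_sum_of_nonempty hPkne hno
    rw [Finset.sum_const, nsmul_eq_mul, hPkcard] at h2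
    have h3 : (Ω.card : ℝ) ^ k * (Real.exp (-(k * β)) * (Ω.card : ℝ) ^ k) =
        Real.exp (-(k * β)) * (Ω.card : ℝ) ^ (2 * k) := by
      rw [two_mul, pow_add]; ring
    rw [h3, ← h1] at h2
    exact absurd hne2 (not_le.2 h2)
  obtain ⟨q, hq, hqc⟩ := hex
  rw [hPk, Fintype.mem_piFinset] at hq
  -- E11
  have h11 := hE11 ι K Ω' U ((∏ j, q j) * (c₀ ^ k)⁻¹) n k (4 * β + 5) hn hk (by linarith)
    (by
      intro x hx
      rw [hΩ', Finset.mem_image] at hx
      obtain ⟨y, hy, rfl⟩ := hx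
      rw [dif_mul_inv]
      exact hball y hy)
    (by
      rw [hfil U (fun m => m ≤ 11 * n / 12), hcard]
      exact hsmall)
    (by
      intro W hW hWc
      rw [hfil W (fun m => n ≤ 12 * m), hcard]
      exact hcon W hW hWc)
    (by
      rw [← prod_mul_inv]
      have := dif_prod_le U (n := n) (Finset.univ : Finset (Fin k)) (fun j => q j * c₀⁻¹)
        (fun j _ => by
          show dif U (q j * c₀⁻¹) 1 ≤ n
          rw [dif_mul_inv]
          exact hball _ (hq j))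
      rw [Finset.card_univ, Fintype.card_fin] at this
      exact this)
  have hmap : (Pk.filter fun p => 4 * dif U (∏ j, p j) (∏ j, q j) ≤ k * n).card ≤
      ((Fintype.piFinset fun _ : Fin k => Ω').filter fun p =>
        4 * dif U (∏ j, p j) ((∏ j, q j) * (c₀ ^ k)⁻¹) ≤ k * n).card := by
    apply Finset.card_le_card_of_injOn (fun p j => p j * c₀⁻¹)
    · intro p hp
      rw [Finset.mem_coe, Finset.mem_filter, hPk, Fintype.mem_piFinset] at hp
      rw [Finset.mem_coe, Finset.mem_filter, Fintype.mem_piFinset]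
      refine ⟨fun j => ?_, ?_⟩
      · rw [hΩ', Finset.mem_image]
        exact ⟨p j, hp.1 j, rfl⟩
      · rw [prod_mul_inv, dif_mul]
        exact hp.2
    · intro p _ p' _ hpp
      funext j
      exact hinj (congrFun hpp j)
  have hfin : Real.exp (-(k * β)) * (Ω.card : ℝ) ^ k ≤
      (3 * (Ω.card : ℝ)) ^ k * Real.exp (-((4 * β + 5) * k / 4)) := by
    rw [hcard] at h11
    calc _ ≤ _ := hqc
      _ ≤ _ := by exact_mod_cast hmap
      _ ≤ _ := h11
  have hΩpos : (0 : ℝ) < (Ω.card : ℝ) ^ k := by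
    have : (0 : ℝ) < Ω.card := by exact_mod_cast hne.card_pos
    positivity
  have he : Real.exp (-((4 * β + 5) * k / 4)) =
      Real.exp (-(k * β)) * Real.exp (-(5 / 4)) ^ k := by
    rw [← Real.exp_nat_mul, ← Real.exp_add]
    congr 1
    ring
  rw [he, mul_pow] at hfin
  have h35 : 3 * Real.exp (-(5 / 4)) < 1 := by
    have h1 : (3 : ℝ) < Real.exp (5 / 4) := by
      have h2 : Real.exp (5 / 4) = Real.exp 1 * Real.exp (1 / 4) := by
        rw [← Real.exp_add]; norm_num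
      have h3 : (2.7 : ℝ) ≤ Real.exp 1 := by
        have := Real.exp_one_gt_d9
        linarith
      have h4 : (5 / 4 : ℝ) ≤ Real.exp (1 / 4) := by
        have := Real.add_one_le_exp (1 / 4 : ℝ)
        linarith
      rw [h2]
      nlinarith
    rw [Real.exp_neg, ← div_eq_mul_inv, div_lt_one (Real.exp_pos _)]
    exact h1
  have hpow : (3 * Real.exp (-(5 / 4))) ^ k < 1 :=
    pow_lt_one₀ (by positivity) h35 (by omega)
  have hlt : 3 ^ k * (Ω.card : ℝ) ^ k * (Real.exp (-(k * β)) * Real.exp (-(5 / 4)) ^ k) =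
      (Real.exp (-(k * β)) * (Ω.card : ℝ) ^ k) * (3 * Real.exp (-(5 / 4))) ^ k := by
    rw [mul_pow]; ring
  rw [hlt] at hfin
  have hpos : 0 < Real.exp (-(k * β)) * (Ω.card : ℝ) ^ k := mul_pos (Real.exp_pos _) hΩpos
  have := mul_lt_of_lt_one_right hpos hpow
  linarith

end Pool.Agent.Work.MP_e0aece_nt.Eps

end

section

/-!
# E12b: the induction step for E12
-/

namespace Pool.Agent.Work.MP_e0aece_nt.Eps

open Finset Sq

namespace ItemE12b

section

variable {ι : Type} {K : ι → Type}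

open Classical in
theorem dif_self (U : Finset ι) (x : ∀ i, K i) : dif U x x = 0 := by
  simp [dif]

open Classical in
/-- A count over pairs. -/
theorem pairs_le [∀ i, CommGroup (K i)] (Ω : Finset (∀ i, K i)) (k N : ℕ)
    (P : (Fin k → ∀ i, K i) → (Fin k → ∀ i, K i) → Prop)
    (h : ∀ q, ((Fintype.piFinset fun _ : Fin k => Ω).filter fun p => P p q).card ≤ N) :
    ((pairs Ω k).filter fun q => P q.1 q.2).card ≤ Ω.card ^ k * N := by
  have h1 : ((pairs Ω k).filter fun q => P q.1 q.2) ⊆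
      (Fintype.piFinset fun _ : Fin k => Ω).biUnion fun q =>
        ((Fintype.piFinset fun _ : Fin k => Ω).filter fun p => P p q).image fun p => (p, q) := by
    intro q hq
    rw [mem_filter, pairs, mem_product] at hq
    rw [mem_biUnion]
    refine ⟨q.2, hq.1.2, ?_⟩
    rw [mem_image]
    exact ⟨q.1, mem_filter.2 ⟨hq.1.1, hq.2⟩, rfl⟩
  refine (card_le_card h1).trans (card_biUnion_le.trans ?_)
  calc ∑ q ∈ (Fintype.piFinset fun _ : Fin k => Ω),
        (((Fintype.piFinset fun _ : Fin k => Ω).filter fun p => P p q).image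
          fun p => (p, q)).card
      ≤ ∑ _q ∈ (Fintype.piFinset fun _ : Fin k => Ω), N :=
        sum_le_sum fun q _ => card_image_le.trans (h q)
    _ = Ω.card ^ k * N := by
        rw [sum_const, Fintype.card_piFinset]
        simp

open Classical in
/-- Changing the centre on `W`. -/
theorem recentre {U W : Finset ι} (hW : W ⊆ U) (x c₀ c₁ : ∀ i, K i) (ρ : ℕ)
    (h0 : dif U x c₀ ≤ ρ) (h1 : ρ ≤ 12 * dif W x c₀) (h2 : dif W x c₁ = 0) :
    dif U x (fun i => if i ∈ W then c₁ i else c₀ i) ≤ 11 * ρ / 12 := by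
  have hdisj : Disjoint (U.filter fun i => x i ≠ (fun i => if i ∈ W then c₁ i else c₀ i) i)
      (W.filter fun i => x i ≠ c₀ i) := by
    rw [disjoint_left]
    intro i hi hi'
    rw [mem_filter] at hi hi'
    apply hi.2
    simp only [hi'.1, if_true]
    by_contra hne
    have : i ∈ W.filter fun i => x i ≠ c₁ i := mem_filter.2 ⟨hi'.1, hne⟩
    rw [dif, card_eq_zero] at h2
    rw [h2] at this
    exact absurd this (notMem_empty i)
  have hsub : (U.filter fun i => x i ≠ (fun i => if i ∈ W then c₁ i else c₀ i) i) ∪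
      (W.filter fun i => x i ≠ c₀ i) ⊆ U.filter fun i => x i ≠ c₀ i := by
    intro i hi
    rw [mem_union] at hi
    rcases hi with hi | hi
    · rw [mem_filter] at hi ⊢
      refine ⟨hi.1, ?_⟩
      by_cases hiW : i ∈ W
      · exfalso
        apply hi.2
        simp only [hiW, if_true]
        by_contra hne
        have : i ∈ W.filter fun i => x i ≠ c₁ i := mem_filter.2 ⟨hiW, hne⟩
        rw [dif, card_eq_zero] at h2
        rw [h2] at this
        exact absurd this (notMem_empty i)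
      · have := hi.2
        simp only [hiW, if_false] at this
        exact this
    · rw [mem_filter] at hi ⊢
      exact ⟨hW hi.1, hi.2⟩
  have hc := card_le_card hsub
  rw [card_union_of_disjoint hdisj] at hc
  have e1 : (U.filter fun i => x i ≠ (fun i => if i ∈ W then c₁ i else c₀ i) i).card =
    dif U x (fun i => if i ∈ W then c₁ i else c₀ i) := rfl
  have e2 : (W.filter fun i => x i ≠ c₀ i).card = dif W x c₀ := rfl
  have e3 : (U.filter fun i => x i ≠ c₀ i).card = dif U x c₀ := rfl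
  rw [e1, e2, e3] at hc
  rw [Nat.le_div_iff_mul_le (by norm_num)]
  omega

end

end ItemE12b

open ItemE12b

open Classical in
theorem claimE12b (hE8 : ClaimE8) (hE9 : ClaimE9) (hE12a : ClaimE12a) : ClaimE12b := by
  intro ι _ _ K _ _ Ω V Z u β β₁ R₀ kmax S D hZ hKZ hu hu1 hβ hββ hNE hk1 hR hS hind U hUV hUD
    Ω₁ hΩ₁ hΩne
  by_contra! hneg
  -- basic positivity
  have hβ0 : 0 < β := by linarith
  have hβ1 : 0 < β₁ := by linarith
  set Lz := Real.log (((V.card : ℝ) + 1) * Z) with hLz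
  have hZr : (2 : ℝ) ≤ Z := by exact_mod_cast hZ
  have hVr : (0 : ℝ) ≤ V.card := Nat.cast_nonneg _
  have hVZ : (2 : ℝ) ≤ ((V.card : ℝ) + 1) * Z := by nlinarith
  have hLz0 : 0 < Lz := Real.log_pos (by linarith)
  have hΩ₁pos : (0 : ℝ) < Ω₁.card := by exact_mod_cast hΩne.card_pos
  have hSβ : 8 * β₁ * Lz + 6 * β ≤ β * S := by
    have := mul_le_mul_of_nonneg_left hS hβ0.le
    have e : β * (8 * (β₁ / β) * Lz + 6) = 8 * β₁ * Lz + 6 * β := by
      field_simp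
    linarith
  have hS6 : 6 ≤ S := by
    have : 0 ≤ 8 * (β₁ / β) * Lz := by positivity
    linarith
  have hR6 : 6 ≤ R₀ := by
    have : 0 ≤ 30 * u * (V.card : ℝ) := by positivity
    linarith
  have hlogR : 0 ≤ Real.log R₀ := Real.log_nonneg (by linarith)
  -- U nonempty
  have hUne : U.Nonempty := by
    rw [nonempty_iff_ne_empty]
    rintro rfl
    obtain ⟨x, hx⟩ := hΩne
    have h1 := hneg x
    have h2 : (Ω₁.filter fun y => dif ∅ y x = 0) = Ω₁ := by
      apply filter_true_of_mem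
      intro y _
      simp [dif]
    rw [h2] at h1
    have h3 : Real.exp (-(β * (2 * (12 * Real.log R₀ + 2) * S))) ≤ 1 := by
      rw [Real.exp_le_one_iff]
      have : 0 ≤ β * (2 * (12 * Real.log R₀ + 2) * S) := by positivity
      linarith
    have : (Ω₁.card : ℝ) * Real.exp (-(β * (2 * (12 * Real.log R₀ + 2) * S))) ≤ Ω₁.card * 1 :=
      mul_le_mul_of_nonneg_left h3 hΩ₁pos.le
    linarith
  have hUpos : (0 : ℝ) < U.card := by exact_mod_cast hUne.card_pos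
  have hUV' : (U.card : ℝ) ≤ V.card := by exact_mod_cast card_le_card hUV
  have huU : 0 < u * U.card := by positivity
  -- the function f
  set f : ℕ → ℕ := fun ρ =>
    (univ : Finset (∀ i, K i)).sup fun c => (Ω₁.filter fun x => dif U x c ≤ ρ).card with hf
  have hfle : ∀ ρ c, (Ω₁.filter fun x => dif U x c ≤ ρ).card ≤ f ρ := fun ρ c =>
    le_sup (f := fun c => (Ω₁.filter fun x => dif U x c ≤ ρ).card) (mem_univ c)
  have hfex : ∀ ρ, ∃ c, (Ω₁.filter fun x => dif U x c ≤ ρ).card = f ρ := by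
    intro ρ
    obtain ⟨x, hx⟩ := hΩne
    obtain ⟨c, _, hc⟩ := exists_mem_eq_sup (univ : Finset (∀ i, K i)) ⟨x, mem_univ _⟩
      fun c => (Ω₁.filter fun x => dif U x c ≤ ρ).card
    exact ⟨c, hc.symm⟩
  have hfmono : ∀ ρ ρ', ρ ≤ ρ' → f ρ ≤ f ρ' := by
    intro ρ ρ' h
    obtain ⟨c, hc⟩ := hfex ρ
    rw [← hc]
    refine le_trans (card_le_card ?_) (hfle ρ' c)
    intro x hx
    rw [mem_filter] at hx ⊢
    exact ⟨hx.1, hx.2.trans h⟩
  have hf0 : 0 < f 0 := by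
    obtain ⟨x, hx⟩ := hΩne
    refine lt_of_lt_of_le ?_ (hfle 0 x)
    exact card_pos.2 ⟨x, mem_filter.2 ⟨hx, by rw [dif_self]⟩⟩
  have hf0' : (f 0 : ℝ) < Ω₁.card * Real.exp (-(β * (2 * (12 * Real.log R₀ + 2) * S))) := by
    obtain ⟨c, hc⟩ := hfex 0
    rw [← hc]
    have e : (Ω₁.filter fun x => dif U x c ≤ 0) = Ω₁.filter fun x => dif U x c = 0 := by
      apply filter_congr
      intro x _
      simp
    rw [e]
    exact hneg c
  -- the large radius
  set ρ₀ : ℕ := ⌊30 * u * (U.card : ℝ) + β₁⌋₊ with hρ₀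
  have hr0 : 0 ≤ 30 * u * (U.card : ℝ) + β₁ := by positivity
  have hρ₀le : (ρ₀ : ℝ) ≤ 30 * u * (U.card : ℝ) + β₁ := Nat.floor_le hr0
  have hρ₀1 : 1 ≤ ρ₀ := by
    apply Nat.le_floor
    have : 0 ≤ 30 * u * (U.card : ℝ) := by positivity
    push_cast
    linarith
  have hρ₀R : (ρ₀ : ℝ) ≤ R₀ := by
    have : 30 * u * (U.card : ℝ) ≤ 30 * u * V.card := by
      apply mul_le_mul_of_nonneg_left hUV'
      positivity
    linarith
  have hkm1 : (1 : ℝ) ≤ kmax := by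
    have : 0 ≤ 30 * u * (V.card : ℝ) / β₁ := by positivity
    linarith
  have hNE1 := hNE U hUV hUne Ω₁ hΩ₁ hΩne 1 le_rfl (by simpa using hkm1)
  have hfρ₀ : Real.exp (-β) * (Ω₁.card : ℝ) ≤ f ρ₀ := by
    have h1 : ((pairs Ω₁ 1).filter fun q =>
        (dif U (∏ j, q.1 j) (∏ j, q.2 j) : ℝ) ≤ 30 * u * U.card + (1 : ℕ) * β₁).card ≤
        Ω₁.card ^ 1 * f ρ₀ := by
      apply pairs_le Ω₁ 1 (f ρ₀)
        (fun p q => (dif U (∏ j, p j) (∏ j, q j) : ℝ) ≤ 30 * u * U.card + (1 : ℕ) * β₁)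
      intro q
      refine le_trans ?_ (hfle ρ₀ (∏ j, q j))
      refine card_le_card_of_injOn (fun p => p 0) ?_ ?_
      · intro p hp
        have hp' := mem_filter.1 (mem_coe.1 hp)
        rw [mem_coe, mem_filter]
        refine ⟨(Fintype.mem_piFinset.1 hp'.1) 0, ?_⟩
        apply Nat.le_floor
        have h3 := hp'.2
        rw [Fin.prod_univ_one (fun j => p j)] at h3
        simpa using h3
      · intro p _ p' _ h
        funext j
        have : j = 0 := Subsingleton.elim _ _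
        rw [this]
        exact h
    have h2 : ((((pairs Ω₁ 1).filter fun q =>
        (dif U (∏ j, q.1 j) (∏ j, q.2 j) : ℝ) ≤ 30 * u * U.card + (1 : ℕ) * β₁).card : ℕ) : ℝ) ≤
        (Ω₁.card : ℝ) * f ρ₀ := by
      have := (Nat.cast_le (α := ℝ)).2 h1
      push_cast at this ⊢
      simpa using this
    have h3 := hNE1.trans h2
    have h4 : Real.exp (-β) * (Ω₁.card : ℝ) * Ω₁.card ≤ f ρ₀ * Ω₁.card := by
      have e : Real.exp (-(((1 : ℕ) : ℝ) * β)) * (Ω₁.card : ℝ) ^ (2 * 1) =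
        Real.exp (-β) * (Ω₁.card : ℝ) * Ω₁.card := by
        rw [Nat.cast_one, one_mul]
        ring
      rw [e] at h3
      linarith
    exact le_of_mul_le_mul_right h4 hΩ₁pos
  -- the scale
  obtain ⟨L₂, hL₂⟩ : ∃ L₂ : ℝ, L₂ = 8 * β₁ * Lz + 5 * β + β * S := ⟨_, rfl⟩
  have hL₂0 : 0 ≤ L₂ := by
    rw [hL₂]
    positivity
  have hL₂le : L₂ ≤ β * (2 * S - 1) := by
    rw [hL₂]
    linarith
  have hlogρ : Real.log ρ₀ ≤ Real.log R₀ :=
    Real.log_le_log (by exact_mod_cast hρ₀1) hρ₀R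
  have hexp : L₂ * (12 * Real.log ρ₀ + 1) + -(β * (2 * (12 * Real.log R₀ + 2) * S)) ≤ -β := by
    have h1 : L₂ * (12 * Real.log ρ₀ + 1) ≤ L₂ * (12 * Real.log R₀ + 1) :=
      mul_le_mul_of_nonneg_left (by linarith) hL₂0
    have h2 : L₂ * (12 * Real.log R₀ + 1) ≤ β * (2 * S - 1) * (12 * Real.log R₀ + 1) :=
      mul_le_mul_of_nonneg_right hL₂le (by positivity)
    have h3 : β * (2 * S - 1) * (12 * Real.log R₀ + 1) + β ≤
        β * (2 * (12 * Real.log R₀ + 2) * S) := by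
      nlinarith [mul_nonneg hβ0.le hlogR, mul_nonneg hβ0.le (by linarith : (0 : ℝ) ≤ S)]
    linarith
  obtain ⟨ρ, hρ1, hρle, hρf⟩ := hE8 (fun n => (f n : ℝ)) L₂ ρ₀ hL₂0 (by exact_mod_cast hf0) hρ₀1 (by
    calc Real.exp (L₂ * (12 * Real.log ρ₀ + 1)) * (f 0 : ℝ)
        < Real.exp (L₂ * (12 * Real.log ρ₀ + 1)) *
          (Ω₁.card * Real.exp (-(β * (2 * (12 * Real.log R₀ + 2) * S)))) :=
          mul_lt_mul_of_pos_left hf0' (Real.exp_pos _)
      _ = Real.exp (L₂ * (12 * Real.log ρ₀ + 1) + -(β * (2 * (12 * Real.log R₀ + 2) * S))) *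
          Ω₁.card := by
          rw [Real.exp_add]
          ring
      _ ≤ Real.exp (-β) * Ω₁.card :=
          mul_le_mul_of_nonneg_right (Real.exp_le_exp.2 hexp) hΩ₁pos.le
      _ ≤ f ρ₀ := hfρ₀)
  obtain ⟨c₀, hc₀⟩ := hfex ρ
  set Ω₂ := Ω₁.filter fun x => dif U x c₀ ≤ ρ with hΩ₂
  have hΩ₂Ω : Ω₂ ⊆ Ω := (filter_subset _ _).trans hΩ₁
  have hfρpos : 0 < f ρ := lt_of_lt_of_le hf0 (hfmono 0 ρ (Nat.zero_le _))
  have hΩ₂ne : Ω₂.Nonempty := card_pos.1 (by rw [hc₀]; exact hfρpos)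
  have hΩ₂pos : (0 : ℝ) < Ω₂.card := by exact_mod_cast hΩ₂ne.card_pos
  -- ρ is large
  have hρLz : L₂ ≤ ρ * Lz := by
    have h1 := hE9 ι K Ω₁ U c₀ Z ρ (f 0) (by omega) hKZ (by
      intro c'
      refine le_trans (card_le_card ?_) (hfle 0 c')
      intro x hx
      rw [mem_filter] at hx ⊢
      exact ⟨hx.1, hx.2.le⟩)
    rw [hc₀] at h1
    have h2 : (f ρ : ℝ) ≤ (((V.card : ℝ) + 1) * Z) ^ ρ * f 0 := by
      have h3 : (f ρ : ℝ) ≤ (((U.card : ℝ) + 1) * Z) ^ ρ * f 0 := by exact_mod_cast h1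
      refine h3.trans (mul_le_mul_of_nonneg_right ?_ (Nat.cast_nonneg _))
      apply pow_le_pow_left₀ (by positivity)
      apply mul_le_mul_of_nonneg_right _ (by positivity)
      linarith
    have h4 : Real.exp L₂ * f 0 ≤ (((V.card : ℝ) + 1) * Z) ^ ρ * f 0 := by
      refine le_trans ?_ (hρf.trans h2)
      apply mul_le_mul_of_nonneg_left _ (Real.exp_pos _).le
      exact_mod_cast hfmono 0 _ (Nat.zero_le _)
    have h5 : Real.exp L₂ ≤ (((V.card : ℝ) + 1) * Z) ^ ρ :=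
      le_of_mul_le_mul_right h4 (by exact_mod_cast hf0)
    have h6 := Real.log_le_log (Real.exp_pos _) h5
    rw [Real.log_exp, Real.log_pow] at h6
    exact h6
  have hρβ : 8 * β₁ < ρ := by
    have h1 : 8 * β₁ * Lz < ρ * Lz := by
      refine lt_of_lt_of_le ?_ hρLz
      rw [hL₂]
      have : 0 < β * S := by positivity
      linarith
    exact lt_of_mul_lt_mul_right h1 hLz0.le
  have hρpos : (0 : ℝ) < ρ := by linarith
  -- the number of factors
  set k : ℕ := ⌈240 * u * (U.card : ℝ) / ρ⌉₊ with hk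
  have hkpos : 0 < 240 * u * (U.card : ℝ) / ρ := by positivity
  have hk1' : 1 ≤ k := Nat.one_le_iff_ne_zero.2 (Nat.ceil_pos.2 hkpos).ne'
  have hkle : (k : ℝ) ≤ 240 * u * (U.card : ℝ) / ρ + 1 := (Nat.ceil_lt_add_one hkpos.le).le
  have hkge : 240 * u * (U.card : ℝ) ≤ k * ρ := by
    have := Nat.le_ceil (240 * u * (U.card : ℝ) / ρ)
    rw [div_le_iff₀ hρpos] at this
    exact this
  have hkk : (k : ℝ) ≤ kmax := by
    refine hkle.trans (le_trans ?_ hk1)
    have h1 : 240 * u * (U.card : ℝ) / ρ ≤ 240 * u * (U.card : ℝ) / (8 * β₁) :=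
      div_le_div_of_nonneg_left (by positivity) (by positivity) hρβ.le
    have h2 : 240 * u * (U.card : ℝ) / (8 * β₁) = 30 * u * U.card / β₁ := by
      field_simp
      ring
    have h3 : 30 * u * (U.card : ℝ) / β₁ ≤ 30 * u * V.card / β₁ := by
      apply div_le_div_of_nonneg_right _ hβ1.le
      apply mul_le_mul_of_nonneg_left hUV'
      positivity
    linarith
  have hNEk := hNE U hUV hUne Ω₂ hΩ₂Ω hΩ₂ne k hk1' hkk
  obtain ⟨W, hWU, hWc, hWΩ⟩ := hE12a ι K Ω₂ U c₀ ρ k β hρ1 hk1' hβ0.le hΩ₂ne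
    (fun x hx => (mem_filter.1 hx).2)
    (by
      have h1 : (Ω₂.filter fun x => dif U x c₀ ≤ 11 * ρ / 12).card ≤ f (11 * ρ / 12) := by
        refine le_trans (card_le_card ?_) (hfle _ c₀)
        intro x hx
        rw [mem_filter] at hx ⊢
        exact ⟨(mem_filter.1 hx.1).1, hx.2⟩
      have h2 : ((Ω₂.filter fun x => dif U x c₀ ≤ 11 * ρ / 12).card : ℝ) ≤ f (11 * ρ / 12) := by
        exact_mod_cast h1
      refine h2.trans ?_
      have h3 : Real.exp L₂ * f (11 * ρ / 12) ≤ Ω₂.card := by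
        rw [hc₀]
        exact hρf
      have h4 : (f (11 * ρ / 12) : ℝ) ≤ Ω₂.card * Real.exp (-L₂) := by
        rw [Real.exp_neg, ← div_eq_mul_inv, le_div_iff₀ (Real.exp_pos _)]
        linarith
      refine h4.trans (mul_le_mul_of_nonneg_left (Real.exp_le_exp.2 ?_) hΩ₂pos.le)
      have h5 : 4 * β + 5 ≤ L₂ := by
        rw [hL₂]
        have : 0 < β * S := by positivity
        have : 0 < 8 * β₁ * Lz := by positivity
        linarith
      linarith)
    (by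
      refine hNEk.trans ?_
      have h1 : ((pairs Ω₂ k).filter fun q =>
          (dif U (∏ j, q.1 j) (∏ j, q.2 j) : ℝ) ≤ 30 * u * U.card + k * β₁) ⊆
          (pairs Ω₂ k).filter fun q => 4 * dif U (∏ j, q.1 j) (∏ j, q.2 j) ≤ k * ρ := by
        intro q hq
        rw [mem_filter] at hq ⊢
        refine ⟨hq.1, ?_⟩
        have h2 := hq.2
        have h3 : (k : ℝ) * (8 * β₁) ≤ k * ρ :=
          mul_le_mul_of_nonneg_left hρβ.le (Nat.cast_nonneg _)
        have h4 : (4 : ℝ) * (dif U (∏ j, q.1 j) (∏ j, q.2 j) : ℝ) ≤ k * ρ := by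
          linarith
        exact_mod_cast h4
      exact_mod_cast card_le_card h1)
  -- the size of W
  have hWV : W ⊆ V := hWU.trans hUV
  have hWD : (W.card : ℝ) ≤ D := by
    have h1 : (W.card : ℝ) ≤ 2 * k * ρ := by exact_mod_cast hWc
    have h2 : (k : ℝ) * ρ ≤ 240 * u * U.card + ρ := by
      have := mul_le_mul_of_nonneg_right hkle hρpos.le
      have e : (240 * u * (U.card : ℝ) / ρ + 1) * ρ = 240 * u * U.card + ρ := by
        field_simp
      linarith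
    have h3 : (ρ : ℝ) ≤ ρ₀ := by exact_mod_cast hρle
    nlinarith
  set Ω₃ := Ω₂.filter fun x => ρ ≤ 12 * dif W x c₀ with hΩ₃
  have hΩ₃pos : (0 : ℝ) < Ω₃.card := lt_of_le_of_lt (by positivity) hWΩ
  have hΩ₃ne : Ω₃.Nonempty := card_pos.1 (by exact_mod_cast hΩ₃pos)
  obtain ⟨c₁, hc₁⟩ := hind W hWV hWD Ω₃ ((filter_subset _ _).trans hΩ₂Ω) hΩ₃ne
  have h4 : (Ω₃.filter fun x => dif W x c₁ = 0).card ≤ f (11 * ρ / 12) := by
    refine le_trans (card_le_card ?_) (hfle _ fun i => if i ∈ W then c₁ i else c₀ i)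
    intro x hx
    rw [mem_filter] at hx
    have hx3 := mem_filter.1 hx.1
    have hx2 := mem_filter.1 hx3.1
    rw [mem_filter]
    refine ⟨hx2.1, ?_⟩
    have := recentre hWU x c₀ c₁ ρ hx2.2 hx3.2 hx.2
    convert this
  have h5 : ((Ω₃.filter fun x => dif W x c₁ = 0).card : ℝ) ≤ f (11 * ρ / 12) := by
    exact_mod_cast h4
  have h6 : Real.exp L₂ * f (11 * ρ / 12) ≤ Ω₂.card := by
    rw [hc₀]
    exact hρf
  have h7 : Ω₂.card * Real.exp (-(4 * β + 5)) * Real.exp (-(β * S)) < f (11 * ρ / 12) := by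
    refine lt_of_lt_of_le ?_ (hc₁.trans h5)
    exact mul_lt_mul_of_pos_right hWΩ (Real.exp_pos _)
  have h8 : Real.exp L₂ * (Ω₂.card * Real.exp (-(4 * β + 5)) * Real.exp (-(β * S))) <
      Ω₂.card :=
    lt_of_lt_of_le (mul_lt_mul_of_pos_left h7 (Real.exp_pos _)) h6
  have h9 : Real.exp (L₂ + (-(4 * β + 5) + -(β * S))) * (Ω₂.card : ℝ) < 1 * Ω₂.card := by
    rw [Real.exp_add, Real.exp_add, one_mul]
    calc Real.exp L₂ * (Real.exp (-(4 * β + 5)) * Real.exp (-(β * S))) * (Ω₂.card : ℝ)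
        = Real.exp L₂ * (Ω₂.card * Real.exp (-(4 * β + 5)) * Real.exp (-(β * S))) := by ring
      _ < Ω₂.card := h8
  have h10 : Real.exp (L₂ + (-(4 * β + 5) + -(β * S))) < 1 := lt_of_mul_lt_mul_right h9 hΩ₂pos.le
  rw [Real.exp_lt_one_iff] at h10
  have : 0 < 8 * β₁ * Lz := by positivity
  rw [hL₂] at h10
  linarith

end Pool.Agent.Work.MP_e0aece_nt.Eps

end
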