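import Mathlib
import Mathlib.Combinatorics.Additive.VerySmallDoubling
import Pool.Agent.Work.MP_e0aece_nt.Bd.B06
import Pool.Agent.Work.MP_e0aece_nt.Bd.B02

/-! Bundle of small proof modules (one section per former module). -/

section

/-!
# E13: a dyadic sum
-/

set_option autoImplicit false

namespace Pool.Agent.Work.MP_e0aece_nt.Eps

open Finset Sq

namespace ItemE13

lemma exp_neg_two_fifths : (65 : ℝ) / 100 < Real.exp (-(2 / 5)) := by
  have h1 : (9 : ℝ) / 10 ≤ Real.exp (-(1 / 10)) := by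
    have := Real.add_one_le_exp (-(1 / 10) : ℝ)
    linarith
  have h2 : Real.exp (-(2 / 5)) = Real.exp (-(1 / 10)) ^ 4 := by
    rw [← Real.exp_nat_mul]
    congr 1
    norm_num
  rw [h2]
  calc (65 : ℝ) / 100 < (9 / 10) ^ 4 := by norm_num
    _ ≤ _ := pow_le_pow_left₀ (by norm_num) h1 4

lemma exp_neg_three : Real.exp (-3) ≤ 1 / 16 := by
  have h1 : (16 : ℝ) ≤ Real.exp 3 := by
    have h2 : Real.exp 3 = Real.exp 1 ^ 3 := by
      rw [← Real.exp_nat_mul]
      norm_num
    rw [h2]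
    have h3 : (2.7 : ℝ) ≤ Real.exp 1 := by
      have := Real.exp_one_gt_d9
      linarith
    calc (16 : ℝ) ≤ 2.7 ^ 3 := by norm_num
      _ ≤ _ := pow_le_pow_left₀ (by norm_num) h3 3
  rw [Real.exp_neg, one_div]
  exact inv_anti₀ (by norm_num) h1

lemma exp_neg_two : Real.exp (-2) ≤ 1 / 4 := by
  have h1 : (4 : ℝ) ≤ Real.exp 2 := by
    have h2 : Real.exp 2 = Real.exp 1 ^ 2 := by
      rw [← Real.exp_nat_mul]
      norm_num
    rw [h2]
    have h3 : (2.7 : ℝ) ≤ Real.exp 1 := by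
      have := Real.exp_one_gt_d9
      linarith
    calc (4 : ℝ) ≤ 2.7 ^ 2 := by norm_num
      _ ≤ _ := pow_le_pow_left₀ (by norm_num) h3 2
  rw [Real.exp_neg, one_div]
  exact inv_anti₀ (by norm_num) h1

/-- Sum over a part on which `f ≤ exp (-b)`. -/
lemma part_le {τ : Type} (Q : Finset τ) (f : τ → ℝ) (s : ℕ) (b M : ℝ)
    (h0 : ∀ σ ∈ Q, 0 ≤ f σ) (hb : ∀ σ ∈ Q, f σ ≤ Real.exp (-b)) (hM : (Q.card : ℝ) ≤ M) :
    ∑ σ ∈ Q, f σ ^ s ≤ M * Real.exp (-(s * b)) := by
  have h1 : ∀ σ ∈ Q, f σ ^ s ≤ Real.exp (-(s * b)) := by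
    intro σ hσ
    calc f σ ^ s ≤ Real.exp (-b) ^ s := pow_le_pow_left₀ (h0 σ hσ) (hb σ hσ) s
      _ = Real.exp (-(s * b)) := by
        rw [← Real.exp_nat_mul]
        congr 1
        ring
  calc ∑ σ ∈ Q, f σ ^ s ≤ ∑ _σ ∈ Q, Real.exp (-(s * b)) := Finset.sum_le_sum h1
    _ = Q.card * Real.exp (-(s * b)) := by rw [Finset.sum_const, nsmul_eq_mul]
    _ ≤ M * Real.exp (-(s * b)) := mul_le_mul_of_nonneg_right hM (Real.exp_pos _).le

end ItemE13

open ItemE13 in
theorem claimE13 : ClaimE13 := by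
  classical
  intro τ P f J S μ s hS hs hμ hJ hf hP hcount
  have hs40 : (40 : ℝ) ≤ s := by linarith
  have hs0 : (0 : ℝ) ≤ s := by linarith
  by_cases hμ2 : μ < 2 / 5
  · have h1 := part_le P f s μ (Real.exp J) (fun σ hσ => (hf σ hσ).1)
      (fun σ hσ => by
        calc f σ ≤ 65 / 100 := (hf σ hσ).2
          _ ≤ Real.exp (-(2 / 5)) := exp_neg_two_fifths.le
          _ ≤ Real.exp (-μ) := Real.exp_le_exp.2 (by linarith)) hP
    rw [← Real.exp_add] at h1
    have h2 : Real.exp (J + -(s * μ)) ≤ Real.exp (-2) := by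
      apply Real.exp_le_exp.2
      have : 0 ≤ s * μ := by positivity
      linarith
    linarith [exp_neg_two]
  · push Not at hμ2
    obtain ⟨N, hN1, hN2⟩ := exists_nat_pow_near (x := μ / (2 / 5)) (y := (2 : ℝ))
      (by rw [le_div_iff₀ (by norm_num)]; linarith) (by norm_num)
    have hb : ∀ n : ℕ, 2 / 5 ≤ (2 / 5 : ℝ) * 2 ^ n := by
      intro n
      have : (1 : ℝ) ≤ 2 ^ n := one_le_pow₀ (by norm_num)
      linarith
    have hNμ : (2 / 5 : ℝ) * 2 ^ N ≤ μ := by
      rw [le_div_iff₀ (by norm_num)] at hN1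
      linarith
    have hNμ2 : μ < 2 * ((2 / 5 : ℝ) * 2 ^ N) := by
      rw [div_lt_iff₀ (by norm_num), pow_succ] at hN2
      linarith
    -- the large values
    have hlarge : ∀ n : ℕ, (2 / 5 : ℝ) * 2 ^ n ≤ μ →
        ∑ σ ∈ P.filter (fun σ => Real.exp (-((2 / 5 : ℝ) * 2 ^ n)) ≤ f σ), f σ ^ s ≤
          (1 / 15) * (1 - (1 / 16) ^ n) := by
      intro n
      induction n with
      | zero =>
        intro _
        have : P.filter (fun σ => Real.exp (-((2 / 5 : ℝ) * 2 ^ 0)) ≤ f σ) = ∅ := by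
          apply Finset.filter_eq_empty_iff.2
          intro σ hσ
          rw [pow_zero, mul_one, not_le]
          exact lt_of_le_of_lt (hf σ hσ).2 exp_neg_two_fifths
        rw [this]
        simp
      | succ n ih =>
        intro hn
        have hn0 : (2 / 5 : ℝ) * 2 ^ n ≤ μ := by
          have : (0 : ℝ) < 2 ^ n := by positivity
          rw [pow_succ] at hn
          linarith
        have hih := ih hn0
        set b : ℝ := (2 / 5 : ℝ) * 2 ^ n with hbdef
        have hb1 : (2 / 5 : ℝ) * 2 ^ (n + 1) = 2 * b := by rw [hbdef, pow_succ]; ring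
        rw [hb1] at hn ⊢
        have hsplit : P.filter (fun σ => Real.exp (-(2 * b)) ≤ f σ) =
            P.filter (fun σ => Real.exp (-b) ≤ f σ) ∪
              P.filter (fun σ => Real.exp (-(2 * b)) ≤ f σ ∧ f σ < Real.exp (-b)) := by
          ext σ
          simp only [Finset.mem_union, Finset.mem_filter]
          constructor
          · rintro ⟨h1, h2⟩
            by_cases h3 : Real.exp (-b) ≤ f σ
            · exact Or.inl ⟨h1, h3⟩
            · exact Or.inr ⟨h1, h2, not_le.1 h3⟩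
          · rintro (⟨h1, h2⟩ | ⟨h1, h2, _⟩)
            · refine ⟨h1, le_trans (Real.exp_le_exp.2 ?_) h2⟩
              have := hb n
              linarith
            · exact ⟨h1, h2⟩
        have hdisj : Disjoint (P.filter (fun σ => Real.exp (-b) ≤ f σ))
            (P.filter (fun σ => Real.exp (-(2 * b)) ≤ f σ ∧ f σ < Real.exp (-b))) := by
          rw [Finset.disjoint_filter]
          intro σ _ h1 h2
          exact absurd h1 (not_le.2 h2.2)
        rw [hsplit, Finset.sum_union hdisj]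
        have hQ := part_le (P.filter (fun σ => Real.exp (-(2 * b)) ≤ f σ ∧ f σ < Real.exp (-b)))
          f s b (Real.exp ((8 * (2 * b) + 6) * S))
          (fun σ hσ => (hf σ (Finset.mem_filter.1 hσ).1).1)
          (fun σ hσ => (Finset.mem_filter.1 hσ).2.2.le)
          (hcount (2 * b) (by have := hb n; linarith) hn _ (Finset.filter_subset _ _)
            (fun σ hσ => (Finset.mem_filter.1 hσ).2.1))
        rw [← Real.exp_add] at hQ
        have hb0 : 0 < b := by rw [hbdef]; positivity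
        have h2n : ((n : ℝ) + 1) ≤ 2 ^ n := by
          have : n + 1 ≤ 2 ^ n := Nat.lt_two_pow_self
          exact_mod_cast this
        have hexp : (8 * (2 * b) + 6) * S + -(s * b) ≤ (((n + 1 : ℕ) : ℝ)) * (-3) := by
          have h1 : 40 * S * b ≤ s * b := mul_le_mul_of_nonneg_right hs hb0.le
          have h2 : (6 : ℝ) ≤ 24 * b := by have := hb n; linarith
          have h3 : (24 * b - 6) * 1 ≤ (24 * b - 6) * S :=
            mul_le_mul_of_nonneg_left hS (by linarith)
          have h4 : 24 * b - 6 ≥ 3 * ((n : ℝ) + 1) := by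
            rw [hbdef]
            linarith
          push_cast
          nlinarith
        have hQ2 : Real.exp ((8 * (2 * b) + 6) * S + -(s * b)) ≤ (1 / 16) ^ (n + 1) := by
          calc Real.exp ((8 * (2 * b) + 6) * S + -(s * b)) ≤ Real.exp (((n + 1 : ℕ) : ℝ) * (-3)) :=
              Real.exp_le_exp.2 hexp
            _ = Real.exp (-3) ^ (n + 1) := by rw [Real.exp_nat_mul]
            _ ≤ (1 / 16) ^ (n + 1) := pow_le_pow_left₀ (Real.exp_pos _).le exp_neg_three _
        have hlast : (1 / 15 : ℝ) * (1 - (1 / 16) ^ n) + (1 / 16) ^ (n + 1) =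
            1 / 15 * (1 - (1 / 16) ^ (n + 1)) := by
          rw [pow_succ]; ring
        linarith
    -- the small values
    have hsmall := part_le (P.filter (fun σ => ¬ Real.exp (-((2 / 5 : ℝ) * 2 ^ N)) ≤ f σ))
      f s ((2 / 5 : ℝ) * 2 ^ N) (Real.exp J)
      (fun σ hσ => (hf σ (Finset.mem_filter.1 hσ).1).1)
      (fun σ hσ => (not_le.1 (Finset.mem_filter.1 hσ).2).le)
      (le_trans (by exact_mod_cast Finset.card_filter_le _ _) hP)
    rw [← Real.exp_add] at hsmall
    have hexp : J + -(s * ((2 / 5 : ℝ) * 2 ^ N)) ≤ -2 := by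
      have h1 : (s : ℝ) * μ ≤ s * (2 * ((2 / 5 : ℝ) * 2 ^ N)) :=
        mul_le_mul_of_nonneg_left hNμ2.le hs0
      linarith
    have h2 := Real.exp_le_exp.2 hexp
    have h3 := hlarge N hNμ
    rw [← Finset.sum_filter_add_sum_filter_not P
      (fun σ => Real.exp (-((2 / 5 : ℝ) * 2 ^ N)) ≤ f σ)]
    have h4 : (0 : ℝ) < (1 / 16) ^ N := by positivity
    linarith [exp_neg_two]

end Pool.Agent.Work.MP_e0aece_nt.Eps

end

section

/-!
# E14: the spectrum of a maximal state
-/

namespace Pool.Agent.Work.MP_e0aece_nt.Eps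

open Finset Sq

namespace ItemE14

section Card

variable {ι : Type} [Fintype ι] [DecidableEq ι] {H : ι → Type} [∀ i, AddCommGroup (H i)]
  [∀ i, Fintype (H i)]

omit [Fintype ι] [DecidableEq ι] in
theorem card_char (i : ι) :
    Fintype.card (AddChar (H i) ℂ) = Fintype.card (H i) :=
  AddChar.card_eq

theorem card_P (P : Finset (∀ i, AddChar (H i) ℂ)) (Z : ℕ) (hZ : 2 ≤ Z)
    (hH : ∀ i, Fintype.card (H i) ≤ Z) :
    (P.card : ℝ) ≤ Real.exp ((Fintype.card ι : ℝ) * Real.log Z) := by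
  classical
  have h1 : P.card ≤ Fintype.card (∀ i, AddChar (H i) ℂ) := Finset.card_le_univ P
  have h2 : Fintype.card (∀ i, AddChar (H i) ℂ) ≤ Z ^ Fintype.card ι := by
    rw [Fintype.card_pi]
    calc ∏ i, Fintype.card (AddChar (H i) ℂ) ≤ ∏ _i : ι, Z := by
          apply Finset.prod_le_prod' 
          intro i _
          rw [card_char i]
          exact hH i
      _ = Z ^ Fintype.card ι := by simp
  have h3 : (P.card : ℝ) ≤ (Z : ℝ) ^ Fintype.card ι := by exact_mod_cast h1.trans h2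
  have hZ0 : (0 : ℝ) < Z := by
    have : 0 < Z := by omega
    exact_mod_cast this
  rw [Real.exp_nat_mul, Real.exp_log hZ0]
  exact h3

end Card

theorem sum_pos {ι : Type} [Fintype ι] [DecidableEq ι] {H : ι → Type} [∀ i, AddCommGroup (H i)]
    [∀ i, Fintype (H i)] {g : Finset ι → ∀ i, H i} {lam m : ℕ} {Y u : ℝ}
    {C : Finset (Finset ι)} {B I : Finset ι} {w : Finset ι → ℝ} {a : ℝ}
    (h : St2 g lam m Y u C B I w a) : 0 < ∑ A, w A := by
  obtain ⟨_, _, _, _, _, _, h7⟩ := h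
  have h8 : (0 : ℝ) < 2 ^ Fintype.card ι * Real.exp (-2 * a - Y + u * B.card) := by positivity
  have h9 : (0 : ℝ) < 2 ^ B.card := by positivity
  by_contra hcon
  push Not at hcon
  have := mul_nonpos_of_nonpos_of_nonneg hcon h9.le
  linarith

/-- numerical facts -/
theorem num1 (m : ℝ) (y u : ℝ) (hm : 100 ≤ m) (hy0 : 0 ≤ y) (hu0 : 0 < u)
    (hu : u ≤ 1 / 1000) (hy : 2 * (y + 1) ≤ u * m) :
    3 * (y * Real.log 2) + 4 ≤ m * Real.log 2 ∧ y * Real.log 2 ≤ m / 2000 ∧
      0 ≤ y * Real.log 2 := by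
  have h1 := Real.log_two_gt_d9
  have h2 := Real.log_two_lt_d9
  have h3 : u * m ≤ m / 1000 := by nlinarith
  have h4 : y ≤ m / 2000 := by linarith
  have h5 : y * Real.log 2 ≤ y := by nlinarith
  refine ⟨by nlinarith, by linarith, by positivity⟩

theorem num2 (m kb uT Y : ℝ) (hm : 100 ≤ m) (hY : Y ≤ m / 2000) (hkb : 6 * kb ≤ m)
    (huT : uT ≤ m / 2000) :
    3 * Y + 3 + 3 * kb + 3 / 2 * uT + 21 / 20 ≤ m * Real.log 2 := by
  have h1 := Real.log_two_gt_d9
  nlinarith

theorem num3 (M m b u v : ℝ) (hm : 100 ≤ m) (hmM : 20 * m ≤ M) (hb0 : 2 / 5 ≤ b)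
    (hb : b ≤ m / 20) (hu0 : 0 < u) (hu : u ≤ 1 / 1000) (hv0 : 0 ≤ v) (hv : v ≤ M) :
    8 * b + 6 ≤ 12 * (M / m) * (8 * b + 6) ∧
    30 * u * v / (12 * (M / m) * (8 * b + 6)) + 1 ≤ m / (6 * b) ∧
    30 * u * v + 12 * (M / m) * (8 * b + 6) ≤ 6 * M := by
  have hm0 : 0 < m := by linarith
  have hM0 : 0 < M := by linarith
  have hb1 : 0 < b := by linarith
  have hq : 20 ≤ M / m := by rwa [le_div_iff₀ hm0]
  have hq0 : 0 < M / m := by positivity
  refine ⟨by nlinarith, ?_, ?_⟩
  · have h1 : 30 * u * v / (12 * (M / m) * (8 * b + 6)) ≤ m / (100 * b) := by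
      rw [div_le_div_iff₀ (by positivity) (by positivity)]
      have e : m * (12 * (M / m) * (8 * b + 6)) = 12 * M * (8 * b + 6) := by
        field_simp
      rw [e]
      have h2 : u * v ≤ 1 / 1000 * M := mul_le_mul hu hv hv0 (by norm_num)
      have h3 : 0 ≤ u * v := by positivity
      nlinarith [mul_pos hM0 hb1, mul_le_mul_of_nonneg_right h2 hb1.le]
    have h2 : 1 ≤ m / (20 * b) := by
      rw [le_div_iff₀ (by positivity)]
      linarith
    have h3 : m / (6 * b) = (1 / 6) * (m / b) := by field_simp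
    have h4 : m / (100 * b) = (1 / 100) * (m / b) := by field_simp
    have h5 : m / (20 * b) = (1 / 20) * (m / b) := by field_simp
    have h6 : 0 < m / b := by positivity
    rw [h3]
    rw [h4] at h1
    rw [h5] at h2
    linarith
  · have h1 : 12 * (M / m) * (8 * b + 6) = 96 * (M / m) * b + 72 * (M / m) := by ring
    have h2 : (M / m) * b ≤ M / 20 := by
      calc (M / m) * b ≤ (M / m) * (m / 20) := by gcongr
        _ = M / 20 := by field_simp
    have h3 : M / m ≤ M / 100 := by gcongr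
    have h4 : u * v ≤ 1 / 1000 * M := mul_le_mul hu hv hv0 (by norm_num)
    rw [h1]
    nlinarith

end ItemE14

theorem claimE14 (hE4 : ClaimE4) (hE5 : ClaimE5) (hE7 : ClaimE7)
    (hE12 : ClaimE12) (hE13 : ClaimE13) : ClaimE14 := by
  classical
  intro ι _ _ H _ _ g lam m y Z Jr s u C B I w a P hZ hH hPR hm hmM hu0 hu hy hJ hMx hB hs1 hs2 hP
  have hS0 : 0 < ∑ A, w A := ItemE14.sum_pos hMx.1
  have hmr : (100 : ℝ) ≤ m := by exact_mod_cast hm
  have hmMr : 20 * (m : ℝ) ≤ Fintype.card ι := by exact_mod_cast hmM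
  obtain ⟨n1, n2, n3⟩ := ItemE14.num1 m y u hmr (Nat.cast_nonneg y) hu0 hu hy
  have hM0 : (0 : ℝ) < Fintype.card ι := by linarith
  have hM1 : (1 : ℝ) ≤ Fintype.card ι := by linarith
  have hZr : (2 : ℝ) ≤ Z := by exact_mod_cast hZ
  have hlog6 : 0 ≤ Real.log (6 * (Fintype.card ι : ℝ)) := Real.log_nonneg (by linarith)
  have hlogMZ : 0 ≤ Real.log (((Fintype.card ι : ℝ) + 1) * Z) := Real.log_nonneg (by nlinarith)
  have hS1 : 1 ≤ (2 * (12 * Real.log (6 * (Fintype.card ι : ℝ)) + 2)) ^ Jr *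
      (96 * ((Fintype.card ι : ℝ) / m) * Real.log (((Fintype.card ι : ℝ) + 1) * Z) + 6) := by
    have h1 : 1 ≤ (2 * (12 * Real.log (6 * (Fintype.card ι : ℝ)) + 2)) ^ Jr :=
      one_le_pow₀ (by linarith)
    have h2 : 1 ≤ 96 * ((Fintype.card ι : ℝ) / m) *
        Real.log (((Fintype.card ι : ℝ) + 1) * Z) + 6 := by
      have : 0 ≤ 96 * ((Fintype.card ι : ℝ) / m) * Real.log (((Fintype.card ι : ℝ) + 1) * Z) := by
        positivity
      linarith
    exact one_le_mul_of_one_le_of_one_le h1 h2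
  have main := hE13 (∀ i, AddChar (H i) ℂ) P (fun σ => ‖hat g w σ‖ / ∑ A, w A)
    ((Fintype.card ι : ℝ) * Real.log Z) _ (m / 20) s hS1 hs1 (by positivity) (by linarith)
    ?_ (ItemE14.card_P P Z hZ hH) ?_
  · -- conclusion
    have h1 : ∑ σ ∈ P, ‖hat g w σ‖ ^ s =
        (∑ σ ∈ P, (‖hat g w σ‖ / ∑ A, w A) ^ s) * (∑ A, w A) ^ s := by
      rw [Finset.sum_mul]
      apply Finset.sum_congr rfl
      intro σ _
      rw [← mul_pow, div_mul_cancel₀ _ hS0.ne']
    rw [h1]
    exact mul_le_mul_of_nonneg_right main (by positivity)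
  · intro σ hσ
    obtain ⟨p1, p2, p3⟩ := hP σ hσ
    refine ⟨by positivity, ?_⟩
    rw [div_le_iff₀ hS0]
    exact hE4 ι H g lam m (y * Real.log 2) u C B I w a σ hPR hMx hB n3 hu0 (by linarith) n1 p1 p2 p3
  · intro b hb1 hb2 P' hP' hf
    have hb0 : 0 < b := by linarith
    have hVM : (univ \ B).card ≤ Fintype.card ι := Finset.card_le_univ _
    have hVMr : (((univ \ B).card : ℕ) : ℝ) ≤ Fintype.card ι := by exact_mod_cast hVM
    have hspec : ∀ σ ∈ P', InSpec g lam B w b σ := by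
      intro σ hσ
      obtain ⟨p1, p2, p3⟩ := hP σ (hP' hσ)
      refine ⟨p1, p2, ?_⟩
      have := hf σ hσ
      rwa [le_div_iff₀ hS0] at this
    have hNE := hE7 ι (fun i => AddChar (H i) ℂ) P' (univ \ B) (Fintype.card ι) m u b hb0 hu0
      (by linarith) hm (by omega) hVM ?_
    · obtain ⟨q1, q2, q3⟩ := ItemE14.num3 (Fintype.card ι) m b u (((univ \ B).card : ℕ) : ℝ)
        hmr hmMr hb1 hb2 hu0 hu (Nat.cast_nonneg _) hVMr
      have h12 := hE12 ι (fun i => AddChar (H i) ℂ) P' (univ \ B) Z Jr u (8 * b + 6)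
        (12 * ((Fintype.card ι : ℝ) / m) * (8 * b + 6)) (6 * Fintype.card ι) (m / (6 * b)) hZ
        (fun i => by rw [ItemE14.card_char i]; exact hH i) hu0 hu (by linarith) q1 hNE q2 q3 ?_ ?_
      · refine h12.trans ?_
        apply Real.exp_le_exp.mpr
        apply mul_le_mul_of_nonneg_left _ (by linarith)
        apply mul_le_mul_of_nonneg_left _ (by positivity)
        have e1 : 8 * (12 * ((Fintype.card ι : ℝ) / m) * (8 * b + 6) / (8 * b + 6)) =
            96 * ((Fintype.card ι : ℝ) / m) := by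
          have : 8 * b + 6 ≠ 0 := by positivity
          field_simp
          ring
        rw [e1]
        have e2 : Real.log (((((univ \ B).card : ℕ) : ℝ) + 1) * Z) ≤
            Real.log (((Fintype.card ι : ℝ) + 1) * Z) := by
          apply Real.log_le_log
          · have : (0 : ℝ) ≤ (((univ \ B).card : ℕ) : ℝ) := Nat.cast_nonneg _
            nlinarith
          · have : (0 : ℝ) ≤ (((univ \ B).card : ℕ) : ℝ) := Nat.cast_nonneg _
            nlinarith
        have e3 : 0 ≤ 96 * ((Fintype.card ι : ℝ) / m) := by positivity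
        have := mul_le_mul_of_nonneg_left e2 e3
        linarith
      · intro x hx z hz hxz
        have hx2 := (hP x (hP' hx)).2.1
        have hz2 := (hP z (hP' hz)).2.1
        funext i
        by_cases hi : i ∈ B
        · rw [hx2 i hi, hz2 i hi]
        · by_contra hne
          unfold dif at hxz
          rw [Finset.card_eq_zero, Finset.filter_eq_empty_iff] at hxz
          exact hxz (by simp [hi]) hne
      · have h1 : 0 ≤ (550 * u) ^ Jr := by positivity
        exact lt_of_le_of_lt (mul_le_mul_of_nonneg_right hVMr h1) hJ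
    · intro Ω' hΩ' hne k hk hkb T hT hTne hTm
      have hTr : 2 * (T.card : ℝ) ≤ m := by exact_mod_cast hTm
      have huT : u * T.card ≤ m / 2000 := by
        have : (0 : ℝ) ≤ T.card := Nat.cast_nonneg _
        calc u * T.card ≤ 1 / 1000 * (m / 2) := mul_le_mul hu (by linarith) this (by norm_num)
          _ = m / 2000 := by ring
      have hdis : Disjoint T B := by
        rw [Finset.disjoint_left]
        intro i hi hiB
        have := hT hi
        rw [Finset.mem_sdiff] at this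
        exact this.2 hiB
      have n4 := ItemE14.num2 m (k * b) (u * T.card) (y * Real.log 2) hmr n2 (by linarith) huT
      exact hE5 ι H g lam m (y * Real.log 2) u C B I w a b Ω' k T hPR hMx hB n3 hu0 hb0.le hne
        (fun σ hσ => hspec σ (hΩ' hσ)) hk hTne hdis hTm (by linarith)

end Pool.Agent.Work.MP_e0aece_nt.Eps

end

section

/-!
# E2: multiplication of a state by a power of the absolute value of `Yf`
-/

namespace Pool.Agent.Work.MP_e0aece_nt.Eps

open Finset Sq

namespace ItemE2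

section

variable {ι : Type} [Fintype ι] [DecidableEq ι] {H : ι → Type} [∀ i, AddCommGroup (H i)]
  [∀ i, Fintype (H i)]

theorem norm_ev (g : Finset ι → ∀ i, H i) (ψ : ∀ i, AddChar (H i) ℂ) (A : Finset ι) :
    ‖ev g ψ A‖ = 1 := by
  simp only [ev, norm_prod, AddChar.norm_apply, prod_const_one]

/-- evaluation as a homomorphism -/
noncomputable def evHom (g : Finset ι → ∀ i, H i) (A : Finset ι) :
    (∀ i, AddChar (H i) ℂ) →* ℂ where
  toFun ψ := ev g ψ A
  map_one' := Sq.ItemA5.ev_one g A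
  map_mul' ψ χ := Sq.ItemA5.ev_mul g ψ χ A

theorem ev_prod (g : Finset ι → ∀ i, H i) (A : Finset ι) {k : ℕ}
    (p : Fin k → ∀ i, AddChar (H i) ℂ) : ev g (∏ j, p j) A = ∏ j, ev g (p j) A :=
  map_prod (evHom g A) p univ

/-- the character family of a pair of tuples -/
noncomputable def PsiE {k : ℕ}
    (x : (Fin k → ∀ i, AddChar (H i) ℂ) × (Fin k → ∀ i, AddChar (H i) ℂ)) :
    ∀ i, AddChar (H i) ℂ := (∏ j, x.1 j) * (∏ j, x.2 j)⁻¹

/-- the coefficient of a pair of tuples -/
noncomputable def dd (θ : (∀ i, AddChar (H i) ℂ) → ℂ) {k : ℕ}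
    (x : (Fin k → ∀ i, AddChar (H i) ℂ) × (Fin k → ∀ i, AddChar (H i) ℂ)) : ℂ :=
  (∏ j, (starRingEnd ℂ) (θ (x.1 j))) * ∏ j, θ (x.2 j)

theorem Yf_pow (g : Finset ι → ∀ i, H i) (Ω : Finset (∀ i, AddChar (H i) ℂ))
    (θ : (∀ i, AddChar (H i) ℂ) → ℂ) (A : Finset ι) (k : ℕ) :
    ((‖Yf g Ω θ A‖ ^ (2 * k) : ℝ) : ℂ) =
      ((Ω.card : ℂ)⁻¹) ^ (2 * k) * ∑ x ∈ pairs Ω k, dd θ x * ev g (PsiE x) A := by
  classical
  have h1 : ((‖Yf g Ω θ A‖ ^ (2 * k) : ℝ) : ℂ) =
      (Yf g Ω θ A) ^ k * ((starRingEnd ℂ) (Yf g Ω θ A)) ^ k := by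
    rw [← mul_pow, Complex.mul_conj', pow_mul]
    push_cast
    rfl
  have h2 : (Yf g Ω θ A) ^ k = ((Ω.card : ℂ)⁻¹) ^ k *
      ∑ p ∈ Fintype.piFinset (fun _ : Fin k => Ω),
        (∏ j, (starRingEnd ℂ) (θ (p j))) * ev g (∏ j, p j) A := by
    unfold Yf
    rw [mul_pow, Finset.sum_pow']
    congr 1
    refine sum_congr rfl fun p _ => ?_
    rw [ev_prod, prod_mul_distrib]
  have h3 : ((starRingEnd ℂ) (Yf g Ω θ A)) ^ k = ((Ω.card : ℂ)⁻¹) ^ k *
      ∑ q ∈ Fintype.piFinset (fun _ : Fin k => Ω),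
        (∏ j, θ (q j)) * (starRingEnd ℂ) (ev g (∏ j, q j) A) := by
    have h4 : (starRingEnd ℂ) (Yf g Ω θ A) =
        (Ω.card : ℂ)⁻¹ * ∑ σ ∈ Ω, θ σ * (starRingEnd ℂ) (ev g σ A) := by
      unfold Yf
      simp only [map_mul, map_inv₀, map_natCast, map_sum, Complex.conj_conj]
    rw [h4, mul_pow, Finset.sum_pow']
    congr 1
    refine sum_congr rfl fun p _ => ?_
    rw [ev_prod, map_prod, prod_mul_distrib]
  rw [h1, h2, h3]
  unfold pairs
  rw [sum_product]
  rw [show ((Ω.card : ℂ)⁻¹) ^ (2 * k) = ((Ω.card : ℂ)⁻¹) ^ k * ((Ω.card : ℂ)⁻¹) ^ k by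
    rw [two_mul, pow_add]]
  rw [mul_mul_mul_comm, sum_mul_sum]
  congr 1
  refine sum_congr rfl fun p _ => sum_congr rfl fun q _ => ?_
  unfold dd PsiE
  rw [Sq.ItemA5.ev_mul, Sq.ItemA5.ev_inv]
  ring

theorem isPow_mul {lam : ℕ} {σ τ : ∀ i, AddChar (H i) ℂ} (h1 : IsPow lam σ) (h2 : IsPow lam τ) :
    IsPow lam (σ * τ) := by
  obtain ⟨φ, hφ⟩ := h1
  obtain ⟨ψ, hψ⟩ := h2
  refine ⟨fun i => φ i * ψ i, fun i => ?_⟩
  rw [Pi.mul_apply, hφ, hψ, mul_pow]

theorem isPow_inv {lam : ℕ} {σ : ∀ i, AddChar (H i) ℂ} (h1 : IsPow lam σ) :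
    IsPow lam σ⁻¹ := by
  obtain ⟨φ, hφ⟩ := h1
  refine ⟨fun i => (φ i)⁻¹, fun i => ?_⟩
  rw [Pi.inv_apply, hφ, inv_pow]

theorem isPow_one {lam : ℕ} : IsPow lam (1 : ∀ i, AddChar (H i) ℂ) :=
  ⟨1, fun i => by rw [Pi.one_apply, one_pow]⟩

theorem isPow_prod {lam k : ℕ} {p : Fin k → ∀ i, AddChar (H i) ℂ}
    (h : ∀ j, IsPow lam (p j)) : IsPow lam (∏ j, p j) :=
  Finset.prod_induction p (IsPow lam) (fun _ _ => isPow_mul) isPow_one (fun j _ => h j)

theorem PsiE_isPow {lam k : ℕ} {x : (Fin k → ∀ i, AddChar (H i) ℂ) × (Fin k → ∀ i, AddChar (H i) ℂ)}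
    (h1 : ∀ j, IsPow lam (x.1 j)) (h2 : ∀ j, IsPow lam (x.2 j)) : IsPow lam (PsiE x) :=
  isPow_mul (isPow_prod h1) (isPow_inv (isPow_prod h2))

theorem mem_pairs {α : ι → Type} {Ω : Finset (∀ i, α i)} {k : ℕ}
    {x : (Fin k → ∀ i, α i) × (Fin k → ∀ i, α i)} :
    x ∈ pairs Ω k ↔ (∀ j, x.1 j ∈ Ω) ∧ ∀ j, x.2 j ∈ Ω := by
  classical
  unfold pairs
  rw [mem_product, Fintype.mem_piFinset, Fintype.mem_piFinset]

theorem card_pairs {α : ι → Type} (Ω : Finset (∀ i, α i)) (k : ℕ) :
    ((pairs Ω k).card : ℝ) = (Ω.card : ℝ) ^ (2 * k) := by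
  classical
  unfold pairs
  rw [card_product, Fintype.card_piFinset_const, two_mul, pow_add]
  push_cast
  rfl

theorem norm_dd_le {θ : (∀ i, AddChar (H i) ℂ) → ℂ} {Ω : Finset (∀ i, AddChar (H i) ℂ)}
    (hθ : ∀ σ ∈ Ω, ‖θ σ‖ ≤ 1) {k : ℕ}
    {x : (Fin k → ∀ i, AddChar (H i) ℂ) × (Fin k → ∀ i, AddChar (H i) ℂ)}
    (hx : x ∈ pairs Ω k) : ‖dd θ x‖ ≤ 1 := by
  rw [mem_pairs] at hx
  unfold dd
  rw [norm_mul, norm_prod, norm_prod]
  have h1 : ∏ j, ‖(starRingEnd ℂ) (θ (x.1 j))‖ ≤ 1 :=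
    prod_le_one (fun _ _ => norm_nonneg _) (fun j _ => by
      rw [RCLike.norm_conj]; exact hθ _ (hx.1 j))
  have h2 : ∏ j, ‖θ (x.2 j)‖ ≤ 1 :=
    prod_le_one (fun _ _ => norm_nonneg _) (fun j _ => hθ _ (hx.2 j))
  exact mul_le_one₀ h1 (prod_nonneg fun _ _ => norm_nonneg _) h2

theorem norm_Yf_le (g : Finset ι → ∀ i, H i) {Ω : Finset (∀ i, AddChar (H i) ℂ)}
    (hΩ : Ω.Nonempty) {θ : (∀ i, AddChar (H i) ℂ) → ℂ} (hθ : ∀ σ ∈ Ω, ‖θ σ‖ ≤ 1)
    (A : Finset ι) : ‖Yf g Ω θ A‖ ≤ 1 := by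
  unfold Yf
  rw [norm_mul, norm_inv, Complex.norm_natCast]
  have h1 : ‖∑ σ ∈ Ω, (starRingEnd ℂ) (θ σ) * ev g σ A‖ ≤ Ω.card := by
    refine (norm_sum_le _ _).trans ?_
    refine (sum_le_card_nsmul _ _ 1 ?_).trans (by simp)
    intro σ hσ
    rw [norm_mul, norm_ev, mul_one, RCLike.norm_conj]
    exact hθ σ hσ
  have h2 : (0 : ℝ) < Ω.card := by exact_mod_cast hΩ.card_pos
  rw [inv_mul_le_iff₀ h2, mul_one]
  exact h1

theorem prod_one_on {k : ℕ} {p : Fin k → ∀ i, AddChar (H i) ℂ} {i : ι}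
    (h : ∀ j, p j i = 1) : (∏ j, p j) i = 1 := by
  rw [Finset.prod_apply]
  exact prod_eq_one fun j _ => h j

end

end ItemE2

open ItemE2 in
theorem claimE2 (hE2a : ClaimE2a) : ClaimE2 := by
  classical
  intro ι _ _ H _ _ g lam m Y u C B I w a T J k Ω θ r hst hJT hTB hcard hΩ hΩp hθ hr hr3 hcoll hm
  obtain ⟨hIB, hBm, ha, ha3, ⟨F, ⟨κ, hκ, c, φ, hpow, hsum1, hsumE, hF⟩, hF1, hwF⟩, hsupp, hmass⟩ :=
    hst
  have hYle : ∀ A, ‖Yf g Ω θ A‖ ^ (2 * k) ≤ 1 := fun A =>
    pow_le_one₀ (norm_nonneg _) (norm_Yf_le g hΩ hθ A)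
  have hY0 : ∀ A, 0 ≤ ‖Yf g Ω θ A‖ ^ (2 * k) := fun A => by positivity
  have hF0 : ∀ A, 0 ≤ F A := fun A => (hwF A).1.trans (hwF A).2
  have hΩ0 : (0 : ℝ) < Ω.card := by exact_mod_cast hΩ.card_pos
  have hcardBT : (B ∪ T).card = B.card + T.card := card_union_of_disjoint hTB.symm
  have hcinv : ‖((Ω.card : ℂ)⁻¹) ^ (2 * k)‖ = ((Ω.card : ℝ) ^ (2 * k))⁻¹ := by
    rw [norm_pow, norm_inv, Complex.norm_natCast, inv_pow]
  have hcpos : (0 : ℝ) < (Ω.card : ℝ) ^ (2 * k) := by positivity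
  refine ⟨fun A => if A ∩ T = J then w A * ‖Yf g Ω θ A‖ ^ (2 * k) else 0,
    union_subset_union hIB hJT, by rw [hcardBT]; exact hcard, by linarith, hr3,
    ⟨fun A => F A * ‖Yf g Ω θ A‖ ^ (2 * k), ?_, ?_, ?_⟩, ?_, ?_⟩
  · refine ⟨κ × {x // x ∈ pairs Ω k}, inferInstance,
      fun s => c s.1 * (((Ω.card : ℂ)⁻¹) ^ (2 * k) * dd θ s.2.1),
      fun s => φ s.1 * PsiE s.2.1, ?_, ?_, ?_, ?_⟩
    · rintro ⟨t, x, hx⟩
      rw [mem_pairs] at hx
      exact isPow_mul (hpow t) (PsiE_isPow (fun j => (hΩp _ (hx.1 j)).1) (fun j => (hΩp _ (hx.2 j)).1))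
    · -- total norm
      rw [Fintype.sum_prod_type]
      refine le_trans ?_ hsum1
      refine sum_le_sum fun t _ => ?_
      have h1 : ∀ x : {x // x ∈ pairs Ω k},
          ‖c t * (((Ω.card : ℂ)⁻¹) ^ (2 * k) * dd θ x.1)‖ ≤
            ‖c t‖ * ((Ω.card : ℝ) ^ (2 * k))⁻¹ := by
        intro x
        rw [norm_mul, norm_mul, hcinv]
        have h2 := norm_dd_le hθ x.2
        have h3 : ((Ω.card : ℝ) ^ (2 * k))⁻¹ * ‖dd θ x.1‖ ≤ ((Ω.card : ℝ) ^ (2 * k))⁻¹ * 1 :=
          mul_le_mul_of_nonneg_left h2 (inv_nonneg.2 hcpos.le)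
        rw [mul_one] at h3
        exact mul_le_mul_of_nonneg_left h3 (norm_nonneg _)
      refine (sum_le_sum fun x _ => h1 x).trans ?_
      rw [sum_const, card_univ, Fintype.card_coe, nsmul_eq_mul, card_pairs]
      rw [mul_comm (‖c t‖), ← mul_assoc, mul_inv_cancel₀ hcpos.ne', one_mul]
    · -- the norm of the trivial part
      have hkey : ∀ s : κ × {x // x ∈ pairs Ω k},
          (∀ i ∈ (B ∪ T) \ (I ∪ J), (φ s.1 * PsiE s.2.1) i = 1) →
          (∀ i ∈ B \ I, φ s.1 i = 1) ∧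
            dif (T \ J) (∏ j, s.2.1.1 j) ((φ s.1)⁻¹ * ∏ j, s.2.1.2 j) = 0 := by
        rintro ⟨t, x, hx⟩ h
        rw [mem_pairs] at hx
        constructor
        · intro i hi
          rw [mem_sdiff] at hi
          have hiT : i ∉ T := fun hT => (disjoint_left.1 hTB) hT hi.1
          have h1 := h i (by
            rw [mem_sdiff, mem_union, mem_union]
            exact ⟨Or.inl hi.1, fun h => h.elim hi.2 (fun hJ => hiT (hJT hJ))⟩)
          have h2 : PsiE x i = 1 := by
            unfold PsiE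
            rw [Pi.mul_apply, Pi.inv_apply, prod_one_on (fun j => (hΩp _ (hx.1 j)).2 i hi.1),
              prod_one_on (fun j => (hΩp _ (hx.2 j)).2 i hi.1), inv_one, mul_one]
          rw [Pi.mul_apply, h2, mul_one] at h1
          exact h1
        · unfold dif
          rw [card_eq_zero, filter_eq_empty_iff]
          intro i hi
          rw [mem_sdiff] at hi
          have hiB : i ∉ B := fun hB => (disjoint_left.1 hTB) hi.1 hB
          have h1 := h i (by
            rw [mem_sdiff, mem_union, mem_union]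
            exact ⟨Or.inr hi.1, fun h => h.elim (fun hI => hiB (hIB hI)) hi.2⟩)
          rw [not_not]
          simp only [PsiE, Pi.mul_apply, Pi.inv_apply] at h1 ⊢
          rw [← mul_assoc, mul_inv_eq_one] at h1
          rw [← h1, inv_mul_cancel_left]
      have hle : ∑ s ∈ Finset.univ.filter (fun s : κ × {x // x ∈ pairs Ω k} =>
            ∀ i ∈ (B ∪ T) \ (I ∪ J), (φ s.1 * PsiE s.2.1) i = 1),
            ‖c s.1 * (((Ω.card : ℂ)⁻¹) ^ (2 * k) * dd θ s.2.1)‖ ≤
          ∑ s : κ × {x // x ∈ pairs Ω k}, if (∀ i ∈ B \ I, φ s.1 i = 1) then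
            (if dif (T \ J) (∏ j, s.2.1.1 j) ((φ s.1)⁻¹ * ∏ j, s.2.1.2 j) = 0 then
              ‖c s.1‖ * ((Ω.card : ℝ) ^ (2 * k))⁻¹ else 0) else 0 := by
        rw [sum_filter]
        refine sum_le_sum fun s _ => ?_
        by_cases hs : ∀ i ∈ (B ∪ T) \ (I ∪ J), (φ s.1 * PsiE s.2.1) i = 1
        · rw [if_pos hs, if_pos (hkey s hs).1, if_pos (hkey s hs).2, norm_mul, norm_mul, hcinv]
          have h2 := norm_dd_le hθ s.2.2
          have h3 : ((Ω.card : ℝ) ^ (2 * k))⁻¹ * ‖dd θ s.2.1‖ ≤ ((Ω.card : ℝ) ^ (2 * k))⁻¹ * 1 :=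
            mul_le_mul_of_nonneg_left h2 (inv_nonneg.2 hcpos.le)
          rw [mul_one] at h3
          exact mul_le_mul_of_nonneg_left h3 (norm_nonneg _)
        · rw [if_neg hs]
          split_ifs <;> positivity
      refine (hle.trans_eq (Fintype.sum_prod_type _)).trans ?_
      have hinner : ∀ t : κ, (∑ x : {x // x ∈ pairs Ω k}, if (∀ i ∈ B \ I, φ t i = 1) then
            (if dif (T \ J) (∏ j, x.1.1 j) ((φ t)⁻¹ * ∏ j, x.1.2 j) = 0 then
              ‖c t‖ * ((Ω.card : ℝ) ^ (2 * k))⁻¹ else 0) else 0) ≤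
          if (∀ i ∈ B \ I, φ t i = 1) then ‖c t‖ * Real.exp (-3 * r) else 0 := by
        intro t
        by_cases ht : ∀ i ∈ B \ I, φ t i = 1
        · simp only [if_pos ht]
          rw [Finset.sum_coe_sort (pairs Ω k) (fun x : (Fin k → ∀ i, AddChar (H i) ℂ) ×
            (Fin k → ∀ i, AddChar (H i) ℂ) =>
            if dif (T \ J) (∏ j, x.1 j) ((φ t)⁻¹ * ∏ j, x.2 j) = 0 then
              ‖c t‖ * ((Ω.card : ℝ) ^ (2 * k))⁻¹ else 0), ← sum_filter, sum_const, nsmul_eq_mul]
          have h4 := hE2a ι (fun i => AddChar (H i) ℂ) Ω k (T \ J) (φ t)⁻¹ hΩ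
          have h5 : (((pairs Ω k).filter fun q =>
              dif (T \ J) (∏ j, q.1 j) ((φ t)⁻¹ * ∏ j, q.2 j) = 0).card : ℝ) ≤
              Real.exp (-3 * r) * (Ω.card : ℝ) ^ (2 * k) := by
            refine le_trans ?_ (mul_le_mul_of_nonneg_right hcoll hcpos.le)
            convert h4 using 3
          calc _ ≤ Real.exp (-3 * r) * (Ω.card : ℝ) ^ (2 * k) *
                (‖c t‖ * ((Ω.card : ℝ) ^ (2 * k))⁻¹) :=
                mul_le_mul_of_nonneg_right h5 (by positivity)
            _ = ‖c t‖ * Real.exp (-3 * r) := by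
                field_simp
        · simp only [if_neg ht]
          simp
      refine (sum_le_sum fun t _ => hinner t).trans ?_
      rw [← sum_filter, ← sum_mul]
      have h6 : Real.exp (-3 * (a + r)) = Real.exp (-3 * a) * Real.exp (-3 * r) := by
        rw [← Real.exp_add]
        congr 1
        ring
      rw [h6]
      exact mul_le_mul_of_nonneg_right hsumE (Real.exp_pos _).le
    · intro A
      rw [Complex.ofReal_mul, Yf_pow, hF A, Fintype.sum_prod_type, sum_mul]
      refine sum_congr rfl fun t _ => ?_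
      rw [Finset.sum_coe_sort (pairs Ω k) (fun x : (Fin k → ∀ i, AddChar (H i) ℂ) ×
            (Fin k → ∀ i, AddChar (H i) ℂ) =>
            c t * (((Ω.card : ℂ)⁻¹) ^ (2 * k) * dd θ x) * ev g (φ t * PsiE x) A), mul_sum, mul_sum]
      refine sum_congr rfl fun x _ => ?_
      rw [Sq.ItemA5.ev_mul]
      ring
  · intro A
    exact mul_le_one₀ (hF1 A) (hY0 A) (hYle A)
  · intro A
    have hw := hwF A
    dsimp only
    split_ifs with h
    · exact ⟨mul_nonneg hw.1 (hY0 A), mul_le_mul_of_nonneg_right hw.2 (hY0 A)⟩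
    · exact ⟨le_rfl, mul_nonneg (hF0 A) (hY0 A)⟩
  · intro A hA
    dsimp only at hA
    by_cases h : A ∩ T = J
    · rw [if_pos h] at hA
      obtain ⟨h1, h2⟩ := hsupp A (left_ne_zero_of_mul hA)
      refine ⟨h1, ?_⟩
      rw [inter_union_distrib_left, h2, h]
    · rw [if_neg h] at hA
      exact absurd rfl hA
  · rw [hcardBT, ← sum_filter]
    have h1 : Real.exp (-2 * (a + r) - Y + u * ((B.card + T.card : ℕ) : ℝ)) =
        Real.exp (-2 * a - Y + u * B.card) * Real.exp (u * T.card - 2 * r) := by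
      rw [← Real.exp_add]
      congr 1
      push_cast
      ring
    rw [h1, pow_add]
    calc (2 : ℝ) ^ Fintype.card ι *
          (Real.exp (-2 * a - Y + u * B.card) * Real.exp (u * T.card - 2 * r))
        = (2 : ℝ) ^ Fintype.card ι * Real.exp (-2 * a - Y + u * B.card) *
          Real.exp (u * T.card - 2 * r) := by ring
      _ ≤ (∑ A, w A) * 2 ^ B.card * Real.exp (u * T.card - 2 * r) :=
          mul_le_mul_of_nonneg_right hmass (Real.exp_pos _).le
      _ = 2 ^ B.card * (Real.exp (u * T.card - 2 * r) * ∑ A, w A) := by ring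
      _ ≤ 2 ^ B.card * (2 ^ T.card *
          ∑ A ∈ univ.filter (fun A => A ∩ T = J), w A * ‖Yf g Ω θ A‖ ^ (2 * k)) :=
          mul_le_mul_of_nonneg_left hm (by positivity)
      _ = _ := by ring

end Pool.Agent.Work.MP_e0aece_nt.Eps

end

section

/-!
The number of pairs of tuples with a given quotient is at most the number of coincidences.
-/

namespace Pool.Agent.Work.MP_e0aece_nt.Eps

open Finset Sq

namespace ItemE2a

open Classical in
lemma card_pairs {α M : Type} [Group M] (S : Finset α) (f : α → M) (y : M) :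
    ((S ×ˢ S).filter fun q => f q.1 = y * f q.2).card
      ≤ ((S ×ˢ S).filter fun q => f q.1 = f q.2).card := by
  have key : ∀ z : M, ((S ×ˢ S).filter fun q => f q.1 = z * f q.2).card
      = ∑ v ∈ S.image f, (S.filter fun a => f a = v).card * (S.filter fun a => f a = z * v).card := by
    intro z
    rw [Finset.card_filter, Finset.sum_product_right]
    have h1 : ∀ q ∈ S, ∑ p ∈ S, (if f p = z * f q then 1 else 0)
        = (S.filter fun a => f a = z * f q).card := by
      intro q _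
      rw [Finset.card_filter]
    rw [Finset.sum_congr rfl h1,
      Finset.sum_comp (fun v => (S.filter fun a => f a = z * v).card) f]
    simp only [smul_eq_mul]
  have e1 := key y
  have e2 := key 1
  simp only [one_mul] at e2
  rw [e1, e2]
  set r : M → ℕ := fun v => (S.filter fun a => f a = v).card with hr
  set T := S.image f with hT
  have h2 : ∑ v ∈ T, r (y * v) * r (y * v) ≤ ∑ v ∈ T, r v * r v := by
    have h3 : ∑ v ∈ T, r (y * v) * r (y * v)
        = ∑ v ∈ T.filter (fun v => y * v ∈ T), r (y * v) * r (y * v) := by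
      symm
      apply Finset.sum_subset (Finset.filter_subset _ _)
      intro v hv hv2
      have h4 : y * v ∉ T := fun h => hv2 (Finset.mem_filter.2 ⟨hv, h⟩)
      have h5 : r (y * v) = 0 := by
        rw [hr]
        simp only
        rw [Finset.card_eq_zero, Finset.filter_eq_empty_iff]
        intro a ha h6
        exact h4 (h6 ▸ Finset.mem_image_of_mem f ha)
      rw [h5, mul_zero]
    have h6 : ∑ v ∈ T.filter (fun v => y * v ∈ T), r (y * v) * r (y * v)
        = ∑ v ∈ (T.filter (fun v => y * v ∈ T)).image (fun v => y * v), r v * r v := by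
      rw [Finset.sum_image]
      intro a _ b _ h
      exact mul_left_cancel h
    rw [h3, h6]
    apply Finset.sum_le_sum_of_subset
    intro v hv
    obtain ⟨w, hw, rfl⟩ := Finset.mem_image.1 hv
    exact (Finset.mem_filter.1 hw).2
  have h7 : 2 * ∑ v ∈ T, r v * r (y * v) ≤ ∑ v ∈ T, r v * r v + ∑ v ∈ T, r (y * v) * r (y * v) := by
    rw [Finset.mul_sum, ← Finset.sum_add_distrib]
    apply Finset.sum_le_sum
    intro v _
    have := two_mul_le_add_sq (r v) (r (y * v))
    nlinarith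
  have h8 : ∑ v ∈ T, r v * r (y * v) ≤ ∑ v ∈ T, r v * r v := by omega
  exact h8

lemma dif_eq_zero {ι : Type} {K : ι → Type} (U : Finset ι) (x y : ∀ i, K i) :
    dif U x y = 0 ↔ (fun i : U => x i) = fun i : U => y i := by
  classical
  unfold dif
  rw [Finset.card_eq_zero, Finset.filter_eq_empty_iff, funext_iff]
  constructor
  · intro h i
    have := h i.2
    push Not at this
    exact this
  · intro h i hi
    push Not
    exact h ⟨i, hi⟩

end ItemE2a

theorem claimE2a : ClaimE2a := by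
  intro ι K _ Ω k U y hΩ
  classical
  have hc : (0 : ℝ) < (Ω.card : ℝ) ^ (2 * k) := by
    have : 0 < Ω.card := hΩ.card_pos
    positivity
  unfold coll
  rw [div_mul_cancel₀ _ hc.ne']
  have h := ItemE2a.card_pairs (Fintype.piFinset fun _ : Fin k => Ω)
    (fun p : Fin k → ∀ i, K i => (fun i : U => (∏ j, p j) (i : ι) : ∀ i : U, K i))
    (fun i : U => y (i : ι))
  have e1 : ((pairs Ω k).filter fun q => dif U (∏ j, q.1 j) (y * ∏ j, q.2 j) = 0).card
      = (((Fintype.piFinset fun _ : Fin k => Ω) ×ˢ (Fintype.piFinset fun _ : Fin k => Ω)).filter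
        fun q => (fun i : U => (∏ j, q.1 j) (i : ι) : ∀ i : U, K i)
          = (fun i : U => y (i : ι)) * (fun i : U => (∏ j, q.2 j) (i : ι))).card := by
    unfold pairs
    congr 1
    ext q
    simp only [Finset.mem_filter, ItemE2a.dif_eq_zero]
    constructor
    · rintro ⟨h1, h2⟩
      refine ⟨by convert h1, ?_⟩
      rw [h2]
      rfl
    · rintro ⟨h1, h2⟩
      refine ⟨by convert h1, ?_⟩
      rw [h2]
      rfl
  have e2 : ((pairs Ω k).filter fun q => dif U (∏ j, q.1 j) (∏ j, q.2 j) = 0).card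
      = (((Fintype.piFinset fun _ : Fin k => Ω) ×ˢ (Fintype.piFinset fun _ : Fin k => Ω)).filter
        fun q => (fun i : U => (∏ j, q.1 j) (i : ι) : ∀ i : U, K i)
          = (fun i : U => (∏ j, q.2 j) (i : ι))).card := by
    unfold pairs
    congr 1
    ext q
    simp only [Finset.mem_filter, ItemE2a.dif_eq_zero]
  have h3 : ((pairs Ω k).filter fun q => dif U (∏ j, q.1 j) (y * ∏ j, q.2 j) = 0).card
      ≤ ((pairs Ω k).filter fun q => dif U (∏ j, q.1 j) (∏ j, q.2 j) = 0).card := by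
    rw [e1, e2]
    convert h
  exact_mod_cast h3

end Pool.Agent.Work.MP_e0aece_nt.Eps

end

section

/-!
# Item E3: existence of a maximal state
-/

namespace Pool.Agent.Work.MP_e0aece_nt.Eps

open Finset Sq

namespace ItemE3

section

variable {ι : Type} [Fintype ι] [DecidableEq ι] {H : ι → Type} [∀ i, AddCommGroup (H i)]
  [∀ i, Fintype (H i)]

open Classical in
lemma init (g : Finset ι → ∀ i, H i) (lam m : ℕ) (Y u : ℝ) (C : Finset (Finset ι))
    (hC : (2 : ℝ) ^ Fintype.card ι * Real.exp (-Y) ≤ C.card) :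
    St2 g lam m Y u C ∅ ∅ (fun A => if A ∈ C then 1 else 0) 0 := by
  refine ⟨Finset.Subset.refl _, by simp, le_refl _, ?_, ⟨fun _ => 1, ?_, fun A => le_refl _, ?_⟩,
    ?_, ?_⟩
  · have : 0 ≤ Real.log 2 := Real.log_nonneg (by norm_num)
    have : 0 ≤ (m : ℝ) * Real.log 2 := by positivity
    linarith
  · refine ⟨Unit, inferInstance, fun _ => 1, fun _ => 1, fun _ => ⟨1, fun i => ?_⟩, ?_, ?_, ?_⟩
    · simp
    · simp
    · simp
    · intro A
      simp [ev]
  · intro A
    by_cases h : A ∈ C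
    · simp [h]
    · simp [h]
  · intro A hA
    by_cases h : A ∈ C
    · exact ⟨h, by simp⟩
    · simp [h] at hA
  · have h1 : (∑ A : Finset ι, (if A ∈ C then (1 : ℝ) else 0)) = C.card := by
      rw [Finset.sum_ite_mem]
      simp
    rw [h1]
    simpa using hC

end

end ItemE3

theorem claimE3 (hE1 : ClaimE1) : ClaimE3 := by
  classical
  intro ι _ _ H _ _ g lam m Y u C hPR hY hu hYm hC
  let S : Set ℕ := {n | ∃ (B I : Finset ι) (w : Finset ι → ℝ) (a : ℝ),
    St2 g lam m Y u C B I w a ∧ B.card = n}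
  have hne : S.Nonempty := ⟨0, ∅, ∅, _, 0, ItemE3.init g lam m Y u C hC, rfl⟩
  have hbdd : BddAbove S := by
    refine ⟨m, ?_⟩
    rintro n ⟨B, I, w, a, hst, rfl⟩
    exact hst.2.1
  obtain ⟨B, I, w, a, hst, hcard⟩ := Nat.sSup_mem hne hbdd
  refine ⟨B, I, w, a, ⟨hst, ?_⟩, ?_⟩
  · intro B' I' w' a' hst'
    rw [hcard]
    exact le_csSup hbdd ⟨B', I', w', a', hst', rfl⟩
  · have h1 := hE1 ι H g lam m Y u C B I w a hPR hst
    have h2 : 0 ≤ a := hst.2.2.1
    have h3 : u * (2 * (B.card : ℝ)) ≤ u * m := by linarith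
    have h4 : 2 * (B.card : ℝ) ≤ m := le_of_mul_le_mul_left h3 hu
    exact_mod_cast h4

end Pool.Agent.Work.MP_e0aece_nt.Eps

end

section

/-!
# Item E4: a single family has no large Fourier coefficient in a maximal state
-/

namespace Pool.Agent.Work.MP_e0aece_nt.Eps

open Finset Sq

namespace ItemE4

section
variable {ι : Type} {K : ι → Type} [∀ i, CommGroup (K i)]

theorem coll_zero_le (Ω : Finset (∀ i, K i)) (U : Finset ι) : coll Ω 0 U ≤ 1 := by
  unfold coll
  simp only [mul_zero, pow_zero, div_one]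
  have h1 : (pairs Ω 0).card = 1 := by
    unfold pairs
    simp
  have h2 := Finset.card_filter_le (pairs Ω 0)
    (fun q => dif U (∏ j, q.1 j) (∏ j, q.2 j) = 0)
  rw [h1] at h2
  exact_mod_cast h2

open Classical in
omit [∀ i, CommGroup (K i)] in
theorem dif_zero {U : Finset ι} {x y : ∀ i, K i} (h : dif U x y = 0) : ∀ i ∈ U, x i = y i := by
  intro i hi
  unfold dif at h
  have h3 := Finset.filter_eq_empty_iff.1 (Finset.card_eq_zero.1 h) hi
  rwa [not_not] at h3

theorem coll_pair_le [DecidableEq (∀ i, K i)] (σ : ∀ i, K i) (q : ι) (hq : σ q ≠ 1) (hσ : (1 : ∀ i, K i) ≠ σ) :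
    coll ({1, σ} : Finset (∀ i, K i)) 1 {q} ≤ 1 / 2 := by
  unfold coll
  have hc : ({1, σ} : Finset (∀ i, K i)).card = 2 := Finset.card_pair hσ
  have h1 : ((pairs ({1, σ} : Finset (∀ i, K i)) 1).filter
      fun p => dif {q} (∏ j, p.1 j) (∏ j, p.2 j) = 0).card ≤ 2 := by
    rw [← hc]
    refine le_trans (Finset.card_le_card (t := ({1, σ} : Finset (∀ i, K i)).image
      (fun χ => ((fun _ : Fin 1 => χ), (fun _ : Fin 1 => χ)))) ?_) Finset.card_image_le
    intro p hp
    rw [Finset.mem_filter] at hp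
    obtain ⟨hp1, hp2⟩ := hp
    unfold pairs at hp1
    rw [Finset.mem_product, Fintype.mem_piFinset, Fintype.mem_piFinset] at hp1
    obtain ⟨h1, h2⟩ := hp1
    have h1' := h1 0
    have h2' := h2 0
    simp only [Fin.prod_univ_one] at hp2
    have h3 := dif_zero hp2 q (Finset.mem_singleton_self q)
    rw [Finset.mem_insert, Finset.mem_singleton] at h1' h2'
    have h4 : p.1 0 = p.2 0 := by
      rcases h1' with h5 | h5 <;> rcases h2' with h6 | h6
      · rw [h5, h6]
      · rw [h5, h6] at h3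
        exact absurd h3.symm hq
      · rw [h5, h6] at h3
        exact absurd h3 hq
      · rw [h5, h6]
    rw [Finset.mem_image]
    refine ⟨p.1 0, h1 0, ?_⟩
    refine Prod.ext ?_ ?_
    · funext j
      rw [Subsingleton.elim j 0]
    · funext j
      rw [Subsingleton.elim j 0]
      exact h4
  rw [hc]
  have h2 : ((((pairs ({1, σ} : Finset (∀ i, K i)) 1).filter
      fun p => dif {q} (∏ j, p.1 j) (∏ j, p.2 j) = 0).card : ℕ) : ℝ) ≤ 2 := by
    exact_mod_cast h1
  rw [div_le_iff₀ (by norm_num)]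
  refine h2.trans ?_
  norm_num

end

section
variable {ι : Type} [Fintype ι] [DecidableEq ι] {H : ι → Type} [∀ i, AddCommGroup (H i)]
  [∀ i, Fintype (H i)]

omit [DecidableEq ι] in
theorem ev_norm (g : Finset ι → ∀ i, H i) (χ : ∀ i, AddChar (H i) ℂ) (A : Finset ι) :
    ‖ev g χ A‖ = 1 := by
  unfold ev
  rw [norm_prod]
  exact Finset.prod_eq_one fun i _ => AddChar.norm_apply _ _

omit [DecidableEq ι] [∀ i, Fintype (H i)] in
theorem ev_one (g : Finset ι → ∀ i, H i) (A : Finset ι) :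
    ev g (1 : ∀ i, AddChar (H i) ℂ) A = 1 := by
  unfold ev
  exact Finset.prod_eq_one fun i _ => rfl

/-- the square of the absolute value of `(1 + z) / 2` for `|z| = 1` -/
theorem half_norm_sq (z : ℂ) (hz : ‖z‖ = 1) : ‖(2 : ℂ)⁻¹ * (1 + z)‖ ^ 2 = (1 + z.re) / 2 := by
  have h1 : z.re * z.re + z.im * z.im = 1 := by
    have h := Complex.sq_norm z
    rw [hz, Complex.normSq_apply] at h
    linarith
  rw [Complex.sq_norm, map_mul, map_inv₀, Complex.normSq_apply (1 + z)]
  have h2 : Complex.normSq 2 = 4 := by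
    rw [Complex.normSq_apply]; norm_num
  rw [h2]
  simp only [Complex.add_re, Complex.one_re, Complex.add_im, Complex.one_im, zero_add]
  linear_combination (1 / 4 : ℝ) * h1

theorem num1 {u : ℝ} (hu : 0 < u) (hu1 : u ≤ 1 / 100) :
    Real.exp (u * 1 - 2 * (Real.log 2 / 3)) + Real.exp u ≤ 165 / 100 := by
  have h1 : Real.exp u ≤ 100 / 99 := by
    have h2 : Real.exp u ≤ Real.exp (1 / 100) := Real.exp_le_exp.2 hu1
    have h3 : 1 - 1 / 100 ≤ Real.exp (-(1 / 100)) := by
      have := Real.add_one_le_exp (-(1 / 100) : ℝ)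
      linarith
    have h4 : Real.exp (1 / 100) * Real.exp (-(1 / 100)) = 1 := by
      rw [← Real.exp_add]; simp
    have h5 : 0 < Real.exp (1 / 100) := Real.exp_pos _
    nlinarith
  have h6 : Real.exp (-(2 * (Real.log 2 / 3))) ≤ 63 / 100 := by
    have h7 : Real.exp (-(2 * (Real.log 2 / 3))) ^ 3 = 1 / 4 := by
      rw [← Real.exp_nat_mul]
      have : ((3 : ℕ) : ℝ) * (-(2 * (Real.log 2 / 3))) = -(Real.log 2 + Real.log 2) := by
        push_cast; ring
      rw [this, Real.exp_neg, Real.exp_add, Real.exp_log (by norm_num)]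
      norm_num
    by_contra hcon
    rw [not_le] at hcon
    have h8 : (63 / 100 : ℝ) ^ 3 < Real.exp (-(2 * (Real.log 2 / 3))) ^ 3 :=
      pow_lt_pow_left₀ hcon (by norm_num) (by norm_num)
    rw [h7] at h8
    norm_num at h8
  have h9 : Real.exp (u * 1 - 2 * (Real.log 2 / 3)) =
      Real.exp u * Real.exp (-(2 * (Real.log 2 / 3))) := by
    rw [← Real.exp_add]; congr 1; ring
  rw [h9]
  have h10 : 0 < Real.exp u := Real.exp_pos _
  have h11 : 0 < Real.exp (-(2 * (Real.log 2 / 3))) := Real.exp_pos _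
  nlinarith

end

end ItemE4

open ItemE4 in
theorem claimE4 (hE1 : ClaimE1) (hE2 : ClaimE2) : ClaimE4 := by
  classical
  intro ι _ _ H _ _ g lam m Y u C B I w a σ hPR hMx hBm hY hu hu1 hYm hpow htriv hσ1
  by_contra hcon
  rw [not_le] at hcon
  obtain ⟨hSt, hmax⟩ := hMx
  obtain ⟨hIB, hBc, ha0, ha3, ⟨F, hF1, hF2, hF3⟩, hw1, hw2⟩ := id hSt
  set S : ℝ := ∑ A, w A with hS
  have hw0 : ∀ A, 0 ≤ w A := fun A => (hF3 A).1
  have hSpos : 0 < S := by
    have h1 : 0 < (2 : ℝ) ^ Fintype.card ι * Real.exp (-2 * a - Y + u * B.card) :=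
      mul_pos (pow_pos (by norm_num) _) (Real.exp_pos _)
    have h2 := lt_of_lt_of_le h1 hw2
    have h3 : (0 : ℝ) < 2 ^ B.card := pow_pos (by norm_num) _
    exact pos_of_mul_pos_left h2 h3.le
  obtain ⟨q, hq⟩ := Function.ne_iff.1 hσ1
  have hqB : q ∉ B := fun h => hq (htriv q h)
  have hlog : Real.log 2 < 1 := by
    have := Real.log_two_lt_d9
    linarith
  have hlog0 : 0 < Real.log 2 := Real.log_pos (by norm_num)
  have hm1 : 1 ≤ m := by
    rcases Nat.eq_zero_or_pos m with h | h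
    · subst h
      simp only [Nat.cast_zero, zero_mul] at hYm
      linarith
    · exact h
  have hdisj : Disjoint ({q} : Finset ι) B := Finset.disjoint_singleton_left.2 hqB
  have hcard : B.card + ({q} : Finset ι).card ≤ m := by
    rw [Finset.card_singleton]
    omega
  have hnot : ∀ (I' : Finset ι) (w' : Finset ι → ℝ) (a' : ℝ),
      ¬ St2 g lam m Y u C (B ∪ {q}) I' w' a' := by
    intro I' w' a' h
    have h1 := hmax _ _ _ _ h
    rw [Finset.card_union_of_disjoint hdisj.symm, Finset.card_singleton] at h1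
    omega
  set P : ℝ := ∑ A ∈ univ.filter (fun A : Finset ι => q ∈ A), w A with hP
  have hpow1 : IsPow lam (1 : ∀ i, AddChar (H i) ℂ) := ⟨1, fun i => (one_pow lam).symm⟩
  -- step (i)
  have hstep1 : 2 * P < Real.exp u * S := by
    by_contra hcon2
    rw [not_lt] at hcon2
    obtain ⟨w', hw'⟩ := hE2 ι H g lam m Y u C B I w a {q} {q} 0 {1} (fun _ => 1) 0 hSt
      (Finset.Subset.refl _) hdisj hcard (Finset.singleton_nonempty _)
      (by
        intro χ hχ
        rw [Finset.mem_singleton] at hχ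
        subst hχ
        exact ⟨hpow1, fun i _ => rfl⟩)
      (by intro χ _; simp) le_rfl (by linarith)
      (by
        have := coll_zero_le ({1} : Finset (∀ i, AddChar (H i) ℂ)) ({q} \ {q})
        simpa using this)
      (by
        rw [Finset.card_singleton, Nat.cast_one, mul_one u, pow_one, mul_zero 2, mul_zero (2 : ℕ),
          sub_zero]
        simp only [pow_zero, mul_one]
        have h1 : univ.filter (fun A : Finset ι => A ∩ {q} = {q}) =
            univ.filter (fun A : Finset ι => q ∈ A) := by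
          apply Finset.filter_congr
          intro A _
          rw [Finset.inter_eq_right, Finset.singleton_subset_iff]
        rw [h1]
        exact hcon2)
    exact hnot _ _ _ hw'
  -- step (ii)
  set h : ℂ := hat g w σ with hh
  have hh0 : 0 < ‖h‖ := by
    have : 0 < 65 / 100 * S := mul_pos (by norm_num) hSpos
    linarith
  set θ : (∀ i, AddChar (H i) ℂ) → ℂ := fun χ => if χ = σ then h / (‖h‖ : ℂ) else 1 with hθ
  have hσ1' : (1 : ∀ i, AddChar (H i) ℂ) ≠ σ := fun h => hσ1 h.symm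
  have hθσ : θ σ = h / (‖h‖ : ℂ) := by simp [hθ]
  have hθ1 : θ 1 = 1 := by simp [hθ, hσ1']
  have hnθ : ‖h / (‖h‖ : ℂ)‖ = 1 := by
    rw [norm_div, Complex.norm_real, norm_norm, div_self hh0.ne']
  have hY : ∀ A, Yf g {1, σ} θ A =
      (2 : ℂ)⁻¹ * (1 + (starRingEnd ℂ) (h / (‖h‖ : ℂ)) * ev g σ A) := by
    intro A
    unfold Yf
    rw [Finset.card_pair hσ1', Finset.sum_pair hσ1', hθσ, hθ1, ev_one]
    norm_num
  have hYsq : ∀ A, ‖Yf g {1, σ} θ A‖ ^ 2 =
      (1 + ((starRingEnd ℂ) (h / (‖h‖ : ℂ)) * ev g σ A).re) / 2 := by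
    intro A
    rw [hY A]
    apply half_norm_sq
    rw [norm_mul, RCLike.norm_conj, hnθ, ev_norm, one_mul]
  have hre : ∀ A, ((starRingEnd ℂ) (h / (‖h‖ : ℂ)) * ev g σ A).re ≤ 1 := by
    intro A
    refine (Complex.re_le_norm _).trans ?_
    rw [norm_mul, RCLike.norm_conj, hnθ, ev_norm, one_mul]
  have hsum : ∑ A, w A * ‖Yf g {1, σ} θ A‖ ^ 2 = (S + ‖h‖) / 2 := by
    have h1 : ∀ A, w A * ‖Yf g {1, σ} θ A‖ ^ 2 =
        w A / 2 + (((starRingEnd ℂ) (h / (‖h‖ : ℂ)) * ((w A : ℂ) * ev g σ A)).re) / 2 := by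
      intro A
      rw [hYsq A]
      have : (starRingEnd ℂ) (h / (‖h‖ : ℂ)) * ((w A : ℂ) * ev g σ A) =
          (w A : ℂ) * ((starRingEnd ℂ) (h / (‖h‖ : ℂ)) * ev g σ A) := by ring
      rw [this, Complex.re_ofReal_mul]
      ring
    rw [Finset.sum_congr rfl fun A _ => h1 A, Finset.sum_add_distrib, ← Finset.sum_div,
      ← Finset.sum_div, ← Complex.re_sum, ← Finset.mul_sum]
    have h2 : ∑ A, (w A : ℂ) * ev g σ A = h := rfl
    rw [h2]
    have h3 : (starRingEnd ℂ) (h / (‖h‖ : ℂ)) * h = (‖h‖ : ℂ) := by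
      rw [map_div₀, Complex.conj_ofReal, div_mul_eq_mul_div, mul_comm, Complex.mul_conj]
      rw [Complex.normSq_eq_norm_sq]
      have h4 : (‖h‖ : ℂ) ≠ 0 := by exact_mod_cast hh0.ne'
      push_cast
      field_simp
    rw [h3, Complex.ofReal_re]
    ring
  have hsplit : ∑ A ∈ univ.filter (fun A : Finset ι => q ∈ A), w A * ‖Yf g {1, σ} θ A‖ ^ 2 +
      ∑ A ∈ univ.filter (fun A : Finset ι => ¬ q ∈ A), w A * ‖Yf g {1, σ} θ A‖ ^ 2 =
      (S + ‖h‖) / 2 := by
    rw [Finset.sum_filter_add_sum_filter_not, hsum]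
  have hPle : ∑ A ∈ univ.filter (fun A : Finset ι => q ∈ A), w A * ‖Yf g {1, σ} θ A‖ ^ 2 ≤ P := by
    apply Finset.sum_le_sum
    intro A _
    have h1 : ‖Yf g {1, σ} θ A‖ ^ 2 ≤ 1 := by
      rw [hYsq A]
      have := hre A
      linarith
    exact mul_le_of_le_one_right (hw0 A) h1
  have ha1 := hE1 ι H g lam m Y u C B I w a hPR hSt
  have haY : a ≤ Y + 1 := by
    have : 0 ≤ u * B.card := mul_nonneg hu.le (Nat.cast_nonneg _)
    linarith
  have e1 : coll ({1, σ} : Finset (∀ i, AddChar (H i) ℂ)) 1 ({q} \ ∅) ≤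
      Real.exp (-3 * (Real.log 2 / 3)) := by
    rw [Finset.sdiff_empty]
    have h1 := coll_pair_le σ q hq hσ1'
    have h2 : Real.exp (-3 * (Real.log 2 / 3)) = 1 / 2 := by
      have : -3 * (Real.log 2 / 3) = -Real.log 2 := by ring
      rw [this, Real.exp_neg, Real.exp_log (by norm_num)]
      norm_num
    rw [h2]
    exact h1
  have e2 : Real.exp (u * ({q} : Finset ι).card - 2 * (Real.log 2 / 3)) * ∑ A, w A ≤
      2 ^ ({q} : Finset ι).card * ∑ A ∈ univ.filter (fun A => A ∩ {q} = ∅),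
        w A * ‖Yf g {1, σ} θ A‖ ^ (2 * 1) := by
    rw [Finset.card_singleton, Nat.cast_one, mul_one u, pow_one, mul_one 2]
    have h1 : univ.filter (fun A : Finset ι => A ∩ {q} = ∅) =
        univ.filter (fun A : Finset ι => ¬ q ∈ A) := by
      apply Finset.filter_congr
      intro A _
      rw [← Finset.disjoint_iff_inter_eq_empty, Finset.disjoint_singleton_right]
    rw [h1]
    have h2 := num1 hu hu1
    rw [mul_one] at h2
    have h3 : Real.exp (u - 2 * (Real.log 2 / 3)) * S + Real.exp u * S ≤ 165 / 100 * S := by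
      rw [← add_mul]
      exact mul_le_mul_of_nonneg_right h2 hSpos.le
    linarith
  have e3 : ∀ χ ∈ ({1, σ} : Finset (∀ i, AddChar (H i) ℂ)), IsPow lam χ ∧ ∀ i ∈ B, χ i = 1 := by
    intro χ hχ
    rw [Finset.mem_insert, Finset.mem_singleton] at hχ
    rcases hχ with hχ | hχ
    · rw [hχ]
      exact ⟨hpow1, fun i _ => rfl⟩
    · rw [hχ]
      exact ⟨hpow, htriv⟩
  have e4 : ∀ χ ∈ ({1, σ} : Finset (∀ i, AddChar (H i) ℂ)), ‖θ χ‖ ≤ 1 := by
    intro χ hχ
    rw [Finset.mem_insert, Finset.mem_singleton] at hχ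
    rcases hχ with hχ | hχ
    · rw [hχ, hθ1, norm_one]
    · rw [hχ, hθσ, hnθ]
  obtain ⟨w', hw'⟩ := hE2 ι H g lam m Y u C B I w a {q} ∅ 1 {1, σ} θ (Real.log 2 / 3) hSt
    (Finset.empty_subset _) hdisj hcard ⟨1, Finset.mem_insert_self _ _⟩ e3 e4
    (div_nonneg hlog0.le (by norm_num)) (by linarith) e1 e2
  exact hnot _ _ _ hw'

end Pool.Agent.Work.MP_e0aece_nt.Eps

end

section

/-!
# E5: non-expansion on small sets in a maximal state
-/

namespace Pool.Agent.Work.MP_e0aece_nt.Eps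

open Finset Sq

namespace ItemE5

section Comb

variable {ι : Type} {K : ι → Type}

theorem count [DecidableEq ι] (T : Finset ι) (x y : ∀ i, K i) :
    ((T.powerset.filter fun J => dif (T \ J) x y = 0).card : ℝ) =
      2 ^ T.card * (1 / 2 : ℝ) ^ dif T x y := by
  classical
  obtain ⟨D, hD, hDc⟩ : ∃ D : Finset ι, (∀ i, i ∈ D ↔ i ∈ T ∧ x i ≠ y i) ∧
      D.card = dif T x y := by
    refine ⟨T.filter (fun i => x i ≠ y i), fun i => mem_filter, ?_⟩
    unfold dif
    congr
  have hDT : D ⊆ T := fun i hi => ((hD i).1 hi).1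
  have h0 : ∀ U : Finset ι, dif U x y = 0 ↔ ∀ i ∈ U, x i = y i := by
    intro U
    unfold dif
    simp only [card_eq_zero, filter_eq_empty_iff]
    constructor
    · intro h i hi
      by_contra hne
      exact h hi hne
    · intro h i hi hne
      exact hne (h i hi)
  have h1 : (T.powerset.filter fun J => dif (T \ J) x y = 0) = Finset.Icc D T := by
    ext J
    rw [mem_filter, mem_powerset, Finset.mem_Icc, h0]
    constructor
    · rintro ⟨h1, h2⟩
      refine ⟨fun i hi => ?_, h1⟩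
      by_contra hJ
      exact ((hD i).1 hi).2 (h2 i (mem_sdiff.2 ⟨((hD i).1 hi).1, hJ⟩))
    · rintro ⟨h1, h2⟩
      refine ⟨h2, fun i hi => ?_⟩
      by_contra hne
      exact (mem_sdiff.1 hi).2 (h1 ((hD i).2 ⟨(mem_sdiff.1 hi).1, hne⟩))
  rw [h1, card_Icc_finset hDT, ← hDc]
  have h2 := card_le_card hDT
  push_cast
  have h3 : (2 : ℝ) ^ T.card = 2 ^ (T.card - D.card) * 2 ^ D.card := by
    rw [← pow_add, Nat.sub_add_cancel h2]
  rw [h3, mul_assoc, ← mul_pow]
  norm_num

variable [∀ i, CommGroup (K i)]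

theorem card_pairs (Ω : Finset (∀ i, K i)) (k : ℕ) :
    ((pairs Ω k).card : ℝ) = (Ω.card : ℝ) ^ (2 * k) := by
  unfold pairs
  rw [card_product, Fintype.card_piFinset_const]
  push_cast
  ring

theorem coll_le_one (Ω : Finset (∀ i, K i)) (k : ℕ) (U : Finset ι) : coll Ω k U ≤ 1 := by
  unfold coll
  apply div_le_one_of_le₀
  · rw [← card_pairs]
    exact_mod_cast card_filter_le _ _
  · positivity

theorem coll_nonneg (Ω : Finset (∀ i, K i)) (k : ℕ) (U : Finset ι) : 0 ≤ coll Ω k U := by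
  unfold coll
  positivity

/-- Double counting. -/
theorem double [DecidableEq ι] (Ω : Finset (∀ i, K i)) (hΩ : Ω.Nonempty) (k : ℕ) (T : Finset ι) :
    (∑ J ∈ T.powerset, coll Ω k (T \ J)) * (Ω.card : ℝ) ^ (2 * k) =
      2 ^ T.card * ∑ q ∈ pairs Ω k, (1 / 2 : ℝ) ^ dif T (∏ j, q.1 j) (∏ j, q.2 j) := by
  have hpos : (0 : ℝ) < (Ω.card : ℝ) ^ (2 * k) := by
    have : (0 : ℝ) < Ω.card := by exact_mod_cast hΩ.card_pos
    positivity
  have h1 : ∀ J ∈ T.powerset, coll Ω k (T \ J) * (Ω.card : ℝ) ^ (2 * k) =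
      ∑ q ∈ pairs Ω k, if dif (T \ J) (∏ j, q.1 j) (∏ j, q.2 j) = 0 then (1 : ℝ) else 0 := by
    intro J _
    unfold coll
    rw [div_mul_cancel₀ _ hpos.ne', natCast_card_filter]
  rw [sum_mul, sum_congr rfl h1, sum_comm, mul_sum]
  refine sum_congr rfl fun q _ => ?_
  rw [← count, natCast_card_filter]

end Comb

section States

variable {ι : Type} [Fintype ι] [DecidableEq ι] {H : ι → Type} [∀ i, AddCommGroup (H i)]
  [∀ i, Fintype (H i)]

theorem norm_ev (g : Finset ι → ∀ i, H i) (ψ : ∀ i, AddChar (H i) ℂ) (A : Finset ι) :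
    ‖ev g ψ A‖ = 1 := by
  simp only [ev, norm_prod, AddChar.norm_apply, prod_const_one]

/-- The phases. -/
noncomputable def ph (g : Finset ι → ∀ i, H i) (w : Finset ι → ℝ) (σ : ∀ i, AddChar (H i) ℂ) :
    ℂ := hat g w σ / (‖hat g w σ‖ : ℂ)

theorem norm_ph (g : Finset ι → ∀ i, H i) (w : Finset ι → ℝ) (σ : ∀ i, AddChar (H i) ℂ) :
    ‖ph g w σ‖ ≤ 1 := by
  unfold ph
  rw [norm_div, Complex.norm_real, norm_norm]
  exact div_le_one_of_le₀ le_rfl (norm_nonneg _)

theorem conj_ph_mul (g : Finset ι → ∀ i, H i) (w : Finset ι → ℝ) (σ : ∀ i, AddChar (H i) ℂ) :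
    (starRingEnd ℂ) (ph g w σ) * hat g w σ = (‖hat g w σ‖ : ℂ) := by
  unfold ph
  rw [map_div₀, Complex.conj_ofReal, div_mul_eq_mul_div, mul_comm ((starRingEnd ℂ) _),
    Complex.mul_conj, Complex.normSq_eq_norm_sq]
  by_cases h : ‖hat g w σ‖ = 0
  · rw [h]
    norm_num
  · have h2 : (‖hat g w σ‖ : ℂ) ≠ 0 := by exact_mod_cast h
    rw [div_eq_iff h2]
    push_cast
    ring

theorem norm_Yf_le (g : Finset ι → ∀ i, H i) (Ω : Finset (∀ i, AddChar (H i) ℂ))
    (θ : (∀ i, AddChar (H i) ℂ) → ℂ) (hθ : ∀ σ ∈ Ω, ‖θ σ‖ ≤ 1) (A : Finset ι) :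
    ‖Yf g Ω θ A‖ ≤ 1 := by
  unfold Yf
  rw [norm_mul, norm_inv, Complex.norm_natCast]
  have h1 : ‖∑ σ ∈ Ω, (starRingEnd ℂ) (θ σ) * ev g σ A‖ ≤ (Ω.card : ℝ) := by
    refine (norm_sum_le _ _).trans ?_
    have h2 : ∀ σ ∈ Ω, ‖(starRingEnd ℂ) (θ σ) * ev g σ A‖ ≤ 1 := by
      intro σ hσ
      rw [norm_mul, norm_ev, mul_one, RCLike.norm_conj]
      exact hθ σ hσ
    refine (sum_le_sum h2).trans ?_
    rw [sum_const, nsmul_eq_mul, mul_one]
  rcases Ω.eq_empty_or_nonempty with h | h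
  · rw [h]
    simp
  · have h3 : (0 : ℝ) < Ω.card := by exact_mod_cast h.card_pos
    rw [inv_mul_le_iff₀ h3, mul_one]
    exact h1

/-- The weighted mean of `Yf` is large. -/
theorem sum_Yf (g : Finset ι → ∀ i, H i) (w : Finset ι → ℝ) (b : ℝ)
    (Ω : Finset (∀ i, AddChar (H i) ℂ)) (hΩ : Ω.Nonempty)
    (h : ∀ σ ∈ Ω, Real.exp (-b) * ∑ A, w A ≤ ‖hat g w σ‖) (hw : ∀ A, 0 ≤ w A) :
    Real.exp (-b) * ∑ A, w A ≤ ∑ A, w A * ‖Yf g Ω (ph g w) A‖ := by
  have h3 : (0 : ℝ) < Ω.card := by exact_mod_cast hΩ.card_pos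
  have h1 : ∑ A, (w A : ℂ) * Yf g Ω (ph g w) A =
      (((Ω.card : ℝ)⁻¹ * ∑ σ ∈ Ω, ‖hat g w σ‖ : ℝ) : ℂ) := by
    unfold Yf
    have h2 : ∀ A : Finset ι, (w A : ℂ) * ((Ω.card : ℂ)⁻¹ *
        ∑ σ ∈ Ω, (starRingEnd ℂ) (ph g w σ) * ev g σ A) =
        (Ω.card : ℂ)⁻¹ * ∑ σ ∈ Ω, (starRingEnd ℂ) (ph g w σ) * ((w A : ℂ) * ev g σ A) := by
      intro A
      rw [mul_left_comm, mul_sum]
      congr 1
      refine sum_congr rfl fun σ _ => ?_
      ring
    rw [sum_congr rfl fun A _ => h2 A, ← mul_sum, sum_comm]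
    push_cast
    congr 1
    refine sum_congr rfl fun σ _ => ?_
    rw [← mul_sum]
    exact conj_ph_mul g w σ
  have h4 : Real.exp (-b) * ∑ A, w A ≤ (Ω.card : ℝ)⁻¹ * ∑ σ ∈ Ω, ‖hat g w σ‖ := by
    rw [le_inv_mul_iff₀ h3, ← nsmul_eq_mul]
    exact card_nsmul_le_sum _ _ _ h
  refine h4.trans ?_
  have h5 : ‖∑ A, (w A : ℂ) * Yf g Ω (ph g w) A‖ = (Ω.card : ℝ)⁻¹ * ∑ σ ∈ Ω, ‖hat g w σ‖ := by
    rw [h1, Complex.norm_real, Real.norm_of_nonneg]
    exact mul_nonneg (inv_nonneg.2 h3.le) (sum_nonneg fun σ _ => norm_nonneg _)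
  rw [← h5]
  refine (norm_sum_le _ _).trans (sum_le_sum fun A _ => ?_)
  rw [norm_mul, Complex.norm_real, Real.norm_of_nonneg (hw A)]

/-- Jensen. -/
theorem jensen (g : Finset ι → ∀ i, H i) (w : Finset ι → ℝ) (b : ℝ)
    (Ω : Finset (∀ i, AddChar (H i) ℂ)) (hΩ : Ω.Nonempty)
    (h : ∀ σ ∈ Ω, Real.exp (-b) * ∑ A, w A ≤ ‖hat g w σ‖) (hw : ∀ A, 0 ≤ w A)
    (hS : 0 < ∑ A, w A) (k : ℕ) :
    Real.exp (-(2 * k * b)) * ∑ A, w A ≤ ∑ A, w A * ‖Yf g Ω (ph g w) A‖ ^ (2 * k) := by
  have h1 := sum_Yf g w b Ω hΩ h hw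
  have h2 := Real.pow_arith_mean_le_arith_mean_pow Finset.univ (fun A => w A / ∑ A, w A)
    (fun A => ‖Yf g Ω (ph g w) A‖) (fun A _ => div_nonneg (hw A) hS.le)
    (by rw [← sum_div, div_self hS.ne']) (fun A _ => norm_nonneg _) (2 * k)
  have h3 : ∑ A, w A / (∑ A, w A) * ‖Yf g Ω (ph g w) A‖ =
      (∑ A, w A * ‖Yf g Ω (ph g w) A‖) / ∑ A, w A := by
    rw [sum_div]
    exact sum_congr rfl fun A _ => by ring
  have h4 : ∑ A, w A / (∑ A, w A) * ‖Yf g Ω (ph g w) A‖ ^ (2 * k) =
      (∑ A, w A * ‖Yf g Ω (ph g w) A‖ ^ (2 * k)) / ∑ A, w A := by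
    rw [sum_div]
    exact sum_congr rfl fun A _ => by ring
  rw [h3, h4] at h2
  have h5 : Real.exp (-b) ≤ (∑ A, w A * ‖Yf g Ω (ph g w) A‖) / ∑ A, w A := by
    rw [le_div_iff₀ hS]
    exact h1
  have h6 : Real.exp (-(2 * k * b)) = Real.exp (-b) ^ (2 * k) := by
    rw [← Real.exp_nat_mul]
    congr 1
    push_cast
    ring
  rw [h6, ← le_div_iff₀ hS]
  exact (pow_le_pow_left₀ (Real.exp_pos _).le h5 _).trans h2

/-- A maximal state cannot be extended. -/
theorem no_ext (hE2 : ClaimE2) {g : Finset ι → ∀ i, H i} {lam m : ℕ} {Y u : ℝ}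
    {C : Finset (Finset ι)} {B I : Finset ι} {w : Finset ι → ℝ} {a : ℝ}
    {Ω : Finset (∀ i, AddChar (H i) ℂ)} {T : Finset ι} (hmx : Mx g lam m Y u C B I w a)
    (hB : 2 * B.card ≤ m) (hΩ : Ω.Nonempty) (hΩ2 : ∀ σ ∈ Ω, IsPow lam σ ∧ ∀ i ∈ B, σ i = 1)
    (hT : T.Nonempty) (hTB : Disjoint T B) (hTm : 2 * T.card ≤ m)
    {θ : (∀ i, AddChar (H i) ℂ) → ℂ} (hθ : ∀ σ ∈ Ω, ‖θ σ‖ ≤ 1) {J : Finset ι} (hJ : J ⊆ T)
    {k : ℕ} {r : ℝ} (hr : 0 ≤ r) (har : 3 * (a + r) ≤ m * Real.log 2)
    (hc : coll Ω k (T \ J) ≤ Real.exp (-3 * r)) :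
    2 ^ T.card * ∑ A ∈ univ.filter (fun A => A ∩ T = J), w A * ‖Yf g Ω θ A‖ ^ (2 * k) <
      Real.exp (u * T.card - 2 * r) * ∑ A, w A := by
  by_contra hcon
  rw [not_lt] at hcon
  obtain ⟨w', hw'⟩ := hE2 ι H g lam m Y u C B I w a T J k Ω θ r hmx.1 hJ hTB (by omega) hΩ hΩ2 hθ
    hr har hc hcon
  have h1 := hmx.2 _ _ _ _ hw'
  rw [card_union_of_disjoint hTB.symm] at h1
  have h2 := hT.card_pos
  omega

end States

end ItemE5

open ItemE5 in
theorem claimE5 (hE1 : ClaimE1) (hE2 : ClaimE2) : ClaimE5 := by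
  intro ι _ _ H _ _ g lam m Y u C B I w a b Ω k T hPR hmx hB hY hu hb hΩ hsp hk hT hTB hTm hnum
  obtain ⟨hIB, hBm, ha, ham, ⟨F, -, hF1, hwF⟩, hwC, hbig⟩ := hmx.1
  have hw : ∀ A, 0 ≤ w A := fun A => (hwF A).1
  have hS : 0 < ∑ A, w A := by
    have h1 : (0 : ℝ) < (∑ A, w A) * 2 ^ B.card := lt_of_lt_of_le (by positivity) hbig
    exact pos_of_mul_pos_left h1 (by positivity)
  have haY := hE1 ι H g lam m Y u C B I w a hPR hmx.1
  have haY' : a ≤ Y + 1 := by
    have : 0 ≤ u * B.card := by positivity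
    linarith
  have hΩ2 : ∀ σ ∈ Ω, IsPow lam σ ∧ ∀ i ∈ B, σ i = 1 := fun σ hσ => ⟨(hsp σ hσ).1, (hsp σ hσ).2.1⟩
  have hlog1 := Real.log_two_lt_d9
  have hlog2 : 0 < Real.log 2 := Real.log_pos (by norm_num)
  have hJen := jensen g w b Ω hΩ (fun σ hσ => (hsp σ hσ).2.2) hw hS k
  set S := ∑ A, w A with hSdef
  set X : Finset ι → ℝ := fun J =>
    ∑ A ∈ univ.filter (fun A => A ∩ T = J), w A * ‖Yf g Ω (ph g w) A‖ ^ (2 * k) with hX
  have hsumX : ∑ J ∈ T.powerset, X J = ∑ A, w A * ‖Yf g Ω (ph g w) A‖ ^ (2 * k) :=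
    sum_fiberwise_of_maps_to (fun A _ => mem_powerset.2 inter_subset_right) _
  have hT0 : (0 : ℝ) < 2 ^ T.card := by positivity
  -- first bound
  have hX1 : ∀ J ∈ T.powerset, 2 ^ T.card * X J ≤ Real.exp (u * T.card) * S := by
    intro J hJ
    have h1 := no_ext hE2 hmx hB hΩ hΩ2 hT hTB hTm (fun σ _ => norm_ph g w σ)
      (mem_powerset.1 hJ) (k := 0) (r := 0) le_rfl (by linarith)
      (by rw [mul_zero, Real.exp_zero]; exact coll_le_one _ _ _)
    rw [mul_zero, mul_zero, sub_zero] at h1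
    refine le_trans ?_ h1.le
    apply mul_le_mul_of_nonneg_left _ hT0.le
    apply sum_le_sum
    intro A _
    apply mul_le_mul_of_nonneg_left _ (hw A)
    rw [pow_zero]
    exact pow_le_one₀ (norm_nonneg _) (norm_Yf_le g Ω _ (fun σ _ => norm_ph g w σ) A)
  -- second bound
  set r : ℝ := (2 * k * b + u * T.card + Real.log 2) / 2 with hr
  have hkb : 0 ≤ (k : ℝ) * b := by positivity
  have huT : 0 ≤ u * (T.card : ℝ) := by positivity
  have hr0 : 0 ≤ r := by
    rw [hr]
    have : 0 ≤ 2 * (k : ℝ) * b := by positivity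
    positivity
  have har : 3 * (a + r) ≤ m * Real.log 2 := by
    rw [hr]
    nlinarith
  have hX2 : ∀ J ∈ T.powerset, coll Ω k (T \ J) ≤ Real.exp (-3 * r) →
      2 ^ T.card * X J ≤ 1 / 2 * Real.exp (-(2 * k * b)) * S := by
    intro J hJ hc
    have h1 := no_ext hE2 hmx hB hΩ hΩ2 hT hTB hTm (fun σ _ => norm_ph g w σ)
      (mem_powerset.1 hJ) hr0 har hc
    have h2 : Real.exp (u * T.card - 2 * r) = 1 / 2 * Real.exp (-(2 * k * b)) := by
      have h3 : u * T.card - 2 * r = -Real.log 2 + -(2 * k * b) := by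
        rw [hr]
        ring
      rw [h3, Real.exp_add, Real.exp_neg, Real.exp_log (by norm_num)]
      norm_num
    rw [h2] at h1
    exact h1.le
  -- the sets J with many coincidences
  set J2 := T.powerset.filter (fun J => Real.exp (-3 * r) < coll Ω k (T \ J)) with hJ2
  have hcount : 2 ^ T.card * (Real.exp (-(2 * k * b)) * S) ≤
      2 ^ T.card * (1 / 2 * Real.exp (-(2 * k * b)) * S) +
        J2.card * (Real.exp (u * T.card) * S) := by
    calc 2 ^ T.card * (Real.exp (-(2 * k * b)) * S)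
        ≤ 2 ^ T.card * ∑ J ∈ T.powerset, X J := by
          rw [hsumX]
          exact mul_le_mul_of_nonneg_left hJen hT0.le
      _ = ∑ J ∈ T.powerset, 2 ^ T.card * X J := mul_sum _ _ _
      _ ≤ ∑ J ∈ T.powerset, (1 / 2 * Real.exp (-(2 * k * b)) * S +
            if Real.exp (-3 * r) < coll Ω k (T \ J) then Real.exp (u * T.card) * S else 0) := by
          apply sum_le_sum
          intro J hJ
          split_ifs with h
          · have h1 := hX1 J hJ
            have h2 : 0 ≤ 1 / 2 * Real.exp (-(2 * k * b)) * S := by positivity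
            linarith
          · rw [add_zero]
            exact hX2 J hJ (not_lt.1 h)
      _ = _ := by
          rw [sum_add_distrib, sum_const, card_powerset, nsmul_eq_mul, ← sum_filter, sum_const,
            nsmul_eq_mul]
          push_cast
          rfl
  have hJ2card : 2 ^ T.card * (1 / 2 * Real.exp (-(2 * k * b))) ≤
      J2.card * Real.exp (u * T.card) := by
    have h1 : (2 ^ T.card * (1 / 2 * Real.exp (-(2 * k * b)))) * S ≤
        (J2.card * Real.exp (u * T.card)) * S := by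
      linarith
    exact le_of_mul_le_mul_right h1 hS
  -- double counting
  have hdouble := double Ω hΩ k T
  have hpos : (0 : ℝ) ≤ (Ω.card : ℝ) ^ (2 * k) := by positivity
  have hsum : J2.card * Real.exp (-3 * r) ≤ ∑ J ∈ T.powerset, coll Ω k (T \ J) := by
    calc J2.card * Real.exp (-3 * r) = ∑ J ∈ J2, Real.exp (-3 * r) := by
          rw [sum_const, nsmul_eq_mul]
      _ ≤ ∑ J ∈ J2, coll Ω k (T \ J) := sum_le_sum fun J hJ => (mem_filter.1 hJ).2.le
      _ ≤ _ := sum_le_sum_of_subset_of_nonneg (filter_subset _ _)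
          (fun J _ _ => coll_nonneg _ _ _)
  have hfin : Real.exp (-(5 * k * b + 5 / 2 * u * T.card + 7 / 4)) ≤
      1 / 2 * Real.exp (-(2 * k * b)) * Real.exp (-(u * T.card)) * Real.exp (-3 * r) := by
    have h1 : (1 / 2 : ℝ) = Real.exp (-Real.log 2) := by
      rw [Real.exp_neg, Real.exp_log (by norm_num)]
      norm_num
    rw [h1, ← Real.exp_add, ← Real.exp_add, ← Real.exp_add]
    apply Real.exp_le_exp.2
    rw [hr]
    nlinarith
  have hJ2' : 2 ^ T.card * (1 / 2 * Real.exp (-(2 * k * b)) * Real.exp (-(u * T.card))) ≤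
      J2.card := by
    have h1 : Real.exp (u * T.card) * Real.exp (-(u * T.card)) = 1 := by
      rw [← Real.exp_add, add_neg_cancel, Real.exp_zero]
    calc 2 ^ T.card * (1 / 2 * Real.exp (-(2 * k * b)) * Real.exp (-(u * T.card)))
        = (2 ^ T.card * (1 / 2 * Real.exp (-(2 * k * b)))) * Real.exp (-(u * T.card)) := by ring
      _ ≤ (J2.card * Real.exp (u * T.card)) * Real.exp (-(u * T.card)) :=
          mul_le_mul_of_nonneg_right hJ2card (Real.exp_pos _).le
      _ = J2.card := by rw [mul_assoc, h1, mul_one]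
  have key : 2 ^ T.card * (Real.exp (-(5 * k * b + 5 / 2 * u * T.card + 7 / 4)) *
      (Ω.card : ℝ) ^ (2 * k)) ≤
      2 ^ T.card * ∑ q ∈ pairs Ω k, (1 / 2 : ℝ) ^ dif T (∏ j, q.1 j) (∏ j, q.2 j) := by
    rw [← hdouble]
    calc 2 ^ T.card * (Real.exp (-(5 * k * b + 5 / 2 * u * T.card + 7 / 4)) *
          (Ω.card : ℝ) ^ (2 * k))
        = (2 ^ T.card * Real.exp (-(5 * k * b + 5 / 2 * u * T.card + 7 / 4))) *
          (Ω.card : ℝ) ^ (2 * k) := by ring
      _ ≤ (J2.card * Real.exp (-3 * r)) * (Ω.card : ℝ) ^ (2 * k) := by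
          apply mul_le_mul_of_nonneg_right _ hpos
          calc 2 ^ T.card * Real.exp (-(5 * k * b + 5 / 2 * u * T.card + 7 / 4))
              ≤ 2 ^ T.card * (1 / 2 * Real.exp (-(2 * k * b)) * Real.exp (-(u * T.card)) *
                  Real.exp (-3 * r)) := mul_le_mul_of_nonneg_left hfin hT0.le
            _ = (2 ^ T.card * (1 / 2 * Real.exp (-(2 * k * b)) * Real.exp (-(u * T.card)))) *
                  Real.exp (-3 * r) := by ring
            _ ≤ J2.card * Real.exp (-3 * r) :=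
                mul_le_mul_of_nonneg_right hJ2' (Real.exp_pos _).le
      _ ≤ _ := mul_le_mul_of_nonneg_right hsum hpos
  exact le_of_mul_le_mul_left key hT0

end Pool.Agent.Work.MP_e0aece_nt.Eps

end

section

/-!
# E6: averaging over transversals
-/

namespace Pool.Agent.Work.MP_e0aece_nt.Eps

open Finset

namespace ItemE6

/-- A partition of `U` into `t` nonempty blocks of size at most `nb`. -/
lemma blocks {ι : Type} [DecidableEq ι] (U : Finset ι) (t : ℕ) (ht : 1 ≤ t) (htU : t ≤ U.card) :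
    ∃ bl : Fin t → Finset ι, (∀ j, bl j ⊆ U) ∧ (∀ j, (bl j).Nonempty) ∧
      (∀ j, (bl j).card ≤ (U.card + t - 1) / t) ∧ (∀ i j x, x ∈ bl i → x ∈ bl j → i = j) ∧
      ∀ D : Finset ι, D ⊆ U → ∑ j, (bl j ∩ D).card = D.card := by
  classical
  let f : ι → ℕ := fun x => if h : x ∈ U then (U.equivFin ⟨x, h⟩).val else 0
  have hf : ∀ x ∈ U, f x < U.card := by
    intro x hx
    simp only [f, dif_pos hx]
    exact (U.equivFin ⟨x, hx⟩).isLt
  have hfinj : ∀ x ∈ U, ∀ y ∈ U, f x = f y → x = y := by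
    intro x hx y hy h
    simp only [f, dif_pos hx, dif_pos hy] at h
    have := U.equivFin.injective (Fin.ext h)
    exact congrArg Subtype.val this
  refine ⟨fun j => U.filter fun x => f x % t = j.val, fun j => Finset.filter_subset _ _, ?_, ?_,
    ?_, ?_⟩
  · intro j
    have hj : j.val < U.card := j.isLt.trans_le htU
    refine ⟨(U.equivFin.symm ⟨j.val, hj⟩).val, ?_⟩
    have hm := (U.equivFin.symm ⟨j.val, hj⟩).2
    rw [Finset.mem_filter]
    refine ⟨hm, ?_⟩
    simp only [f, dif_pos hm]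
    simp only [Subtype.coe_eta, Equiv.apply_symm_apply]
    exact Nat.mod_eq_of_lt j.isLt
  · intro j
    have : ((U.filter fun x => f x % t = j.val).card) ≤
        (Finset.range ((U.card + t - 1) / t)).card := by
      refine Finset.card_le_card_of_injOn (fun x => f x / t) ?_ ?_
      · intro x hx
        rw [Finset.mem_coe, Finset.mem_filter] at hx
        rw [Finset.mem_coe, Finset.mem_range]
        have h1 := hf x hx.1
        have h2 : (U.card + t - 1) / t = (U.card - 1) / t + 1 := by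
          have : U.card + t - 1 = (U.card - 1) + t := by omega
          rw [this, Nat.add_div_right _ (by omega)]
        rw [h2]
        exact Nat.lt_succ_of_le (Nat.div_le_div_right (by omega))
      · intro x hx y hy h
        rw [Finset.mem_coe, Finset.mem_filter] at hx hy
        apply hfinj x hx.1 y hy.1
        have h' : f x / t = f y / t := h
        rw [← Nat.div_add_mod (f x) t, ← Nat.div_add_mod (f y) t, hx.2, hy.2, h']
    rwa [Finset.card_range] at this
  · intro i j x hi hj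
    rw [Finset.mem_filter] at hi hj
    exact Fin.ext (hi.2.symm.trans hj.2)
  · intro D hD
    have hmap : ∀ x ∈ D, (⟨f x % t, Nat.mod_lt _ ht⟩ : Fin t) ∈ (Finset.univ : Finset (Fin t)) :=
      fun x _ => Finset.mem_univ _
    rw [Finset.card_eq_sum_card_fiberwise hmap]
    refine Finset.sum_congr rfl fun j _ => ?_
    congr 1
    ext x
    rw [Finset.mem_inter, Finset.mem_filter, Finset.mem_filter]
    constructor
    · rintro ⟨⟨_, h2⟩, h3⟩
      exact ⟨h3, Fin.ext h2⟩
    · rintro ⟨h1, h2⟩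
      exact ⟨⟨hD h1, congrArg Fin.val h2⟩, h1⟩

/-- The estimate for one block. -/
lemma block_est {ι : Type} [DecidableEq ι] (b D : Finset ι) (hb : b.Nonempty) (nb : ℕ)
    (hnb : b.card ≤ nb) :
    ∑ x ∈ b, (if x ∈ D then (1 / 2 : ℝ) else 1) ≤
      b.card * Real.exp (-(((b ∩ D).card : ℝ) / (2 * nb))) := by
  have h1 : ∑ x ∈ b, (if x ∈ D then (1 / 2 : ℝ) else 1) = b.card - (b ∩ D).card / 2 := by
    have : ∀ x ∈ b, (if x ∈ D then (1 / 2 : ℝ) else 1) = 1 - (if x ∈ D then (1 / 2 : ℝ) else 0) := by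
      intro x _
      split_ifs <;> norm_num
    rw [Finset.sum_congr rfl this, Finset.sum_sub_distrib, Finset.sum_ite_mem]
    simp
    ring
  rw [h1]
  have hbpos : (0 : ℝ) < b.card := by exact_mod_cast Finset.card_pos.mpr hb
  have hnb' : (b.card : ℝ) ≤ nb := by exact_mod_cast hnb
  have hc : (0 : ℝ) ≤ (b ∩ D).card := Nat.cast_nonneg _
  have h2 : 1 - ((b ∩ D).card : ℝ) / (2 * b.card) ≤
      Real.exp (-(((b ∩ D).card : ℝ) / (2 * b.card))) := by
    have := Real.add_one_le_exp (-(((b ∩ D).card : ℝ) / (2 * b.card)))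
    linarith
  have h3 : Real.exp (-(((b ∩ D).card : ℝ) / (2 * b.card))) ≤
      Real.exp (-(((b ∩ D).card : ℝ) / (2 * nb))) := by
    apply Real.exp_le_exp.mpr
    apply neg_le_neg
    exact div_le_div_of_nonneg_left hc (by positivity) (by linarith)
  calc (b.card : ℝ) - (b ∩ D).card / 2 = b.card * (1 - ((b ∩ D).card : ℝ) / (2 * b.card)) := by
        field_simp
    _ ≤ _ := mul_le_mul_of_nonneg_left (h2.trans h3) hbpos.le

/-- The sum over transversals for one `D`. -/
lemma trans_sum {ι : Type} [DecidableEq ι] (U D : Finset ι) (t nb : ℕ) (bl : Fin t → Finset ι)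
    (hne : ∀ j, (bl j).Nonempty) (hcard : ∀ j, (bl j).card ≤ nb)
    (hdisj : ∀ i j x, x ∈ bl i → x ∈ bl j → i = j)
    (hsum : ∑ j, (bl j ∩ D).card = D.card) :
    ∑ σ ∈ Fintype.piFinset bl, (1 / 2 : ℝ) ^ (D ∩ Finset.univ.image σ).card ≤
      (Fintype.piFinset bl).card * Real.exp (-((D.card : ℝ) / (2 * nb))) := by
  have h1 : ∀ σ ∈ Fintype.piFinset bl, (1 / 2 : ℝ) ^ (D ∩ Finset.univ.image σ).card =
      ∏ j, (if σ j ∈ D then (1 / 2 : ℝ) else 1) := by
    intro σ hσ
    rw [Fintype.mem_piFinset] at hσ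
    have hinj : Function.Injective σ := by
      intro i j hij
      exact hdisj i j (σ i) (hσ i) (by rw [hij]; exact hσ j)
    have h2 : (D ∩ Finset.univ.image σ) = (Finset.univ.filter fun j => σ j ∈ D).image σ := by
      ext x
      simp only [Finset.mem_inter, Finset.mem_image, Finset.mem_univ, true_and, Finset.mem_filter]
      constructor
      · rintro ⟨hx, j, rfl⟩
        exact ⟨j, hx, rfl⟩
      · rintro ⟨j, hx, rfl⟩
        exact ⟨hx, j, rfl⟩
    rw [h2, Finset.card_image_of_injective _ hinj, Finset.prod_ite, Finset.prod_const,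
      Finset.prod_const_one, mul_one]
  rw [Finset.sum_congr rfl h1]
  have h3 := Finset.prod_univ_sum bl (fun _ (x : ι) => if x ∈ D then (1 / 2 : ℝ) else 1)
  rw [← h3]
  calc ∏ j, ∑ x ∈ bl j, (if x ∈ D then (1 / 2 : ℝ) else 1)
      ≤ ∏ j, ((bl j).card * Real.exp (-(((bl j ∩ D).card : ℝ) / (2 * nb)))) := by
        refine Finset.prod_le_prod (fun j _ => ?_) (fun j _ => block_est _ _ (hne j) nb (hcard j))
        refine Finset.sum_nonneg fun x _ => ?_
        split_ifs <;> norm_num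
    _ = (∏ j, ((bl j).card : ℝ)) * ∏ j, Real.exp (-(((bl j ∩ D).card : ℝ) / (2 * nb))) :=
        Finset.prod_mul_distrib
    _ = _ := by
        rw [Fintype.card_piFinset, ← Real.exp_sum, Finset.sum_neg_distrib, ← Finset.sum_div,
          ← Nat.cast_sum, hsum, Nat.cast_prod]

end ItemE6

theorem claimE6 : ClaimE6 := by
  classical
  intro ι τ _ P D U t v ht htU hD hT
  obtain ⟨bl, hbU, hne, hcard, hdisj, hsum⟩ := ItemE6.blocks U t ht htU
  set nb := (U.card + t - 1) / t with hnb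
  have hS : (0 : ℝ) < (Fintype.piFinset bl).card := by
    have : (Fintype.piFinset bl).Nonempty := by
      rw [Fintype.piFinset_nonempty]
      exact hne
    exact_mod_cast Finset.card_pos.mpr this
  have h1 : ∀ σ ∈ Fintype.piFinset bl,
      v ≤ ∑ q ∈ P, (1 / 2 : ℝ) ^ (D q ∩ Finset.univ.image σ).card := by
    intro σ hσ
    rw [Fintype.mem_piFinset] at hσ
    have hinj : Function.Injective σ := by
      intro i j hij
      exact hdisj i j (σ i) (hσ i) (by rw [hij]; exact hσ j)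
    refine hT _ ?_ ?_
    · intro x hx
      rw [Finset.mem_image] at hx
      obtain ⟨j, _, rfl⟩ := hx
      exact hbU j (hσ j)
    · rw [Finset.card_image_of_injective _ hinj, Finset.card_univ, Fintype.card_fin]
  have h2 : ((Fintype.piFinset bl).card : ℝ) * v ≤
      (Fintype.piFinset bl).card * ∑ q ∈ P, Real.exp (-(((D q).card : ℝ) / (2 * (nb : ℝ)))) := by
    calc ((Fintype.piFinset bl).card : ℝ) * v = ∑ σ ∈ Fintype.piFinset bl, v := by
          rw [Finset.sum_const, nsmul_eq_mul]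
      _ ≤ ∑ σ ∈ Fintype.piFinset bl,
          ∑ q ∈ P, (1 / 2 : ℝ) ^ (D q ∩ Finset.univ.image σ).card := Finset.sum_le_sum h1
      _ = ∑ q ∈ P, ∑ σ ∈ Fintype.piFinset bl,
          (1 / 2 : ℝ) ^ (D q ∩ Finset.univ.image σ).card := Finset.sum_comm
      _ ≤ ∑ q ∈ P, (Fintype.piFinset bl).card *
          Real.exp (-(((D q).card : ℝ) / (2 * (nb : ℝ)))) := by
          refine Finset.sum_le_sum fun q hq => ?_
          exact ItemE6.trans_sum U (D q) t nb bl hne hcard hdisj (hsum _ (hD q hq))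
      _ = _ := by rw [Finset.mul_sum]
  exact le_of_mul_le_mul_left h2 hS

end Pool.Agent.Work.MP_e0aece_nt.Eps

end

section

/-!
# E7: non-expansion on all sets
-/

namespace Pool.Agent.Work.MP_e0aece_nt.Eps

open Finset

namespace ItemE7

/-- Numerical facts about the choice of `t`. -/
lemma choice (n M m k : ℕ) (u b : ℝ) (hb : 0 < b) (hu : 0 < u) (hu1 : u ≤ 1 / 100)
    (hm : 100 ≤ m) (hmM : m ≤ M) (hnM : n ≤ M) (hn : 1 ≤ n) (hk : 1 ≤ k) :
    ∃ t : ℕ, 1 ≤ t ∧ t ≤ n ∧ 2 * t ≤ m ∧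
      (5 * k * b + 5 / 2 * u * t + 7 / 4) + 1 / 2 ≤ k * (8 * b + 6) ∧
      2 * (((n + t - 1) / t : ℕ) : ℝ) * ((5 * k * b + 5 / 2 * u * t + 7 / 4) + 1) ≤
        30 * u * n + k * (12 * ((M : ℝ) / m) * (8 * b + 6)) := by
  set c := ⌈(k * b + 1) / u⌉₊ with hc
  have hk' : (1 : ℝ) ≤ k := by exact_mod_cast hk
  have hm' : (100 : ℝ) ≤ m := by exact_mod_cast hm
  have hmM' : (m : ℝ) ≤ M := by exact_mod_cast hmM
  have hnM' : (n : ℝ) ≤ M := by exact_mod_cast hnM
  have hn' : (1 : ℝ) ≤ n := by exact_mod_cast hn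
  have hkb : 0 < (k : ℝ) * b := by positivity
  have hcpos : 1 ≤ c := by
    rw [hc]
    exact Nat.one_le_ceil_iff.mpr (by positivity)
  have hc1 : (k * b + 1) / u ≤ c := Nat.le_ceil _
  have hc2 : (c : ℝ) < (k * b + 1) / u + 1 := Nat.ceil_lt_add_one (by positivity)
  have huc1 : k * b + 1 ≤ u * c := by
    rw [div_le_iff₀ hu] at hc1
    linarith
  have huc2 : u * c ≤ k * b + 1 + u := by
    have h1 : u * c ≤ u * ((k * b + 1) / u + 1) := mul_le_mul_of_nonneg_left hc2.le hu.le
    have h2 : u * ((k * b + 1) / u + 1) = k * b + 1 + u := by field_simp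
    linarith
  have hMm : 1 ≤ (M : ℝ) / m := by
    rw [le_div_iff₀ (by linarith)]
    linarith
  -- general facts for `t ≤ c`
  have key : ∀ t : ℕ, t ≤ c → (5 * k * b + 5 / 2 * u * t + 7 / 4) ≤ 15 / 2 * (k * b) + 43 / 10 := by
    intro t ht
    have h1 : u * t ≤ u * c := mul_le_mul_of_nonneg_left (by exact_mod_cast ht) hu.le
    nlinarith
  have key2 : ∀ t : ℕ, t ≤ c →
      (5 * k * b + 5 / 2 * u * t + 7 / 4) + 1 / 2 ≤ k * (8 * b + 6) := by
    intro t ht
    have := key t ht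
    nlinarith
  have nbound : ∀ t : ℕ, 1 ≤ t → t ≤ n → (((n + t - 1) / t : ℕ) : ℝ) ≤ 2 * n / t := by
    intro t h1 h2
    have h3 : (((n + t - 1) / t : ℕ) : ℝ) ≤ ((n + t - 1 : ℕ) : ℝ) / t := Nat.cast_div_le
    refine h3.trans ?_
    have ht : (0 : ℝ) < t := by exact_mod_cast h1
    apply div_le_div_of_nonneg_right _ ht.le
    have : n + t - 1 ≤ 2 * n := by omega
    exact_mod_cast this
  rcases le_or_gt c n with h1 | h1
  · rcases le_or_gt (2 * c) m with h2 | h2
    · -- `t = c`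
      refine ⟨c, hcpos, h1, h2, key2 c le_rfl, ?_⟩
      have hcp : (0 : ℝ) < c := by exact_mod_cast hcpos
      have h3 := nbound c hcpos h1
      have h4 : (5 * k * b + 5 / 2 * u * c + 7 / 4) + 1 ≤ 15 / 2 * (u * c) := by nlinarith
      have h5 : 0 ≤ (5 * k * b + 5 / 2 * u * c + 7 / 4) + 1 := by positivity
      calc 2 * (((n + c - 1) / c : ℕ) : ℝ) * ((5 * k * b + 5 / 2 * u * c + 7 / 4) + 1)
          ≤ 2 * (2 * n / c) * (15 / 2 * (u * c)) := by
            apply mul_le_mul (by linarith) h4 h5 (by positivity)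
        _ = 30 * u * n := by field_simp; ring
        _ ≤ _ := by
            have : 0 ≤ (k : ℝ) * (12 * ((M : ℝ) / m) * (8 * b + 6)) := by positivity
            linarith
    · -- `t = m / 2`
      have ht1 : 1 ≤ m / 2 := by omega
      have htn : m / 2 ≤ n := by omega
      have htc : m / 2 ≤ c := by omega
      refine ⟨m / 2, ht1, htn, by omega, key2 _ htc, ?_⟩
      have htp : (0 : ℝ) < ((m / 2 : ℕ) : ℝ) := by exact_mod_cast ht1
      have h3 := nbound (m / 2) ht1 htn
      have h4 := key (m / 2) htc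
      have h5 : 0 ≤ (5 * k * b + 5 / 2 * u * ((m / 2 : ℕ) : ℝ) + 7 / 4) + 1 := by positivity
      have h6 : (495 / 1000 : ℝ) * m ≤ ((m / 2 : ℕ) : ℝ) := by
        have : m ≤ 2 * (m / 2) + 1 := by omega
        have h7 : (m : ℝ) ≤ 2 * ((m / 2 : ℕ) : ℝ) + 1 := by exact_mod_cast this
        linarith
      have h8 : 2 * (n : ℝ) / ((m / 2 : ℕ) : ℝ) ≤ 2 * M / (495 / 1000 * m) := by
        apply div_le_div₀ (by positivity) (by linarith) (by positivity) h6
      have h9 : 2 * (M : ℝ) / (495 / 1000 * m) = (2 * 1000 / 495) * (M / m) := by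
        field_simp
      calc 2 * (((n + m / 2 - 1) / (m / 2) : ℕ) : ℝ) *
            ((5 * k * b + 5 / 2 * u * ((m / 2 : ℕ) : ℝ) + 7 / 4) + 1)
          ≤ 2 * ((2 * 1000 / 495) * ((M : ℝ) / m)) * (15 / 2 * (k * b) + 43 / 10 + 1) := by
            apply mul_le_mul _ (by linarith) h5 (by positivity)
            have := h3.trans (h8.trans_eq h9)
            linarith
        _ ≤ k * (12 * ((M : ℝ) / m) * (8 * b + 6)) := by
            have h10 : (2 : ℝ) * (2 * 1000 / 495) * (15 / 2 * (k * b) + 43 / 10 + 1) ≤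
                k * (12 * (8 * b + 6)) := by
              nlinarith
            have h11 : (0 : ℝ) ≤ (M : ℝ) / m := by positivity
            calc 2 * ((2 * 1000 / 495) * ((M : ℝ) / m)) * (15 / 2 * (k * b) + 43 / 10 + 1)
                = ((M : ℝ) / m) * (2 * (2 * 1000 / 495) * (15 / 2 * (k * b) + 43 / 10 + 1)) := by
                  ring
              _ ≤ ((M : ℝ) / m) * (k * (12 * (8 * b + 6))) :=
                  mul_le_mul_of_nonneg_left h10 h11
              _ = _ := by ring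
        _ ≤ _ := by
            have : 0 ≤ 30 * u * (n : ℝ) := by positivity
            linarith
  · rcases le_or_gt (2 * n) m with h2 | h2
    · -- `t = n`
      refine ⟨n, hn, le_rfl, h2, key2 n h1.le, ?_⟩
      have h3 : (n + n - 1) / n = 1 := by
        apply Nat.div_eq_of_lt_le
        · omega
        · omega
      rw [h3]
      have h4 := key n h1.le
      have h5 : (2 : ℝ) * (15 / 2 * (k * b) + 43 / 10 + 1) ≤ k * (12 * (8 * b + 6)) := by
        nlinarith
      have h6 : (k : ℝ) * (12 * (8 * b + 6)) ≤ k * (12 * ((M : ℝ) / m) * (8 * b + 6)) := by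
        have : (0 : ℝ) ≤ k * (12 * (8 * b + 6)) := by positivity
        calc (k : ℝ) * (12 * (8 * b + 6)) = (k * (12 * (8 * b + 6))) * 1 := by ring
          _ ≤ (k * (12 * (8 * b + 6))) * ((M : ℝ) / m) := mul_le_mul_of_nonneg_left hMm this
          _ = _ := by ring
      have h7 : 0 ≤ 30 * u * (n : ℝ) := by positivity
      push_cast
      linarith
    · -- `t = m / 2`
      have ht1 : 1 ≤ m / 2 := by omega
      have htn : m / 2 ≤ n := by omega
      have htc : m / 2 ≤ c := by omega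
      refine ⟨m / 2, ht1, htn, by omega, key2 _ htc, ?_⟩
      have htp : (0 : ℝ) < ((m / 2 : ℕ) : ℝ) := by exact_mod_cast ht1
      have h3 := nbound (m / 2) ht1 htn
      have h4 := key (m / 2) htc
      have h5 : 0 ≤ (5 * k * b + 5 / 2 * u * ((m / 2 : ℕ) : ℝ) + 7 / 4) + 1 := by positivity
      have h6 : (495 / 1000 : ℝ) * m ≤ ((m / 2 : ℕ) : ℝ) := by
        have : m ≤ 2 * (m / 2) + 1 := by omega
        have h7 : (m : ℝ) ≤ 2 * ((m / 2 : ℕ) : ℝ) + 1 := by exact_mod_cast this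
        linarith
      have h8 : 2 * (n : ℝ) / ((m / 2 : ℕ) : ℝ) ≤ 2 * M / (495 / 1000 * m) := by
        apply div_le_div₀ (by positivity) (by linarith) (by positivity) h6
      have h9 : 2 * (M : ℝ) / (495 / 1000 * m) = (2 * 1000 / 495) * (M / m) := by
        field_simp
      calc 2 * (((n + m / 2 - 1) / (m / 2) : ℕ) : ℝ) *
            ((5 * k * b + 5 / 2 * u * ((m / 2 : ℕ) : ℝ) + 7 / 4) + 1)
          ≤ 2 * ((2 * 1000 / 495) * ((M : ℝ) / m)) * (15 / 2 * (k * b) + 43 / 10 + 1) := by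
            apply mul_le_mul _ (by linarith) h5 (by positivity)
            have := h3.trans (h8.trans_eq h9)
            linarith
        _ ≤ k * (12 * ((M : ℝ) / m) * (8 * b + 6)) := by
            have h10 : (2 : ℝ) * (2 * 1000 / 495) * (15 / 2 * (k * b) + 43 / 10 + 1) ≤
                k * (12 * (8 * b + 6)) := by
              nlinarith
            have h11 : (0 : ℝ) ≤ (M : ℝ) / m := by positivity
            calc 2 * ((2 * 1000 / 495) * ((M : ℝ) / m)) * (15 / 2 * (k * b) + 43 / 10 + 1)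
                = ((M : ℝ) / m) * (2 * (2 * 1000 / 495) * (15 / 2 * (k * b) + 43 / 10 + 1)) := by
                  ring
              _ ≤ ((M : ℝ) / m) * (k * (12 * (8 * b + 6))) :=
                  mul_le_mul_of_nonneg_left h10 h11
              _ = _ := by ring
        _ ≤ _ := by
            have : 0 ≤ 30 * u * (n : ℝ) := by positivity
            linarith

/-- A Markov type inequality. -/
lemma markov {τ : Type} [DecidableEq τ] (P : Finset τ) (f : τ → ℝ) (c V : ℝ) (hc : 0 < c)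
    (hf : ∀ q ∈ P, 0 ≤ f q)
    (h : Real.exp (-V) * P.card ≤ ∑ q ∈ P, Real.exp (-(f q / c))) (Q : τ → Prop)
    [DecidablePred Q] (hQ : ∀ q ∈ P, f q ≤ c * (V + 1) → Q q) :
    Real.exp (-(V + 1 / 2)) * P.card ≤ ((P.filter Q).card : ℝ) := by
  have h1 : ∑ q ∈ P, Real.exp (-(f q / c)) ≤
      (P.filter Q).card + Real.exp (-(V + 1)) * P.card := by
    rw [← Finset.sum_filter_add_sum_filter_not P Q]
    apply add_le_add
    · calc ∑ q ∈ P.filter Q, Real.exp (-(f q / c)) ≤ ∑ q ∈ P.filter Q, (1 : ℝ) := by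
            refine Finset.sum_le_sum fun q hq => ?_
            rw [Real.exp_le_one_iff]
            have := hf q (Finset.mem_filter.mp hq).1
            have : 0 ≤ f q / c := div_nonneg this hc.le
            linarith
        _ = _ := by simp
    · calc ∑ q ∈ P.filter (fun q => ¬ Q q), Real.exp (-(f q / c))
          ≤ ∑ q ∈ P.filter (fun q => ¬ Q q), Real.exp (-(V + 1)) := by
            refine Finset.sum_le_sum fun q hq => ?_
            rw [Finset.mem_filter] at hq
            apply Real.exp_le_exp.mpr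
            apply neg_le_neg
            rw [le_div_iff₀ hc]
            by_contra hcon
            push Not at hcon
            exact hq.2 (hQ q hq.1 (by linarith))
        _ = (P.filter (fun q => ¬ Q q)).card * Real.exp (-(V + 1)) := by
            rw [Finset.sum_const, nsmul_eq_mul]
        _ ≤ _ := by
            rw [mul_comm]
            apply mul_le_mul_of_nonneg_left _ (Real.exp_pos _).le
            exact_mod_cast Finset.card_filter_le _ _
  have h2 : Real.exp (-(V + 1 / 2)) ≤ Real.exp (-V) - Real.exp (-(V + 1)) := by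
    have e1 : Real.exp (-(V + 1 / 2)) = Real.exp (-V) * Real.exp (-(1 / 2)) := by
      rw [← Real.exp_add]; congr 1; ring
    have e2 : Real.exp (-(V + 1)) = Real.exp (-V) * (Real.exp (-(1 / 2)) * Real.exp (-(1 / 2))) := by
      rw [← Real.exp_add, ← Real.exp_add]; congr 1; ring
    rw [e1, e2]
    set x := Real.exp (-(1 / 2 : ℝ)) with hx
    have hx0 : 0 < x := Real.exp_pos _
    have hx1 : x ≤ 61 / 100 := by
      have h3 : x * x = Real.exp (-1) := by
        rw [hx, ← Real.exp_add]; norm_num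
      have h4 : Real.exp (-1) < 0.3678794412 := Real.exp_neg_one_lt_d9
      nlinarith
    have : x ≤ 1 - x * x := by nlinarith
    nlinarith [Real.exp_pos (-V)]
  have h3 : (0 : ℝ) ≤ P.card := Nat.cast_nonneg _
  nlinarith [mul_le_mul_of_nonneg_right h2 h3]

end ItemE7

open Classical in
theorem claimE7 (hE6 : ClaimE6) : ClaimE7 := by
  intro ι _ K _ Ω V M m u b hb hu hu1 hm hmM hVM hyp U hUV hU Ω' hΩ' hΩ'ne k hk hkmax
  have hkb : 6 * (k : ℝ) * b ≤ m := by
    rw [le_div_iff₀ (by positivity)] at hkmax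
    linarith
  have hn : 1 ≤ U.card := Finset.card_pos.mpr hU
  have hnM : U.card ≤ M := (Finset.card_le_card hUV).trans hVM
  obtain ⟨t, ht1, htn, htm, hb1, hb2⟩ := ItemE7.choice U.card M m k u b hb hu hu1 hm hmM hnM hn hk
  set Vv : ℝ := 5 * k * b + 5 / 2 * u * t + 7 / 4 with hVv
  have hcard : ((pairs Ω' k).card : ℝ) = (Ω'.card : ℝ) ^ (2 * k) := by
    unfold pairs
    rw [Finset.card_product, Fintype.card_piFinset]
    simp only [Finset.prod_const, Finset.card_univ, Fintype.card_fin]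
    push_cast
    rw [← pow_add]
    congr 1
    omega
  have h6 := hE6 ι ((Fin k → ∀ i, K i) × (Fin k → ∀ i, K i)) (pairs Ω' k)
    (fun q => U.filter fun i => (∏ j, q.1 j) i ≠ (∏ j, q.2 j) i) U t
    (Real.exp (-Vv) * (Ω'.card : ℝ) ^ (2 * k)) ht1 htn
    (fun q _ => Finset.filter_subset _ _) (by
      intro T hTU hTc
      have hTne : T.Nonempty := by
        rw [← Finset.card_pos, hTc]
        exact ht1
      have := hyp Ω' hΩ' hΩ'ne k hk hkb T (hTU.trans hUV) hTne (by rw [hTc]; exact htm)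
      rw [hTc] at this
      refine this.trans (le_of_eq ?_)
      refine Finset.sum_congr rfl fun q _ => ?_
      congr 1
      unfold dif
      congr 1
      ext i
      simp only [Finset.mem_filter, Finset.mem_inter]
      constructor
      · rintro ⟨h1, h2⟩
        exact ⟨⟨hTU h1, h2⟩, h1⟩
      · rintro ⟨⟨_, h2⟩, h1⟩
        exact ⟨h1, h2⟩)
  have hnbpos : (0 : ℝ) < 2 * (((U.card + t - 1) / t : ℕ) : ℝ) := by
    have : 1 ≤ (U.card + t - 1) / t := by
      rw [Nat.one_le_div_iff (by omega)]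
      omega
    have : (1 : ℝ) ≤ (((U.card + t - 1) / t : ℕ) : ℝ) := by exact_mod_cast this
    linarith
  have h7 := ItemE7.markov (pairs Ω' k)
    (fun q => ((U.filter fun i => (∏ j, q.1 j) i ≠ (∏ j, q.2 j) i).card : ℝ))
    (2 * (((U.card + t - 1) / t : ℕ) : ℝ)) Vv hnbpos (fun q _ => Nat.cast_nonneg _)
    (by rw [hcard]; exact h6)
    (fun q => (dif U (∏ j, q.1 j) (∏ j, q.2 j) : ℝ) ≤
      30 * u * U.card + k * (12 * ((M : ℝ) / m) * (8 * b + 6)))
    (fun q _ hq => by
      refine le_trans ?_ (hq.trans hb2)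
      unfold dif
      exact le_rfl)
  refine le_trans ?_ h7
  rw [hcard]
  apply mul_le_mul_of_nonneg_right _ (by positivity)
  apply Real.exp_le_exp.mpr
  linarith

end Pool.Agent.Work.MP_e0aece_nt.Eps

end

section

namespace Pool.Agent.Work.MP_e0aece_nt.Eps

open Finset Sq

namespace ItemE9

open Classical in
theorem dif_update {ι : Type} {K : ι → Type} (U : Finset ι) (x c : ∀ i, K i) {n : ℕ}
    (h : dif U x c ≤ n + 1) :
    dif U x c ≤ n ∨ ∃ i ∈ U, dif U x (Function.update c i (x i)) ≤ n := by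
  by_cases h0 : dif U x c ≤ n
  · exact Or.inl h0
  · right
    have hne : (U.filter fun i => x i ≠ c i).Nonempty := by
      rw [← Finset.card_pos]
      change 0 < dif U x c
      omega
    obtain ⟨i, hi⟩ := hne
    have hi' := Finset.mem_filter.1 hi
    refine ⟨i, hi'.1, ?_⟩
    have hsub : (U.filter fun j => x j ≠ Function.update c i (x i) j) ⊆
        (U.filter fun j => x j ≠ c j).erase i := by
      intro j hj
      have hj' := Finset.mem_filter.1 hj
      have hji : j ≠ i := by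
        rintro rfl
        apply hj'.2
        rw [Function.update_self]
      rw [Function.update_of_ne hji] at hj'
      exact Finset.mem_erase.2 ⟨hji, Finset.mem_filter.2 hj'⟩
    have h1 := Finset.card_le_card hsub
    rw [Finset.card_erase_of_mem hi] at h1
    have h2 : (U.filter fun i => x i ≠ c i).card ≤ n + 1 := h
    change (U.filter fun j => x j ≠ Function.update c i (x i) j).card ≤ n
    omega

end ItemE9

open Classical in
open ItemE9 in
theorem claimE9 : ClaimE9 := by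
  intro ι K _ Ω U c Z n N hZ hK hN
  induction n generalizing c with
  | zero =>
    rw [pow_zero, one_mul]
    have : (Ω.filter fun x => dif U x c ≤ 0) = Ω.filter fun x => dif U x c = 0 := by
      apply Finset.filter_congr
      intro x _
      exact Nat.le_zero
    rw [this]
    exact hN c
  | succ n ih =>
    have hsub : (Ω.filter fun x => dif U x c ≤ n + 1) ⊆
        (Ω.filter fun x => dif U x c ≤ n) ∪ U.biUnion fun i =>
          (Finset.univ : Finset (K i)).biUnion fun v =>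
            Ω.filter fun x => dif U x (Function.update c i v) ≤ n := by
      intro x hx
      have hx' := Finset.mem_filter.1 hx
      rcases dif_update U x c hx'.2 with h | ⟨i, hi, h⟩
      · exact Finset.mem_union_left _ (Finset.mem_filter.2 ⟨hx'.1, h⟩)
      · apply Finset.mem_union_right
        refine Finset.mem_biUnion.2 ⟨i, hi, Finset.mem_biUnion.2 ⟨x i, Finset.mem_univ _, ?_⟩⟩
        exact Finset.mem_filter.2 ⟨hx'.1, h⟩
    refine (Finset.card_le_card hsub).trans ((Finset.card_union_le _ _).trans ?_)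
    have h1 := ih c
    have h2 : (U.biUnion fun i => (Finset.univ : Finset (K i)).biUnion fun v =>
        Ω.filter fun x => dif U x (Function.update c i v) ≤ n).card ≤
        U.card * (Z * (((U.card + 1) * Z) ^ n * N)) := by
      refine Finset.card_biUnion_le_card_mul _ _ _ fun i _ => ?_
      refine (Finset.card_biUnion_le_card_mul _ _ _ fun v _ => ih (Function.update c i v)).trans ?_
      exact Nat.mul_le_mul_right _ (by rw [Finset.card_univ]; exact hK i)
    calc _ ≤ ((U.card + 1) * Z) ^ n * N + U.card * (Z * (((U.card + 1) * Z) ^ n * N)) :=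
          Nat.add_le_add h1 h2
      _ ≤ Z * (((U.card + 1) * Z) ^ n * N) + U.card * (Z * (((U.card + 1) * Z) ^ n * N)) :=
          Nat.add_le_add_right (Nat.le_mul_of_pos_left _ hZ) _
      _ = ((U.card + 1) * Z) ^ (n + 1) * N := by ring

end Pool.Agent.Work.MP_e0aece_nt.Eps

end

section

namespace Pool.Agent.Work.MP_e0aece_nt.Eps

open Finset Sq

theorem claimEn (hE1 : ClaimE1) : ClaimEn := by
  intro ι _ _ H _ _ g lam m y u C B I w a hPR hSt hB hm hM hu hu1 hy
  have h1 := hE1 ι H g lam m (y * Real.log 2) u C B I w a hPR hSt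
  obtain ⟨_, _, ha, _, _, _, hbig⟩ := hSt
  have hl2 : (0.69 : ℝ) < Real.log 2 := by
    have := Real.log_two_gt_d9
    linarith
  have hl2' : Real.log 2 < 0.7 := by
    have := Real.log_two_lt_d9
    linarith
  have hBr : 2 * (B.card : ℝ) ≤ m := by exact_mod_cast hB
  have hMr : 20 * (m : ℝ) ≤ Fintype.card ι := by exact_mod_cast hM
  have hmr : (100 : ℝ) ≤ m := by exact_mod_cast hm
  have hum : u * m ≤ 1 / 1000 * m := by
    apply mul_le_mul_of_nonneg_right hu1
    positivity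
  have huB : 0 ≤ u * B.card := by positivity
  have hexp : Real.exp (-3 * (y * Real.log 2) - 2) ≤
      Real.exp (-2 * a - y * Real.log 2 + u * B.card) := by
    apply Real.exp_le_exp.2
    linarith
  have h2 : (2 : ℝ) ^ Fintype.card ι * Real.exp (-3 * (y * Real.log 2) - 2) ≤
      (∑ A, w A) * 2 ^ B.card :=
    (mul_le_mul_of_nonneg_left hexp (by positivity)).trans hbig
  have h3 : (2 : ℝ) ^ ((9 / 10 : ℝ) * Fintype.card ι) * 2 ^ B.card ≤
      (2 : ℝ) ^ Fintype.card ι * Real.exp (-3 * (y * Real.log 2) - 2) := by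
    rw [Real.rpow_def_of_pos two_pos, ← Real.rpow_natCast 2 B.card,
      ← Real.rpow_natCast 2 (Fintype.card ι), Real.rpow_def_of_pos two_pos,
      Real.rpow_def_of_pos two_pos, ← Real.exp_add, ← Real.exp_add]
    apply Real.exp_le_exp.2
    have hpos : 0 ≤ (1 / 10 : ℝ) * Fintype.card ι - B.card - 3 * y - 4 := by linarith
    nlinarith
  have h4 : (2 : ℝ) ^ ((9 / 10 : ℝ) * Fintype.card ι) * 2 ^ B.card ≤
      (∑ A, w A) * 2 ^ B.card := h3.trans h2
  exact le_of_mul_le_mul_right h4 (by positivity)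

end Pool.Agent.Work.MP_e0aece_nt.Eps

end

section

/-!
# The abstract theorem: short zero sums in every dense set
-/

namespace Pool.Agent.Work.MP_e0aece_nt.Eps

open Finset Sq

namespace ItemEps

open Sq.ItemAF

section

variable {ι : Type} [Fintype ι] [DecidableEq ι] {H : ι → Type} [∀ i, AddCommGroup (H i)]
  [∀ i, Fintype (H i)]

theorem fam_pow (B : Finset ι) (φ : AddChar (∀ i : {i // i ∉ B}, H i.1) ℂ) (k : ℕ) (i : ι) :
    fam B (φ ^ k) i = fam B φ i ^ k := by
  ext x
  by_cases h : i ∈ B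
  · rw [fam_mem _ h, fam_mem _ h, one_pow]
  · rw [fam_not_mem _ h, AddChar.pow_apply, AddChar.pow_apply, fam_not_mem _ h]

theorem eq_prod_fam (B : Finset ι) (χ : AddChar (∀ i : {i // i ∉ B}, H i.1) ℂ)
    (x : ∀ i : {i // i ∉ B}, H i.1) : χ x = ∏ i : {i // i ∉ B}, fam B χ i.1 (x i) := by
  have h3 : x = ∑ i : {i // i ∉ B}, Pi.single i (x i) := (Finset.univ_sum_single x).symm
  conv_lhs => rw [h3, map_sum']
  exact prod_congr rfl fun i _ => (fam_not_mem χ i.2 _).symm

theorem fam_injective (B : Finset ι) : Function.Injective (fam (H := H) B) := by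
  intro χ χ' h
  ext x
  rw [eq_prod_fam, eq_prod_fam, h]

theorem tors_le [∀ i, DecidableEq (H i)] (lam : ℕ) (hlam : 1 ≤ lam) (B : Finset ι)
    (h : ∀ i, (univ.filter fun x : H i => lam • x = 0).card ≤ lam) :
    (univ.filter fun y : (∀ i : {i // i ∉ B}, H i.1) => lam • y = 0).card ≤
      lam ^ Fintype.card ι := by
  have h1 : (univ.filter fun y : (∀ i : {i // i ∉ B}, H i.1) => lam • y = 0) =
      Fintype.piFinset (fun i : {i // i ∉ B} => univ.filter fun x : H i.1 => lam • x = 0) := by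
    ext y
    simp only [mem_filter, mem_univ, true_and, Fintype.mem_piFinset]
    constructor
    · intro hy i
      have := congrFun hy i
      simpa using this
    · intro hy
      funext i
      simpa using hy i
  rw [h1, Fintype.card_piFinset]
  calc ∏ i : {i // i ∉ B}, (univ.filter fun x : H i.1 => lam • x = 0).card
      ≤ ∏ _i : {i // i ∉ B}, lam := prod_le_prod' fun i _ => h i.1
    _ = lam ^ Fintype.card {i // i ∉ B} := by rw [prod_const, card_univ]
    _ ≤ lam ^ Fintype.card ι := Nat.pow_le_pow_right hlam (Fintype.card_subtype_le _)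

end

end ItemEps

open ItemEps Sq.ItemAF in
theorem claimEps (hE1 : ClaimE1) (hE3 : ClaimE3) (hE14 : ClaimE14) (hEn : ClaimEn)
    (hF1 : ClaimF1) (hF5 : ClaimF5) : ClaimEps := by
  have _ := hE1
  intro ι _ _ H _ _ _ g lam m y Z Jr s l smax u C hlam hZ hHZ htors hPR hm hmM hu hu2 hyu hJr hC
    hs1 hs2 hl hsmax hsmax2
  have hlog2 : 0 < Real.log 2 := Real.log_pos (by norm_num)
  have hlog2' : Real.log 2 < 1 := by
    have := Real.log_two_lt_d9
    linarith
  have hy0 : (0 : ℝ) ≤ y := Nat.cast_nonneg _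
  have hM : 0 < Fintype.card ι := by omega
  have hMR : (0 : ℝ) < Fintype.card ι := by exact_mod_cast hM
  obtain ⟨B, I, w, a, hMx, hBm⟩ := hE3 ι H g lam m (y * Real.log 2) u C hPR (by positivity) hu
    (by nlinarith)
    (by
      have h1 : Real.exp (-(y * Real.log 2)) = ((2 : ℝ) ^ y)⁻¹ := by
        rw [Real.exp_neg, Real.exp_nat_mul, Real.exp_log (by norm_num)]
      have h2 : (2 : ℝ) ^ Fintype.card ι ≤ C.card * 2 ^ y := by exact_mod_cast hC
      rw [h1, ← div_eq_mul_inv, div_le_iff₀ (by positivity)]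
      exact h2)
  obtain ⟨hIB, hBcard, ha0, ha3, ⟨F, hExp, hF1', hwF⟩, hsupp, hineq⟩ := hMx.1
  have hN := hEn ι H g lam m y u C B I w a hPR hMx.1 hBm hm hmM hu hu2 hyu
  have hpos : 0 < ∑ A, w A := lt_of_lt_of_le (by positivity) hN
  have hspec : ∀ P : Finset (AddChar (∀ i : {i // i ∉ B}, H i.1) ℂ),
      (∀ χ ∈ P, χ ≠ 1 ∧ ∃ φ : AddChar (∀ i : {i // i ∉ B}, H i.1) ℂ, χ = φ ^ lam) →
      ∑ χ ∈ P, ‖∑ A, (w A : ℂ) * χ (rg g B A)‖ ^ s ≤ 1 / 2 * (∑ A, w A) ^ s := by
    intro P hP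
    have h := hE14 ι H g lam m y Z Jr s u C B I w a (P.map ⟨fam B, fam_injective B⟩) hZ hHZ hPR hm
      hmM hu hu2 hyu hJr hMx hBm hs1 hs2 (by
        intro σ hσ
        obtain ⟨χ, hχ, rfl⟩ := mem_map.1 hσ
        obtain ⟨h1, φ, h2⟩ := hP χ hχ
        refine ⟨⟨fam B φ, fun i => ?_⟩, fun i hi => fam_mem χ hi, ?_⟩
        · show fam B χ i = _
          rw [h2, fam_pow]
        · intro h
          apply h1
          apply fam_injective B
          rw [fam_one]
          exact h)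
    rw [sum_map] at h
    simp only [hat, Function.Embedding.coeFn_mk, ev_fam] at h
    exact h
  obtain ⟨T, hT1, hT2, hT3, hT4⟩ := hF5 (∀ i : {i // i ∉ B}, H i.1) (Finset ι) (rg g B) w lam s l
    smax ((2 : ℝ) ^ ((2 / 5 : ℝ) * Fintype.card ι)) ((2 : ℝ) ^ ((9 / 10 : ℝ) * Fintype.card ι))
    hlam (fun A => (hwF A).1) hpos
    (Real.one_lt_rpow (by norm_num) (by positivity))
    (by
      intro A
      have h1 : w A ≤ 1 := (hwF A).2.trans (hF1' A)
      calc w A * (2 : ℝ) ^ ((9 / 10 : ℝ) * Fintype.card ι)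
          ≤ 1 * (2 : ℝ) ^ ((9 / 10 : ℝ) * Fintype.card ι) := by gcongr
        _ ≤ _ := by rw [one_mul]; exact hN)
    (fun t ht x => hF1 (∀ i : {i // i ∉ B}, H i.1) (Finset ι) (rg g B) w lam s t x
      (fun A => (hwF A).1) hspec ht)
    (by
      have h1 : (((univ.filter fun y : (∀ i : {i // i ∉ B}, H i.1) => lam • y = 0).card : ℕ) : ℝ) ≤
          (lam : ℝ) ^ Fintype.card ι := by
        exact_mod_cast tors_le lam hlam B htors
      have h2 : (2 : ℝ) ^ ((2 / 5 : ℝ) * Fintype.card ι * (l + 1)) =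
          ((2 : ℝ) ^ ((2 / 5 : ℝ) * Fintype.card ι)) ^ (l + 1) := by
        rw [← Real.rpow_mul_natCast (by norm_num)]
        push_cast
        rfl
      rw [← h2]
      refine lt_of_le_of_lt ?_ hl
      gcongr)
    hsmax
    (by
      have h1 : ((2 : ℝ) ^ ((2 / 5 : ℝ) * Fintype.card ι)) ^ 2 =
          (2 : ℝ) ^ ((4 / 5 : ℝ) * Fintype.card ι) := by
        rw [← Real.rpow_mul_natCast (by norm_num)]
        congr 1
        push_cast
        ring
      rw [h1]
      calc 8 * (smax : ℝ) ^ 2 * (2 : ℝ) ^ ((4 / 5 : ℝ) * Fintype.card ι)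
          ≤ (2 : ℝ) ^ ((1 / 20 : ℝ) * Fintype.card ι) *
            (2 : ℝ) ^ ((4 / 5 : ℝ) * Fintype.card ι) := by gcongr
        _ = (2 : ℝ) ^ ((1 / 20 : ℝ) * Fintype.card ι + (4 / 5 : ℝ) * Fintype.card ι) := by
            rw [Real.rpow_add (by norm_num)]
        _ ≤ (2 : ℝ) ^ ((9 / 10 : ℝ) * Fintype.card ι) := by
            apply Real.rpow_le_rpow_of_exponent_le (by norm_num)
            nlinarith)
  refine ⟨B, I, T, hIB, hBcard, fun A hA => (hsupp A (hT3 A hA)).1, hT1, hT2,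
    fun A hA => (hsupp A (hT3 A hA)).2, fun i hi => ?_⟩
  have h3 := congrFun hT4 ⟨i, hi⟩
  rw [Finset.sum_apply] at h3
  exact h3

end Pool.Agent.Work.MP_e0aece_nt.Eps

end

section

/-!
# Item F1: equidistribution of the sums modulo the `lam`-torsion
-/

namespace Pool.Agent.Work.MP_e0aece_nt.Eps

open Finset Sq

namespace ItemF1

variable {G Ω : Type} [AddCommGroup G] [Fintype G] [DecidableEq G] [Fintype Ω]

/-- The Fourier coefficient. -/
noncomputable def ft (gg : Ω → G) (w : Ω → ℝ) (ψ : AddChar G ℂ) : ℂ :=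
  ∑ a, (w a : ℂ) * ψ (gg a)

omit [DecidableEq G] in
theorem norm_ft_le (gg : Ω → G) (w : Ω → ℝ) (hw : ∀ a, 0 ≤ w a) (ψ : AddChar G ℂ) :
    ‖ft gg w ψ‖ ≤ ∑ a, w a := by
  unfold ft
  refine (norm_sum_le _ _).trans (Finset.sum_le_sum fun a _ => ?_)
  rw [norm_mul, AddChar.norm_apply, mul_one, Complex.norm_real, Real.norm_eq_abs,
    abs_of_nonneg (hw a)]

omit [Fintype G] [DecidableEq G] in
theorem map_sum_eq (ψ : AddChar G ℂ) {ι : Type} (s : Finset ι) (f : ι → G) :
    ψ (∑ i ∈ s, f i) = ∏ i ∈ s, ψ (f i) := by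
  classical
  induction s using Finset.induction_on with
  | empty => rw [Finset.sum_empty, Finset.prod_empty, AddChar.map_zero_eq_one]
  | insert a s ha ih => rw [Finset.sum_insert ha, Finset.prod_insert ha, AddChar.map_add_eq_mul, ih]

theorem main_identity (gg : Ω → G) (w : Ω → ℝ) (lam t : ℕ) (x : G) :
    ((Fintype.card G : ℝ) * ∑ y ∈ univ.filter (fun y => lam • y = lam • x), rr gg w t y : ℂ) =
      ∑ χ : AddChar G ℂ, (χ ^ lam) (-x) * (ft gg w (χ ^ lam)) ^ t := by
  classical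
  have h1 : ∀ p : Fin t → Ω,
      (Fintype.card G : ℂ) * (if lam • (∑ k, gg (p k)) = lam • x then 1 else 0) =
        ∑ χ : AddChar G ℂ, (χ ^ lam) (-x) * ∏ k, (χ ^ lam) (gg (p k)) := by
    intro p
    have h2 := AddChar.sum_apply_eq_ite (lam • (∑ k, gg (p k) - x))
    have h3 : (lam • (∑ k, gg (p k) - x) = 0) ↔ (lam • (∑ k, gg (p k)) = lam • x) := by
      rw [smul_sub, sub_eq_zero]
    have h4 : ∀ χ : AddChar G ℂ, χ (lam • (∑ k, gg (p k) - x)) =
        (χ ^ lam) (-x) * ∏ k, (χ ^ lam) (gg (p k)) := by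
      intro χ
      rw [AddChar.map_nsmul_eq_pow, ← AddChar.pow_apply, sub_eq_neg_add, AddChar.map_add_eq_mul,
        map_sum_eq]
    rw [← Finset.sum_congr rfl fun χ _ => h4 χ, h2]
    by_cases h5 : lam • (∑ k, gg (p k)) = lam • x
    · rw [if_pos h5, if_pos (h3.2 h5), mul_one]
    · rw [if_neg h5, if_neg (fun h => h5 (h3.1 h)), mul_zero]
  have h2 : (∑ y ∈ univ.filter (fun y => lam • y = lam • x), rr gg w t y : ℝ) =
      ∑ p : Fin t → Ω, if lam • (∑ k, gg (p k)) = lam • x then ∏ k, w (p k) else 0 := by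
    unfold rr
    rw [Finset.sum_comm]
    refine Finset.sum_congr rfl fun p _ => ?_
    rw [Finset.sum_ite_eq]
    simp only [Finset.mem_filter, Finset.mem_univ, true_and]
  have h3 : (((∑ y ∈ univ.filter (fun y => lam • y = lam • x), rr gg w t y : ℝ)) : ℂ) =
      ∑ p : Fin t → Ω, (if lam • (∑ k, gg (p k)) = lam • x then (1 : ℂ) else 0) *
        ∏ k, (w (p k) : ℂ) := by
    rw [h2, Complex.ofReal_sum]
    refine Finset.sum_congr rfl fun p _ => ?_
    split_ifs
    · rw [one_mul, Complex.ofReal_prod]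
    · rw [zero_mul, Complex.ofReal_zero]
  rw [h3, Complex.ofReal_natCast, Finset.mul_sum]
  have h5 : ∀ p : Fin t → Ω, (Fintype.card G : ℂ) *
      ((if lam • (∑ k, gg (p k)) = lam • x then (1 : ℂ) else 0) * ∏ k, (w (p k) : ℂ)) =
      ∑ χ : AddChar G ℂ, (χ ^ lam) (-x) * ∏ k, ((w (p k) : ℂ) * (χ ^ lam) (gg (p k))) := by
    intro p
    rw [← mul_assoc, h1 p, Finset.sum_mul]
    refine Finset.sum_congr rfl fun χ _ => ?_
    rw [Finset.prod_mul_distrib]
    ring
  rw [Finset.sum_congr rfl fun p _ => h5 p, Finset.sum_comm]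
  refine Finset.sum_congr rfl fun χ _ => ?_
  rw [← Finset.mul_sum]
  congr 1
  unfold ft
  rw [Fintype.sum_pow]

/-- The number of characters with trivial `lam`-th power. -/
theorem card_ker (lam : ℕ) :
    (univ.filter fun χ : AddChar G ℂ => χ ^ lam = 1).card =
      (univ.filter fun y : G => lam • y = 0).card := by
  classical
  have h1 : ∑ χ : AddChar G ℂ, ∑ z : G, (χ ^ lam) z =
      ((univ.filter fun χ : AddChar G ℂ => χ ^ lam = 1).card : ℂ) * Fintype.card G := by
    have h2 : ∀ χ : AddChar G ℂ, ∑ z : G, (χ ^ lam) z =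
        if χ ^ lam = 1 then (Fintype.card G : ℂ) else 0 := by
      intro χ
      rw [AddChar.sum_eq_ite]
      rfl
    rw [Finset.sum_congr rfl fun χ _ => h2 χ, ← Finset.sum_filter, Finset.sum_const,
      nsmul_eq_mul]
  have h3 : ∑ χ : AddChar G ℂ, ∑ z : G, (χ ^ lam) z =
      ((univ.filter fun y : G => lam • y = 0).card : ℂ) * Fintype.card G := by
    rw [Finset.sum_comm]
    have h4 : ∀ z : G, ∑ χ : AddChar G ℂ, (χ ^ lam) z =
        if lam • z = 0 then (Fintype.card G : ℂ) else 0 := by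
      intro z
      rw [← AddChar.sum_apply_eq_ite]
      refine Finset.sum_congr rfl fun χ _ => ?_
      rw [AddChar.map_nsmul_eq_pow, AddChar.pow_apply]
    rw [Finset.sum_congr rfl fun z _ => h4 z, ← Finset.sum_filter, Finset.sum_const,
      nsmul_eq_mul]
  have h5 : (Fintype.card G : ℂ) ≠ 0 := by
    exact_mod_cast Fintype.card_ne_zero
  have h6 := mul_right_cancel₀ h5 (h1.symm.trans h3)
  exact_mod_cast h6

theorem card_fibre (lam : ℕ) (φ : AddChar G ℂ) :
    (univ.filter fun χ : AddChar G ℂ => χ ^ lam = φ ^ lam).card =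
      (univ.filter fun y : G => lam • y = 0).card := by
  classical
  rw [← card_ker lam]
  refine Finset.card_bij' (fun χ _ => χ * φ⁻¹) (fun χ _ => χ * φ) ?_ ?_ ?_ ?_
  · intro χ hχ
    have h := (Finset.mem_filter.1 hχ).2
    refine Finset.mem_filter.2 ⟨Finset.mem_univ _, ?_⟩
    rw [mul_pow, h, ← mul_pow, mul_inv_cancel, one_pow]
  · intro χ hχ
    have h := (Finset.mem_filter.1 hχ).2
    refine Finset.mem_filter.2 ⟨Finset.mem_univ _, ?_⟩
    rw [mul_pow, h, one_mul]
  · intro χ _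
    exact inv_mul_cancel_right χ φ
  · intro χ _
    exact mul_inv_cancel_right χ φ

end ItemF1

open ItemF1 in
theorem claimF1 : ClaimF1 := by
  classical
  intro G Ω _ _ _ _ gg w lam s t x hw hP hst
  set W : ℝ := ∑ a, w a with hW
  have hW0 : 0 ≤ W := Finset.sum_nonneg fun a _ => hw a
  set n₀ : ℕ := (univ.filter fun y : G => lam • y = 0).card with hn₀
  have hr0 : ∀ y, 0 ≤ rr gg w t y := by
    intro y
    refine Finset.sum_nonneg fun p _ => ?_
    split_ifs
    · exact Finset.prod_nonneg fun k _ => hw _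
    · exact le_rfl
  have hS0 : 0 ≤ (Fintype.card G : ℝ) *
      ∑ y ∈ univ.filter (fun y => lam • y = lam • x), rr gg w t y :=
    mul_nonneg (by positivity) (Finset.sum_nonneg fun y _ => hr0 y)
  have h1 : (Fintype.card G : ℝ) * ∑ y ∈ univ.filter (fun y => lam • y = lam • x), rr gg w t y ≤
      ∑ χ : AddChar G ℂ, ‖ft gg w (χ ^ lam)‖ ^ t := by
    have h2 := congrArg norm (main_identity gg w lam t x)
    have h3 : ‖((Fintype.card G : ℝ) *
        ∑ y ∈ univ.filter (fun y => lam • y = lam • x), rr gg w t y : ℂ)‖ =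
        (Fintype.card G : ℝ) * ∑ y ∈ univ.filter (fun y => lam • y = lam • x), rr gg w t y := by
      have h4 : ((Fintype.card G : ℝ) *
          ∑ y ∈ univ.filter (fun y => lam • y = lam • x), rr gg w t y : ℂ) =
          (((Fintype.card G : ℝ) *
            ∑ y ∈ univ.filter (fun y => lam • y = lam • x), rr gg w t y : ℝ) : ℂ) := by
        push_cast
        rfl
      rw [h4, Complex.norm_real, Real.norm_eq_abs, abs_of_nonneg hS0]
    rw [h3] at h2
    rw [h2]
    refine (norm_sum_le _ _).trans (Finset.sum_le_sum fun χ _ => ?_)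
    rw [norm_mul, AddChar.norm_apply, one_mul, norm_pow]
  refine h1.trans ?_
  -- fibres
  set Im : Finset (AddChar G ℂ) := univ.image fun χ : AddChar G ℂ => χ ^ lam with hIm
  have h2 : ∑ χ : AddChar G ℂ, ‖ft gg w (χ ^ lam)‖ ^ t = n₀ * ∑ ψ ∈ Im, ‖ft gg w ψ‖ ^ t := by
    rw [Finset.sum_comp (fun ψ => ‖ft gg w ψ‖ ^ t) (fun χ : AddChar G ℂ => χ ^ lam),
      Finset.mul_sum]
    refine Finset.sum_congr rfl fun ψ hψ => ?_
    obtain ⟨φ, _, rfl⟩ := Finset.mem_image.1 hψ
    rw [card_fibre lam φ, nsmul_eq_mul]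
  rw [h2]
  have h1Im : (1 : AddChar G ℂ) ∈ Im := Finset.mem_image.2 ⟨1, Finset.mem_univ _, one_pow _⟩
  rw [← Finset.add_sum_erase _ _ h1Im]
  have h3 : ‖ft gg w 1‖ ^ t ≤ W ^ t :=
    pow_le_pow_left₀ (norm_nonneg _) (norm_ft_le gg w hw 1) t
  have h4 : ∑ ψ ∈ Im.erase 1, ‖ft gg w ψ‖ ^ t ≤ 1 / 2 * W ^ t := by
    have h5 := hP (Im.erase 1) (by
      intro χ hχ
      obtain ⟨h6, h7⟩ := Finset.mem_erase.1 hχ
      obtain ⟨φ, _, rfl⟩ := Finset.mem_image.1 h7
      exact ⟨h6, φ, rfl⟩)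
    have h6 : ∀ ψ : AddChar G ℂ, ‖ft gg w ψ‖ ^ t ≤ ‖ft gg w ψ‖ ^ s * W ^ (t - s) := by
      intro ψ
      have h7 : t = s + (t - s) := by omega
      calc ‖ft gg w ψ‖ ^ t = ‖ft gg w ψ‖ ^ s * ‖ft gg w ψ‖ ^ (t - s) := by
            rw [← pow_add, ← h7]
        _ ≤ ‖ft gg w ψ‖ ^ s * W ^ (t - s) :=
            mul_le_mul_of_nonneg_left
              (pow_le_pow_left₀ (norm_nonneg _) (norm_ft_le gg w hw ψ) _) (by positivity)
    calc ∑ ψ ∈ Im.erase 1, ‖ft gg w ψ‖ ^ t
        ≤ ∑ ψ ∈ Im.erase 1, ‖ft gg w ψ‖ ^ s * W ^ (t - s) :=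
          Finset.sum_le_sum fun ψ _ => h6 ψ
      _ = (∑ ψ ∈ Im.erase 1, ‖ft gg w ψ‖ ^ s) * W ^ (t - s) := by rw [Finset.sum_mul]
      _ ≤ (1 / 2 * W ^ s) * W ^ (t - s) := mul_le_mul_of_nonneg_right h5 (by positivity)
      _ = 1 / 2 * W ^ t := by
          rw [mul_assoc, ← pow_add, Nat.add_sub_cancel' hst]
  calc (n₀ : ℝ) * (‖ft gg w 1‖ ^ t + ∑ ψ ∈ Im.erase 1, ‖ft gg w ψ‖ ^ t)
      ≤ n₀ * (W ^ t + 1 / 2 * W ^ t) :=
        mul_le_mul_of_nonneg_left (add_le_add h3 h4) (by positivity)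
    _ = 3 / 2 * W ^ t * n₀ := by ring

end Pool.Agent.Work.MP_e0aece_nt.Eps

end

section

/-!
# F2: a dense set in a finite abelian group has a short zero sum
-/

namespace Pool.Agent.Work.MP_e0aece_nt.Eps

open Finset

namespace ItemF2

open scoped Pointwise

/-- A doubling step with small growth. -/
lemma exists_step {M : Type} [CommGroup M] [Fintype M] [DecidableEq M] (A : Finset M)
    (hA : (1 : M) ∈ A) :
    ∃ j : ℕ, ((A ^ (2 ^ j) * A ^ (2 ^ j)).card : ℚ) < (3 / 2 : ℚ) * (A ^ (2 ^ j)).card ∧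
      (3 / 2 : ℚ) ^ j * A.card ≤ (A ^ (2 ^ j)).card := by
  have hex : ∃ j : ℕ, ((A ^ (2 ^ j) * A ^ (2 ^ j)).card : ℚ) <
      (3 / 2 : ℚ) * (A ^ (2 ^ j)).card := by
    by_contra hcon
    push Not at hcon
    have hgrow : ∀ j : ℕ, (3 / 2 : ℚ) ^ j * A.card ≤ (A ^ (2 ^ j)).card := by
      intro j
      induction j with
      | zero => simp
      | succ j ih =>
        have h1 := hcon j
        rw [← pow_add, ← two_mul, ← pow_succ'] at h1
        calc (3 / 2 : ℚ) ^ (j + 1) * A.card = (3 / 2) * ((3 / 2 : ℚ) ^ j * A.card) := by ring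
          _ ≤ (3 / 2) * (A ^ (2 ^ j)).card := by gcongr
          _ ≤ _ := h1
    obtain ⟨j, hj⟩ := pow_unbounded_of_one_lt (Fintype.card M : ℚ) (by norm_num : (1 : ℚ) < 3 / 2)
    have h2 := hgrow j
    have h3 : ((A ^ (2 ^ j)).card : ℚ) ≤ Fintype.card M := by
      exact_mod_cast Finset.card_le_univ _
    have h4 : (1 : ℚ) ≤ A.card := by
      exact_mod_cast Finset.card_pos.mpr ⟨1, hA⟩
    have h5 : (3 / 2 : ℚ) ^ j ≤ (3 / 2 : ℚ) ^ j * A.card := by
      have : (0 : ℚ) ≤ (3 / 2 : ℚ) ^ j := by positivity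
      nlinarith
    linarith
  classical
  refine ⟨Nat.find hex, Nat.find_spec hex, ?_⟩
  have hmin : ∀ i < Nat.find hex, (3 / 2 : ℚ) * (A ^ (2 ^ i)).card ≤
      ((A ^ (2 ^ i) * A ^ (2 ^ i)).card : ℚ) := by
    intro i hi
    have := Nat.find_min hex hi
    push Not at this
    exact this
  have hgrow : ∀ j ≤ Nat.find hex, (3 / 2 : ℚ) ^ j * A.card ≤ (A ^ (2 ^ j)).card := by
    intro j
    induction j with
    | zero => intro _; simp
    | succ j ih =>
      intro hj
      have h1 := hmin j (by omega)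
      rw [← pow_add, ← two_mul, ← pow_succ'] at h1
      calc (3 / 2 : ℚ) ^ (j + 1) * A.card = (3 / 2) * ((3 / 2 : ℚ) ^ j * A.card) := by ring
        _ ≤ (3 / 2) * (A ^ (2 ^ j)).card := by
          have := ih (by omega)
          gcongr
        _ ≤ _ := h1
  exact hgrow _ le_rfl

/-- The numerical conclusion. -/
lemma num (j d x m a : ℕ) (h1 : (3 / 2 : ℚ) ^ j * x ≤ a) (h1' : a ≤ m) (h3 : d * x ≤ m) :
    2 ^ (j + 1) * d * x ^ 3 ≤ 2 * m ^ 3 := by
  have h0 : (3 / 2 : ℚ) ^ j * x ≤ m := h1.trans (by exact_mod_cast h1')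
  have h2 : (2 : ℚ) ^ j * (x : ℚ) ^ 2 ≤ (m : ℚ) ^ 2 := by
    calc (2 : ℚ) ^ j * (x : ℚ) ^ 2 ≤ (9 / 4 : ℚ) ^ j * (x : ℚ) ^ 2 := by
          gcongr
          norm_num
      _ = ((3 / 2 : ℚ) ^ j * x) ^ 2 := by
          rw [mul_pow, ← pow_mul, mul_comm j 2, pow_mul]
          norm_num
      _ ≤ _ := by
          have : (0 : ℚ) ≤ (3 / 2 : ℚ) ^ j * x := by positivity
          gcongr
  have h3' : (d : ℚ) * x ≤ m := by exact_mod_cast h3
  have h4 : ((2 ^ (j + 1) * d * x ^ 3 : ℕ) : ℚ) ≤ ((2 * m ^ 3 : ℕ) : ℚ) := by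
    push_cast
    calc (2 : ℚ) ^ (j + 1) * d * (x : ℚ) ^ 3
        = 2 * (((2 : ℚ) ^ j * (x : ℚ) ^ 2) * (d * x)) := by ring
      _ ≤ 2 * ((m : ℚ) ^ 2 * m) := by gcongr
      _ = _ := by ring
  exact_mod_cast h4

/-- The multiplicative form. -/
lemma mul_form {M : Type} [CommGroup M] [Fintype M] [DecidableEq M] (X : Finset M)
    (hX : X.Nonempty) :
    ∃ l : ℕ, 1 ≤ l ∧ l * X.card ^ 3 ≤ 2 * Fintype.card M ^ 3 ∧ (1 : M) ∈ X ^ l := by
  obtain ⟨x0, hx0⟩ := hX
  set A : Finset M := x0⁻¹ • X with hAdef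
  have h1A : (1 : M) ∈ A := by
    rw [hAdef, Finset.mem_smul_finset]
    exact ⟨x0, hx0, by simp⟩
  have hcardA : A.card = X.card := by rw [hAdef, Finset.card_smul_finset]
  obtain ⟨j, hj1, hj2⟩ := exists_step A h1A
  set Aj := A ^ (2 ^ j) with hAj
  have h1Aj : (1 : M) ∈ Aj := by
    have := Finset.pow_mem_pow h1A (n := 2 ^ j)
    simpa using this
  have hAA : Aj⁻¹ * Aj = Aj * Aj := by
    have := Finset.smul_inv_mul_opSMul_eq_mul_of_doubling_lt_three_halves (A := Aj) hj1 h1Aj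
    simpa using this
  let H : Subgroup M := Finset.invMulSubgroup Aj hj1
  have hH : ∀ z : M, z ∈ H ↔ z ∈ Aj * Aj := by
    intro z
    rw [← hAA, ← Finset.mem_coe (s := Aj⁻¹ * Aj)]
    have : (H : Set M) = ((Aj⁻¹ * Aj : Finset M) : Set M) := by
      rw [Finset.coe_mul]
      exact Finset.invMulSubgroup_eq_inv_mul Aj hj1
    rw [← this]
    rfl
  have hAN : Aj * Aj = A ^ (2 ^ (j + 1)) := by
    rw [hAj, ← pow_add, ← two_mul, ← pow_succ']
  have hXA : X = x0 • A := by rw [hAdef, smul_inv_smul]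
  have hXN : ∀ n : ℕ, X ^ n = x0 ^ n • A ^ n := by
    intro n
    rw [hXA, smul_pow]
  -- the order of `x0` modulo `H`
  set d := orderOf (QuotientGroup.mk x0 : M ⧸ H) with hd
  have hdpos : 1 ≤ d := orderOf_pos _
  have hdH : x0 ^ d ∈ H := by
    rw [← QuotientGroup.eq_one_iff, QuotientGroup.mk_pow]
    exact pow_orderOf_eq_one _
  have hHcard : Nat.card H = (Aj * Aj).card := by
    have : (H : Set M) = ((Aj * Aj : Finset M) : Set M) := by
      ext z
      exact hH z
    rw [← Nat.card_eq_finsetCard]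
    exact Nat.card_congr (Equiv.setCongr this)
  have hdM : d * Nat.card H ≤ Fintype.card M := by
    have h1 : d ∣ Nat.card (M ⧸ H) := orderOf_dvd_natCard _
    have h2 : d ≤ Nat.card (M ⧸ H) := Nat.le_of_dvd Nat.card_pos h1
    have h3 := Subgroup.card_eq_card_quotient_mul_card_subgroup H
    rw [← Nat.card_eq_fintype_card, h3]
    exact Nat.mul_le_mul_right _ h2
  have hXH : X.card ≤ Nat.card H := by
    rw [hHcard, hAN, ← hcardA]
    exact Finset.card_le_card_pow (pow_ne_zero _ (by norm_num))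
  set N := 2 ^ (j + 1) with hN
  have h1X : (1 : M) ∈ X ^ (N * d) := by
    rw [pow_mul]
    obtain ⟨e, he0⟩ : ∃ e, d = e + 1 := ⟨d - 1, by omega⟩
    rw [he0] at hdH ⊢
    have hx : x0 ^ N ∈ X ^ N := Finset.pow_mem_pow hx0
    have hh : (x0 ^ (N * (e + 1)))⁻¹ ∈ A ^ N := by
      rw [← hAN, ← hH, mul_comm, pow_mul]
      exact H.inv_mem (H.pow_mem hdH _)
    have hy : x0 ^ N * (x0 ^ (N * (e + 1)))⁻¹ ∈ X ^ N := by
      rw [hXN]
      exact Finset.smul_mem_smul_finset hh
    rw [pow_succ]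
    have := Finset.mul_mem_mul (Finset.pow_mem_pow hx (n := e)) hy
    have he : (x0 ^ N) ^ e * (x0 ^ N * (x0 ^ (N * (e + 1)))⁻¹) = 1 := by
      rw [← mul_assoc, ← pow_succ, ← pow_mul, mul_inv_cancel]
    rwa [he] at this
  refine ⟨N * d, ?_, ?_, h1X⟩
  · have hNpos : 0 < N := pow_pos (by norm_num) _
    exact Nat.mul_pos hNpos hdpos
  · rw [hcardA] at hj2
    exact num j d X.card (Fintype.card M) (Aj.card) hj2 (Finset.card_le_univ _)
      ((Nat.mul_le_mul_left _ hXH).trans hdM)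

end ItemF2

open scoped Pointwise in
theorem claimF2 : ClaimF2 := by
  classical
  intro G _ _ X hX
  obtain ⟨l, hl1, hl2, hl3⟩ := ItemF2.mul_form (M := Multiplicative G)
    (X.map Multiplicative.ofAdd.toEmbedding) (by simpa using hX)
  rw [Finset.card_map] at hl2
  rw [Finset.mem_pow] at hl3
  obtain ⟨f, hf⟩ := hl3
  refine ⟨l, fun i => Multiplicative.toAdd (f i : Multiplicative G), hl1, ?_, ?_, ?_⟩
  · simpa using hl2
  · intro i
    have := (f i).2
    rw [Finset.mem_map] at this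
    obtain ⟨x, hx, hx'⟩ := this
    have h2 : Multiplicative.toAdd (f i : Multiplicative G) = x := by
      rw [← hx']
      rfl
    show Multiplicative.toAdd (f i : Multiplicative G) ∈ X
    rw [h2]
    exact hx
  · rw [List.prod_ofFn] at hf
    have := congrArg Multiplicative.toAdd hf
    rw [toAdd_prod] at this
    simpa using this

end Pool.Agent.Work.MP_e0aece_nt.Eps

end

section

/-! Item F4: a tuple of distinct elements avoiding a given set. -/

namespace Pool.Agent.Work.MP_e0aece_nt.Eps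

open Finset

namespace ItemF4

variable {G Ω : Type} [AddCommGroup G] [DecidableEq G] [Fintype Ω]

theorem sum_insertNth {n : ℕ} (k : Fin (n + 1)) (Φ : (Fin (n + 1) → Ω) → ℝ) :
    ∑ p, Φ p = ∑ A, ∑ q : Fin n → Ω, Φ (k.insertNth A q) := by
  rw [← Fintype.sum_prod_type']
  exact (Fintype.sum_equiv (Fin.insertNthEquiv (fun _ => Ω) k) _ _ (fun _ => rfl)).symm

open Classical in
theorem fix_one (gg : Ω → G) (w : Ω → ℝ) {n : ℕ} (k : Fin (n + 1)) (A : Ω) (x : G) :
    ∑ p : Fin (n + 1) → Ω, (if p k = A ∧ ∑ j, gg (p j) = x then ∏ j, w (p j) else 0) =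
      w A * rr gg w n (x - gg A) := by
  rw [sum_insertNth k, Finset.sum_eq_single A]
  · unfold rr
    rw [Finset.mul_sum]
    apply Finset.sum_congr rfl
    intro q _
    rw [Fin.sum_univ_succAbove _ k, Fin.prod_univ_succAbove _ k]
    simp only [Fin.insertNth_apply_same, Fin.insertNth_apply_succAbove, true_and]
    have e : (gg A + ∑ i, gg (q i) = x) ↔ (∑ i, gg (q i) = x - gg A) := by
      rw [eq_sub_iff_add_eq, add_comm]
    by_cases h : ∑ i, gg (q i) = x - gg A
    · rw [if_pos (e.2 h), if_pos h]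
    · rw [if_neg (fun h' => h (e.1 h')), if_neg h, mul_zero]
  · intro A' _ hA'
    apply Finset.sum_eq_zero
    intro q _
    rw [if_neg]
    rintro ⟨h, _⟩
    rw [Fin.insertNth_apply_same] at h
    exact hA' h
  · intro h
    exact absurd (Finset.mem_univ A) h

open Classical in
theorem fix_two (gg : Ω → G) (w : Ω → ℝ) {n : ℕ} {j k : Fin (n + 2)} (hjk : k ≠ j) (A : Ω) (x : G) :
    ∑ p : Fin (n + 2) → Ω, (if (p j = A ∧ p k = A) ∧ ∑ i, gg (p i) = x then ∏ i, w (p i) else 0) =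
      w A * (w A * rr gg w n (x - gg A - gg A)) := by
  obtain ⟨k', rfl⟩ := Fin.exists_succAbove_eq hjk
  rw [sum_insertNth j, Finset.sum_eq_single A]
  · rw [← fix_one gg w k' A (x - gg A), Finset.mul_sum]
    apply Finset.sum_congr rfl
    intro q _
    rw [Fin.sum_univ_succAbove _ j, Fin.prod_univ_succAbove _ j]
    simp only [Fin.insertNth_apply_same, Fin.insertNth_apply_succAbove, true_and]
    have e : (q k' = A ∧ gg A + ∑ i, gg (q i) = x) ↔ (q k' = A ∧ ∑ i, gg (q i) = x - gg A) := by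
      rw [eq_sub_iff_add_eq, add_comm]
    by_cases h : q k' = A ∧ ∑ i, gg (q i) = x - gg A
    · rw [if_pos (e.2 h), if_pos h]
    · rw [if_neg (fun h' => h (e.1 h')), if_neg h, mul_zero]
  · intro A' _ hA'
    apply Finset.sum_eq_zero
    intro q _
    rw [if_neg]
    rintro ⟨⟨h, _⟩, _⟩
    rw [Fin.insertNth_apply_same] at h
    exact hA' h
  · intro h
    exact absurd (Finset.mem_univ A) h

end ItemF4

open ItemF4 in
open Classical in
theorem claimF4 : ClaimF4 := by
  intro G Ω _ _ _ _ gg w Θ W α t x E hw hN hW hwW hΘ hR hα hlt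
  set N : ℝ := ∑ a, w a with hNdef
  set R : ℝ := rr gg w t x with hRdef
  set 𝒢 := univ.filter (fun p : Fin t → Ω => Good gg w Θ t p ∧ ∑ k, gg (p k) = x) with h𝒢
  by_contra hcon
  have hwt : ∀ p : Fin t → Ω, 0 ≤ ∏ k, w (p k) := fun p => Finset.prod_nonneg (fun k _ => hw _)
  have hN0 : N ≠ 0 := hN.ne'
  have hwN : ∀ A, w A / N ≤ 1 / W := by
    intro A
    rw [div_le_div_iff₀ hN hW]
    linarith [hwW A]
  -- first kind
  have hT1 : ∀ (k : Fin t) (A : Ω), ∑ p ∈ 𝒢, (if p k = A then ∏ j, w (p j) else 0) ≤ Θ * R / W := by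
    intro k A
    by_cases hex : ∃ p0 ∈ 𝒢, p0 k = A
    · obtain ⟨p0, hp0, hp0k⟩ := hex
      rw [h𝒢, Finset.mem_filter] at hp0
      obtain ⟨_, hgood, hsum⟩ := hp0
      obtain ⟨n, rfl⟩ : ∃ n, t = n + 1 := ⟨t - 1, by have := k.2; omega⟩
      have hcard : (univ.erase k : Finset (Fin (n + 1))).card = n := by
        rw [Finset.card_erase_of_mem (Finset.mem_univ k), Finset.card_univ, Fintype.card_fin]
        rfl
      have h1 := hgood (univ.erase k) (by rw [hcard]; omega)
      rw [hcard, hsum, show n + 1 - n = 1 by omega, pow_one, pow_one] at h1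
      have h2 : ∑ j ∈ univ.erase k, gg (p0 j) = x - gg A := by
        rw [eq_sub_iff_add_eq, ← hp0k, ← hsum]
        exact Finset.sum_erase_add _ _ (Finset.mem_univ k)
      rw [h2] at h1
      have h3 : ∑ p ∈ 𝒢, (if p k = A then ∏ j, w (p j) else 0) ≤ w A * rr gg w n (x - gg A) := by
        rw [← fix_one gg w k A x, h𝒢, Finset.sum_filter]
        apply Finset.sum_le_sum
        intro p _
        by_cases hp : Good gg w Θ (n + 1) p ∧ ∑ k, gg (p k) = x
        · rw [if_pos hp]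
          by_cases hpk : p k = A
          · rw [if_pos hpk, if_pos ⟨hpk, hp.2⟩]
          · rw [if_neg hpk, if_neg (fun h => hpk h.1)]
        · rw [if_neg hp]
          split_ifs
          · exact hwt p
          · exact le_rfl
      refine h3.trans ?_
      have h4 : rr gg w n (x - gg A) ≤ Θ * R / N := by
        rw [le_div_iff₀ hN]
        exact h1
      have h5 : 0 ≤ Θ * R := by positivity
      calc w A * rr gg w n (x - gg A) ≤ w A * (Θ * R / N) := mul_le_mul_of_nonneg_left h4 (hw A)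
        _ = (w A / N) * (Θ * R) := by ring
        _ ≤ (1 / W) * (Θ * R) := mul_le_mul_of_nonneg_right (hwN A) h5
        _ = Θ * R / W := by ring
    · rw [Finset.sum_eq_zero]
      · positivity
      · intro p hp
        rw [if_neg (fun h => hex ⟨p, hp, h⟩)]
  -- second kind
  have hT2 : ∀ (j k : Fin t), ∑ p ∈ 𝒢, (if k ≠ j ∧ p j = p k then ∏ i, w (p i) else 0) ≤
      Θ ^ 2 * R / W := by
    intro j k
    by_cases hjk : k ≠ j
    · have hA : ∀ A : Ω, ∑ p ∈ 𝒢, (if p j = A ∧ p k = A then ∏ i, w (p i) else 0) ≤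
          (w A) ^ 2 * (Θ ^ 2 * R / N ^ 2) := by
        intro A
        by_cases hex : ∃ p0 ∈ 𝒢, p0 j = A ∧ p0 k = A
        · obtain ⟨p0, hp0, hp0j, hp0k⟩ := hex
          rw [h𝒢, Finset.mem_filter] at hp0
          obtain ⟨_, hgood, hsum⟩ := hp0
          obtain ⟨n, rfl⟩ : ∃ n, t = n + 2 := ⟨t - 2, by
            have h1 := k.2
            have h2 := j.2
            have h3 : (k : ℕ) ≠ j := fun h => hjk (Fin.ext h)
            omega⟩
          have hmem : k ∈ univ.erase j := Finset.mem_erase.2 ⟨hjk, Finset.mem_univ k⟩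
          have hcard : ((univ.erase j).erase k : Finset (Fin (n + 2))).card = n := by
            rw [Finset.card_erase_of_mem hmem, Finset.card_erase_of_mem (Finset.mem_univ j),
              Finset.card_univ, Fintype.card_fin]
            rfl
          have h1 := hgood ((univ.erase j).erase k) (by rw [hcard])
          rw [hcard, hsum, show n + 2 - n = 2 by omega] at h1
          have h2 : ∑ i ∈ (univ.erase j).erase k, gg (p0 i) = x - gg A - gg A := by
            rw [eq_sub_iff_add_eq, eq_sub_iff_add_eq]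
            have e1 := Finset.sum_erase_add (univ.erase j) (fun i => gg (p0 i)) hmem
            have e2 := Finset.sum_erase_add univ (fun i => gg (p0 i)) (Finset.mem_univ j)
            rw [hp0k] at e1
            rw [hp0j] at e2
            rw [e1, e2, hsum]
          rw [h2] at h1
          have h3 : ∑ p ∈ 𝒢, (if p j = A ∧ p k = A then ∏ i, w (p i) else 0) ≤
              w A * (w A * rr gg w n (x - gg A - gg A)) := by
            rw [← fix_two gg w hjk A x, h𝒢, Finset.sum_filter]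
            apply Finset.sum_le_sum
            intro p _
            by_cases hp : Good gg w Θ (n + 2) p ∧ ∑ k, gg (p k) = x
            · rw [if_pos hp]
              by_cases hpk : p j = A ∧ p k = A
              · rw [if_pos hpk, if_pos ⟨hpk, hp.2⟩]
              · rw [if_neg hpk, if_neg (fun h => hpk h.1)]
            · rw [if_neg hp]
              split_ifs
              · exact hwt p
              · exact le_rfl
          refine h3.trans ?_
          have h4 : rr gg w n (x - gg A - gg A) ≤ Θ ^ 2 * R / N ^ 2 := by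
            rw [le_div_iff₀ (by positivity)]
            exact h1
          calc w A * (w A * rr gg w n (x - gg A - gg A)) = (w A) ^ 2 * rr gg w n (x - gg A - gg A) := by
                ring
            _ ≤ (w A) ^ 2 * (Θ ^ 2 * R / N ^ 2) := mul_le_mul_of_nonneg_left h4 (sq_nonneg _)
        · rw [Finset.sum_eq_zero]
          · positivity
          · intro p hp
            rw [if_neg (fun h => hex ⟨p, hp, h⟩)]
      have hsplit : ∑ p ∈ 𝒢, (if k ≠ j ∧ p j = p k then ∏ i, w (p i) else 0) =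
          ∑ A, ∑ p ∈ 𝒢, (if p j = A ∧ p k = A then ∏ i, w (p i) else 0) := by
        rw [Finset.sum_comm]
        apply Finset.sum_congr rfl
        intro p _
        by_cases hp : p j = p k
        · rw [if_pos ⟨hjk, hp⟩, Finset.sum_eq_single (p j)]
          · rw [if_pos ⟨rfl, hp.symm⟩]
          · intro A _ hA'
            rw [if_neg (fun h => hA' h.1.symm)]
          · intro h
            exact absurd (Finset.mem_univ _) h
        · rw [if_neg (fun h => hp h.2), Finset.sum_eq_zero]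
          intro A _
          rw [if_neg (fun h => hp (h.1.trans h.2.symm))]
      rw [hsplit]
      refine (Finset.sum_le_sum (fun A _ => hA A)).trans ?_
      rw [← Finset.sum_mul]
      have h5 : ∑ A, (w A) ^ 2 ≤ N / W * N := by
        have h6 : ∀ A ∈ (univ : Finset Ω), (w A) ^ 2 ≤ N / W * w A := by
          intro A _
          rw [sq]
          apply mul_le_mul_of_nonneg_right _ (hw A)
          rw [le_div_iff₀ hW]
          exact hwW A
        refine (Finset.sum_le_sum h6).trans (le_of_eq ?_)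
        rw [← Finset.mul_sum]
      calc (∑ A, (w A) ^ 2) * (Θ ^ 2 * R / N ^ 2) ≤ N / W * N * (Θ ^ 2 * R / N ^ 2) :=
            mul_le_mul_of_nonneg_right h5 (by positivity)
        _ = Θ ^ 2 * R / W := by
            field_simp
    · rw [Finset.sum_eq_zero]
      · positivity
      · intro p hp
        rw [if_neg (fun h => hjk h.1)]
  -- the cover
  have hcov : ∀ p ∈ 𝒢, ∏ k, w (p k) ≤
      (∑ k : Fin t, ∑ A ∈ E, (if p k = A then ∏ j, w (p j) else 0)) +
      ∑ j : Fin t, ∑ k : Fin t, (if k ≠ j ∧ p j = p k then ∏ i, w (p i) else 0) := by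
    intro p hp
    have hn1 : ∀ k : Fin t, ∀ A : Ω, 0 ≤ (if p k = A then ∏ j, w (p j) else 0) := by
      intro k A
      split_ifs
      · exact hwt p
      · exact le_rfl
    have hn2 : ∀ j k : Fin t, 0 ≤ (if k ≠ j ∧ p j = p k then ∏ i, w (p i) else 0) := by
      intro j k
      split_ifs
      · exact hwt p
      · exact le_rfl
    have hs1 : 0 ≤ ∑ k : Fin t, ∑ A ∈ E, (if p k = A then ∏ j, w (p j) else 0) :=
      Finset.sum_nonneg fun k _ => Finset.sum_nonneg fun A _ => hn1 k A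
    have hs2 : 0 ≤ ∑ j : Fin t, ∑ k : Fin t, (if k ≠ j ∧ p j = p k then ∏ i, w (p i) else 0) :=
      Finset.sum_nonneg fun j _ => Finset.sum_nonneg fun k _ => hn2 j k
    rcases (hwt p).eq_or_lt with h0 | h0
    · rw [← h0]
      exact add_nonneg (by simp) (by simp)
    · have hne : ∀ k, w (p k) ≠ 0 := by
        intro k hk
        rw [Finset.prod_eq_zero (Finset.mem_univ k) hk] at h0
        exact lt_irrefl _ h0
      by_cases hE : ∃ k, p k ∈ E
      · obtain ⟨k, hk⟩ := hE
        have h1 : ∏ j, w (p j) ≤ ∑ k : Fin t, ∑ A ∈ E, (if p k = A then ∏ j, w (p j) else 0) := by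
          have h2 := Finset.single_le_sum (f := fun A => if p k = A then ∏ j, w (p j) else 0)
            (fun A _ => hn1 k A) hk
          have h3 := Finset.single_le_sum
            (f := fun k => ∑ A ∈ E, (if p k = A then ∏ j, w (p j) else 0))
            (fun k _ => Finset.sum_nonneg fun A _ => hn1 k A) (Finset.mem_univ k)
          simp only [if_true] at h2
          exact h2.trans h3
        linarith
      · have hinj : ¬ Function.Injective p := by
          intro hinj
          apply hcon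
          refine ⟨p, hinj, fun k => ⟨fun h => hE ⟨k, h⟩, hne k⟩, ?_⟩
          rw [h𝒢, Finset.mem_filter] at hp
          exact hp.2.2
        rw [Function.Injective] at hinj
        push Not at hinj
        obtain ⟨j, k, hjk, hjk'⟩ := hinj
        have h1 : ∏ j, w (p j) ≤
            ∑ j : Fin t, ∑ k : Fin t, (if k ≠ j ∧ p j = p k then ∏ i, w (p i) else 0) := by
          have h2 := Finset.single_le_sum
            (f := fun k => if k ≠ j ∧ p j = p k then ∏ i, w (p i) else 0)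
            (fun k _ => hn2 j k) (Finset.mem_univ k)
          have h3 := Finset.single_le_sum
            (f := fun j => ∑ k : Fin t, (if k ≠ j ∧ p j = p k then ∏ i, w (p i) else 0))
            (fun j _ => Finset.sum_nonneg fun k _ => hn2 j k) (Finset.mem_univ j)
          rw [if_pos ⟨hjk'.symm, hjk⟩] at h2
          exact h2.trans h3
        linarith
  have htot : ∑ p ∈ 𝒢, ∏ k, w (p k) ≤ t * E.card * (Θ * R / W) + t ^ 2 * (Θ ^ 2 * R / W) := by
    refine (Finset.sum_le_sum hcov).trans ?_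
    rw [Finset.sum_add_distrib]
    apply add_le_add
    · rw [Finset.sum_comm]
      calc ∑ k : Fin t, ∑ p ∈ 𝒢, ∑ A ∈ E, (if p k = A then ∏ j, w (p j) else 0)
          = ∑ k : Fin t, ∑ A ∈ E, ∑ p ∈ 𝒢, (if p k = A then ∏ j, w (p j) else 0) := by
            apply Finset.sum_congr rfl
            intro k _
            exact Finset.sum_comm
        _ ≤ ∑ _k : Fin t, ∑ _A ∈ E, Θ * R / W :=
            Finset.sum_le_sum fun k _ => Finset.sum_le_sum fun A _ => hT1 k A
        _ = t * E.card * (Θ * R / W) := by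
            simp only [Finset.sum_const, Finset.card_univ, Fintype.card_fin, nsmul_eq_mul]
            ring
    · rw [Finset.sum_comm]
      calc ∑ j : Fin t, ∑ p ∈ 𝒢, ∑ k : Fin t, (if k ≠ j ∧ p j = p k then ∏ i, w (p i) else 0)
          = ∑ j : Fin t, ∑ k : Fin t, ∑ p ∈ 𝒢, (if k ≠ j ∧ p j = p k then ∏ i, w (p i) else 0) := by
            apply Finset.sum_congr rfl
            intro j _
            exact Finset.sum_comm
        _ ≤ ∑ _j : Fin t, ∑ _k : Fin t, Θ ^ 2 * R / W :=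
            Finset.sum_le_sum fun j _ => Finset.sum_le_sum fun k _ => hT2 j k
        _ = t ^ 2 * (Θ ^ 2 * R / W) := by
            simp only [Finset.sum_const, Finset.card_univ, Fintype.card_fin, nsmul_eq_mul]
            ring
  have hfin := hα.trans htot
  have e1 : (t : ℝ) * E.card * (Θ * R / W) + t ^ 2 * (Θ ^ 2 * R / W) =
      (t ^ 2 * Θ ^ 2 + t * E.card * Θ) * R / W := by ring
  rw [e1, le_div_iff₀ hW] at hfin
  have h9 : (t ^ 2 * Θ ^ 2 + t * E.card * Θ) * R < α * W * R := mul_lt_mul_of_pos_right hlt hR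
  linarith

end Pool.Agent.Work.MP_e0aece_nt.Eps

end

section

namespace Pool.Agent.Work.MP_e0aece_nt.Eps

open Finset Sq

namespace ItemF5a

variable {G Ω : Type} [AddCommGroup G] [Fintype G] [DecidableEq G] [Fintype Ω]

theorem rr_nonneg (gg : Ω → G) (w : Ω → ℝ) (hw : ∀ a, 0 ≤ w a) (t : ℕ) (x : G) :
    0 ≤ rr gg w t x := by
  unfold rr
  refine Finset.sum_nonneg fun p _ => ?_
  split_ifs
  · exact Finset.prod_nonneg fun k _ => hw _
  · exact le_rfl

theorem sum_rr (gg : Ω → G) (w : Ω → ℝ) (t : ℕ) :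
    ∑ x, rr gg w t x = (∑ a, w a) ^ t := by
  unfold rr
  rw [Finset.sum_comm, Fintype.sum_pow]
  refine Finset.sum_congr rfl fun p _ => ?_
  rw [Finset.sum_ite_eq]
  simp

open Classical in
theorem card_coset (lam : ℕ) (z : G) :
    (univ.filter fun y : G => lam • z = lam • y).card =
      (univ.filter fun y : G => lam • y = 0).card := by
  refine Finset.card_bij (fun y _ => y - z) ?_ ?_ ?_
  · intro y hy
    have := (Finset.mem_filter.1 hy).2
    refine Finset.mem_filter.2 ⟨Finset.mem_univ _, ?_⟩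
    rw [smul_sub, this, sub_self]
  · intro y _ y' _ h
    exact sub_left_injective h
  · intro b hb
    have := (Finset.mem_filter.1 hb).2
    refine ⟨b + z, Finset.mem_filter.2 ⟨Finset.mem_univ _, ?_⟩, by abel⟩
    rw [smul_add, this, zero_add]

end ItemF5a

open Classical in
open ItemF5a in
theorem claimF5a : ClaimF5a := by
  intro G Ω _ _ _ _ gg w lam t Θ α hw hN hα heq hgood
  set N := ∑ a, w a with hNdef
  set good : G → ℝ := fun x => ∑ p ∈ univ.filter
    (fun p : Fin t → Ω => Good gg w Θ t p ∧ ∑ k, gg (p k) = x), ∏ k, w (p k) with hgd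
  set n0 := (univ.filter fun y : G => lam • y = 0).card with hn0
  have hn0pos : (0 : ℝ) < n0 := by
    have : 0 < n0 := Finset.card_pos.2 ⟨0, by simp⟩
    exact_mod_cast this
  have hNt : 0 < N ^ t := pow_pos hN t
  have hle : ∀ x, good x ≤ rr gg w t x := by
    intro x
    unfold rr
    rw [← Finset.sum_filter]
    refine Finset.sum_le_sum_of_subset_of_nonneg ?_ fun p _ _ => Finset.prod_nonneg fun k _ => hw _
    intro p hp
    exact Finset.mem_filter.2 ⟨Finset.mem_univ _, (Finset.mem_filter.1 hp).2.2⟩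
  have hsumgood : ∑ x, good x =
      ∑ p ∈ univ.filter (fun p : Fin t → Ω => Good gg w Θ t p), ∏ k, w (p k) := by
    have h1 : ∀ x, good x = ∑ p ∈ univ.filter (fun p : Fin t → Ω => Good gg w Θ t p),
        if ∑ k, gg (p k) = x then ∏ k, w (p k) else 0 := by
      intro x
      rw [← Finset.sum_filter, Finset.filter_filter]
    simp_rw [h1]
    rw [Finset.sum_comm]
    refine Finset.sum_congr rfl fun p _ => ?_
    rw [Finset.sum_ite_eq]
    simp
  let rich : G → Prop := fun x => 0 < rr gg w t x ∧ α / 2 * rr gg w t x ≤ good x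
  have hnonrich : ∑ x ∈ univ.filter (fun x => ¬ rich x), good x ≤ α / 2 * N ^ t := by
    have h1 : ∑ x ∈ univ.filter (fun x => ¬ rich x), good x ≤
        ∑ x ∈ univ.filter (fun x => ¬ rich x), α / 2 * rr gg w t x := by
      refine Finset.sum_le_sum fun x hx => ?_
      have h2 := (Finset.mem_filter.1 hx).2
      by_cases h3 : 0 < rr gg w t x
      · by_contra hcon
        push Not at hcon
        exact h2 ⟨h3, hcon.le⟩
      · have h4 : rr gg w t x = 0 := le_antisymm (not_lt.1 h3) (rr_nonneg gg w hw t x)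
        have h5 := hle x
        rw [h4] at h5 ⊢
        simpa using h5
    refine h1.trans ?_
    rw [← sum_rr gg w t, Finset.mul_sum]
    exact Finset.sum_le_sum_of_subset_of_nonneg (Finset.filter_subset _ _)
      fun x _ _ => mul_nonneg (by positivity) (rr_nonneg gg w hw t x)
  have hrich : α / 2 * N ^ t ≤ ∑ x ∈ univ.filter rich, rr gg w t x := by
    have h1 : ∑ x ∈ univ.filter rich, good x + ∑ x ∈ univ.filter (fun x => ¬ rich x), good x =
        ∑ x, good x := Finset.sum_filter_add_sum_filter_not _ _ _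
    have h2 : ∑ x ∈ univ.filter rich, good x ≤ ∑ x ∈ univ.filter rich, rr gg w t x :=
      Finset.sum_le_sum fun x _ => hle x
    rw [hsumgood] at h1
    linarith
  set X := univ.filter fun y : G => ∃ x : G, lam • y = lam • x ∧
    0 < rr gg w t x ∧ α / 2 * rr gg w t x ≤ good x with hX
  have hdouble : ∑ y ∈ X, ∑ z ∈ univ.filter (fun z => lam • z = lam • y), rr gg w t z ≥
      (n0 : ℝ) * (α / 2 * N ^ t) := by
    have h1 : ∑ y ∈ X, ∑ z ∈ univ.filter (fun z => lam • z = lam • y), rr gg w t z =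
        ∑ z, ((X.filter fun y => lam • z = lam • y).card : ℝ) * rr gg w t z := by
      simp_rw [Finset.sum_filter]
      rw [Finset.sum_comm]
      refine Finset.sum_congr rfl fun z _ => ?_
      rw [← Finset.sum_filter, Finset.sum_const, nsmul_eq_mul]
    rw [h1]
    have h2 : ∑ z ∈ univ.filter rich, (n0 : ℝ) * rr gg w t z ≤
        ∑ z, ((X.filter fun y => lam • z = lam • y).card : ℝ) * rr gg w t z := by
      refine le_trans (Finset.sum_le_sum fun z hz => ?_)
        (Finset.sum_le_sum_of_subset_of_nonneg (Finset.filter_subset rich _)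
          fun x _ _ => mul_nonneg (by positivity) (rr_nonneg gg w hw t x))
      have hz' := (Finset.mem_filter.1 hz).2
      refine mul_le_mul_of_nonneg_right ?_ (rr_nonneg gg w hw t z)
      rw [hn0, ← card_coset lam z]
      have h3 : (univ.filter fun y : G => lam • z = lam • y) ⊆
          (X.filter fun y => lam • z = lam • y) := by
        intro y hy
        have hy' := (Finset.mem_filter.1 hy).2
        refine Finset.mem_filter.2 ⟨Finset.mem_filter.2 ⟨Finset.mem_univ _, z, hy'.symm, hz'⟩, hy'⟩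
      exact_mod_cast Finset.card_le_card h3
    rw [← Finset.mul_sum] at h2
    exact (mul_le_mul_of_nonneg_left hrich hn0pos.le).trans h2
  have hupper : (Fintype.card G : ℝ) *
      ∑ y ∈ X, ∑ z ∈ univ.filter (fun z => lam • z = lam • y), rr gg w t z ≤
      X.card * (3 / 2 * N ^ t * n0) := by
    rw [Finset.mul_sum]
    refine (Finset.sum_le_card_nsmul X _ _ fun y _ => heq y).trans ?_
    rw [nsmul_eq_mul]
  have hG : (0 : ℝ) ≤ Fintype.card G := by positivity
  have hfin : (Fintype.card G : ℝ) * (n0 * (α / 2 * N ^ t)) ≤ X.card * (3 / 2 * N ^ t * n0) :=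
    (mul_le_mul_of_nonneg_left hdouble hG).trans hupper
  have hc : 0 < (n0 : ℝ) * N ^ t / 2 := by positivity
  have : (α * (Fintype.card G : ℝ)) * (n0 * N ^ t / 2) ≤ (3 * (X.card : ℝ)) * (n0 * N ^ t / 2) := by
    nlinarith
  exact le_of_mul_le_mul_right this hc

end Pool.Agent.Work.MP_e0aece_nt.Eps

end
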