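import Pool.Agent.Work.MP_e0aece_nt.Bd.B06
import Pool.Agent.Work.MP_e0aece_nt.Bd.B07

/-! Bundle of small proof modules (one section per former module). -/

section

/-!
# Statements for the lower bound `R x ≥ log x / (log log x) ^ C`

The modules E1 - E7, E9, E12a, E13, En, F1, F2 of the directory `Eps` are used again.
-/

namespace Pool.Agent.Work.MP_e0aece_nt.Lg

open Finset Sq Eps

/-! ### Small sets of characters -/

/-- L12a: one scale. -/
def ClaimL12a : Prop :=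
  ∀ (ι : Type) [Fintype ι] [DecidableEq ι] (K : ι → Type) [∀ i, CommGroup (K i)]
    (Ω : Finset (∀ i, K i)) (V : Finset ι) (u β β₁ kmax : ℝ) (U : Finset ι) (c₀ : ∀ i, K i)
    (Ω₁ : Finset (∀ i, K i)) (ρ : ℕ),
    0 < u → 6 ≤ β → β ≤ β₁ → NE Ω V u β β₁ kmax → 30 * u * V.card / β₁ + 1 ≤ kmax →
    U ⊆ V → Ω₁ ⊆ Ω → Ω₁.Nonempty → 8 * β₁ < ρ → (∀ x ∈ Ω₁, dif U x c₀ ≤ ρ) →
    ∃ (W : Finset ι) (Ω₂ : Finset (∀ i, K i)), W ⊆ U ∧
      (W.card : ℝ) ≤ 480 * u * U.card + 2 * ρ ∧ Ω₂ ⊆ Ω₁ ∧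
      Ω₁.card * Real.exp (-(4 * β + 5)) ≤ (Ω₂.card : ℝ) ∧
      ∀ x ∈ Ω₂, dif (U \ W) x c₀ ≤ 11 * ρ / 12

/-- L12b: agreement on half of a set. -/
def ClaimL12b : Prop :=
  ∀ (ι : Type) [Fintype ι] [DecidableEq ι] (K : ι → Type) [∀ i, CommGroup (K i)]
    [∀ i, Fintype (K i)] (Ω : Finset (∀ i, K i)) (V : Finset ι) (Z h : ℕ) (u β β₁ kmax : ℝ),
    2 ≤ Z → (∀ i, Fintype.card (K i) ≤ Z) → 0 < u → (480 * (h : ℝ) + 823) * u ≤ 1 / 2 →
    6 ≤ β → β ≤ β₁ → NE Ω V u β β₁ kmax → 30 * u * V.card / β₁ + 1 ≤ kmax →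
    (11 / 12 : ℝ) ^ h * (30 * u * V.card + β₁) ≤ 8 * β₁ →
    ∀ U : Finset ι, U ⊆ V → ∀ Ω₁ : Finset (∀ i, K i), Ω₁ ⊆ Ω → Ω₁.Nonempty →
      ∃ (W : Finset ι) (c : ∀ i, K i), W ⊆ U ∧ 2 * W.card ≤ U.card ∧
        Ω₁.card * Real.exp (-(β + (4 * β + 5) * h + 8 * β₁ * Real.log ((V.card + 1) * Z))) ≤
          ((Ω₁.filter fun x => dif (U \ W) x c = 0).card : ℝ)

/-- L12: a set with non-expansion is small. -/
def ClaimL12 : Prop :=
  ∀ (ι : Type) [Fintype ι] [DecidableEq ι] (K : ι → Type) [∀ i, CommGroup (K i)]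
    [∀ i, Fintype (K i)] (Ω : Finset (∀ i, K i)) (V : Finset ι) (Z h J : ℕ) (u β β₁ kmax : ℝ),
    2 ≤ Z → (∀ i, Fintype.card (K i) ≤ Z) → 0 < u → (480 * (h : ℝ) + 823) * u ≤ 1 / 2 →
    6 ≤ β → β ≤ β₁ → NE Ω V u β β₁ kmax → 30 * u * V.card / β₁ + 1 ≤ kmax →
    (11 / 12 : ℝ) ^ h * (30 * u * V.card + β₁) ≤ 8 * β₁ → V.card < 2 ^ J →
    (∀ x ∈ Ω, ∀ y ∈ Ω, dif V x y = 0 → x = y) →
    (Ω.card : ℝ) ≤ Real.exp (J * (β + (4 * β + 5) * h + 8 * β₁ * Real.log ((V.card + 1) * Z)))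

/-- L14: the spectrum of a maximal state. -/
def ClaimL14 : Prop :=
  ∀ (ι : Type) [Fintype ι] [DecidableEq ι] (H : ι → Type) [∀ i, AddCommGroup (H i)]
    [∀ i, Fintype (H i)] (g : Finset ι → ∀ i, H i) (lam m y Z h J s : ℕ) (u : ℝ)
    (C : Finset (Finset ι)) (B I : Finset ι) (w : Finset ι → ℝ) (a : ℝ)
    (P : Finset (∀ i, AddChar (H i) ℂ)),
    2 ≤ Z → (∀ i, Fintype.card (H i) ≤ Z) → PR g lam m → 100 ≤ m → 20 * m ≤ Fintype.card ι →
    0 < u → (480 * (h : ℝ) + 823) * u ≤ 1 / 2 → 2 * ((y : ℝ) + 1) ≤ u * m →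
    (11 / 12 : ℝ) ^ h * (6 * (Fintype.card ι : ℝ)) ≤ 1 → Fintype.card ι < 2 ^ J →
    Mx g lam m (y * Real.log 2) u C B I w a → 2 * B.card ≤ m →
    40 * (J * (1 + 5 * (h : ℝ) +
      96 * ((Fintype.card ι : ℝ) / m) * Real.log (((Fintype.card ι : ℝ) + 1) * Z))) ≤ s →
    40 * ((Fintype.card ι : ℝ) * Real.log Z + 2) ≤ s * m →
    (∀ σ ∈ P, IsPow lam σ ∧ (∀ i ∈ B, σ i = 1) ∧ σ ≠ 1) →
    ∑ σ ∈ P, ‖hat g w σ‖ ^ s ≤ 1 / 2 * (∑ A, w A) ^ s

/-! ### Short zero sums -/

section Defs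

variable {G Ω : Type} [AddCommGroup G] [Fintype G] [DecidableEq G] [Fintype Ω]

/-- The relative entropy of the sum of `t` random elements with respect to the uniform
distribution on `G`. -/
noncomputable def DD (gg : Ω → G) (w : Ω → ℝ) (t : ℕ) : ℝ :=
  ∑ x : G, rr gg w t x / (∑ a, w a) ^ t *
    Real.log (Fintype.card G * (rr gg w t x / (∑ a, w a) ^ t))

open Classical in
/-- The weight of the steps from `x` to `x + gg a` at which the density decreases by a factor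
larger than `Θ`. -/
noncomputable def HH (gg : Ω → G) (w : Ω → ℝ) (Θ : ℝ) (t : ℕ) : ℝ :=
  ∑ x : G, ∑ a, if Θ * rr gg w (t + 1) (x + gg a) < rr gg w t x * ∑ b, w b then
    rr gg w t x * w a else 0

/-- Tuples of distinct elements, none of which can be guessed from the sum. -/
def Light (gg : Ω → G) (w : Ω → ℝ) (Θ : ℝ) (t : ℕ) (p : Fin t → Ω) : Prop :=
  Function.Injective p ∧ ∀ k, rr gg w (t - 1) (∑ j, gg (p j) - gg (p k)) * ∑ a, w a ≤
    Θ * rr gg w t (∑ j, gg (p j))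

end Defs

/-- L3a: large steps use up relative entropy. -/
def ClaimL3a : Prop :=
  ∀ (G Ω : Type) [AddCommGroup G] [Fintype G] [DecidableEq G] [Fintype Ω] (gg : Ω → G)
    (w : Ω → ℝ) (Θ : ℝ) (t : ℕ), (∀ a, 0 ≤ w a) → 0 < ∑ a, w a → 1 < Θ →
    HH gg w Θ t * Real.log Θ ≤ (∑ a, w a) ^ (t + 1) * (DD gg w t - DD gg w (t + 1) + 1)

/-- L3b: bounds for the relative entropy. -/
def ClaimL3b : Prop :=
  ∀ (G Ω : Type) [AddCommGroup G] [Fintype G] [DecidableEq G] [Fintype Ω] (gg : Ω → G)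
    (w : Ω → ℝ) (t : ℕ) (κ : ℝ), (∀ a, 0 ≤ w a) → 0 < ∑ a, w a → 0 < κ →
    0 ≤ DD gg w t ∧
      ((∀ x : G, (Fintype.card G : ℝ) * rr gg w t x ≤ κ * (∑ a, w a) ^ t) →
        DD gg w t ≤ Real.log κ)

open Classical in
/-- L3c: the weight of the tuples with a heavy element. -/
def ClaimL3c : Prop :=
  ∀ (G Ω : Type) [AddCommGroup G] [Fintype G] [DecidableEq G] [Fintype Ω] (gg : Ω → G)
    (w : Ω → ℝ) (Θ : ℝ) (t : ℕ), (∀ a, 0 ≤ w a) →
    ∑ p ∈ univ.filter (fun p : Fin (t + 1) → Ω => ∃ k,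
        Θ * rr gg w (t + 1) (∑ j, gg (p j)) <
          rr gg w t (∑ j, gg (p j) - gg (p k)) * ∑ a, w a), ∏ k, w (p k) ≤
      (t + 1) * HH gg w Θ t

open Classical in
/-- L3d: the weight of the tuples that are not injective. -/
def ClaimL3d : Prop :=
  ∀ (Ω : Type) [Fintype Ω] (w : Ω → ℝ) (W : ℝ) (t : ℕ), (∀ a, 0 ≤ w a) → 0 < ∑ a, w a →
    0 < W → (∀ a, w a * W ≤ ∑ a, w a) →
    W * ∑ p ∈ univ.filter (fun p : Fin t → Ω => ¬ Function.Injective p), ∏ k, w (p k) ≤
      (t : ℝ) ^ 2 / 2 * (∑ a, w a) ^ t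

open Classical in
/-- L3: many light tuples. -/
def ClaimL3 : Prop :=
  ∀ (G Ω : Type) [AddCommGroup G] [Fintype G] [DecidableEq G] [Fintype Ω] (gg : Ω → G)
    (w : Ω → ℝ) (lam s T : ℕ) (Θ W : ℝ), (∀ a, 0 ≤ w a) → 0 < ∑ a, w a → 1 < Θ →
    (∀ a, w a * W ≤ ∑ a, w a) →
    (∀ x : G,
      (Fintype.card G : ℝ) * ∑ y ∈ univ.filter (fun y => lam • y = lam • x), rr gg w s y ≤
        3 / 2 * (∑ a, w a) ^ s * ((univ.filter fun y : G => lam • y = 0).card : ℝ)) →
    s < T →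
    2 * (Real.log (3 / 2 * ((univ.filter fun y : G => lam • y = 0).card : ℝ)) + T) ≤
      Real.log Θ * Real.log (((T : ℝ) + 1) / (s + 1)) →
    4 * (T : ℝ) ^ 2 ≤ W →
    ∃ t : ℕ, s < t ∧ t ≤ T ∧ (∑ a, w a) ^ t ≤
      4 * ∑ p ∈ univ.filter (fun p : Fin t → Ω => Light gg w Θ t p), ∏ k, w (p k)

open Classical in
/-- L4: extraction of a tuple of distinct elements that avoids a given set. -/
def ClaimL4 : Prop :=
  ∀ (G Ω : Type) [AddCommGroup G] [Fintype G] [DecidableEq G] [Fintype Ω] (gg : Ω → G)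
    (w : Ω → ℝ) (Θ W α : ℝ) (t : ℕ) (x : G) (E : Finset Ω), (∀ a, 0 ≤ w a) → 0 < ∑ a, w a →
    0 < W → (∀ a, w a * W ≤ ∑ a, w a) → 0 ≤ Θ → 0 < rr gg w t x →
    α * rr gg w t x ≤ ∑ p ∈ univ.filter
      (fun p : Fin t → Ω => Light gg w Θ t p ∧ ∑ k, gg (p k) = x), ∏ k, w (p k) →
    t * E.card * Θ < α * W →
    ∃ p : Fin t → Ω, Function.Injective p ∧ (∀ k, p k ∉ E ∧ w (p k) ≠ 0) ∧ ∑ k, gg (p k) = x

open Classical in
/-- L5a: the density of the set of sums with many representations of a given kind. -/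
def ClaimL5a : Prop :=
  ∀ (G Ω : Type) [AddCommGroup G] [Fintype G] [DecidableEq G] [Fintype Ω] (gg : Ω → G)
    (w : Ω → ℝ) (lam t : ℕ) (α : ℝ) (Q : (Fin t → Ω) → Prop), (∀ a, 0 ≤ w a) → 0 < ∑ a, w a →
    0 < α →
    (∀ x : G,
      (Fintype.card G : ℝ) * ∑ y ∈ univ.filter (fun y => lam • y = lam • x), rr gg w t y ≤
        3 / 2 * (∑ a, w a) ^ t * ((univ.filter fun y : G => lam • y = 0).card : ℝ)) →
    α * (∑ a, w a) ^ t ≤ ∑ p ∈ univ.filter (fun p : Fin t → Ω => Q p), ∏ k, w (p k) →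
    α * (Fintype.card G : ℝ) ≤ 3 * ((univ.filter fun y : G => ∃ x : G, lam • y = lam • x ∧
      0 < rr gg w t x ∧ α / 2 * rr gg w t x ≤ ∑ p ∈ univ.filter
        (fun p : Fin t → Ω => Q p ∧ ∑ k, gg (p k) = x), ∏ k, w (p k)).card : ℝ)

open Classical in
/-- L5b: disjoint tuples with prescribed sums. -/
def ClaimL5b : Prop :=
  ∀ (G Ω : Type) [AddCommGroup G] [Fintype G] [DecidableEq G] [Fintype Ω] (gg : Ω → G)
    (w : Ω → ℝ) (Θ W α : ℝ) (t n : ℕ) (x : Fin n → G), (∀ a, 0 ≤ w a) → 0 < ∑ a, w a →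
    0 < W → (∀ a, w a * W ≤ ∑ a, w a) → 0 ≤ Θ → (∀ i, 0 < rr gg w t (x i)) →
    (∀ i, α * rr gg w t (x i) ≤ ∑ p ∈ univ.filter
      (fun p : Fin t → Ω => Light gg w Θ t p ∧ ∑ k, gg (p k) = x i), ∏ k, w (p k)) →
    t * (n * t) * Θ < α * W →
    ∃ T : Finset Ω, T.card = n * t ∧ (∀ a ∈ T, w a ≠ 0) ∧ ∑ a ∈ T, gg a = ∑ i, x i

/-- L5: short zero sums, from equidistribution modulo the `lam`-torsion. -/
def ClaimL5 : Prop :=
  ∀ (G Ω : Type) [AddCommGroup G] [Fintype G] [DecidableEq G] [Fintype Ω] (gg : Ω → G)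
    (w : Ω → ℝ) (lam s T smax : ℕ) (Θ W : ℝ), 1 ≤ lam → (∀ a, 0 ≤ w a) → 0 < ∑ a, w a →
    1 < Θ → (∀ a, w a * W ≤ ∑ a, w a) →
    (∀ t : ℕ, s ≤ t → ∀ x : G,
      (Fintype.card G : ℝ) * ∑ y ∈ univ.filter (fun y => lam • y = lam • x), rr gg w t y ≤
        3 / 2 * (∑ a, w a) ^ t * ((univ.filter fun y : G => lam • y = 0).card : ℝ)) →
    1 ≤ s → s < T →
    2 * (Real.log (3 / 2 * ((univ.filter fun y : G => lam • y = 0).card : ℝ)) + T) ≤
      Real.log Θ * Real.log (((T : ℝ) + 1) / (s + 1)) →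
    smax = 3456 * lam * T → 16 * (smax : ℝ) ^ 2 * Θ ≤ W →
    ∃ S : Finset Ω, 2 ≤ S.card ∧ S.card ≤ smax ∧ (∀ a ∈ S, w a ≠ 0) ∧ ∑ a ∈ S, gg a = 0

/-- The abstract theorem: short zero sums in every dense set. -/
def ClaimLEps : Prop :=
  ∀ (ι : Type) [Fintype ι] [DecidableEq ι] (H : ι → Type) [∀ i, AddCommGroup (H i)]
    [∀ i, Fintype (H i)] [∀ i, DecidableEq (H i)] (g : Finset ι → ∀ i, H i)
    (lam m y Z h J s T smax : ℕ) (u : ℝ) (C : Finset (Finset ι)),
    1 ≤ lam → 2 ≤ Z → (∀ i, Fintype.card (H i) ≤ Z) →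
    (∀ i, (univ.filter fun x : H i => lam • x = 0).card ≤ lam) →
    PR g lam m → 100 ≤ m → 20 * m ≤ Fintype.card ι →
    0 < u → (480 * (h : ℝ) + 823) * u ≤ 1 / 2 → 2 * ((y : ℝ) + 1) ≤ u * m →
    (11 / 12 : ℝ) ^ h * (6 * (Fintype.card ι : ℝ)) ≤ 1 → Fintype.card ι < 2 ^ J →
    2 ^ Fintype.card ι ≤ C.card * 2 ^ y →
    40 * (J * (1 + 5 * (h : ℝ) +
      96 * ((Fintype.card ι : ℝ) / m) * Real.log (((Fintype.card ι : ℝ) + 1) * Z))) ≤ s →
    40 * ((Fintype.card ι : ℝ) * Real.log Z + 2) ≤ s * m →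
    T = (s + 1) * (lam + 1) ^ 9 → (T : ℝ) + 1 ≤ Fintype.card ι / 10 →
    smax = 3456 * lam * T → 16 * (smax : ℝ) ^ 2 ≤ (2 : ℝ) ^ ((1 / 2 : ℝ) * Fintype.card ι) →
    ∃ (B I : Finset ι) (S : Finset (Finset ι)), I ⊆ B ∧ B.card ≤ m ∧ S ⊆ C ∧ 2 ≤ S.card ∧
      S.card ≤ smax ∧ (∀ A ∈ S, A ∩ B = I) ∧ ∀ i, i ∉ B → ∑ A ∈ S, g A i = 0

/-! ### Carmichael numbers and the final bound -/

/-- LG5: the numerical conditions. -/
def ClaimLG5 : Prop :=
  ∃ M0 : ℕ, ∀ M, M0 ≤ M → ∀ lam : ℕ, 1 ≤ lam → (lam : ℝ) ≤ 5 * (Real.log M) ^ 9 →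
    ∃ m h J s T smax : ℕ, (m : ℝ) * (Real.log M) ^ 4 ≤ M ∧ 100 ≤ m ∧ 20 * m ≤ M ∧
      (480 * (h : ℝ) + 823) * (1 / (Real.log M) ^ 2) ≤ 1 / 2 ∧
      2 * (((2 * ⌊(M : ℝ) / (Real.log M) ^ 7⌋₊ : ℕ) : ℝ) + 1) ≤ 1 / (Real.log M) ^ 2 * m ∧
      (11 / 12 : ℝ) ^ h * (6 * (M : ℝ)) ≤ 1 ∧ M < 2 ^ J ∧
      40 * (J * (1 + 5 * (h : ℝ) +
        96 * ((M : ℝ) / m) * Real.log (((M : ℝ) + 1) * ((4 * M ^ 20 : ℕ) : ℝ)))) ≤ s ∧
      40 * ((M : ℝ) * Real.log ((4 * M ^ 20 : ℕ) : ℝ) + 2) ≤ s * m ∧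
      T = (s + 1) * (lam + 1) ^ 9 ∧ (T : ℝ) + 1 ≤ M / 10 ∧
      smax = 3456 * lam * T ∧
      16 * (smax : ℝ) ^ 2 ≤ (2 : ℝ) ^ ((1 / 2 : ℝ) * M) ∧
      M ^ 3 ≤ 2 ^ ⌊(M : ℝ) / (Real.log M) ^ 7⌋₊ ∧
      (smax : ℝ) * Real.log (2 * (XM M : ℝ) + 1) ≤ M * (Real.log M) ^ 110 ∧
      Real.log (XM M) / Real.log 2 ≤ (M : ℝ) ^ 2

/-- LG4: the chromatic numbers of Carmichael numbers. -/
def ClaimLG4 : Prop :=
  ∃ M0 : ℕ, ∀ M, M0 ≤ M →
    ∃ v : ℕ, 1 ≤ v ∧ v ≤ M ^ 2 ∧ ∀ x : ℝ, Real.exp (M * (Real.log M) ^ 110) ≤ x →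
      2 ^ ⌊(M : ℝ) / (Real.log M) ^ 7⌋₊ < chi v x

/-- The final theorem. -/
def ClaimFinalLg : Prop :=
  ∃ C : ℝ, 0 < C ∧ ∀ᶠ x : ℝ in Filter.atTop,
    Real.log x / (Real.log (Real.log x)) ^ C ≤ (R x : ℝ)

end Pool.Agent.Work.MP_e0aece_nt.Lg

end

section

/-!
# ItemGL: the final theorem from the chromatic numbers
-/

namespace Pool.Agent.Work.MP_e0aece_nt.Lg

open Finset Sq Eps

namespace ItemGL

open Filter

theorem tendsto_key :
    Tendsto (fun l : ℝ => l / (Real.log l) ^ 111) atTop atTop := by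
  rw [tendsto_atTop]
  intro B
  have hB : (0 : ℝ) < max B 1 := lt_of_lt_of_le one_pos (le_max_right _ _)
  have h := (Real.isLittleO_pow_log_id_atTop (n := 111)).def
    (show (0 : ℝ) < 1 / max B 1 by positivity)
  filter_upwards [h, eventually_gt_atTop 1] with l hl hl1
  have hl0 : 0 ≤ l := by linarith
  have hlogl : 0 < Real.log l := Real.log_pos hl1
  rw [id, Real.norm_of_nonneg hl0, Real.norm_of_nonneg (pow_nonneg hlogl.le _)] at hl
  rw [le_div_iff₀ (by positivity)]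
  calc B * (Real.log l) ^ 111 ≤ max B 1 * (Real.log l) ^ 111 :=
        mul_le_mul_of_nonneg_right (le_max_left _ _) (by positivity)
    _ ≤ max B 1 * (1 / max B 1 * l) := mul_le_mul_of_nonneg_left hl hB.le
    _ = l := by field_simp

theorem mlarge : ∃ Y0 : ℕ, ∀ y : ℕ, Y0 ≤ y →
    1 ≤ Real.log (y : ℝ) ∧ (Real.log (y : ℝ)) ^ 7 ≤ (y : ℝ) / 2 := by
  have h1 : ∀ᶠ y : ℕ in atTop, (1 : ℝ) ≤ Real.log (y : ℝ) :=
    (Real.tendsto_log_atTop.comp tendsto_natCast_atTop_atTop).eventually_ge_atTop 1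
  have h2 : ∀ᶠ y : ℕ in atTop, (Real.log (y : ℝ)) ^ 7 ≤ (y : ℝ) / 2 := by
    have h := (Real.isLittleO_pow_log_id_atTop (n := 7)).def (show (0 : ℝ) < 1 / 2 by norm_num)
    have h' := (tendsto_natCast_atTop_atTop (R := ℝ)).eventually h
    filter_upwards [h'] with y hy
    rw [id, Real.norm_of_nonneg (Nat.cast_nonneg y),
      Real.norm_of_nonneg (pow_nonneg (Real.log_natCast_nonneg y) _)] at hy
    linarith
  obtain ⟨Y0, hY0⟩ := eventually_atTop.1 (h1.and h2)
  exact ⟨Y0, fun y hy => hY0 y hy⟩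

end ItemGL

open ItemGL Filter in
theorem claimFinalLg (hG4 : ClaimLG4) : ClaimFinalLg := by
  obtain ⟨M0, hG⟩ := hG4
  obtain ⟨Y0, hY⟩ := mlarge
  refine ⟨120, by norm_num, ?_⟩
  have e1 : ∀ᶠ x : ℝ in atTop, 24 ≤ Real.log (Real.log x) :=
    (Real.tendsto_log_atTop.comp Real.tendsto_log_atTop).eventually_ge_atTop 24
  have e2 : ∀ᶠ x : ℝ in atTop, ((Y0 + M0 + 3 : ℕ) : ℝ) ≤
      Real.log x / (Real.log (Real.log x)) ^ 111 :=
    (tendsto_key.comp Real.tendsto_log_atTop).eventually_ge_atTop _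
  filter_upwards [e1, e2, eventually_gt_atTop 1] with x h1 h2 hx1
  set l : ℝ := Real.log x with hl
  set lam : ℝ := Real.log l with hlam
  have hl0 : 0 < l := Real.log_pos hx1
  have hlam0 : 0 < lam := by linarith
  set q : ℝ := l / lam ^ 111 with hq
  have hqs : q * lam ^ 111 = l := by
    rw [hq]
    field_simp
  obtain ⟨M, hM⟩ : ∃ M : ℕ, M = ⌊q⌋₊ := ⟨_, rfl⟩
  have hq3 : ((Y0 + M0 + 3 : ℕ) : ℝ) ≤ q := h2
  have hq0 : 0 ≤ q := le_trans (Nat.cast_nonneg _) hq3
  have hMq : (M : ℝ) ≤ q := by rw [hM]; exact Nat.floor_le hq0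
  have hMq' : q < M + 1 := by rw [hM]; exact Nat.lt_floor_add_one q
  have hMY : Y0 + M0 + 3 ≤ M := by rw [hM]; exact Nat.le_floor hq3
  obtain ⟨hlog1, hlog7⟩ := hY M (by omega)
  have hM3 : (3 : ℝ) ≤ M := by
    have : 3 ≤ M := by omega
    exact_mod_cast this
  have hMpos : (0 : ℝ) < M := by linarith
  have hq2 : q / 2 ≤ M := by linarith
  have hql : q ≤ l := by
    have h4 : (1 : ℝ) ≤ lam ^ 111 := one_le_pow₀ (by linarith)
    calc q = q * 1 := (mul_one q).symm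
      _ ≤ q * lam ^ 111 := mul_le_mul_of_nonneg_left h4 hq0
      _ = l := hqs
  have hlogM : Real.log (M : ℝ) ≤ lam := Real.log_le_log hMpos (hMq.trans hql)
  have hlogM0 : 0 ≤ Real.log (M : ℝ) := Real.log_natCast_nonneg M
  have hexp : (M : ℝ) * (Real.log M) ^ 110 ≤ l := by
    calc (M : ℝ) * (Real.log M) ^ 110 ≤ q * lam ^ 110 :=
          mul_le_mul hMq (pow_le_pow_left₀ hlogM0 hlogM 110) (by positivity) hq0
      _ ≤ q * lam ^ 111 := by
          refine mul_le_mul_of_nonneg_left ?_ hq0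
          exact pow_le_pow_right₀ (by linarith) (by norm_num)
      _ = l := hqs
  have hx : Real.exp ((M : ℝ) * (Real.log M) ^ 110) ≤ x := by
    calc Real.exp ((M : ℝ) * (Real.log M) ^ 110) ≤ Real.exp l := Real.exp_le_exp.2 hexp
      _ = x := by rw [hl, Real.exp_log (by linarith)]
  obtain ⟨v, hv1, hv2, hv⟩ := hG M (by omega)
  obtain ⟨y, hy⟩ : ∃ y : ℕ, y = ⌊(M : ℝ) / (Real.log M) ^ 7⌋₊ := ⟨_, rfl⟩
  have hchi := hv x hx
  rw [← hy] at hchi
  have hR := Sq.ItemDF.R_lower hv1 hv2 (by omega) hchi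
  have hR0 : (0 : ℝ) ≤ R x := Nat.cast_nonneg _
  have hlog2 : (1 / 2 : ℝ) ≤ Real.log 2 := by
    have := Real.log_two_gt_d9
    linarith
  have hl7 : 0 < (Real.log (M : ℝ)) ^ 7 := by
    have : 0 < Real.log (M : ℝ) := by linarith
    positivity
  have hge2 : 2 ≤ (M : ℝ) / (Real.log M) ^ 7 := by
    rw [le_div_iff₀ hl7]
    linarith
  have hy1 : (M : ℝ) / (Real.log M) ^ 7 / 2 ≤ y := by
    have : (M : ℝ) / (Real.log M) ^ 7 < y + 1 := by rw [hy]; exact Nat.lt_floor_add_one _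
    linarith
  have hy2 : (M : ℝ) / lam ^ 7 ≤ (M : ℝ) / (Real.log M) ^ 7 :=
    div_le_div_of_nonneg_left hMpos.le hl7 (pow_le_pow_left₀ hlogM0 hlogM 7)
  have hy0 : (0 : ℝ) ≤ y := Nat.cast_nonneg _
  have hR1 : (y : ℝ) / 2 ≤ (R x : ℝ) * (3 * lam) := by
    calc (y : ℝ) / 2 ≤ (y : ℝ) * Real.log 2 := by nlinarith
      _ ≤ (R x : ℝ) * (3 * Real.log M) := hR
      _ ≤ (R x : ℝ) * (3 * lam) := by
          refine mul_le_mul_of_nonneg_left ?_ hR0
          linarith
  have hM7 : (M : ℝ) / lam ^ 7 ≤ 12 * ((R x : ℝ) * lam) := by linarith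
  rw [div_le_iff₀ (by positivity)] at hM7
  have hq7 : q ≤ 24 * ((R x : ℝ) * lam) * lam ^ 7 := by linarith
  have hpow : lam ^ (120 : ℝ) = lam ^ 120 := by
    rw [← Real.rpow_natCast]
    norm_num
  rw [hpow, div_le_iff₀ (by positivity)]
  calc l = q * lam ^ 111 := hqs.symm
    _ ≤ (24 * ((R x : ℝ) * lam) * lam ^ 7) * lam ^ 111 :=
        mul_le_mul_of_nonneg_right hq7 (by positivity)
    _ ≤ (lam * ((R x : ℝ) * lam) * lam ^ 7) * lam ^ 111 := by
        refine mul_le_mul_of_nonneg_right ?_ (by positivity)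
        refine mul_le_mul_of_nonneg_right ?_ (by positivity)
        exact mul_le_mul_of_nonneg_right h1 (by positivity)
    _ = (R x : ℝ) * lam ^ 120 := by ring

end Pool.Agent.Work.MP_e0aece_nt.Lg

end

section

/-!
# L12: a set with non-expansion is small
-/

set_option autoImplicit false

namespace Pool.Agent.Work.MP_e0aece_nt.Lg

open Finset Sq Eps

namespace ItemL12

variable {ι : Type} {K : ι → Type}

lemma dif_eq_zero (U : Finset ι) (x y : ∀ i, K i) : dif U x y = 0 ↔ ∀ i ∈ U, x i = y i := by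
  classical
  unfold dif
  rw [Finset.card_eq_zero, Finset.filter_eq_empty_iff]
  simp

end ItemL12

open ItemL12 in
theorem claimL12 (hL12b : ClaimL12b) : ClaimL12 := by
  classical
  intro ι _ _ K _ _ Ω V Z h J u β β₁ kmax hZ hK hu hu2 hβ hβ₁ hNE hkmax hsc hJ hinj
  have hV0 : (0 : ℝ) ≤ V.card := Nat.cast_nonneg _
  have hZ2 : (2 : ℝ) ≤ Z := by exact_mod_cast hZ
  have hlogV : 0 ≤ Real.log ((V.card + 1) * Z) := by
    apply Real.log_nonneg
    nlinarith
  set K₁ : ℝ := β + (4 * β + 5) * h + 8 * β₁ * Real.log ((V.card + 1) * Z) with hK₁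
  have hK0 : 0 ≤ K₁ := by
    have h1 : (0 : ℝ) ≤ (4 * β + 5) * h := mul_nonneg (by linarith) (Nat.cast_nonneg _)
    have h2 : 0 ≤ 8 * β₁ * Real.log ((V.card + 1) * Z) := mul_nonneg (by linarith) hlogV
    rw [hK₁]
    linarith
  have key : ∀ j : ℕ, ∀ U : Finset ι, U ⊆ V → U.card < 2 ^ j →
      ∀ Ω₁ : Finset (∀ i, K i), Ω₁ ⊆ Ω → Ω₁.Nonempty → ∃ c : ∀ i, K i,
        Ω₁.card * Real.exp (-(j * K₁)) ≤
          ((Ω₁.filter fun x => dif U x c = 0).card : ℝ) := by
    intro j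
    induction j with
    | zero =>
      intro U _ hU2 Ω₁ _ _
      have hU0 : U = ∅ := by
        rw [pow_zero] at hU2
        exact Finset.card_eq_zero.1 (by omega)
      refine ⟨fun _ => 1, ?_⟩
      have hfil : (Ω₁.filter fun x => dif U x (fun _ => 1) = 0) = Ω₁ := by
        apply Finset.filter_true_of_mem
        intro x _
        rw [dif_eq_zero, hU0]
        simp
      rw [hfil]
      simp
    | succ j ih =>
      intro U hU hU2 Ω₁ hΩ₁ hne
      obtain ⟨W, c₁, hWU, hWc, hcard⟩ := hL12b ι K Ω V Z h u β β₁ kmax hZ hK hu hu2 hβ hβ₁ hNE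
        hkmax hsc U hU Ω₁ hΩ₁ hne
      rw [← hK₁] at hcard
      have hW2 : W.card < 2 ^ j := by
        rw [pow_succ] at hU2
        omega
      have hpos : (0 : ℝ) < Ω₁.card * Real.exp (-K₁) := by
        have : (0 : ℝ) < Ω₁.card := by exact_mod_cast Finset.card_pos.2 hne
        exact mul_pos this (Real.exp_pos _)
      have hne₂ : (Ω₁.filter fun x => dif (U \ W) x c₁ = 0).Nonempty := by
        rw [← Finset.card_pos]
        exact_mod_cast lt_of_lt_of_le hpos hcard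
      obtain ⟨c₂, hc₂⟩ := ih W (hWU.trans hU) hW2
        (Ω₁.filter fun x => dif (U \ W) x c₁ = 0)
        ((Finset.filter_subset _ _).trans hΩ₁) hne₂
      refine ⟨fun i => if i ∈ W then c₂ i else c₁ i, ?_⟩
      have hsub : ((Ω₁.filter fun x => dif (U \ W) x c₁ = 0).filter fun x => dif W x c₂ = 0) ⊆
          Ω₁.filter fun x => dif U x (fun i => if i ∈ W then c₂ i else c₁ i) = 0 := by
        intro x hx
        simp only [Finset.mem_filter, dif_eq_zero] at hx ⊢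
        refine ⟨hx.1.1, ?_⟩
        intro i hi
        by_cases hiW : i ∈ W
        · rw [if_pos hiW]
          exact hx.2 i hiW
        · rw [if_neg hiW]
          exact hx.1.2 i (Finset.mem_sdiff.2 ⟨hi, hiW⟩)
      have h1 : (((Ω₁.filter fun x => dif (U \ W) x c₁ = 0).filter
          fun x => dif W x c₂ = 0).card : ℝ) ≤
          ((Ω₁.filter fun x => dif U x (fun i => if i ∈ W then c₂ i else c₁ i) = 0).card : ℝ) := by
        exact_mod_cast Finset.card_le_card hsub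
      refine le_trans ?_ h1
      refine le_trans ?_ hc₂
      have h2 : Real.exp (-(((j + 1 : ℕ) : ℝ) * K₁)) = Real.exp (-K₁) * Real.exp (-(j * K₁)) := by
        rw [← Real.exp_add]
        congr 1
        push_cast
        ring
      rw [h2, ← mul_assoc]
      exact mul_le_mul_of_nonneg_right hcard (Real.exp_pos _).le
  rcases Finset.eq_empty_or_nonempty Ω with hE | hne
  · rw [hE]
    simp only [Finset.card_empty, Nat.cast_zero]
    exact (Real.exp_pos _).le
  obtain ⟨c, hc⟩ := key J V (Finset.Subset.refl _) hJ Ω (Finset.Subset.refl _) hne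
  have h1 : (Ω.filter fun x => dif V x c = 0).card ≤ 1 := by
    apply Finset.card_le_one.2
    intro a ha b hb
    rw [Finset.mem_filter, dif_eq_zero] at ha hb
    apply hinj a ha.1 b hb.1
    rw [dif_eq_zero]
    intro i hi
    rw [ha.2 i hi, hb.2 i hi]
  have h2 : (Ω.card : ℝ) * Real.exp (-(J * K₁)) ≤ 1 :=
    hc.trans (by exact_mod_cast h1)
  rw [Real.exp_neg, ← div_eq_mul_inv, div_le_one (Real.exp_pos _)] at h2
  exact h2

end Pool.Agent.Work.MP_e0aece_nt.Lg

end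

section

/-!
# L12a: one scale
-/

namespace Pool.Agent.Work.MP_e0aece_nt.Lg

open Finset Sq Eps

namespace ItemL12a

section

variable {ι : Type} {K : ι → Type}

/-- Splitting the difference along `W`. -/
theorem dif_split [DecidableEq ι] {U W : Finset ι} (hW : W ⊆ U) (x c₀ : ∀ i, K i) :
    dif (U \ W) x c₀ + dif W x c₀ = dif U x c₀ := by
  classical
  have hdisj : Disjoint ((U \ W).filter fun i => x i ≠ c₀ i) (W.filter fun i => x i ≠ c₀ i) :=
    disjoint_filter_filter disjoint_sdiff_self_left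
  have e : ((U \ W).filter fun i => x i ≠ c₀ i) ∪ (W.filter fun i => x i ≠ c₀ i) =
      U.filter fun i => x i ≠ c₀ i := by
    rw [← filter_union, sdiff_union_of_subset hW]
  unfold dif
  rw [← card_union_of_disjoint hdisj, e]

end

end ItemL12a

open ItemL12a

open Classical in
theorem claimL12a (hE12a : ClaimE12a) : ClaimL12a := by
  intro ι _ _ K _ Ω V u β β₁ kmax U c₀ Ω₁ ρ hu hβ hββ hNE hk1 hUV hΩ₁ hΩne hρβ hdif
  have hβ0 : 0 < β := by linarith
  have hβ1 : 0 < β₁ := by linarith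
  have hΩ₁pos : (0 : ℝ) < Ω₁.card := by exact_mod_cast hΩne.card_pos
  have hρpos : (0 : ℝ) < ρ := by linarith
  have hρ1 : 1 ≤ ρ := by exact_mod_cast hρpos
  have hexp1 : Real.exp (-(4 * β + 5)) ≤ 1 := by
    rw [Real.exp_le_one_iff]; linarith
  rcases U.eq_empty_or_nonempty with rfl | hUne
  · refine ⟨∅, Ω₁, subset_rfl, ?_, subset_rfl, ?_, ?_⟩
    · simp
    · calc (Ω₁.card : ℝ) * Real.exp (-(4 * β + 5)) ≤ Ω₁.card * 1 :=
          mul_le_mul_of_nonneg_left hexp1 hΩ₁pos.le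
        _ = Ω₁.card := mul_one _
    · intro x _
      simp [dif]
  have hUpos : (0 : ℝ) < U.card := by exact_mod_cast hUne.card_pos
  have hUV' : (U.card : ℝ) ≤ V.card := by exact_mod_cast card_le_card hUV
  by_cases hA : Ω₁.card * Real.exp (-(4 * β + 5)) ≤
      ((Ω₁.filter fun x => dif U x c₀ ≤ 11 * ρ / 12).card : ℝ)
  · refine ⟨∅, Ω₁.filter fun x => dif U x c₀ ≤ 11 * ρ / 12, empty_subset _, ?_,
      filter_subset _ _, hA, ?_⟩
    · rw [card_empty, Nat.cast_zero]; positivity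
    · intro x hx
      have := (mem_filter.1 hx).2
      rw [sdiff_empty]
      exact this
  push Not at hA
  set k : ℕ := ⌈240 * u * (U.card : ℝ) / ρ⌉₊ with hk
  have hkpos : 0 < 240 * u * (U.card : ℝ) / ρ := by positivity
  have hk1' : 1 ≤ k := Nat.one_le_iff_ne_zero.2 (Nat.ceil_pos.2 hkpos).ne'
  have hkle : (k : ℝ) ≤ 240 * u * (U.card : ℝ) / ρ + 1 := (Nat.ceil_lt_add_one hkpos.le).le
  have hkge : 240 * u * (U.card : ℝ) ≤ k * ρ := by
    have := Nat.le_ceil (240 * u * (U.card : ℝ) / ρ)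
    rw [div_le_iff₀ hρpos] at this
    exact this
  have hkk : (k : ℝ) ≤ kmax := by
    refine hkle.trans (le_trans ?_ hk1)
    have h1 : 240 * u * (U.card : ℝ) / ρ ≤ 240 * u * (U.card : ℝ) / (8 * β₁) :=
      div_le_div_of_nonneg_left (by positivity) (by positivity) hρβ.le
    have h2 : 240 * u * (U.card : ℝ) / (8 * β₁) = 30 * u * U.card / β₁ := by
      field_simp
      ring
    have h3 : 30 * u * (U.card : ℝ) / β₁ ≤ 30 * u * V.card / β₁ := by
      apply div_le_div_of_nonneg_right _ hβ1.le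
      apply mul_le_mul_of_nonneg_left hUV'
      positivity
    linarith
  have hNEk := hNE U hUV hUne Ω₁ hΩ₁ hΩne k hk1' hkk
  obtain ⟨W, hWU, hWc, hWΩ⟩ := hE12a ι K Ω₁ U c₀ ρ k β hρ1 hk1' hβ0.le hΩne hdif hA.le
    (by
      refine hNEk.trans ?_
      have h1 : ((pairs Ω₁ k).filter fun q =>
          (dif U (∏ j, q.1 j) (∏ j, q.2 j) : ℝ) ≤ 30 * u * U.card + k * β₁) ⊆
          (pairs Ω₁ k).filter fun q => 4 * dif U (∏ j, q.1 j) (∏ j, q.2 j) ≤ k * ρ := by
        intro q hq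
        rw [mem_filter] at hq ⊢
        refine ⟨hq.1, ?_⟩
        have h2 := hq.2
        have h3 : (k : ℝ) * (8 * β₁) ≤ k * ρ :=
          mul_le_mul_of_nonneg_left hρβ.le (Nat.cast_nonneg _)
        have h4 : (4 : ℝ) * (dif U (∏ j, q.1 j) (∏ j, q.2 j) : ℝ) ≤ k * ρ := by
          linarith
        exact_mod_cast h4
      exact_mod_cast card_le_card h1)
  refine ⟨W, Ω₁.filter fun x => ρ ≤ 12 * dif W x c₀, hWU, ?_, filter_subset _ _, hWΩ.le, ?_⟩
  · have h1 : (W.card : ℝ) ≤ 2 * k * ρ := by exact_mod_cast hWc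
    have h2 : (k : ℝ) * ρ ≤ 240 * u * U.card + ρ := by
      have := mul_le_mul_of_nonneg_right hkle hρpos.le
      have e : (240 * u * (U.card : ℝ) / ρ + 1) * ρ = 240 * u * U.card + ρ := by
        field_simp
      linarith
    linarith
  · intro x hx
    have hx' := mem_filter.1 hx
    have h1 := dif_split hWU x c₀
    have h2 := hdif x hx'.1
    have h3 := hx'.2
    have h4 : dif (U \ W) x c₀ ≤ 11 * ρ / 12 := by
      rw [Nat.le_div_iff_mul_le (by norm_num)]
      omega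
    convert h4

end Pool.Agent.Work.MP_e0aece_nt.Lg

end

section

/-!
# L12b: agreement on half of a set
-/

namespace Pool.Agent.Work.MP_e0aece_nt.Lg

open Finset Sq Eps

namespace ItemL12b

open Eps.ItemE12b

open Classical in
/-- A good centre at the large radius. -/
theorem start {ι : Type} [Fintype ι] [DecidableEq ι] {K : ι → Type} [∀ i, CommGroup (K i)]
    [∀ i, Fintype (K i)] (Ω : Finset (∀ i, K i)) (V : Finset ι) (u β β₁ kmax : ℝ)
    (hu : 0 < u) (hβ1 : 0 < β₁) (hNE : NE Ω V u β β₁ kmax) (hk : 1 ≤ kmax)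
    (U : Finset ι) (hUV : U ⊆ V) (hUne : U.Nonempty) (Ω₁ : Finset (∀ i, K i)) (hΩ₁ : Ω₁ ⊆ Ω)
    (hΩne : Ω₁.Nonempty) :
    ∃ c₀ : ∀ i, K i, Real.exp (-β) * (Ω₁.card : ℝ) ≤
      ((Ω₁.filter fun x => dif U x c₀ ≤ ⌊30 * u * (U.card : ℝ) + β₁⌋₊).card : ℝ) := by
  have hΩ₁pos : (0 : ℝ) < Ω₁.card := by exact_mod_cast hΩne.card_pos
  set ρ₀ : ℕ := ⌊30 * u * (U.card : ℝ) + β₁⌋₊ with hρ₀
  set f : ℕ :=
    (univ : Finset (∀ i, K i)).sup fun c => (Ω₁.filter fun x => dif U x c ≤ ρ₀).card with hf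
  have hfle : ∀ c, (Ω₁.filter fun x => dif U x c ≤ ρ₀).card ≤ f := fun c =>
    le_sup (f := fun c => (Ω₁.filter fun x => dif U x c ≤ ρ₀).card) (mem_univ c)
  have hfex : ∃ c, (Ω₁.filter fun x => dif U x c ≤ ρ₀).card = f := by
    obtain ⟨x, hx⟩ := hΩne
    obtain ⟨c, _, hc⟩ := exists_mem_eq_sup (univ : Finset (∀ i, K i)) ⟨x, mem_univ _⟩
      fun c => (Ω₁.filter fun x => dif U x c ≤ ρ₀).card
    exact ⟨c, hc.symm⟩
  have hNE1 := hNE U hUV hUne Ω₁ hΩ₁ hΩne 1 le_rfl (by simpa using hk)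
  have hfρ₀ : Real.exp (-β) * (Ω₁.card : ℝ) ≤ f := by
    have h1 : ((pairs Ω₁ 1).filter fun q =>
        (dif U (∏ j, q.1 j) (∏ j, q.2 j) : ℝ) ≤ 30 * u * U.card + (1 : ℕ) * β₁).card ≤
        Ω₁.card ^ 1 * f := by
      apply pairs_le Ω₁ 1 f
        (fun p q => (dif U (∏ j, p j) (∏ j, q j) : ℝ) ≤ 30 * u * U.card + (1 : ℕ) * β₁)
      intro q
      refine le_trans ?_ (hfle (∏ j, q j))
      refine card_le_card_of_injOn (fun p => p 0) ?_ ?_
      · intro p hp
        have hp' := mem_filter.1 (mem_coe.1 hp)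
        rw [mem_coe, mem_filter]
        refine ⟨(Fintype.mem_piFinset.1 hp'.1) 0, ?_⟩
        apply Nat.le_floor
        have h3 := hp'.2
        rw [Fin.prod_univ_one (fun j => p j)] at h3
        simpa using h3
      · intro p _ p' _ h
        funext j
        have : j = 0 := Subsingleton.elim _ _
        rw [this]
        exact h
    have h2 : ((((pairs Ω₁ 1).filter fun q =>
        (dif U (∏ j, q.1 j) (∏ j, q.2 j) : ℝ) ≤ 30 * u * U.card + (1 : ℕ) * β₁).card : ℕ) : ℝ) ≤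
        (Ω₁.card : ℝ) * f := by
      have := (Nat.cast_le (α := ℝ)).2 h1
      push_cast at this ⊢
      simpa using this
    have h3 := hNE1.trans h2
    have h4 : Real.exp (-β) * (Ω₁.card : ℝ) * Ω₁.card ≤ f * Ω₁.card := by
      have e : Real.exp (-(((1 : ℕ) : ℝ) * β)) * (Ω₁.card : ℝ) ^ (2 * 1) =
        Real.exp (-β) * (Ω₁.card : ℝ) * Ω₁.card := by
        rw [Nat.cast_one, one_mul]
        ring
      rw [e] at h3
      linarith
    exact le_of_mul_le_mul_right h4 hΩ₁pos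
  obtain ⟨c, hc⟩ := hfex
  refine ⟨c, ?_⟩
  rw [hc]
  exact hfρ₀

theorem iter {ι : Type} [Fintype ι] [DecidableEq ι] {K : ι → Type} [∀ i, CommGroup (K i)]
    (hL12a : ClaimL12a) (Ω : Finset (∀ i, K i)) (V : Finset ι) (u β β₁ kmax : ℝ)
    (hu : 0 < u) (hβ : 6 ≤ β) (hββ : β ≤ β₁) (hNE : NE Ω V u β β₁ kmax)
    (hk : 30 * u * V.card / β₁ + 1 ≤ kmax) (U : Finset ι) (hUV : U ⊆ V)
    (Ω₁ Ω₀ : Finset (∀ i, K i)) (hΩ₁ : Ω₁ ⊆ Ω) (hΩne : Ω₁.Nonempty) (c₀ : ∀ i, K i) (ρ₀ : ℕ)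
    (hΩ₀ : Ω₀ ⊆ Ω₁) (h0 : (Ω₁.card : ℝ) * Real.exp (-β) ≤ Ω₀.card)
    (h0' : ∀ x ∈ Ω₀, dif U x c₀ ≤ ρ₀) (i : ℕ) :
    ∃ (W : Finset ι) (Ω₂ : Finset (∀ i, K i)) (ρ : ℕ), W ⊆ U ∧ Ω₂ ⊆ Ω₁ ∧
      (W.card : ℝ) ≤ 480 * u * U.card * i + 24 * (ρ₀ - ρ) ∧
      (Ω₁.card : ℝ) * Real.exp (-(β + (4 * β + 5) * i)) ≤ Ω₂.card ∧
      (∀ x ∈ Ω₂, dif (U \ W) x c₀ ≤ ρ) ∧ ρ ≤ ρ₀ ∧
      ((ρ : ℝ) ≤ 8 * β₁ ∨ (ρ : ℝ) ≤ (11 / 12) ^ i * ρ₀) ∧ (W = ∅ ∨ 8 * β₁ < ρ₀) := by
  have hβ0 : 0 < β := by linarith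
  have hΩ₁pos : (0 : ℝ) < Ω₁.card := by exact_mod_cast hΩne.card_pos
  have hUr : (0 : ℝ) ≤ U.card := Nat.cast_nonneg _
  induction i with
  | zero =>
    refine ⟨∅, Ω₀, ρ₀, empty_subset _, hΩ₀, ?_, ?_, ?_, le_rfl, ?_, Or.inl rfl⟩
    · simp
    · simpa using h0
    · simpa using h0'
    · right; simp
  | succ i ih =>
    obtain ⟨W, Ω₂, ρ, hWU, hΩ₂, ha, hb, hc, hd, hd', he⟩ := ih
    by_cases hρ : (ρ : ℝ) ≤ 8 * β₁
    · refine ⟨W, Ω₂, ρ, hWU, hΩ₂, ?_, ?_, hc, hd, Or.inl hρ, he⟩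
      · refine ha.trans ?_
        have : 480 * u * (U.card : ℝ) * i ≤ 480 * u * U.card * ((i + 1 : ℕ) : ℝ) := by
          apply mul_le_mul_of_nonneg_left _ (by positivity)
          push_cast
          linarith
        linarith
      · refine le_trans (mul_le_mul_of_nonneg_left (Real.exp_le_exp.2 ?_) hΩ₁pos.le) hb
        push_cast
        nlinarith
    · have hρ' : 8 * β₁ < ρ := lt_of_not_ge hρ
      have hΩ₂pos : (0 : ℝ) < Ω₂.card := lt_of_lt_of_le (by positivity) hb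
      have hΩ₂ne : Ω₂.Nonempty := card_pos.1 (by exact_mod_cast hΩ₂pos)
      obtain ⟨W', Ω₃, hW'U, hW'c, hΩ₃, hΩ₃c, hΩ₃d⟩ := hL12a ι K Ω V u β β₁ kmax (U \ W) c₀ Ω₂ ρ
        hu hβ hββ hNE hk (sdiff_subset.trans hUV) (hΩ₂.trans hΩ₁) hΩ₂ne hρ' hc
      have hρ1 : (((11 * ρ / 12 : ℕ)) : ℝ) ≤ 11 / 12 * ρ := by
        have h1 : 12 * (11 * ρ / 12) ≤ 11 * ρ := Nat.mul_div_le _ _
        have h2 : ((12 * (11 * ρ / 12) : ℕ) : ℝ) ≤ ((11 * ρ : ℕ) : ℝ) := Nat.cast_le.2 h1
        rw [Nat.cast_mul, Nat.cast_mul] at h2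
        push_cast at h2 ⊢
        linarith
      have hρρ₀ : (ρ : ℝ) ≤ ρ₀ := by exact_mod_cast hd
      refine ⟨W ∪ W', Ω₃, 11 * ρ / 12, union_subset hWU (hW'U.trans sdiff_subset),
        hΩ₃.trans hΩ₂, ?_, ?_, ?_, ?_, ?_, ?_⟩
      · have h1 : ((W ∪ W').card : ℝ) ≤ W.card + W'.card := by
          exact_mod_cast card_union_le W W'
        have h2 : ((U \ W).card : ℝ) ≤ U.card := by
          exact_mod_cast card_le_card sdiff_subset
        have h3 : 480 * u * ((U \ W).card : ℝ) ≤ 480 * u * U.card :=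
          mul_le_mul_of_nonneg_left h2 (by positivity)
        have e : 480 * u * (U.card : ℝ) * ((i + 1 : ℕ) : ℝ) =
            480 * u * U.card * i + 480 * u * U.card := by
          push_cast; ring
        rw [e]
        linarith
      · have e : Real.exp (-(β + (4 * β + 5) * ((i + 1 : ℕ) : ℝ))) =
            Real.exp (-(β + (4 * β + 5) * (i : ℝ))) * Real.exp (-(4 * β + 5)) := by
          rw [← Real.exp_add]
          congr 1
          push_cast
          ring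
        rw [e, ← mul_assoc]
        exact (mul_le_mul_of_nonneg_right hb (Real.exp_pos _).le).trans hΩ₃c
      · intro x hx
        have h1 := hΩ₃d x hx
        have e : U \ (W ∪ W') = (U \ W) \ W' := by
          ext a
          simp only [mem_sdiff, mem_union]
          tauto
        rw [e]
        exact h1
      · have : 11 * ρ / 12 ≤ ρ := by omega
        exact this.trans hd
      · right
        have h1 : (ρ : ℝ) ≤ (11 / 12) ^ i * ρ₀ := hd'.resolve_left hρ
        calc (((11 * ρ / 12 : ℕ)) : ℝ) ≤ 11 / 12 * ρ := hρ1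
          _ ≤ 11 / 12 * ((11 / 12) ^ i * ρ₀) := mul_le_mul_of_nonneg_left h1 (by norm_num)
          _ = (11 / 12) ^ (i + 1) * ρ₀ := by ring
      · right
        exact lt_of_lt_of_le hρ' hρρ₀

end ItemL12b

open ItemL12b

theorem claimL12b (hL12a : ClaimL12a) (hE9 : ClaimE9) : ClaimL12b := by
  intro ι _ _ K _ _ Ω V Z h u β β₁ kmax hZ hKZ hu hhu hβ hββ hNE hk hh U hUV Ω₁ hΩ₁ hΩne
  have hβ0 : 0 < β := by linarith
  have hβ1 : 0 < β₁ := by linarith
  have hΩ₁pos : (0 : ℝ) < Ω₁.card := by exact_mod_cast hΩne.card_pos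
  obtain ⟨Lz, hLz⟩ : ∃ Lz : ℝ, Lz = Real.log (((V.card : ℝ) + 1) * Z) := ⟨_, rfl⟩
  rw [← hLz]
  have hZr : (2 : ℝ) ≤ Z := by exact_mod_cast hZ
  have hVr : (0 : ℝ) ≤ V.card := Nat.cast_nonneg _
  have hVZ : (2 : ℝ) ≤ ((V.card : ℝ) + 1) * Z := by nlinarith
  have hLz0 : 0 < Lz := by
    rw [hLz]
    exact Real.log_pos (by linarith)
  rcases U.eq_empty_or_nonempty with rfl | hUne
  · obtain ⟨x, hx⟩ := hΩne
    refine ⟨∅, x, empty_subset _, by simp, ?_⟩
    have h2 : (Ω₁.filter fun y => dif (∅ \ ∅) y x = 0) = Ω₁ := by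
      apply filter_true_of_mem
      intro y _
      simp [dif]
    rw [h2]
    have h3 : Real.exp (-(β + (4 * β + 5) * h + 8 * β₁ * Lz)) ≤ 1 := by
      rw [Real.exp_le_one_iff]
      have : 0 ≤ β + (4 * β + 5) * h + 8 * β₁ * Lz := by positivity
      linarith
    calc (Ω₁.card : ℝ) * Real.exp (-(β + (4 * β + 5) * h + 8 * β₁ * Lz)) ≤ Ω₁.card * 1 :=
          mul_le_mul_of_nonneg_left h3 hΩ₁pos.le
      _ = Ω₁.card := mul_one _
  · have hUpos : (0 : ℝ) < U.card := by exact_mod_cast hUne.card_pos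
    have hUV' : (U.card : ℝ) ≤ V.card := by exact_mod_cast card_le_card hUV
    have hkm1 : (1 : ℝ) ≤ kmax := by
      have : 0 ≤ 30 * u * (V.card : ℝ) / β₁ := by positivity
      linarith
    obtain ⟨c₀, hc₀⟩ := start Ω V u β β₁ kmax hu hβ1 hNE hkm1 U hUV hUne Ω₁ hΩ₁ hΩne
    obtain ⟨ρ₀, hρ₀⟩ : ∃ ρ₀ : ℕ, ρ₀ = ⌊30 * u * (U.card : ℝ) + β₁⌋₊ := ⟨_, rfl⟩
    rw [← hρ₀] at hc₀
    have hρ₀le : (ρ₀ : ℝ) ≤ 30 * u * (U.card : ℝ) + β₁ := by
      rw [hρ₀]
      exact Nat.floor_le (by positivity)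
    obtain ⟨W, Ω₂, ρ, hWU, hΩ₂, ha, hb, hc, hd, hd', he⟩ :=
      iter hL12a Ω V u β β₁ kmax hu hβ hββ hNE hk U hUV Ω₁
        (Ω₁.filter fun x => dif U x c₀ ≤ ρ₀) hΩ₁ hΩne c₀ ρ₀ (filter_subset _ _)
        (by rw [mul_comm]; exact hc₀) (fun x hx => (mem_filter.1 hx).2) h
    -- the radius is small
    have hρ8 : (ρ : ℝ) ≤ 8 * β₁ := by
      rcases hd' with h1 | h1
      · exact h1
      · refine h1.trans (le_trans ?_ hh)
        apply mul_le_mul_of_nonneg_left _ (by positivity)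
        have : 30 * u * (U.card : ℝ) ≤ 30 * u * V.card :=
          mul_le_mul_of_nonneg_left hUV' (by positivity)
        linarith
    -- the size of `W`
    have hW2 : 2 * W.card ≤ U.card := by
      rcases he with h1 | h1
      · rw [h1]; simp
      · have h2 : 24 * (ρ₀ : ℝ) ≤ 823 * (u * U.card) := by
          have huU : 0 < u * (U.card : ℝ) := by positivity
          linarith
        have h3 : (W.card : ℝ) ≤ (480 * (h : ℝ) + 823) * u * U.card := by
          have : (0 : ℝ) ≤ ρ := Nat.cast_nonneg _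
          have e : (480 * (h : ℝ) + 823) * u * U.card =
            480 * u * U.card * h + 823 * (u * U.card) := by ring
          rw [e]
          linarith
        have h4 : (480 * (h : ℝ) + 823) * u * U.card ≤ 1 / 2 * U.card :=
          mul_le_mul_of_nonneg_right hhu hUpos.le
        have h5 : (2 : ℝ) * W.card ≤ U.card := by linarith
        exact_mod_cast h5
    -- a point at which many elements agree
    obtain ⟨N, hN⟩ : ∃ N : ℕ, N = (univ : Finset (∀ i, K i)).sup fun c =>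
      (Ω₂.filter fun x => dif (U \ W) x c = 0).card := ⟨_, rfl⟩
    have hNle : ∀ c, (Ω₂.filter fun x => dif (U \ W) x c = 0).card ≤ N := fun c => by
      rw [hN]
      exact le_sup (f := fun c => (Ω₂.filter fun x => dif (U \ W) x c = 0).card) (mem_univ c)
    obtain ⟨c, hcN⟩ : ∃ c, (Ω₂.filter fun x => dif (U \ W) x c = 0).card = N := by
      obtain ⟨x, hx⟩ := hΩne
      obtain ⟨c, _, hc⟩ := exists_mem_eq_sup (univ : Finset (∀ i, K i)) ⟨x, mem_univ _⟩
        fun c => (Ω₂.filter fun x => dif (U \ W) x c = 0).card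
      exact ⟨c, by rw [hN]; exact hc.symm⟩
    refine ⟨W, c, hWU, hW2, ?_⟩
    have h1 := hE9 ι K Ω₂ (U \ W) c₀ Z ⌊8 * β₁⌋₊ N (by omega) hKZ hNle
    have h2 : (Ω₂.filter fun x => dif (U \ W) x c₀ ≤ ⌊8 * β₁⌋₊) = Ω₂ := by
      apply filter_true_of_mem
      intro x hx
      exact (hc x hx).trans (Nat.le_floor hρ8)
    rw [h2] at h1
    have h3 : (Ω₂.card : ℝ) ≤ (((V.card : ℝ) + 1) * Z) ^ ⌊8 * β₁⌋₊ * N := by
      have h4 : (Ω₂.card : ℝ) ≤ ((((U \ W).card : ℝ) + 1) * Z) ^ ⌊8 * β₁⌋₊ * N := by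
        exact_mod_cast h1
      refine h4.trans (mul_le_mul_of_nonneg_right ?_ (Nat.cast_nonneg _))
      apply pow_le_pow_left₀ (by positivity)
      apply mul_le_mul_of_nonneg_right _ (by positivity)
      have : ((U \ W).card : ℝ) ≤ U.card := by
        exact_mod_cast card_le_card sdiff_subset
      linarith
    have h5 : (((V.card : ℝ) + 1) * Z) ^ ⌊8 * β₁⌋₊ ≤ Real.exp (8 * β₁ * Lz) := by
      have h6 : ((V.card : ℝ) + 1) * Z = Real.exp Lz := by
        rw [hLz, Real.exp_log (by linarith)]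
      rw [h6, ← Real.exp_nat_mul]
      apply Real.exp_le_exp.2
      apply mul_le_mul_of_nonneg_right _ hLz0.le
      exact Nat.floor_le (by positivity)
    have h7 : (Ω₂.card : ℝ) ≤ Real.exp (8 * β₁ * Lz) * N :=
      h3.trans (mul_le_mul_of_nonneg_right h5 (Nat.cast_nonneg _))
    have h8 : (N : ℝ) ≤ ((Ω₁.filter fun x => dif (U \ W) x c = 0).card : ℝ) := by
      rw [← hcN]
      exact_mod_cast card_le_card (filter_subset_filter _ hΩ₂)
    have e : Real.exp (-(β + (4 * β + 5) * h + 8 * β₁ * Lz)) =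
        Real.exp (-(β + (4 * β + 5) * (h : ℝ))) * Real.exp (-(8 * β₁ * Lz)) := by
      rw [← Real.exp_add]
      congr 1
      ring
    calc (Ω₁.card : ℝ) * Real.exp (-(β + (4 * β + 5) * h + 8 * β₁ * Lz))
        = Ω₁.card * Real.exp (-(β + (4 * β + 5) * (h : ℝ))) * Real.exp (-(8 * β₁ * Lz)) := by
          rw [e]
          ring
      _ ≤ Ω₂.card * Real.exp (-(8 * β₁ * Lz)) :=
          mul_le_mul_of_nonneg_right hb (Real.exp_pos _).le
      _ ≤ Real.exp (8 * β₁ * Lz) * N * Real.exp (-(8 * β₁ * Lz)) :=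
          mul_le_mul_of_nonneg_right h7 (Real.exp_pos _).le
      _ = N := by
          rw [mul_comm (Real.exp (8 * β₁ * Lz)) (N : ℝ), mul_assoc, ← Real.exp_add]
          simp
      _ ≤ _ := h8

end Pool.Agent.Work.MP_e0aece_nt.Lg

end

section

/-!
# L14: the spectrum of a maximal state
-/

namespace Pool.Agent.Work.MP_e0aece_nt.Lg

open Finset Sq Eps

namespace ItemL14

/-- comparison of the exponents -/
theorem num (J h β q L L' : ℝ) (hJ : 0 ≤ J) (hh : 0 ≤ h) (hβ : 6 ≤ β) (hq : 0 ≤ q)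
    (hL : L ≤ L') :
    J * (β + (4 * β + 5) * h + 8 * (12 * q * β) * L) ≤
      β * (J * (1 + 5 * h + 96 * q * L')) := by
  have h1 : (4 * β + 5) * h ≤ 5 * β * h := mul_le_mul_of_nonneg_right (by linarith) hh
  have h2 : 8 * (12 * q * β) * L ≤ 8 * (12 * q * β) * L' :=
    mul_le_mul_of_nonneg_left hL (by positivity)
  have h3 : β * (J * (1 + 5 * h + 96 * q * L')) =
      J * (β + 5 * β * h + 8 * (12 * q * β) * L') := by ring
  rw [h3]
  exact mul_le_mul_of_nonneg_left (by linarith) hJ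

end ItemL14

theorem claimL14 (hE4 : ClaimE4) (hE5 : ClaimE5) (hE7 : ClaimE7)
    (hL12 : ClaimL12) (hE13 : ClaimE13) : ClaimL14 := by
  classical
  intro ι _ _ H _ _ g lam m y Z h J s u C B I w a P hZ hH hPR hm hmM hu0 huh hy hh hJ hMx hB hs1
    hs2 hP
  have hh0 : (0 : ℝ) ≤ h := Nat.cast_nonneg h
  have hu : u ≤ 1 / 1000 := by nlinarith [mul_nonneg hh0 hu0.le]
  have hS0 : 0 < ∑ A, w A := ItemE14.sum_pos hMx.1
  have hmr : (100 : ℝ) ≤ m := by exact_mod_cast hm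
  have hmMr : 20 * (m : ℝ) ≤ Fintype.card ι := by exact_mod_cast hmM
  obtain ⟨n1, n2, n3⟩ := ItemE14.num1 m y u hmr (Nat.cast_nonneg y) hu0 hu hy
  have hM0 : (0 : ℝ) < Fintype.card ι := by linarith
  have hM1 : (1 : ℝ) ≤ Fintype.card ι := by linarith
  have hZr : (2 : ℝ) ≤ Z := by exact_mod_cast hZ
  have hlogMZ : 0 ≤ Real.log (((Fintype.card ι : ℝ) + 1) * Z) := Real.log_nonneg (by nlinarith)
  have hJ1 : 1 ≤ J := by
    by_contra hcon
    have hJ0 : J = 0 := by omega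
    rw [hJ0, pow_zero] at hJ
    have : 20 * m ≤ 0 := by omega
    omega
  have hJr : (1 : ℝ) ≤ J := by exact_mod_cast hJ1
  have hS1 : 1 ≤ (J : ℝ) * (1 + 5 * (h : ℝ) +
      96 * ((Fintype.card ι : ℝ) / m) * Real.log (((Fintype.card ι : ℝ) + 1) * Z)) := by
    have h2 : 1 ≤ 1 + 5 * (h : ℝ) + 96 * ((Fintype.card ι : ℝ) / m) *
        Real.log (((Fintype.card ι : ℝ) + 1) * Z) := by
      have : 0 ≤ 96 * ((Fintype.card ι : ℝ) / m) * Real.log (((Fintype.card ι : ℝ) + 1) * Z) := by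
        positivity
      linarith
    exact one_le_mul_of_one_le_of_one_le hJr h2
  have main := hE13 (∀ i, AddChar (H i) ℂ) P (fun σ => ‖hat g w σ‖ / ∑ A, w A)
    ((Fintype.card ι : ℝ) * Real.log Z) _ (m / 20) s hS1 hs1 (by positivity) (by linarith)
    ?_ (ItemE14.card_P P Z hZ hH) ?_
  · -- conclusion
    have h1 : ∑ σ ∈ P, ‖hat g w σ‖ ^ s =
        (∑ σ ∈ P, (‖hat g w σ‖ / ∑ A, w A) ^ s) * (∑ A, w A) ^ s := by
      rw [Finset.sum_mul]
      apply Finset.sum_congr rfl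
      intro σ _
      rw [← mul_pow, div_mul_cancel₀ _ hS0.ne']
    rw [h1]
    exact mul_le_mul_of_nonneg_right main (by positivity)
  · intro σ hσ
    obtain ⟨p1, p2, p3⟩ := hP σ hσ
    refine ⟨by positivity, ?_⟩
    rw [div_le_iff₀ hS0]
    exact hE4 ι H g lam m (y * Real.log 2) u C B I w a σ hPR hMx hB n3 hu0 (by linarith) n1 p1 p2 p3
  · intro b hb1 hb2 P' hP' hf
    have hb0 : 0 < b := by linarith
    have hVM : (univ \ B).card ≤ Fintype.card ι := Finset.card_le_univ _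
    have hVMr : (((univ \ B).card : ℕ) : ℝ) ≤ Fintype.card ι := by exact_mod_cast hVM
    have hspec : ∀ σ ∈ P', InSpec g lam B w b σ := by
      intro σ hσ
      obtain ⟨p1, p2, p3⟩ := hP σ (hP' hσ)
      refine ⟨p1, p2, ?_⟩
      have := hf σ hσ
      rwa [le_div_iff₀ hS0] at this
    have hNE := hE7 ι (fun i => AddChar (H i) ℂ) P' (univ \ B) (Fintype.card ι) m u b hb0 hu0
      (by linarith) hm (by omega) hVM ?_
    · obtain ⟨q1, q2, q3⟩ := ItemE14.num3 (Fintype.card ι) m b u (((univ \ B).card : ℕ) : ℝ)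
        hmr hmMr hb1 hb2 hu0 hu (Nat.cast_nonneg _) hVMr
      have hball : (11 / 12 : ℝ) ^ h * (30 * u * (((univ \ B).card : ℕ) : ℝ) +
          12 * ((Fintype.card ι : ℝ) / m) * (8 * b + 6)) ≤
          8 * (12 * ((Fintype.card ι : ℝ) / m) * (8 * b + 6)) := by
        have e1 : (11 / 12 : ℝ) ^ h * (30 * u * (((univ \ B).card : ℕ) : ℝ) +
          12 * ((Fintype.card ι : ℝ) / m) * (8 * b + 6)) ≤
            (11 / 12 : ℝ) ^ h * (6 * (Fintype.card ι : ℝ)) :=
          mul_le_mul_of_nonneg_left q3 (by positivity)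
        linarith
      have h12 := hL12 ι (fun i => AddChar (H i) ℂ) P' (univ \ B) Z h J u (8 * b + 6)
        (12 * ((Fintype.card ι : ℝ) / m) * (8 * b + 6)) (m / (6 * b)) hZ
        (fun i => by rw [ItemE14.card_char i]; exact hH i) hu0 huh (by linarith) q1 hNE q2 hball
        (lt_of_le_of_lt hVM hJ) ?_
      · refine h12.trans ?_
        apply Real.exp_le_exp.mpr
        apply ItemL14.num _ _ _ _ _ _ (by linarith) hh0 (by linarith) (by positivity)
        apply Real.log_le_log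
        · have : (0 : ℝ) ≤ (((univ \ B).card : ℕ) : ℝ) := Nat.cast_nonneg _
          nlinarith
        · have : (0 : ℝ) ≤ (((univ \ B).card : ℕ) : ℝ) := Nat.cast_nonneg _
          nlinarith
      · intro x hx z hz hxz
        have hx2 := (hP x (hP' hx)).2.1
        have hz2 := (hP z (hP' hz)).2.1
        funext i
        by_cases hi : i ∈ B
        · rw [hx2 i hi, hz2 i hi]
        · by_contra hne
          unfold dif at hxz
          rw [Finset.card_eq_zero, Finset.filter_eq_empty_iff] at hxz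
          exact hxz (by simp [hi]) hne
    · intro Ω' hΩ' hne k hk hkb T hT hTne hTm
      have hTr : 2 * (T.card : ℝ) ≤ m := by exact_mod_cast hTm
      have huT : u * T.card ≤ m / 2000 := by
        have : (0 : ℝ) ≤ T.card := Nat.cast_nonneg _
        calc u * T.card ≤ 1 / 1000 * (m / 2) := mul_le_mul hu (by linarith) this (by norm_num)
          _ = m / 2000 := by ring
      have hdis : Disjoint T B := by
        rw [Finset.disjoint_left]
        intro i hi hiB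
        have := hT hi
        rw [Finset.mem_sdiff] at this
        exact this.2 hiB
      have n4 := ItemE14.num2 m (k * b) (u * T.card) (y * Real.log 2) hmr n2 (by linarith) huT
      exact hE5 ι H g lam m (y * Real.log 2) u C B I w a b Ω' k T hPR hMx hB n3 hu0 hb0.le hne
        (fun σ hσ => hspec σ (hΩ' hσ)) hk hTne hdis hTm (by linarith)

end Pool.Agent.Work.MP_e0aece_nt.Lg

end

section

/-! Item L3: many light tuples. -/

namespace Pool.Agent.Work.MP_e0aece_nt.Lg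

open Finset Eps

namespace ItemL3

theorem log_step (t : ℕ) : Real.log (((t : ℝ) + 1 + 1) / (t + 1)) ≤ 1 / ((t : ℝ) + 1) := by
  have h1 : (0 : ℝ) < (t : ℝ) + 1 := by positivity
  have h2 := Real.log_le_sub_one_of_pos (x := ((t : ℝ) + 1 + 1) / (t + 1)) (by positivity)
  refine h2.trans (le_of_eq ?_)
  field_simp
  ring

theorem sum_inv (s n : ℕ) :
    Real.log (((s + n : ℕ) + 1 : ℝ) / (s + 1)) ≤
      ∑ t ∈ Finset.Ico s (s + n), 1 / ((t : ℝ) + 1) := by
  induction n with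
  | zero => simp
  | succ n ih =>
    rw [← add_assoc, Finset.sum_Ico_succ_top (by omega)]
    have h1 : (0 : ℝ) < (s : ℝ) + 1 := by positivity
    have h2 : (0 : ℝ) < ((s + n : ℕ) : ℝ) + 1 := by positivity
    have e : (((s + n + 1 : ℕ) : ℝ) + 1) / (s + 1) =
        (((s + n : ℕ) : ℝ) + 1) / (s + 1) * ((((s + n : ℕ) : ℝ) + 1 + 1) / (((s + n : ℕ) : ℝ) + 1)) := by
      field_simp
      push_cast
      ring
    rw [e, Real.log_mul (by positivity) (by positivity)]
    exact add_le_add ih (log_step (s + n))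

theorem telesc (f : ℕ → ℝ) (s n : ℕ) :
    ∑ t ∈ Finset.Ico s (s + n), (f t - f (t + 1) + 1) = f s - f (s + n) + n := by
  induction n with
  | zero => simp
  | succ n ih =>
    rw [← add_assoc, Finset.sum_Ico_succ_top (by omega), ih]
    push_cast
    ring

end ItemL3

open ItemL3 in
open Classical in
theorem claimL3 (hL3a : ClaimL3a) (hL3b : ClaimL3b) (hL3c : ClaimL3c) (hL3d : ClaimL3d) :
    ClaimL3 := by
  intro G Ω _ _ _ _ gg w lam s T Θ W hw hN hΘ hwW heq hsT hlog hTW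
  set N : ℝ := ∑ a, w a with hNdef
  set n0 : ℝ := ((univ.filter fun y : G => lam • y = 0).card : ℝ) with hn0
  have hn0pos : 1 ≤ n0 := by
    rw [hn0]
    have : 0 < (univ.filter fun y : G => lam • y = 0).card :=
      Finset.card_pos.2 ⟨0, by simp⟩
    exact_mod_cast this
  have hwt : ∀ t : ℕ, ∀ p : Fin t → Ω, 0 ≤ ∏ k, w (p k) :=
    fun t p => Finset.prod_nonneg (fun k _ => hw _)
  have hlΘ : 0 < Real.log Θ := Real.log_pos hΘ
  have hrr : ∀ (t : ℕ) (x : G), 0 ≤ rr gg w t x := by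
    intro t x
    unfold rr
    apply Finset.sum_nonneg
    intro p _
    split_ifs
    · exact hwt t p
    · exact le_rfl
  -- a scale with few heavy tuples
  obtain ⟨t, hst, htT, hheavy⟩ : ∃ t : ℕ, s ≤ t ∧ t < T ∧
      ∑ p ∈ univ.filter (fun p : Fin (t + 1) → Ω => ∃ k,
        Θ * rr gg w (t + 1) (∑ j, gg (p j)) <
          rr gg w t (∑ j, gg (p j) - gg (p k)) * ∑ a, w a), ∏ k, w (p k) ≤ N ^ (t + 1) / 2 := by
    by_contra hcon
    push Not at hcon
    have hstep : ∀ t ∈ Finset.Ico s T, Real.log Θ / 2 * (1 / ((t : ℝ) + 1)) <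
        DD gg w t - DD gg w (t + 1) + 1 := by
      intro t ht
      rw [Finset.mem_Ico] at ht
      have h1 := hcon t ht.1 ht.2
      have h2 := hL3c G Ω gg w Θ t hw
      have h3 := hL3a G Ω gg w Θ t hw hN hΘ
      rw [← hNdef] at h3
      have h4 : N ^ (t + 1) / 2 < (t + 1) * HH gg w Θ t := lt_of_lt_of_le h1 h2
      have ht1 : (0 : ℝ) < (t : ℝ) + 1 := by positivity
      have hNp : 0 < N ^ (t + 1) := by positivity
      have h5 : N ^ (t + 1) * (Real.log Θ / 2 * (1 / ((t : ℝ) + 1))) <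
          N ^ (t + 1) * (DD gg w t - DD gg w (t + 1) + 1) := by
        refine lt_of_lt_of_le ?_ h3
        have h6 : N ^ (t + 1) / 2 / ((t : ℝ) + 1) < HH gg w Θ t := by
          rw [div_lt_iff₀ ht1]
          linarith
        calc N ^ (t + 1) * (Real.log Θ / 2 * (1 / ((t : ℝ) + 1)))
            = (N ^ (t + 1) / 2 / ((t : ℝ) + 1)) * Real.log Θ := by ring
          _ < HH gg w Θ t * Real.log Θ := mul_lt_mul_of_pos_right h6 hlΘ
      exact lt_of_mul_lt_mul_left h5 hNp.le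
    have hsum := Finset.sum_lt_sum_of_nonempty (Finset.nonempty_Ico.2 hsT) hstep
    obtain ⟨n, rfl⟩ : ∃ n, T = s + n := ⟨T - s, by omega⟩
    rw [telesc, ← Finset.mul_sum] at hsum
    have h7 := sum_inv s n
    have h8 : DD gg w s ≤ Real.log (3 / 2 * n0) := by
      refine (hL3b G Ω gg w s (3 / 2 * n0) hw hN (by positivity)).2 ?_
      intro x
      refine le_trans ?_ ((heq x).trans (le_of_eq (by ring)))
      apply mul_le_mul_of_nonneg_left _ (Nat.cast_nonneg _)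
      exact Finset.single_le_sum (f := fun y => rr gg w s y) (fun y _ => hrr s y)
        (by simp : x ∈ univ.filter (fun y => lam • y = lam • x))
    have h9 : 0 ≤ DD gg w (s + n) := (hL3b G Ω gg w (s + n) 1 hw hN one_pos).1
    have h10 : Real.log Θ / 2 * Real.log ((((s + n : ℕ) : ℝ) + 1) / (s + 1)) ≤
        Real.log Θ / 2 * ∑ t ∈ Finset.Ico s (s + n), 1 / ((t : ℝ) + 1) :=
      mul_le_mul_of_nonneg_left h7 (by positivity)
    have h11 : (n : ℝ) ≤ ((s + n : ℕ) : ℝ) := by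
      exact_mod_cast Nat.le_add_left n s
    linarith
  refine ⟨t + 1, by omega, by omega, ?_⟩
  -- non injective tuples
  have hTt : ((t + 1 : ℕ) : ℝ) ≤ T := by exact_mod_cast htT
  have ht0 : (0 : ℝ) < ((t + 1 : ℕ) : ℝ) := by exact_mod_cast Nat.succ_pos t
  have hsq : ((t + 1 : ℕ) : ℝ) ^ 2 ≤ (T : ℝ) ^ 2 := pow_le_pow_left₀ ht0.le hTt 2
  have hW : 0 < W := by
    have : (0 : ℝ) < ((t + 1 : ℕ) : ℝ) ^ 2 := by positivity
    linarith
  have hNp : 0 < N ^ (t + 1) := by positivity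
  have hni := hL3d Ω w W (t + 1) hw hN hW hwW
  rw [← hNdef] at hni
  set NI := ∑ p ∈ univ.filter (fun p : Fin (t + 1) → Ω => ¬ Function.Injective p),
    ∏ k, w (p k) with hNI
  have hNI' : NI ≤ N ^ (t + 1) / 8 := by
    have h1 : W * NI ≤ W * (N ^ (t + 1) / 8) := by
      refine hni.trans ?_
      have h2 : ((t + 1 : ℕ) : ℝ) ^ 2 / 2 ≤ W / 8 := by linarith
      calc ((t + 1 : ℕ) : ℝ) ^ 2 / 2 * N ^ (t + 1) ≤ W / 8 * N ^ (t + 1) :=
            mul_le_mul_of_nonneg_right h2 hNp.le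
        _ = W * (N ^ (t + 1) / 8) := by ring
    exact le_of_mul_le_mul_left h1 hW
  have htotal : N ^ (t + 1) = ∑ p : Fin (t + 1) → Ω, ∏ k, w (p k) := by
    rw [hNdef, Fintype.sum_pow]
  have hsplit : ∑ p : Fin (t + 1) → Ω, ∏ k, w (p k) ≤
      (∑ p ∈ univ.filter (fun p : Fin (t + 1) → Ω => Light gg w Θ (t + 1) p), ∏ k, w (p k)) +
      (∑ p ∈ univ.filter (fun p : Fin (t + 1) → Ω => ∃ k,
        Θ * rr gg w (t + 1) (∑ j, gg (p j)) <
          rr gg w t (∑ j, gg (p j) - gg (p k)) * ∑ a, w a), ∏ k, w (p k)) + NI := by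
    rw [hNI, Finset.sum_filter, Finset.sum_filter, Finset.sum_filter, ← Finset.sum_add_distrib,
      ← Finset.sum_add_distrib]
    apply Finset.sum_le_sum
    intro p _
    have h0 := hwt (t + 1) p
    by_cases hinj : Function.Injective p
    · by_cases hh : ∃ k, Θ * rr gg w (t + 1) (∑ j, gg (p j)) <
          rr gg w t (∑ j, gg (p j) - gg (p k)) * ∑ a, w a
      · rw [if_pos hh]
        have h1 : (0 : ℝ) ≤ if Light gg w Θ (t + 1) p then ∏ k, w (p k) else 0 := by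
          split_ifs
          · exact h0
          · exact le_rfl
        have h2 : (0 : ℝ) ≤ if ¬ Function.Injective p then ∏ k, w (p k) else 0 := by
          rw [if_neg (not_not.2 hinj)]
        linarith
      · have hL : Light gg w Θ (t + 1) p := by
          refine ⟨hinj, fun k => ?_⟩
          by_contra hk
          push Not at hk
          exact hh ⟨k, hk⟩
        rw [if_pos hL, if_neg hh, if_neg (not_not.2 hinj)]
        linarith
    · rw [if_pos hinj]
      have h1 : (0 : ℝ) ≤ if Light gg w Θ (t + 1) p then ∏ k, w (p k) else 0 := by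
        split_ifs
        · exact h0
        · exact le_rfl
      have h2 : (0 : ℝ) ≤ if (∃ k, Θ * rr gg w (t + 1) (∑ j, gg (p j)) <
          rr gg w t (∑ j, gg (p j) - gg (p k)) * ∑ a, w a) then ∏ k, w (p k) else 0 := by
        split_ifs
        · exact h0
        · exact le_rfl
      linarith
  rw [← htotal] at hsplit
  have hL0 : 0 ≤ ∑ p ∈ univ.filter (fun p : Fin (t + 1) → Ω => Light gg w Θ (t + 1) p),
      ∏ k, w (p k) := Finset.sum_nonneg fun p _ => hwt (t + 1) p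
  linarith

end Pool.Agent.Work.MP_e0aece_nt.Lg

end

section

set_option autoImplicit false

/-!
# L3a: large steps use up relative entropy
-/

namespace Pool.Agent.Work.MP_e0aece_nt.Lg

open Finset Sq Eps

namespace ItemL3a

variable {G Ω : Type} [AddCommGroup G] [Fintype G] [DecidableEq G] [Fintype Ω]

omit [Fintype G] in
theorem rr_succ (gg : Ω → G) (w : Ω → ℝ) (t : ℕ) (z : G) :
    rr gg w (t + 1) z = ∑ a, w a * rr gg w t (z - gg a) := by
  unfold rr
  rw [← (Fin.consEquiv fun _ : Fin (t + 1) => Ω).sum_comp, Fintype.sum_prod_type]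
  refine Finset.sum_congr rfl fun a _ => ?_
  rw [Finset.mul_sum]
  refine Finset.sum_congr rfl fun p _ => ?_
  simp only [Fin.consEquiv, Equiv.coe_fn_mk, Fin.sum_univ_succ, Fin.prod_univ_succ, Fin.cons_zero,
    Fin.cons_succ]
  have h : (gg a + ∑ k, gg (p k) = z) ↔ (∑ k, gg (p k) = z - gg a) := by
    rw [eq_sub_iff_add_eq, add_comm]
  simp only [h]
  split_ifs <;> ring

omit [Fintype G] in
theorem rr_nonneg' (gg : Ω → G) (w : Ω → ℝ) (hw : ∀ a, 0 ≤ w a) (t : ℕ) (x : G) :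
    0 ≤ rr gg w t x := by
  unfold rr
  refine Finset.sum_nonneg fun p _ => ?_
  split_ifs
  · exact Finset.prod_nonneg fun k _ => hw _
  · exact le_rfl

theorem rr_total (gg : Ω → G) (w : Ω → ℝ) (t : ℕ) :
    ∑ x : G, rr gg w t x = (∑ a, w a) ^ t := by
  induction t with
  | zero =>
    unfold rr
    simp
  | succ t ih =>
    simp only [rr_succ]
    rw [Finset.sum_comm, pow_succ', Finset.sum_mul]
    refine Finset.sum_congr rfl fun a _ => ?_
    rw [← Finset.mul_sum, ← ih]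
    congr 1
    exact Equiv.sum_comp (Equiv.subRight (gg a)) (fun x => rr gg w t x)

theorem point {Θ r : ℝ} (hΘ : 1 < Θ) (hr : 0 < r) :
    (if Θ < r then Real.log Θ else 0) ≤ Real.log r + 1 / r := by
  have h0 : 0 < 1 / r := by positivity
  split_ifs with h
  · have := Real.log_le_log (by linarith) h.le
    linarith
  · have := Real.one_sub_inv_le_log_of_pos hr
    rw [one_div]
    linarith

/-- the abstract inequality, pointwise -/
theorem point2 {Θ n x y q : ℝ} (hΘ : 1 < Θ) (hn : 0 < n) (hx : 0 ≤ x) (hq : 0 ≤ q)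
    (hy : q * x ≤ y) :
    (if Θ * y < x then x * q else 0) * Real.log Θ ≤
      x * q * Real.log (n * x) - x * q * Real.log (n * y) + q * y := by
  have hy0 : 0 ≤ y := le_trans (mul_nonneg hq hx) hy
  rcases hx.eq_or_lt with hx0 | hx0
  · rw [← hx0]
    simp only [zero_mul, ite_self, sub_self, zero_add]
    positivity
  rcases hq.eq_or_lt with hq0 | hq0
  · rw [← hq0]
    simp
  have hyp : 0 < y := lt_of_lt_of_le (mul_pos hq0 hx0) hy
  have hr : 0 < x / y := div_pos hx0 hyp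
  have h1 := point hΘ hr
  have h2 : Real.log (n * x) - Real.log (n * y) = Real.log (x / y) := by
    rw [Real.log_mul hn.ne' hx0.ne', Real.log_mul hn.ne' hyp.ne', Real.log_div hx0.ne' hyp.ne']
    ring
  have h3 : (Θ * y < x) ↔ (Θ < x / y) := (lt_div_iff₀ hyp).symm
  have h4 : (if Θ * y < x then x * q else 0) * Real.log Θ =
      x * q * (if Θ < x / y then Real.log Θ else 0) := by
    simp only [h3]
    split_ifs <;> ring
  have h5 : x * q * (1 / (x / y)) = q * y := by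
    field_simp
  calc (if Θ * y < x then x * q else 0) * Real.log Θ
      = x * q * (if Θ < x / y then Real.log Θ else 0) := h4
    _ ≤ x * q * (Real.log (x / y) + 1 / (x / y)) :=
        mul_le_mul_of_nonneg_left h1 (by positivity)
    _ = x * q * (Real.log (n * x) - Real.log (n * y)) + x * q * (1 / (x / y)) := by
        rw [h2]; ring
    _ = _ := by rw [h5]; ring

omit [DecidableEq G] in
/-- the abstract inequality -/
theorem abs_ineq (gg : Ω → G) (ρ ρ' : G → ℝ) (q : Ω → ℝ) (Θ n : ℝ) (hΘ : 1 < Θ) (hn : 0 < n)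
    (hρ : ∀ x, 0 ≤ ρ x) (hq : ∀ a, 0 ≤ q a) (hq1 : ∑ a, q a = 1) (hρ1 : ∑ x, ρ' x = 1)
    (hrec : ∀ z, ρ' z = ∑ a, q a * ρ (z - gg a)) :
    (∑ x, ∑ a, if Θ * ρ' (x + gg a) < ρ x then ρ x * q a else 0) * Real.log Θ ≤
      ∑ x, ρ x * Real.log (n * ρ x) - ∑ x, ρ' x * Real.log (n * ρ' x) + 1 := by
  have hle : ∀ x a, q a * ρ x ≤ ρ' (x + gg a) := by
    intro x a
    rw [hrec]
    have h1 := Finset.single_le_sum (f := fun b => q b * ρ (x + gg a - gg b))
      (fun b _ => mul_nonneg (hq b) (hρ _)) (Finset.mem_univ a)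
    simpa using h1
  have e1 : ∑ x, ρ x * Real.log (n * ρ x) = ∑ x, ∑ a, ρ x * q a * Real.log (n * ρ x) := by
    refine Finset.sum_congr rfl fun x _ => ?_
    have : ∀ a, ρ x * q a * Real.log (n * ρ x) = (ρ x * Real.log (n * ρ x)) * q a := by
      intro a; ring
    simp only [this]
    rw [← Finset.mul_sum, hq1, mul_one]
  have e2 : ∑ x, ρ' x * Real.log (n * ρ' x) =
      ∑ x, ∑ a, ρ x * q a * Real.log (n * ρ' (x + gg a)) := by
    rw [Finset.sum_comm]
    have h1 : ∀ a, ∑ x, ρ x * q a * Real.log (n * ρ' (x + gg a)) =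
        ∑ z, ρ (z - gg a) * q a * Real.log (n * ρ' z) := by
      intro a
      rw [← Equiv.sum_comp (Equiv.addRight (gg a))
        (fun z => ρ (z - gg a) * q a * Real.log (n * ρ' z))]
      refine Finset.sum_congr rfl fun x _ => ?_
      simp
    simp only [h1]
    rw [Finset.sum_comm]
    refine Finset.sum_congr rfl fun z _ => ?_
    rw [← Finset.sum_mul]
    congr 1
    rw [hrec]
    refine Finset.sum_congr rfl fun a _ => ?_
    ring
  have e3 : (1 : ℝ) = ∑ x, ∑ a, q a * ρ' (x + gg a) := by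
    rw [Finset.sum_comm]
    have h1 : ∀ a, ∑ x, q a * ρ' (x + gg a) = q a := by
      intro a
      rw [← Finset.mul_sum]
      have h2 := Equiv.sum_comp (Equiv.addRight (gg a)) (fun z => ρ' z)
      simp only [Equiv.coe_addRight] at h2
      rw [h2, hρ1, mul_one]
    simp only [h1]
    exact hq1.symm
  rw [e1, e2, e3, Finset.sum_mul, ← Finset.sum_sub_distrib, ← Finset.sum_add_distrib]
  refine Finset.sum_le_sum fun x _ => ?_
  rw [Finset.sum_mul, ← Finset.sum_sub_distrib, ← Finset.sum_add_distrib]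
  refine Finset.sum_le_sum fun a _ => ?_
  exact point2 hΘ hn (hρ x) (hq a) (hle x a)

end ItemL3a

open ItemL3a in
theorem claimL3a : ClaimL3a := by
  classical
  intro G Ω _ _ _ _ gg w Θ t hw hN hΘ
  obtain ⟨N, hNe⟩ : ∃ N, N = ∑ a, w a := ⟨_, rfl⟩
  rw [← hNe] at hN
  have hNt : 0 < N ^ t := pow_pos hN t
  have hNt1 : 0 < N ^ (t + 1) := pow_pos hN (t + 1)
  have hn : (0 : ℝ) < (Fintype.card G : ℝ) := by
    have : 0 < Fintype.card G := Fintype.card_pos
    exact_mod_cast this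
  have hmain := abs_ineq gg (fun x => rr gg w t x / N ^ t) (fun x => rr gg w (t + 1) x / N ^ (t + 1))
    (fun a => w a / N) Θ (Fintype.card G) hΘ hn
    (fun x => div_nonneg (rr_nonneg' gg w hw t x) hNt.le) (fun a => div_nonneg (hw a) hN.le)
    (by rw [← Finset.sum_div, ← hNe, div_self hN.ne'])
    (by rw [← Finset.sum_div, rr_total, ← hNe, div_self hNt1.ne'])
    (by
      intro z
      rw [rr_succ, Finset.sum_div]
      refine Finset.sum_congr rfl fun a _ => ?_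
      rw [pow_succ]
      field_simp)
  have hH : HH gg w Θ t = N ^ (t + 1) * ∑ x, ∑ a,
      if Θ * (rr gg w (t + 1) (x + gg a) / N ^ (t + 1)) < rr gg w t x / N ^ t then
        rr gg w t x / N ^ t * (w a / N) else 0 := by
    unfold HH
    rw [← hNe, Finset.mul_sum]
    refine Finset.sum_congr rfl fun x _ => ?_
    rw [Finset.mul_sum]
    refine Finset.sum_congr rfl fun a _ => ?_
    have h1 : (Θ * rr gg w (t + 1) (x + gg a) < rr gg w t x * N) ↔
        (Θ * (rr gg w (t + 1) (x + gg a) / N ^ (t + 1)) < rr gg w t x / N ^ t) := by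
      rw [← mul_div_assoc, div_lt_div_iff₀ hNt1 hNt, pow_succ]
      constructor
      · intro h
        have := mul_lt_mul_of_pos_right h hNt
        linarith
      · intro h
        have h2 : (Θ * rr gg w (t + 1) (x + gg a)) * N ^ t < (rr gg w t x * N) * N ^ t := by
          linarith
        exact lt_of_mul_lt_mul_right h2 hNt.le
    simp only [h1]
    split_ifs
    · rw [pow_succ]
      field_simp
    · ring
  rw [hH, ← hNe, mul_assoc]
  refine mul_le_mul_of_nonneg_left ?_ hNt1.le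
  unfold DD
  rw [← hNe]
  exact hmain

end Pool.Agent.Work.MP_e0aece_nt.Lg

end

section

namespace Pool.Agent.Work.MP_e0aece_nt.Lg

open Finset Sq Eps

open ItemF5a in
theorem claimL3b : ClaimL3b := by
  intro G Ω _ _ _ _ gg w t κ hw hN hκ
  set N := ∑ a, w a with hNdef
  have hNt : 0 < N ^ t := pow_pos hN t
  have hn : (0 : ℝ) < Fintype.card G := by
    have : 0 < Fintype.card G := Fintype.card_pos
    exact_mod_cast this
  have hρ0 : ∀ x : G, 0 ≤ rr gg w t x / N ^ t := fun x =>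
    div_nonneg (rr_nonneg gg w hw t x) hNt.le
  have hρ1 : ∑ x : G, rr gg w t x / N ^ t = 1 := by
    rw [← Finset.sum_div, sum_rr gg w t, ← hNdef, div_self hNt.ne']
  refine ⟨?_, fun h => ?_⟩
  · have h1 : ∀ x : G, rr gg w t x / N ^ t - 1 / (Fintype.card G : ℝ) ≤
        rr gg w t x / N ^ t * Real.log (Fintype.card G * (rr gg w t x / N ^ t)) := by
      intro x
      rcases (hρ0 x).eq_or_lt with h0 | h0
      · rw [← h0]
        have : (0 : ℝ) ≤ 1 / (Fintype.card G : ℝ) := by positivity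
        linarith
      · have h2 := Real.one_sub_inv_le_log_of_pos (mul_pos hn h0)
        have h3 := mul_le_mul_of_nonneg_left h2 h0.le
        refine le_trans (le_of_eq ?_) h3
        rw [mul_sub, mul_one, mul_inv, mul_comm ((Fintype.card G : ℝ)⁻¹), ← mul_assoc,
          mul_inv_cancel₀ h0.ne', one_mul, one_div]
    have h2 := Finset.sum_le_sum fun x (_ : x ∈ (univ : Finset G)) => h1 x
    rw [Finset.sum_sub_distrib, hρ1, Finset.sum_const, Finset.card_univ, nsmul_eq_mul,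
      mul_one_div_cancel hn.ne', sub_self] at h2
    exact h2
  · have h1 : ∀ x : G,
        rr gg w t x / N ^ t * Real.log (Fintype.card G * (rr gg w t x / N ^ t)) ≤
          rr gg w t x / N ^ t * Real.log κ := by
      intro x
      rcases (hρ0 x).eq_or_lt with h0 | h0
      · rw [← h0]; simp
      · refine mul_le_mul_of_nonneg_left (Real.log_le_log (mul_pos hn h0) ?_) h0.le
        rw [← mul_div_assoc, div_le_iff₀ hNt]
        exact h x
    have h2 := Finset.sum_le_sum fun x (_ : x ∈ (univ : Finset G)) => h1 x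
    rw [← Finset.sum_mul, hρ1, one_mul] at h2
    exact h2

end Pool.Agent.Work.MP_e0aece_nt.Lg

end

section

namespace Pool.Agent.Work.MP_e0aece_nt.Lg

open Finset Sq Eps

namespace ItemL3c

variable {G Ω : Type} [AddCommGroup G] [Fintype G] [DecidableEq G] [Fintype Ω]

theorem sum_insertNth {n : ℕ} (k : Fin (n + 1)) (Φ : (Fin (n + 1) → Ω) → ℝ) :
    ∑ p, Φ p = ∑ A, ∑ q : Fin n → Ω, Φ (k.insertNth A q) := by
  rw [← Fintype.sum_prod_type']
  exact (Fintype.sum_equiv (Fin.insertNthEquiv (fun _ => Ω) k) _ _ (fun _ => rfl)).symm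

open Classical in
theorem one_index (gg : Ω → G) (w : Ω → ℝ) (Θ : ℝ) (t : ℕ) (k : Fin (t + 1)) :
    ∑ p ∈ univ.filter (fun p : Fin (t + 1) → Ω =>
        Θ * rr gg w (t + 1) (∑ j, gg (p j)) <
          rr gg w t (∑ j, gg (p j) - gg (p k)) * ∑ a, w a), ∏ k, w (p k) =
      HH gg w Θ t := by
  rw [Finset.sum_filter, sum_insertNth k]
  unfold HH
  rw [Finset.sum_comm (s := (univ : Finset G))]
  have key : ∀ (a : Ω) (q : Fin t → Ω),
      (if Θ * rr gg w (t + 1) (∑ j, gg ((k.insertNth a q : Fin (t + 1) → Ω) j)) <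
          rr gg w t (∑ j, gg ((k.insertNth a q : Fin (t + 1) → Ω) j) -
            gg ((k.insertNth a q : Fin (t + 1) → Ω) k)) * ∑ b, w b then
        ∏ j, w ((k.insertNth a q : Fin (t + 1) → Ω) j) else 0) =
      ∑ x : G, if ∑ j, gg (q j) = x then
        (if Θ * rr gg w (t + 1) (x + gg a) < rr gg w t x * ∑ b, w b then
          (∏ j, w (q j)) * w a else 0) else 0 := by
    intro a q
    rw [Finset.sum_ite_eq]
    simp only [Finset.mem_univ, if_true]
    rw [Fin.sum_univ_succAbove _ k, Fin.prod_univ_succAbove _ k]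
    simp only [Fin.insertNth_apply_same, Fin.insertNth_apply_succAbove]
    rw [add_sub_cancel_left, add_comm (gg a), mul_comm (w a)]
  have h2 : ∀ a : Ω, (∑ q : Fin t → Ω,
      (if Θ * rr gg w (t + 1) (∑ j, gg ((k.insertNth a q : Fin (t + 1) → Ω) j)) <
          rr gg w t (∑ j, gg ((k.insertNth a q : Fin (t + 1) → Ω) j) -
            gg ((k.insertNth a q : Fin (t + 1) → Ω) k)) * ∑ b, w b then
        ∏ j, w ((k.insertNth a q : Fin (t + 1) → Ω) j) else 0)) =
      ∑ x : G, if Θ * rr gg w (t + 1) (x + gg a) < rr gg w t x * ∑ b, w b then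
        rr gg w t x * w a else 0 := by
    intro a
    rw [Finset.sum_congr rfl fun q _ => key a q, Finset.sum_comm]
    refine Finset.sum_congr rfl fun x _ => ?_
    by_cases h : Θ * rr gg w (t + 1) (x + gg a) < rr gg w t x * ∑ b, w b
    · simp only [h, if_true]
      unfold rr
      rw [Finset.sum_mul]
      refine Finset.sum_congr rfl fun q _ => ?_
      split_ifs <;> simp
    · simp only [h, if_false]
      simp
  exact Finset.sum_congr rfl fun a _ => h2 a

end ItemL3c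

open ItemL3c in
open Classical in
theorem claimL3c : ClaimL3c := by
  intro G Ω _ _ _ _ gg w Θ t hw
  have h1 : ∑ p ∈ univ.filter (fun p : Fin (t + 1) → Ω => ∃ k,
        Θ * rr gg w (t + 1) (∑ j, gg (p j)) <
          rr gg w t (∑ j, gg (p j) - gg (p k)) * ∑ a, w a), ∏ k, w (p k) ≤
      ∑ k : Fin (t + 1), ∑ p ∈ univ.filter (fun p : Fin (t + 1) → Ω =>
        Θ * rr gg w (t + 1) (∑ j, gg (p j)) <
          rr gg w t (∑ j, gg (p j) - gg (p k)) * ∑ a, w a), ∏ k, w (p k) := by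
    simp only [Finset.sum_filter]
    rw [Finset.sum_comm]
    refine Finset.sum_le_sum fun p _ => ?_
    have hnn : 0 ≤ ∏ k, w (p k) := Finset.prod_nonneg fun k _ => hw _
    split_ifs with h
    · obtain ⟨k, hk⟩ := h
      refine le_trans ?_ (Finset.single_le_sum (f := fun k : Fin (t + 1) =>
        if Θ * rr gg w (t + 1) (∑ j, gg (p j)) <
          rr gg w t (∑ j, gg (p j) - gg (p k)) * ∑ a, w a then ∏ k, w (p k) else 0)
        (fun i _ => ?_) (Finset.mem_univ k))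
      · simp only [hk, if_true]
        exact le_rfl
      · split_ifs
        · exact hnn
        · exact le_rfl
    · refine Finset.sum_nonneg fun i _ => ?_
      split_ifs
      · exact hnn
      · exact le_rfl
  refine le_trans h1 (le_of_eq ?_)
  rw [Finset.sum_congr rfl fun k _ => one_index gg w Θ t k, Finset.sum_const, Finset.card_univ,
    Fintype.card_fin, nsmul_eq_mul]
  push_cast
  ring

end Pool.Agent.Work.MP_e0aece_nt.Lg

end

section

/-! Item L4: a light tuple that avoids a given set. -/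

namespace Pool.Agent.Work.MP_e0aece_nt.Lg

open Finset Eps

namespace ItemL4

variable {G Ω : Type} [AddCommGroup G] [DecidableEq G] [Fintype Ω]

theorem sum_insertNth {n : ℕ} (k : Fin (n + 1)) (Φ : (Fin (n + 1) → Ω) → ℝ) :
    ∑ p, Φ p = ∑ A, ∑ q : Fin n → Ω, Φ (k.insertNth A q) := by
  rw [← Fintype.sum_prod_type']
  exact (Fintype.sum_equiv (Fin.insertNthEquiv (fun _ => Ω) k) _ _ (fun _ => rfl)).symm

open Classical in
theorem fix_one (gg : Ω → G) (w : Ω → ℝ) {n : ℕ} (k : Fin (n + 1)) (A : Ω) (x : G) :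
    ∑ p : Fin (n + 1) → Ω, (if p k = A ∧ ∑ j, gg (p j) = x then ∏ j, w (p j) else 0) =
      w A * rr gg w n (x - gg A) := by
  rw [sum_insertNth k, Finset.sum_eq_single A]
  · unfold rr
    rw [Finset.mul_sum]
    apply Finset.sum_congr rfl
    intro q _
    rw [Fin.sum_univ_succAbove _ k, Fin.prod_univ_succAbove _ k]
    simp only [Fin.insertNth_apply_same, Fin.insertNth_apply_succAbove, true_and]
    have e : (gg A + ∑ i, gg (q i) = x) ↔ (∑ i, gg (q i) = x - gg A) := by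
      rw [eq_sub_iff_add_eq, add_comm]
    by_cases h : ∑ i, gg (q i) = x - gg A
    · rw [if_pos (e.2 h), if_pos h]
    · rw [if_neg (fun h' => h (e.1 h')), if_neg h, mul_zero]
  · intro A' _ hA'
    apply Finset.sum_eq_zero
    intro q _
    rw [if_neg]
    rintro ⟨h, _⟩
    rw [Fin.insertNth_apply_same] at h
    exact hA' h
  · intro h
    exact absurd (Finset.mem_univ A) h

end ItemL4

open ItemL4 in
open Classical in
theorem claimL4 : ClaimL4 := by
  intro G Ω _ _ _ _ gg w Θ W α t x E hw hN hW hwW hΘ hR hα hlt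
  set N : ℝ := ∑ a, w a with hNdef
  set R : ℝ := rr gg w t x with hRdef
  set 𝒢 := univ.filter (fun p : Fin t → Ω => Light gg w Θ t p ∧ ∑ k, gg (p k) = x) with h𝒢
  by_contra hcon
  have hwt : ∀ p : Fin t → Ω, 0 ≤ ∏ k, w (p k) := fun p => Finset.prod_nonneg (fun k _ => hw _)
  have hN0 : N ≠ 0 := hN.ne'
  have hwN : ∀ A, w A / N ≤ 1 / W := by
    intro A
    rw [div_le_div_iff₀ hN hW]
    linarith [hwW A]
  -- first kind
  have hT1 : ∀ (k : Fin t) (A : Ω), ∑ p ∈ 𝒢, (if p k = A then ∏ j, w (p j) else 0) ≤ Θ * R / W := by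
    intro k A
    by_cases hex : ∃ p0 ∈ 𝒢, p0 k = A
    · obtain ⟨p0, hp0, hp0k⟩ := hex
      rw [h𝒢, Finset.mem_filter] at hp0
      obtain ⟨_, hgood, hsum⟩ := hp0
      obtain ⟨n, rfl⟩ : ∃ n, t = n + 1 := ⟨t - 1, by have := k.2; omega⟩
      have h1 := hgood.2 k
      rw [hsum, hp0k, Nat.add_sub_cancel] at h1
      have h3 : ∑ p ∈ 𝒢, (if p k = A then ∏ j, w (p j) else 0) ≤ w A * rr gg w n (x - gg A) := by
        rw [← fix_one gg w k A x, h𝒢, Finset.sum_filter]
        apply Finset.sum_le_sum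
        intro p _
        by_cases hp : Light gg w Θ (n + 1) p ∧ ∑ k, gg (p k) = x
        · rw [if_pos hp]
          by_cases hpk : p k = A
          · rw [if_pos hpk, if_pos ⟨hpk, hp.2⟩]
          · rw [if_neg hpk, if_neg (fun h => hpk h.1)]
        · rw [if_neg hp]
          split_ifs
          · exact hwt p
          · exact le_rfl
      refine h3.trans ?_
      have h4 : rr gg w n (x - gg A) ≤ Θ * R / N := by
        rw [le_div_iff₀ hN]
        exact h1
      have h5 : 0 ≤ Θ * R := by positivity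
      calc w A * rr gg w n (x - gg A) ≤ w A * (Θ * R / N) := mul_le_mul_of_nonneg_left h4 (hw A)
        _ = (w A / N) * (Θ * R) := by ring
        _ ≤ (1 / W) * (Θ * R) := mul_le_mul_of_nonneg_right (hwN A) h5
        _ = Θ * R / W := by ring
    · rw [Finset.sum_eq_zero]
      · positivity
      · intro p hp
        rw [if_neg (fun h => hex ⟨p, hp, h⟩)]
  -- the cover
  have hcov : ∀ p ∈ 𝒢, ∏ k, w (p k) ≤
      (∑ k : Fin t, ∑ A ∈ E, (if p k = A then ∏ j, w (p j) else 0)) := by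
    intro p hp
    have hn1 : ∀ k : Fin t, ∀ A : Ω, 0 ≤ (if p k = A then ∏ j, w (p j) else 0) := by
      intro k A
      split_ifs
      · exact hwt p
      · exact le_rfl
    have hs1 : 0 ≤ ∑ k : Fin t, ∑ A ∈ E, (if p k = A then ∏ j, w (p j) else 0) :=
      Finset.sum_nonneg fun k _ => Finset.sum_nonneg fun A _ => hn1 k A
    rcases (hwt p).eq_or_lt with h0 | h0
    · rw [← h0]
      simp
    · have hne : ∀ k, w (p k) ≠ 0 := by
        intro k hk
        rw [Finset.prod_eq_zero (Finset.mem_univ k) hk] at h0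
        exact lt_irrefl _ h0
      have hE : ∃ k, p k ∈ E := by
        by_contra hE
        apply hcon
        rw [h𝒢, Finset.mem_filter] at hp
        exact ⟨p, hp.2.1.1, fun k => ⟨fun h => hE ⟨k, h⟩, hne k⟩, hp.2.2⟩
      obtain ⟨k, hk⟩ := hE
      have h2 := Finset.single_le_sum (f := fun A => if p k = A then ∏ j, w (p j) else 0)
        (fun A _ => hn1 k A) hk
      have h3 := Finset.single_le_sum
        (f := fun k => ∑ A ∈ E, (if p k = A then ∏ j, w (p j) else 0))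
        (fun k _ => Finset.sum_nonneg fun A _ => hn1 k A) (Finset.mem_univ k)
      simp only [if_true] at h2
      exact h2.trans h3
  have htot : ∑ p ∈ 𝒢, ∏ k, w (p k) ≤ t * E.card * (Θ * R / W) := by
    refine (Finset.sum_le_sum hcov).trans ?_
    rw [Finset.sum_comm]
    calc ∑ k : Fin t, ∑ p ∈ 𝒢, ∑ A ∈ E, (if p k = A then ∏ j, w (p j) else 0)
        = ∑ k : Fin t, ∑ A ∈ E, ∑ p ∈ 𝒢, (if p k = A then ∏ j, w (p j) else 0) := by
          apply Finset.sum_congr rfl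
          intro k _
          exact Finset.sum_comm
      _ ≤ ∑ _k : Fin t, ∑ _A ∈ E, Θ * R / W :=
          Finset.sum_le_sum fun k _ => Finset.sum_le_sum fun A _ => hT1 k A
      _ = t * E.card * (Θ * R / W) := by
          simp only [Finset.sum_const, Finset.card_univ, Fintype.card_fin, nsmul_eq_mul]
          ring
  have hfin := hα.trans htot
  have e1 : (t : ℝ) * E.card * (Θ * R / W) = (t * E.card * Θ) * R / W := by ring
  rw [e1, le_div_iff₀ hW] at hfin
  have h9 : (t * E.card * Θ) * R < α * W * R := mul_lt_mul_of_pos_right hlt hR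
  linarith

end Pool.Agent.Work.MP_e0aece_nt.Lg

end

section

/-!
# Item L5: short zero sums, from equidistribution modulo the torsion (light tuples)
-/

namespace Pool.Agent.Work.MP_e0aece_nt.Lg

open Finset Sq Eps

namespace ItemL5

/-- the number of summands -/
theorem l_bound (l' X G : ℕ) (hX : 0 < X)
    (hXG : (1 / 4 : ℝ) * G ≤ 3 * X) (h2 : l' * X ^ 3 ≤ 2 * G ^ 3) :
    l' ≤ 3456 := by
  have h3 : G ≤ 12 * X := by
    have : (G : ℝ) ≤ 12 * X := by linarith
    exact_mod_cast this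
  have h4 : l' * X ^ 3 ≤ 3456 * X ^ 3 := by
    calc l' * X ^ 3 ≤ 2 * G ^ 3 := h2
      _ ≤ 2 * (12 * X) ^ 3 := Nat.mul_le_mul_left _ (Nat.pow_le_pow_left h3 3)
      _ = 3456 * X ^ 3 := by ring
  exact Nat.le_of_mul_le_mul_right h4 (pow_pos hX 3)

end ItemL5

theorem claimL5 (hF2 : ClaimF2) (hL3 : ClaimL3) (hL5a : ClaimL5a) (hL5b : ClaimL5b) :
    ClaimL5 := by
  classical
  intro G Ω _ _ _ _ gg w lam s T smax Θ W hlam hw hN hΘ hW heq hs hsT hlog hsmax hbig
  have hT1 : (1 : ℝ) ≤ T := by exact_mod_cast (by omega : 1 ≤ T)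
  have hTs : T ≤ smax := by
    rw [hsmax]
    calc T = 1 * 1 * T := by ring
      _ ≤ 3456 * lam * T := Nat.mul_le_mul_right _ (Nat.mul_le_mul (by norm_num) hlam)
  have hTs' : (T : ℝ) ≤ smax := by exact_mod_cast hTs
  have hsm1 : (1 : ℝ) ≤ smax := hT1.trans hTs'
  have hsm0 : (0 : ℝ) < smax := by linarith
  have hs2 : 0 < (smax : ℝ) ^ 2 := by positivity
  have hΘ0 : 0 < Θ := by linarith
  have hW0 : 0 < W := lt_of_lt_of_le (by positivity) hbig
  have h4T : 4 * (T : ℝ) ^ 2 ≤ W := by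
    refine le_trans ?_ hbig
    have h1 : (T : ℝ) ^ 2 ≤ (smax : ℝ) ^ 2 := pow_le_pow_left₀ (by linarith) hTs' 2
    have h2 : 16 * (smax : ℝ) ^ 2 * 1 ≤ 16 * (smax : ℝ) ^ 2 * Θ :=
      mul_le_mul_of_nonneg_left hΘ.le (by positivity)
    linarith
  obtain ⟨t, ht1, ht2, hgood⟩ := hL3 G Ω gg w lam s T Θ W hw hN hΘ hW (heq s le_rfl) hsT hlog h4T
  have hα2 : (1 / 4 : ℝ) * (∑ a, w a) ^ t ≤
      ∑ p ∈ univ.filter (fun p : Fin t → Ω => Light gg w Θ t p), ∏ k, w (p k) := by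
    linarith
  have h5a := hL5a G Ω gg w lam t (1 / 4) (fun p => Light gg w Θ t p) hw hN (by norm_num)
    (heq t ht1.le) hα2
  obtain ⟨X, hX⟩ : ∃ X : Finset G, X = univ.filter fun y : G => ∃ x : G, lam • y = lam • x ∧
      0 < rr gg w t x ∧ (1 / 4 : ℝ) / 2 * rr gg w t x ≤ ∑ p ∈ univ.filter
        (fun p : Fin t → Ω => Light gg w Θ t p ∧ ∑ k, gg (p k) = x), ∏ k, w (p k) := ⟨_, rfl⟩
  rw [← hX] at h5a
  have hG : (0 : ℝ) < (Fintype.card G : ℝ) := by exact_mod_cast Fintype.card_pos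
  have hXpos : 0 < X.card := by
    have h' : (0 : ℝ) < (X.card : ℝ) := by linarith
    exact_mod_cast h'
  obtain ⟨l', y, hl'1, hl'2, hyX, hy0⟩ := hF2 G X (Finset.card_pos.1 hXpos)
  have hl'3 : l' ≤ 3456 := ItemL5.l_bound l' X.card (Fintype.card G) hXpos h5a hl'2
  have hch : ∀ i, ∃ x : G, lam • y i = lam • x ∧
      0 < rr gg w t x ∧ (1 / 4 : ℝ) / 2 * rr gg w t x ≤ ∑ p ∈ univ.filter
        (fun p : Fin t → Ω => Light gg w Θ t p ∧ ∑ k, gg (p k) = x), ∏ k, w (p k) := by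
    intro i
    have := hyX i
    rw [hX, Finset.mem_filter] at this
    exact this.2
  choose x hx1 hx2 hx3 using hch
  have hsum : ∑ k : Fin (l' * lam), x (finProdFinEquiv.symm k).1 = 0 := by
    rw [Equiv.sum_comp finProdFinEquiv.symm (fun q : Fin l' × Fin lam => x q.1),
      Fintype.sum_prod_type]
    simp only [Finset.sum_const, Finset.card_univ, Fintype.card_fin]
    calc ∑ i, lam • x i = ∑ i, lam • y i := Finset.sum_congr rfl fun i _ => (hx1 i).symm
      _ = lam • ∑ i, y i := (Finset.smul_sum).symm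
      _ = 0 := by rw [hy0, smul_zero]
  have hnt : l' * lam * t ≤ smax := by
    rw [hsmax]
    exact Nat.mul_le_mul (Nat.mul_le_mul_right _ hl'3) ht2
  have hnt' : ((l' * lam * t : ℕ) : ℝ) ≤ smax := by exact_mod_cast hnt
  have htT : (t : ℝ) ≤ smax := by exact_mod_cast ht2.trans hTs
  obtain ⟨S, hS1, hS2, hS3⟩ := hL5b G Ω gg w Θ W (1 / 4 / 2) t (l' * lam)
    (fun k => x (finProdFinEquiv.symm k).1) hw hN hW0 hW hΘ0.le (fun i => hx2 _)
    (fun i => hx3 _) (by
      have h1 : (t : ℝ) * ((l' * lam * t : ℕ) : ℝ) ≤ (smax : ℝ) * smax :=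
        mul_le_mul htT hnt' (Nat.cast_nonneg _) hsm0.le
      have h2 : (t : ℝ) * ((l' * lam * t : ℕ) : ℝ) * Θ ≤ (smax : ℝ) * smax * Θ :=
        mul_le_mul_of_nonneg_right h1 hΘ0.le
      have h3 : (smax : ℝ) * smax * Θ = 16 * (smax : ℝ) ^ 2 * Θ / 16 := by ring
      have h4 : (t : ℝ) * (((l' * lam : ℕ) : ℝ) * t) * Θ =
          (t : ℝ) * ((l' * lam * t : ℕ) : ℝ) * Θ := by push_cast; ring
      rw [h4]
      have h5 : 0 < (smax : ℝ) * smax * Θ := by positivity
      linarith)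
  refine ⟨S, ?_, ?_, hS2, ?_⟩
  · rw [hS1]
    have : 1 * 2 ≤ l' * lam * t := Nat.mul_le_mul (Nat.mul_pos hl'1 hlam) (by omega)
    omega
  · rw [hS1]; exact hnt
  · rw [hS3, hsum]

end Pool.Agent.Work.MP_e0aece_nt.Lg

end

section

namespace Pool.Agent.Work.MP_e0aece_nt.Lg

open Finset Sq Eps

namespace ItemL5a

variable {G Ω : Type} [AddCommGroup G] [Fintype G] [DecidableEq G] [Fintype Ω]

theorem rr_nonneg (gg : Ω → G) (w : Ω → ℝ) (hw : ∀ a, 0 ≤ w a) (t : ℕ) (x : G) :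
    0 ≤ rr gg w t x := by
  unfold rr
  refine Finset.sum_nonneg fun p _ => ?_
  split_ifs
  · exact Finset.prod_nonneg fun k _ => hw _
  · exact le_rfl

theorem sum_rr (gg : Ω → G) (w : Ω → ℝ) (t : ℕ) :
    ∑ x, rr gg w t x = (∑ a, w a) ^ t := by
  unfold rr
  rw [Finset.sum_comm, Fintype.sum_pow]
  refine Finset.sum_congr rfl fun p _ => ?_
  rw [Finset.sum_ite_eq]
  simp

open Classical in
theorem card_coset (lam : ℕ) (z : G) :
    (univ.filter fun y : G => lam • z = lam • y).card =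
      (univ.filter fun y : G => lam • y = 0).card := by
  refine Finset.card_bij (fun y _ => y - z) ?_ ?_ ?_
  · intro y hy
    have := (Finset.mem_filter.1 hy).2
    refine Finset.mem_filter.2 ⟨Finset.mem_univ _, ?_⟩
    rw [smul_sub, this, sub_self]
  · intro y _ y' _ h
    exact sub_left_injective h
  · intro b hb
    have := (Finset.mem_filter.1 hb).2
    refine ⟨b + z, Finset.mem_filter.2 ⟨Finset.mem_univ _, ?_⟩, by abel⟩
    rw [smul_add, this, zero_add]

end ItemL5a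

open Classical in
open ItemL5a in
theorem claimL5a : ClaimL5a := by
  intro G Ω _ _ _ _ gg w lam t α Q hw hN hα heq hgood
  set N := ∑ a, w a with hNdef
  set good : G → ℝ := fun x => ∑ p ∈ univ.filter
    (fun p : Fin t → Ω => Q p ∧ ∑ k, gg (p k) = x), ∏ k, w (p k) with hgd
  set n0 := (univ.filter fun y : G => lam • y = 0).card with hn0
  have hn0pos : (0 : ℝ) < n0 := by
    have : 0 < n0 := Finset.card_pos.2 ⟨0, by simp⟩
    exact_mod_cast this
  have hNt : 0 < N ^ t := pow_pos hN t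
  have hle : ∀ x, good x ≤ rr gg w t x := by
    intro x
    unfold rr
    rw [← Finset.sum_filter]
    refine Finset.sum_le_sum_of_subset_of_nonneg ?_ fun p _ _ => Finset.prod_nonneg fun k _ => hw _
    intro p hp
    exact Finset.mem_filter.2 ⟨Finset.mem_univ _, (Finset.mem_filter.1 hp).2.2⟩
  have hsumgood : ∑ x, good x =
      ∑ p ∈ univ.filter (fun p : Fin t → Ω => Q p), ∏ k, w (p k) := by
    have h1 : ∀ x, good x = ∑ p ∈ univ.filter (fun p : Fin t → Ω => Q p),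
        if ∑ k, gg (p k) = x then ∏ k, w (p k) else 0 := by
      intro x
      rw [← Finset.sum_filter, Finset.filter_filter]
    simp_rw [h1]
    rw [Finset.sum_comm]
    refine Finset.sum_congr rfl fun p _ => ?_
    rw [Finset.sum_ite_eq]
    simp
  let rich : G → Prop := fun x => 0 < rr gg w t x ∧ α / 2 * rr gg w t x ≤ good x
  have hnonrich : ∑ x ∈ univ.filter (fun x => ¬ rich x), good x ≤ α / 2 * N ^ t := by
    have h1 : ∑ x ∈ univ.filter (fun x => ¬ rich x), good x ≤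
        ∑ x ∈ univ.filter (fun x => ¬ rich x), α / 2 * rr gg w t x := by
      refine Finset.sum_le_sum fun x hx => ?_
      have h2 := (Finset.mem_filter.1 hx).2
      by_cases h3 : 0 < rr gg w t x
      · by_contra hcon
        push Not at hcon
        exact h2 ⟨h3, hcon.le⟩
      · have h4 : rr gg w t x = 0 := le_antisymm (not_lt.1 h3) (rr_nonneg gg w hw t x)
        have h5 := hle x
        rw [h4] at h5 ⊢
        simpa using h5
    refine h1.trans ?_
    rw [← sum_rr gg w t, Finset.mul_sum]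
    exact Finset.sum_le_sum_of_subset_of_nonneg (Finset.filter_subset _ _)
      fun x _ _ => mul_nonneg (by positivity) (rr_nonneg gg w hw t x)
  have hrich : α / 2 * N ^ t ≤ ∑ x ∈ univ.filter rich, rr gg w t x := by
    have h1 : ∑ x ∈ univ.filter rich, good x + ∑ x ∈ univ.filter (fun x => ¬ rich x), good x =
        ∑ x, good x := Finset.sum_filter_add_sum_filter_not _ _ _
    have h2 : ∑ x ∈ univ.filter rich, good x ≤ ∑ x ∈ univ.filter rich, rr gg w t x :=
      Finset.sum_le_sum fun x _ => hle x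
    rw [hsumgood] at h1
    linarith
  set X := univ.filter fun y : G => ∃ x : G, lam • y = lam • x ∧
    0 < rr gg w t x ∧ α / 2 * rr gg w t x ≤ good x with hX
  have hdouble : ∑ y ∈ X, ∑ z ∈ univ.filter (fun z => lam • z = lam • y), rr gg w t z ≥
      (n0 : ℝ) * (α / 2 * N ^ t) := by
    have h1 : ∑ y ∈ X, ∑ z ∈ univ.filter (fun z => lam • z = lam • y), rr gg w t z =
        ∑ z, ((X.filter fun y => lam • z = lam • y).card : ℝ) * rr gg w t z := by
      simp_rw [Finset.sum_filter]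
      rw [Finset.sum_comm]
      refine Finset.sum_congr rfl fun z _ => ?_
      rw [← Finset.sum_filter, Finset.sum_const, nsmul_eq_mul]
    rw [h1]
    have h2 : ∑ z ∈ univ.filter rich, (n0 : ℝ) * rr gg w t z ≤
        ∑ z, ((X.filter fun y => lam • z = lam • y).card : ℝ) * rr gg w t z := by
      refine le_trans (Finset.sum_le_sum fun z hz => ?_)
        (Finset.sum_le_sum_of_subset_of_nonneg (Finset.filter_subset rich _)
          fun x _ _ => mul_nonneg (by positivity) (rr_nonneg gg w hw t x))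
      have hz' := (Finset.mem_filter.1 hz).2
      refine mul_le_mul_of_nonneg_right ?_ (rr_nonneg gg w hw t z)
      rw [hn0, ← card_coset lam z]
      have h3 : (univ.filter fun y : G => lam • z = lam • y) ⊆
          (X.filter fun y => lam • z = lam • y) := by
        intro y hy
        have hy' := (Finset.mem_filter.1 hy).2
        refine Finset.mem_filter.2 ⟨Finset.mem_filter.2 ⟨Finset.mem_univ _, z, hy'.symm, hz'⟩, hy'⟩
      exact_mod_cast Finset.card_le_card h3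
    rw [← Finset.mul_sum] at h2
    exact (mul_le_mul_of_nonneg_left hrich hn0pos.le).trans h2
  have hupper : (Fintype.card G : ℝ) *
      ∑ y ∈ X, ∑ z ∈ univ.filter (fun z => lam • z = lam • y), rr gg w t z ≤
      X.card * (3 / 2 * N ^ t * n0) := by
    rw [Finset.mul_sum]
    refine (Finset.sum_le_card_nsmul X _ _ fun y _ => heq y).trans ?_
    rw [nsmul_eq_mul]
  have hG : (0 : ℝ) ≤ Fintype.card G := by positivity
  have hfin : (Fintype.card G : ℝ) * (n0 * (α / 2 * N ^ t)) ≤ X.card * (3 / 2 * N ^ t * n0) :=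
    (mul_le_mul_of_nonneg_left hdouble hG).trans hupper
  have hc : 0 < (n0 : ℝ) * N ^ t / 2 := by positivity
  have : (α * (Fintype.card G : ℝ)) * (n0 * N ^ t / 2) ≤ (3 * (X.card : ℝ)) * (n0 * N ^ t / 2) := by
    nlinarith
  exact le_of_mul_le_mul_right this hc

end Pool.Agent.Work.MP_e0aece_nt.Lg

end

section

namespace Pool.Agent.Work.MP_e0aece_nt.Lg

open Finset Sq Eps

open Classical in
theorem claimL5b (hL4 : ClaimL4) : ClaimL5b := by
  intro G Ω _ _ _ _ gg w Θ W α t n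
  induction n with
  | zero =>
    intro x _ _ _ _ _ _ _ _
    exact ⟨∅, by simp, by simp, by simp⟩
  | succ n ih =>
    intro x hw hN hW hmax hΘ hr hgood hsize
    have hsize' : (t : ℝ) * (n * t) * Θ < α * W := by
      refine lt_of_le_of_lt ?_ hsize
      push_cast
      have : (0 : ℝ) ≤ t * (1 * t) * Θ := by positivity
      nlinarith
    obtain ⟨T, hT, hTw, hTs⟩ := ih (fun i => x i.castSucc) hw hN hW hmax hΘ
      (fun i => hr i.castSucc) (fun i => hgood i.castSucc) hsize'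
    have hE : (t : ℝ) * T.card * Θ < α * W := by
      rw [hT]
      push_cast
      exact hsize'
    obtain ⟨p, hp, hpE, hps⟩ := hL4 G Ω gg w Θ W α t (x (Fin.last n)) T hw hN hW hmax hΘ
      (hr _) (hgood _) hE
    have hdisj : Disjoint T (Finset.univ.image p) := by
      rw [Finset.disjoint_right]
      intro a ha
      obtain ⟨k, _, rfl⟩ := Finset.mem_image.1 ha
      exact (hpE k).1
    refine ⟨T ∪ Finset.univ.image p, ?_, ?_, ?_⟩
    · rw [Finset.card_union_of_disjoint hdisj, Finset.card_image_of_injective _ hp, hT,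
        Finset.card_univ, Fintype.card_fin]
      ring
    · intro a ha
      rcases Finset.mem_union.1 ha with h | h
      · exact hTw a h
      · obtain ⟨k, _, rfl⟩ := Finset.mem_image.1 h
        exact (hpE k).2
    · rw [Finset.sum_union hdisj, hTs, Finset.sum_image fun a _ b _ h => hp h, hps,
        Fin.sum_univ_castSucc]

end Pool.Agent.Work.MP_e0aece_nt.Lg

end

section

/-!
# The abstract theorem: short zero sums in every dense set
-/

namespace Pool.Agent.Work.MP_e0aece_nt.Lg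

open Finset Sq Eps

namespace ItemLEps

theorem theta_pos (M : ℝ) (hM : 0 < M) : 1 < (2 : ℝ) ^ ((2 / 5 : ℝ) * M) :=
  Real.one_lt_rpow (by norm_num) (by positivity)

theorem log_cond (M : ℝ) (n0 lam s T : ℕ) (hM : 2000 ≤ M) (hlam : 1 ≤ lam) (hn0 : 1 ≤ n0)
    (hn : (n0 : ℝ) ≤ Real.exp (M * Real.log lam)) (hT : T = (s + 1) * (lam + 1) ^ 9)
    (hTM : (T : ℝ) + 1 ≤ M / 10) :
    2 * (Real.log (3 / 2 * (n0 : ℝ)) + T) ≤
      Real.log ((2 : ℝ) ^ ((2 / 5 : ℝ) * M)) * Real.log (((T : ℝ) + 1) / (s + 1)) := by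
  have hlog2 : 0.6931 < Real.log 2 := by
    have := Real.log_two_gt_d9
    linarith
  have hn0R : (1 : ℝ) ≤ n0 := by exact_mod_cast hn0
  have hlamR : (1 : ℝ) ≤ lam := by exact_mod_cast hlam
  have h1 : Real.log (3 / 2 * (n0 : ℝ)) ≤ 1 / 2 + M * Real.log (lam + 1) := by
    rw [Real.log_mul (by norm_num) (by positivity)]
    have h2 : Real.log (3 / 2) ≤ 1 / 2 := by
      have := Real.log_le_sub_one_of_pos (show (0 : ℝ) < 3 / 2 by norm_num)
      linarith
    have h3 : Real.log (n0 : ℝ) ≤ M * Real.log lam := by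
      rw [Real.log_le_iff_le_exp (by positivity)]
      exact hn
    have h4 : Real.log (lam : ℝ) ≤ Real.log ((lam : ℝ) + 1) :=
      Real.log_le_log (by positivity) (by linarith)
    nlinarith
  have h5 : 9 * Real.log ((lam : ℝ) + 1) ≤ Real.log (((T : ℝ) + 1) / (s + 1)) := by
    have h6 : ((lam : ℝ) + 1) ^ 9 ≤ ((T : ℝ) + 1) / (s + 1) := by
      rw [le_div_iff₀ (by positivity), hT]
      push_cast
      nlinarith
    calc 9 * Real.log ((lam : ℝ) + 1) = Real.log (((lam : ℝ) + 1) ^ 9) := by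
          rw [Real.log_pow]; norm_num
      _ ≤ _ := Real.log_le_log (by positivity) h6
  have h7 : Real.log ((2 : ℝ) ^ ((2 / 5 : ℝ) * M)) = 2 / 5 * M * Real.log 2 :=
    Real.log_rpow (by norm_num) _
  rw [h7]
  have h8 : Real.log 2 ≤ Real.log ((lam : ℝ) + 1) :=
    Real.log_le_log (by norm_num) (by linarith)
  set L := Real.log ((lam : ℝ) + 1) with hL
  have hL0 : 0.6931 < L := by linarith
  have h9 : 2 / 5 * M * Real.log 2 * (9 * L) ≤
      2 / 5 * M * Real.log 2 * Real.log (((T : ℝ) + 1) / (s + 1)) := by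
    apply mul_le_mul_of_nonneg_left h5
    positivity
  refine le_trans ?_ h9
  have h10 : 2 / 5 * 0.6931 * 9 * (M * L) ≤ 2 / 5 * M * Real.log 2 * (9 * L) := by
    have : 0 ≤ M * L := by positivity
    nlinarith
  refine le_trans ?_ h10
  have h11 : M * 0.6931 ≤ M * L := by
    apply mul_le_mul_of_nonneg_left hL0.le (by linarith)
  nlinarith

theorem size_cond (M S : ℝ) (hS : 16 * S ^ 2 ≤ (2 : ℝ) ^ ((1 / 2 : ℝ) * M)) :
    16 * S ^ 2 * (2 : ℝ) ^ ((2 / 5 : ℝ) * M) ≤ (2 : ℝ) ^ ((9 / 10 : ℝ) * M) := by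
  calc 16 * S ^ 2 * (2 : ℝ) ^ ((2 / 5 : ℝ) * M)
      ≤ (2 : ℝ) ^ ((1 / 2 : ℝ) * M) * (2 : ℝ) ^ ((2 / 5 : ℝ) * M) := by gcongr
    _ = (2 : ℝ) ^ ((1 / 2 : ℝ) * M + (2 / 5 : ℝ) * M) := by
        rw [Real.rpow_add (by norm_num)]
    _ = (2 : ℝ) ^ ((9 / 10 : ℝ) * M) := by
        congr 1
        ring

theorem s_pos (M : ℕ) (m Z h J s : ℕ) (hJ : M < 2 ^ J) (hM : 2 ≤ M) (hZ : 2 ≤ Z)
    (hs : 40 * (J * (1 + 5 * (h : ℝ) +
      96 * ((M : ℝ) / m) * Real.log (((M : ℝ) + 1) * Z))) ≤ s) : 1 ≤ s := by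
  have hJ1 : 1 ≤ J := by
    rcases Nat.eq_zero_or_pos J with h0 | h0
    · subst h0
      simp at hJ
      omega
    · exact h0
  have hJR : (1 : ℝ) ≤ J := by exact_mod_cast hJ1
  have hZR : (2 : ℝ) ≤ Z := by exact_mod_cast hZ
  have hlog : 0 ≤ Real.log (((M : ℝ) + 1) * Z) := by
    apply Real.log_nonneg
    have : (0 : ℝ) ≤ M := Nat.cast_nonneg _
    nlinarith
  have h1 : (1 : ℝ) ≤ 1 + 5 * (h : ℝ) + 96 * ((M : ℝ) / m) * Real.log (((M : ℝ) + 1) * Z) := by
    have : 0 ≤ 96 * ((M : ℝ) / m) * Real.log (((M : ℝ) + 1) * Z) := by positivity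
    have : (0 : ℝ) ≤ h := Nat.cast_nonneg _
    linarith
  have h2 : (1 : ℝ) ≤ J * (1 + 5 * (h : ℝ) +
      96 * ((M : ℝ) / m) * Real.log (((M : ℝ) + 1) * Z)) := by nlinarith
  have h3 : (1 : ℝ) ≤ s := by linarith
  exact_mod_cast h3

end ItemLEps

open ItemLEps Eps.ItemEps Sq.ItemAF in
theorem claimLEps (hE3 : ClaimE3) (hL14 : ClaimL14) (hEn : ClaimEn) (hF1 : ClaimF1)
    (hL5 : ClaimL5) : ClaimLEps := by
  intro ι _ _ H _ _ _ g lam m y Z h J s T smax u C hlam hZ hHZ htors hPR hm hmM hu hu2 hyu h11 hJ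
    hC hs1 hs2 hT hTM hsmax hsmax2
  have hlog2 : 0 < Real.log 2 := Real.log_pos (by norm_num)
  have hlog2' : Real.log 2 < 1 := by
    have := Real.log_two_lt_d9
    linarith
  have hy0 : (0 : ℝ) ≤ y := Nat.cast_nonneg _
  have hM : 2000 ≤ Fintype.card ι := by omega
  have hMR : (2000 : ℝ) ≤ Fintype.card ι := by exact_mod_cast hM
  have hu3 : u ≤ 1 / 1000 := by
    have : (0 : ℝ) ≤ h := Nat.cast_nonneg _
    nlinarith
  obtain ⟨B, I, w, a, hMx, hBm⟩ := hE3 ι H g lam m (y * Real.log 2) u C hPR (by positivity) hu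
    (by nlinarith)
    (by
      have h1 : Real.exp (-(y * Real.log 2)) = ((2 : ℝ) ^ y)⁻¹ := by
        rw [Real.exp_neg, Real.exp_nat_mul, Real.exp_log (by norm_num)]
      have h2 : (2 : ℝ) ^ Fintype.card ι ≤ C.card * 2 ^ y := by exact_mod_cast hC
      rw [h1, ← div_eq_mul_inv, div_le_iff₀ (by positivity)]
      exact h2)
  obtain ⟨hIB, hBcard, ha0, ha3, ⟨F, hExp, hF1', hwF⟩, hsupp, hineq⟩ := hMx.1
  have hN := hEn ι H g lam m y u C B I w a hPR hMx.1 hBm hm hmM hu hu3 hyu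
  have hpos : 0 < ∑ A, w A := lt_of_lt_of_le (by positivity) hN
  have hspec : ∀ P : Finset (AddChar (∀ i : {i // i ∉ B}, H i.1) ℂ),
      (∀ χ ∈ P, χ ≠ 1 ∧ ∃ φ : AddChar (∀ i : {i // i ∉ B}, H i.1) ℂ, χ = φ ^ lam) →
      ∑ χ ∈ P, ‖∑ A, (w A : ℂ) * χ (rg g B A)‖ ^ s ≤ 1 / 2 * (∑ A, w A) ^ s := by
    intro P hP
    have h := hL14 ι H g lam m y Z h J s u C B I w a (P.map ⟨fam B, fam_injective B⟩) hZ hHZ hPR hm
      hmM hu hu2 hyu h11 hJ hMx hBm hs1 hs2 (by
        intro σ hσ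
        obtain ⟨χ, hχ, rfl⟩ := mem_map.1 hσ
        obtain ⟨h1, φ, h2⟩ := hP χ hχ
        refine ⟨⟨fam B φ, fun i => ?_⟩, fun i hi => fam_mem χ hi, ?_⟩
        · show fam B χ i = _
          rw [h2, fam_pow]
        · intro h
          apply h1
          apply fam_injective B
          rw [fam_one]
          exact h)
    rw [sum_map] at h
    simp only [hat, Function.Embedding.coeFn_mk, ev_fam] at h
    exact h
  have htor := tors_le lam hlam B htors
  have htor1 : 1 ≤ (univ.filter fun y : (∀ i : {i // i ∉ B}, H i.1) => lam • y = 0).card :=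
    card_pos.2 ⟨0, by simp⟩
  obtain ⟨S, hS1, hS2, hS3, hS4⟩ := hL5 (∀ i : {i // i ∉ B}, H i.1) (Finset ι) (rg g B) w lam s T
    smax ((2 : ℝ) ^ ((2 / 5 : ℝ) * Fintype.card ι)) ((2 : ℝ) ^ ((9 / 10 : ℝ) * Fintype.card ι))
    hlam (fun A => (hwF A).1) hpos
    (theta_pos _ (by linarith))
    (by
      intro A
      have h1 : w A ≤ 1 := (hwF A).2.trans (hF1' A)
      calc w A * (2 : ℝ) ^ ((9 / 10 : ℝ) * Fintype.card ι)
          ≤ 1 * (2 : ℝ) ^ ((9 / 10 : ℝ) * Fintype.card ι) := by gcongr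
        _ ≤ _ := by rw [one_mul]; exact hN)
    (fun t ht x => by
      have := hF1 (∀ i : {i // i ∉ B}, H i.1) (Finset ι) (rg g B) w lam s t x
        (fun A => (hwF A).1) hspec ht
      convert this)
    (s_pos (Fintype.card ι) m Z h J s hJ (by omega) hZ hs1)
    (by
      rw [hT]
      have : 1 ≤ (lam + 1) ^ 9 := Nat.one_le_pow _ _ (by omega)
      nlinarith)
    (by
      have h0 := log_cond (Fintype.card ι) _ lam s T hMR hlam htor1 (by
        have h1 : (((univ.filter fun y : (∀ i : {i // i ∉ B}, H i.1) => lam • y = 0).card : ℕ) :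
            ℝ) ≤ (lam : ℝ) ^ Fintype.card ι := by
          exact_mod_cast htor
        refine h1.trans ?_
        have hlamR : (0 : ℝ) < lam := by exact_mod_cast hlam
        rw [Real.exp_nat_mul, Real.exp_log hlamR]) hT hTM
      convert h0)
    hsmax
    (size_cond _ _ hsmax2)
  refine ⟨B, I, S, hIB, hBcard, fun A hA => (hsupp A (hS3 A hA)).1, hS1, hS2,
    fun A hA => (hsupp A (hS3 A hA)).2, fun i hi => ?_⟩
  have h3 := congrFun hS4 ⟨i, hi⟩
  rw [Finset.sum_apply] at h3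
  exact h3

end Pool.Agent.Work.MP_e0aece_nt.Lg

end
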