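import Pool.Agent.Work.MP_e0aece_nt.Bd.B08
import Pool.Agent.Work.MP_e0aece_nt.Sandwich

/-! Bundle of small proof modules (one section per former module). -/

section

/-!
# ItemLG4: the chromatic numbers of Carmichael numbers (helper22, after Eps/ItemG4 by helper18)
-/

namespace Pool.Agent.Work.MP_e0aece_nt.Lg

open Finset Sq Eps

namespace ItemLG4

/-- the analytic facts on `M` -/
theorem large : ∃ M0 : ℕ, ∀ M, M0 ≤ M →
    2 ≤ M ∧ 4 ≤ (Real.log M) ^ 9 ∧ (2 * (Real.log M) ^ 9) ^ 4 ≤ (M : ℝ) := by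
  have h1 : ∀ᶠ M : ℕ in Filter.atTop, (4 : ℝ) ≤ (Real.log M) ^ 9 := by
    have : Filter.Tendsto (fun M : ℕ => (Real.log (M : ℝ)) ^ 9) Filter.atTop Filter.atTop :=
      (Filter.tendsto_pow_atTop (by norm_num)).comp
        (Real.tendsto_log_atTop.comp tendsto_natCast_atTop_atTop)
    exact this.eventually_ge_atTop 4
  have h2 : ∀ᶠ M : ℕ in Filter.atTop, (2 * (Real.log M) ^ 9) ^ 4 ≤ (M : ℝ) := by
    have h := (Real.isLittleO_pow_log_id_atTop (n := 36)).def (show (0 : ℝ) < 1 / 16 by norm_num)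
    have h' := tendsto_natCast_atTop_atTop (R := ℝ) |>.eventually h
    filter_upwards [h', Filter.eventually_ge_atTop 1] with M hM hM1
    have hM0 : (0 : ℝ) ≤ M := Nat.cast_nonneg M
    have hlog : 0 ≤ Real.log (M : ℝ) := Real.log_natCast_nonneg M
    rw [id, Real.norm_of_nonneg hM0, Real.norm_of_nonneg (pow_nonneg hlog _)] at hM
    have : (2 * (Real.log M) ^ 9) ^ 4 = 16 * (Real.log M) ^ 36 := by ring
    rw [this]
    linarith
  obtain ⟨M0, hM0⟩ := Filter.eventually_atTop.1 ((h1.and h2).and (Filter.eventually_ge_atTop 2))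
  exact ⟨M0, fun M hM => ⟨(hM0 M hM).2, (hM0 M hM).1.1, (hM0 M hM).1.2⟩⟩

/-- pigeonhole -/
theorem exists_fiber {α : Type} [DecidableEq α] (P : Finset α) {K : ℕ} (f : α → Fin K)
    (hK : 0 < K) : ∃ c : Fin K, P.card ≤ K * (P.filter fun a => f a = c).card := by
  by_contra hcon
  push Not at hcon
  have h1 : P.card = ∑ c : Fin K, (P.filter fun a => f a = c).card :=
    Finset.card_eq_sum_card_fiberwise (fun a _ => Finset.mem_univ (f a))
  have h2 : ∑ c : Fin K, K * (P.filter fun a => f a = c).card < ∑ c : Fin K, P.card := by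
    refine Finset.sum_lt_sum_of_nonempty ?_ (fun c _ => hcon c)
    exact ⟨⟨0, hK⟩, Finset.mem_univ _⟩
  rw [← Finset.mul_sum, ← h1, Finset.sum_const, Finset.card_univ, Fintype.card_fin,
    smul_eq_mul] at h2
  exact lt_irrefl _ h2

/-- `2 ^ v` divides `k`, so `v ≤ log k / log 2`. -/
theorem val_le {k X M : ℕ} (hk : k ≠ 0) (hkX : k ≤ X)
    (hX : Real.log X / Real.log 2 ≤ (M : ℝ) ^ 2) : padicValNat 2 k ≤ M ^ 2 := by
  have h1 : 2 ^ padicValNat 2 k ≤ X :=
    (Nat.le_of_dvd (Nat.pos_of_ne_zero hk) pow_padicValNat_dvd).trans hkX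
  have h2 : ((padicValNat 2 k : ℕ) : ℝ) * Real.log 2 ≤ Real.log X := by
    rw [← Real.log_pow]
    refine Real.log_le_log (by positivity) ?_
    exact_mod_cast h1
  have h3 : ((padicValNat 2 k : ℕ) : ℝ) ≤ (M : ℝ) ^ 2 := by
    refine le_trans ?_ hX
    rw [le_div_iff₀ (Real.log_pos (by norm_num))]
    exact h2
  exact_mod_cast h3

theorem ures_coe {q : ℕ} [Fact q.Prime] {x : ZMod q} (hx : x ≠ 0) : (ures x : ZMod q) = x := by
  rw [ures, dif_neg hx, Units.val_mk0]

theorem card_tors (q lam : ℕ) [Fact q.Prime] (hlam : 0 < lam) [DecidableEq (Additive (ZMod q)ˣ)] :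
    (univ.filter fun x : Additive (ZMod q)ˣ => lam • x = 0).card ≤ lam := by
  classical
  refine le_trans ?_ (IsCyclic.card_pow_eq_one_le (α := (ZMod q)ˣ) hlam)
  refine Finset.card_le_card_of_injOn Additive.toMul ?_ ?_
  · intro x hx
    have h1 : lam • x = 0 := (Finset.mem_filter.1 hx).2
    have h2 : (Additive.toMul x) ^ lam = 1 := by
      rw [← toMul_nsmul, h1, toMul_zero]
    exact Finset.mem_coe.2 (Finset.mem_filter.2 ⟨Finset.mem_univ _, h2⟩)
  · intro x _ y _ hxy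
    exact Additive.toMul.injective hxy

end ItemLG4

open ItemLG4 in
theorem claimLG4 (hEps : ClaimLEps) (hG5 : ClaimLG5) (hBc : ClaimBcount) (hC : ClaimC)
    (hD1 : ClaimD1) (hD2 : ClaimD2) (hD3 : ClaimD3) : ClaimLG4 := by
  classical
  obtain ⟨M1, hC⟩ := hC
  obtain ⟨M2, hBc⟩ := hBc
  obtain ⟨M3, hD1⟩ := hD1
  obtain ⟨M4, hG5⟩ := hG5
  obtain ⟨M5, hlarge⟩ := large
  refine ⟨max (max M1 M2) (max (max M3 M4) M5), fun M hM => ?_⟩
  obtain ⟨y, hy⟩ : ∃ y : ℕ, y = ⌊(M : ℝ) / (Real.log M) ^ 7⌋₊ := ⟨_, rfl⟩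
  simp only [max_le_iff] at hM
  obtain ⟨⟨hM1, hM2⟩, ⟨hM3, hM4⟩, hM5⟩ := hM
  obtain ⟨h2M, hl4, hl36⟩ := hlarge M hM5
  have hMpos : 0 < M := by omega
  set t : ℝ := (Real.log M) ^ 9 with ht
  have hlog1 : 1 ≤ Real.log (M : ℝ) := by
    by_contra hlt
    push Not at hlt
    have : t ≤ 1 := pow_le_one₀ (Real.log_natCast_nonneg M) hlt.le
    linarith
  obtain ⟨L, hL⟩ : ∃ L : ℕ, L = ⌈t⌉₊ := ⟨_, rfl⟩
  have hL1 : t ≤ L := by rw [hL]; exact Nat.le_ceil t
  have hL2 : (L : ℝ) < t + 1 := by rw [hL]; exact Nat.ceil_lt_add_one (by linarith)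
  have hL3 : (Real.log M) ^ 8 ≤ (L : ℝ) := by
    refine le_trans ?_ hL1
    exact pow_le_pow_right₀ hlog1 (by norm_num)
  have hL4 : L ^ 4 ≤ M := by
    have : (L : ℝ) ^ 4 ≤ M := by
      refine le_trans (pow_le_pow_left₀ (Nat.cast_nonneg L) ?_ 4) hl36
      linarith
    exact_mod_cast this
  obtain ⟨lam, p, hlamP, hlamL, hlam4, hPr, hGap, hAP⟩ := hC M hM1 L hL3 hL4
  have hlam1 : t ≤ lam := hL1.trans (by exact_mod_cast hlamL.le)
  have hlam5 : (lam : ℝ) ≤ 5 * t := by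
    have : (lam : ℝ) ≤ 4 * L := by exact_mod_cast hlam4
    linarith
  have hlamM : lam ≤ M := by
    have h1 : (lam : ℝ) ≤ M := by
      refine hlam5.trans (le_trans ?_ hl36)
      have h3 : (1 : ℝ) ≤ t := by linarith
      have h4 : t ≤ t ^ 4 := by
        calc t = t ^ 1 := (pow_one t).symm
          _ ≤ t ^ 4 := pow_le_pow_right₀ h3 (by norm_num)
      rw [mul_pow]
      linarith
    exact_mod_cast h1
  have hfact : ∀ i, Fact (p i).Prime := fun i => ⟨(hPr.2 i).1⟩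
  obtain ⟨m, h, J, s, T0, smax, hm, hm100, hm20, hu1, hyu, hh, hJ, hs1, hs2, hT0, hT1, hsmax, hsq,
    hM3y, hsX, hX⟩ := hG5 M hM4 lam hlamP.one_le hlam5
  rw [← hy] at hyu hM3y
  obtain ⟨k, P, hk1, hk2, hcop, hPRv, hP, hPcard⟩ := hD1 M hM3 lam m p hPr hAP
    (fun K hK => hBc M hM2 lam m p hlam1 hlamM hm hPr (hGap hfact) K hK)
  have hM20 : 2 ≤ M ^ 20 := le_trans h2M (Nat.le_self_pow (by norm_num) M)
  have hk8 : 2 ≤ k := by omega
  have hdd : ∀ A, Odd (dd p A) := by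
    intro A
    rw [dd]
    refine Finset.prod_induction _ Odd (fun a b ha hb => ha.mul hb) odd_one ?_
    intro i _
    refine (hPr.2 i).1.odd_of_ne_two ?_
    have := (hPr.2 i).2.1
    omega
  have hddpos : ∀ A, 0 < dd p A := fun A => (hdd A).pos
  have hPA : ∀ A, k < dd p A * k + 1 := by
    intro A
    have : 1 * k ≤ dd p A * k := Nat.mul_le_mul_right k (hddpos A)
    omega
  have hPne : P.Nonempty := by
    rw [← Finset.card_pos]
    by_contra h0
    have h0' : P.card = 0 := by omega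
    rw [h0', zero_mul] at hPcard
    have : 0 < 2 ^ M := by positivity
    omega
  have hkeven : Even k := by
    obtain ⟨A, hA'⟩ := hPne
    have h1 := (hP A hA').1
    have h2 : Odd (dd p A * k + 1) := by
      refine h1.odd_of_ne_two ?_
      have := hPA A
      omega
    have h3 : Even (dd p A * k) := by
      rcases Nat.even_or_odd (dd p A * k) with h | h
      · exact h
      · exact absurd h2 (by rw [Nat.not_odd_iff_even]; exact h.add_one)
    rcases Nat.even_mul.1 h3 with h | h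
    · exact absurd (hdd A) (by rwa [Nat.not_odd_iff_even])
    · exact h
  have hk0 : k ≠ 0 := by omega
  refine ⟨padicValNat 2 k, ?_, ?_, fun x hx => ?_⟩
  · exact one_le_padicValNat_of_dvd hk0 hkeven.two_dvd
  · exact val_le hk0 hk2 hX
  by_contra hchi
  push Not at hchi
  rw [← hy] at hchi
  obtain ⟨c, hc⟩ := chi_spec (padicValNat 2 k) x
  have hKpos : 0 < chi (padicValNat 2 k) x := by
    have := (c 0).2
    omega
  obtain ⟨c0, hc0⟩ := exists_fiber P (fun A => c (dd p A * k + 1)) hKpos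
  set C := P.filter (fun A => c (dd p A * k + 1) = c0) with hCdef
  have hCcard : 2 ^ Fintype.card (Fin M) ≤ C.card * 2 ^ (2 * y) := by
    rw [Fintype.card_fin]
    calc 2 ^ M ≤ P.card * M ^ 3 := hPcard
      _ ≤ (chi (padicValNat 2 k) x * C.card) * 2 ^ y := Nat.mul_le_mul hc0 hM3y
      _ ≤ (2 ^ y * C.card) * 2 ^ y := Nat.mul_le_mul_right _ (Nat.mul_le_mul_right _ hchi)
      _ = C.card * 2 ^ (2 * y) := by ring
  let u : ∀ i, (ZMod (p i))ˣ := fun i => ZMod.unitOfCoprime k (hcop i)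
  have hu : ∀ i, (u i : ZMod (p i)) = (k : ZMod (p i)) := fun i => ZMod.coe_unitOfCoprime k (hcop i)
  have hPR := hD3 M lam m k p u hu (hPRv u hu)
  have hcardH : ∀ i, Fintype.card (Additive (ZMod (p i))ˣ) ≤ 4 * M ^ 20 := by
    intro i
    have h2 : Fintype.card (Additive (ZMod (p i))ˣ) = Fintype.card (ZMod (p i))ˣ :=
      Fintype.card_congr Additive.toMul
    rw [h2, ZMod.card_units]
    have := (hPr.2 i).2.2.1
    omega
  have hZ : 2 ≤ 4 * M ^ 20 := by omega
  have hM0 : (0 : ℝ) < M := by exact_mod_cast hMpos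
  obtain ⟨B, I, T, hIB, hBm, hTC, hT2, hTs, hTI, hsum⟩ := hEps (Fin M)
    (fun i => Additive (ZMod (p i))ˣ)
    (fun A i => Additive.ofMul (ures (((dd p A * k + 1 : ℕ)) : ZMod (p i)))) lam m (2 * y)
    (4 * M ^ 20) h J s T0 smax (1 / (Real.log M) ^ 2) C
    hlamP.one_le hZ hcardH (fun i => card_tors (p i) lam hlamP.pos) hPR hm100
    (by rw [Fintype.card_fin]; exact hm20) (by positivity) hu1 hyu
    (by rw [Fintype.card_fin]; exact hh) (by rw [Fintype.card_fin]; exact hJ) hCcard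
    (by rw [Fintype.card_fin]; exact hs1) (by rw [Fintype.card_fin]; exact hs2)
    hT0 (by rw [Fintype.card_fin]; exact hT1) hsmax (by rw [Fintype.card_fin]; exact hsq)
  have hTP : ∀ A ∈ T, A ∈ P ∧ c (dd p A * k + 1) = c0 := fun A hAT =>
    Finset.mem_filter.1 (hTC hAT)
  have hprod : ∀ i, i ∉ B → ((∏ A ∈ T, (dd p A * k + 1) : ℕ) : ZMod (p i)) = 1 := by
    intro i hi
    have h1 : ∏ A ∈ T, ures (((dd p A * k + 1 : ℕ)) : ZMod (p i)) = 1 := by
      have h2 := congrArg Additive.toMul (hsum i hi)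
      rw [toMul_sum, toMul_zero] at h2
      exact h2
    have h3 := congrArg (fun z : (ZMod (p i))ˣ => (z : ZMod (p i))) h1
    simp only [Units.coe_prod, Units.val_one] at h3
    rw [Nat.cast_prod, ← h3]
    refine Finset.prod_congr rfl fun A hAT => ?_
    rw [ures_coe]
    intro h0
    rw [ZMod.natCast_eq_zero_iff] at h0
    have h4 := (Nat.prime_dvd_prime_iff_eq (hPr.2 i).1 (hP A (hTP A hAT).1).1).1 h0
    have h5 := (hPr.2 i).2.2.1
    have h6 := hPA A
    omega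
  obtain ⟨hcar, hfac⟩ := hD2 M k p B I T hPr.1
    (fun i => ⟨(hPr.2 i).1, by have := (hPr.2 i).2.1; omega, hcop i⟩) hk8 hIB
    hT2 hTI (fun A hAT => (hP A (hTP A hAT).1).1) hprod
  have hsize : ((∏ A ∈ T, (dd p A * k + 1) : ℕ) : ℝ) ≤ x := by
    refine le_trans ?_ (le_trans (Real.exp_le_exp.2 hsX) hx)
    have h1 : (∏ A ∈ T, (dd p A * k + 1)) ≤ (2 * XM M + 1) ^ smax := by
      calc (∏ A ∈ T, (dd p A * k + 1)) ≤ ∏ _A ∈ T, (2 * XM M + 1) := by
            refine Finset.prod_le_prod' fun A hAT => ?_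
            have := (hP A (hTP A hAT).1).2
            omega
        _ = (2 * XM M + 1) ^ T.card := by rw [Finset.prod_const]
        _ ≤ (2 * XM M + 1) ^ smax := Nat.pow_le_pow_right (Nat.succ_pos _) hTs
    have h2 : (0 : ℝ) < 2 * (XM M : ℝ) + 1 := by positivity
    calc ((∏ A ∈ T, (dd p A * k + 1) : ℕ) : ℝ) ≤ (((2 * XM M + 1) ^ smax : ℕ) : ℝ) := by
          exact_mod_cast h1
      _ = (2 * (XM M : ℝ) + 1) ^ smax := by push_cast; ring
      _ = Real.exp ((smax : ℝ) * Real.log (2 * (XM M : ℝ) + 1)) := by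
          rw [Real.exp_nat_mul, Real.exp_log h2]
  obtain ⟨q1, q2, hq1, hq1n, hq2, hq2n, hne⟩ := hc _ hcar hsize
    (fun r hr hrn => (hfac r hr hrn).2)
  obtain ⟨⟨A1, hA1, e1⟩, -⟩ := hfac q1 hq1 hq1n
  obtain ⟨⟨A2, hA2, e2⟩, -⟩ := hfac q2 hq2 hq2n
  apply hne
  rw [e1, e2, (hTP A1 hA1).2, (hTP A2 hA2).2]

end Pool.Agent.Work.MP_e0aece_nt.Lg

end

section

/-!
# Item LG5: the numerical conditions
-/

open Filter Asymptotics

namespace Pool.Agent.Work.MP_e0aece_nt.Lg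

open Sq Eps

namespace ItemLG5

/-- the eventual inequalities, over the reals -/
theorem ev : ∀ᶠ x : ℝ in atTop,
    1000000 ≤ Real.log x ∧ (Real.log x) ^ 120 ≤ x ∧
    16 * x ^ 2 ≤ (2 : ℝ) ^ ((1 / 2 : ℝ) * x) ∧ 1 ≤ x := by
  have h1 : ∀ᶠ x : ℝ in atTop, 1000000 ≤ Real.log x :=
    Real.tendsto_log_atTop.eventually_ge_atTop 1000000
  have h2 : ∀ᶠ x : ℝ in atTop, (Real.log x) ^ 120 ≤ x := by
    have hl := Real.isLittleO_pow_log_id_atTop (n := 120)
    filter_upwards [hl.bound (by norm_num : (0 : ℝ) < 1), eventually_ge_atTop (1 : ℝ)]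
      with y hy hy0
    have hl0 : 0 ≤ Real.log y := Real.log_nonneg hy0
    have e1 : ‖Real.log y ^ 120‖ = (Real.log y) ^ 120 := by
      rw [Real.norm_eq_abs, abs_of_nonneg (by positivity)]
    have e2 : ‖id y‖ = y := by
      rw [id, Real.norm_eq_abs, abs_of_nonneg (by linarith)]
    rw [e1, e2] at hy
    linarith
  have h4 : ∀ᶠ x : ℝ in atTop, 16 * x ^ 2 ≤ (2 : ℝ) ^ ((1 / 2 : ℝ) * x) := by
    have hb : 0 < Real.log 2 / 2 := by
      have := Real.log_pos (by norm_num : (1 : ℝ) < 2)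
      positivity
    have hl := isLittleO_pow_exp_pos_mul_atTop 2 hb
    filter_upwards [hl.bound (by norm_num : (0 : ℝ) < 1 / 16)] with x hx
    have e1 : ‖x ^ 2‖ = x ^ 2 := by rw [Real.norm_eq_abs, abs_of_nonneg (sq_nonneg _)]
    rw [e1, Real.norm_eq_abs, abs_of_pos (Real.exp_pos _)] at hx
    have e3 : (2 : ℝ) ^ ((1 / 2 : ℝ) * x) = Real.exp (Real.log 2 / 2 * x) := by
      rw [Real.rpow_def_of_pos (by norm_num)]
      congr 1
      ring
    rw [e3]
    linarith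
  filter_upwards [h1, h2, h4, eventually_ge_atTop (1 : ℝ)] with x a b c d
  exact ⟨a, b, c, d⟩

theorem log6_lt : Real.log 6 < 2 := by
  have h := Real.log_lt_log (by norm_num : (0 : ℝ) < 6)
    (show (6 : ℝ) < Real.exp 1 ^ 2 by nlinarith [Real.exp_one_gt_d9])
  rwa [Real.log_pow, Real.log_exp, Nat.cast_ofNat, mul_one] at h

theorem log4_lt : Real.log 4 < 2 :=
  (Real.log_lt_log (by norm_num) (by norm_num : (4 : ℝ) < 6)).trans log6_lt

theorem log3_lt : Real.log 3 < 2 :=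
  (Real.log_lt_log (by norm_num) (by norm_num : (3 : ℝ) < 6)).trans log6_lt

/-- absorb a constant into one more power -/
theorem absorb (L c : ℝ) (k k' : ℕ) (hk : k' = k + 1) (hL : 1000000 ≤ L) (hc : c ≤ 1000000) :
    c * L ^ k ≤ L ^ k' := by
  have : L ^ (k + 1) = L * L ^ k := by ring
  rw [hk, this]
  exact mul_le_mul_of_nonneg_right (hc.trans hL) (by positivity)

theorem pow_one_le (L : ℝ) (k : ℕ) (hL : 1000000 ≤ L) : 1 ≤ L ^ k :=
  one_le_pow₀ (by linarith)

theorem smallT (L s lam : ℝ) (hL : 1000000 ≤ L) (hs0 : 0 ≤ s) (hs : s ≤ L ^ 8) (hl0 : 0 ≤ lam)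
    (hl : lam ≤ 5 * L ^ 9) : (s + 1) * (lam + 1) ^ 9 ≤ L ^ 92 := by
  have h1 : s + 1 ≤ L ^ 9 := by
    have := absorb L 2 8 9 rfl hL (by norm_num)
    have := pow_one_le L 8 hL
    linarith
  have h2 : lam + 1 ≤ 6 * L ^ 9 := by
    have := pow_one_le L 9 hL
    linarith
  have h3 : (lam + 1) ^ 9 ≤ (6 * L ^ 9) ^ 9 := pow_le_pow_left₀ (by linarith) h2 9
  have h4 : (6 * L ^ 9) ^ 9 ≤ L ^ 83 := by
    have e : (6 * L ^ 9) ^ 9 = 10077696 * L ^ 81 := by ring
    have e2 : L ^ 83 = L ^ 2 * L ^ 81 := by ring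
    rw [e, e2]
    have : (10077696 : ℝ) ≤ L ^ 2 := by nlinarith
    exact mul_le_mul_of_nonneg_right this (by positivity)
  calc (s + 1) * (lam + 1) ^ 9 ≤ L ^ 9 * L ^ 83 :=
        mul_le_mul h1 (h3.trans h4) (by positivity) (by positivity)
    _ = L ^ 92 := by ring

theorem smallS (L T lam : ℝ) (hL : 1000000 ≤ L) (hT0 : 0 ≤ T) (hT : T ≤ L ^ 92) (hl0 : 0 ≤ lam)
    (hl : lam ≤ 5 * L ^ 9) : 3456 * lam * T ≤ L ^ 102 := by
  have h1 : 3456 * lam ≤ L ^ 10 := by
    have := absorb L 17280 9 10 rfl hL (by norm_num)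
    linarith
  calc 3456 * lam * T ≤ L ^ 10 * L ^ 92 := mul_le_mul h1 hT hT0 (by positivity)
    _ = L ^ 102 := by ring

end ItemLG5

open ItemLG5 in
theorem claimLG5 : ClaimLG5 := by
  have hev := tendsto_natCast_atTop_atTop.eventually ev
  obtain ⟨M0, hM0⟩ := eventually_atTop.1 hev
  refine ⟨M0, fun M hM lam hlam hlam2 => ?_⟩
  obtain ⟨hL, hLx, h16, hMr⟩ := hM0 M hM
  have hMpos : (0 : ℝ) < M := by linarith
  have hlamr : (1 : ℝ) ≤ lam := by exact_mod_cast hlam
  set x : ℝ := (M : ℝ) with hx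
  set L : ℝ := Real.log x with hLdef
  have hLpos : 0 < L := by linarith
  have hL1 : 1 ≤ L := by linarith
  have hlog2 : 0.69 < Real.log 2 := by have := Real.log_two_gt_d9; linarith
  have hlog2p : 0 < Real.log 2 := by linarith
  -- powers
  have hpw : ∀ k : ℕ, 1 ≤ L ^ k := fun k => pow_one_le L k hL
  have hpp : ∀ k : ℕ, 0 < L ^ k := fun k => by positivity
  -- m
  have hL4p : 0 < L ^ 4 := by positivity
  have hLx' : ∀ k : ℕ, k ≤ 120 → L ^ k ≤ x := fun k hk =>
    (pow_le_pow_right₀ hL1 hk).trans hLx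
  have hq : 101 ≤ x / L ^ 4 := by
    rw [le_div_iff₀ hL4p]
    have h1 := absorb L 101 4 5 rfl hL (by norm_num)
    have h2 := hLx' 5 (by norm_num)
    linarith
  obtain ⟨m, hm⟩ : ∃ m : ℕ, m = ⌊x / L ^ 4⌋₊ := ⟨_, rfl⟩
  have hm1 : (m : ℝ) ≤ x / L ^ 4 := by rw [hm]; exact Nat.floor_le (by positivity)
  have hm2 : x / L ^ 4 < m + 1 := by rw [hm]; exact Nat.lt_floor_add_one _
  have hm3 : (m : ℝ) * L ^ 4 ≤ x := by rwa [le_div_iff₀ hL4p] at hm1
  have hm4 : x / L ^ 4 ≤ 2 * m := by linarith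
  have hm5 : x ≤ 2 * m * L ^ 4 := by rwa [div_le_iff₀ hL4p] at hm4
  have hm6 : 100 ≤ m := by
    have : (100 : ℝ) < m := by linarith
    exact_mod_cast this.le
  have hmpos : (0 : ℝ) < m := by
    have : (100 : ℝ) ≤ m := by exact_mod_cast hm6
    linarith
  have hmr : (1 : ℝ) ≤ m := by
    have : (100 : ℝ) ≤ m := by exact_mod_cast hm6
    linarith
  -- logarithms
  have e6 : Real.log (6 * x) ≤ 2 + L := by
    rw [Real.log_mul (by norm_num) hMpos.ne']
    linarith [log6_lt]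
  have e6' : 0 ≤ Real.log (6 * x) := Real.log_nonneg (by linarith)
  have e20 : Real.log ((4 * M ^ 20 : ℕ) : ℝ) ≤ 2 + 20 * L := by
    push_cast
    rw [Real.log_mul (by norm_num) (by positivity), Real.log_pow]
    push_cast
    linarith [log4_lt]
  have e20' : 0 ≤ Real.log ((4 * M ^ 20 : ℕ) : ℝ) := by
    apply Real.log_nonneg
    push_cast
    have : (1 : ℝ) ≤ (M : ℝ) ^ 20 := one_le_pow₀ hMr
    linarith
  have e21 : Real.log ((x + 1) * ((4 * M ^ 20 : ℕ) : ℝ)) ≤ 4 + 21 * L := by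
    have hpos : (0 : ℝ) < ((4 * M ^ 20 : ℕ) : ℝ) := by
      push_cast
      positivity
    rw [Real.log_mul (by positivity) hpos.ne']
    have : Real.log (x + 1) ≤ 2 + L := by
      refine le_trans (Real.log_le_log (by positivity) ?_) e6
      linarith
    linarith
  have e21' : 0 ≤ Real.log ((x + 1) * ((4 * M ^ 20 : ℕ) : ℝ)) := by
    apply Real.log_nonneg
    push_cast
    have h1 : (1 : ℝ) ≤ (M : ℝ) ^ 20 := one_le_pow₀ hMr
    have h2 : (1 : ℝ) ≤ x + 1 := by linarith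
    have h3 : (1 : ℝ) ≤ 4 * (M : ℝ) ^ 20 := by linarith
    exact one_le_mul_of_one_le_of_one_le h2 h3
  have eMm : x / m ≤ 2 * L ^ 4 := by
    rw [div_le_iff₀ hmpos]
    linarith
  have eMm' : 0 ≤ x / m := by positivity
  -- h
  obtain ⟨h, hh⟩ : ∃ h : ℕ, h = ⌈12 * Real.log (6 * x)⌉₊ := ⟨_, rfl⟩
  have hh1 : 12 * Real.log (6 * x) ≤ h := by rw [hh]; exact Nat.le_ceil _
  have hh2 : (h : ℝ) ≤ 13 * L := by
    have h1 : (h : ℝ) < 12 * Real.log (6 * x) + 1 := by
      rw [hh]; exact Nat.ceil_lt_add_one (by positivity)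
    linarith
  -- J
  obtain ⟨J, hJ⟩ : ∃ J : ℕ, J = Nat.log 2 M + 1 := ⟨_, rfl⟩
  have hJ1 : M < 2 ^ J := by rw [hJ]; exact Nat.lt_pow_succ_log_self (by norm_num) M
  have hM1 : 1 ≤ M := by rw [hx] at hMr; exact_mod_cast hMr
  have hJ2 : (J : ℝ) ≤ 2 * L := by
    have h1 : 2 ^ (Nat.log 2 M) ≤ M := Nat.pow_log_le_self 2 (by omega)
    have h2 : ((2 : ℝ)) ^ (Nat.log 2 M) ≤ x := by
      rw [hx]; exact_mod_cast h1
    have h3 : (Nat.log 2 M : ℝ) * Real.log 2 ≤ L := by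
      have := Real.log_le_log (by positivity) h2
      rwa [Real.log_pow] at this
    have h4 : (Nat.log 2 M : ℝ) ≤ 3 / 2 * L := by
      have h5 : (0 : ℝ) ≤ (Nat.log 2 M : ℝ) := by positivity
      have h6 : (Nat.log 2 M : ℝ) * 0.69 ≤ (Nat.log 2 M : ℝ) * Real.log 2 :=
        mul_le_mul_of_nonneg_left hlog2.le h5
      linarith
    rw [hJ]
    push_cast
    linarith
  -- s
  obtain ⟨a1, ha1⟩ : ∃ a1 : ℝ, a1 = 40 * (J * (1 + 5 * (h : ℝ) +
        96 * (x / m) * Real.log ((x + 1) * ((4 * M ^ 20 : ℕ) : ℝ)))) := ⟨_, rfl⟩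
  obtain ⟨a2, ha2⟩ : ∃ a2 : ℝ, a2 = 40 * (x * Real.log ((4 * M ^ 20 : ℕ) : ℝ) + 2) / m :=
    ⟨_, rfl⟩
  have ha1' : 0 ≤ a1 := by rw [ha1]; positivity
  have ha2' : 0 ≤ a2 := by rw [ha2]; positivity
  have hb0 : (x / m) * Real.log ((x + 1) * ((4 * M ^ 20 : ℕ) : ℝ)) ≤ 44 * L ^ 5 := by
    have h1 : (x / m) * Real.log ((x + 1) * ((4 * M ^ 20 : ℕ) : ℝ))
        ≤ (2 * L ^ 4) * (22 * L) :=
      mul_le_mul eMm (by linarith) e21' (by positivity)
    have h2 : (2 * L ^ 4) * (22 * L) = 44 * L ^ 5 := by ring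
    linarith
  have hb1 : a1 ≤ L ^ 7 := by
    have g1 : 1 + 5 * (h : ℝ) + 96 * (x / m) * Real.log ((x + 1) * ((4 * M ^ 20 : ℕ) : ℝ)) ≤
        4300 * L ^ 5 := by
      have g2 : L ≤ L ^ 5 := by
        calc L = L ^ 1 := (pow_one L).symm
          _ ≤ L ^ 5 := pow_le_pow_right₀ hL1 (by norm_num)
      have g3 := hpw 5
      have g4 : 96 * (x / m) * Real.log ((x + 1) * ((4 * M ^ 20 : ℕ) : ℝ)) ≤
          96 * (44 * L ^ 5) := by
        rw [mul_assoc]
        exact mul_le_mul_of_nonneg_left hb0 (by norm_num)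
      linarith
    have g4 : (J : ℝ) * (1 + 5 * (h : ℝ) +
        96 * (x / m) * Real.log ((x + 1) * ((4 * M ^ 20 : ℕ) : ℝ))) ≤
        (2 * L) * (4300 * L ^ 5) :=
      mul_le_mul hJ2 g1 (by positivity) (by positivity)
    have g5 : (2 * L) * (4300 * L ^ 5) = 8600 * L ^ 6 := by ring
    have g6 := absorb L 344000 6 7 rfl hL (by norm_num)
    rw [ha1]
    linarith
  have hb2 : a2 ≤ L ^ 6 := by
    have h0 : a2 = 40 * ((x / m) * Real.log ((4 * M ^ 20 : ℕ) : ℝ)) + 80 / m := by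
      rw [ha2]
      field_simp
      ring
    have h1 : (x / m) * Real.log ((4 * M ^ 20 : ℕ) : ℝ) ≤ (2 * L ^ 4) * (21 * L) :=
      mul_le_mul eMm (by linarith) e20' (by positivity)
    have h2 : (2 * L ^ 4) * (21 * L) = 42 * L ^ 5 := by ring
    have h3 : 80 / (m : ℝ) ≤ 80 := div_le_self (by norm_num) hmr
    have h4 := absorb L 2000 5 6 rfl hL (by norm_num)
    have h5 := hpw 5
    rw [h0]
    linarith
  obtain ⟨s, hs⟩ : ∃ s : ℕ, s = ⌈a1 + a2⌉₊ := ⟨_, rfl⟩
  have hs1 : a1 + a2 ≤ s := by rw [hs]; exact Nat.le_ceil _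
  have hs2 : (s : ℝ) ≤ L ^ 8 := by
    have h1 : (s : ℝ) < a1 + a2 + 1 := by rw [hs]; exact Nat.ceil_lt_add_one (by positivity)
    have h3 : L ^ 6 ≤ L ^ 7 := pow_le_pow_right₀ hL1 (by norm_num)
    have h4 := absorb L 3 7 8 rfl hL (by norm_num)
    have h5 := hpw 7
    linarith
  -- T and smax
  obtain ⟨T, hT⟩ : ∃ T : ℕ, T = (s + 1) * (lam + 1) ^ 9 := ⟨_, rfl⟩
  have hT1 : (T : ℝ) ≤ L ^ 92 := by
    rw [hT]
    push_cast
    exact smallT L s lam hL (by positivity) hs2 (by positivity) hlam2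
  obtain ⟨smax, hsm⟩ : ∃ smax : ℕ, smax = 3456 * lam * T := ⟨_, rfl⟩
  have hsm1 : (smax : ℝ) ≤ L ^ 102 := by
    rw [hsm]
    push_cast
    exact smallS L T lam hL (by positivity) hT1 (by positivity) hlam2
  -- floor
  obtain ⟨y, hy⟩ : ∃ y : ℕ, y = ⌊x / L ^ 7⌋₊ := ⟨_, rfl⟩
  have hL7p := hpp 7
  have hy1 : (y : ℝ) ≤ x / L ^ 7 := by rw [hy]; exact Nat.floor_le (by positivity)
  have hy2 : x / L ^ 7 < y + 1 := by rw [hy]; exact Nat.lt_floor_add_one _
  have hy3 : L ^ 2 ≤ x / L ^ 7 := by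
    rw [le_div_iff₀ hL7p]
    have := hLx' 9 (by norm_num)
    have e : L ^ 2 * L ^ 7 = L ^ 9 := by ring
    linarith
  have hL2 : 1000000 * L ≤ L ^ 2 := by
    have := absorb L 1000000 1 2 rfl hL le_rfl
    simpa using this
  rw [← hy]
  refine ⟨m, h, J, s, T, smax, hm3, hm6, ?_, ?_, ?_, ?_, hJ1, ?_, ?_, hT, ?_, hsm, ?_, ?_, ?_, ?_⟩
  · have : (20 * m : ℝ) ≤ x := by
      have h1 : (m : ℝ) * 20 ≤ m * L ^ 4 := by
        have h2 := absorb L 20 3 4 rfl hL (by norm_num)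
        have h3 := hpw 3
        have : (20 : ℝ) ≤ L ^ 4 := by linarith
        gcongr
      linarith
    have h2 : ((20 * m : ℕ) : ℝ) ≤ ((M : ℕ) : ℝ) := by push_cast; exact this
    exact_mod_cast h2
  · rw [mul_one_div, div_le_iff₀ (hpp 2)]
    linarith
  · have g1 : 2 * (((2 * y : ℕ) : ℝ) + 1) ≤ 6 * (x / L ^ 7) := by
      push_cast
      have := hpw 2
      linarith
    have g2 : 6 * (x / L ^ 7) ≤ 1 / L ^ 2 * m := by
      have g3 : 6 * (x / L ^ 7) = (6 * x) / L ^ 7 := by ring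
      rw [g3, div_le_iff₀ hL7p]
      have g4 : 1 / L ^ 2 * m * L ^ 7 = m * L ^ 5 := by
        field_simp
      rw [g4]
      have g5 : 6 * x ≤ 12 * (m * L ^ 4) := by linarith
      have g6 : 12 * (m * L ^ 4) ≤ m * L ^ 5 := by
        have := absorb L 12 4 5 rfl hL (by norm_num)
        calc 12 * (m * L ^ 4) = m * (12 * L ^ 4) := by ring
          _ ≤ m * L ^ 5 := mul_le_mul_of_nonneg_left this hmpos.le
      linarith
    exact g1.trans g2
  · have g1 : (11 / 12 : ℝ) ≤ Real.exp (-(1 / 12)) := by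
      have := Real.add_one_le_exp (-(1 / 12) : ℝ)
      linarith
    have g2 : (11 / 12 : ℝ) ^ h ≤ Real.exp (-(1 / 12)) ^ h := pow_le_pow_left₀ (by norm_num) g1 h
    have g3 : Real.exp (-(1 / 12)) ^ h = Real.exp (-(h / 12 : ℝ)) := by
      rw [← Real.exp_nat_mul]
      congr 1
      ring
    have g4 : Real.exp (-(h / 12 : ℝ)) ≤ Real.exp (-Real.log (6 * x)) := by
      apply Real.exp_le_exp.2
      linarith
    have g5 : Real.exp (-Real.log (6 * x)) = (6 * x)⁻¹ := by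
      rw [Real.exp_neg, Real.exp_log (by positivity)]
    have g6 : (11 / 12 : ℝ) ^ h ≤ (6 * x)⁻¹ := by
      rw [← g5]
      exact (g2.trans_eq g3).trans g4
    calc (11 / 12 : ℝ) ^ h * (6 * x) ≤ (6 * x)⁻¹ * (6 * x) :=
          mul_le_mul_of_nonneg_right g6 (by positivity)
      _ = 1 := inv_mul_cancel₀ (by positivity)
  · rw [← ha1]; linarith
  · have h1 : a2 * m = 40 * (x * Real.log ((4 * M ^ 20 : ℕ) : ℝ) + 2) := by
      rw [ha2]; field_simp
    rw [← h1]
    exact mul_le_mul_of_nonneg_right (by linarith) hmpos.le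
  · have h1 := absorb L 20 92 93 rfl hL (by norm_num)
    have h2 := hLx' 93 (by norm_num)
    have h3 := hpw 92
    have h4 : 20 * L ^ 92 ≤ x := h1.trans h2
    linarith
  · have h1 : (smax : ℝ) ≤ x := hsm1.trans (hLx' 102 (by norm_num))
    have h2 : (smax : ℝ) ^ 2 ≤ x ^ 2 := pow_le_pow_left₀ (by positivity) h1 2
    linarith
  · have hn1 : 9 * L ≤ y := by linarith
    have : Real.log (x ^ 3) ≤ Real.log ((2 : ℝ) ^ y) := by
      rw [Real.log_pow, Real.log_pow]
      push_cast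
      have : 9 * L * 0.69 ≤ y * Real.log 2 := by
        have : 0 ≤ (y : ℝ) := by positivity
        gcongr
      rw [← hLdef]
      linarith
    have h3' : x ^ 3 ≤ (2 : ℝ) ^ y := by
      rwa [Real.log_le_log_iff (by positivity) (by positivity)] at this
    have : ((M ^ 3 : ℕ) : ℝ) ≤ ((2 ^ y : ℕ) : ℝ) := by push_cast; exact h3'
    exact_mod_cast this
  · have hXM : Real.log (XM M) = 3000 * x * L := by
      rw [XM]; push_cast
      rw [Real.log_pow]; push_cast; ring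
    have hXpos : (1 : ℝ) ≤ (XM M : ℝ) := by
      rw [XM]; push_cast
      exact one_le_pow₀ hMr
    have h1 : Real.log (2 * (XM M : ℝ) + 1) ≤ 3001 * x * L := by
      have h2 : Real.log (2 * (XM M : ℝ) + 1) ≤ Real.log (3 * (XM M : ℝ)) :=
        Real.log_le_log (by positivity) (by linarith)
      rw [Real.log_mul (by norm_num) (by linarith), hXM] at h2
      have h3 : 2 ≤ x * L := by
        have := mul_le_mul hMr hL (by norm_num) hMpos.le
        linarith
      linarith [log3_lt]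
    have h2 : 0 ≤ Real.log (2 * (XM M : ℝ) + 1) := Real.log_nonneg (by linarith)
    calc (smax : ℝ) * Real.log (2 * (XM M : ℝ) + 1) ≤ L ^ 102 * (3001 * x * L) :=
          mul_le_mul hsm1 h1 h2 (by positivity)
      _ = x * (3001 * L ^ 103) := by ring
      _ ≤ x * L ^ 110 := by
        apply mul_le_mul_of_nonneg_left _ hMpos.le
        exact (absorb L 3001 103 104 rfl hL (by norm_num)).trans (pow_le_pow_right₀ hL1 (by norm_num))
  · have hXM : Real.log (XM M) = 3000 * x * L := by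
      rw [XM]; push_cast
      rw [Real.log_pow]; push_cast; ring
    rw [hXM, div_le_iff₀ (by linarith)]
    have h1 := absorb L 10000 1 2 rfl hL (by norm_num)
    have h2 := hLx' 2 (by norm_num)
    have e0 : 10000 * L ≤ x := by
      simpa using h1.trans h2
    have e1 : 3000 * x * L ≤ x * (x * 0.69) := by
      have e2 : 3000 * L ≤ x * 0.69 := by linarith
      calc 3000 * x * L = x * (3000 * L) := by ring
        _ ≤ x * (x * 0.69) := mul_le_mul_of_nonneg_left e2 hMpos.le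
    calc 3000 * x * L ≤ x * (x * 0.69) := e1
      _ = x ^ 2 * 0.69 := by ring
      _ ≤ x ^ 2 * Real.log 2 := by gcongr

end Pool.Agent.Work.MP_e0aece_nt.Lg

end

section

namespace Pool.Agent.Work.MP_e0aece_nt.Lg

open Finset Sq Eps

namespace ItemL3d

open ItemL3c

variable {Ω : Type} [Fintype Ω]

open Classical in
theorem pair_bound {n : ℕ} (w : Ω → ℝ) (W : ℝ) (hw : ∀ a, 0 ≤ w a)
    (hW : ∀ a, w a * W ≤ ∑ a, w a) (k : Fin (n + 1)) (j : Fin n) :
    W * ∑ p : Fin (n + 1) → Ω, (if p k = p (k.succAbove j) then ∏ i, w (p i) else 0) ≤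
      (∑ a, w a) ^ (n + 1) := by
  rw [sum_insertNth k, Finset.sum_comm, Finset.mul_sum]
  have h1 : ∀ q : Fin n → Ω, W * ∑ a : Ω,
      (if (k.insertNth a q : Fin (n + 1) → Ω) k = (k.insertNth a q : Fin (n + 1) → Ω)
        (k.succAbove j) then ∏ i, w ((k.insertNth a q : Fin (n + 1) → Ω) i) else 0) ≤
      (∑ a, w a) * ∏ i, w (q i) := by
    intro q
    have h2 : ∀ a : Ω,
      (if (k.insertNth a q : Fin (n + 1) → Ω) k = (k.insertNth a q : Fin (n + 1) → Ω)
        (k.succAbove j) then ∏ i, w ((k.insertNth a q : Fin (n + 1) → Ω) i) else 0) =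
      (if a = q j then w a * ∏ i, w (q i) else 0) := by
      intro a
      rw [Fin.prod_univ_succAbove _ k]
      simp only [Fin.insertNth_apply_same, Fin.insertNth_apply_succAbove]
    rw [Finset.sum_congr rfl fun a _ => h2 a, Finset.sum_ite_eq']
    simp only [Finset.mem_univ, if_true]
    have h3 := hW (q j)
    have h4 : 0 ≤ ∏ i, w (q i) := Finset.prod_nonneg fun k _ => hw _
    calc W * (w (q j) * ∏ i, w (q i)) = (w (q j) * W) * ∏ i, w (q i) := by ring
      _ ≤ _ := mul_le_mul_of_nonneg_right h3 h4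
  refine le_trans (Finset.sum_le_sum fun q _ => h1 q) (le_of_eq ?_)
  rw [← Finset.mul_sum, pow_succ', Fintype.sum_pow]

end ItemL3d

open ItemL3c ItemL3d in
open Classical in
theorem claimL3d : ClaimL3d := by
  intro Ω _ w W t hw hN hW0 hW
  set N := ∑ a, w a with hNdef
  rcases t with _ | n
  · have : (univ.filter fun p : Fin 0 → Ω => ¬ Function.Injective p) = ∅ := by
      refine Finset.filter_eq_empty_iff.2 fun p _ h => h (Function.injective_of_subsingleton p)
    rw [this]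
    simp
  have hpair : ∀ k j : Fin (n + 1), j < k →
      W * ∑ p : Fin (n + 1) → Ω, (if p k = p j then ∏ i, w (p i) else 0) ≤ N ^ (n + 1) := by
    intro k j hjk
    obtain ⟨j', hj'⟩ := Fin.exists_succAbove_eq (ne_of_lt hjk)
    rw [← hj']
    exact pair_bound w W hw hW k j'
  have h1 : ∑ p ∈ univ.filter (fun p : Fin (n + 1) → Ω => ¬ Function.Injective p),
      ∏ k, w (p k) ≤ ∑ k : Fin (n + 1), ∑ j ∈ univ.filter (fun j : Fin (n + 1) => j < k),
        ∑ p : Fin (n + 1) → Ω, (if p k = p j then ∏ i, w (p i) else 0) := by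
    rw [Finset.sum_filter]
    simp only [Finset.sum_comm (t := (univ : Finset (Fin (n + 1) → Ω)))]
    refine Finset.sum_le_sum fun p _ => ?_
    have hnn : 0 ≤ ∏ k, w (p k) := Finset.prod_nonneg fun k _ => hw _
    have hin : ∀ k j : Fin (n + 1), 0 ≤ (if p k = p j then ∏ i, w (p i) else 0) := by
      intro k j
      split_ifs
      · exact hnn
      · exact le_rfl
    by_cases h : Function.Injective p
    swap
    · rw [if_pos h]
      unfold Function.Injective at h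
      push Not at h
      obtain ⟨a, b, hab, hne⟩ := h
      obtain ⟨k, j, hjk, hpk⟩ : ∃ k j : Fin (n + 1), j < k ∧ p k = p j := by
        rcases lt_or_gt_of_ne hne with h | h
        · exact ⟨b, a, h, hab.symm⟩
        · exact ⟨a, b, h, hab⟩
      calc ∏ i, w (p i) = (if p k = p j then ∏ i, w (p i) else 0) := by rw [if_pos hpk]
        _ ≤ ∑ j ∈ univ.filter (fun j : Fin (n + 1) => j < k),
            (if p k = p j then ∏ i, w (p i) else 0) :=
          Finset.single_le_sum (f := fun j => (if p k = p j then ∏ i, w (p i) else 0))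
            (fun i _ => hin k i) (Finset.mem_filter.2 ⟨Finset.mem_univ _, hjk⟩)
        _ ≤ _ := Finset.single_le_sum
            (f := fun k => ∑ j ∈ univ.filter (fun j : Fin (n + 1) => j < k),
              (if p k = p j then ∏ i, w (p i) else 0))
            (fun i _ => Finset.sum_nonneg fun j _ => hin i j) (Finset.mem_univ k)
    · rw [if_neg (not_not.2 h)]
      exact Finset.sum_nonneg fun k _ => Finset.sum_nonneg fun j _ => hin k j
  have h2 := mul_le_mul_of_nonneg_left h1 hW0.le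
  refine h2.trans ?_
  rw [Finset.mul_sum]
  have h3 : ∀ k : Fin (n + 1), W * ∑ j ∈ univ.filter (fun j : Fin (n + 1) => j < k),
        ∑ p : Fin (n + 1) → Ω, (if p k = p j then ∏ i, w (p i) else 0) ≤
      (k : ℕ) * N ^ (n + 1) := by
    intro k
    rw [Finset.mul_sum]
    refine (Finset.sum_le_sum fun j hj => hpair k j (Finset.mem_filter.1 hj).2).trans ?_
    rw [Finset.sum_const, nsmul_eq_mul]
    have : (univ.filter fun j : Fin (n + 1) => j < k) = Finset.Iio k := by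
      ext j; simp
    rw [this, Fin.card_Iio]
  refine (Finset.sum_le_sum fun k _ => h3 k).trans ?_
  rw [← Finset.sum_mul]
  refine mul_le_mul_of_nonneg_right ?_ (pow_pos hN _).le
  have h4 : (∑ k : Fin (n + 1), ((k : ℕ) : ℝ)) = ((n : ℝ) + 1) * n / 2 := by
    rw [Fin.sum_univ_eq_sum_range (fun k => (k : ℝ)) (n + 1)]
    have h5 := Finset.sum_range_id_mul_two (n + 1)
    have h6 : ((∑ i ∈ Finset.range (n + 1), i : ℕ) : ℝ) * 2 = ((n : ℝ) + 1) * n := by
      have : (((∑ i ∈ Finset.range (n + 1), i) * 2 : ℕ) : ℝ) = (((n + 1) * (n + 1 - 1) : ℕ) : ℝ) := by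
        rw [h5]
      push_cast at this
      simpa using this
    push_cast at h6
    linarith
  rw [h4]
  push_cast
  nlinarith [Nat.cast_nonneg (α := ℝ) n]

end Pool.Agent.Work.MP_e0aece_nt.Lg

end
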