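import Mathlib
import Pool.Agent.Work.MP_e0aece_nt.Bd.B03
import Pool.Agent.Work.MP_e0aece_nt.Sandwich
import Pool.Agent.Work.MP_e0aece_nt.DivisorBound

/-! Bundle of small proof modules (one section per former module). -/

section

/-!
# A hypergraph colouring theorem (counting form of the local lemma)
-/

namespace Pool.Agent.Work.MP_e0aece_nt

open Finset

section

variable {α : Type*} [Fintype α] [DecidableEq α]

/-- `e` is monochromatic under `c`. -/
def Mono {K : ℕ} (c : α → Fin K) (e : Finset α) : Prop := ∀ a ∈ e, ∀ b ∈ e, c a = c b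

open Classical in
/-- Colourings with no monochromatic edge inside `S`. -/
noncomputable def good (E : Finset (Finset α)) (K : ℕ) (S : Finset α) : Finset (α → Fin K) :=
  Finset.univ.filter (fun c => ∀ e ∈ E, e ⊆ S → ¬ Mono c e)

open Classical in
lemma mem_good {E : Finset (Finset α)} {K : ℕ} {S : Finset α} {c : α → Fin K} :
    c ∈ good E K S ↔ ∀ e ∈ E, e ⊆ S → ¬ Mono c e := by
  simp [good]

open Classical in
/-- The key injection. -/
lemma card_mono_mul_le (E : Finset (Finset α)) (K : ℕ) (S e : Finset α) (w : α) (hw : w ∈ e) :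
    ((good E K S).filter (fun c => Mono c e)).card * K ^ (e.card - 1)
      ≤ (good E K (S \ e.erase w)).card := by
  have hcard : Fintype.card (↥(e.erase w) → Fin K) = K ^ (e.card - 1) := by
    rw [Fintype.card_fun, Fintype.card_fin, Fintype.card_coe, Finset.card_erase_of_mem hw]
  rw [← hcard, ← Finset.card_univ, ← Finset.card_product]
  apply Finset.card_le_card_of_injOn
    (fun x : (α → Fin K) × (↥(e.erase w) → Fin K) =>
      (fun a => if h : a ∈ e.erase w then x.2 ⟨a, h⟩ else x.1 a : α → Fin K))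
  · rintro ⟨c, d⟩ hcd
    simp only [Finset.coe_product, Set.mem_prod, Finset.mem_coe, Finset.mem_filter,
      Finset.mem_univ, and_true] at hcd
    obtain ⟨hc, -⟩ := hcd
    rw [Finset.mem_coe, mem_good]
    intro e' he' hsub hmono
    rw [mem_good] at hc
    apply hc e' he' (hsub.trans Finset.sdiff_subset)
    have hout : ∀ a ∈ e', a ∉ e.erase w := by
      intro a ha
      exact (Finset.mem_sdiff.mp (hsub ha)).2
    intro a ha b hb
    have := hmono a ha b hb
    simp only [dif_neg (hout a ha), dif_neg (hout b hb)] at this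
    exact this
  · rintro ⟨c, d⟩ hcd ⟨c', d'⟩ hcd' heq
    simp only [Finset.coe_product, Set.mem_prod, Finset.mem_coe, Finset.mem_filter,
      Finset.mem_univ, and_true] at hcd hcd'
    obtain ⟨-, hm⟩ := hcd
    obtain ⟨-, hm'⟩ := hcd'
    have hout : ∀ a, a ∉ e.erase w → c a = c' a := by
      intro a ha
      have := congrFun heq a
      simpa only [dif_neg ha] using this
    have hcc : c = c' := by
      funext a
      by_cases ha : a ∈ e.erase w
      · have hae : a ∈ e := Finset.mem_of_mem_erase ha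
        rw [hm a hae w hw, hm' a hae w hw]
        exact hout w (by simp)
      · exact hout a ha
    have hdd : d = d' := by
      funext a
      have := congrFun heq a.1
      simpa only [dif_pos a.2] using this
    rw [hcc, hdd]

lemma chain (E : Finset (Finset α)) (K : ℕ) (β : ℝ) (hβ : 0 ≤ β) (m : ℕ)
    (hstep : ∀ S : Finset α, S.card < m → ∀ v ∉ S,
      β * (good E K S).card ≤ K * (good E K (insert v S)).card)
    (U T : Finset α) (hUT : Disjoint U T) (hcard : U.card + T.card ≤ m) :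
    β ^ T.card * (good E K U).card ≤ (K : ℝ) ^ T.card * (good E K (U ∪ T)).card := by
  induction T using Finset.induction_on with
  | empty => simp
  | insert a T haT ih =>
    rw [Finset.disjoint_insert_right] at hUT
    rw [Finset.card_insert_of_notMem haT] at hcard ⊢
    have h1 := ih hUT.2 (by omega)
    have h2 := hstep (U ∪ T) (by rw [Finset.card_union_of_disjoint hUT.2]; omega) a
      (by rw [Finset.mem_union]; tauto)
    have h3 : U ∪ insert a T = insert a (U ∪ T) := by
      rw [Finset.union_insert]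
    rw [h3]
    calc β ^ (T.card + 1) * ((good E K U).card : ℝ)
        = β * (β ^ T.card * (good E K U).card) := by ring
      _ ≤ β * ((K : ℝ) ^ T.card * (good E K (U ∪ T)).card) := by gcongr
      _ = (K : ℝ) ^ T.card * (β * (good E K (U ∪ T)).card) := by ring
      _ ≤ (K : ℝ) ^ T.card * (K * (good E K (insert a (U ∪ T))).card) := by gcongr
      _ = (K : ℝ) ^ (T.card + 1) * (good E K (insert a (U ∪ T))).card := by ring

open Classical in
lemma step (E : Finset (Finset α)) (K : ℕ) (hK : 0 < K) (β : ℝ) (hβ : 0 < β)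
    (hE : ∀ e ∈ E, 2 ≤ e.card)
    (hdeg : ∀ v : α, β + ∑ e ∈ E with v ∈ e, (β ^ (e.card - 2))⁻¹ ≤ K) :
    ∀ m : ℕ, ∀ S : Finset α, S.card < m → ∀ v ∉ S,
      β * (good E K S).card ≤ K * (good E K (insert v S)).card := by
  intro m
  induction m with
  | zero => intro S hS; omega
  | succ m ih =>
    intro S hS v hv
    -- bad sets
    have hKr : (0 : ℝ) < K := by exact_mod_cast hK
    have hbad : ∀ e ∈ E.filter (fun e => v ∈ e ∧ e ⊆ insert v S),
        (((good E K S).filter (fun c => Mono c e)).card : ℝ)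
          ≤ (K : ℝ)⁻¹ * (β ^ (e.card - 2))⁻¹ * (good E K S).card := by
      intro e he
      rw [Finset.mem_filter] at he
      obtain ⟨heE, hve, hes⟩ := he
      have h2 := hE e heE
      obtain ⟨w, hw, hwv⟩ : ∃ w ∈ e, w ≠ v := by
        obtain ⟨a, ha, b, hb, hab⟩ := Finset.one_lt_card.mp (show 1 < e.card by omega)
        by_cases h : a = v
        · exact ⟨b, hb, fun h' => hab (h.trans h'.symm)⟩
        · exact ⟨a, ha, h⟩
      have h3 := card_mono_mul_le E K S e w hw
      set T := (e.erase w).erase v with hT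
      have hTcard : T.card = e.card - 2 := by
        rw [hT, Finset.card_erase_of_mem, Finset.card_erase_of_mem hw]
        · omega
        · rw [Finset.mem_erase]; exact ⟨hwv.symm, hve⟩
      have hTS : T ⊆ S := by
        intro a ha
        rw [hT, Finset.mem_erase, Finset.mem_erase] at ha
        have := hes ha.2.2
        rw [Finset.mem_insert] at this
        exact this.resolve_left ha.1
      have hU : S \ e.erase w = S \ T := by
        ext a
        rw [Finset.mem_sdiff, Finset.mem_sdiff, hT]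
        constructor
        · rintro ⟨h1, h2⟩
          exact ⟨h1, fun h => h2 (Finset.mem_of_mem_erase h)⟩
        · rintro ⟨h1, h2⟩
          refine ⟨h1, fun h => h2 (Finset.mem_erase.mpr ⟨?_, h⟩)⟩
          rintro rfl
          exact hv h1
      rw [hU] at h3
      have hcU : (S \ T).card + T.card = S.card := Finset.card_sdiff_add_card_eq_card hTS
      have h4 := chain E K β hβ.le m ih (S \ T) T Finset.sdiff_disjoint (by omega)
      rw [Finset.sdiff_union_of_subset hTS, hTcard] at h4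
      have h3' : (((good E K S).filter (fun c => Mono c e)).card : ℝ) * (K : ℝ) ^ (e.card - 1)
          ≤ (good E K (S \ T)).card := by exact_mod_cast h3
      have hpos : 0 < β ^ (e.card - 2) := by positivity
      have hKpow : (K : ℝ) ^ (e.card - 1) = K * (K : ℝ) ^ (e.card - 2) := by
        rw [← pow_succ']; congr 1; omega
      have hKpos : (0 : ℝ) < (K : ℝ) ^ (e.card - 2) := by positivity
      have h5 : (((good E K S).filter (fun c => Mono c e)).card : ℝ) * (K * β ^ (e.card - 2))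
          ≤ (good E K S).card := by
        have h6 : ((((good E K S).filter (fun c => Mono c e)).card : ℝ) * (K * β ^ (e.card - 2)))
            * (K : ℝ) ^ (e.card - 2) ≤ ((good E K S).card : ℝ) * (K : ℝ) ^ (e.card - 2) := by
          calc ((((good E K S).filter (fun c => Mono c e)).card : ℝ) * (K * β ^ (e.card - 2)))
                * (K : ℝ) ^ (e.card - 2)
              = β ^ (e.card - 2) * ((((good E K S).filter (fun c => Mono c e)).card : ℝ)
                * (K : ℝ) ^ (e.card - 1)) := by rw [hKpow]; ring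
            _ ≤ β ^ (e.card - 2) * (good E K (S \ T)).card := by gcongr
            _ ≤ (K : ℝ) ^ (e.card - 2) * (good E K S).card := h4
            _ = ((good E K S).card : ℝ) * (K : ℝ) ^ (e.card - 2) := by ring
        exact le_of_mul_le_mul_right h6 hKpos
      calc (((good E K S).filter (fun c => Mono c e)).card : ℝ)
          = (K : ℝ)⁻¹ * (β ^ (e.card - 2))⁻¹ *
            ((((good E K S).filter (fun c => Mono c e)).card : ℝ) * (K * β ^ (e.card - 2))) := by
            field_simp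
        _ ≤ (K : ℝ)⁻¹ * (β ^ (e.card - 2))⁻¹ * (good E K S).card := by gcongr
    -- covering
    have hcover : good E K S ⊆ good E K (insert v S) ∪
        (E.filter (fun e => v ∈ e ∧ e ⊆ insert v S)).biUnion
          (fun e => (good E K S).filter (fun c => Mono c e)) := by
      intro c hc
      rw [Finset.mem_union]
      by_cases h : c ∈ good E K (insert v S)
      · exact Or.inl h
      · right
        rw [mem_good] at h
        push Not at h
        obtain ⟨e, heE, hes, hm⟩ := h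
        rw [Finset.mem_biUnion]
        refine ⟨e, ?_, ?_⟩
        · rw [Finset.mem_filter]
          refine ⟨heE, ?_, hes⟩
          by_contra hve
          have : e ⊆ S := by
            intro a ha
            have := hes ha
            rw [Finset.mem_insert] at this
            rcases this with rfl | h
            · exact absurd ha hve
            · exact h
          exact (mem_good.mp hc) e heE this hm
        · rw [Finset.mem_filter]; exact ⟨hc, hm⟩
    have hcount : ((good E K S).card : ℝ) ≤ (good E K (insert v S)).card +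
        ∑ e ∈ E.filter (fun e => v ∈ e ∧ e ⊆ insert v S),
          (K : ℝ)⁻¹ * (β ^ (e.card - 2))⁻¹ * (good E K S).card := by
      have h1 : (good E K S).card ≤ (good E K (insert v S)).card +
          ∑ e ∈ E.filter (fun e => v ∈ e ∧ e ⊆ insert v S),
            ((good E K S).filter (fun c => Mono c e)).card := by
        refine (Finset.card_le_card hcover).trans ?_
        refine (Finset.card_union_le _ _).trans ?_
        gcongr
        exact Finset.card_biUnion_le
      have h2 : ((good E K S).card : ℝ) ≤ (good E K (insert v S)).card +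
          ∑ e ∈ E.filter (fun e => v ∈ e ∧ e ⊆ insert v S),
            (((good E K S).filter (fun c => Mono c e)).card : ℝ) := by exact_mod_cast h1
      refine h2.trans ?_
      gcongr with e he
      exact hbad e he
    have hsum : ∑ e ∈ E.filter (fun e => v ∈ e ∧ e ⊆ insert v S), (β ^ (e.card - 2))⁻¹
        ≤ K - β := by
      have h1 : ∑ e ∈ E.filter (fun e => v ∈ e ∧ e ⊆ insert v S), (β ^ (e.card - 2))⁻¹
          ≤ ∑ e ∈ E.filter (fun e => v ∈ e), (β ^ (e.card - 2))⁻¹ := by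
        apply Finset.sum_le_sum_of_subset_of_nonneg
        · intro e he
          rw [Finset.mem_filter] at he ⊢
          exact ⟨he.1, he.2.1⟩
        · intro e _ _; positivity
      have h2 := hdeg v
      linarith
    have hsum2 : ∑ e ∈ E.filter (fun e => v ∈ e ∧ e ⊆ insert v S),
          (K : ℝ)⁻¹ * (β ^ (e.card - 2))⁻¹ * (good E K S).card
        ≤ (K : ℝ)⁻¹ * (K - β) * (good E K S).card := by
      rw [← Finset.sum_mul, ← Finset.mul_sum]
      gcongr
    have h7 : ((good E K S).card : ℝ) ≤ (good E K (insert v S)).card +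
        (K : ℝ)⁻¹ * (K - β) * (good E K S).card := hcount.trans (by gcongr)
    have h8 : (K : ℝ)⁻¹ * (K - β) = 1 - (K : ℝ)⁻¹ * β := by
      field_simp
    rw [h8] at h7
    have h9 : (K : ℝ)⁻¹ * β * (good E K S).card ≤ (good E K (insert v S)).card := by linarith
    calc β * ((good E K S).card : ℝ) = K * ((K : ℝ)⁻¹ * β * (good E K S).card) := by
          field_simp
      _ ≤ K * (good E K (insert v S)).card := by gcongr

open Classical in
/-- Hypergraph colouring theorem, finite type version. -/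
theorem exists_colouring_fintype (E : Finset (Finset α)) (K : ℕ) (hK : 0 < K) (β : ℝ) (hβ : 0 < β)
    (hE : ∀ e ∈ E, 2 ≤ e.card)
    (hdeg : ∀ v : α, β + ∑ e ∈ E with v ∈ e, (β ^ (e.card - 2))⁻¹ ≤ K) :
    ∃ c : α → Fin K, ∀ e ∈ E, ∃ a ∈ e, ∃ b ∈ e, c a ≠ c b := by
  have hst := step E K hK β hβ hE hdeg
  have h1 := chain E K β hβ.le (Fintype.card α) (fun S hS v hv => hst (Fintype.card α) S hS v hv)
    ∅ Finset.univ (by simp) (by simp)
  have hempty : (good E K (∅ : Finset α)).card = K ^ Fintype.card α := by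
    have : good E K (∅ : Finset α) = Finset.univ := by
      ext c
      rw [mem_good]
      simp only [Finset.mem_univ, iff_true]
      intro e he hsub
      have := hE e he
      rw [Finset.subset_empty.mp hsub] at this
      simp at this
    rw [this, Finset.card_univ, Fintype.card_fun, Fintype.card_fin]
  rw [hempty] at h1
  have hpos : (0 : ℝ) < (good E K (∅ ∪ Finset.univ : Finset α)).card := by
    have h2 : (0 : ℝ) < β ^ (Finset.univ : Finset α).card * ((K ^ Fintype.card α : ℕ) : ℝ) := by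
      positivity
    have h3 := h2.trans_le h1
    have h4 : (0 : ℝ) < (K : ℝ) ^ (Finset.univ : Finset α).card := by positivity
    exact (mul_pos_iff_of_pos_left h4).mp h3
  have hpos' : 0 < (good E K (∅ ∪ Finset.univ : Finset α)).card := by exact_mod_cast hpos
  obtain ⟨c, hc⟩ := Finset.card_pos.mp hpos'
  refine ⟨c, fun e he => ?_⟩
  have h5 := mem_good.mp hc e he (by intro a _; simp)
  unfold Mono at h5
  push Not at h5
  exact h5

end

open Classical in
/-- Hypergraph colouring theorem for hyperedges in a finite set `V`. -/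
theorem exists_colouring {α : Type*} (V : Finset α) (E : Finset (Finset α)) (K : ℕ)
    (hK : 0 < K) (β : ℝ) (hβ : 0 < β) (hE : ∀ e ∈ E, 2 ≤ e.card) (hEV : ∀ e ∈ E, e ⊆ V)
    (hdeg : ∀ v ∈ V, β + ∑ e ∈ E with v ∈ e, (β ^ (e.card - 2))⁻¹ ≤ K) :
    ∃ c : α → Fin K, ∀ e ∈ E, ∃ a ∈ e, ∃ b ∈ e, c a ≠ c b := by
  let F : Finset α → Finset V := fun e => Finset.univ.filter (fun a : V => (a : α) ∈ e)
  have hFcard : ∀ e, e ⊆ V → (F e).card = e.card := by
    intro e he
    apply Finset.card_bij (fun (a : V) _ => (a : α))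
    · intro a ha
      exact (Finset.mem_filter.mp ha).2
    · intro a _ b _ h
      exact Subtype.ext h
    · intro b hb
      exact ⟨⟨b, he hb⟩, by simp [F, hb], rfl⟩
  have hFinj : ∀ e ∈ E, ∀ e' ∈ E, F e = F e' → e = e' := by
    intro e he e' he' h
    ext a
    constructor
    · intro ha
      have : (⟨a, hEV e he ha⟩ : V) ∈ F e := by simp [F, ha]
      rw [h] at this
      simpa [F] using this
    · intro ha
      have : (⟨a, hEV e' he' ha⟩ : V) ∈ F e' := by simp [F, ha]
      rw [← h] at this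
      simpa [F] using this
  obtain ⟨c, hc⟩ := exists_colouring_fintype (α := V) (E.image F) K hK β hβ (by
    intro e he
    obtain ⟨e', he', rfl⟩ := Finset.mem_image.mp he
    rw [hFcard e' (hEV e' he')]
    exact hE e' he') (by
    intro v
    have h1 := hdeg v v.2
    have h2 : (E.image F).filter (fun e => v ∈ e) = (E.filter (fun e => (v : α) ∈ e)).image F := by
      ext e
      simp only [Finset.mem_filter, Finset.mem_image]
      constructor
      · rintro ⟨⟨e', he', rfl⟩, hv⟩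
        refine ⟨e', ⟨he', ?_⟩, rfl⟩
        simpa [F] using hv
      · rintro ⟨e', ⟨he', hv⟩, rfl⟩
        refine ⟨⟨e', he', rfl⟩, ?_⟩
        simpa [F] using hv
    rw [h2, Finset.sum_image]
    · have h3 : ∑ e ∈ E with (v : α) ∈ e, (β ^ ((F e).card - 2))⁻¹
          = ∑ e ∈ E with (v : α) ∈ e, (β ^ (e.card - 2))⁻¹ := by
        apply Finset.sum_congr rfl
        intro e he
        rw [hFcard e (hEV e (Finset.mem_filter.mp he).1)]
      rw [h3]
      exact h1
    · intro e he e' he' h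
      exact hFinj e (Finset.mem_filter.mp he).1 e' (Finset.mem_filter.mp he').1 h)
  refine ⟨fun a => if h : a ∈ V then c ⟨a, h⟩ else ⟨0, hK⟩, ?_⟩
  intro e he
  obtain ⟨a, ha, b, hb, hab⟩ := hc (F e) (Finset.mem_image_of_mem _ he)
  refine ⟨a, by simpa [F] using ha, b, by simpa [F] using hb, ?_⟩
  simp only [dif_pos a.2, dif_pos b.2]
  exact hab

end Pool.Agent.Work.MP_e0aece_nt

end

section

/-!
# Counting Carmichael numbers with a given prime factor
-/

namespace Pool.Agent.Work.MP_e0aece_nt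

open Finset

/-- Numbers up to `B` in one residue class mod `m`. -/
lemma card_le_of_modEq (S : Finset ℕ) (m : ℕ) (hm : 0 < m) (B : ℝ) (hB : 0 ≤ B)
    (hS : ∀ n ∈ S, (n : ℝ) ≤ B) (hpair : ∀ n ∈ S, ∀ n' ∈ S, n ≡ n' [MOD m]) :
    (S.card : ℝ) ≤ B / m + 1 := by
  have h1 : S.card ≤ (Finset.range (⌊B⌋₊ / m + 1)).card := by
    apply Finset.card_le_card_of_injOn (fun n => n / m)
    · intro n hn
      rw [Finset.mem_coe] at hn
      simp only [Finset.coe_range, Set.mem_Iio]
      have : n ≤ ⌊B⌋₊ := Nat.le_floor (hS n hn)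
      have := Nat.div_le_div_right (c := m) this
      omega
    · intro n hn n' hn' h
      rw [Finset.mem_coe] at hn hn'
      simp only at h
      have h2 := hpair n hn n' hn'
      have h3 : n % m = n' % m := h2
      rw [← Nat.div_add_mod n m, ← Nat.div_add_mod n' m, h, h3]
  rw [Finset.card_range] at h1
  have h2 : (S.card : ℝ) ≤ ((⌊B⌋₊ / m + 1 : ℕ) : ℝ) := by exact_mod_cast h1
  refine h2.trans ?_
  push_cast
  have h3 : ((⌊B⌋₊ / m : ℕ) : ℝ) ≤ (⌊B⌋₊ : ℝ) / m := Nat.cast_div_le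
  have h4 : (⌊B⌋₊ : ℝ) ≤ B := Nat.floor_le hB
  have h5 : (⌊B⌋₊ : ℝ) / m ≤ B / m := by gcongr
  linarith

/-- The number of `q` in `[2, Y]` with `g ∣ q - 1`. -/
lemma card_filter_dvd_le (Y : ℝ) (hY : 0 ≤ Y) (g : ℕ) (hg : 0 < g) :
    (((Finset.range (⌊Y⌋₊ + 1)).filter (fun q => 2 ≤ q ∧ g ∣ q - 1)).card : ℝ) ≤ Y / g := by
  have h1 : ((Finset.range (⌊Y⌋₊ + 1)).filter (fun q => 2 ≤ q ∧ g ∣ q - 1)).card
      ≤ (Finset.Icc 1 (⌊Y⌋₊ / g)).card := by
    apply Finset.card_le_card_of_injOn (fun q => (q - 1) / g)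
    · intro q hq
      rw [Finset.mem_coe, Finset.mem_filter, Finset.mem_range] at hq
      obtain ⟨h1, h2, h3⟩ := hq
      rw [Finset.mem_coe, Finset.mem_Icc]
      constructor
      · rw [Nat.le_div_iff_mul_le hg, one_mul]
        exact Nat.le_of_dvd (by omega) h3
      · exact Nat.div_le_div_right (by omega)
    · intro q hq q' hq' h
      rw [Finset.mem_coe, Finset.mem_filter] at hq hq'
      simp only at h
      have h1 := Nat.div_mul_cancel hq.2.2
      have h2 := Nat.div_mul_cancel hq'.2.2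
      have h3 := hq.2.1
      have h4 := hq'.2.1
      rw [h] at h1
      omega
  rw [Nat.card_Icc, Nat.add_sub_cancel] at h1
  have h2 : (((Finset.range (⌊Y⌋₊ + 1)).filter (fun q => 2 ≤ q ∧ g ∣ q - 1)).card : ℝ)
      ≤ ((⌊Y⌋₊ / g : ℕ) : ℝ) := by exact_mod_cast h1
  refine h2.trans ?_
  have h3 : ((⌊Y⌋₊ / g : ℕ) : ℝ) ≤ (⌊Y⌋₊ : ℝ) / g := Nat.cast_div_le
  have h4 : (⌊Y⌋₊ : ℝ) ≤ Y := Nat.floor_le hY
  have h5 : (⌊Y⌋₊ : ℝ) / g ≤ Y / g := by gcongr
  linarith

/-- Sum of `gcd (P, q - 1)` over `q ∈ [2, Y]`. -/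
lemma sum_gcd_le (Y : ℝ) (hY : 0 ≤ Y) (P : ℕ) (hP : 0 < P) :
    (∑ q ∈ (Finset.range (⌊Y⌋₊ + 1)).filter (fun q => 2 ≤ q), (Nat.gcd P (q - 1) : ℝ))
      ≤ P.divisors.card * Y := by
  have h1 : ∀ q ∈ (Finset.range (⌊Y⌋₊ + 1)).filter (fun q => 2 ≤ q),
      (Nat.gcd P (q - 1) : ℝ) ≤ ∑ g ∈ P.divisors, if g ∣ q - 1 then (g : ℝ) else 0 := by
    intro q hq
    have h2 : Nat.gcd P (q - 1) ∈ P.divisors := by
      rw [Nat.mem_divisors]
      exact ⟨Nat.gcd_dvd_left _ _, hP.ne'⟩
    have h3 : (Nat.gcd P (q - 1) : ℝ) = if Nat.gcd P (q - 1) ∣ q - 1 then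
        ((Nat.gcd P (q - 1) : ℕ) : ℝ) else 0 := by
      rw [if_pos (Nat.gcd_dvd_right _ _)]
    rw [h3]
    apply Finset.single_le_sum (f := fun g : ℕ => if g ∣ q - 1 then (g : ℝ) else 0) _ h2
    intro g _
    split_ifs <;> positivity
  refine (Finset.sum_le_sum h1).trans ?_
  rw [Finset.sum_comm]
  have h2 : ∀ g ∈ P.divisors, (∑ q ∈ (Finset.range (⌊Y⌋₊ + 1)).filter (fun q => 2 ≤ q),
      if g ∣ q - 1 then (g : ℝ) else 0) ≤ Y := by
    intro g hg
    have hg0 : 0 < g := Nat.pos_of_mem_divisors hg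
    rw [← Finset.sum_filter, Finset.sum_const, Finset.filter_filter, nsmul_eq_mul]
    have h3 := card_filter_dvd_le Y hY g hg0
    have h4 : (0 : ℝ) < g := by exact_mod_cast hg0
    calc _ ≤ Y / g * g := by gcongr
      _ = Y := by field_simp
  refine (Finset.sum_le_sum h2).trans ?_
  rw [Finset.sum_const, nsmul_eq_mul]

/-- Counting numbers `n ≤ B` with a given prime factor `p` and another prime factor `q` of
comparable size, with `p - 1, q - 1 ∣ n - 1`. -/
theorem count_general (p : ℕ) (hp : p.Prime) (Z B : ℝ) (hZ : 1 ≤ Z) (hB : 0 ≤ B) (S : Finset ℕ)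
    (hS : ∀ n ∈ S, 1 ≤ n ∧ (n : ℝ) ≤ B ∧ p ∣ n ∧ p - 1 ∣ n - 1 ∧ ∃ q : ℕ, q.Prime ∧ q ≠ p ∧ q ∣ n ∧
      q - 1 ∣ n - 1 ∧ (p : ℝ) ≤ Z * q ∧ (q : ℝ) ≤ Z * p) :
    (S.card : ℝ) ≤ Z * p + 4 * Z ^ 3 * (p - 1).divisors.card * B / p ^ 3 := by
  classical
  have hp2 := hp.two_le
  have hp0 : (0 : ℝ) < p := by exact_mod_cast hp.pos
  set Y : ℝ := Z * p with hY
  have hY0 : 0 ≤ Y := by positivity
  set Q := (Finset.range (⌊Y⌋₊ + 1)).filter (fun q => 2 ≤ q) with hQ
  set Q' := Q.filter (fun q => q.Prime ∧ q ≠ p ∧ (p : ℝ) ≤ Z * q) with hQ'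
  have hcover : S ⊆ Q'.biUnion (fun q => S.filter (fun n => q ∣ n ∧ q - 1 ∣ n - 1)) := by
    intro n hn
    obtain ⟨h1, h2, h3, h4, q, hq, hqp, hqn, hqn1, hpq, hqp'⟩ := hS n hn
    rw [Finset.mem_biUnion]
    refine ⟨q, ?_, ?_⟩
    · rw [hQ', hQ, Finset.mem_filter, Finset.mem_filter, Finset.mem_range]
      refine ⟨⟨?_, hq.two_le⟩, hq, hqp, hpq⟩
      have := Nat.le_floor hqp'
      omega
    · rw [Finset.mem_filter]; exact ⟨hn, hqn, hqn1⟩
  have h1 : (S.card : ℝ) ≤ ∑ q ∈ Q', ((S.filter (fun n => q ∣ n ∧ q - 1 ∣ n - 1)).card : ℝ) := by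
    have := (Finset.card_le_card hcover).trans Finset.card_biUnion_le
    exact_mod_cast this
  have h2 : ∀ q ∈ Q', ((S.filter (fun n => q ∣ n ∧ q - 1 ∣ n - 1)).card : ℝ)
      ≤ 1 + 4 * Z ^ 2 * B / p ^ 4 * Nat.gcd (p - 1) (q - 1) := by
    intro q hq
    rw [hQ', Finset.mem_filter] at hq
    obtain ⟨hq1, hqprime, hqp, hpZq⟩ := hq
    have hq2 := hqprime.two_le
    have hq0 : (0 : ℝ) < q := by exact_mod_cast hqprime.pos
    set L := Nat.lcm (p - 1) (q - 1) with hL
    have hL0 : 0 < L := Nat.lcm_pos (by omega) (by omega)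
    have h3 : ((S.filter (fun n => q ∣ n ∧ q - 1 ∣ n - 1)).card : ℝ)
        ≤ B / ((p * q * L : ℕ) : ℝ) + 1 := by
      apply card_le_of_modEq _ _ (by have := hp.pos; have := hqprime.pos; positivity) B hB
      · intro n hn
        exact (hS n (Finset.mem_filter.mp hn).1).2.1
      · intro n hn n' hn'
        rw [Finset.mem_filter] at hn hn'
        obtain ⟨hn, hqn, hqn1⟩ := hn
        obtain ⟨hn', hqn', hqn1'⟩ := hn'
        obtain ⟨a1, a2, a3, a4, -⟩ := hS n hn
        obtain ⟨b1, b2, b3, b4, -⟩ := hS n' hn'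
        have hpqn : p * q ∣ n :=
          Nat.Coprime.mul_dvd_of_dvd_of_dvd ((Nat.coprime_primes hp hqprime).mpr (Ne.symm hqp)) a3 hqn
        have hpqn' : p * q ∣ n' :=
          Nat.Coprime.mul_dvd_of_dvd_of_dvd ((Nat.coprime_primes hp hqprime).mpr (Ne.symm hqp)) b3 hqn'
        have hLn : L ∣ n - 1 := Nat.lcm_dvd a4 hqn1
        have hLn' : L ∣ n' - 1 := Nat.lcm_dvd b4 hqn1'
        have hcop : Nat.Coprime (p * q) L := by
          have h5 : Nat.Coprime n (n - 1) := by
            have : Nat.Coprime (n - 1 + 1) (n - 1) := by simp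
            rwa [Nat.sub_add_cancel a1] at this
          exact Nat.Coprime.of_dvd hpqn hLn h5
        rw [← Nat.modEq_and_modEq_iff_modEq_mul hcop]
        constructor
        · exact ((Nat.modEq_zero_iff_dvd.mpr hpqn)).trans ((Nat.modEq_zero_iff_dvd.mpr hpqn').symm)
        · have e1 : n - 1 ≡ n' - 1 [MOD L] :=
            ((Nat.modEq_zero_iff_dvd.mpr hLn)).trans ((Nat.modEq_zero_iff_dvd.mpr hLn').symm)
          have e2 := e1.add_right 1
          rwa [Nat.sub_add_cancel a1, Nat.sub_add_cancel b1] at e2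
    have h4 : B / ((p * q * L : ℕ) : ℝ) ≤ 4 * Z ^ 2 * B / p ^ 4 * Nat.gcd (p - 1) (q - 1) := by
      have hgL : ((Nat.gcd (p - 1) (q - 1) : ℕ) : ℝ) * L = (p - 1 : ℝ) * (q - 1) := by
        have := Nat.gcd_mul_lcm (p - 1) (q - 1)
        have h5 : ((Nat.gcd (p - 1) (q - 1) * Nat.lcm (p - 1) (q - 1) : ℕ) : ℝ)
            = (((p - 1) * (q - 1) : ℕ) : ℝ) := by rw [this]
        push_cast at h5
        rw [Nat.cast_sub (by omega), Nat.cast_sub (by omega)] at h5
        rw [hL]
        simpa using h5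
      have hL0' : (0 : ℝ) < L := by exact_mod_cast hL0
      have hp1 : (p : ℝ) / 2 ≤ (p : ℝ) - 1 := by
        have : (2 : ℝ) ≤ p := by exact_mod_cast hp2
        linarith
      have hq1' : (q : ℝ) / 2 ≤ (q : ℝ) - 1 := by
        have : (2 : ℝ) ≤ q := by exact_mod_cast hq2
        linarith
      have hkey : (p : ℝ) ^ 4 ≤ 4 * Z ^ 2 * (Nat.gcd (p - 1) (q - 1)) * (p * q * L) := by
        have hp1' : (0 : ℝ) ≤ (p : ℝ) - 1 := by
          have : (2 : ℝ) ≤ p := by exact_mod_cast hp2
          linarith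
        have h6 : (p : ℝ) * q / 4 ≤ (p - 1 : ℝ) * (q - 1) := by
          calc (p : ℝ) * q / 4 = (p / 2) * (q / 2) := by ring
            _ ≤ (p - 1 : ℝ) * (q - 1) := by gcongr
        calc (p : ℝ) ^ 4 = p ^ 2 * (p * p) := by ring
          _ ≤ p ^ 2 * ((Z * q) * (Z * q)) := by gcongr
          _ = 4 * Z ^ 2 * (p * q) * (p * q / 4) := by ring
          _ ≤ 4 * Z ^ 2 * (p * q) * ((p - 1 : ℝ) * (q - 1)) := by gcongr
          _ = 4 * Z ^ 2 * (p * q) * (((Nat.gcd (p - 1) (q - 1) : ℕ) : ℝ) * L) := by rw [hgL]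
          _ = 4 * Z ^ 2 * (Nat.gcd (p - 1) (q - 1)) * (p * q * L) := by ring
      push_cast
      rw [div_le_iff₀ (by positivity)]
      calc B = B * 1 := by ring
        _ ≤ B * (4 * Z ^ 2 * (Nat.gcd (p - 1) (q - 1)) * (p * q * L) / p ^ 4) := by
          gcongr
          rw [le_div_iff₀ (by positivity), one_mul]
          exact hkey
        _ = 4 * Z ^ 2 * B / p ^ 4 * Nat.gcd (p - 1) (q - 1) * (p * q * L) := by ring
    linarith
  have h3 : ∑ q ∈ Q', ((S.filter (fun n => q ∣ n ∧ q - 1 ∣ n - 1)).card : ℝ)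
      ≤ ∑ q ∈ Q, (1 + 4 * Z ^ 2 * B / p ^ 4 * (Nat.gcd (p - 1) (q - 1) : ℝ)) := by
    refine (Finset.sum_le_sum h2).trans ?_
    apply Finset.sum_le_sum_of_subset_of_nonneg (Finset.filter_subset _ _)
    intro q _ _
    positivity
  rw [Finset.sum_add_distrib, ← Finset.mul_sum, Finset.sum_const, nsmul_eq_mul, mul_one] at h3
  have h4 := sum_gcd_le Y hY0 (p - 1) (by omega)
  have h5 : (Q.card : ℝ) ≤ Y := by
    have h6 : Q.card ≤ (Finset.Icc 1 ⌊Y⌋₊).card := by
      apply Finset.card_le_card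
      intro q hq
      rw [hQ, Finset.mem_filter, Finset.mem_range] at hq
      rw [Finset.mem_Icc]
      omega
    rw [Nat.card_Icc, Nat.add_sub_cancel] at h6
    have h7 : (Q.card : ℝ) ≤ (⌊Y⌋₊ : ℝ) := by exact_mod_cast h6
    exact h7.trans (Nat.floor_le hY0)
  have h6 : 4 * Z ^ 2 * B / p ^ 4 * ∑ q ∈ Q, (Nat.gcd (p - 1) (q - 1) : ℝ)
      ≤ 4 * Z ^ 3 * (p - 1).divisors.card * B / p ^ 3 := by
    calc 4 * Z ^ 2 * B / p ^ 4 * ∑ q ∈ Q, (Nat.gcd (p - 1) (q - 1) : ℝ)
        ≤ 4 * Z ^ 2 * B / p ^ 4 * ((p - 1).divisors.card * Y) := by gcongr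
      _ = 4 * Z ^ 3 * (p - 1).divisors.card * B / p ^ 3 := by
        rw [hY]; field_simp
  linarith

end Pool.Agent.Work.MP_e0aece_nt

end

section

/-!
# Carmichael numbers with exactly three prime factors
-/

namespace Pool.Agent.Work.MP_e0aece_nt

open Finset

/-- If `P ∣ QR + Q + R` etc. then one of `P, Q, R` is at most `6 gcd(P,Q)^2`. -/
lemma three_gcd {P Q R : ℕ} (hP : 0 < P) (hQ : 0 < Q) (hR : 0 < R)
    (h1 : P ∣ Q * R + Q + R) (h2 : Q ∣ P * R + P + R) (h3 : R ∣ P * Q + P + Q) :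
    P ≤ 6 * (Nat.gcd P Q) ^ 2 ∨ Q ≤ 6 * (Nat.gcd P Q) ^ 2 ∨ R ≤ 6 * (Nat.gcd P Q) ^ 2 := by
  set g := Nat.gcd P Q with hg
  have hg0 : 0 < g := Nat.gcd_pos_of_pos_left _ hP
  have hgP : g ∣ P := Nat.gcd_dvd_left _ _
  have hgQ : g ∣ Q := Nat.gcd_dvd_right _ _
  have hgR : g ∣ R := by
    have h4 : g ∣ Q * R + Q + R := hgP.trans h1
    have h5 : g ∣ Q * R + Q := by
      have : Q * R + Q = Q * (R + 1) := by ring
      rw [this]; exact hgQ.mul_right _
    exact (Nat.dvd_add_right h5).mp h4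
  have hPR : Nat.gcd P R ∣ g := by
    apply Nat.dvd_gcd (Nat.gcd_dvd_left _ _)
    have h4 : Nat.gcd P R ∣ Q * R + Q + R := (Nat.gcd_dvd_left _ _).trans h1
    have h5 : Nat.gcd P R ∣ Q * R + R := by
      have : Q * R + R = R * (Q + 1) := by ring
      rw [this]; exact (Nat.gcd_dvd_right _ _).mul_right _
    have h6 : Q * R + Q + R = (Q * R + R) + Q := by ring
    rw [h6] at h4
    exact (Nat.dvd_add_right h5).mp h4
  have hQR : Nat.gcd Q R ∣ g := by
    have h4 : Nat.gcd Q R ∣ P * R + P + R := (Nat.gcd_dvd_left _ _).trans h2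
    have h5 : Nat.gcd Q R ∣ P * R + R := by
      have : P * R + R = R * (P + 1) := by ring
      rw [this]; exact (Nat.gcd_dvd_right _ _).mul_right _
    have h6 : P * R + P + R = (P * R + R) + P := by ring
    rw [h6] at h4
    exact Nat.dvd_gcd ((Nat.dvd_add_right h5).mp h4) (Nat.gcd_dvd_left _ _)
  obtain ⟨a, ha⟩ := hgP
  obtain ⟨b, hb⟩ := hgQ
  obtain ⟨c, hc⟩ := hgR
  have ha0 : 0 < a := by
    rcases Nat.eq_zero_or_pos a with h | h
    · rw [h] at ha; omega
    · exact h
  have hb0 : 0 < b := by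
    rcases Nat.eq_zero_or_pos b with h | h
    · rw [h] at hb; omega
    · exact h
  have hc0 : 0 < c := by
    rcases Nat.eq_zero_or_pos c with h | h
    · rw [h] at hc; omega
    · exact h
  have hab : Nat.Coprime a b := by
    have h4 : Nat.gcd P Q = g * Nat.gcd a b := by
      conv_lhs => rw [ha, hb]
      exact Nat.gcd_mul_left _ _ _
    rw [← hg] at h4
    have h5 : g * 1 = g * Nat.gcd a b := by rw [mul_one]; exact h4
    exact (Nat.eq_of_mul_eq_mul_left hg0 h5).symm
  have hac : Nat.Coprime a c := by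
    have h4 : g * Nat.gcd a c ∣ g * 1 := by
      rw [← Nat.gcd_mul_left, ← ha, ← hc, mul_one]; exact hPR
    exact Nat.dvd_one.mp (Nat.dvd_of_mul_dvd_mul_left hg0 h4)
  have hbc : Nat.Coprime b c := by
    have h4 : g * Nat.gcd b c ∣ g * 1 := by
      rw [← Nat.gcd_mul_left, ← hb, ← hc, mul_one]; exact hQR
    exact Nat.dvd_one.mp (Nat.dvd_of_mul_dvd_mul_left hg0 h4)
  -- divisibility of N
  set N := g * (a * b + b * c + c * a) + (a + b + c) with hN
  have haN : a ∣ N := by
    have h4 : g * a ∣ g * (g * b * c + b + c) := by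
      rw [← ha]
      have : g * (g * b * c + b + c) = Q * R + Q + R := by rw [hb, hc]; ring
      rw [this]; exact h1
    have h5 : a ∣ g * b * c + b + c := Nat.dvd_of_mul_dvd_mul_left hg0 h4
    have h6 : N = (g * b * c + b + c) + a * (g * b + g * c + 1) := by rw [hN]; ring
    rw [h6]
    exact h5.add (Dvd.intro _ rfl)
  have hbN : b ∣ N := by
    have h4 : g * b ∣ g * (g * a * c + a + c) := by
      rw [← hb]
      have : g * (g * a * c + a + c) = P * R + P + R := by rw [ha, hc]; ring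
      rw [this]; exact h2
    have h5 : b ∣ g * a * c + a + c := Nat.dvd_of_mul_dvd_mul_left hg0 h4
    have h6 : N = (g * a * c + a + c) + b * (g * a + g * c + 1) := by rw [hN]; ring
    rw [h6]
    exact h5.add (Dvd.intro _ rfl)
  have hcN : c ∣ N := by
    have h4 : g * c ∣ g * (g * a * b + a + b) := by
      rw [← hc]
      have : g * (g * a * b + a + b) = P * Q + P + Q := by rw [ha, hb]; ring
      rw [this]; exact h3
    have h5 : c ∣ g * a * b + a + b := Nat.dvd_of_mul_dvd_mul_left hg0 h4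
    have h6 : N = (g * a * b + a + b) + c * (g * a + g * b + 1) := by rw [hN]; ring
    rw [h6]
    exact h5.add (Dvd.intro _ rfl)
  have habc : a * b * c ∣ N := by
    apply Nat.Coprime.mul_dvd_of_dvd_of_dvd
    · exact Nat.Coprime.mul_left hac hbc
    · exact Nat.Coprime.mul_dvd_of_dvd_of_dvd hab haN hbN
    · exact hcN
  have hle : a * b * c ≤ N := Nat.le_of_dvd (by positivity) habc
  by_contra hcon
  push Not at hcon
  obtain ⟨k1, k2, k3⟩ := hcon
  have ka : 6 * g < a := by
    rw [ha] at k1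
    have : g * (6 * g) < g * a := by nlinarith
    exact lt_of_mul_lt_mul_left this (Nat.zero_le _)
  have kb : 6 * g < b := by
    rw [hb] at k2
    have : g * (6 * g) < g * b := by nlinarith
    exact lt_of_mul_lt_mul_left this (Nat.zero_le _)
  have kc : 6 * g < c := by
    rw [hc] at k3
    have : g * (6 * g) < g * c := by nlinarith
    exact lt_of_mul_lt_mul_left this (Nat.zero_le _)
  have e1 : (6 * g) * (a * b) < c * (a * b) := Nat.mul_lt_mul_of_pos_right kc (by positivity)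
  have e2 : (6 * g) * (b * c) < a * (b * c) := Nat.mul_lt_mul_of_pos_right ka (by positivity)
  have e3 : (6 * g) * (c * a) < b * (c * a) := Nat.mul_lt_mul_of_pos_right kb (by positivity)
  have e4 : a ≤ a * b := Nat.le_mul_of_pos_right _ hb0
  have e5 : b ≤ b * c := Nat.le_mul_of_pos_right _ hc0
  have e6 : c ≤ c * a := Nat.le_mul_of_pos_right _ ha0
  have e7 : a * b ≤ g * (a * b) := Nat.le_mul_of_pos_left _ hg0
  have e8 : b * c ≤ g * (b * c) := Nat.le_mul_of_pos_left _ hg0
  have e9 : c * a ≤ g * (c * a) := Nat.le_mul_of_pos_left _ hg0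
  have e10 : N = g * (a * b) + g * (b * c) + g * (c * a) + a + b + c := by rw [hN]; ring
  have e11 : a * b * c = c * (a * b) := by ring
  have e12 : a * (b * c) = c * (a * b) := by ring
  have e13 : b * (c * a) = c * (a * b) := by ring
  rw [e11, e10] at hle
  rw [e12] at e2
  rw [e13] at e3
  have f1 : (6 * g) * (a * b) = 6 * (g * (a * b)) := by ring
  have f2 : (6 * g) * (b * c) = 6 * (g * (b * c)) := by ring
  have f3 : (6 * g) * (c * a) = 6 * (g * (c * a)) := by ring
  omega

/-- Counting Carmichael numbers with exactly three prime factors, one of which is `p`. -/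
theorem count_three (p : ℕ) (hp : p.Prime) (Z T : ℝ) (hZ : 1 ≤ Z) (S : Finset ℕ)
    (hS : ∀ n ∈ S, IsCarmichael n ∧ p ∣ n ∧ n.primeFactors.card = 3 ∧
      ∀ q : ℕ, q.Prime → q ∣ n → (p : ℝ) ≤ Z * q ∧ (q : ℝ) ≤ Z * p)
    (hT : ∀ q : ℕ, 2 ≤ q → (q : ℝ) ≤ Z * p → (((p * q - 1).divisors.card : ℕ) : ℝ) ≤ T) :
    (S.card : ℝ) ≤ (p - 1).divisors.card * T * (Z * p * Real.sqrt (12 * Z / p)) := by
  classical
  have hp2 := hp.two_le
  have hp0 : (0 : ℝ) < p := by exact_mod_cast hp.pos
  set Y : ℝ := Z * p with hY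
  have hY0 : 0 ≤ Y := by positivity
  set G : Finset ℕ := (p - 1).divisors.filter (fun g : ℕ => (p : ℝ) ≤ 12 * Z * (g : ℝ) ^ 2) with hG
  set Q' : Finset ℕ := G.biUnion (fun g => (Finset.range (⌊Y⌋₊ + 1)).filter (fun q => 2 ≤ q ∧ g ∣ q - 1))
    with hQ'
  have hcover : S ⊆ Q'.biUnion (fun q => (p * q - 1).divisors.image (fun d => p * q * (d + 1))) := by
    intro n hn
    obtain ⟨hcar, hpn, hcard, hall⟩ := hS n hn
    have hsq := hcar.squarefree
    have hprod := Nat.prod_primeFactors_of_squarefree hsq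
    have hpmem : p ∈ n.primeFactors := by
      rw [Nat.mem_primeFactors]; exact ⟨hp, hpn, by have := hcar.1; omega⟩
    obtain ⟨q, r, hqr, hqrS⟩ : ∃ q r, q ≠ r ∧ n.primeFactors.erase p = {q, r} := by
      rw [← Finset.card_eq_two, Finset.card_erase_of_mem hpmem, hcard]
    have hqmem : q ∈ n.primeFactors.erase p := by rw [hqrS]; simp
    have hrmem : r ∈ n.primeFactors.erase p := by rw [hqrS]; simp
    rw [Finset.mem_erase] at hqmem hrmem
    have hq := Nat.prime_of_mem_primeFactors hqmem.2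
    have hr := Nat.prime_of_mem_primeFactors hrmem.2
    have hqn := Nat.dvd_of_mem_primeFactors hqmem.2
    have hrn := Nat.dvd_of_mem_primeFactors hrmem.2
    have hn3 : n = p * (q * r) := by
      rw [← hprod, ← Finset.mul_prod_erase _ _ hpmem, hqrS, Finset.prod_pair hqr]
    have hq2 := hq.two_le
    have hr2 := hr.two_le
    obtain ⟨P, hP⟩ : ∃ P, p = P + 1 := ⟨p - 1, by omega⟩
    obtain ⟨Q, hQ⟩ : ∃ Q, q = Q + 1 := ⟨q - 1, by omega⟩
    obtain ⟨R, hR⟩ : ∃ R, r = R + 1 := ⟨r - 1, by omega⟩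
    have hd1 := hcar.sub_one_dvd hp hpn
    have hd2 := hcar.sub_one_dvd hq hqn
    have hd3 := hcar.sub_one_dvd hr hrn
    have hP1 : p - 1 = P := by omega
    have hQ1 : q - 1 = Q := by omega
    have hR1 : r - 1 = R := by omega
    have en1 : n - 1 = P * ((Q + 1) * (R + 1)) + (Q * R + Q + R) := by
      rw [hn3, hP, hQ, hR]
      have : (P + 1) * ((Q + 1) * (R + 1)) = P * ((Q + 1) * (R + 1)) + (Q * R + Q + R) + 1 := by ring
      rw [this]; rfl
    have en2 : n - 1 = Q * ((P + 1) * (R + 1)) + (P * R + P + R) := by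
      rw [hn3, hP, hQ, hR]
      have : (P + 1) * ((Q + 1) * (R + 1)) = Q * ((P + 1) * (R + 1)) + (P * R + P + R) + 1 := by ring
      rw [this]; rfl
    have en3 : n - 1 = R * ((P + 1) * (Q + 1)) + (P * Q + P + Q) := by
      rw [hn3, hP, hQ, hR]
      have : (P + 1) * ((Q + 1) * (R + 1)) = R * ((P + 1) * (Q + 1)) + (P * Q + P + Q) + 1 := by ring
      rw [this]; rfl
    rw [hP1, en1] at hd1
    rw [hQ1, en2] at hd2
    rw [hR1, en3] at hd3
    have hd1' := (Nat.dvd_add_right (Dvd.intro _ rfl)).mp hd1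
    have hd2' := (Nat.dvd_add_right (Dvd.intro _ rfl)).mp hd2
    have hd3' := (Nat.dvd_add_right (Dvd.intro _ rfl)).mp hd3
    have hg := three_gcd (by omega) (by omega) (by omega) hd1' hd2' hd3'
    -- all of P, Q, R are at least p / (2 Z)
    have hlow : ∀ s S' : ℕ, s.Prime → s ∣ n → s = S' + 1 → (p : ℝ) ≤ 2 * Z * S' := by
      intro s S' hs hsn he
      have h1 := (hall s hs hsn).1
      have h2 : (2 : ℝ) ≤ s := by exact_mod_cast hs.two_le
      have h3 : (s : ℝ) = S' + 1 := by rw [he]; push_cast; ring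
      have h4 : (s : ℝ) ≤ 2 * S' := by linarith
      calc (p : ℝ) ≤ Z * s := h1
        _ ≤ Z * (2 * S') := by gcongr
        _ = 2 * Z * S' := by ring
    have hgG : (p : ℝ) ≤ 12 * Z * ((Nat.gcd P Q : ℕ) : ℝ) ^ 2 := by
      have : ∃ S' : ℕ, (p : ℝ) ≤ 2 * Z * S' ∧ S' ≤ 6 * (Nat.gcd P Q) ^ 2 := by
        rcases hg with h | h | h
        · exact ⟨P, hlow p P hp hpn hP, h⟩
        · exact ⟨Q, hlow q Q hq hqn hQ, h⟩
        · exact ⟨R, hlow r R hr hrn hR, h⟩
      obtain ⟨S', h1, h2⟩ := this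
      have h3 : (S' : ℝ) ≤ 6 * ((Nat.gcd P Q : ℕ) : ℝ) ^ 2 := by exact_mod_cast h2
      calc (p : ℝ) ≤ 2 * Z * S' := h1
        _ ≤ 2 * Z * (6 * ((Nat.gcd P Q : ℕ) : ℝ) ^ 2) := by gcongr
        _ = 12 * Z * ((Nat.gcd P Q : ℕ) : ℝ) ^ 2 := by ring
    rw [Finset.mem_biUnion]
    refine ⟨q, ?_, ?_⟩
    · rw [hQ', Finset.mem_biUnion]
      refine ⟨Nat.gcd P Q, ?_, ?_⟩
      · rw [hG, Finset.mem_filter, Nat.mem_divisors, hP1]
        exact ⟨⟨Nat.gcd_dvd_left _ _, by omega⟩, hgG⟩
      · rw [Finset.mem_filter, Finset.mem_range, hQ1]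
        refine ⟨?_, hq2, Nat.gcd_dvd_right _ _⟩
        have := Nat.le_floor (hall q hq hqn).2
        omega
    · rw [Finset.mem_image]
      refine ⟨R, ?_, ?_⟩
      · rw [Nat.mem_divisors]
        have hpq1 : p * q - 1 = P * Q + P + Q := by
          rw [hP, hQ]
          have : (P + 1) * (Q + 1) = P * Q + P + Q + 1 := by ring
          rw [this]; rfl
        rw [hpq1]
        refine ⟨hd3', ?_⟩
        have : 0 < P := by omega
        omega
      · rw [hn3, ← hR]; ring
  have h1 : (S.card : ℝ) ≤ ∑ q ∈ Q', (((p * q - 1).divisors.card : ℕ) : ℝ) := by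
    have h2 := (Finset.card_le_card hcover).trans Finset.card_biUnion_le
    have h3 : ∑ q ∈ Q', ((p * q - 1).divisors.image (fun d => p * q * (d + 1))).card
        ≤ ∑ q ∈ Q', (p * q - 1).divisors.card :=
      Finset.sum_le_sum (fun q _ => Finset.card_image_le)
    exact_mod_cast h2.trans h3
  have hT0 : 0 ≤ T := by
    have := hT 2 le_rfl (by
      have h2 : (2 : ℝ) ≤ p := by exact_mod_cast hp2
      have : (p : ℝ) ≤ Z * p := by
        have := mul_le_mul_of_nonneg_right hZ hp0.le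
        linarith
      push_cast
      linarith)
    exact le_trans (by positivity) this
  have h2 : ∑ q ∈ Q', (((p * q - 1).divisors.card : ℕ) : ℝ) ≤ Q'.card * T := by
    rw [← nsmul_eq_mul, ← Finset.sum_const]
    apply Finset.sum_le_sum
    intro q hq
    rw [hQ', Finset.mem_biUnion] at hq
    obtain ⟨g, -, hq⟩ := hq
    rw [Finset.mem_filter, Finset.mem_range] at hq
    apply hT q hq.2.1
    have h3 : (q : ℝ) ≤ (⌊Y⌋₊ : ℝ) := by
      have : q ≤ ⌊Y⌋₊ := by omega
      exact_mod_cast this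
    exact h3.trans (Nat.floor_le hY0)
  have h3 : (Q'.card : ℝ) ≤ (p - 1).divisors.card * (Y * Real.sqrt (12 * Z / p)) := by
    have h4 : (Q'.card : ℝ) ≤ ∑ g ∈ G,
        (((Finset.range (⌊Y⌋₊ + 1)).filter (fun q => 2 ≤ q ∧ g ∣ q - 1)).card : ℝ) := by
      have : Q'.card ≤ _ := Finset.card_biUnion_le
      exact_mod_cast this
    have h5 : ∀ g ∈ G, (((Finset.range (⌊Y⌋₊ + 1)).filter (fun q => 2 ≤ q ∧ g ∣ q - 1)).card : ℝ)
        ≤ Y * Real.sqrt (12 * Z / p) := by
      intro g hg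
      rw [hG, Finset.mem_filter] at hg
      have hg0 : 0 < g := Nat.pos_of_mem_divisors hg.1
      have hg0' : (0 : ℝ) < g := by exact_mod_cast hg0
      refine (card_filter_dvd_le Y hY0 g hg0).trans ?_
      rw [div_eq_mul_inv]
      gcongr
      rw [← Real.sqrt_sq (inv_nonneg.mpr hg0'.le)]
      apply Real.sqrt_le_sqrt
      rw [inv_pow, le_div_iff₀ hp0, inv_mul_le_iff₀ (by positivity)]
      linarith [hg.2]
    refine h4.trans ((Finset.sum_le_sum h5).trans ?_)
    rw [Finset.sum_const, nsmul_eq_mul]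
    have h6 : G.card ≤ (p - 1).divisors.card := by
      rw [hG]; exact Finset.card_le_card (Finset.filter_subset _ _)
    have h7 : (G.card : ℝ) ≤ (p - 1).divisors.card := by exact_mod_cast h6
    gcongr
  calc (S.card : ℝ) ≤ Q'.card * T := h1.trans h2
    _ ≤ (p - 1).divisors.card * (Y * Real.sqrt (12 * Z / p)) * T := by gcongr
    _ = (p - 1).divisors.card * T * (Y * Real.sqrt (12 * Z / p)) := by ring

end Pool.Agent.Work.MP_e0aece_nt

end

section

/-!
# The upper bound `R(x) ≤ (1/(10 log 3) + o(1)) log x`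
-/

namespace Pool.Agent.Work.MP_e0aece_nt

open Finset Filter

/-- From a proper colouring of all Carmichael numbers up to `x` with at most `3 ^ m` colours. -/
lemma R_le_of_colouring {x : ℝ} {m : ℕ} {ι : Type} [Fintype ι]
    (hK : Fintype.card ι ≤ 3 ^ m) (c : ℕ → ι)
    (hc : ∀ n : ℕ, IsCarmichael n → (n : ℝ) ≤ x →
      ∃ p q : ℕ, p.Prime ∧ p ∣ n ∧ q.Prime ∧ q ∣ n ∧ c p ≠ c q) : R x ≤ m + 1 := by
  apply R_le_of_clog_le
  intro v hv
  rw [Nat.clog_le_iff_le_pow (by omega)]
  have h1 : chi v x ≤ Fintype.card ι := by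
    apply chi_le (fun p => Fintype.equivFin ι (c p))
    intro n hn hnx _
    obtain ⟨p, q, hp, hpn, hq, hqn, hpq⟩ := hc n hn hnx
    exact ⟨p, q, hp, hpn, hq, hqn, fun h => hpq ((Fintype.equivFin ι).injective h)⟩
  refine h1.trans (hK.trans ?_)
  exact Nat.pow_le_pow_left (by omega) m

/-- The set of Carmichael numbers with all prime factors above `b` and within a factor `Z` of each
other. -/
def InFam (x b Z : ℝ) (n : ℕ) : Prop :=
  IsCarmichael n ∧ (n : ℝ) ≤ x ∧ (∀ p : ℕ, p.Prime → p ∣ n → b < p) ∧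
    ∀ p q : ℕ, p.Prime → p ∣ n → q.Prime → q ∣ n → (p : ℝ) ≤ Z * q

lemma InFam.card_le {x b Z : ℝ} {n : ℕ} (h : InFam x b Z n) (hb : 0 < b) (hx : b ^ 10 = x) :
    n.primeFactors.card ≤ 9 := by
  by_contra hcon
  push Not at hcon
  have hn1 := h.1.1
  have hsq := h.1.squarefree
  have hprod := Nat.prod_primeFactors_of_squarefree hsq
  have hb1 : 1 < b := by
    by_contra hb1
    push Not at hb1
    have h1 : b ^ 10 ≤ 1 := pow_le_one₀ hb.le hb1
    have h2 : (n : ℝ) ≤ 1 := by rw [← hx] at h; exact h.2.1.trans h1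
    have h3 : (1 : ℝ) < n := by exact_mod_cast hn1
    linarith
  have h1 : b ^ n.primeFactors.card < ∏ p ∈ n.primeFactors, (p : ℝ) := by
    rw [← Finset.prod_const]
    apply Finset.prod_lt_prod_of_nonempty
    · intro i _; exact hb
    · intro p hp
      exact h.2.2.1 p (Nat.prime_of_mem_primeFactors hp) (Nat.dvd_of_mem_primeFactors hp)
    · rw [← Finset.card_pos]; omega
  have h2 : ∏ p ∈ n.primeFactors, (p : ℝ) = n := by rw [← Nat.cast_prod, hprod]
  rw [h2] at h1
  have h3 : b ^ 10 ≤ b ^ n.primeFactors.card := pow_le_pow_right₀ hb1.le (by omega)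
  have h4 := h.2.1
  rw [← hx] at h4
  linarith

/-- Degree bound. -/
lemma degree_bound {x b Z : ℝ} (hb : 1 ≤ b) (hx : b ^ 10 = x) (hZ : 1 ≤ Z)
    (hT1 : ∀ n : ℕ, 1 ≤ n → (n : ℝ) ≤ x → ((n.divisors.card : ℕ) : ℝ) ≤ Z)
    (hT2 : ∀ n : ℕ, 1 ≤ n → (n : ℝ) ≤ x ^ 2 * Z → ((n.divisors.card : ℕ) : ℝ) ≤ Z)
    (p r : ℕ) (hr3 : 3 ≤ r) (hr9 : r ≤ 9) (S : Finset ℕ)
    (hS : ∀ n ∈ S, InFam x b Z n ∧ p.Prime ∧ p ∣ n ∧ n.primeFactors.card = r) :
    (S.card : ℝ) ≤ 5 * Z ^ 13 * b ^ (r - 1) := by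
  rcases S.eq_empty_or_nonempty with hempty | ⟨n0, hn0⟩
  · rw [hempty]; simp; positivity
  have hx0 : 0 < x := by rw [← hx]; positivity
  have hx1 : 1 ≤ x := by rw [← hx]; exact one_le_pow₀ hb
  have hp : p.Prime := (hS n0 hn0).2.1
  have hp0 : (0 : ℝ) < p := by exact_mod_cast hp.pos
  have hp2 := hp.two_le
  -- p ≤ x
  have hpx : (p : ℝ) ≤ x := by
    have h1 := (hS n0 hn0).1.2.1
    have h2 : p ≤ n0 := Nat.le_of_dvd (by have := (hS n0 hn0).1.1.1; omega) (hS n0 hn0).2.2.1
    have h3 : (p : ℝ) ≤ n0 := by exact_mod_cast h2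
    linarith
  -- p ^ r ≤ Z ^ r x
  have hpr : (p : ℝ) ^ r ≤ Z ^ r * x := by
    obtain ⟨hf, -, hpn, hcard⟩ := hS n0 hn0
    have hprod := Nat.prod_primeFactors_of_squarefree hf.1.squarefree
    have h2 : ∏ q ∈ n0.primeFactors, (q : ℝ) = n0 := by rw [← Nat.cast_prod, hprod]
    have h1 : (p : ℝ) ^ r ≤ ∏ q ∈ n0.primeFactors, (Z * (q : ℝ)) := by
      rw [← hcard, ← Finset.prod_const]
      apply Finset.prod_le_prod
      · intro i _; exact hp0.le
      · intro q hq
        exact hf.2.2.2 p q hp hpn (Nat.prime_of_mem_primeFactors hq)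
          (Nat.dvd_of_mem_primeFactors hq)
    rw [Finset.prod_mul_distrib, Finset.prod_const, hcard, h2] at h1
    exact h1.trans (by have := hf.2.1; gcongr)
  -- y = x ^ (1/r)
  set y : ℝ := x ^ (1 / (r : ℝ)) with hy
  have hr0 : (0 : ℝ) < r := by positivity
  have hy0 : 0 < y := by rw [hy]; positivity
  have hyr : y ^ r = x := by
    rw [hy, ← Real.rpow_natCast, ← Real.rpow_mul hx0.le]
    field_simp
    simp
  have hy1 : 1 ≤ y := by rw [hy]; exact Real.one_le_rpow hx1 (by positivity)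
  have hpZy : (p : ℝ) ≤ Z * y := by
    have h1 : (p : ℝ) ^ r ≤ (Z * y) ^ r := by rw [mul_pow, hyr]; exact hpr
    exact le_of_pow_le_pow_left₀ (by omega) (by positivity) h1
  have hbx : b = x ^ ((1 : ℝ) / 10) := by
    rw [← hx, ← Real.rpow_natCast, ← Real.rpow_mul (by linarith)]
    norm_num
  have hbpow : b ^ (r - 1) = x ^ (((r : ℝ) - 1) / 10) := by
    rw [hbx, ← Real.rpow_natCast, ← Real.rpow_mul hx0.le]
    congr 1
    rw [Nat.cast_sub (by omega)]
    push_cast; ring
  have hτ : (((p - 1).divisors.card : ℕ) : ℝ) ≤ Z := by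
    apply hT1 (p - 1) (by omega)
    have h3 : ((p - 1 : ℕ) : ℝ) ≤ p := by exact_mod_cast Nat.sub_le p 1
    exact h3.trans hpx
  rcases Nat.lt_or_ge r 4 with hr4 | hr4
  · -- r = 3
    have hr : r = 3 := by omega
    have h1 := count_three p hp Z Z hZ S (by
      intro n hn
      obtain ⟨hf, -, hpn, hcard⟩ := hS n hn
      refine ⟨hf.1, hpn, hcard.trans hr, fun q hq hqn => ⟨hf.2.2.2 p q hp hpn hq hqn, hf.2.2.2 q p hq hqn hp hpn⟩⟩)
      (by
        intro q hq hqZ
        apply hT2 (p * q - 1)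
        · have : 2 * 2 ≤ p * q := Nat.mul_le_mul hp2 hq
          omega
        · have h1 : ((p * q - 1 : ℕ) : ℝ) ≤ (p : ℝ) * q := by
            have : p * q - 1 ≤ p * q := Nat.sub_le _ _
            exact_mod_cast this
          calc ((p * q - 1 : ℕ) : ℝ) ≤ (p : ℝ) * q := h1
            _ ≤ x * (Z * x) := by
              have : (q : ℝ) ≤ Z * x := hqZ.trans (by gcongr)
              gcongr
            _ = x ^ 2 * Z := by ring)
    have h2 : Z * p * Real.sqrt (12 * Z / p) ≤ 4 * Z ^ 3 * (x ^ ((1 : ℝ) / 6)) := by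
      have h3 : (Z * p * Real.sqrt (12 * Z / p)) ^ 2 = 12 * Z ^ 3 * p := by
        rw [mul_pow, Real.sq_sqrt (by positivity)]
        field_simp
      have h4 : (4 * Z ^ 3 * (x ^ ((1 : ℝ) / 6))) ^ 2 = 16 * Z ^ 6 * y := by
        have h5 : (x ^ ((1 : ℝ) / 6)) ^ 2 = y := by
          rw [hy, hr, ← Real.rpow_natCast, ← Real.rpow_mul hx0.le]
          norm_num
        calc (4 * Z ^ 3 * (x ^ ((1 : ℝ) / 6))) ^ 2 = 16 * Z ^ 6 * (x ^ ((1 : ℝ) / 6)) ^ 2 := by ring
          _ = 16 * Z ^ 6 * y := by rw [h5]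
      have h6 : 12 * Z ^ 3 * p ≤ 16 * Z ^ 6 * y := by
        calc 12 * Z ^ 3 * p ≤ 12 * Z ^ 3 * (Z * y) := by gcongr
          _ = 12 * (Z ^ 4 * y) := by ring
          _ ≤ 16 * (Z ^ 6 * y) := by
            have h7 : Z ^ 4 ≤ Z ^ 6 := pow_le_pow_right₀ hZ (by norm_num)
            have h8 : Z ^ 4 * y ≤ Z ^ 6 * y := by gcongr
            have h9 : 0 ≤ Z ^ 6 * y := by positivity
            linarith
          _ = 16 * Z ^ 6 * y := by ring
      rw [← h3, ← h4] at h6
      exact le_of_sq_le_sq h6 (by positivity)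
    have h10 : x ^ ((1 : ℝ) / 6) ≤ b ^ (r - 1) := by
      rw [hbpow, hr]
      apply Real.rpow_le_rpow_of_exponent_le hx1
      norm_num
    calc (S.card : ℝ) ≤ (p - 1).divisors.card * Z * (Z * p * Real.sqrt (12 * Z / p)) := h1
      _ ≤ Z * Z * (4 * Z ^ 3 * (b ^ (r - 1))) := by
        have := h2.trans (show 4 * Z ^ 3 * (x ^ ((1 : ℝ) / 6)) ≤ 4 * Z ^ 3 * (b ^ (r - 1)) by gcongr)
        gcongr
      _ = 4 * (Z ^ 5 * b ^ (r - 1)) := by ring
      _ ≤ 5 * (Z ^ 13 * b ^ (r - 1)) := by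
        have h7 : Z ^ 5 ≤ Z ^ 13 := pow_le_pow_right₀ hZ (by norm_num)
        have h8 : Z ^ 5 * b ^ (r - 1) ≤ Z ^ 13 * b ^ (r - 1) := by gcongr
        have h9 : 0 ≤ Z ^ 13 * b ^ (r - 1) := by positivity
        linarith
      _ = 5 * Z ^ 13 * b ^ (r - 1) := by ring
  · -- r ≥ 4
    set B : ℝ := min x ((Z * p) ^ r) with hB
    have hB0 : 0 ≤ B := by rw [hB]; positivity
    have h1 := count_general p hp Z B hZ hB0 S (by
      intro n hn
      obtain ⟨hf, -, hpn, hcard⟩ := hS n hn
      have hn1 := hf.1.1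
      refine ⟨by omega, ?_, hpn, hf.1.sub_one_dvd hp hpn, ?_⟩
      · rw [hB]
        apply le_min hf.2.1
        have hprod := Nat.prod_primeFactors_of_squarefree hf.1.squarefree
        have h2 : ∏ q ∈ n.primeFactors, (q : ℝ) = n := by rw [← Nat.cast_prod, hprod]
        rw [← h2, ← hcard, ← Finset.prod_const]
        apply Finset.prod_le_prod
        · intro i _; positivity
        · intro q hq
          exact hf.2.2.2 q p (Nat.prime_of_mem_primeFactors hq) (Nat.dvd_of_mem_primeFactors hq) hp hpn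
      · have hpmem : p ∈ n.primeFactors := by
          rw [Nat.mem_primeFactors]; exact ⟨hp, hpn, by omega⟩
        obtain ⟨q, hq⟩ : (n.primeFactors.erase p).Nonempty := by
          rw [← Finset.card_pos, Finset.card_erase_of_mem hpmem]; omega
        rw [Finset.mem_erase] at hq
        have hqp := Nat.prime_of_mem_primeFactors hq.2
        have hqn := Nat.dvd_of_mem_primeFactors hq.2
        exact ⟨q, hqp, hq.1, hqn, hf.1.sub_one_dvd hqp hqn, hf.2.2.2 p q hp hpn hqp hqn,
          hf.2.2.2 q p hqp hqn hp hpn⟩)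
    have h2 : B / p ^ 3 ≤ Z ^ r * y ^ (r - 3) := by
      rw [div_le_iff₀ (by positivity)]
      rcases le_total (p : ℝ) y with hpy | hpy
      · calc B ≤ (Z * p) ^ r := min_le_right _ _
          _ = Z ^ r * (p ^ (r - 3) * p ^ 3) := by
            rw [mul_pow, ← pow_add]; congr 2; omega
          _ ≤ Z ^ r * (y ^ (r - 3) * p ^ 3) := by gcongr
          _ = Z ^ r * y ^ (r - 3) * p ^ 3 := by ring
      · have hZr : 1 ≤ Z ^ r := one_le_pow₀ hZ
        calc B ≤ x := min_le_left _ _
          _ = y ^ (r - 3) * y ^ 3 := by rw [← pow_add, ← hyr]; congr 1; omega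
          _ ≤ y ^ (r - 3) * p ^ 3 := by gcongr
          _ = 1 * (y ^ (r - 3) * p ^ 3) := by ring
          _ ≤ Z ^ r * (y ^ (r - 3) * p ^ 3) := by gcongr
          _ = Z ^ r * y ^ (r - 3) * p ^ 3 := by ring
    have h3 : y ≤ b ^ (r - 1) := by
      rw [hbpow, hy]
      apply Real.rpow_le_rpow_of_exponent_le hx1
      have : (4 : ℝ) ≤ r := by exact_mod_cast hr4
      rw [div_le_div_iff₀ (by positivity) (by norm_num)]
      nlinarith
    have h4 : y ^ (r - 3) ≤ b ^ (r - 1) := by
      rw [hbpow, hy, ← Real.rpow_natCast, ← Real.rpow_mul hx0.le]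
      apply Real.rpow_le_rpow_of_exponent_le hx1
      rw [Nat.cast_sub (by omega)]
      push_cast
      rw [one_div, inv_mul_eq_div, div_le_div_iff₀ (by positivity) (by norm_num)]
      -- (r - 3) * 10 ≤ (r - 1) * r, i.e. (r - 5)(r - 6) ≥ 0
      have h5 : 0 ≤ ((r : ℝ) - 5) * ((r : ℝ) - 6) := by
        rcases Nat.lt_or_ge r 6 with h | h
        · have h6 : (r : ℝ) ≤ 5 := by exact_mod_cast (show r ≤ 5 by omega)
          nlinarith
        · have h6 : (6 : ℝ) ≤ r := by exact_mod_cast h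
          nlinarith
      nlinarith
    have hZr : Z ^ r ≤ Z ^ 9 := pow_le_pow_right₀ hZ hr9
    calc (S.card : ℝ) ≤ Z * p + 4 * Z ^ 3 * (p - 1).divisors.card * B / p ^ 3 := h1
      _ = Z * p + 4 * Z ^ 3 * (p - 1).divisors.card * (B / p ^ 3) := by ring
      _ ≤ Z * (Z * b ^ (r - 1)) + 4 * Z ^ 3 * Z * (Z ^ 9 * b ^ (r - 1)) := by
        have e1 : (p : ℝ) ≤ Z * b ^ (r - 1) := hpZy.trans (by gcongr)
        have e2 : B / p ^ 3 ≤ Z ^ 9 * b ^ (r - 1) := h2.trans (by gcongr)
        gcongr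
      _ = Z ^ 2 * b ^ (r - 1) + 4 * (Z ^ 13 * b ^ (r - 1)) := by ring
      _ ≤ Z ^ 13 * b ^ (r - 1) + 4 * (Z ^ 13 * b ^ (r - 1)) := by
        have h7 : Z ^ 2 ≤ Z ^ 13 := pow_le_pow_right₀ hZ (by norm_num)
        gcongr
      _ = 5 * Z ^ 13 * b ^ (r - 1) := by ring

end Pool.Agent.Work.MP_e0aece_nt

end
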