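import Mathlib
import Pool.Agent.Work.MP_e0aece_nt.DivisorBound
import Pool.Agent.Work.MP_e0aece_nt.Bd.B02

/-! Bundle of small proof modules (one section per former module). -/

section

namespace Pool.Agent.Work.MP_e0aece_nt.Sq

theorem claimC5 : ClaimC5 := by
  intro ε hε
  obtain ⟨C, hC, h⟩ := exists_divisor_bound ε hε
  refine ⟨max C 1, le_max_right _ _, fun n hn => (h n hn).trans ?_⟩
  exact mul_le_mul_of_nonneg_right (le_max_left _ _) (by positivity)

end Pool.Agent.Work.MP_e0aece_nt.Sq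

end

section

/-! Item C6: the type II sum. -/

namespace Pool.Agent.Work.MP_e0aece_nt.Sq

open Finset

namespace ItemC6

theorem sum_blocks {E : Type*} [AddCommMonoid E] (f : ℕ → E) (U T J : ℕ) :
    ∑ m ∈ Ioc U (U + J * T), f m =
      ∑ j ∈ range J, ∑ m ∈ Ioc (U + j * T) (U + j * T + T), f m := by
  induction J with
  | zero => simp
  | succ J ih =>
    rw [Finset.sum_range_succ, ← ih,
      Finset.sum_Ioc_consecutive f (Nat.le_add_right U (J * T)) (Nat.le_add_right _ T)]
    congr 2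
    ring

/-- The coefficient `b`. -/
noncomputable def bb (U n : ℕ) : ℂ :=
  ((∑ d ∈ n.divisors.filter (fun d => U < d), (ArithmeticFunction.moebius d : ℤ) : ℤ) : ℂ)

theorem bb_norm (U n : ℕ) : ‖bb U n‖ ≤ (n.divisors.card : ℝ) := by
  unfold bb
  rw [Complex.norm_intCast]
  calc |((∑ d ∈ n.divisors.filter (fun d => U < d), (ArithmeticFunction.moebius d : ℤ) : ℤ) : ℝ)|
      = |∑ d ∈ n.divisors.filter (fun d => U < d), ((ArithmeticFunction.moebius d : ℤ) : ℝ)| := by
        push_cast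
        rfl
    _ ≤ ∑ d ∈ n.divisors.filter (fun d => U < d), |((ArithmeticFunction.moebius d : ℤ) : ℝ)| :=
        Finset.abs_sum_le_sum_abs _ _
    _ ≤ ∑ d ∈ n.divisors.filter (fun d => U < d), (1 : ℝ) := by
        refine Finset.sum_le_sum fun d _ => ?_
        have := ArithmeticFunction.abs_moebius_le_one (n := d)
        exact_mod_cast this
    _ = ((n.divisors.filter (fun d => U < d)).card : ℝ) := by simp
    _ ≤ (n.divisors.card : ℝ) := by exact_mod_cast Finset.card_filter_le _ _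

/-- One block. -/
theorem block (hC1 : ClaimC1) (hC4 : ClaimC4) {κ : Type} (𝒳 : Finset κ) (χ : κ → ℕ → ℂ) (F : ℝ)
    (h : QO 𝒳 χ F) (α β : ℕ → ℂ) (a T U N : ℕ) (L : ℝ) (hT : 1 ≤ T) (hUN : U ≤ N) (hTN : T ≤ N)
    (hF : F ^ 4 ≤ 2 * T) (hL : 0 ≤ L) (hN : Real.log N ≤ L) (hα : ∀ m, ‖α m‖ ≤ L)
    (hβ : ∀ n, ‖β n‖ ≤ (n.divisors.card : ℝ)) :
    ∑ x ∈ 𝒳, ‖∑ m ∈ Ioc a (a + T), α m * χ x m‖ * ‖∑ n ∈ Ioc U N, β n * χ x n‖ ≤
      3 * T * N * (1 + L) ^ 3 := by
  have hF1 : 1 ≤ F := h.1
  have hcard : (𝒳.card : ℝ) * F ^ 2 ≤ 2 * T := by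
    calc (𝒳.card : ℝ) * F ^ 2 ≤ F ^ 2 * F ^ 2 :=
          mul_le_mul_of_nonneg_right h.2.1 (by positivity)
      _ = F ^ 4 := by ring
      _ ≤ 2 * T := hF
  have hT' : (1 : ℝ) ≤ T := by exact_mod_cast hT
  have hTN' : (T : ℝ) ≤ N := by exact_mod_cast hTN
  have hA : ∑ x ∈ 𝒳, ‖∑ m ∈ Ioc a (a + T), α m * χ x m‖ ^ 2 ≤ 3 * T ^ 2 * L ^ 2 := by
    calc ∑ x ∈ 𝒳, ‖∑ m ∈ Ioc a (a + T), α m * χ x m‖ ^ 2
        ≤ (T + 𝒳.card * F ^ 2) * ∑ m ∈ Ioc a (a + T), ‖α m‖ ^ 2 := hC1 κ 𝒳 χ F α a T h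
      _ ≤ (T + 2 * T) * ∑ m ∈ Ioc a (a + T), L ^ 2 := by
          refine mul_le_mul (by linarith) ?_ ?_ (by positivity)
          · exact Finset.sum_le_sum fun m _ => pow_le_pow_left₀ (norm_nonneg _) (hα m) 2
          · exact Finset.sum_nonneg fun m _ => by positivity
      _ = 3 * T ^ 2 * L ^ 2 := by
          rw [Finset.sum_const, Nat.card_Ioc, Nat.add_sub_cancel_left, nsmul_eq_mul]
          ring
  have hB : ∑ x ∈ 𝒳, ‖∑ n ∈ Ioc U N, β n * χ x n‖ ^ 2 ≤ 3 * N ^ 2 * (1 + L) ^ 3 := by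
    have h1 := hC1 κ 𝒳 χ F β U (N - U) h
    rw [Nat.add_sub_cancel' hUN] at h1
    have hN1 : 1 ≤ N := hT.trans hTN
    have h2 : ∑ n ∈ Ioc U N, ‖β n‖ ^ 2 ≤ N * (1 + L) ^ 3 := by
      calc ∑ n ∈ Ioc U N, ‖β n‖ ^ 2 ≤ ∑ n ∈ Ioc U N, ((n.divisors.card : ℝ)) ^ 2 :=
            Finset.sum_le_sum fun n _ => pow_le_pow_left₀ (norm_nonneg _) (hβ n) 2
        _ ≤ ∑ n ∈ Ioc 0 N, ((n.divisors.card : ℝ)) ^ 2 := by
            refine Finset.sum_le_sum_of_subset_of_nonneg ?_ fun n _ _ => by positivity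
            exact Finset.Ioc_subset_Ioc_left (Nat.zero_le U)
        _ ≤ N * (1 + Real.log N) ^ 3 := hC4 N hN1
        _ ≤ N * (1 + L) ^ 3 := by
            refine mul_le_mul_of_nonneg_left ?_ (Nat.cast_nonneg _)
            have : 0 ≤ Real.log N := Real.log_natCast_nonneg N
            exact pow_le_pow_left₀ (by linarith) (by linarith) 3
    have h3 : ((N - U : ℕ) : ℝ) ≤ N := by exact_mod_cast Nat.sub_le N U
    calc ∑ x ∈ 𝒳, ‖∑ n ∈ Ioc U N, β n * χ x n‖ ^ 2
        ≤ (((N - U : ℕ) : ℝ) + 𝒳.card * F ^ 2) * ∑ n ∈ Ioc U N, ‖β n‖ ^ 2 := h1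
      _ ≤ (N + 2 * N) * (N * (1 + L) ^ 3) := by
          refine mul_le_mul (by linarith) h2 ?_ (by positivity)
          exact Finset.sum_nonneg fun m _ => by positivity
      _ = 3 * N ^ 2 * (1 + L) ^ 3 := by ring
  have h4 : (∑ x ∈ 𝒳, ‖∑ m ∈ Ioc a (a + T), α m * χ x m‖ * ‖∑ n ∈ Ioc U N, β n * χ x n‖) ^ 2 ≤
      (3 * T * N * (1 + L) ^ 3) ^ 2 := by
    calc (∑ x ∈ 𝒳, ‖∑ m ∈ Ioc a (a + T), α m * χ x m‖ * ‖∑ n ∈ Ioc U N, β n * χ x n‖) ^ 2
        ≤ (∑ x ∈ 𝒳, ‖∑ m ∈ Ioc a (a + T), α m * χ x m‖ ^ 2) *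
          ∑ x ∈ 𝒳, ‖∑ n ∈ Ioc U N, β n * χ x n‖ ^ 2 := Finset.sum_mul_sq_le_sq_mul_sq _ _ _
      _ ≤ (3 * T ^ 2 * L ^ 2) * (3 * N ^ 2 * (1 + L) ^ 3) := by
          refine mul_le_mul hA hB ?_ (by positivity)
          exact Finset.sum_nonneg fun m _ => by positivity
      _ = 9 * T ^ 2 * N ^ 2 * (L ^ 2 * (1 + L) ^ 3) := by ring
      _ ≤ 9 * T ^ 2 * N ^ 2 * ((1 + L) ^ 2 * (1 + L) ^ 3 * (1 + L)) := by
          refine mul_le_mul_of_nonneg_left ?_ (by positivity)
          have h5 : L ^ 2 ≤ (1 + L) ^ 2 := pow_le_pow_left₀ hL (by linarith) 2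
          have h6 : L ^ 2 * (1 + L) ^ 3 ≤ (1 + L) ^ 2 * (1 + L) ^ 3 :=
            mul_le_mul_of_nonneg_right h5 (by positivity)
          have h7 : (1 + L) ^ 2 * (1 + L) ^ 3 * 1 ≤ (1 + L) ^ 2 * (1 + L) ^ 3 * (1 + L) :=
            mul_le_mul_of_nonneg_left (by linarith) (by positivity)
          linarith
      _ = (3 * T * N * (1 + L) ^ 3) ^ 2 := by ring
  exact le_of_sq_le_sq h4 (by positivity)

/-- Harmonic sum. -/
theorem harm (T J : ℕ) (hT : 1 ≤ T) :
    ∑ j ∈ range J, (1 : ℝ) / ((T : ℝ) + j) ≤ 1 + Real.log ((T + J : ℕ) : ℝ) := by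
  have h1 : ∑ j ∈ range J, (1 : ℝ) / ((T : ℝ) + j) ≤ ∑ i ∈ range (T + J), (1 : ℝ) / ((i : ℝ) + 1) := by
    calc ∑ j ∈ range J, (1 : ℝ) / ((T : ℝ) + j)
        ≤ ∑ j ∈ range J, (1 : ℝ) / (((T - 1 + j : ℕ) : ℝ) + 1) := by
          refine Finset.sum_le_sum fun j _ => le_of_eq ?_
          congr 1
          have : T + j = (T - 1 + j) + 1 := by omega
          exact_mod_cast this
      _ = ∑ i ∈ (range J).image (fun j => T - 1 + j), (1 : ℝ) / ((i : ℝ) + 1) := by
          rw [Finset.sum_image]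
          intro a _ b _ hab
          exact Nat.add_left_cancel hab
      _ ≤ ∑ i ∈ range (T + J), (1 : ℝ) / ((i : ℝ) + 1) := by
          refine Finset.sum_le_sum_of_subset_of_nonneg ?_ fun n _ _ => by positivity
          intro i hi
          rw [Finset.mem_image] at hi
          obtain ⟨j, hj, rfl⟩ := hi
          rw [Finset.mem_range] at hj ⊢
          omega
  have h2 : ∑ i ∈ range (T + J), (1 : ℝ) / ((i : ℝ) + 1) = ((harmonic (T + J) : ℚ) : ℝ) := by
    unfold harmonic
    push_cast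
    refine Finset.sum_congr rfl fun i _ => ?_
    rw [one_div]
  rw [h2] at h1
  exact h1.trans (harmonic_le_one_add_log (T + J))

/-- The error term. -/
theorem error_le (X T J : ℕ) (hT : 1 ≤ T) (α : ℕ → ℝ)
    (hα : ∀ m, α m ≤ ArithmeticFunction.vonMangoldt m) :
    ∑ j ∈ range J, ∑ m ∈ Ioc (T ^ 2 + j * T) (T ^ 2 + j * T + T), α m *
      ∑ n ∈ Ioc (X / m) (X / (T ^ 2 + j * T)), (n.divisors.card : ℝ) ≤
    ∑ N ∈ Ioc X (X + X / T), (N.divisors.card : ℝ) * Real.log N := by
  have h1 : ∀ j ∈ range J, ∀ m ∈ Ioc (T ^ 2 + j * T) (T ^ 2 + j * T + T),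
      α m * ∑ n ∈ Ioc (X / m) (X / (T ^ 2 + j * T)), (n.divisors.card : ℝ) ≤
      ArithmeticFunction.vonMangoldt m *
        ∑ N ∈ (Ioc X (X + X / T)).filter (fun N => m ∣ N), (N.divisors.card : ℝ) := by
    intro j _ m hm
    rw [Finset.mem_Ioc] at hm
    have hm0 : 0 < m := by omega
    have ha0 : 0 < T ^ 2 + j * T := by positivity
    refine mul_le_mul (hα m) ?_ (Finset.sum_nonneg fun n _ => by positivity)
      (ArithmeticFunction.vonMangoldt_nonneg)
    calc ∑ n ∈ Ioc (X / m) (X / (T ^ 2 + j * T)), (n.divisors.card : ℝ)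
        ≤ ∑ n ∈ Ioc (X / m) (X / (T ^ 2 + j * T)), ((m * n).divisors.card : ℝ) := by
          refine Finset.sum_le_sum fun n hn => ?_
          rw [Finset.mem_Ioc] at hn
          have hn0 : n ≠ 0 := ((Nat.zero_le _).trans_lt hn.1).ne'
          have : n.divisors ⊆ (m * n).divisors :=
            Nat.divisors_subset_of_dvd (Nat.mul_ne_zero hm0.ne' hn0) (dvd_mul_left n m)
          exact_mod_cast Finset.card_le_card this
      _ = ∑ N ∈ (Ioc (X / m) (X / (T ^ 2 + j * T))).image (fun n => m * n),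
            (N.divisors.card : ℝ) := by
          rw [Finset.sum_image]
          intro a _ b _ hab
          exact Nat.eq_of_mul_eq_mul_left hm0 hab
      _ ≤ _ := by
          refine Finset.sum_le_sum_of_subset_of_nonneg ?_ fun n _ _ => by positivity
          intro N hN
          rw [Finset.mem_image] at hN
          obtain ⟨n, hn, rfl⟩ := hN
          rw [Finset.mem_Ioc] at hn
          rw [Finset.mem_filter, Finset.mem_Ioc]
          refine ⟨⟨?_, ?_⟩, dvd_mul_right m n⟩
          · have := (Nat.div_lt_iff_lt_mul hm0).mp hn.1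
            rwa [mul_comm] at this
          · have e1 : (T ^ 2 + j * T) * n ≤ X := by
              have := (Nat.le_div_iff_mul_le ha0).mp hn.2
              rwa [mul_comm] at this
            have e2 : T * n ≤ X / T := by
              rw [Nat.le_div_iff_mul_le (by omega)]
              have e3 : T ^ 2 * n ≤ (T ^ 2 + j * T) * n :=
                Nat.mul_le_mul_right n (Nat.le_add_right _ _)
              calc T * n * T = T ^ 2 * n := by ring
                _ ≤ _ := e3
                _ ≤ X := e1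
            calc m * n ≤ (T ^ 2 + j * T + T) * n := Nat.mul_le_mul_right n hm.2
              _ = (T ^ 2 + j * T) * n + T * n := by ring
              _ ≤ X + X / T := Nat.add_le_add e1 e2
  calc ∑ j ∈ range J, ∑ m ∈ Ioc (T ^ 2 + j * T) (T ^ 2 + j * T + T), α m *
      ∑ n ∈ Ioc (X / m) (X / (T ^ 2 + j * T)), (n.divisors.card : ℝ)
      ≤ ∑ j ∈ range J, ∑ m ∈ Ioc (T ^ 2 + j * T) (T ^ 2 + j * T + T),
        ArithmeticFunction.vonMangoldt m *
        ∑ N ∈ (Ioc X (X + X / T)).filter (fun N => m ∣ N), (N.divisors.card : ℝ) :=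
        Finset.sum_le_sum fun j hj => Finset.sum_le_sum fun m hm => h1 j hj m hm
    _ = ∑ m ∈ Ioc (T ^ 2) (T ^ 2 + J * T), ArithmeticFunction.vonMangoldt m *
        ∑ N ∈ (Ioc X (X + X / T)).filter (fun N => m ∣ N), (N.divisors.card : ℝ) :=
        (sum_blocks _ _ _ _).symm
    _ = ∑ m ∈ Ioc (T ^ 2) (T ^ 2 + J * T), ∑ N ∈ Ioc X (X + X / T),
        (if m ∣ N then (N.divisors.card : ℝ) * ArithmeticFunction.vonMangoldt m else 0) := by
        refine Finset.sum_congr rfl fun m _ => ?_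
        rw [Finset.sum_filter, Finset.mul_sum]
        refine Finset.sum_congr rfl fun N _ => ?_
        split_ifs
        · ring
        · ring
    _ = ∑ N ∈ Ioc X (X + X / T), ∑ m ∈ Ioc (T ^ 2) (T ^ 2 + J * T),
        (if m ∣ N then (N.divisors.card : ℝ) * ArithmeticFunction.vonMangoldt m else 0) :=
        Finset.sum_comm
    _ ≤ ∑ N ∈ Ioc X (X + X / T), (N.divisors.card : ℝ) * Real.log N := by
        refine Finset.sum_le_sum fun N hN => ?_
        rw [Finset.mem_Ioc] at hN
        rw [← ArithmeticFunction.vonMangoldt_sum, Finset.mul_sum, ← Finset.sum_filter]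
        refine Finset.sum_le_sum_of_subset_of_nonneg ?_ fun n _ _ => ?_
        · intro m hm
          rw [Finset.mem_filter] at hm
          exact Nat.mem_divisors.mpr ⟨hm.2, by omega⟩
        · exact mul_nonneg (Nat.cast_nonneg _) ArithmeticFunction.vonMangoldt_nonneg

/-- The cut-off von Mangoldt function. -/
noncomputable def al (M' m : ℕ) : ℝ := if m ≤ M' then ArithmeticFunction.vonMangoldt m else 0

theorem al_nonneg (M' m : ℕ) : 0 ≤ al M' m := by
  unfold al
  split_ifs
  · exact ArithmeticFunction.vonMangoldt_nonneg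
  · exact le_rfl

theorem al_le (M' m : ℕ) : al M' m ≤ ArithmeticFunction.vonMangoldt m := by
  unfold al
  split_ifs
  · exact le_rfl
  · exact ArithmeticFunction.vonMangoldt_nonneg

/-- Decomposition into blocks. -/
theorem decomp (χ : ℕ → ℂ) (X T J : ℕ) (hT : 1 ≤ T) (hχ : ∀ n, ‖χ n‖ ≤ 1)
    (hJ : X / T ^ 2 ≤ T ^ 2 + J * T) :
    ‖∑ m ∈ Ioc (T ^ 2) (X / T ^ 2), (ArithmeticFunction.vonMangoldt m : ℂ) * χ m *
        ∑ n ∈ Ioc (T ^ 2) (X / m), bb (T ^ 2) n * χ n‖ ≤
    ∑ j ∈ range J, ‖∑ m ∈ Ioc (T ^ 2 + j * T) (T ^ 2 + j * T + T),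
        (al (X / T ^ 2) m : ℂ) * χ m‖ *
        ‖∑ n ∈ Ioc (T ^ 2) (X / (T ^ 2 + j * T)), bb (T ^ 2) n * χ n‖ +
    ∑ j ∈ range J, ∑ m ∈ Ioc (T ^ 2 + j * T) (T ^ 2 + j * T + T), al (X / T ^ 2) m *
      ∑ n ∈ Ioc (X / m) (X / (T ^ 2 + j * T)), (n.divisors.card : ℝ) := by
  have hU : 0 < T ^ 2 := by positivity
  have e1 : ∑ m ∈ Ioc (T ^ 2) (X / T ^ 2), (ArithmeticFunction.vonMangoldt m : ℂ) * χ m *
        ∑ n ∈ Ioc (T ^ 2) (X / m), bb (T ^ 2) n * χ n =
      ∑ m ∈ Ioc (T ^ 2) (T ^ 2 + J * T), (al (X / T ^ 2) m : ℂ) * χ m *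
        ∑ n ∈ Ioc (T ^ 2) (X / m), bb (T ^ 2) n * χ n := by
    have h1 : ∑ m ∈ Ioc (T ^ 2) (X / T ^ 2), (ArithmeticFunction.vonMangoldt m : ℂ) * χ m *
        ∑ n ∈ Ioc (T ^ 2) (X / m), bb (T ^ 2) n * χ n =
        ∑ m ∈ Ioc (T ^ 2) (X / T ^ 2), (al (X / T ^ 2) m : ℂ) * χ m *
        ∑ n ∈ Ioc (T ^ 2) (X / m), bb (T ^ 2) n * χ n := by
      refine Finset.sum_congr rfl fun m hm => ?_
      rw [Finset.mem_Ioc] at hm
      unfold al
      rw [if_pos hm.2]
    rw [h1]
    refine Finset.sum_subset (Finset.Ioc_subset_Ioc_right hJ) fun m hm hm' => ?_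
    rw [Finset.mem_Ioc] at hm hm'
    have : ¬ m ≤ X / T ^ 2 := fun h => hm' ⟨hm.1, h⟩
    unfold al
    rw [if_neg this]
    simp
  rw [e1, sum_blocks, ← Finset.sum_add_distrib]
  refine (norm_sum_le _ _).trans (Finset.sum_le_sum fun j _ => ?_)
  set a := T ^ 2 + j * T with ha
  have e2 : ∀ m ∈ Ioc a (a + T), (al (X / T ^ 2) m : ℂ) * χ m *
        ∑ n ∈ Ioc (T ^ 2) (X / m), bb (T ^ 2) n * χ n =
      (al (X / T ^ 2) m : ℂ) * χ m * (∑ n ∈ Ioc (T ^ 2) (X / a), bb (T ^ 2) n * χ n) -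
      (al (X / T ^ 2) m : ℂ) * χ m * ∑ n ∈ Ioc (X / m) (X / a), bb (T ^ 2) n * χ n := by
    intro m hm
    rw [Finset.mem_Ioc] at hm
    by_cases hm' : m ≤ X / T ^ 2
    · have h1 : T ^ 2 ≤ X / m := by
        rw [Nat.le_div_iff_mul_le (by omega)]
        have := (Nat.le_div_iff_mul_le hU).mp hm'
        rwa [mul_comm] at this
      have h2 : X / m ≤ X / a := Nat.div_le_div_left hm.1.le (by omega)
      rw [← Finset.sum_Ioc_consecutive (fun n => bb (T ^ 2) n * χ n) h1 h2]
      ring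
    · unfold al
      rw [if_neg hm']
      simp
  rw [Finset.sum_congr rfl e2, Finset.sum_sub_distrib, ← Finset.sum_mul]
  refine (norm_sub_le _ _).trans ?_
  rw [norm_mul]
  refine add_le_add le_rfl ((norm_sum_le _ _).trans (Finset.sum_le_sum fun m _ => ?_))
  rw [norm_mul, norm_mul, Complex.norm_real, Real.norm_eq_abs, abs_of_nonneg (al_nonneg _ _)]
  refine mul_le_mul ?_ ?_ (norm_nonneg _) (al_nonneg _ _)
  · have := mul_le_mul_of_nonneg_left (hχ m) (al_nonneg (X / T ^ 2) m)
    linarith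
  · refine (norm_sum_le _ _).trans (Finset.sum_le_sum fun n _ => ?_)
    rw [norm_mul]
    have h1 := bb_norm (T ^ 2) n
    have h2 := hχ n
    calc ‖bb (T ^ 2) n‖ * ‖χ n‖ ≤ (n.divisors.card : ℝ) * 1 :=
          mul_le_mul h1 h2 (norm_nonneg _) (Nat.cast_nonneg _)
      _ = _ := mul_one _

end ItemC6

theorem claimC6 (hC1 : ClaimC1) (hC4 : ClaimC4) (hC5 : ClaimC5) : ClaimC6 := by
  obtain ⟨C5, hC51, hC5'⟩ := hC5 (1 / 60) (by norm_num)
  refine ⟨72 + 4 * C5, 3, ?_⟩
  intro κ 𝒳 χ F X T hQ hX hF60 hTX hXT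
  have hF1 : 1 ≤ F := hQ.1
  have hT : 1 ≤ T := by
    rcases Nat.eq_zero_or_pos T with h | h
    · rw [h] at hXT
      norm_num at hXT
      omega
    · exact h
  have hT' : (1 : ℝ) ≤ T := by exact_mod_cast hT
  have hX' : (3 : ℝ) ≤ X := by exact_mod_cast hX
  set L := Real.log X with hLdef
  have hL1 : 1 ≤ L := by
    rw [hLdef, Real.le_log_iff_exp_le (by linarith)]
    have := Real.exp_one_lt_d9
    linarith
  -- sizes
  have hX2T : (X : ℝ) ≤ (2 * T) ^ 6 := by
    have h1 : (X : ℝ) ≤ ((T : ℝ) + 1) ^ 6 := by exact_mod_cast hXT.le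
    exact h1.trans (pow_le_pow_left₀ (by positivity) (by linarith) 6)
  have hF10 : F ^ 10 ≤ 2 * T := by
    have h1 : (F ^ 10) ^ 6 ≤ (2 * T : ℝ) ^ 6 := by
      calc (F ^ 10) ^ 6 = F ^ 60 := by rw [← pow_mul]
        _ ≤ (X : ℝ) := hF60
        _ ≤ (2 * (T : ℝ)) ^ 6 := hX2T
    exact le_of_pow_le_pow_left₀ (by norm_num) (by positivity) h1
  have hF4 : F ^ 4 ≤ 2 * T := (pow_le_pow_right₀ hF1 (by norm_num)).trans hF10
  set z : ℝ := (2 * (X : ℝ)) ^ (1 / 60 : ℝ) with hz
  have hz0 : 0 ≤ z := by positivity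
  have hz60 : z ^ 60 = 2 * X := by
    rw [hz, ← Real.rpow_natCast, ← Real.rpow_mul (by positivity)]
    norm_num
  have hz10 : z ^ 10 ≤ 4 * T := by
    have h1 : (z ^ 10) ^ 6 ≤ (4 * T : ℝ) ^ 6 := by
      calc (z ^ 10) ^ 6 = z ^ 60 := by rw [← pow_mul]
        _ = 2 * (X : ℝ) := hz60
        _ ≤ 2 * (2 * (T : ℝ)) ^ 6 := by linarith
        _ ≤ (4 * T : ℝ) ^ 6 := by
          have : (0 : ℝ) ≤ (T : ℝ) ^ 6 := by positivity
          nlinarith
    exact le_of_pow_le_pow_left₀ (by norm_num) (by positivity) h1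
  have hFz : F ^ 2 * z ≤ 2 * T := by
    have h1 : (F ^ 2 * z) ^ 10 ≤ (2 * T : ℝ) ^ 10 := by
      calc (F ^ 2 * z) ^ 10 = (F ^ 10) ^ 2 * z ^ 10 := by ring
        _ ≤ (2 * (T : ℝ)) ^ 2 * (4 * (T : ℝ)) := by
          refine mul_le_mul ?_ hz10 (by positivity) (by positivity)
          exact pow_le_pow_left₀ (by positivity) hF10 2
        _ = 16 * (T : ℝ) ^ 3 := by ring
        _ ≤ 1024 * (T : ℝ) ^ 10 := by
          have h2 : (T : ℝ) ^ 3 ≤ (T : ℝ) ^ 10 := pow_le_pow_right₀ hT' (by norm_num)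
          have h3 : (0 : ℝ) ≤ (T : ℝ) ^ 10 := by positivity
          linarith
        _ = (2 * T : ℝ) ^ 10 := by ring
    exact le_of_pow_le_pow_left₀ (by norm_num) (by positivity) h1
  have hlog2X : Real.log (2 * X) ≤ 1 + L := by
    rw [Real.log_mul (by norm_num) (by linarith)]
    have := Real.log_two_lt_d9
    linarith
  -- the number of blocks
  set J := X / T ^ 2 with hJ
  have hUpos : 0 < T ^ 2 := by positivity
  have hJT : X / T ^ 2 ≤ T ^ 2 + J * T := by
    calc X / T ^ 2 = J * 1 := by rw [mul_one]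
      _ ≤ J * T := Nat.mul_le_mul_left J hT
      _ ≤ _ := Nat.le_add_left _ _
  -- the error
  set E := ∑ j ∈ range J, ∑ m ∈ Ioc (T ^ 2 + j * T) (T ^ 2 + j * T + T),
      ItemC6.al (X / T ^ 2) m *
      ∑ n ∈ Ioc (X / m) (X / (T ^ 2 + j * T)), (n.divisors.card : ℝ) with hE
  have hE1 : E ≤ (X / T : ℝ) * (C5 * z * (1 + L)) := by
    have h1 := ItemC6.error_le X T J hT (ItemC6.al (X / T ^ 2)) (ItemC6.al_le _)
    calc E ≤ ∑ N ∈ Ioc X (X + X / T), (N.divisors.card : ℝ) * Real.log N := h1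
      _ ≤ ∑ N ∈ Ioc X (X + X / T), (C5 * z * (1 + L)) := by
        refine Finset.sum_le_sum fun N hN => ?_
        rw [Finset.mem_Ioc] at hN
        have hN2 : (N : ℝ) ≤ 2 * X := by
          have : N ≤ X + X := hN.2.trans (Nat.add_le_add_left (Nat.div_le_self X T) X)
          have h3 : (N : ℝ) ≤ X + X := by exact_mod_cast this
          linarith
        have hN0 : 1 ≤ N := by omega
        have hN0' : (1 : ℝ) ≤ N := by exact_mod_cast hN0
        refine mul_le_mul ?_ ?_ (Real.log_natCast_nonneg N) (by positivity)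
        · refine (hC5' N hN0).trans ?_
          refine mul_le_mul_of_nonneg_left ?_ (by linarith)
          exact Real.rpow_le_rpow (by linarith) hN2 (by norm_num)
        · exact (Real.log_le_log (by linarith) hN2).trans hlog2X
      _ = ((X / T : ℕ) : ℝ) * (C5 * z * (1 + L)) := by
        rw [Finset.sum_const, Nat.card_Ioc, Nat.add_sub_cancel_left, nsmul_eq_mul]
      _ ≤ (X / T : ℝ) * (C5 * z * (1 + L)) := by
        refine mul_le_mul_of_nonneg_right Nat.cast_div_le (by positivity)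
  have hE0 : 0 ≤ E := Finset.sum_nonneg fun j _ => Finset.sum_nonneg fun m _ =>
    mul_nonneg (ItemC6.al_nonneg _ _) (Finset.sum_nonneg fun n _ => Nat.cast_nonneg _)
  have hE2 : (𝒳.card : ℝ) * E ≤ 4 * C5 * X * L := by
    calc (𝒳.card : ℝ) * E ≤ F ^ 2 * ((X / T : ℝ) * (C5 * z * (1 + L))) :=
          mul_le_mul hQ.2.1 hE1 hE0 (by positivity)
      _ = (F ^ 2 * z) / T * (C5 * X * (1 + L)) := by ring
      _ ≤ 2 * (C5 * X * (1 + L)) := by
          refine mul_le_mul_of_nonneg_right ?_ (by positivity)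
          rw [div_le_iff₀ (by linarith)]
          exact hFz
      _ ≤ 2 * (C5 * X * (2 * L)) := by
          refine mul_le_mul_of_nonneg_left ?_ (by norm_num)
          refine mul_le_mul_of_nonneg_left (by linarith) (by positivity)
      _ = 4 * C5 * X * L := by ring
  -- the main term
  have hmain : ∀ j ∈ range J, ∑ x ∈ 𝒳,
      ‖∑ m ∈ Ioc (T ^ 2 + j * T) (T ^ 2 + j * T + T), (ItemC6.al (X / T ^ 2) m : ℂ) * χ x m‖ *
        ‖∑ n ∈ Ioc (T ^ 2) (X / (T ^ 2 + j * T)), ItemC6.bb (T ^ 2) n * χ x n‖ ≤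
      3 * (1 + L) ^ 3 * X * (1 / ((T : ℝ) + j)) := by
    intro j _
    by_cases hj : T ^ 2 + j * T < X / T ^ 2
    · have ha0 : 0 < T ^ 2 + j * T := by positivity
      have hUN : T ^ 2 ≤ X / (T ^ 2 + j * T) := by
        rw [Nat.le_div_iff_mul_le ha0]
        have := (Nat.le_div_iff_mul_le hUpos).mp hj.le
        rwa [mul_comm] at this
      have hTN : T ≤ X / (T ^ 2 + j * T) := by
        refine le_trans ?_ hUN
        nlinarith
      have hNX : X / (T ^ 2 + j * T) ≤ X := Nat.div_le_self _ _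
      have h1 := ItemC6.block hC1 hC4 𝒳 χ F hQ (fun m => (ItemC6.al (X / T ^ 2) m : ℂ))
        (ItemC6.bb (T ^ 2)) (T ^ 2 + j * T) T (T ^ 2) (X / (T ^ 2 + j * T)) L hT hUN hTN hF4
        (by linarith) ?_ ?_ (fun n => ItemC6.bb_norm _ n)
      · refine h1.trans ?_
        have h2 : (T : ℝ) * ((X / (T ^ 2 + j * T) : ℕ) : ℝ) ≤ X * (1 / ((T : ℝ) + j)) := by
          have h3 : ((X / (T ^ 2 + j * T) : ℕ) : ℝ) ≤ (X : ℝ) / ((T ^ 2 + j * T : ℕ) : ℝ) :=
            Nat.cast_div_le
          have h4 : ((T ^ 2 + j * T : ℕ) : ℝ) = T * ((T : ℝ) + j) := by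
            push_cast
            ring
          rw [h4] at h3
          have hTj : (0 : ℝ) < (T : ℝ) + j := by positivity
          calc (T : ℝ) * ((X / (T ^ 2 + j * T) : ℕ) : ℝ)
              ≤ T * ((X : ℝ) / (T * ((T : ℝ) + j))) := mul_le_mul_of_nonneg_left h3 (by positivity)
            _ = X * (1 / ((T : ℝ) + j)) := by
              field_simp
        calc 3 * (T : ℝ) * ((X / (T ^ 2 + j * T) : ℕ) : ℝ) * (1 + L) ^ 3
            = 3 * (1 + L) ^ 3 * ((T : ℝ) * ((X / (T ^ 2 + j * T) : ℕ) : ℝ)) := by ring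
          _ ≤ 3 * (1 + L) ^ 3 * (X * (1 / ((T : ℝ) + j))) :=
            mul_le_mul_of_nonneg_left h2 (by positivity)
          _ = _ := by ring
      · have h5 : 1 ≤ X / (T ^ 2 + j * T) := hT.trans hTN
        refine Real.log_le_log (by exact_mod_cast h5) (by exact_mod_cast hNX)
      · intro m
        rw [Complex.norm_real, Real.norm_eq_abs, abs_of_nonneg (ItemC6.al_nonneg _ _)]
        unfold ItemC6.al
        split_ifs with hm
        · refine ArithmeticFunction.vonMangoldt_le_log.trans ?_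
          rcases Nat.eq_zero_or_pos m with h0 | h0
          · rw [h0]
            simp
            linarith
          · refine Real.log_le_log (by exact_mod_cast h0) ?_
            have : m ≤ X := hm.trans (Nat.div_le_self _ _)
            exact_mod_cast this
        · linarith
    · have h1 : ∀ x ∈ 𝒳,
          ‖∑ m ∈ Ioc (T ^ 2 + j * T) (T ^ 2 + j * T + T),
            (ItemC6.al (X / T ^ 2) m : ℂ) * χ x m‖ *
          ‖∑ n ∈ Ioc (T ^ 2) (X / (T ^ 2 + j * T)), ItemC6.bb (T ^ 2) n * χ x n‖ = 0 := by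
        intro x _
        have h2 : ∑ m ∈ Ioc (T ^ 2 + j * T) (T ^ 2 + j * T + T),
            (ItemC6.al (X / T ^ 2) m : ℂ) * χ x m = 0 := by
          refine Finset.sum_eq_zero fun m hm => ?_
          rw [Finset.mem_Ioc] at hm
          have : ¬ m ≤ X / T ^ 2 := by omega
          unfold ItemC6.al
          rw [if_neg this]
          simp
        rw [h2, norm_zero, zero_mul]
      rw [Finset.sum_congr rfl h1, Finset.sum_const_zero]
      positivity
  have hTJ : Real.log ((T + J : ℕ) : ℝ) ≤ 1 + L := by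
    have h1 : T + J ≤ 2 * X := by
      have h2 : T ≤ X := by
        calc T = T ^ 1 := (pow_one T).symm
          _ ≤ T ^ 6 := Nat.pow_le_pow_right hT (by norm_num)
          _ ≤ X := hTX
      have h3 : J ≤ X := Nat.div_le_self _ _
      omega
    have h4 : ((T + J : ℕ) : ℝ) ≤ 2 * X := by exact_mod_cast h1
    have h5 : (0 : ℝ) < ((T + J : ℕ) : ℝ) := by
      have : 0 < T + J := Nat.add_pos_left hT J
      exact_mod_cast this
    exact (Real.log_le_log h5 h4).trans hlog2X
  have hmain2 : ∑ j ∈ range J, ∑ x ∈ 𝒳,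
      ‖∑ m ∈ Ioc (T ^ 2 + j * T) (T ^ 2 + j * T + T), (ItemC6.al (X / T ^ 2) m : ℂ) * χ x m‖ *
        ‖∑ n ∈ Ioc (T ^ 2) (X / (T ^ 2 + j * T)), ItemC6.bb (T ^ 2) n * χ x n‖ ≤
      72 * X * L ^ 4 := by
    calc _ ≤ ∑ j ∈ range J, 3 * (1 + L) ^ 3 * X * (1 / ((T : ℝ) + j)) := Finset.sum_le_sum hmain
      _ = 3 * (1 + L) ^ 3 * X * ∑ j ∈ range J, (1 / ((T : ℝ) + j)) := by rw [Finset.mul_sum]
      _ ≤ 3 * (1 + L) ^ 3 * X * (1 + (1 + L)) := by
          refine mul_le_mul_of_nonneg_left ?_ (by positivity)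
          have := ItemC6.harm T J hT
          linarith
      _ ≤ 3 * (2 * L) ^ 3 * X * (3 * L) := by
          refine mul_le_mul ?_ (by linarith) (by positivity) (by positivity)
          refine mul_le_mul_of_nonneg_right ?_ (by positivity)
          refine mul_le_mul_of_nonneg_left ?_ (by norm_num)
          exact pow_le_pow_left₀ (by linarith) (by linarith) 3
      _ = 72 * X * L ^ 4 := by ring
  -- conclusion
  have hfin : ∀ x ∈ 𝒳, ‖∑ m ∈ Ioc (T ^ 2) (X / T ^ 2),
      (ArithmeticFunction.vonMangoldt m : ℂ) * χ x m *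
        ∑ n ∈ Ioc (T ^ 2) (X / m), ItemC6.bb (T ^ 2) n * χ x n‖ ≤
      ∑ j ∈ range J, ‖∑ m ∈ Ioc (T ^ 2 + j * T) (T ^ 2 + j * T + T),
        (ItemC6.al (X / T ^ 2) m : ℂ) * χ x m‖ *
        ‖∑ n ∈ Ioc (T ^ 2) (X / (T ^ 2 + j * T)), ItemC6.bb (T ^ 2) n * χ x n‖ + E := by
    intro x hx
    exact ItemC6.decomp (χ x) X T J hT (hQ.2.2.1 x hx).2.2.1 hJT
  calc ∑ x ∈ 𝒳, ‖∑ m ∈ Ioc (T ^ 2) (X / T ^ 2),
      (ArithmeticFunction.vonMangoldt m : ℂ) * χ x m *
        ∑ n ∈ Ioc (T ^ 2) (X / m), ItemC6.bb (T ^ 2) n * χ x n‖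
      ≤ ∑ x ∈ 𝒳, (∑ j ∈ range J, ‖∑ m ∈ Ioc (T ^ 2 + j * T) (T ^ 2 + j * T + T),
        (ItemC6.al (X / T ^ 2) m : ℂ) * χ x m‖ *
        ‖∑ n ∈ Ioc (T ^ 2) (X / (T ^ 2 + j * T)), ItemC6.bb (T ^ 2) n * χ x n‖ + E) :=
        Finset.sum_le_sum hfin
    _ = ∑ j ∈ range J, ∑ x ∈ 𝒳, ‖∑ m ∈ Ioc (T ^ 2 + j * T) (T ^ 2 + j * T + T),
        (ItemC6.al (X / T ^ 2) m : ℂ) * χ x m‖ *
        ‖∑ n ∈ Ioc (T ^ 2) (X / (T ^ 2 + j * T)), ItemC6.bb (T ^ 2) n * χ x n‖ +
        𝒳.card * E := by
        rw [Finset.sum_add_distrib, Finset.sum_comm, Finset.sum_const, nsmul_eq_mul]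
    _ ≤ 72 * X * L ^ 4 + 4 * C5 * X * L := add_le_add hmain2 hE2
    _ ≤ (72 + 4 * C5) * X * L ^ 5 := by
        have h1 : L ^ 4 ≤ L ^ 5 := pow_le_pow_right₀ hL1 (by norm_num)
        have h2 : L ≤ L ^ 5 := le_self_pow₀ hL1 (by norm_num)
        have h3 : 72 * (X : ℝ) * L ^ 4 ≤ 72 * X * L ^ 5 :=
          mul_le_mul_of_nonneg_left h1 (by positivity)
        have h4 : 4 * C5 * (X : ℝ) * L ≤ 4 * C5 * X * L ^ 5 :=
          mul_le_mul_of_nonneg_left h2 (by positivity)
        linarith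

end Pool.Agent.Work.MP_e0aece_nt.Sq

end

section

/-!
# Item C7: the mean value theorem for prime character sums
-/

namespace Pool.Agent.Work.MP_e0aece_nt.Sq

open Finset

namespace ItemC7

theorem sum_vonMangoldt_le (U : ℕ) (X : ℕ) (hUX : U ≤ X) :
    ∑ n ∈ Ioc 0 U, ArithmeticFunction.vonMangoldt n ≤ U * Real.log X := by
  calc ∑ n ∈ Ioc 0 U, ArithmeticFunction.vonMangoldt n ≤ ∑ n ∈ Ioc 0 U, Real.log X := by
        refine Finset.sum_le_sum fun n hn => ?_
        rw [Finset.mem_Ioc] at hn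
        refine ArithmeticFunction.vonMangoldt_le_log.trans ?_
        exact Real.log_le_log (by exact_mod_cast hn.1) (by exact_mod_cast hn.2.trans hUX)
    _ = U * Real.log X := by
        rw [Finset.sum_const, Nat.card_Ioc, nsmul_eq_mul, Nat.sub_zero]

theorem moeb_norm (d : ℕ) : ‖((ArithmeticFunction.moebius d : ℤ) : ℂ)‖ ≤ 1 := by
  have h : |(ArithmeticFunction.moebius d : ℤ)| ≤ 1 := ArithmeticFunction.abs_moebius_le_one
  rw [Complex.norm_intCast]
  exact_mod_cast h

theorem log_nat_le {Y X : ℕ} (h : Y ≤ X) : Real.log Y ≤ Real.log X := by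
  rcases Nat.eq_zero_or_pos Y with h0 | h0
  · rw [h0, Nat.cast_zero, Real.log_zero]
    exact Real.log_natCast_nonneg X
  · exact Real.log_le_log (by exact_mod_cast h0) (by exact_mod_cast h)

/-- The bound for one function. -/
theorem one (hC2 : ClaimC2) (hC3 : ClaimC3) (χ : ℕ → ℂ) (F : ℝ) (X U : ℕ) (hF : 1 ≤ F)
    (h1 : χ 1 = 1) (hmul : ∀ m n, χ (m * n) = χ m * χ n) (hn : ∀ n, ‖χ n‖ ≤ 1)
    (hI : ∀ a b : ℕ, ‖∑ n ∈ Ioc a b, χ n‖ ≤ F) (hU : 1 ≤ U) (hUX : U ≤ X) :
    ‖psiX χ X‖ ≤ 4 * F * (U : ℝ) ^ 2 * Real.log X +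
      ‖∑ m ∈ Ioc U (X / U), (ArithmeticFunction.vonMangoldt m : ℂ) * χ m *
        ∑ n ∈ Ioc U (X / m), ((∑ d ∈ n.divisors.filter (fun d => U < d),
          (ArithmeticFunction.moebius d : ℤ) : ℤ) : ℂ) * χ n‖ := by
  have hlog : 0 ≤ Real.log X := Real.log_natCast_nonneg X
  have hUR : (1 : ℝ) ≤ U := by exact_mod_cast hU
  rw [hC2 χ X U h1 hmul hU hUX]
  have e1 : ‖∑ n ∈ Ioc 0 U, (ArithmeticFunction.vonMangoldt n : ℂ) * χ n‖ ≤
      U * Real.log X := by
    refine (norm_sum_le _ _).trans ((Finset.sum_le_sum fun n _ => ?_).trans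
      (sum_vonMangoldt_le U X hUX))
    rw [norm_mul, Complex.norm_real, Real.norm_of_nonneg ArithmeticFunction.vonMangoldt_nonneg]
    calc ArithmeticFunction.vonMangoldt n * ‖χ n‖ ≤ ArithmeticFunction.vonMangoldt n * 1 :=
          mul_le_mul_of_nonneg_left (hn n) ArithmeticFunction.vonMangoldt_nonneg
      _ = _ := mul_one _
  have e2 : ‖∑ d ∈ Ioc 0 U, ((ArithmeticFunction.moebius d : ℤ) : ℂ) * χ d *
      ∑ m ∈ Ioc 0 (X / d), (Real.log m : ℂ) * χ m‖ ≤ U * (2 * F * Real.log X) := by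
    refine (norm_sum_le _ _).trans ?_
    calc ∑ d ∈ Ioc 0 U, ‖((ArithmeticFunction.moebius d : ℤ) : ℂ) * χ d *
          ∑ m ∈ Ioc 0 (X / d), (Real.log m : ℂ) * χ m‖
        ≤ ∑ d ∈ Ioc 0 U, (2 * F * Real.log X) := by
          refine Finset.sum_le_sum fun d _ => ?_
          rw [norm_mul, norm_mul]
          have h3 := hC3 χ F (X / d) (by linarith) hI
          have h4 : Real.log ((X / d : ℕ) : ℝ) ≤ Real.log X := log_nat_le (Nat.div_le_self X d)
          calc ‖((ArithmeticFunction.moebius d : ℤ) : ℂ)‖ * ‖χ d‖ *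
                ‖∑ m ∈ Ioc 0 (X / d), (Real.log m : ℂ) * χ m‖
              ≤ 1 * 1 * (2 * F * Real.log X) := by
                refine mul_le_mul (mul_le_mul (moeb_norm d) (hn d) (norm_nonneg _) zero_le_one)
                  (h3.trans ?_) (norm_nonneg _) (by norm_num)
                exact mul_le_mul_of_nonneg_left h4 (by linarith)
            _ = _ := by ring
      _ = U * (2 * F * Real.log X) := by
          rw [Finset.sum_const, Nat.card_Ioc, nsmul_eq_mul, Nat.sub_zero]
  have e3 : ‖∑ d ∈ Ioc 0 U, ∑ e ∈ Ioc 0 U, ((ArithmeticFunction.moebius d : ℤ) : ℂ) *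
      (ArithmeticFunction.vonMangoldt e : ℂ) * χ (d * e) *
          ∑ m ∈ Ioc 0 (X / (d * e)), χ m‖ ≤ U * (U * Real.log X * F) := by
    refine (norm_sum_le _ _).trans ?_
    calc ∑ d ∈ Ioc 0 U, ‖∑ e ∈ Ioc 0 U, ((ArithmeticFunction.moebius d : ℤ) : ℂ) *
          (ArithmeticFunction.vonMangoldt e : ℂ) * χ (d * e) *
          ∑ m ∈ Ioc 0 (X / (d * e)), χ m‖
        ≤ ∑ d ∈ Ioc 0 U, (U * Real.log X * F) := by
          refine Finset.sum_le_sum fun d _ => (norm_sum_le _ _).trans ?_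
          calc ∑ e ∈ Ioc 0 U, ‖((ArithmeticFunction.moebius d : ℤ) : ℂ) *
                (ArithmeticFunction.vonMangoldt e : ℂ) * χ (d * e) *
                ∑ m ∈ Ioc 0 (X / (d * e)), χ m‖
              ≤ ∑ e ∈ Ioc 0 U, ArithmeticFunction.vonMangoldt e * F := by
                refine Finset.sum_le_sum fun e _ => ?_
                rw [norm_mul, norm_mul, norm_mul, Complex.norm_real,
                  Real.norm_of_nonneg ArithmeticFunction.vonMangoldt_nonneg]
                have hv : 0 ≤ ArithmeticFunction.vonMangoldt e :=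
                  ArithmeticFunction.vonMangoldt_nonneg
                calc ‖((ArithmeticFunction.moebius d : ℤ) : ℂ)‖ *
                      ArithmeticFunction.vonMangoldt e * ‖χ (d * e)‖ *
                      ‖∑ m ∈ Ioc 0 (X / (d * e)), χ m‖
                    ≤ 1 * ArithmeticFunction.vonMangoldt e * 1 * F := by
                      refine mul_le_mul (mul_le_mul (mul_le_mul_of_nonneg_right (moeb_norm d) hv)
                        (hn _) (norm_nonneg _) (by linarith)) (hI _ _) (norm_nonneg _)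
                        (by linarith)
                  _ = _ := by ring
            _ = (∑ e ∈ Ioc 0 U, ArithmeticFunction.vonMangoldt e) * F := by
                rw [Finset.sum_mul]
            _ ≤ U * Real.log X * F :=
                mul_le_mul_of_nonneg_right (sum_vonMangoldt_le U X hUX) (by linarith)
      _ = U * (U * Real.log X * F) := by
          rw [Finset.sum_const, Nat.card_Ioc, nsmul_eq_mul, Nat.sub_zero]
  refine (norm_add_le _ _).trans (add_le_add ?_ le_rfl)
  refine (norm_sub_le _ _).trans ?_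
  refine (add_le_add ((norm_add_le _ _).trans (add_le_add e1 e2)) e3).trans ?_
  have hFU : (U : ℝ) * Real.log X ≤ F * (U : ℝ) ^ 2 * Real.log X := by
    have : (U : ℝ) ≤ F * (U : ℝ) ^ 2 := by
      calc (U : ℝ) ≤ (U : ℝ) ^ 2 := by nlinarith
        _ = 1 * (U : ℝ) ^ 2 := (one_mul _).symm
        _ ≤ F * (U : ℝ) ^ 2 := mul_le_mul_of_nonneg_right hF (by positivity)
    exact mul_le_mul_of_nonneg_right this hlog
  have hFU2 : (U : ℝ) * (2 * F * Real.log X) ≤ 2 * (F * (U : ℝ) ^ 2 * Real.log X) := by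
    have : (U : ℝ) ≤ (U : ℝ) ^ 2 := by nlinarith
    have h5 : (U : ℝ) * (F * Real.log X) ≤ (U : ℝ) ^ 2 * (F * Real.log X) :=
      mul_le_mul_of_nonneg_right this (mul_nonneg (by linarith) hlog)
    linarith
  have hFU3 : (U : ℝ) * (U * Real.log X * F) = F * (U : ℝ) ^ 2 * Real.log X := by ring
  linarith

theorem root6 (X : ℕ) (hX : 1 ≤ X) : ∃ T : ℕ, 1 ≤ T ∧ T ^ 6 ≤ X ∧ X < (T + 1) ^ 6 := by
  have h0 : ∃ t : ℕ, X < (t + 1) ^ 6 := ⟨X, by
    calc X < X + 1 := Nat.lt_succ_self X
      _ ≤ (X + 1) ^ 6 := Nat.le_self_pow (by norm_num) _⟩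
  classical
  refine ⟨Nat.find h0, ?_, ?_, Nat.find_spec h0⟩
  · rw [Nat.one_le_iff_ne_zero]
    intro h
    have := Nat.find_spec h0
    rw [h] at this
    simp at this
    omega
  · rcases Nat.eq_zero_or_pos (Nat.find h0) with h | h
    · rw [h]; simp
    · have := Nat.find_min h0 (Nat.sub_lt h one_pos)
      have e : Nat.find h0 - 1 + 1 = Nat.find h0 := Nat.succ_pred_eq_of_pos h
      rw [e] at this
      exact not_lt.mp this

end ItemC7

open ItemC7 in
theorem claimC7 (hC2 : ClaimC2) (hC3 : ClaimC3) (hC6 : ClaimC6) : ClaimC7 := by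
  obtain ⟨C, X0, h6⟩ := hC6
  refine ⟨4 + |C|, by positivity, max X0 3, ?_⟩
  intro κ 𝒳 χ F X hQ hX hFX
  obtain ⟨hF, hcard, hx, -⟩ := id hQ
  have hX3 : 3 ≤ X := (le_max_right _ _).trans hX
  obtain ⟨T, hT1, hT, hT'⟩ := root6 X (by omega)
  have h6' := h6 κ 𝒳 χ F X T hQ ((le_max_left _ _).trans hX) hFX hT hT'
  have hU : 1 ≤ T ^ 2 := Nat.one_le_pow _ _ hT1
  have hU3 : (T ^ 2) ^ 3 ≤ X := by rw [← pow_mul]; exact hT
  have hUX : T ^ 2 ≤ X := (Nat.le_self_pow (by norm_num) _).trans hU3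
  have hlog1 : 1 ≤ Real.log X := by
    have h3 : (3 : ℝ) ≤ X := by exact_mod_cast hX3
    have h4 : Real.exp 1 ≤ X := by linarith [Real.exp_one_lt_d9]
    rw [← Real.log_exp 1]
    exact Real.log_le_log (Real.exp_pos 1) h4
  have hXR : (1 : ℝ) ≤ X := by exact_mod_cast (by omega : 1 ≤ X)
  have hXR0 : (0 : ℝ) < X := by linarith
  set U : ℝ := ((T ^ 2 : ℕ) : ℝ) with hUdef
  have hU1R : 1 ≤ U := by rw [hUdef]; exact_mod_cast hU
  have hU3R : U ^ 3 ≤ X := by rw [hUdef]; exact_mod_cast hU3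
  have hF3 : F ^ 3 * U ^ 2 ≤ X := by
    have h1 : (F ^ 3 * U ^ 2) ^ 20 ≤ (X : ℝ) ^ 20 := by
      calc (F ^ 3 * U ^ 2) ^ 20 = F ^ 60 * U ^ 40 := by ring
        _ ≤ X * U ^ 42 := by
            refine mul_le_mul hFX (pow_le_pow_right₀ hU1R (by norm_num)) (by positivity)
              (by positivity)
        _ = X * (U ^ 3) ^ 14 := by ring
        _ ≤ X * (X : ℝ) ^ 14 := by gcongr
        _ = (X : ℝ) ^ 15 := by ring
        _ ≤ (X : ℝ) ^ 20 := pow_le_pow_right₀ hXR (by norm_num)
    exact le_of_pow_le_pow_left₀ (by norm_num) hXR0.le h1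
  calc ∑ x ∈ 𝒳, ‖psiX (χ x) X‖
      ≤ ∑ x ∈ 𝒳, (4 * F * U ^ 2 * Real.log X +
        ‖∑ m ∈ Ioc (T ^ 2) (X / T ^ 2), (ArithmeticFunction.vonMangoldt m : ℂ) * χ x m *
        ∑ n ∈ Ioc (T ^ 2) (X / m), ((∑ d ∈ n.divisors.filter (fun d => T ^ 2 < d),
          (ArithmeticFunction.moebius d : ℤ) : ℤ) : ℂ) * χ x n‖) := by
        refine Finset.sum_le_sum fun x hxx => ?_
        obtain ⟨h1, hmul, hn, hI⟩ := hx x hxx
        exact one hC2 hC3 (χ x) F X (T ^ 2) hF h1 hmul hn hI hU hUX
    _ ≤ 𝒳.card * (4 * F * U ^ 2 * Real.log X) + C * X * (Real.log X) ^ 5 := by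
        rw [Finset.sum_add_distrib, Finset.sum_const, nsmul_eq_mul]
        exact add_le_add le_rfl h6'
    _ ≤ F ^ 2 * (4 * F * U ^ 2 * Real.log X) + |C| * X * (Real.log X) ^ 5 := by
        refine add_le_add (mul_le_mul_of_nonneg_right hcard (by positivity)) ?_
        gcongr
        exact le_abs_self C
    _ = 4 * (F ^ 3 * U ^ 2) * Real.log X + |C| * X * (Real.log X) ^ 5 := by ring
    _ ≤ 4 * X * (Real.log X) ^ 6 + |C| * X * (Real.log X) ^ 6 := by
        refine add_le_add ?_ ?_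
        · have h2 : Real.log X ≤ (Real.log X) ^ 6 := by
            calc Real.log X = (Real.log X) ^ 1 := (pow_one _).symm
              _ ≤ (Real.log X) ^ 6 := pow_le_pow_right₀ hlog1 (by norm_num)
          refine mul_le_mul (by linarith) h2 (by linarith) (by positivity)
        · refine mul_le_mul_of_nonneg_left (pow_le_pow_right₀ hlog1 (by norm_num)) (by positivity)
    _ = (4 + |C|) * X * (Real.log X) ^ 6 := by ring

end Pool.Agent.Work.MP_e0aece_nt.Sq

end

section

/-!
# C8: sums of product characters over intervals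
-/

namespace Pool.Agent.Work.MP_e0aece_nt.Sq

open Finset

namespace ItemC8

/-- Interval sums of a periodic function with zero sum over a period. -/
theorem per_sum_le (f : ℕ → ℂ) (L : ℕ) (hL : 0 < L) (hper : ∀ n, f (n + L) = f n)
    (hn : ∀ n, ‖f n‖ ≤ 1) (h0 : ∑ n ∈ range L, f n = 0) :
    ∀ N a : ℕ, ‖∑ n ∈ Ico a (a + N), f n‖ ≤ L := by
  have hshift : ∀ a, ∑ n ∈ Ico a (a + L), f n = 0 := by
    intro a
    induction a with
    | zero => simpa using h0
    | succ a ih =>
      have h1 : ∑ n ∈ Ico a (a + L + 1), f n = ∑ n ∈ Ico a (a + L), f n + f (a + L) :=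
        Finset.sum_Ico_succ_top (by omega) f
      have h2 : ∑ n ∈ Ico a (a + L + 1), f n = f a + ∑ n ∈ Ico (a + 1) (a + L + 1), f n :=
        Finset.sum_eq_sum_Ico_succ_bot (by omega) f
      have h3 : a + 1 + L = a + L + 1 := by omega
      rw [h3]
      rw [h1, ih, hper] at h2
      have h4 : f a + ∑ n ∈ Ico (a + 1) (a + L + 1), f n = f a + 0 := by
        rw [← h2]; ring
      exact add_left_cancel h4
  intro N
  induction N using Nat.strong_induction_on with
  | _ N ih =>
    intro a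
    rcases lt_or_ge N L with h | h
    · calc ‖∑ n ∈ Ico a (a + N), f n‖ ≤ ∑ n ∈ Ico a (a + N), ‖f n‖ := norm_sum_le _ _
        _ ≤ ∑ n ∈ Ico a (a + N), (1 : ℝ) := Finset.sum_le_sum fun n _ => hn n
        _ = N := by simp
        _ ≤ L := by exact_mod_cast h.le
    · have h1 : ∑ n ∈ Ico a (a + N), f n =
          ∑ n ∈ Ico a (a + L), f n + ∑ n ∈ Ico (a + L) (a + N), f n :=
        (Finset.sum_Ico_consecutive f (by omega) (by omega)).symm
      have h2 : a + N = a + L + (N - L) := by omega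
      rw [h1, hshift, zero_add, h2]
      exact ih (N - L) (by omega) (a + L)

theorem main : ClaimC8 := by
  classical
  intro κ _ _ q T η hq hp hne a b
  set L : ℕ := ∏ i ∈ T, q i with hLdef
  have hL : 0 < L := Finset.prod_pos fun i _ => (hp i).pos
  have : NeZero L := ⟨hL.ne'⟩
  set f : ℕ → ℂ := fun n => ∏ i ∈ T, η i (n : ZMod (q i)) with hf
  have hcastL : ∀ i ∈ T, ((L : ℕ) : ZMod (q i)) = 0 := by
    intro i hi
    rw [ZMod.natCast_eq_zero_iff]
    exact Finset.dvd_prod_of_mem q hi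
  have hper : ∀ n, f (n + L) = f n := by
    intro n
    simp only [hf]
    refine Finset.prod_congr rfl fun i hi => ?_
    rw [Nat.cast_add, hcastL i hi, add_zero]
  have hmod : ∀ n, f (n % L) = f n := by
    intro n
    simp only [hf]
    refine Finset.prod_congr rfl fun i hi => ?_
    congr 1
    have h1 : ((n % L + L * (n / L) : ℕ) : ZMod (q i)) = (n : ZMod (q i)) := by
      rw [Nat.mod_add_div]
    rw [← h1, Nat.cast_add, Nat.cast_mul, hcastL i hi, zero_mul, add_zero]
  have hn : ∀ n, ‖f n‖ ≤ 1 := by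
    intro n
    simp only [hf]
    rw [norm_prod]
    refine Finset.prod_le_one (fun i _ => norm_nonneg _) fun i _ => ?_
    have : Fact (q i).Prime := ⟨hp i⟩
    by_cases hu : IsUnit (n : ZMod (q i))
    · obtain ⟨u, hu⟩ := hu
      rw [← hu]
      have h1 : (η i (u : ZMod (q i))) ^ (Fintype.card (ZMod (q i))ˣ) = 1 := by
        rw [← map_pow, ← Units.val_pow_eq_pow_val, pow_card_eq_one, Units.val_one, map_one]
      have h2 : ‖η i (u : ZMod (q i))‖ ^ (Fintype.card (ZMod (q i))ˣ) = 1 := by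
        rw [← norm_pow, h1, norm_one]
      exact le_of_eq ((pow_eq_one_iff_of_nonneg (norm_nonneg _) Fintype.card_ne_zero).1 h2)
    · rw [MulChar.map_nonunit _ hu]; simp
  have h0 : ∑ n ∈ range L, f n = 0 := by
    obtain ⟨i0, hi0, hne⟩ := hne
    have : Fact (q i0).Prime := ⟨hp i0⟩
    obtain ⟨g, hg⟩ : ∃ g : (ZMod (q i0))ˣ, η i0 (g : ZMod (q i0)) ≠ 1 := by
      by_contra hcon
      push Not at hcon
      apply hne
      ext g
      rw [hcon g, MulChar.one_apply_coe]
    -- the complementary modulus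
    set P : ℕ := ∏ i ∈ T.erase i0, q i with hP
    have hPL : q i0 * P = L := Finset.mul_prod_erase T q hi0
    have hcop : Nat.Coprime (q i0) P := by
      apply Nat.Coprime.prod_right
      intro i hi
      rw [Nat.coprime_primes (hp i0) (hp i)]
      intro h
      exact (Finset.ne_of_mem_erase hi) (hq h).symm
    obtain ⟨u, hu1, hu2⟩ := Nat.chineseRemainder hcop ((g : ZMod (q i0))).val 1
    have hu1' : ((u : ℕ) : ZMod (q i0)) = g := by
      have := (ZMod.natCast_eq_natCast_iff _ _ _).2 hu1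
      rw [this, ZMod.natCast_zmod_val]
    have hu2' : ∀ i ∈ T.erase i0, ((u : ℕ) : ZMod (q i)) = 1 := by
      intro i hi
      have hd : q i ∣ P := Finset.dvd_prod_of_mem q hi
      have := (ZMod.natCast_eq_natCast_iff _ _ _).2 (hu2.of_dvd hd)
      rw [this, Nat.cast_one]
    have hucop : Nat.Coprime u L := by
      rw [← hPL]
      apply Nat.Coprime.mul_right
      · rw [Nat.coprime_comm, (hp i0).coprime_iff_not_dvd, ← ZMod.natCast_eq_zero_iff, hu1']
        exact g.ne_zero
      · have := hu2.gcd_eq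
        rw [Nat.gcd_one_left] at this
        exact this
    have hfu : ∀ n : ℕ, f (u * n) = η i0 (g : ZMod (q i0)) * f n := by
      intro n
      simp only [hf]
      rw [← Finset.mul_prod_erase T _ hi0, ← Finset.mul_prod_erase T (fun i => η i (n : ZMod (q i))) hi0]
      rw [Nat.cast_mul, map_mul, hu1', mul_assoc]
      congr 2
      refine Finset.prod_congr rfl fun i hi => ?_
      rw [Nat.cast_mul, hu2' i hi, one_mul]
    have hsum : ∑ n ∈ range L, f n = ∑ x : ZMod L, f x.val := by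
      refine Finset.sum_nbij' (fun n => (n : ZMod L)) (fun x => x.val) ?_ ?_ ?_ ?_ ?_
      · intro n _; exact Finset.mem_univ _
      · intro x _; exact Finset.mem_range.2 (ZMod.val_lt x)
      · intro n hn; exact ZMod.val_cast_of_lt (Finset.mem_range.1 hn)
      · intro x _; exact ZMod.natCast_zmod_val x
      · intro n hn
        rw [ZMod.val_cast_of_lt (Finset.mem_range.1 hn)]
    have hval : ∀ x : ZMod L, f ((ZMod.unitOfCoprime u hucop : ZMod L) * x).val =
        η i0 (g : ZMod (q i0)) * f x.val := by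
      intro x
      rw [← hfu, ZMod.val_mul, hmod, ZMod.coe_unitOfCoprime, ZMod.val_natCast]
      simp only [hf]
      refine Finset.prod_congr rfl fun i hi => ?_
      congr 1
      rw [Nat.cast_mul, Nat.cast_mul]
      congr 1
      have h1 : ((u % L + L * (u / L) : ℕ) : ZMod (q i)) = (u : ZMod (q i)) := by
        rw [Nat.mod_add_div]
      rw [← h1, Nat.cast_add, Nat.cast_mul, hcastL i hi, zero_mul, add_zero]
    have hinv : ∑ x : ZMod L, f x.val = η i0 (g : ZMod (q i0)) * ∑ x : ZMod L, f x.val := by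
      rw [Finset.mul_sum]
      rw [← Equiv.sum_comp (Units.mulLeft (ZMod.unitOfCoprime u hucop)) (fun x : ZMod L => f x.val)]
      refine Finset.sum_congr rfl fun x _ => ?_
      exact hval x
    rw [hsum]
    have h5 : (η i0 (g : ZMod (q i0)) - 1) * ∑ x : ZMod L, f x.val = 0 := by
      rw [sub_mul, one_mul, ← hinv, sub_self]
    exact (mul_eq_zero.1 h5).resolve_left (sub_ne_zero.2 hg)
  have hmain := per_sum_le f L hL hper hn h0 (b - a) (a + 1)
  have hIoc : Ioc a b = Ico (a + 1) (a + 1 + (b - a)) := by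
    ext n
    simp only [Finset.mem_Ioc, Finset.mem_Ico]
    omega
  rw [hIoc]
  calc ‖∑ n ∈ Ico (a + 1) (a + 1 + (b - a)), ∏ i ∈ T, η i (n : ZMod (q i))‖ ≤ (L : ℝ) := hmain
    _ = ∏ i ∈ T, (q i : ℝ) := by rw [hLdef]; push_cast; rfl

end ItemC8

theorem claimC8 : ClaimC8 := ItemC8.main

end Pool.Agent.Work.MP_e0aece_nt.Sq

end

section

/-!
# C9: quasi-orthogonality of the families of characters
-/

namespace Pool.Agent.Work.MP_e0aece_nt.Sq

open Finset

namespace ItemC9

variable {κ : Type} [Fintype κ] [DecidableEq κ] {q : κ → ℕ}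

open Classical in
theorem cval_eq (ξ : ∀ i, MulChar (ZMod (q i)) ℂ) (n : ℕ) :
    cval q ξ n = ∏ i ∈ csupp q ξ, ξ i (n : ZMod (q i)) := by
  rw [cval, csupp, Finset.prod_filter]
  refine Finset.prod_congr rfl fun i _ => ?_
  by_cases h : ξ i = 1
  · rw [if_pos h, if_neg (not_not.2 h)]
  · rw [if_neg h, if_pos h]

theorem cval_one (ξ : ∀ i, MulChar (ZMod (q i)) ℂ) : cval q ξ 1 = 1 := by
  rw [cval_eq]
  refine Finset.prod_eq_one fun i _ => ?_
  rw [Nat.cast_one, map_one]

theorem cval_mul (ξ : ∀ i, MulChar (ZMod (q i)) ℂ) (m n : ℕ) :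
    cval q ξ (m * n) = cval q ξ m * cval q ξ n := by
  rw [cval_eq, cval_eq, cval_eq, ← Finset.prod_mul_distrib]
  refine Finset.prod_congr rfl fun i _ => ?_
  rw [Nat.cast_mul, map_mul]

theorem cval_norm (ξ : ∀ i, MulChar (ZMod (q i)) ℂ) (n : ℕ) : ‖cval q ξ n‖ ≤ 1 := by
  rw [cval_eq, norm_prod]
  refine Finset.prod_le_one (fun i _ => norm_nonneg _) fun i _ => ?_
  exact DirichletCharacter.norm_le_one (ξ i) _

theorem prod_le {z : ℕ} (hz : ∀ i, q i ≤ z) (T : Finset κ) :
    ∏ i ∈ T, (q i : ℝ) ≤ (z : ℝ) ^ T.card := by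
  rw [← Finset.prod_const]
  exact Finset.prod_le_prod (fun i _ => Nat.cast_nonneg _) fun i _ => by exact_mod_cast hz i

open Classical in
theorem mem_csupp (ξ : ∀ i, MulChar (ZMod (q i)) ℂ) (i : κ) : i ∈ csupp q ξ ↔ ξ i ≠ 1 := by
  rw [csupp, Finset.mem_filter]
  simp

open Classical in
/-- The correlation of two families. -/
theorem corr_eq (ξ ξ' : ∀ i, MulChar (ZMod (q i)) ℂ) (n : ℕ) :
    cval q ξ n * (starRingEnd ℂ) (cval q ξ' n) =
      ∏ i ∈ csupp q ξ ∪ csupp q ξ', (ξ i * (ξ' i)⁻¹) (n : ZMod (q i)) := by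
  have h1 : ∀ S : Finset κ, csupp q ξ ⊆ S → cval q ξ n =
      ∏ i ∈ S, (if ξ i = 1 then 1 else ξ i (n : ZMod (q i))) := by
    intro S hS
    rw [cval]
    symm
    refine Finset.prod_subset (Finset.subset_univ _) fun i _ hi => ?_
    have : ¬ i ∈ csupp q ξ := fun h => hi (hS h)
    rw [mem_csupp, not_not] at this
    rw [if_pos this]
  have h2 : ∀ S : Finset κ, csupp q ξ' ⊆ S → cval q ξ' n =
      ∏ i ∈ S, (if ξ' i = 1 then 1 else ξ' i (n : ZMod (q i))) := by
    intro S hS
    rw [cval]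
    symm
    refine Finset.prod_subset (Finset.subset_univ _) fun i _ hi => ?_
    have : ¬ i ∈ csupp q ξ' := fun h => hi (hS h)
    rw [mem_csupp, not_not] at this
    rw [if_pos this]
  rw [h1 _ Finset.subset_union_left, h2 _ Finset.subset_union_right, map_prod,
    ← Finset.prod_mul_distrib]
  refine Finset.prod_congr rfl fun i hi => ?_
  rw [Finset.mem_union, mem_csupp, mem_csupp] at hi
  have hs : ∀ χ : MulChar (ZMod (q i)) ℂ, (starRingEnd ℂ) (χ (n : ZMod (q i))) =
      χ⁻¹ (n : ZMod (q i)) := fun χ => MulChar.star_apply' χ _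
  by_cases ha : ξ i = 1
  · have hb : ξ' i ≠ 1 := by
      rcases hi with h | h
      · exact absurd ha h
      · exact h
    rw [if_pos ha, if_neg hb, ha, one_mul, one_mul]
    exact hs _
  · by_cases hb : ξ' i = 1
    · rw [if_neg ha, if_pos hb, hb, map_one, mul_one, inv_one, mul_one]
    · rw [if_neg ha, if_neg hb, MulChar.mul_apply]
      congr 1
      exact hs _

open Classical in
theorem card_fam {z h : ℕ} (hq : Function.Injective q) (hp : ∀ i, (q i).Prime)
    (hz : ∀ i, q i ≤ z) (𝒳 : Finset (∀ i, MulChar (ZMod (q i)) ℂ))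
    (hX : ∀ ξ ∈ 𝒳, (csupp q ξ).card = h) : 𝒳.card ≤ z ^ h * z ^ h := by
  haveI : ∀ i, NeZero (q i) := fun i => ⟨(hp i).ne_zero⟩
  haveI : ∀ i, Fintype (MulChar (ZMod (q i)) ℂ) := fun i => Fintype.ofFinite _
  have hcard : ∀ i, Fintype.card (MulChar (ZMod (q i)) ℂ) ≤ z := by
    intro i
    have h1 : Nat.card (DirichletCharacter ℂ (q i)) = (q i).totient :=
      DirichletCharacter.card_eq_totient_of_hasEnoughRootsOfUnity ℂ (q i)
    have h2 : Fintype.card (MulChar (ZMod (q i)) ℂ) = Nat.card (DirichletCharacter ℂ (q i)) :=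
      Nat.card_eq_fintype_card.symm
    rw [h2, h1]
    exact (Nat.totient_le _).trans (hz i)
  have hκ : Fintype.card κ ≤ z := by
    have h1 : (Finset.univ : Finset κ).card ≤ (Finset.Icc 1 z).card := by
      refine Finset.card_le_card_of_injOn q (fun i _ => ?_) (hq.injOn)
      rw [Finset.mem_coe, Finset.mem_Icc]
      exact ⟨(hp i).one_le, hz i⟩
    simpa using h1
  have hsub : 𝒳 ⊆ (Finset.powersetCard h (Finset.univ : Finset κ)).biUnion
      (fun S => Fintype.piFinset fun i =>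
        if i ∈ S then (Finset.univ : Finset (MulChar (ZMod (q i)) ℂ)) else {1}) := by
    intro ξ hξ
    rw [Finset.mem_biUnion]
    refine ⟨csupp q ξ, Finset.mem_powersetCard.2 ⟨Finset.subset_univ _, hX ξ hξ⟩, ?_⟩
    rw [Fintype.mem_piFinset]
    intro i
    by_cases hi : i ∈ csupp q ξ
    · rw [if_pos hi]
      exact Finset.mem_univ _
    · rw [if_neg hi, Finset.mem_singleton]
      rw [mem_csupp, not_not] at hi
      exact hi
  refine (Finset.card_le_card hsub).trans (Finset.card_biUnion_le.trans ?_)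
  have hS : ∀ S ∈ Finset.powersetCard h (Finset.univ : Finset κ),
      (Fintype.piFinset fun i =>
        if i ∈ S then (Finset.univ : Finset (MulChar (ZMod (q i)) ℂ)) else {1}).card ≤ z ^ h := by
    intro S hS
    rw [Fintype.card_piFinset]
    have h1 : ∏ i, (if i ∈ S then (Finset.univ : Finset (MulChar (ZMod (q i)) ℂ)) else {1}).card =
        ∏ i ∈ S, Fintype.card (MulChar (ZMod (q i)) ℂ) := by
      rw [← Finset.prod_subset (Finset.subset_univ S)]
      · refine Finset.prod_congr rfl fun i hi => ?_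
        rw [if_pos hi, Finset.card_univ]
      · intro i _ hi
        rw [if_neg hi, Finset.card_singleton]
    rw [h1]
    calc ∏ i ∈ S, Fintype.card (MulChar (ZMod (q i)) ℂ) ≤ ∏ _i ∈ S, z :=
          Finset.prod_le_prod' fun i _ => hcard i
      _ = z ^ h := by rw [Finset.prod_const, (Finset.mem_powersetCard.1 hS).2]
  refine (Finset.sum_le_sum hS).trans ?_
  rw [Finset.sum_const, Finset.card_powersetCard, Finset.card_univ, smul_eq_mul]
  refine Nat.mul_le_mul_right _ ?_
  exact (Nat.choose_le_pow _ _).trans (Nat.pow_le_pow_left hκ _)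

end ItemC9

open ItemC9 in
theorem claimC9 (hC8 : ClaimC8) : ClaimC9 := by
  intro κ _ _ q z h 𝒳 hq hp hz hh hz1 hX
  have hz1' : (1 : ℝ) ≤ z := by exact_mod_cast hz1
  refine ⟨one_le_pow₀ hz1', ?_, ?_, ?_⟩
  · have := card_fam hq hp hz 𝒳 hX
    calc (𝒳.card : ℝ) ≤ ((z ^ h * z ^ h : ℕ) : ℝ) := by exact_mod_cast this
      _ = ((z : ℝ) ^ h) ^ 2 := by push_cast; ring
  · intro ξ hξ
    refine ⟨cval_one ξ, cval_mul ξ, cval_norm ξ, fun a b => ?_⟩
    have hne : (csupp q ξ).Nonempty := by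
      rw [← Finset.card_pos, hX ξ hξ]
      exact hh
    obtain ⟨i, hi⟩ := hne
    have h1 := hC8 κ q (csupp q ξ) ξ hq hp ⟨i, hi, (mem_csupp ξ i).1 hi⟩ a b
    have h2 : ∑ n ∈ Ioc a b, cval q ξ n =
        ∑ n ∈ Ioc a b, ∏ i ∈ csupp q ξ, ξ i (n : ZMod (q i)) :=
      Finset.sum_congr rfl fun n _ => cval_eq ξ n
    rw [h2]
    refine h1.trans ?_
    have := prod_le hz (csupp q ξ)
    rwa [hX ξ hξ] at this
  · intro ξ hξ ξ' hξ' hne a b
    obtain ⟨i, hi⟩ := Function.ne_iff.1 hne
    have hmem : i ∈ csupp q ξ ∪ csupp q ξ' := by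
      rw [Finset.mem_union, mem_csupp, mem_csupp]
      by_contra hcon
      push Not at hcon
      exact hi (hcon.1.trans hcon.2.symm)
    have hη : ξ i * (ξ' i)⁻¹ ≠ 1 := by
      rw [Ne, mul_inv_eq_one]
      exact hi
    have h1 := hC8 κ q (csupp q ξ ∪ csupp q ξ') (fun i => ξ i * (ξ' i)⁻¹) hq hp
      ⟨i, hmem, hη⟩ a b
    have h2 : ∑ n ∈ Ioc a b, cval q ξ n * (starRingEnd ℂ) (cval q ξ' n) =
        ∑ n ∈ Ioc a b, ∏ i ∈ csupp q ξ ∪ csupp q ξ', (ξ i * (ξ' i)⁻¹) (n : ZMod (q i)) :=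
      Finset.sum_congr rfl fun n _ => corr_eq ξ ξ' n
    rw [h2]
    refine h1.trans ((prod_le hz _).trans ?_)
    rw [← pow_mul]
    refine pow_le_pow_right₀ hz1' ?_
    refine (Finset.card_union_le _ _).trans ?_
    rw [hX ξ hξ, hX ξ' hξ']
    omega

end Pool.Agent.Work.MP_e0aece_nt.Sq

end

section

/-!
# Item CF: Module C assembly
-/

namespace Pool.Agent.Work.MP_e0aece_nt.Sq

open Finset

namespace ItemCF

variable {M N : ℕ} {q : Fin M × Fin N → ℕ} (σ : Fin M → Fin N)

/-- Transport of a family of characters along the graph of `σ`. -/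
noncomputable def lft (χ : ∀ i, MulChar (ZMod (q (i, σ i))) ℂ) :
    ∀ x : Fin M × Fin N, MulChar (ZMod (q x)) ℂ
  | (i, j) => if h : σ i = j then h ▸ χ i else 1

theorem lft_graph (χ : ∀ i, MulChar (ZMod (q (i, σ i))) ℂ) (i : Fin M) :
    lft σ χ (i, σ i) = χ i := by
  simp [lft]

theorem lft_off (χ : ∀ i, MulChar (ZMod (q (i, σ i))) ℂ) (i : Fin M) (j : Fin N) (h : j ≠ σ i) :
    lft σ χ (i, j) = 1 := by
  simp only [lft]
  rw [dif_neg fun e => h e.symm]

theorem lft_inj : Function.Injective (lft (q := q) σ) := by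
  intro χ χ' h
  funext i
  rw [← lft_graph σ χ i, ← lft_graph σ χ' i, h]

theorem csupp_lft (χ : ∀ i, MulChar (ZMod (q (i, σ i))) ℂ) :
    csupp q (lft σ χ) = (csupp (fun i => q (i, σ i)) χ).map
      ⟨fun i => (i, σ i), fun _ _ h => (Prod.ext_iff.mp h).1⟩ := by
  ext ⟨i, j⟩
  simp only [csupp, mem_filter, mem_univ, true_and, mem_map, Function.Embedding.coeFn_mk,
    Prod.mk.injEq]
  constructor
  · intro h
    by_cases hj : j = σ i
    · subst hj
      rw [lft_graph] at h
      exact ⟨i, h, rfl, rfl⟩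
    · exact absurd (lft_off σ χ i j hj) h
  · rintro ⟨i', h, rfl, rfl⟩
    rwa [lft_graph]

theorem cval_lft (χ : ∀ i, MulChar (ZMod (q (i, σ i))) ℂ) :
    cval q (lft σ χ) = cval (fun i => q (i, σ i)) χ := by
  funext n
  unfold cval
  rw [Fintype.prod_prod_type]
  refine Finset.prod_congr rfl fun i _ => ?_
  rw [Finset.prod_eq_single (σ i)]
  · rw [lft_graph]
  · intro j _ hj
    rw [if_pos (lft_off σ χ i j hj)]
  · intro h
    exact absurd (mem_univ _) h

end ItemCF

theorem claimC (hC12 : ClaimC12) (hC15 : ClaimC15) (hC16 : ClaimC16) : ClaimC := by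
  classical
  obtain ⟨M1, h12⟩ := hC12
  obtain ⟨M2, h15⟩ := hC15
  obtain ⟨M3, h16⟩ := hC16
  refine ⟨max (max M1 M2) (max M3 3), fun M hM L hL1 hL2 => ?_⟩
  have hM1 : M1 ≤ M := le_trans (le_trans (le_max_left _ _) (le_max_left _ _)) hM
  have hM2 : M2 ≤ M := le_trans (le_trans (le_max_right _ _) (le_max_left _ _)) hM
  have hM3 : M3 ≤ M := le_trans (le_trans (le_max_left _ _) (le_max_right _ _)) hM
  have hM4 : 3 ≤ M := le_trans (le_trans (le_max_right _ _) (le_max_right _ _)) hM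
  obtain ⟨lam, hlam, hl1, hl2, hcard⟩ := h12 M hM1 L hL1 hL2
  set Q := (Ioc (M ^ 20) (4 * M ^ 20)).filter fun q => q.Prime ∧ lam ∣ q - 1 with hQ
  have hQle : Q.card ≤ 3 * M ^ 20 := by
    calc Q.card ≤ (Ioc (M ^ 20) (4 * M ^ 20)).card := card_filter_le _ _
      _ = 3 * M ^ 20 := by rw [Nat.card_Ioc]; omega
  have hN1 : M ^ 18 ≤ Q.card / M := by
    rw [Nat.le_div_iff_mul_le (by omega)]
    calc M ^ 18 * M = M ^ 19 := by ring
      _ ≤ Q.card := hcard
  have hN2 : Q.card / M ≤ M ^ 20 := by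
    apply Nat.div_le_of_le_mul
    calc Q.card ≤ 3 * M ^ 20 := hQle
      _ ≤ M * M ^ 20 := Nat.mul_le_mul_right _ hM4
  obtain ⟨e⟩ : Nonempty (Fin M × Fin (Q.card / M) ↪ Q) := by
    apply Function.Embedding.nonempty_of_card_le
    rw [Fintype.card_prod, Fintype.card_fin, Fintype.card_fin, Fintype.card_coe]
    exact Nat.mul_div_le _ _
  set N := Q.card / M with hN
  let q : Fin M × Fin N → ℕ := fun x => (e x : ℕ)
  have hqi : Function.Injective q := fun x y h => e.injective (Subtype.ext h)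
  have hq : ∀ x, ((q x).Prime ∧ lam ∣ q x - 1) ∧ M ^ 20 < q x ∧ q x ≤ 4 * M ^ 20 := by
    intro x
    have h := mem_filter.mp (e x).2
    exact ⟨h.2, mem_Ioc.mp h.1⟩
  obtain ⟨σ, hσ1, hσ2⟩ := h15 M hM2 N q hN1 hN2 hqi fun x => ⟨(hq x).1.1, (hq x).2⟩
  let p : Fin M → ℕ := fun i => q (i, σ i)
  have hpi : Function.Injective p := fun i j h => (Prod.ext_iff.mp (hqi h)).1
  refine ⟨lam, p, hlam, hl1, hl2, ⟨hpi, fun i => ⟨(hq _).1.1, (hq _).2.1, (hq _).2.2, (hq _).1.2⟩⟩,
    ?_, ?_⟩
  · intro inst S hS hSc χ hχ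
    let χ' : ∀ i, MulChar (ZMod (p i)) ℂ := fun i => if i ∈ S then χ i else 1
    have hsupp : csupp p χ' = S := by
      ext i
      simp only [csupp, mem_filter, mem_univ, true_and, χ']
      by_cases hi : i ∈ S
      · simp [hi, hχ i hi]
      · simp [hi]
    have hval : ∀ n : ℕ, cval p χ' n = ∏ i ∈ S, χ i (n : ZMod (p i)) := by
      intro n
      unfold cval
      rw [← Finset.prod_subset (Finset.subset_univ S)]
      · refine Finset.prod_congr rfl fun i hi => ?_
        simp only [χ']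
        rw [if_pos hi, if_neg (hχ i hi)]
      · intro i _ hi
        simp only [χ']
        rw [if_neg hi, if_pos rfl]
    have h1 := hσ1 (ItemCF.lft σ χ') (by
        rw [ItemCF.csupp_lft, Finset.map_nonempty]
        exact hsupp ▸ hS) (by
        rw [ItemCF.csupp_lft, Finset.card_map]
        exact hsupp ▸ hSc) (by
        intro x hx
        rw [ItemCF.csupp_lft, Finset.mem_map] at hx
        obtain ⟨i, _, rfl⟩ := hx
        rfl)
    rw [ItemCF.cval_lft] at h1
    rw [Fintype.card_fin]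
    refine le_of_eq_of_le ?_ h1
    congr 1
    exact Finset.sum_congr rfl fun j _ => (hval (p j)).symm
  · refine h16 M hM3 p hpi (fun i => ⟨(hq _).1.1, (hq _).2.1, (hq _).2.2⟩) fun 𝒳 h𝒳 => ?_
    have h2 := hσ2 (𝒳.map ⟨ItemCF.lft σ, ItemCF.lft_inj σ⟩) (by
      intro ξ hξ
      rw [Finset.mem_map] at hξ
      obtain ⟨χ, hχ, rfl⟩ := hξ
      simp only [Function.Embedding.coeFn_mk]
      rw [ItemCF.csupp_lft, Finset.map_nonempty]
      refine ⟨h𝒳 χ hχ, fun x hx => ?_⟩
      rw [Finset.mem_map] at hx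
      obtain ⟨i, _, rfl⟩ := hx
      rfl)
    rw [Finset.sum_map] at h2
    simp only [Function.Embedding.coeFn_mk, ItemCF.cval_lft] at h2
    exact h2

end Pool.Agent.Work.MP_e0aece_nt.Sq

end

section

/-!
# Item W1: the coefficients of degree at least `m` vanish
-/

namespace Pool.Agent.Work.MP_e0aece_nt.Sq

open Finset Polynomial

namespace ItemW1

theorem exists_shift {q : ℕ} [Fact q.Prime] {m : ℕ} (a : Fin m → ZMod q)
    (ha : Function.Injective a) {n : ℕ} (hm : 1 ≤ m) (hmn : m ≤ n) (t : Fin m → ZMod q) :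
    ∃ v : Fin n → ZMod q, ∀ (c : Fin n → ZMod q) (j : Fin m),
      (mon (c + v)).eval (a j) = (mon c).eval (a j) + t j := by
  set P := Lagrange.interpolate Finset.univ a t with hP
  have hinj : Set.InjOn a ((Finset.univ : Finset (Fin m)) : Set (Fin m)) := ha.injOn
  have hdeg : P.degree < (n : ℕ) := by
    refine (Lagrange.degree_interpolate_lt t hinj).trans_le ?_
    rw [Finset.card_univ, Fintype.card_fin]
    exact_mod_cast hmn
  refine ⟨fun i => P.coeff i, fun c j => ?_⟩
  have h1 : mon (c + fun i : Fin n => P.coeff i) = mon c + P := by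
    unfold mon
    rw [add_assoc]
    congr 1
    have h2 : P = ∑ i : Fin n, C (P.coeff i) * X ^ (i : ℕ) := by
      rw [Finset.sum_fin_eq_sum_range]
      conv_lhs => rw [P.as_sum_range_C_mul_X_pow' (n := n) (by
        by_cases h0 : P = 0
        · rw [h0, natDegree_zero]
          omega
        · exact (natDegree_lt_iff_degree_lt h0).2 hdeg)]
      refine Finset.sum_congr rfl fun i hi => ?_
      rw [dif_pos (Finset.mem_range.1 hi)]
    conv_rhs => rw [h2]
    rw [← Finset.sum_add_distrib]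
    refine Finset.sum_congr rfl fun i _ => ?_
    rw [Pi.add_apply, C_add, add_mul]
  rw [h1, eval_add, hP, Lagrange.eval_interpolate_at_node t hinj (Finset.mem_univ j)]

end ItemW1

open ItemW1 in
/-- W1: the coefficients of degree at least `m` vanish. -/
theorem claimW1 : ClaimW1 := by
  intro q _ m a χ ha hχ hm n hmn
  have h1 : ∀ t : Fin m → ZMod q, cc a χ n =
      ∑ c : Fin n → ZMod q, ∏ j, χ j ((mon c).eval (a j) + t j) := by
    intro t
    obtain ⟨v, hv⟩ := exists_shift a ha hm hmn t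
    unfold cc Psi
    rw [← Equiv.sum_comp (Equiv.addRight v)]
    refine Finset.sum_congr rfl fun c _ => Finset.prod_congr rfl fun j _ => ?_
    rw [Equiv.coe_addRight, hv]
  have h2 : ∑ _t : Fin m → ZMod q, cc a χ n = 0 := by
    rw [Finset.sum_congr rfl fun t _ => h1 t, Finset.sum_comm]
    refine Finset.sum_eq_zero fun c _ => ?_
    have h3 : ∑ t : Fin m → ZMod q, ∏ j, χ j ((mon c).eval (a j) + t j) =
        ∏ j, ∑ x : ZMod q, χ j ((mon c).eval (a j) + x) := by
      rw [Finset.prod_univ_sum, Fintype.piFinset_univ]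
    rw [h3]
    refine Finset.prod_eq_zero (Finset.mem_univ (⟨0, by omega⟩ : Fin m)) ?_
    have h4 := Equiv.sum_comp (Equiv.addLeft ((mon c).eval (a ⟨0, by omega⟩)))
      (fun x => χ ⟨0, by omega⟩ x)
    rw [MulChar.sum_eq_zero_of_ne_one (hχ _)] at h4
    exact h4
  rw [Finset.sum_const, nsmul_eq_mul] at h2
  rcases mul_eq_zero.1 h2 with h | h
  · exfalso
    have h3 : (Finset.univ : Finset (Fin m → ZMod q)).card ≠ 0 := by
      rw [Finset.card_univ]
      exact Fintype.card_ne_zero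
    exact h3 (by exact_mod_cast h)
  · exact h

end Pool.Agent.Work.MP_e0aece_nt.Sq

end

section

set_option autoImplicit false

namespace Pool.Agent.Work.MP_e0aece_nt.Sq

open Finset Polynomial

namespace ItemW10

theorem exists_gen (q : ℕ) [Fact q.Prime] (m : ℕ) (χ : Fin m → MulChar (ZMod q) ℂ) (hm : 1 ≤ m)
    (hχ : ∀ j, χ j ≠ 1) : ∃ (d : ℕ) (z : ZMod q) (ζ : ℂ) (e : Fin m → ℕ), 2 ≤ d ∧ d ∣ q - 1 ∧
      IsPrimitiveRoot z d ∧ IsPrimitiveRoot ζ d ∧ (∀ j, 1 ≤ e j) ∧
      (∀ l : ℕ, l.Prime → l ∣ d → ∃ j, ¬ l ∣ e j) ∧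
      ∀ (v : Fin m → ZMod q) (i : ℕ), (∀ j, v j ≠ 0) →
        (∏ j, v j ^ e j) ^ ((q - 1) / d) = z ^ i → ∏ j, χ j (v j) = ζ ^ i := by
  have hq : 1 < q := (Fact.out : q.Prime).one_lt
  obtain ⟨g, hg⟩ := IsCyclic.exists_generator (α := (ZMod q)ˣ)
  have hcard : Nat.card (ZMod q)ˣ = q - 1 := by
    rw [Nat.card_eq_fintype_card, ZMod.card_units_eq_totient, Nat.totient_prime Fact.out]
  have hgo : orderOf g = q - 1 := by
    rw [orderOf_eq_card_of_forall_mem_zpowers hg, hcard]
  have hgp : IsPrimitiveRoot (g : ZMod q) (q - 1) := by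
    have := IsPrimitiveRoot.orderOf g
    rw [hgo] at this
    exact IsPrimitiveRoot.coe_units_iff.2 this
  have hgen : ∀ v : ZMod q, v ≠ 0 → ∃ s : ℕ, (g : ZMod q) ^ s = v := by
    intro v hv
    have h1 := hg (Units.mk0 v hv)
    rw [← mem_powers_iff_mem_zpowers] at h1
    obtain ⟨s, hs⟩ := h1
    refine ⟨s, ?_⟩
    have := congrArg (fun u : (ZMod q)ˣ => (u : ZMod q)) hs
    simpa using this
  set Z : ℂ := Complex.exp (2 * Real.pi * Complex.I / ((q - 1 : ℕ) : ℂ)) with hZ
  have hZp : IsPrimitiveRoot Z (q - 1) := Complex.isPrimitiveRoot_exp (q - 1) (by omega)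
  have ht : ∀ j, ∃ t, t < q - 1 ∧ Z ^ t = χ j (g : ZMod q) := by
    intro j
    have : NeZero (q - 1) := ⟨by omega⟩
    refine hZp.eq_pow_of_pow_eq_one ?_
    rw [← map_pow, hgp.pow_eq_one, map_one]
  choose t ht1 ht2 using ht
  have ht3 : ∀ j, 1 ≤ t j := by
    intro j
    rcases Nat.eq_zero_or_pos (t j) with h | h
    · exfalso
      apply hχ j
      have h1 : χ j (g : ZMod q) = 1 := by rw [← ht2 j, h, pow_zero]
      ext u
      obtain ⟨s, hs⟩ := hgen (u : ZMod q) u.ne_zero
      rw [← hs, map_pow, h1, one_pow, hs]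
      simp
    · exact h
  set G0 := Nat.gcd (q - 1) (Finset.univ.gcd t) with hG0
  have hG1 : G0 ∣ q - 1 := Nat.gcd_dvd_left _ _
  have hG2 : ∀ j, G0 ∣ t j := fun j => (Nat.gcd_dvd_right _ _).trans (Finset.gcd_dvd (Finset.mem_univ j))
  have hG0pos : 0 < G0 := Nat.gcd_pos_of_pos_left _ (by omega)
  obtain ⟨d, hd⟩ := hG1
  choose e he using hG2
  have hdpos : 0 < d := by
    rcases Nat.eq_zero_or_pos d with h | h
    · rw [h] at hd; omega
    · exact h
  have hdiv : (q - 1) / d = G0 := by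
    rw [hd]; exact Nat.mul_div_cancel _ hdpos
  have hz : IsPrimitiveRoot ((g : ZMod q) ^ G0) d := hgp.pow (by omega) hd
  have hζ : IsPrimitiveRoot (Z ^ G0) d := hZp.pow (by omega) hd
  refine ⟨d, (g : ZMod q) ^ G0, Z ^ G0, e, ?_, ⟨G0, by rw [hd, mul_comm]⟩, hz, hζ, ?_, ?_, ?_⟩
  · have h0 : t ⟨0, hm⟩ < q - 1 := ht1 _
    have h1 := ht3 ⟨0, hm⟩
    have h2 : G0 ≤ t ⟨0, hm⟩ := Nat.le_of_dvd h1 ⟨_, he _⟩
    by_contra h3
    have : d = 1 := by omega
    rw [this, mul_one] at hd
    omega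
  · intro j
    rcases Nat.eq_zero_or_pos (e j) with h | h
    · have h1 := ht3 j
      rw [he j, h] at h1
      omega
    · exact h
  · intro l hl hld
    by_contra hall
    push Not at hall
    have h1 : G0 * l ∣ q - 1 := by rw [hd]; exact Nat.mul_dvd_mul_left _ hld
    have h2 : G0 * l ∣ Finset.univ.gcd t := by
      refine Finset.dvd_gcd fun j _ => ?_
      rw [he j]
      exact Nat.mul_dvd_mul_left _ (hall j)
    have h3 : G0 * l ∣ G0 := Nat.dvd_gcd h1 h2
    have h4 := Nat.le_of_dvd hG0pos h3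
    have h5 := hl.two_le
    nlinarith
  · intro v i hv hvi
    choose s hs using fun j => hgen (v j) (hv j)
    rw [hdiv] at hvi
    have h1 : (∏ j, v j ^ e j) ^ G0 = ((g : ZMod q) ^ G0) ^ (∑ j, s j * e j) := by
      have : ∏ j, v j ^ e j = (g : ZMod q) ^ (∑ j, s j * e j) := by
        rw [← Finset.prod_pow_eq_pow_sum]
        refine Finset.prod_congr rfl fun j _ => ?_
        rw [← hs j, ← pow_mul]
      rw [this, ← pow_mul, ← pow_mul, mul_comm]
    rw [h1] at hvi
    have h2 : ∏ j, χ j (v j) = (Z ^ G0) ^ (∑ j, s j * e j) := by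
      rw [← Finset.prod_pow_eq_pow_sum]
      refine Finset.prod_congr rfl fun j _ => ?_
      rw [← hs j, map_pow, ← ht2 j, he j, ← pow_mul, ← pow_mul]
      congr 1; ring
    rw [h2]
    have h4 : ∀ k : ℕ, ((g : ZMod q) ^ G0) ^ (k % d) = ((g : ZMod q) ^ G0) ^ k := fun k => by
      rw [hz.eq_orderOf]; exact pow_mod_orderOf _ _
    have h5 : ∀ k : ℕ, (Z ^ G0) ^ (k % d) = (Z ^ G0) ^ k := fun k => by
      rw [hζ.eq_orderOf]; exact pow_mod_orderOf _ _
    have h6 : (∑ j, s j * e j) % d = i % d := by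
      refine hz.pow_inj (Nat.mod_lt _ hdpos) (Nat.mod_lt _ hdpos) ?_
      rw [h4, h4, hvi]
    rw [← h5 (∑ j, s j * e j), h6, h5]

theorem expand_pow (q : ℕ) [Fact q.Prime] (f : (ZMod q)[X]) (n : ℕ) :
    f ^ q ^ n = expand (ZMod q) (q ^ n) f := by
  induction n with
  | zero => simp
  | succ n ih => rw [pow_succ, pow_mul, ih, ← ZMod.expand_card, expand_expand, mul_comm]

section

variable {K : Type} [Field K] {m : ℕ} (b : Fin m → K) (e : Fin m → ℕ)

theorem f_natDegree :
    (∏ j, (C (b j) - X) ^ e j : K[X]).natDegree = ∑ j, e j := by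
  have h1 : ∀ j, (C (b j) - X : K[X]) = -(X - C (b j)) := fun j => by ring
  have h2 : ∀ j, (C (b j) - X : K[X]) ≠ 0 := fun j => by
    rw [h1, neg_ne_zero]; exact X_sub_C_ne_zero _
  rw [natDegree_prod _ _ fun j _ => pow_ne_zero _ (h2 j)]
  refine Finset.sum_congr rfl fun j _ => ?_
  rw [natDegree_pow, h1, natDegree_neg, natDegree_X_sub_C, mul_one]

theorem f_roots (hb : Function.Injective b) (i : Fin m) :
    (∏ j, (C (b j) - X) ^ e j : K[X]).rootMultiplicity (b i) = e i := by
  classical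
  have h1 : ∀ j, (C (b j) - X : K[X]) = -(X - C (b j)) := fun j => by ring
  have h2 : ∀ j, (C (b j) - X : K[X]) ≠ 0 := fun j => by
    rw [h1, neg_ne_zero]; exact X_sub_C_ne_zero _
  rw [← count_roots, roots_prod _ _ (Finset.prod_ne_zero_iff.2 fun j _ => pow_ne_zero _ (h2 j)),
    Multiset.count_bind, Multiset.map_congr rfl (g := fun j => if j = i then e i else 0)]
  · exact Finset.sum_ite_eq' Finset.univ i (fun _ => e i) |>.trans (by simp)
  · intro j _
    rw [roots_pow, h1, roots_neg, roots_X_sub_C, Multiset.count_nsmul, Multiset.count_singleton]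
    by_cases hji : j = i
    · subst hji; simp
    · have : b i ≠ b j := fun h => hji (hb h).symm
      simp [hji, this]

end

theorem key (hW9 : ClaimW9) (q : ℕ) [Fact q.Prime] (m : ℕ) (a : Fin m → ZMod q)
    (χ : Fin m → MulChar (ZMod q) ℂ) (ha : Function.Injective a) (ha0 : ∀ j, a j ≠ 0)
    (d : ℕ) (z0 : ZMod q) (ζ : ℂ) (e : Fin m → ℕ) (hd2 : 2 ≤ d) (hdq : d ∣ q - 1)
    (hz0 : IsPrimitiveRoot z0 d) (hζ : IsPrimitiveRoot ζ d) (he1 : ∀ j, 1 ≤ e j)
    (hel : ∀ l : ℕ, l.Prime → l ∣ d → ∃ j, ¬ l ∣ e j)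
    (hv : ∀ (v : Fin m → ZMod q) (i : ℕ), (∀ j, v j ≠ 0) →
        (∏ j, v j ^ e j) ^ ((q - 1) / d) = z0 ^ i → ∏ j, χ j (v j) = ζ ^ i)
    (K : Type) [Field K] [Fintype K] [Algebra (ZMod q) K] (n : ℕ)
    (hK : Fintype.card K = (q ^ n) ^ 2)
    (hn : ((∑ j, e j) + 2) * (d * (∑ j, e j) + 2) ≤ q ^ n) :
    ‖∑ x : K, ∏ j, χ j (Algebra.norm (ZMod q) (algebraMap (ZMod q) K (a j) - x))‖ ≤
      ((d : ℝ) * (2 * (∑ j, e j : ℕ) + 3) + (∑ j, e j : ℕ)) * (q : ℝ) ^ n := by
  classical
  have hq : 1 < q := (Fact.out : q.Prime).one_lt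
  have hqn : 1 ≤ q ^ n := Nat.one_le_pow _ _ (by omega)
  have hchar : CharP K q := charP_of_injective_algebraMap (algebraMap (ZMod q) K).injective q
  obtain ⟨G, hG⟩ := hdq
  have hdR : d ∣ q ^ n - 1 := by
    have h1 : q - 1 ∣ q ^ n - 1 := by simpa using Nat.sub_dvd_pow_sub_pow q 1 n
    exact (Dvd.intro _ hG.symm).trans h1
  obtain ⟨E, hE⟩ := hdR
  have hRE : q ^ n = d * E + 1 := by omega
  set R := q ^ n with hR
  set D := ∑ j, e j with hD
  set bb : Fin m → K := fun j => algebraMap (ZMod q) K (a j) with hbb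
  have hbinj : Function.Injective bb := (algebraMap (ZMod q) K).injective.comp ha
  set f : K[X] := ∏ j, (C (bb j) - X) ^ e j with hf
  have hfmap : f = (∏ j, (C (a j) - X) ^ e j : (ZMod q)[X]).map (algebraMap (ZMod q) K) := by
    rw [Polynomial.map_prod, hf]
    refine Finset.prod_congr rfl fun j _ => ?_
    simp [hbb]
  have hfev : ∀ x, f.eval x = ∏ j, (bb j - x) ^ e j := by
    intro x
    rw [hf, eval_prod]
    refine Finset.prod_congr rfl fun j _ => ?_
    simp
  have hfD : f.natDegree = D := f_natDegree bb e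
  have hfne : f ≠ 0 := by
    intro h
    have h1 : f.eval 0 = 0 := by rw [h]; simp
    rw [hfev, Finset.prod_eq_zero_iff] at h1
    obtain ⟨j, -, hj⟩ := h1
    have h2 := eq_zero_of_pow_eq_zero hj
    rw [sub_zero] at h2
    exact ha0 j ((map_eq_zero _).1 h2)
  have hf0 : f.eval 0 ≠ 0 := by
    intro h1
    rw [hfev, Finset.prod_eq_zero_iff] at h1
    obtain ⟨j, -, hj⟩ := h1
    have h2 := eq_zero_of_pow_eq_zero hj
    rw [sub_zero] at h2
    exact ha0 j ((map_eq_zero _).1 h2)
  have hfR : f ^ R = f.comp (X ^ R) := by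
    rw [← expand_eq_comp_X_pow, hfmap, ← Polynomial.map_pow, hR, expand_pow, map_expand]
  set z : K := algebraMap (ZMod q) K z0 with hz
  have hzp : IsPrimitiveRoot z d := hz0.map_of_injective (algebraMap (ZMod q) K).injective
  have hroot : ∀ l : ℕ, l.Prime → l ∣ d → ∃ x : K, ¬ l ∣ f.rootMultiplicity x := by
    intro l hl hld
    obtain ⟨j, hj⟩ := hel l hl hld
    exact ⟨bb j, by rw [hf, f_roots bb e hbinj j]; exact hj⟩
  have hW : ∀ c : K, d * Nat.card {x : K // f.eval x ≠ 0 ∧ f.eval x ^ (E * (R + 1)) = c} ≤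
      R ^ 2 + d * (2 * D + 3) * R := by
    intro c
    have := hW9 K q n d E R f z c Fact.out hR hK hd2 hRE hzp hf0 hfR hroot (by rw [hfD]; exact hn)
    rw [hfD] at this
    exact this
  -- the value of the summand
  set F : K → ℂ := fun x => ∏ j, χ j (Algebra.norm (ZMod q) (bb j - x)) with hF
  have hval0 : ∀ x, f.eval x = 0 → F x = 0 := by
    intro x hx
    rw [hfev, Finset.prod_eq_zero_iff] at hx
    obtain ⟨j, -, hj⟩ := hx
    have h2 := eq_zero_of_pow_eq_zero hj
    refine Finset.prod_eq_zero (Finset.mem_univ j) ?_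
    rw [h2, Algebra.norm_zero]
    exact MulChar.map_nonunit _ not_isUnit_zero
  have hexp : (R ^ 2 - 1) / (q - 1) * G = E * (R + 1) := by
    have h1 : q - 1 ∣ R ^ 2 - 1 := by
      rw [hR, ← pow_mul]; simpa using Nat.sub_dvd_pow_sub_pow q 1 (n * 2)
    have h2 : (R ^ 2 - 1) / (q - 1) * (q - 1) = R ^ 2 - 1 := Nat.div_mul_cancel h1
    have h3 : R ^ 2 - 1 = d * (E * (R + 1)) := by
      have : R ^ 2 = d * (E * (R + 1)) + 1 := by
        have h4 : d * (E * (R + 1)) = (d * E) * (R + 1) := by ring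
        rw [h4]
        have h5 : d * E = R - 1 := by omega
        obtain ⟨R', hR'⟩ := Nat.exists_eq_add_of_le' hqn
        rw [h5, hR', Nat.add_sub_cancel]; ring
      omega
    have h6 : d * ((R ^ 2 - 1) / (q - 1) * G) = d * (E * (R + 1)) := by
      calc d * ((R ^ 2 - 1) / (q - 1) * G) = (R ^ 2 - 1) / (q - 1) * (d * G) := by ring
        _ = d * (E * (R + 1)) := by rw [← hG, h2, h3]
    exact Nat.eq_of_mul_eq_mul_left (by omega) h6
  have hval : ∀ x i, f.eval x ≠ 0 → f.eval x ^ (E * (R + 1)) = z ^ i → F x = ζ ^ i := by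
    intro x i hx hxi
    have hne : ∀ j, bb j - x ≠ 0 := by
      intro j hj
      apply hx
      rw [hfev]
      refine Finset.prod_eq_zero (Finset.mem_univ j) ?_
      rw [hj, zero_pow]
      have := he1 j
      omega
    refine hv _ i (fun j => ?_) ?_
    · rw [Ne, Algebra.norm_eq_zero_iff]; exact hne j
    · apply (algebraMap (ZMod q) K).injective
      have hGd : (q - 1) / d = G := by rw [hG]; exact Nat.mul_div_cancel_left _ (by omega)
      have hprod : algebraMap (ZMod q) K (∏ j, Algebra.norm (ZMod q) (bb j - x) ^ e j) =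
          (∏ j, (bb j - x) ^ e j) ^ ((R ^ 2 - 1) / (q - 1)) := by
        rw [map_prod, ← Finset.prod_pow]
        refine Finset.prod_congr rfl fun j _ => ?_
        rw [map_pow, FiniteField.algebraMap_norm_eq_pow, Nat.card_eq_fintype_card, hK,
          Nat.card_zmod, ← pow_mul ((bb j - x)) _ (e j), mul_comm, pow_mul]
      rw [hGd, map_pow, hprod, map_pow, ← hz, ← hxi, hfev, ← hexp, pow_mul]
  have hidx : ∀ x, f.eval x ≠ 0 → ∃ i < d, z ^ i = f.eval x ^ (E * (R + 1)) := by
    intro x hx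
    have : NeZero d := ⟨by omega⟩
    refine hzp.eq_pow_of_pow_eq_one ?_
    have h1 : E * (R + 1) * d = Fintype.card K - 1 := by
      rw [hK]
      have h4 : E * (R + 1) * d = (d * E) * (R + 1) := by ring
      have h5 : d * E = R - 1 := by omega
      obtain ⟨R', hR'⟩ := Nat.exists_eq_add_of_le' hqn
      rw [h4, h5, hR', Nat.add_sub_cancel]
      have : (R' + 1) ^ 2 = R' * (R' + 1 + 1) + 1 := by ring
      omega
    rw [← pow_mul, h1, FiniteField.pow_card_sub_one_eq_one _ hx]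
  -- the sum
  set N : ℕ → ℕ := fun i =>
    (Finset.univ.filter fun x : K => f.eval x ≠ 0 ∧ f.eval x ^ (E * (R + 1)) = z ^ i).card with hN
  have hcardN : ∀ i, d * N i ≤ R ^ 2 + d * (2 * D + 3) * R := by
    intro i
    have := hW (z ^ i)
    rwa [Nat.card_eq_fintype_card, Fintype.card_subtype] at this
  have hsplit : ∀ (G' : ℕ → ℂ) (x : K), f.eval x ≠ 0 → ∃ i < d,
      (z ^ i = f.eval x ^ (E * (R + 1))) ∧
      (∑ i ∈ range d, if f.eval x ≠ 0 ∧ f.eval x ^ (E * (R + 1)) = z ^ i then G' i else 0) =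
        G' i := by
    intro G' x hx
    obtain ⟨i, hi, hzi⟩ := hidx x hx
    refine ⟨i, hi, hzi, ?_⟩
    rw [Finset.sum_eq_single i]
    · rw [if_pos ⟨hx, hzi.symm⟩]
    · intro k hk hki
      rw [if_neg]
      rintro ⟨-, h2⟩
      rw [← hzi] at h2
      exact hki (hzp.pow_inj (Finset.mem_range.1 hk) hi h2.symm)
    · intro h; exact absurd (Finset.mem_range.2 hi) h
  have hsum : ∑ x, F x = ∑ i ∈ range d, (N i : ℂ) * ζ ^ i := by
    have h1 : ∀ x, F x = ∑ i ∈ range d,
        if f.eval x ≠ 0 ∧ f.eval x ^ (E * (R + 1)) = z ^ i then ζ ^ i else 0 := by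
      intro x
      by_cases hx : f.eval x = 0
      · rw [hval0 x hx]; simp [hx]
      · obtain ⟨i, hi, hzi, hs⟩ := hsplit (fun i => ζ ^ i) x hx
        rw [hs, hval x i hx hzi.symm]
    rw [Finset.sum_congr rfl fun x _ => h1 x, Finset.sum_comm]
    refine Finset.sum_congr rfl fun i _ => ?_
    rw [← Finset.sum_filter, Finset.sum_const, nsmul_eq_mul]
  have hsumN : (R : ℝ) ^ 2 - D ≤ ∑ i ∈ range d, (N i : ℝ) := by
    have h1 : ∑ i ∈ range d, N i = (Finset.univ.filter fun x : K => f.eval x ≠ 0).card := by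
      rw [Finset.card_eq_sum_card_fiberwise (f := fun x : K => f.eval x ^ (E * (R + 1)))
        (t := (range d).image fun i => z ^ i)]
      · rw [Finset.sum_image]
        · refine Finset.sum_congr rfl fun i _ => ?_
          rw [hN, Finset.filter_filter]
        · intro i hi j hj hij
          exact hzp.pow_inj (Finset.mem_range.1 hi) (Finset.mem_range.1 hj) hij
      · intro x hx
        obtain ⟨i, hi, hzi⟩ := hidx x (Finset.mem_filter.1 hx).2
        exact Finset.mem_coe.2 (Finset.mem_image.2 ⟨i, Finset.mem_range.2 hi, hzi⟩)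
    have h2 : (Finset.univ.filter fun x : K => f.eval x = 0).card ≤ D := by
      rw [← hfD]
      refine le_trans ?_ (card_roots' f)
      have h3 : (Finset.univ.filter fun x : K => f.eval x = 0) ⊆ f.roots.toFinset := by
        intro x hx
        rw [Multiset.mem_toFinset, mem_roots hfne]
        exact (Finset.mem_filter.1 hx).2
      exact (Finset.card_le_card h3).trans (Multiset.toFinset_card_le _)
    have h3 := Finset.card_filter_add_card_filter_not (s := (Finset.univ : Finset K))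
      (fun x => f.eval x = 0)
    rw [Finset.card_univ, hK] at h3
    have h4 : R ^ 2 ≤ (∑ i ∈ range d, N i) + D := by
      rw [h1]
      have h5 : (Finset.univ.filter fun x : K => ¬ f.eval x = 0) =
        (Finset.univ.filter fun x : K => f.eval x ≠ 0) := rfl
      rw [h5] at h3
      omega
    have h5 : ((R ^ 2 : ℕ) : ℝ) ≤ (((∑ i ∈ range d, N i) + D : ℕ) : ℝ) := by exact_mod_cast h4
    push_cast at h5
    linarith
  have hζ0 : ∑ i ∈ range d, ζ ^ i = 0 := hζ.geom_sum_eq_zero (by omega)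
  have hζn : ‖ζ‖ = 1 := hζ.norm'_eq_one (by omega)
  set B : ℝ := ((R : ℝ) ^ 2 + d * (2 * D + 3) * R) / d with hB
  have hd0 : (0 : ℝ) < d := by exact_mod_cast (by omega : 0 < d)
  have hNB : ∀ i, (N i : ℝ) ≤ B := by
    intro i
    rw [hB, le_div_iff₀ hd0]
    have h1 : ((d * N i : ℕ) : ℝ) ≤ ((R ^ 2 + d * (2 * D + 3) * R : ℕ) : ℝ) := by
      exact_mod_cast hcardN i
    push_cast at h1
    linarith
  have hfin : ∑ x, F x = -∑ i ∈ range d, ((B - N i : ℝ) : ℂ) * ζ ^ i := by
    rw [hsum]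
    have h1 : ∀ i ∈ range d, ((B - N i : ℝ) : ℂ) * ζ ^ i = (B : ℂ) * ζ ^ i - (N i : ℂ) * ζ ^ i := by
      intro i _
      push_cast
      ring
    rw [Finset.sum_congr rfl h1, Finset.sum_sub_distrib, ← Finset.mul_sum, hζ0]
    ring
  rw [show (∑ x : K, ∏ j, χ j (Algebra.norm (ZMod q) (algebraMap (ZMod q) K (a j) - x))) =
    ∑ x, F x from rfl, hfin, norm_neg]
  calc ‖∑ i ∈ range d, ((B - N i : ℝ) : ℂ) * ζ ^ i‖
      ≤ ∑ i ∈ range d, ‖((B - N i : ℝ) : ℂ) * ζ ^ i‖ := norm_sum_le _ _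
    _ = ∑ i ∈ range d, (B - N i) := by
        refine Finset.sum_congr rfl fun i _ => ?_
        rw [norm_mul, norm_pow, hζn, one_pow, mul_one, Complex.norm_real, Real.norm_eq_abs,
          abs_of_nonneg (sub_nonneg.2 (hNB i))]
    _ = d * B - ∑ i ∈ range d, (N i : ℝ) := by
        rw [Finset.sum_sub_distrib, Finset.sum_const, Finset.card_range, nsmul_eq_mul]
    _ ≤ d * B - (R ^ 2 - D) := by linarith
    _ = d * (2 * D + 3) * R + D := by
        rw [hB, mul_div_cancel₀ _ hd0.ne']; ring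
    _ ≤ ((d : ℝ) * (2 * (D : ℕ) + 3) + (D : ℕ)) * (q : ℝ) ^ n := by
        have h1 : ((R : ℕ) : ℝ) = (q : ℝ) ^ n := by rw [hR]; push_cast; rfl
        have h2 : (1 : ℝ) ≤ R := by exact_mod_cast hqn
        rw [← h1]
        have h3 : (0 : ℝ) ≤ D := Nat.cast_nonneg _
        nlinarith

end ItemW10

theorem claimW10 (hW9 : ClaimW9) : ClaimW10 := by
  intro q _ m a χ hm ha ha0 hχ
  obtain ⟨d, z0, ζ, e, hd2, hdq, hz0, hζ, he1, hel, hv⟩ := ItemW10.exists_gen q m χ hm hχ
  refine ⟨(d : ℝ) * (2 * (∑ j, e j : ℕ) + 3) + (∑ j, e j : ℕ),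
    ((∑ j, e j) + 2) * (d * (∑ j, e j) + 2), fun n hn => ?_⟩
  have hq : 1 < q := (Fact.out : q.Prime).one_lt
  have h1 : ((∑ j, e j) + 2) * (d * (∑ j, e j) + 2) ≤ q ^ n := hn.trans (Nat.lt_pow_self hq).le
  have hn0 : 2 * n ≠ 0 := by
    have : 0 < ((∑ j, e j) + 2) * (d * (∑ j, e j) + 2) := by positivity
    omega
  unfold SS
  let _ : Fintype (GaloisField q (2 * n)) := Fintype.ofFinite _
  refine ItemW10.key hW9 q m a χ ha ha0 d z0 ζ e hd2 hdq hz0 hζ he1 hel hv _ n ?_ h1
  rw [← Nat.card_eq_fintype_card, GaloisField.card q _ hn0]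
  ring

end Pool.Agent.Work.MP_e0aece_nt.Sq

end

section

/-!
# W2: counting prime power divisors by points of finite fields
-/

namespace Pool.Agent.Work.MP_e0aece_nt.Sq

open Finset Polynomial UniqueFactorizationMonoid

namespace ItemW2

variable {q : ℕ} [Fact q.Prime]

/-- The number of elements of the field with `q ^ k` elements with given minimal polynomial. -/
theorem card_minpoly [DecidableEq ((ZMod q)[X])] {k : ℕ} (hk : k ≠ 0)
    [Fintype (GaloisField q k)] {P : (ZMod q)[X]} (hP : Irreducible P) (hm : P.Monic) :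
    (Finset.univ.filter fun x : GaloisField q k => minpoly (ZMod q) x = P).card =
      if P.natDegree ∣ k then P.natDegree else 0 := by
  classical
  by_cases hd : P.natDegree ∣ k
  · rw [if_pos hd]
    have h1 : P ∣ X ^ q ^ k - X := by
      have := (hP.natDegree_dvd_iff_dvd_X_pow_card_pow_sub_X (n := k)).1 hd
      rwa [Nat.card_eq_fintype_card, ZMod.card] at this
    have hsep : P.Separable := by
      refine Polynomial.Separable.of_dvd ?_ h1
      exact galois_poly_separable q (q ^ k) (dvd_pow_self q hk)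
    have hne : (X ^ q ^ k - X : (ZMod q)[X]) ≠ 0 :=
      FiniteField.X_pow_card_pow_sub_X_ne_zero _ hk (Fact.out : q.Prime).one_lt
    have hsf : IsSplittingField (ZMod q) (GaloisField q k) (X ^ q ^ k - X) :=
      FiniteField.isSplittingField_of_nat_card_eq q k (GaloisField.card q k hk)
    have hsplit : (P.map (algebraMap (ZMod q) (GaloisField q k))).Splits := by
      refine Polynomial.Splits.of_dvd (IsSplittingField.splits (GaloisField q k)
        (X ^ q ^ k - X : (ZMod q)[X])) ?_ ?_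
      · exact (Polynomial.map_ne_zero_iff (algebraMap (ZMod q) (GaloisField q k)).injective).2 hne
      · exact Polynomial.map_dvd _ h1
    rw [← Polynomial.card_rootSet_eq_natDegree hsep hsplit, ← Set.toFinset_card]
    congr 1
    ext x
    simp only [Finset.mem_filter, Finset.mem_univ, true_and, Set.mem_toFinset,
      Polynomial.mem_rootSet]
    constructor
    · rintro rfl
      exact ⟨hP.ne_zero, minpoly.aeval _ _⟩
    · rintro ⟨_, h2⟩
      exact (minpoly.eq_of_irreducible_of_monic hP h2 hm).symm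
  · rw [if_neg hd, Finset.card_eq_zero, Finset.filter_eq_empty_iff]
    rintro x _ rfl
    apply hd
    have h2 := minpoly.degree_dvd (K := ZMod q) (x := x) (Algebra.IsIntegral.isIntegral x)
    rwa [GaloisField.finrank q hk] at h2

theorem pow_dvd_iff [DecidableEq ((ZMod q)[X])] {P g : (ZMod q)[X]} (hP : Irreducible P)
    (hm : P.Monic) (hg : g ≠ 0) (j : ℕ) : P ^ j ∣ g ↔ j ≤ (normalizedFactors g).count P := by
  have h := emultiplicity_eq_count_normalizedFactors hP hg
  rw [hm.normalize_eq_self] at h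
  rw [pow_dvd_iff_le_emultiplicity, h, Nat.cast_le]

end ItemW2

open ItemW2 in
theorem claimW2 : ClaimW2 := by
  classical
  intro q _ n g hg hn
  have hg0 : g ≠ 0 := hg.ne_zero
  set PP := (normalizedFactors g).toFinset with hPP
  have hmem : ∀ P, P ∈ PP ↔ Irreducible P ∧ P.Monic ∧ P ∣ g := by
    intro P
    rw [hPP, Multiset.mem_toFinset]
    exact Polynomial.mem_normalizedFactors_iff hg0
  -- the sum over `k`
  have h1 : ∀ k ∈ Icc 1 n, Nat.card {x : GaloisField q k // gx k x ∣ g} =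
      ∑ P ∈ PP, if P ^ (k / P.natDegree) ∣ g ∧ P.natDegree ∣ k then P.natDegree else 0 := by
    intro k hk
    have hk1 : 1 ≤ k := (Finset.mem_Icc.1 hk).1
    have hk0 : k ≠ 0 := by omega
    have : Fintype (GaloisField q k) := Fintype.ofFinite _
    rw [Nat.card_eq_fintype_card, Fintype.card_subtype]
    have hmaps : ∀ x ∈ (Finset.univ.filter fun x : GaloisField q k => gx k x ∣ g),
        minpoly (ZMod q) x ∈ PP := by
      intro x hx
      have hx' : gx k x ∣ g := (Finset.mem_filter.1 hx).2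
      have hint : IsIntegral (ZMod q) x := Algebra.IsIntegral.isIntegral x
      rw [hmem]
      refine ⟨minpoly.irreducible hint, minpoly.monic hint, ?_⟩
      refine dvd_trans ?_ hx'
      have h2 := minpoly.degree_dvd hint
      rw [GaloisField.finrank q hk0] at h2
      have h3 : 1 ≤ k / (minpoly (ZMod q) x).natDegree :=
        Nat.div_pos (Nat.le_of_dvd hk1 h2) (minpoly.natDegree_pos hint)
      exact dvd_pow_self _ (by omega)
    rw [Finset.card_eq_sum_card_fiberwise hmaps]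
    refine Finset.sum_congr rfl fun P hP => ?_
    obtain ⟨hirr, hmon, _⟩ := (hmem P).1 hP
    rw [Finset.filter_filter]
    by_cases h4 : P ^ (k / P.natDegree) ∣ g
    · have h5 : (Finset.univ.filter fun x : GaloisField q k =>
          gx k x ∣ g ∧ minpoly (ZMod q) x = P) =
          Finset.univ.filter fun x : GaloisField q k => minpoly (ZMod q) x = P := by
        ext x
        simp only [Finset.mem_filter, Finset.mem_univ, true_and]
        constructor
        · exact fun h => h.2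
        · rintro rfl
          exact ⟨h4, rfl⟩
      rw [h5, card_minpoly hk0 hirr hmon]
      simp only [h4, true_and]
    · have h5 : (Finset.univ.filter fun x : GaloisField q k =>
          gx k x ∣ g ∧ minpoly (ZMod q) x = P) = ∅ := by
        rw [Finset.filter_eq_empty_iff]
        rintro x _ ⟨h6, rfl⟩
        exact h4 h6
      rw [h5]
      simp [h4]
  rw [Finset.sum_congr rfl h1, Finset.sum_comm]
  -- one prime
  have h2 : ∀ P ∈ PP, (∑ k ∈ Icc 1 n,
      if P ^ (k / P.natDegree) ∣ g ∧ P.natDegree ∣ k then P.natDegree else 0) =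
      (normalizedFactors g).count P * P.natDegree := by
    intro P hP
    obtain ⟨hirr, hmon, _⟩ := (hmem P).1 hP
    have hd : 0 < P.natDegree := hirr.natDegree_pos
    rw [← Finset.sum_filter, Finset.sum_const, smul_eq_mul]
    congr 1
    have h3 : (Icc 1 n).filter (fun k => P ^ (k / P.natDegree) ∣ g ∧ P.natDegree ∣ k) =
        (Icc 1 ((normalizedFactors g).count P)).image fun j => j * P.natDegree := by
      ext k
      simp only [Finset.mem_filter, Finset.mem_Icc, Finset.mem_image]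
      constructor
      · rintro ⟨⟨hk1, hkn⟩, hk2, j, rfl⟩
        rw [Nat.mul_div_cancel_left _ hd, pow_dvd_iff hirr hmon hg0] at hk2
        refine ⟨j, ⟨?_, hk2⟩, mul_comm _ _⟩
        rcases Nat.eq_zero_or_pos j with rfl | h
        · omega
        · exact h
      · rintro ⟨j, ⟨hj1, hj2⟩, rfl⟩
        have h4 : P ^ j ∣ g := (pow_dvd_iff hirr hmon hg0 j).2 hj2
        refine ⟨⟨Nat.mul_pos hj1 hd, ?_⟩, ?_, Dvd.intro_left j rfl⟩
        · have h5 := Polynomial.natDegree_le_of_dvd h4 hg0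
          rw [Polynomial.natDegree_pow, hn] at h5
          exact h5
        · rwa [Nat.mul_div_cancel _ hd]
    rw [h3, Finset.card_image_of_injective, Nat.card_Icc]
    · omega
    · intro a b hab
      exact Nat.eq_of_mul_eq_mul_right hd hab
  rw [Finset.sum_congr rfl h2]
  -- the degree
  have h3 : (normalizedFactors g).prod = g := by
    rw [prod_normalizedFactors_eq hg0, hg.normalize_eq_self]
  have h4 : (0 : (ZMod q)[X]) ∉ normalizedFactors g := zero_notMem_normalizedFactors g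
  have h5 := Polynomial.natDegree_multiset_prod _ h4
  rw [h3, hn, Finset.sum_multiset_map_count] at h5
  rw [h5]
  refine Finset.sum_congr rfl fun P _ => ?_
  rw [smul_eq_mul]

end Pool.Agent.Work.MP_e0aece_nt.Sq

end

section

/-!
# Item W3: norms of linear shifts in finite fields
-/

namespace Pool.Agent.Work.MP_e0aece_nt.Sq

open Finset Polynomial

namespace ItemW3

open IntermediateField Module

/-- Norm of `a - gen` in a power basis algebra. -/
theorem norm_sub_gen {R S : Type*} [CommRing R] [IsDomain R] [CommRing S] [Algebra R S]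
    (pb : PowerBasis R S) (a : R) :
    Algebra.norm R (algebraMap R S a - pb.gen) = (minpoly R pb.gen).eval a := by
  classical
  rw [Algebra.norm_eq_matrix_det pb.basis, ← charpoly_leftMulMatrix, Matrix.eval_charpoly,
    map_sub, AlgHom.commutes]
  rfl

theorem norm_sub {F K : Type*} [Field F] [Field K] [Algebra F K] [FiniteDimensional F K]
    (x : K) (a : F) :
    Algebra.norm F (algebraMap F K a - x) =
      (minpoly F x).eval a ^ (finrank F⟮x⟯ K) := by
  have hx : IsIntegral F x := IsIntegral.of_finite F x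
  have h1 : algebraMap F K a - x =
      algebraMap F⟮x⟯ K (algebraMap F F⟮x⟯ a - AdjoinSimple.gen F x) := by
    rw [map_sub, AdjoinSimple.algebraMap_gen, ← IsScalarTower.algebraMap_apply]
  rw [h1, ← Algebra.norm_norm (S := F⟮x⟯),
    Algebra.norm_algebraMap_of_basis (Module.Free.chooseBasis F⟮x⟯ K), map_pow,
    finrank_eq_card_chooseBasisIndex]
  congr 1
  have h2 := norm_sub_gen (adjoin.powerBasis hx) a
  rw [adjoin.powerBasis_gen hx] at h2
  rw [h2, minpoly_gen]

theorem finrank_adj {F K : Type*} [Field F] [Field K] [Algebra F K] [FiniteDimensional F K]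
    (x : K) : (minpoly F x).natDegree * finrank F⟮x⟯ K = finrank F K := by
  have hx : IsIntegral F x := IsIntegral.of_finite F x
  rw [← adjoin.finrank hx]
  exact Module.finrank_mul_finrank F F⟮x⟯ K

end ItemW3

theorem claimW3 : ClaimW3 := by
  intro q _ n hn x
  have hfin : FiniteDimensional (ZMod q) (GaloisField q n) := inferInstance
  have hx : IsIntegral (ZMod q) x := IsIntegral.of_finite _ x
  have hd := ItemW3.finrank_adj (F := ZMod q) x
  rw [GaloisField.finrank q (by omega)] at hd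
  have hpos : 0 < (minpoly (ZMod q) x).natDegree := minpoly.natDegree_pos hx
  have hdiv : n / (minpoly (ZMod q) x).natDegree
      = Module.finrank (IntermediateField.adjoin (ZMod q) {x}) (GaloisField q n) :=
    Nat.div_eq_of_eq_mul_right hpos hd.symm
  refine ⟨(minpoly.monic hx).pow _, ?_, ?_⟩
  · unfold gx
    rw [natDegree_pow, hdiv, mul_comm]
    exact hd
  · intro a
    unfold gx
    rw [eval_pow, hdiv]
    exact ItemW3.norm_sub x a

end Pool.Agent.Work.MP_e0aece_nt.Sq

end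

section

/-!
# W4: the Newton type identities
-/

set_option autoImplicit false

namespace Pool.Agent.Work.MP_e0aece_nt.Sq

open Finset Polynomial

namespace ItemW4

variable {q : ℕ} [Fact q.Prime]

theorem mon_monic {n : ℕ} (c : Fin n → ZMod q) : (mon c).Monic :=
  monic_X_pow_add (degree_sum_fin_lt c)

theorem mon_natDegree {n : ℕ} (c : Fin n → ZMod q) : (mon c).natDegree = n := by
  refine natDegree_eq_of_degree_eq_some ?_
  unfold mon
  rw [degree_add_eq_left_of_degree_lt, degree_X_pow]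
  rw [degree_X_pow]
  exact degree_sum_fin_lt c

/-- Every monic polynomial is given by its coefficients. -/
theorem mon_coeff {n : ℕ} (g : (ZMod q)[X]) (hg : g.Monic) (hn : g.natDegree = n) :
    mon (fun i : Fin n => g.coeff i) = g := by
  subst hn
  unfold mon
  rw [Fin.sum_univ_eq_sum_range (fun i => C (g.coeff i) * X ^ i) g.natDegree]
  exact hg.as_sum.symm

theorem coeff_mon {n : ℕ} (c : Fin n → ZMod q) (i : Fin n) : (mon c).coeff i = c i := by
  unfold mon
  rw [coeff_add, coeff_X_pow, if_neg (ne_of_lt i.2), zero_add, finsetSum_coeff]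
  rw [Finset.sum_eq_single i]
  · rw [coeff_C_mul, coeff_X_pow, if_pos rfl, mul_one]
  · intro b _ hb
    rw [coeff_C_mul, coeff_X_pow, if_neg (fun h => hb (Fin.ext h.symm)), mul_zero]
  · intro h
    exact absurd (Finset.mem_univ i) h

theorem mon_inj {n : ℕ} {c c' : Fin n → ZMod q} (h : mon c = mon c') : c = c' := by
  funext i
  rw [← coeff_mon c i, ← coeff_mon c' i, h]

theorem Psi_mul {m : ℕ} (a : Fin m → ZMod q) (χ : Fin m → MulChar (ZMod q) ℂ)
    (g h : (ZMod q)[X]) : Psi a χ (g * h) = Psi a χ g * Psi a χ h := by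
  unfold Psi
  rw [← Finset.prod_mul_distrib]
  refine Finset.prod_congr rfl fun j _ => ?_
  rw [eval_mul, map_mul]

open Classical in
theorem key {m : ℕ} (a : Fin m → ZMod q) (χ : Fin m → MulChar (ZMod q) ℂ) {k n : ℕ} (hk : k ≤ n)
    (G : (ZMod q)[X]) (hG : G.Monic) (hGd : G.natDegree = k) :
    ∑ c : Fin n → ZMod q, (if G ∣ mon c then Psi a χ (mon c) else 0) =
      Psi a χ G * cc a χ (n - k) := by
  have hdeg : ∀ h : Fin (n - k) → ZMod q, (G * mon h).Monic ∧ (G * mon h).natDegree = n := by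
    intro h
    refine ⟨hG.mul (mon_monic h), ?_⟩
    rw [hG.natDegree_mul (mon_monic h), hGd, mon_natDegree]
    omega
  rw [← Finset.sum_filter]
  unfold cc
  rw [Finset.mul_sum]
  symm
  refine Finset.sum_bij (fun h _ => fun t : Fin n => (G * mon h).coeff t) ?_ ?_ ?_ ?_
  · intro h _
    rw [Finset.mem_filter]
    refine ⟨Finset.mem_univ _, ?_⟩
    rw [mon_coeff _ (hdeg h).1 (hdeg h).2]
    exact dvd_mul_right _ _
  · intro h _ h' _ heq
    have h1 : G * mon h = G * mon h' := by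
      rw [← mon_coeff _ (hdeg h).1 (hdeg h).2, ← mon_coeff _ (hdeg h').1 (hdeg h').2]
      exact congrArg mon heq
    exact mon_inj (mul_left_cancel₀ hG.ne_zero h1)
  · intro c hc
    rw [Finset.mem_filter] at hc
    obtain ⟨H, hH⟩ := hc.2
    have hHm : H.Monic := hG.of_mul_monic_left (by rw [← hH]; exact mon_monic c)
    have hHd : H.natDegree = n - k := by
      have h1 : (mon c).natDegree = n := mon_natDegree c
      rw [hH, hG.natDegree_mul hHm, hGd] at h1
      omega
    refine ⟨fun t => H.coeff t, Finset.mem_univ _, ?_⟩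
    funext t
    rw [mon_coeff _ hHm hHd, ← hH, coeff_mon]
  · intro h _
    rw [mon_coeff _ (hdeg h).1 (hdeg h).2, Psi_mul]

open Classical in
theorem card_eq {k : ℕ} (g : (ZMod q)[X]) [Fintype (GaloisField q k)] :
    ((Nat.card {x : GaloisField q k // gx k x ∣ g} : ℕ) : ℂ) =
      ∑ x : GaloisField q k, if gx k x ∣ g then (1 : ℂ) else 0 := by
  rw [Nat.card_eq_fintype_card, Fintype.card_subtype, Finset.card_filter]
  push_cast
  rfl

end ItemW4

open ItemW4 in
open Classical in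
theorem claimW4 (hW2 : ClaimW2) (hW3 : ClaimW3) : ClaimW4 := by
  intro q _ m a χ n
  have hS : ∀ k ∈ Icc 1 n, SS a χ k * cc a χ (n - k) =
      ∑ c : Fin n → ZMod q,
        ((Nat.card {x : GaloisField q k // gx k x ∣ mon c} : ℕ) : ℂ) * Psi a χ (mon c) := by
    intro k hk
    obtain ⟨hk1, hkn⟩ := Finset.mem_Icc.1 hk
    let _ : Fintype (GaloisField q k) := Fintype.ofFinite _
    have h1 : SS a χ k = ∑ x : GaloisField q k, Psi a χ (gx k x) := by
      unfold SS Psi
      refine Finset.sum_congr rfl fun x _ => Finset.prod_congr rfl fun j _ => ?_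
      rw [(hW3 q k hk1 x).2.2]
    rw [h1, Finset.sum_mul]
    have h2 : ∀ c : Fin n → ZMod q,
        ((Nat.card {x : GaloisField q k // gx k x ∣ mon c} : ℕ) : ℂ) * Psi a χ (mon c) =
        ∑ x : GaloisField q k, if gx k x ∣ mon c then Psi a χ (mon c) else 0 := by
      intro c
      rw [card_eq, Finset.sum_mul]
      refine Finset.sum_congr rfl fun x _ => ?_
      split_ifs <;> simp
    simp only [h2]
    rw [Finset.sum_comm]
    refine Finset.sum_congr rfl fun x _ => ?_
    exact (key a χ hkn (gx k x) (hW3 q k hk1 x).1 (hW3 q k hk1 x).2.1).symm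
  rw [Finset.sum_congr rfl hS, Finset.sum_comm]
  unfold cc
  rw [Finset.mul_sum]
  refine Finset.sum_congr rfl fun c _ => ?_
  rw [← Finset.sum_mul]
  congr 1
  have h3 := hW2 q n (mon c) (mon_monic c) (mon_natDegree c)
  rw [← Nat.cast_sum, h3]

end Pool.Agent.Work.MP_e0aece_nt.Sq

end

section

/-! W5: from the Newton type identities and a bound for the terms of even index to a bound
for the first term. -/

namespace Pool.Agent.Work.MP_e0aece_nt.Sq

open Finset Polynomial

namespace ItemW5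

/-- Separation of one value from power sums. -/
theorem sep {d : ℕ} (b : Fin d → ℂ) (j : Fin d) :
    ∃ (Q : ℂ[X]) (κ : ℂ), κ ≠ 0 ∧ ∀ n : ℕ,
      ∑ l ∈ range (Q.natDegree + 1), Q.coeff l * (∑ i, b i ^ (n + l)) = κ * b j ^ n := by
  classical
  set W : Finset ℂ := (Finset.univ.image b).erase (b j) with hW
  set Q : ℂ[X] := ∏ w ∈ W, (X - C w) with hQ
  have hQj : Q.eval (b j) ≠ 0 := by
    rw [hQ, Polynomial.eval_prod, Finset.prod_ne_zero_iff]
    intro w hw
    have : w ≠ b j := Finset.ne_of_mem_erase hw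
    simp only [eval_sub, eval_X, eval_C]
    exact sub_ne_zero.2 this.symm
  have hQi : ∀ i, b i ≠ b j → Q.eval (b i) = 0 := by
    intro i hi
    rw [hQ, Polynomial.eval_prod]
    refine Finset.prod_eq_zero (i := b i) ?_ (by simp)
    rw [hW, Finset.mem_erase]
    exact ⟨hi, Finset.mem_image_of_mem _ (Finset.mem_univ i)⟩
  refine ⟨Q, ((Finset.univ.filter (fun i => b i = b j)).card : ℂ) * Q.eval (b j), ?_, ?_⟩
  · refine mul_ne_zero ?_ hQj
    have : 0 < (Finset.univ.filter (fun i => b i = b j)).card :=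
      Finset.card_pos.2 ⟨j, by simp⟩
    exact_mod_cast this.ne'
  · intro n
    have h1 : ∀ i, ∑ l ∈ range (Q.natDegree + 1), Q.coeff l * b i ^ (n + l) =
        b i ^ n * Q.eval (b i) := by
      intro i
      rw [Polynomial.eval_eq_sum_range, Finset.mul_sum]
      refine Finset.sum_congr rfl fun l _ => ?_
      rw [pow_add]; ring
    calc ∑ l ∈ range (Q.natDegree + 1), Q.coeff l * (∑ i, b i ^ (n + l))
        = ∑ i, ∑ l ∈ range (Q.natDegree + 1), Q.coeff l * b i ^ (n + l) := by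
          rw [Finset.sum_comm]
          exact Finset.sum_congr rfl fun l _ => Finset.mul_sum _ _ _
      _ = ∑ i, b i ^ n * Q.eval (b i) := Finset.sum_congr rfl fun i _ => h1 i
      _ = ∑ i, (if b i = b j then b j ^ n * Q.eval (b j) else 0) := by
          refine Finset.sum_congr rfl fun i _ => ?_
          split_ifs with h
          · rw [h]
          · rw [hQi i h, mul_zero]
      _ = _ := by
          rw [← Finset.sum_filter, Finset.sum_const, nsmul_eq_mul]; ring

/-- A bound for power sums bounds the numbers. -/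
theorem bnd {d : ℕ} (b : Fin d → ℂ) (r C : ℝ) (n0 : ℕ) (hr : 0 < r)
    (h : ∀ n, n0 ≤ n → ‖∑ i, b i ^ n‖ ≤ C * r ^ n) (j : Fin d) : ‖b j‖ ≤ r := by
  obtain ⟨Q, κ, hκ, hQ⟩ := sep b j
  by_contra hlt
  push Not at hlt
  set M : ℝ := ∑ l ∈ range (Q.natDegree + 1), ‖Q.coeff l‖ * (C * r ^ l) with hM
  have h1 : ∀ n, n0 ≤ n → ‖κ‖ * ‖b j‖ ^ n ≤ M * r ^ n := by
    intro n hn
    rw [← norm_pow, ← norm_mul, ← hQ n, hM, Finset.sum_mul]
    refine (norm_sum_le _ _).trans (Finset.sum_le_sum fun l _ => ?_)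
    rw [norm_mul, mul_assoc]
    refine mul_le_mul_of_nonneg_left ?_ (norm_nonneg _)
    refine (h (n + l) (by omega)).trans (le_of_eq ?_)
    rw [pow_add]; ring
  have hκ' : 0 < ‖κ‖ := norm_pos_iff.2 hκ
  have hone : 1 < ‖b j‖ / r := (one_lt_div hr).2 hlt
  obtain ⟨n, hn⟩ := ((tendsto_pow_atTop_atTop_of_one_lt hone).eventually
    (Filter.eventually_gt_atTop (M / ‖κ‖))).and (Filter.eventually_ge_atTop n0) |>.exists
  obtain ⟨hn1, hn2⟩ := hn
  have h2 := h1 n hn2
  rw [div_pow, div_lt_div_iff₀ hκ' (pow_pos hr n)] at hn1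
  linarith [mul_comm ‖κ‖ (‖b j‖ ^ n)]

/-- Newton identities for the reverse of a monic polynomial. -/
theorem newton {d : ℕ} (β : Fin d → ℂ) (n : ℕ) :
    (n : ℂ) * ((-1) ^ n * MvPolynomial.aeval β (MvPolynomial.esymm (Fin d) ℂ n)) =
      ∑ k ∈ Icc 1 n, (- ∑ i, β i ^ k) *
        ((-1) ^ (n - k) * MvPolynomial.aeval β (MvPolynomial.esymm (Fin d) ℂ (n - k))) := by
  have h := congrArg (MvPolynomial.aeval β) (MvPolynomial.mul_esymm_eq_sum (Fin d) ℂ n)
  simp only [map_mul, map_natCast, map_pow, map_neg, map_one, map_sum, MvPolynomial.psum,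
    MvPolynomial.aeval_X] at h
  have h2 : ∑ a ∈ antidiagonal n with a.1 < n,
      (-1 : ℂ) ^ a.1 * (MvPolynomial.aeval β) (MvPolynomial.esymm (Fin d) ℂ a.1) *
        ∑ i, β i ^ a.2 =
      ∑ k ∈ Icc 1 n, (∑ i, β i ^ k) *
        ((-1) ^ (n - k) * MvPolynomial.aeval β (MvPolynomial.esymm (Fin d) ℂ (n - k))) := by
    refine Finset.sum_bij' (fun a _ => a.2) (fun k _ => (n - k, k)) ?_ ?_ ?_ ?_ ?_
    · rintro ⟨a, b⟩ hab
      simp only [Finset.mem_filter, Finset.HasAntidiagonal.mem_antidiagonal] at hab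
      simp only [Finset.mem_Icc]; omega
    · intro k hk
      simp only [Finset.mem_Icc] at hk
      simp only [Finset.mem_filter, Finset.HasAntidiagonal.mem_antidiagonal]; omega
    · rintro ⟨a, b⟩ hab
      simp only [Finset.mem_filter, Finset.HasAntidiagonal.mem_antidiagonal] at hab
      simp only [Prod.mk.injEq, and_true]; omega
    · intro k hk; rfl
    · rintro ⟨a, b⟩ hab
      simp only [Finset.mem_filter, Finset.HasAntidiagonal.mem_antidiagonal] at hab
      have : n - b = a := by omega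
      simp only [this]; ring
  rw [h2] at h
  simp only [neg_mul, Finset.sum_neg_distrib]
  calc (n : ℂ) * ((-1) ^ n * MvPolynomial.aeval β (MvPolynomial.esymm (Fin d) ℂ n))
      = (-1) ^ n * ((n : ℂ) * MvPolynomial.aeval β (MvPolynomial.esymm (Fin d) ℂ n)) := by ring
    _ = _ := by
        rw [h, ← mul_assoc, ← pow_add]
        have : (-1 : ℂ) ^ (n + (n + 1)) = -1 := by
          rw [← add_assoc, pow_succ, ← two_mul, pow_mul]; norm_num
        rw [this]; ring

/-- The polynomial with coefficients `c` in reverse order splits. -/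
theorem factor {d : ℕ} (c : ℕ → ℂ) (h0 : c 0 = 1) (hc : ∀ n, d < n → c n = 0) :
    ∃ β : Fin d → ℂ, ∀ n, c n = (-1) ^ n * MvPolynomial.aeval β (MvPolynomial.esymm (Fin d) ℂ n) := by
  classical
  set P : ℂ[X] := ∑ k ∈ range (d + 1), Polynomial.C (c (d - k)) * X ^ k with hP
  have hcoeff : ∀ k, k ≤ d → P.coeff k = c (d - k) := by
    intro k hk
    rw [hP, Polynomial.finsetSum_coeff]
    simp only [coeff_C_mul, coeff_X_pow, mul_ite, mul_one, mul_zero]
    rw [Finset.sum_ite_eq]
    simp [Nat.lt_succ_of_le hk]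
  have hdeg_le : P.natDegree ≤ d := by
    rw [hP]
    refine Polynomial.natDegree_sum_le_of_forall_le _ _ fun k hk => ?_
    refine (Polynomial.natDegree_C_mul_X_pow_le _ _).trans ?_
    have := Finset.mem_range.1 hk; omega
  have hdeg : P.natDegree = d := by
    refine le_antisymm hdeg_le (Polynomial.le_natDegree_of_ne_zero ?_)
    rw [hcoeff d le_rfl, Nat.sub_self, h0]; exact one_ne_zero
  have hlead : P.leadingCoeff = 1 := by
    rw [Polynomial.leadingCoeff, hdeg, hcoeff d le_rfl, Nat.sub_self, h0]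
  have hroots : Multiset.card P.roots = P.natDegree :=
    (IsAlgClosed.splits P).natDegree_eq_card_roots.symm
  obtain ⟨l, hl⟩ := Quotient.exists_rep P.roots
  have hlen : l.length = d := by
    have : Multiset.card (Quotient.mk _ l : Multiset ℂ) = d := by rw [hl, hroots, hdeg]
    simpa using this
  subst hlen
  refine ⟨fun i => l.get i, fun n => ?_⟩
  rw [MvPolynomial.aeval_esymm_eq_multiset_esymm]
  have hmap : Multiset.map (fun i => l.get i) (Finset.univ : Finset (Fin l.length)).val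
      = P.roots := by
    rw [← hl, Fin.univ_val_map, List.ofFn_get]; rfl
  rw [hmap]
  by_cases hn : n ≤ l.length
  · have h1 := Polynomial.coeff_eq_esymm_roots_of_card hroots (k := l.length - n)
      (by rw [hdeg]; omega)
    rw [hlead, one_mul, hdeg, hcoeff _ (by omega), Nat.sub_sub_self hn] at h1
    exact h1
  · push Not at hn
    rw [hc n hn, Multiset.esymm, Multiset.powersetCard_eq_empty _ (by rw [hroots, hdeg]; exact hn)]
    simp

end ItemW5

open ItemW5 in
theorem claimW5 : ClaimW5 := by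
  intro m c S R C n0 hm hR h0 hc hrec hS
  obtain ⟨d, rfl⟩ : ∃ d, m = d + 1 := ⟨m - 1, by omega⟩
  obtain ⟨β, hβ⟩ := factor (d := d) c h0 (fun n hn => hc n (by omega))
  have hSn : ∀ n, 1 ≤ n → S n = - ∑ i, β i ^ n := by
    intro n
    induction n using Nat.strong_induction_on with
    | _ n ih =>
      intro hn
      have h1 := hrec n
      have h2 := newton β n
      simp only [← hβ] at h2
      rw [h1] at h2
      have hIcc : Icc 1 n = insert n (Icc 1 (n - 1)) := by
        ext k; simp only [Finset.mem_Icc, Finset.mem_insert]; omega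
      have hnot : n ∉ Icc 1 (n - 1) := by simp only [Finset.mem_Icc]; omega
      rw [hIcc, Finset.sum_insert hnot, Finset.sum_insert hnot, Nat.sub_self, h0, mul_one,
        mul_one] at h2
      have h3 : ∑ k ∈ Icc 1 (n - 1), S k * c (n - k) =
          ∑ k ∈ Icc 1 (n - 1), (- ∑ i, β i ^ k) * c (n - k) := by
        refine Finset.sum_congr rfl fun k hk => ?_
        rw [Finset.mem_Icc] at hk
        rw [ih k (by omega) (by omega)]
      rw [h3] at h2
      exact add_right_cancel h2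
  have hb : ∀ i, ‖β i‖ ≤ R := by
    intro i
    have h1 := bnd (fun i => β i ^ 2) (R ^ 2) C (max n0 1) (by positivity) (by
      intro n hn
      have h2 := hS n (le_of_max_le_left hn)
      rw [hSn (2 * n) (by have := le_of_max_le_right hn; omega), norm_neg] at h2
      simp only [← pow_mul]
      exact h2) i
    simp only [norm_pow] at h1
    exact (pow_le_pow_iff_left₀ (norm_nonneg _) hR.le (by norm_num)).1 h1
  rw [hSn 1 le_rfl, norm_neg]
  simp only [pow_one]
  refine (norm_sum_le _ _).trans ((Finset.sum_le_sum fun i _ => hb i).trans ?_)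
  simp

end Pool.Agent.Work.MP_e0aece_nt.Sq

end

section

/-!
# Item W6: Kummer theory, nonsingularity of the multiplication matrix
-/

namespace Pool.Agent.Work.MP_e0aece_nt.Sq

open Finset Polynomial

namespace ItemW6

lemma prod_form {L : Type} [Field L] (ζ y : L) (s : Multiset L)
    (h : ∀ ρ ∈ s, ∃ i : ℕ, ρ = ζ ^ i * y) :
    ∃ k : ℕ, s.prod = ζ ^ k * y ^ Multiset.card s := by
  induction s using Multiset.induction_on with
  | empty => exact ⟨0, by simp⟩
  | cons a s ih =>
    obtain ⟨k, hk⟩ := ih fun ρ hρ => h ρ (Multiset.mem_cons_of_mem hρ)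
    obtain ⟨i, hi⟩ := h a (Multiset.mem_cons_self a s)
    refine ⟨i + k, ?_⟩
    rw [Multiset.prod_cons, hk, hi, Multiset.card_cons, pow_add, pow_succ]
    ring

/-- Kummer: irreducibility of `X ^ d - e`. -/
lemma irred {E : Type} [Field E] {d : ℕ} (hd : 0 < d) {ζ : E} (hζ : IsPrimitiveRoot ζ d) {e : E}
    (he : e ≠ 0) (h : ∀ l : ℕ, l.Prime → l ∣ d → ∀ b : E, b ^ l ≠ e) :
    Irreducible (X ^ d - C e : E[X]) := by
  have : NeZero d := ⟨hd.ne'⟩
  set P : E[X] := X ^ d - C e with hP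
  have hPm : P.Monic := monic_X_pow_sub_C e hd.ne'
  have hPd : P.natDegree = d := natDegree_X_pow_sub_C
  have hPu : ¬ IsUnit P := by
    intro hu
    have := natDegree_eq_zero_of_isUnit hu
    omega
  obtain ⟨g, hgm, hgi, hgP⟩ := Polynomial.exists_monic_irreducible_factor P hPu
  let L := AlgebraicClosure E
  obtain ⟨y, hy⟩ := IsAlgClosed.exists_aeval_eq_zero L g (degree_pos_of_irreducible hgi).ne'
  have hroot : ∀ ρ : L, aeval ρ g = 0 → ρ ^ d = algebraMap E L e := by
    intro ρ hρ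
    obtain ⟨q, hq⟩ := hgP
    have h1 : aeval ρ P = 0 := by rw [hq, map_mul, hρ, zero_mul]
    rw [hP, map_sub, map_pow, aeval_X, aeval_C] at h1
    exact sub_eq_zero.mp h1
  have hyd := hroot y hy
  have hinj : Function.Injective (algebraMap E L) := (algebraMap E L).injective
  have hy0 : y ≠ 0 := by
    rintro rfl
    rw [zero_pow hd.ne'] at hyd
    exact he (hinj (by rw [← hyd, map_zero]))
  have hζL : IsPrimitiveRoot (algebraMap E L ζ) d := hζ.map_of_injective hinj
  set r := g.natDegree with hr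
  -- y ^ r in E
  have hyr : ∃ c : E, y ^ r = algebraMap E L c := by
    have hsp : (g.map (algebraMap E L)).Splits := IsAlgClosed.splits _
    have hgm' : (g.map (algebraMap E L)).Monic := hgm.map _
    have h1 : ∀ ρ ∈ (g.map (algebraMap E L)).roots, ∃ i : ℕ, ρ = (algebraMap E L ζ) ^ i * y := by
      intro ρ hρ
      have h2 : aeval ρ g = 0 := by
        have := (mem_roots'.mp hρ).2
        rw [IsRoot, eval_map_algebraMap] at this
        exact this
      have h3 := hroot ρ h2
      have h4 : (ρ / y) ^ d = 1 := by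
        rw [div_pow, h3, hyd, div_self]
        intro h5
        exact he (hinj (by rw [h5, map_zero]))
      obtain ⟨i, _, hi⟩ := hζL.eq_pow_of_pow_eq_one h4
      refine ⟨i, ?_⟩
      rw [hi, div_mul_cancel₀ _ hy0]
    obtain ⟨k, hk⟩ := prod_form _ _ _ h1
    have h5 : Multiset.card (g.map (algebraMap E L)).roots = r := by
      rw [← hsp.natDegree_eq_card_roots, natDegree_map]
    rw [h5] at hk
    have h6 : (g.map (algebraMap E L)).coeff 0 = (-1) ^ r * (g.map (algebraMap E L)).roots.prod := by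
      have := hsp.coeff_zero_eq_prod_roots_of_monic hgm'
      rw [this, natDegree_map]
    rw [hk, coeff_map] at h6
    have hζ0 : (algebraMap E L ζ) ≠ 0 := hζL.ne_zero hd.ne'
    have hζ0' : ζ ≠ 0 := hζ.ne_zero hd.ne'
    refine ⟨((-1) ^ r * ζ ^ k)⁻¹ * g.coeff 0, ?_⟩
    rw [map_mul, h6, map_inv₀, map_mul, map_pow, map_pow, map_neg, map_one]
    have h7 : ((-1 : L) ^ r) ≠ 0 := pow_ne_zero _ (by simp)
    rw [← mul_assoc ((-1 : L) ^ r), inv_mul_cancel_left₀ (mul_ne_zero h7 (pow_ne_zero _ hζ0))]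
  obtain ⟨c, hc⟩ := hyr
  have hc0 : c ≠ 0 := by
    rintro rfl
    rw [map_zero] at hc
    exact pow_ne_zero _ hy0 hc
  -- y ^ gcd in E
  have hgcd : ∃ c' : E, y ^ (Nat.gcd r d) = algebraMap E L c' := by
    refine ⟨c ^ (Nat.gcdA r d) * e ^ (Nat.gcdB r d), ?_⟩
    rw [map_mul, map_zpow₀, map_zpow₀, ← hc, ← hyd, ← zpow_natCast y, ← zpow_natCast y,
      ← zpow_natCast y, ← zpow_mul, ← zpow_mul, ← zpow_add₀ hy0, Nat.gcd_eq_gcd_ab]
  obtain ⟨c', hc'⟩ := hgcd
  have hDpos : 0 < Nat.gcd r d := Nat.gcd_pos_of_pos_right _ hd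
  have hmin : g ∣ X ^ (Nat.gcd r d) - C c' := by
    have h1 : g = minpoly E y := minpoly.eq_of_irreducible_of_monic hgi hy hgm
    rw [h1]
    apply minpoly.dvd
    rw [map_sub, map_pow, aeval_X, aeval_C, hc', sub_self]
  have hle : r ≤ Nat.gcd r d := by
    have h1 : (X ^ (Nat.gcd r d) - C c' : E[X]) ≠ 0 := (monic_X_pow_sub_C c' hDpos.ne').ne_zero
    have := natDegree_le_of_dvd hmin h1
    rwa [natDegree_X_pow_sub_C] at this
  have hrpos : 0 < r := hgi.natDegree_pos
  have hrd : r ∣ d := by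
    have h1 : Nat.gcd r d = r := le_antisymm (Nat.gcd_le_left _ hrpos) hle
    rw [← h1]
    exact Nat.gcd_dvd_right _ _
  have hrd' : r = d := by
    by_contra hne
    obtain ⟨m, hm⟩ := hrd
    have hm1 : m ≠ 1 := by
      rintro rfl
      apply hne
      rw [hm, mul_one]
    obtain ⟨l, hl, hlm⟩ := Nat.exists_prime_and_dvd hm1
    obtain ⟨m', hm'⟩ := hlm
    refine h l hl ⟨r * m', by rw [hm, hm']; ring⟩ (c ^ m') ?_
    apply hinj
    rw [← hyd, hm, hm', map_pow, map_pow, ← hc]
    ring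
  have hgP' : g = P := by
    symm
    apply eq_of_monic_of_dvd_of_natDegree_le hgm hPm hgP
    rw [hPd, ← hr, hrd']
  rw [← hgP']
  exact hgi

/-- The `l`-th power criterion in the rational function field. -/
lemma not_pow {K : Type} [Field K] {f : K[X]} (hf : f ≠ 0) {c0 : K} (hc : c0 ≠ 0) {l : ℕ}
    (hl : l.Prime)
    (ha : ∃ a : K, ¬ l ∣ f.rootMultiplicity a) (b : RatFunc K) :
    b ^ l ≠ algebraMap K[X] (RatFunc K) (C c0) / algebraMap K[X] (RatFunc K) f := by
  intro h
  obtain ⟨a, ha⟩ := ha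
  have hinj : Function.Injective (algebraMap K[X] (RatFunc K)) := RatFunc.algebraMap_injective K
  have hf' : algebraMap K[X] (RatFunc K) f ≠ 0 := by
    intro h0
    exact hf (hinj (by rw [h0, map_zero]))
  have hv : b.denom ≠ 0 := b.denom_ne_zero
  have hv' : algebraMap K[X] (RatFunc K) b.denom ≠ 0 := by
    intro h0
    exact hv (hinj (by rw [h0, map_zero]))
  have h1 : f * b.num ^ l = C c0 * b.denom ^ l := by
    apply hinj
    rw [map_mul, map_mul, map_pow, map_pow]
    rw [← b.num_div_denom, div_pow] at h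
    rw [div_eq_div_iff (pow_ne_zero _ hv') hf'] at h
    rw [mul_comm]
    exact h
  have hc' : (C c0 : K[X]) ≠ 0 := C_ne_zero.mpr hc
  have hu : b.num ≠ 0 := by
    intro h0
    rw [h0, zero_pow hl.ne_zero, mul_zero] at h1
    exact mul_ne_zero hc' (pow_ne_zero _ hv) h1.symm
  have hpw : ∀ P : K[X], rootMultiplicity a (P ^ l) = l * rootMultiplicity a P := by
    intro P
    classical
    rw [← count_roots, ← count_roots, roots_pow, Multiset.count_nsmul]
  have h2 := congrArg (rootMultiplicity a) h1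
  rw [rootMultiplicity_mul (mul_ne_zero hf (pow_ne_zero _ hu)),
    rootMultiplicity_mul (mul_ne_zero hc' (pow_ne_zero _ hv)), rootMultiplicity_C,
    hpw, hpw, zero_add] at h2
  apply ha
  have h3 : l ∣ f.rootMultiplicity a + l * rootMultiplicity a b.num := by
    rw [h2]
    exact dvd_mul_right _ _
  exact (Nat.dvd_add_left (dvd_mul_right _ _)).mp h3

/-- The reindexing identity. -/
lemma key {K : Type} [Field K] {S : Type} [CommRing S] (φ : K[X] →+* S) {d : ℕ} (f : K[X]) (c0 : K)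
    (k : Fin d → K[X]) (Y : S) (b : Fin d) :
    ∑ a : Fin d, Y ^ (a : ℕ) * φ (mulMat f c0 k a b)
      = φ f * Y ^ (b : ℕ) * (∑ i : Fin d, φ (k i) * Y ^ (i : ℕ))
        - (φ f * Y ^ d - φ (C c0)) * (∑ i : Fin d, if (i : ℕ) + b < d then 0 else
            φ (k i) * Y ^ ((i : ℕ) + b - d)) := by
  rw [Finset.mul_sum, Finset.mul_sum, ← Finset.sum_sub_distrib]
  have hd : 0 < d := lt_of_le_of_lt (Nat.zero_le _) b.2
  have : NeZero d := ⟨hd.ne'⟩
  rw [← Equiv.sum_comp (Equiv.addRight b)]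
  refine Finset.sum_congr rfl fun i _ => ?_
  have hb := b.2
  have hi := i.2
  by_cases h : (i : ℕ) + b < d
  · have h1 : ((Equiv.addRight b i : Fin d) : ℕ) = i + b := by
      simp [Equiv.addRight, Fin.val_add, Nat.mod_eq_of_lt h]
    have h2 : b ≤ Equiv.addRight b i := by
      rw [Fin.le_def, h1]; omega
    unfold mulMat
    rw [dif_pos h2, if_pos h, mul_zero, sub_zero]
    have h3 : (⟨((Equiv.addRight b i : Fin d) : ℕ) - b, by omega⟩ : Fin d) = i := by
      apply Fin.ext
      simp only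
      omega
    rw [h3, h1, pow_add, map_mul]
    ring
  · have h1 : ((Equiv.addRight b i : Fin d) : ℕ) = i + b - d := by
      simp only [Equiv.coe_addRight, Fin.val_add]
      rw [Nat.mod_eq_sub_mod (by omega), Nat.mod_eq_of_lt (by omega)]
    have h2 : ¬ b ≤ Equiv.addRight b i := by
      rw [Fin.le_def, h1]; omega
    unfold mulMat
    rw [dif_neg h2, if_neg h]
    have h3 : (⟨d + ((Equiv.addRight b i : Fin d) : ℕ) - b, by omega⟩ : Fin d) = i := by
      apply Fin.ext
      simp only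
      omega
    rw [h3, h1, map_mul]
    have h4 : Y ^ (b : ℕ) * Y ^ (i : ℕ) = Y ^ d * Y ^ ((i : ℕ) + b - d) := by
      rw [← pow_add, ← pow_add]
      congr 1
      omega
    linear_combination (-(φ f * φ (k i))) * h4

/-- A polynomial given by `d` coefficients. -/
lemma poly_degree {E : Type} [Field E] {d : ℕ} (hd : 0 < d) (u : Fin d → E) :
    (∑ i : Fin d, C (u i) * X ^ (i : ℕ)).natDegree < d := by
  refine lt_of_le_of_lt (natDegree_sum_le_of_forall_le (n := d - 1) _ _ fun i _ => ?_) (by omega)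
  refine le_trans (natDegree_C_mul_X_pow_le _ _) ?_
  have := i.2
  omega

lemma poly_ne {E : Type} [Field E] {d : ℕ} (u : Fin d → E) (hu : u ≠ 0) :
    (∑ i : Fin d, C (u i) * X ^ (i : ℕ)) ≠ 0 := by
  intro h
  apply hu
  funext j
  have h1 := congrArg (fun P => coeff P (j : ℕ)) h
  simp only [finsetSum_coeff, coeff_C_mul, coeff_X_pow, coeff_zero] at h1
  rw [Finset.sum_eq_single j] at h1
  · simpa using h1
  · intro i _ hij
    rw [if_neg, mul_zero]
    intro h2
    exact hij (Fin.ext h2.symm)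
  · intro h2
    exact absurd (Finset.mem_univ _) h2

end ItemW6

open ItemW6 in
theorem claimW6 : ClaimW6 := by
  intro K _ d f c0 k z hd hz hf hc0 hl hk hdet
  classical
  let E := RatFunc K
  let φ : K[X] →+* E := algebraMap K[X] (RatFunc K)
  have hinj : Function.Injective φ := RatFunc.algebraMap_injective K
  have hf' : φ f ≠ 0 := fun h => hf (hinj (by rw [h, map_zero]))
  have hc' : φ (C c0) ≠ 0 := fun h => C_ne_zero.mpr hc0 (hinj (by rw [h, map_zero]))
  set e : E := φ (C c0) / φ f with he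
  have he0 : e ≠ 0 := div_ne_zero hc' hf'
  have hzE : IsPrimitiveRoot (φ (C z)) d :=
    (hz.map_of_injective (f := (C : K →+* K[X])) C_injective).map_of_injective hinj
  have hirr : Irreducible (X ^ d - C e : E[X]) :=
    irred hd hzE he0 fun l hlp hld b => not_pow hf hc0 hlp (hl l hlp hld) b
  have hprime : Prime (X ^ d - C e : E[X]) := hirr.prime
  -- the matrix over E
  have hdetE : ((mulMat f c0 k).map φ).det = 0 := by
    have := φ.map_det (mulMat f c0 k)
    rw [hdet, map_zero] at this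
    rw [RingHom.mapMatrix_apply] at this
    exact this.symm
  obtain ⟨u, hu, hMu⟩ := Matrix.exists_mulVec_eq_zero_iff.mpr hdetE
  set κ : E[X] := ∑ i : Fin d, C (φ (k i)) * X ^ (i : ℕ) with hκ
  set V : E[X] := ∑ i : Fin d, C (u i) * X ^ (i : ℕ) with hV
  have hκne : κ ≠ 0 := poly_ne _ fun h => hk (by
    funext i
    exact hinj (by simpa using congrFun h i))
  have hVne : V ≠ 0 := poly_ne _ hu
  let φ' : K[X] →+* E[X] := (C : E →+* E[X]).comp φ
  have hid : C (φ f) * κ * V = C (φ f) * (X ^ d - C e) *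
      ∑ b : Fin d, C (u b) * (∑ i : Fin d, if (i : ℕ) + b < d then 0 else
            C (φ (k i)) * X ^ ((i : ℕ) + b - d)) := by
    have h1 : ∀ b : Fin d, C (φ f) * κ * (C (u b) * X ^ (b : ℕ)) =
        C (u b) * ∑ a : Fin d, X ^ (a : ℕ) * C (φ (mulMat f c0 k a b)) +
        C (φ f) * (X ^ d - C e) * (C (u b) * (∑ i : Fin d, if (i : ℕ) + b < d then 0 else
            C (φ (k i)) * X ^ ((i : ℕ) + b - d))) := by
      intro b
      have h2 := key φ' f c0 k (X : E[X]) b
      have h3 : C (φ f) * X ^ d - C (φ (C c0)) = C (φ f) * (X ^ d - C e : E[X]) := by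
        have h4 : φ (C c0) = φ f * e := by
          rw [he, mul_div_cancel₀ _ hf']
        rw [h4, C_mul]
        ring
      have h5 : ∀ x, φ' x = C (φ x) := fun x => rfl
      simp only [h5] at h2
      rw [h2, h3]
      ring
    have h6 : ∑ b : Fin d, C (u b) * ∑ a : Fin d, X ^ (a : ℕ) * C (φ (mulMat f c0 k a b)) = 0 := by
      have h7 : ∀ b : Fin d, C (u b) * ∑ a : Fin d, X ^ (a : ℕ) * C (φ (mulMat f c0 k a b)) =
          ∑ a : Fin d, X ^ (a : ℕ) * C (φ (mulMat f c0 k a b) * u b) := by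
        intro b
        rw [Finset.mul_sum]
        refine Finset.sum_congr rfl fun a _ => ?_
        rw [C_mul]
        ring
      rw [Finset.sum_congr rfl fun b _ => h7 b, Finset.sum_comm]
      refine Finset.sum_eq_zero fun a _ => ?_
      rw [← Finset.mul_sum, ← map_sum C]
      have h8 := congrFun hMu a
      simp only [Matrix.mulVec, dotProduct, Matrix.map_apply, Pi.zero_apply] at h8
      rw [h8, map_zero, mul_zero]
    calc C (φ f) * κ * V = ∑ b : Fin d, C (φ f) * κ * (C (u b) * X ^ (b : ℕ)) := by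
          rw [hV, Finset.mul_sum]
      _ = _ := by
          rw [Finset.sum_congr rfl fun b _ => h1 b, Finset.sum_add_distrib, h6, zero_add,
            ← Finset.mul_sum]
  have hdvd : (X ^ d - C e : E[X]) ∣ C (φ f) * κ * V := by
    rw [hid]
    exact dvd_mul_of_dvd_left (dvd_mul_left _ _) _
  have hdeg : (X ^ d - C e : E[X]).natDegree = d := natDegree_X_pow_sub_C
  have hnd : ∀ P : E[X], P ≠ 0 → P.natDegree < d → ¬ (X ^ d - C e : E[X]) ∣ P := by
    intro P hP hPd hdv
    have := natDegree_le_of_dvd hdv hP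
    omega
  rcases hprime.dvd_or_dvd hdvd with h | h
  · rcases hprime.dvd_or_dvd h with h | h
    · exact hnd _ (C_ne_zero.mpr hf') (by rw [natDegree_C]; omega) h
    · exact hnd _ hκne (poly_degree hd _) h
  · exact hnd _ hVne (poly_degree hd _) h

end Pool.Agent.Work.MP_e0aece_nt.Sq

end

section

/-!
# Item W7: linear independence over polynomials of small degree
-/

namespace Pool.Agent.Work.MP_e0aece_nt.Sq

open Finset Polynomial

namespace ItemW7

/-- If `X ^ R` divides a polynomial of degree `< R` it is zero. -/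
lemma eq_zero_of_X_pow_dvd {K : Type} [Field K] {R : ℕ} {P : K[X]} (h : X ^ R ∣ P)
    (hd : P.natDegree < R) : P = 0 := by
  by_contra hP
  have := natDegree_le_of_dvd h hP
  rw [natDegree_X_pow] at this
  omega

/-- Degree of a determinant. -/
lemma det_natDegree {K : Type} [Field K] {d B : ℕ} (M : Matrix (Fin d) (Fin d) K[X])
    (h : ∀ i j, (M i j).natDegree ≤ B) : M.det.natDegree ≤ d * B := by
  rw [Matrix.det_apply]
  refine natDegree_sum_le_of_forall_le _ _ fun σ _ => ?_
  refine le_trans (natDegree_smul_le _ _) ?_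
  refine le_trans (natDegree_prod_le _ _) ?_
  refine le_trans (Finset.sum_le_sum fun i _ => h _ _) ?_
  simp

lemma mulMat_degree {K : Type} [Field K] {d B U : ℕ} (f : K[X]) (c0 : K) (k : Fin d → K[X])
    (hk : ∀ i, (k i).natDegree ≤ U) (hB : f.natDegree + U ≤ B) (i j : Fin d) :
    (mulMat f c0 k i j).natDegree ≤ B := by
  unfold mulMat
  split_ifs with h
  · exact le_trans natDegree_mul_le (le_trans (Nat.add_le_add_left (hk _) _) hB)
  · exact le_trans (natDegree_C_mul_le _ _) (le_trans (hk _) (by omega))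

/-- The components of `v M`, `v = (1, Y, ..., Y^(d-1))`. -/
lemma vecMul_eq {K : Type} [Field K] {d : ℕ} (f : K[X]) (c0 : K) (k : Fin d → K[X])
    (Y : K[X]) (P : K[X]) (hP : P ∣ f * Y ^ d - C c0) (hk : P ∣ ∑ i : Fin d, k i * Y ^ (i : ℕ))
    (b : Fin d) :
    P ∣ ∑ a : Fin d, Y ^ (a : ℕ) * mulMat f c0 k a b := by
  have key : ∑ a : Fin d, Y ^ (a : ℕ) * mulMat f c0 k a b
      = f * Y ^ (b : ℕ) * (∑ i : Fin d, k i * Y ^ (i : ℕ))
        - (f * Y ^ d - C c0) * (∑ i : Fin d, if (i : ℕ) + b < d then 0 else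
            k i * Y ^ ((i : ℕ) + b - d)) := by
    rw [Finset.mul_sum, Finset.mul_sum, ← Finset.sum_sub_distrib]
    have hd : 0 < d := lt_of_le_of_lt (Nat.zero_le _) b.2
    -- reindex a = i + b mod d
    have : NeZero d := ⟨hd.ne'⟩
    rw [← Equiv.sum_comp (Equiv.addRight b)]
    refine Finset.sum_congr rfl fun i _ => ?_
    have hb := b.2
    have hi := i.2
    by_cases h : (i : ℕ) + b < d
    · have h1 : ((Equiv.addRight b i : Fin d) : ℕ) = i + b := by
        simp [Equiv.addRight, Fin.val_add, Nat.mod_eq_of_lt h]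
      have h2 : b ≤ Equiv.addRight b i := by
        rw [Fin.le_def, h1]; omega
      unfold mulMat
      rw [dif_pos h2, if_pos h, mul_zero, sub_zero]
      have h3 : (⟨((Equiv.addRight b i : Fin d) : ℕ) - b, by omega⟩ : Fin d) = i := by
        apply Fin.ext
        simp only
        omega
      rw [h3, h1, pow_add]
      ring
    · have h1 : ((Equiv.addRight b i : Fin d) : ℕ) = i + b - d := by
        simp only [Equiv.coe_addRight, Fin.val_add]
        rw [Nat.mod_eq_sub_mod (by omega), Nat.mod_eq_of_lt (by omega)]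
      have h2 : ¬ b ≤ Equiv.addRight b i := by
        rw [Fin.le_def, h1]; omega
      unfold mulMat
      rw [dif_neg h2, if_neg h]
      have h3 : (⟨d + ((Equiv.addRight b i : Fin d) : ℕ) - b, by omega⟩ : Fin d) = i := by
        apply Fin.ext
        simp only
        omega
      rw [h3, h1]
      have h4 : Y ^ (b : ℕ) * Y ^ (i : ℕ) = Y ^ d * Y ^ ((i : ℕ) + b - d) := by
        rw [← pow_add, ← pow_add]
        congr 1
        omega
      linear_combination (-(f * k i)) * h4
  rw [key]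
  exact dvd_sub (dvd_mul_of_dvd_right hk _) (dvd_mul_of_dvd_left hP _)

end ItemW7

open ItemW7 in
theorem claimW7 (hW6 : ClaimW6) : ClaimW7 := by
  intro K _ d J U E R f z u hd hz hf0 hfR hR hU hu hl hrel
  classical
  by_contra hcon
  push Not at hcon
  obtain ⟨i0, j1, hij⟩ := hcon
  -- least j
  have hex : ∃ n : ℕ, ∃ h : n < J, ∃ i, u i ⟨n, h⟩ ≠ 0 := ⟨j1, j1.2, i0, hij⟩
  obtain ⟨hjJ, i1, hi1⟩ := Nat.find_spec hex
  set n0 := Nat.find hex with hn0
  have hmin : ∀ i (j : Fin J), (j : ℕ) < n0 → u i j = 0 := by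
    intro i j hj
    by_contra h
    exact Nat.find_min hex hj ⟨j.2, i, h⟩
  set j0 : Fin J := ⟨n0, hjJ⟩ with hj0
  set k : Fin d → K[X] := fun i => u i j0 with hk
  have hkne : k ≠ 0 := fun h => hi1 (congrFun h i1)
  set Y := f ^ E with hY
  have hRpos : 0 < R := by omega
  have hU1 : 1 ≤ U := by
    rcases Nat.eq_zero_or_pos U with h | h
    · exfalso
      subst h
      have h2 : (u i1 j0).natDegree < 0 :=
        (natDegree_lt_iff_degree_lt hi1).mpr (hu i1 j0)
      omega
    · exact h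
  -- X^R divides sum k_i Y^i
  have hdiv : X ^ R ∣ ∑ i : Fin d, k i * Y ^ (i : ℕ) := by
    have h1 : ∑ j : Fin J, (∑ i : Fin d, u i j * Y ^ (i : ℕ)) * X ^ (R * (j : ℕ)) = 0 := by
      rw [← hrel, Finset.sum_comm]
      refine Finset.sum_congr rfl fun j _ => ?_
      rw [Finset.sum_mul]
      refine Finset.sum_congr rfl fun i _ => ?_
      rw [hY, ← pow_mul, mul_comm E]
    have h2 : X ^ (R * n0) * (X ^ R) ∣ (∑ i : Fin d, k i * Y ^ (i : ℕ)) * X ^ (R * n0) := by
      have h3 : (∑ i : Fin d, k i * Y ^ (i : ℕ)) * X ^ (R * n0) =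
          - ∑ j ∈ Finset.univ.erase j0,
            (∑ i : Fin d, u i j * Y ^ (i : ℕ)) * X ^ (R * (j : ℕ)) := by
        rw [← Finset.add_sum_erase _ _ (Finset.mem_univ j0)] at h1
        exact eq_neg_of_add_eq_zero_left h1
      rw [h3]
      refine (dvd_neg).mpr (Finset.dvd_sum fun j hj => ?_)
      rw [Finset.mem_erase] at hj
      rcases lt_trichotomy (j : ℕ) n0 with h | h | h
      · have : ∑ i : Fin d, u i j * Y ^ (i : ℕ) = 0 :=
          Finset.sum_eq_zero fun i _ => by rw [hmin i j h, zero_mul]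
        rw [this, zero_mul]
        exact dvd_zero _
      · exact absurd (Fin.ext h) hj.1
      · refine dvd_mul_of_dvd_right ?_ _
        rw [← pow_add]
        refine pow_dvd_pow _ ?_
        calc R * n0 + R = R * (n0 + 1) := by ring
          _ ≤ R * j := Nat.mul_le_mul_left _ h
    rw [mul_comm (X ^ (R * n0))] at h2
    exact (mul_dvd_mul_iff_right (pow_ne_zero _ X_ne_zero)).mp h2
  -- f Y^d = c0 mod X^R
  set c0 := f.eval 0 with hc0
  have hmod : X ^ R ∣ f * Y ^ d - C c0 := by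
    have h1 : f * Y ^ d = f.comp (X ^ R) := by
      rw [← hfR, hR, hY, ← pow_mul, pow_succ, mul_comm E d, mul_comm]
    rw [h1]
    have h2 : X ∣ f - C c0 := by
      rw [X_dvd_iff, coeff_sub, coeff_C_zero, hc0, ← coeff_zero_eq_eval_zero, sub_self]
    obtain ⟨g, hg⟩ := h2
    refine ⟨g.comp (X ^ R), ?_⟩
    have h3 := congrArg (fun P : K[X] => P.comp (X ^ R)) hg
    simpa using h3
  set M := mulMat f c0 k with hM
  set v : Fin d → K[X] := fun a => Y ^ (a : ℕ) with hv
  have hvM : ∀ b, X ^ R ∣ Matrix.vecMul v M b := by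
    intro b
    have := vecMul_eq f c0 k Y (X ^ R) hmod hdiv b
    simpa [Matrix.vecMul, dotProduct] using this
  have hdet : X ^ R ∣ M.det := by
    have h1 : Matrix.vecMul (Matrix.vecMul v M) M.adjugate = M.det • v := by
      rw [Matrix.vecMul_vecMul, Matrix.mul_adjugate, Matrix.vecMul_smul, Matrix.vecMul_one]
    have h2 : M.det = Matrix.vecMul (Matrix.vecMul v M) M.adjugate ⟨0, hd⟩ := by
      rw [h1]
      simp [hv]
    rw [h2]
    simp only [Matrix.vecMul, dotProduct]
    refine Finset.dvd_sum fun b _ => dvd_mul_of_dvd_left ?_ _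
    have := hvM b
    simpa [Matrix.vecMul, dotProduct] using this
  have hkdeg : ∀ i, (k i).natDegree ≤ U - 1 := by
    intro i
    by_cases h0 : k i = 0
    · simp [h0]
    · have := (natDegree_lt_iff_degree_lt h0).mpr (hu i j0)
      omega
  have hdeg : M.det.natDegree ≤ d * (E - 1) := by
    refine det_natDegree M fun i j => mulMat_degree f c0 k hkdeg (by omega) i j
  have hlt : M.det.natDegree < R := by
    refine lt_of_le_of_lt hdeg ?_
    rw [hR]
    have : d * (E - 1) ≤ d * E := Nat.mul_le_mul_left _ (Nat.sub_le _ _)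
    omega
  have hf : f ≠ 0 := by
    intro h
    apply hf0
    rw [hc0, h]
    simp
  exact hW6 K d f c0 k z hd hz hf hf0 hl hkne (eq_zero_of_X_pow_dvd hdet hlt)

end Pool.Agent.Work.MP_e0aece_nt.Sq

end

section

/-!
# Item W8: pigeonhole construction of the auxiliary polynomial
-/

namespace Pool.Agent.Work.MP_e0aece_nt.Sq

open Finset Polynomial

namespace ItemW8

/-- The auxiliary expression. -/
noncomputable def Xi {K : Type} [Field K] (d J E R : ℕ) (f : K[X]) (b : K)
    (u : Fin d → Fin J → K[X]) : K[X] :=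
  ∑ i : Fin d, ∑ j : Fin J, C (b ^ (i : ℕ)) * (u i j) ^ R * f ^ ((d - (i : ℕ)) * E) *
    X ^ (j : ℕ)

lemma xi_sub {K : Type} [Field K] (p n d J E R : ℕ) (f : K[X]) (b : K) [CharP K p]
    (hp : p.Prime) (hR : R = p ^ n) (u v : Fin d → Fin J → K[X]) :
    Xi d J E R f b (fun i j => u i j - v i j) = Xi d J E R f b u - Xi d J E R f b v := by
  have : Fact p.Prime := ⟨hp⟩
  unfold Xi
  rw [← Finset.sum_sub_distrib]
  refine Finset.sum_congr rfl fun i _ => ?_
  rw [← Finset.sum_sub_distrib]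
  refine Finset.sum_congr rfl fun j _ => ?_
  rw [hR, sub_pow_char_pow]
  ring

lemma xi_degree {K : Type} [Field K] (d J U E R : ℕ) (f : K[X]) (b : K) (hU : 1 ≤ U)
    (hE : R = d * E + 1) (u : Fin d → Fin J → K[X]) (hu : ∀ i j, (u i j).degree < U) :
    (Xi d J E R f b u).degree < ((R * U + f.natDegree * R + J : ℕ) : WithBot ℕ) := by
  unfold Xi
  refine lt_of_le_of_lt (degree_sum_le _ _) ?_
  rw [Finset.sup_lt_iff (WithBot.bot_lt_coe _)]
  intro i _
  refine lt_of_le_of_lt (degree_sum_le _ _) ?_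
  rw [Finset.sup_lt_iff (WithBot.bot_lt_coe _)]
  intro j _
  have hj : (j : ℕ) + 1 ≤ J := j.2
  have h1 : (u i j).natDegree ≤ U - 1 := by
    by_cases h0 : u i j = 0
    · simp [h0]
    · have := (natDegree_lt_iff_degree_lt h0).mpr (hu i j)
      omega
  have h2 : (C (b ^ (i : ℕ)) * (u i j) ^ R * f ^ ((d - (i : ℕ)) * E) * X ^ (j : ℕ)).natDegree ≤
      R * (U - 1) + (d - (i : ℕ)) * E * f.natDegree + j := by
    refine le_trans natDegree_mul_le ?_
    refine Nat.add_le_add ?_ (by simp)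
    refine le_trans natDegree_mul_le ?_
    refine Nat.add_le_add ?_ natDegree_pow_le
    refine le_trans (natDegree_C_mul_le _ _) ?_
    exact le_trans natDegree_pow_le (Nat.mul_le_mul_left _ h1)
  refine lt_of_le_of_lt degree_le_natDegree ?_
  have h3 : (d - (i : ℕ)) * E * f.natDegree ≤ f.natDegree * R := by
    rw [mul_comm f.natDegree R]
    refine Nat.mul_le_mul_right _ ?_
    rw [hE]
    exact le_trans (Nat.mul_le_mul_right _ (Nat.sub_le _ _)) (Nat.le_succ _)
  have h4 : R * (U - 1) ≤ R * U := Nat.mul_le_mul_left _ (Nat.sub_le _ _)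
  exact_mod_cast (by omega : _ < R * U + f.natDegree * R + J)

end ItemW8

open ItemW8 in
theorem claimW8 : ClaimW8 := by
  intro K _ _ p n d J U E R f b _ hp hR hE hlt
  classical
  have hU : 1 ≤ U := by
    rcases Nat.eq_zero_or_pos U with h | h
    · subst h; simp at hlt
    · exact h
  set T := R * U + f.natDegree * R + J with hT
  let uu : (Fin d → Fin J → Fin U → K) → Fin d → Fin J → K[X] :=
    fun c i j => ((degreeLTEquiv K U).symm (c i j) : K[X])
  have huu : ∀ c i j, (uu c i j).degree < U := by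
    intro c i j
    exact mem_degreeLT.mp ((degreeLTEquiv K U).symm (c i j)).2
  let F : (Fin d → Fin J → Fin U → K) → (Fin T → K) :=
    fun c s => (Xi d J E R f b (uu c)).coeff s
  have hcard : Fintype.card (Fin T → K) < Fintype.card (Fin d → Fin J → Fin U → K) := by
    simp only [Fintype.card_pi, Finset.prod_const, Finset.card_univ, Fintype.card_fin]
    rw [← pow_mul, ← pow_mul]
    refine Nat.pow_lt_pow_right Fintype.one_lt_card ?_
    calc T < d * J * U := hlt
      _ = U * (J * d) := by ring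
      _ = _ := by ring
  obtain ⟨c, c', hne, heq⟩ := Fintype.exists_ne_map_eq_of_card_lt F hcard
  refine ⟨fun i j => uu c i j - uu c' i j, ?_, ?_, ?_⟩
  · intro i j
    exact lt_of_le_of_lt (degree_sub_le _ _) (max_lt (huu c i j) (huu c' i j))
  · by_contra hcon
    push Not at hcon
    apply hne
    funext i j
    have h1 := hcon i j
    have h2 : (degreeLTEquiv K U).symm (c i j) = (degreeLTEquiv K U).symm (c' i j) :=
      Subtype.ext (sub_eq_zero.mp h1)
    exact (degreeLTEquiv K U).symm.injective h2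
  · have h1 := xi_sub p n d J E R f b hp hR (uu c) (uu c')
    have h2 : Xi d J E R f b (uu c) = Xi d J E R f b (uu c') := by
      ext s
      by_cases hs : s < T
      · exact congrFun heq ⟨s, hs⟩
      · push Not at hs
        rw [coeff_eq_zero_of_degree_lt, coeff_eq_zero_of_degree_lt]
        · exact lt_of_lt_of_le (xi_degree d J U E R f b hU hE _ (huu c')) (by exact_mod_cast hs)
        · exact lt_of_lt_of_le (xi_degree d J U E R f b hU hE _ (huu c)) (by exact_mod_cast hs)
    rw [h2, sub_self] at h1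
    exact h1

end Pool.Agent.Work.MP_e0aece_nt.Sq

end

section

/-!
# Item W9: the Stepanov-Bombieri bound
-/

namespace Pool.Agent.Work.MP_e0aece_nt.Sq

open Finset Polynomial

namespace ItemW9

/-- The polynomial of W7. -/
noncomputable def Th {K : Type} [Field K] {d J : ℕ} (E R : ℕ) (f : K[X])
    (u : Fin d → Fin J → K[X]) : K[X] :=
  ∑ i : Fin d, ∑ j : Fin J, u i j * f ^ ((i : ℕ) * E) * X ^ (R * (j : ℕ))

theorem th_eval_eq_zero {K : Type} [Field K] [Fintype K] {p n d J E R : ℕ} (f : K[X]) (b : K)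
    [CharP K p] (hp : p.Prime) (hR : R = p ^ n) (hK : Fintype.card K = R ^ 2)
    (u : Fin d → Fin J → K[X])
    (hu : ∑ i : Fin d, ∑ j : Fin J, C (b ^ (i : ℕ)) * (u i j) ^ R * f ^ ((d - (i : ℕ)) * E) *
        X ^ (j : ℕ) = 0) (x : K) (hx : f.eval x ≠ 0) (hb : f.eval x ^ (E * (R + 1)) = b) :
    (Th E R f u).eval x = 0 := by
  have : Fact p.Prime := ⟨hp⟩
  have hxx : x ^ (R ^ 2) = x := by rw [← hK]; exact FiniteField.pow_card x
  have h1 : f.eval x ^ (d * E) * ((Th E R f u).eval x) ^ R = 0 := by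
    have h2 := congrArg (Polynomial.eval x) hu
    rw [eval_zero, eval_finsetSum] at h2
    rw [← h2]
    unfold Th
    rw [eval_finsetSum, hR, sum_pow_char_pow, mul_sum]
    refine sum_congr rfl fun i _ => ?_
    rw [eval_finsetSum, eval_finsetSum, sum_pow_char_pow, mul_sum]
    refine sum_congr rfl fun j _ => ?_
    rw [← hR]
    simp only [eval_mul, eval_pow, eval_C, eval_X, mul_pow]
    have e1 : (x ^ (R * (j : ℕ))) ^ R = x ^ (j : ℕ) := by
      rw [← pow_mul, show R * (j : ℕ) * R = R ^ 2 * j by ring, pow_mul, hxx]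
    have e2 : f.eval x ^ (d * E) * (f.eval x ^ ((i : ℕ) * E)) ^ R =
        b ^ (i : ℕ) * f.eval x ^ ((d - (i : ℕ)) * E) := by
      rw [← hb, ← pow_mul, ← pow_mul, ← pow_add, ← pow_add]
      congr 1
      have hi : (i : ℕ) ≤ d := i.2.le
      generalize (i : ℕ) = k at hi
      obtain ⟨e, rfl⟩ := Nat.exists_eq_add_of_le hi
      rw [Nat.add_sub_cancel_left]
      ring
    rw [e1]
    calc f.eval x ^ (d * E) * ((u i j).eval x ^ R * (f.eval x ^ ((i : ℕ) * E)) ^ R * x ^ (j : ℕ))
        = (f.eval x ^ (d * E) * (f.eval x ^ ((i : ℕ) * E)) ^ R) * (u i j).eval x ^ R *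
            x ^ (j : ℕ) := by ring
      _ = _ := by rw [e2]; ring
  rcases mul_eq_zero.1 h1 with h | h
  · exact absurd h (pow_ne_zero _ hx)
  · exact eq_zero_of_pow_eq_zero h

theorem natDegree_le {K : Type} [Field K] {d J U E R : ℕ} (f : K[X]) (u : Fin d → Fin J → K[X])
    (hu : ∀ i j, (u i j).degree < U) :
    (Th E R f u).natDegree ≤ (U - 1) + (d - 1) * (E * f.natDegree) + R * (J - 1) := by
  unfold Th
  refine natDegree_sum_le_of_forall_le _ _ fun i _ => ?_
  refine natDegree_sum_le_of_forall_le _ _ fun j _ => ?_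
  refine natDegree_mul_le.trans ?_
  refine add_le_add (natDegree_mul_le.trans (add_le_add ?_ ?_)) ?_
  · have h1 : (u i j).natDegree < U ∨ u i j = 0 := by
      by_cases h0 : u i j = 0
      · exact Or.inr h0
      · exact Or.inl ((natDegree_lt_iff_degree_lt h0).2 (hu i j))
    rcases h1 with h1 | h1
    · omega
    · rw [h1, natDegree_zero]; omega
  · refine natDegree_pow_le.trans ?_
    rw [mul_assoc]
    exact Nat.mul_le_mul_right _ (by have := i.2; omega)
  · rw [natDegree_X_pow]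
    exact Nat.mul_le_mul_left _ (by have := j.2; omega)

end ItemW9

open ItemW9 in
/-- W9 (Stepanov's bound). -/
theorem claimW9 (hW7 : ClaimW7) (hW8 : ClaimW8) : ClaimW9 := by
  intro K _ _ p n d E R f z b _ hp hR hK hd hE hz hf0 hfR hmult hD
  set D := f.natDegree with hDdef
  have hED : D + 1 ≤ E := by
    by_contra hc
    push Not at hc
    have h1 : E ≤ D := by omega
    have h2 : d * E ≤ d * D := Nat.mul_le_mul_left _ h1
    nlinarith
  obtain ⟨U, hU⟩ := Nat.exists_eq_add_of_le' hED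
  -- E = U + (D + 1)
  have hineq : R * (U + 1) + D * R + (E + D + 2) < d * (E + D + 2) * (U + 1) := by
    obtain ⟨e, rfl⟩ := Nat.exists_eq_add_of_le hd
    subst hU
    rw [hE] at hD ⊢
    nlinarith
  obtain ⟨u, hu1, ⟨i0, j0, hu2⟩, hu3⟩ :=
    hW8 K p n d (E + D + 2) (U + 1) E R f b hp hR hE hineq
  have hne : Th E R f u ≠ 0 := by
    intro h0
    exact hu2 (hW7 K d (E + D + 2) (U + 1) E R f z u (by omega) hz hf0 hfR hE (by omega) hu1
      hmult h0 i0 j0)
  classical
  have hcard : Nat.card {x : K // f.eval x ≠ 0 ∧ f.eval x ^ (E * (R + 1)) = b} ≤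
      (Th E R f u).natDegree := by
    rw [Nat.card_eq_fintype_card, Fintype.card_subtype]
    refine card_le_degree_of_subset_roots ?_
    intro x hx
    rw [Finset.mem_val, Finset.mem_filter] at hx
    rw [mem_roots hne]
    exact th_eval_eq_zero f b hp hR hK u hu3 x hx.2.1 hx.2.2
  have hdeg := hcard.trans (natDegree_le (E := E) (R := R) f u hu1)
  have h1 : E + D + 2 - 1 = E + D + 1 := by omega
  have h2 : U + 1 - 1 = U := by omega
  rw [h1, h2, ← hDdef] at hdeg
  refine (Nat.mul_le_mul_left d hdeg).trans ?_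
  obtain ⟨e, rfl⟩ := Nat.exists_eq_add_of_le hd
  have h3 : 2 + e - 1 = e + 1 := by omega
  rw [h3]
  subst hU
  rw [hE]
  nlinarith

end Pool.Agent.Work.MP_e0aece_nt.Sq

end
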